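import Mathlib

namespace Pool.Agent.H17.Newton

/-- `α` is an increasing index sequence. -/
def Inc {k n : ℕ} (α : Fin k → Fin n) : Prop := ∀ i j, i < j → α i < α j

instance {k n : ℕ} (α : Fin k → Fin n) : Decidable (Inc α) := by unfold Inc; infer_instance

/-- All principal minors are positive. -/
def IsPMatrix {n : ℕ} (A : Matrix (Fin n) (Fin n) ℝ) : Prop :=
  ∀ (k : ℕ) (α : Fin k → Fin n), Inc α → 0 < (A.submatrix α α).det

/-- `A[α,β] A[β,α] ≥ 0` for all almost principal minors (dispersal `1`). -/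
def IsWeaklySignSymmetric {n : ℕ} (A : Matrix (Fin n) (Fin n) ℝ) : Prop :=
  ∀ (k : ℕ) (α β : Fin k → Fin n), Inc α → Inc β →
    (Finset.univ.image α ∩ Finset.univ.image β).card + 1 = k →
    0 ≤ (A.submatrix α β).det * (A.submatrix β α).det

/-- GKK matrices. -/
def IsGKK {n : ℕ} (A : Matrix (Fin n) (Fin n) ℝ) : Prop := IsPMatrix A ∧ IsWeaklySignSymmetric A

/-- `l(A(α)) ≤ l(A(β)) < ∞` for all nonempty `β ⊆ α`, where `l` is the least real eigenvalue. -/
def IsOmega {n : ℕ} (A : Matrix (Fin n) (Fin n) ℝ) : Prop :=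
  ∀ (k m : ℕ) (α : Fin k → Fin n) (β : Fin m → Fin n), Inc α → Inc β → 0 < m →
    (∀ j, ∃ i, β j = α i) →
    ∃ a b, IsLeast (spectrum ℝ (A.submatrix α α)) a ∧ IsLeast (spectrum ℝ (A.submatrix β β)) b ∧
      a ≤ b

/-- `τ`-matrices: `ω`-matrices with no negative real eigenvalue. -/
def IsTau {n : ℕ} (A : Matrix (Fin n) (Fin n) ℝ) : Prop := IsOmega A ∧ ∀ a ∈ spectrum ℝ A, 0 ≤ a

/-- Every (complex) eigenvalue has positive real part. -/
def IsStable {n : ℕ} (A : Matrix (Fin n) (Fin n) ℝ) : Prop :=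
  ∀ z ∈ spectrum ℂ (A.map (algebraMap ℝ ℂ)), 0 < z.re

/-- The normalised sum of the principal minors of order `j`. -/
noncomputable def c {n : ℕ} (A : Matrix (Fin n) (Fin n) ℝ) (j : ℕ) : ℝ :=
  (∑ α : Fin j → Fin n with Inc α, (A.submatrix α α).det) / (n.choose j : ℝ)

end Pool.Agent.H17.Newton
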