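import Mathlib
import Pool.Agent.H17.NewtonDef

namespace Pool.Agent.H17.Disp

open Pool.Agent.H17.Newton

/-- Condition `(S_d)`: `A[α,β] A[β,α] ≥ 0` for all increasing `α, β` of the same length `k` such
that the dispersal `k - #(α ∩ β)` is at most `d`. -/
def CondS {n : ℕ} (d : ℕ) (A : Matrix (Fin n) (Fin n) ℝ) : Prop :=
  ∀ (k : ℕ) (α β : Fin k → Fin n), Inc α → Inc β →
    k ≤ (Finset.univ.image α ∩ Finset.univ.image β).card + d →
    0 ≤ (A.submatrix α β).det * (A.submatrix β α).det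

/-- The numbers `d ∈ {1, …, n}` such that every `n × n` `P`-matrix satisfying `(S_d)` is stable;
`d(n)` is the least element. -/
def GoodD (n : ℕ) : Set ℕ :=
  {d | 1 ≤ d ∧ d ≤ n ∧ ∀ A : Matrix (Fin n) (Fin n) ℝ, IsPMatrix A → CondS d A → IsStable A}

end Pool.Agent.H17.Disp
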