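import Mathlib
import Pool.Agent.H17.NewtonDef

namespace Pool.Agent.H17.Newton

def A0 : Matrix (Fin 4) (Fin 4) ℤ := !![10,9,9,10;0,10,9,10;0,0,10,10;45,45,45,50]

/-- The counterexample. -/
noncomputable def AA : Matrix (Fin 4) (Fin 4) ℝ := A0.map (Int.castRingHom ℝ)

lemma det_cast {k : ℕ} (α β : Fin k → Fin 4) :
    (AA.submatrix α β).det = (((A0.submatrix α β).det : ℤ) : ℝ) := by
  have := RingHom.map_det (Int.castRingHom ℝ) (A0.submatrix α β)
  have h2 : (((A0.submatrix α β).det : ℤ) : ℝ) = Int.castRingHom ℝ (A0.submatrix α β).det := rfl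
  rw [h2, this]
  rfl

lemma Inc.inj {k n : ℕ} {α : Fin k → Fin n} (h : Inc α) : Function.Injective α := by
  intro i j hij
  rcases lt_trichotomy i j with h1 | h1 | h1
  · exact absurd hij (h i j h1).ne
  · exact h1
  · exact absurd hij (h j i h1).ne'

lemma Inc.le {k n : ℕ} {α : Fin k → Fin n} (h : Inc α) : k ≤ n := by
  simpa using Fintype.card_le_of_injective α h.inj

lemma isP : IsPMatrix AA := by
  intro k α hα
  rw [det_cast]
  have hk : k ≤ 4 := hα.le
  have h0 : ∀ α : Fin 0 → Fin 4, Inc α → 0 < (A0.submatrix α α).det := by decide +kernel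
  have h1 : ∀ α : Fin 1 → Fin 4, Inc α → 0 < (A0.submatrix α α).det := by decide +kernel
  have h2 : ∀ α : Fin 2 → Fin 4, Inc α → 0 < (A0.submatrix α α).det := by decide +kernel
  have h3 : ∀ α : Fin 3 → Fin 4, Inc α → 0 < (A0.submatrix α α).det := by decide +kernel
  have h4 : ∀ α : Fin 4 → Fin 4, Inc α → 0 < (A0.submatrix α α).det := by decide +kernel
  interval_cases k
  · exact_mod_cast h0 α hα
  · exact_mod_cast h1 α hα
  · exact_mod_cast h2 α hα
  · exact_mod_cast h3 α hα
  · exact_mod_cast h4 α hα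

lemma isWSS : IsWeaklySignSymmetric AA := by
  intro k α β hα hβ hc
  rw [det_cast, det_cast]
  have hk : k ≤ 4 := hα.le
  have h0 : ∀ α : Fin 0 → Fin 4, Inc α → ∀ β : Fin 0 → Fin 4, Inc β →
      (Finset.univ.image α ∩ Finset.univ.image β).card + 1 = 0 →
      0 ≤ (A0.submatrix α β).det * (A0.submatrix β α).det := by decide +kernel
  have h1 : ∀ α : Fin 1 → Fin 4, Inc α → ∀ β : Fin 1 → Fin 4, Inc β →
      (Finset.univ.image α ∩ Finset.univ.image β).card + 1 = 1 →
      0 ≤ (A0.submatrix α β).det * (A0.submatrix β α).det := by decide +kernel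
  have h2 : ∀ α : Fin 2 → Fin 4, Inc α → ∀ β : Fin 2 → Fin 4, Inc β →
      (Finset.univ.image α ∩ Finset.univ.image β).card + 1 = 2 →
      0 ≤ (A0.submatrix α β).det * (A0.submatrix β α).det := by decide +kernel
  have h3 : ∀ α : Fin 3 → Fin 4, Inc α → ∀ β : Fin 3 → Fin 4, Inc β →
      (Finset.univ.image α ∩ Finset.univ.image β).card + 1 = 3 →
      0 ≤ (A0.submatrix α β).det * (A0.submatrix β α).det := by decide +kernel
  have h4 : ∀ α : Fin 4 → Fin 4, Inc α → ∀ β : Fin 4 → Fin 4, Inc β →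
      (Finset.univ.image α ∩ Finset.univ.image β).card + 1 = 4 →
      0 ≤ (A0.submatrix α β).det * (A0.submatrix β α).det := by decide +kernel
  interval_cases k
  · exact_mod_cast h0 α hα β hβ hc
  · exact_mod_cast h1 α hα β hβ hc
  · exact_mod_cast h2 α hα β hβ hc
  · exact_mod_cast h3 α hα β hβ hc
  · exact_mod_cast h4 α hα β hβ hc

lemma newton : (c AA 2) ^ 2 < c AA 1 * c AA 3 := by
  have h1 : (∑ α : Fin 1 → Fin 4 with Inc α, (A0.submatrix α α).det) = 80 := by decide +kernel
  have h2 : (∑ α : Fin 2 → Fin 4 with Inc α, (A0.submatrix α α).det) = 450 := by decide +kernel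
  have h3 : (∑ α : Fin 3 → Fin 4 with Inc α, (A0.submatrix α α).det) = 1150 := by decide +kernel
  have e1 : c AA 1 = 20 := by
    have : (∑ α : Fin 1 → Fin 4 with Inc α, (AA.submatrix α α).det) = 80 := by
      simp_rw [det_cast]; exact_mod_cast h1
    rw [c, this]; norm_num [Nat.choose]
  have e2 : c AA 2 = 75 := by
    have : (∑ α : Fin 2 → Fin 4 with Inc α, (AA.submatrix α α).det) = 450 := by
      simp_rw [det_cast]; exact_mod_cast h2
    rw [c, this]; norm_num [Nat.choose]
  have e3 : c AA 3 = 575 / 2 := by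
    have : (∑ α : Fin 3 → Fin 4 with Inc α, (AA.submatrix α α).det) = 1150 := by
      simp_rw [det_cast]; exact_mod_cast h3
    rw [c, this]; norm_num [Nat.choose]
  rw [e1, e2, e3]; norm_num

end Pool.Agent.H17.Newton
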