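import Mathlib
import Pool.Agent.H17.NewtonDef

namespace Pool.Agent.H17.Str

open Pool.Agent.H17.Newton

/-- Strict GKK matrices: `P`-matrices all of whose almost principal minors (dispersal `1`)
satisfy `A[α,β] A[β,α] > 0`. -/
def IsStrictGKK {n : ℕ} (A : Matrix (Fin n) (Fin n) ℝ) : Prop :=
  IsPMatrix A ∧ ∀ (k : ℕ) (α β : Fin k → Fin n), Inc α → Inc β →
    (Finset.univ.image α ∩ Finset.univ.image β).card + 1 = k →
    0 < (A.submatrix α β).det * (A.submatrix β α).det

end Pool.Agent.H17.Str
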