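import Mathlib
import Pool.Agent.H17.StrDef
import Pool.Agent.H17.Newton1

namespace Pool.Agent.H17.Str

open Pool.Agent.H17.Newton

def B0 : Matrix (Fin 5) (Fin 5) ℤ := !![100000000000000,98999999000000,98999999000000,98999999000000,100000000000000;989999990000,100000000000000,98999999000000,98999999000000,100000000000000;9899999900,989999990000,100000000000000,98999999000000,100000000000000;98999999,9899999900,989999990000,100000000000000,100000000000000;9900000000000000,9900000000000000,9900000000000000,9900000000000000,10000000000000000]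

/-- The counterexample. -/
noncomputable def BB : Matrix (Fin 5) (Fin 5) ℝ := B0.map (Int.castRingHom ℝ)

lemma det_cast {k : ℕ} (α β : Fin k → Fin 5) :
    (BB.submatrix α β).det = (((B0.submatrix α β).det : ℤ) : ℝ) := by
  have := RingHom.map_det (Int.castRingHom ℝ) (B0.submatrix α β)
  have h2 : (((B0.submatrix α β).det : ℤ) : ℝ) = Int.castRingHom ℝ (B0.submatrix α β).det := rfl
  rw [h2, this]
  rfl

lemma p0 : ∀ α : Fin 0 → Fin 5, Inc α → 0 < (B0.submatrix α α).det := by decide +kernel

lemma p1 : ∀ α : Fin 1 → Fin 5, Inc α → 0 < (B0.submatrix α α).det := by decide +kernel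

lemma p2 : ∀ α : Fin 2 → Fin 5, Inc α → 0 < (B0.submatrix α α).det := by decide +kernel

lemma p3 : ∀ α : Fin 3 → Fin 5, Inc α → 0 < (B0.submatrix α α).det := by decide +kernel

lemma p4 : ∀ α : Fin 4 → Fin 5, Inc α → 0 < (B0.submatrix α α).det := by decide +kernel

lemma p5 : ∀ α : Fin 5 → Fin 5, Inc α → 0 < (B0.submatrix α α).det := by decide +kernel

lemma s0 : ∀ α : Fin 0 → Fin 5, Inc α → ∀ β : Fin 0 → Fin 5, Inc β →
    (Finset.univ.image α ∩ Finset.univ.image β).card + 1 = 0 →
    0 < (B0.submatrix α β).det * (B0.submatrix β α).det := by decide +kernel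

lemma s1 : ∀ α : Fin 1 → Fin 5, Inc α → ∀ β : Fin 1 → Fin 5, Inc β →
    (Finset.univ.image α ∩ Finset.univ.image β).card + 1 = 1 →
    0 < (B0.submatrix α β).det * (B0.submatrix β α).det := by decide +kernel

lemma s2 : ∀ α : Fin 2 → Fin 5, Inc α → ∀ β : Fin 2 → Fin 5, Inc β →
    (Finset.univ.image α ∩ Finset.univ.image β).card + 1 = 2 →
    0 < (B0.submatrix α β).det * (B0.submatrix β α).det := by decide +kernel

lemma s3 : ∀ α : Fin 3 → Fin 5, Inc α → ∀ β : Fin 3 → Fin 5, Inc β →
    (Finset.univ.image α ∩ Finset.univ.image β).card + 1 = 3 →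
    0 < (B0.submatrix α β).det * (B0.submatrix β α).det := by decide +kernel

lemma s4 : ∀ α : Fin 4 → Fin 5, Inc α → ∀ β : Fin 4 → Fin 5, Inc β →
    (Finset.univ.image α ∩ Finset.univ.image β).card + 1 = 4 →
    0 < (B0.submatrix α β).det * (B0.submatrix β α).det := by decide +kernel

lemma s5 : ∀ α : Fin 5 → Fin 5, Inc α → ∀ β : Fin 5 → Fin 5, Inc β →
    (Finset.univ.image α ∩ Finset.univ.image β).card + 1 = 5 →
    0 < (B0.submatrix α β).det * (B0.submatrix β α).det := by decide +kernel

lemma isP : IsPMatrix BB := by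
  intro k α hα
  rw [det_cast]
  have hk : k ≤ 5 := hα.le
  interval_cases k
  · exact_mod_cast p0 α hα
  · exact_mod_cast p1 α hα
  · exact_mod_cast p2 α hα
  · exact_mod_cast p3 α hα
  · exact_mod_cast p4 α hα
  · exact_mod_cast p5 α hα

lemma isStrict : IsStrictGKK BB := by
  refine ⟨isP, ?_⟩
  intro k α β hα hβ hc
  rw [det_cast, det_cast]
  have hk : k ≤ 5 := hα.le
  interval_cases k
  · exact_mod_cast s0 α hα β hβ hc
  · exact_mod_cast s1 α hα β hβ hc
  · exact_mod_cast s2 α hα β hβ hc
  · exact_mod_cast s3 α hα β hβ hc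
  · exact_mod_cast s4 α hα β hβ hc
  · exact_mod_cast s5 α hα β hβ hc

end Pool.Agent.H17.Str
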