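import Mathlib
import Pool.Agent.H17.Str1

namespace Pool.Agent.H17.Str

open Pool.Agent.H17.Newton Polynomial

lemma char5 {R : Type*} [CommRing R] (x : R) :
    (algebraMap R (Matrix (Fin 5) (Fin 5) R) x - B0.map (Int.castRingHom R)).det =
      x ^ 5 + (-10400000000000000) * x ^ 4 + (99704000004979797969799000000) * x ^ 3 + (-4001186091679070480069787999596000000000000) * x ^ 2 + (97128023869731444097554171881584000096000000000000000000) * x + (-193128704078117889310880000960000000000000000000000000000000000) := by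
  simp [B0, Matrix.det_succ_row_zero, Fin.sum_univ_succ, Matrix.algebraMap_matrix_apply, Fin.succAbove, Matrix.submatrix]
  ring

lemma quad {u v : ℝ} (h : ∀ z : ℂ, z ^ 2 + u * z + v = 0 → 0 < z.re) : u < 0 ∧ 0 < v := by
  rcases le_or_gt 0 (u ^ 2 - 4 * v) with hD | hD
  · set s := Real.sqrt (u ^ 2 - 4 * v) with hs
    have hs2 : s ^ 2 = u ^ 2 - 4 * v := Real.sq_sqrt hD
    have hs0 : 0 ≤ s := Real.sqrt_nonneg _
    have h1 := h (((-u - s) / 2 : ℝ) : ℂ) (by
      have : ((-u - s) / 2) ^ 2 + u * ((-u - s) / 2) + v = 0 := by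
        have : ((-u - s) / 2) ^ 2 + u * ((-u - s) / 2) + v = (s ^ 2 - (u ^ 2 - 4 * v)) / 4 := by ring
        rw [this, hs2]; ring
      exact_mod_cast this)
    rw [Complex.ofReal_re] at h1
    constructor
    · linarith
    · nlinarith
  · set s := Real.sqrt (-(u ^ 2 - 4 * v)) with hs
    have hs2 : s ^ 2 = -(u ^ 2 - 4 * v) := Real.sq_sqrt (by linarith)
    have h1 := h ⟨-u / 2, s / 2⟩ (by
      apply Complex.ext
      · simp [pow_two]
        nlinarith
      · simp [pow_two]
        ring)
    simp only at h1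
    constructor
    · linarith
    · nlinarith [sq_nonneg u]

/-- The characteristic polynomial. -/
noncomputable def f : ℝ[X] := X ^ 5 + (C (-10400000000000000) * X ^ 4 + C (99704000004979797969799000000) * X ^ 3 + C (-4001186091679070480069787999596000000000000) * X ^ 2 +
  C (97128023869731444097554171881584000096000000000000000000) * X + C (-193128704078117889310880000960000000000000000000000000000000000))

lemma f_monic : IsMonicOfDegree f 5 := by
  refine (isMonicOfDegree_X_pow ℝ 5).add_right ?_
  have : (C (-10400000000000000) * X ^ 4 + C (99704000004979797969799000000) * X ^ 3 + C (-4001186091679070480069787999596000000000000) * X ^ 2 +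
    C (97128023869731444097554171881584000096000000000000000000) * X + C (-193128704078117889310880000960000000000000000000000000000000000) : ℝ[X]).natDegree ≤ 4 := by compute_degree
  omega

lemma mem_specC {k : ℕ} (B : Matrix (Fin k) (Fin k) ℂ) (x : ℂ) :
    x ∈ spectrum ℂ B ↔ (algebraMap ℂ (Matrix (Fin k) (Fin k) ℂ) x - B).det = 0 := by
  rw [spectrum.mem_iff, Matrix.isUnit_iff_isUnit_det, isUnit_iff_ne_zero, not_not]

lemma BB_map : BB.map (algebraMap ℝ ℂ) = B0.map (Int.castRingHom ℂ) := by
  ext i j
  simp [BB]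

lemma unstable : ¬ IsStable BB := by
  intro hs
  obtain ⟨f1, f2, h1, h2, h12⟩ :=
    IsMonicOfDegree.eq_isMonicOfDegree_two_mul_isMonicOfDegree (n := 3) f_monic
  obtain ⟨f3, f4, h3, h4, h34⟩ :=
    IsMonicOfDegree.eq_isMonicOfDegree_two_mul_isMonicOfDegree (n := 1) h2
  obtain ⟨u, v, rfl⟩ := isMonicOfDegree_two_iff.mp h1
  obtain ⟨w, y, rfl⟩ := isMonicOfDegree_two_iff.mp h3
  obtain ⟨r, rfl⟩ := isMonicOfDegree_one_iff.mp h4
  subst h34
  have key : ∀ x : ℝ, x ^ 5 + (-10400000000000000) * x ^ 4 + (99704000004979797969799000000) * x ^ 3 + (-4001186091679070480069787999596000000000000) * x ^ 2 + (97128023869731444097554171881584000096000000000000000000) * x + (-193128704078117889310880000960000000000000000000000000000000000)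
      = (x ^ 2 + u * x + v) * ((x ^ 2 + w * x + y) * (x + r)) := by
    intro x
    have := congrArg (eval x) h12
    simp only [f, eval_add, eval_mul, eval_pow, eval_X, eval_C] at this
    rw [← this]; ring
  have keyC : ∀ x : ℂ, x ^ 5 + (-10400000000000000) * x ^ 4 + (99704000004979797969799000000) * x ^ 3 + (-4001186091679070480069787999596000000000000) * x ^ 2 + (97128023869731444097554171881584000096000000000000000000) * x + (-193128704078117889310880000960000000000000000000000000000000000)
      = (x ^ 2 + u * x + v) * ((x ^ 2 + w * x + y) * (x + r)) := by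
    intro x
    have := congrArg (aeval x) h12
    simp only [f, map_add, map_mul, map_pow, aeval_X, aeval_C, Complex.coe_algebraMap] at this
    rw [← this]; push_cast; ring
  have hz : ∀ z : ℂ, (z ^ 2 + u * z + v) * ((z ^ 2 + w * z + y) * (z + r)) = 0 → 0 < z.re := by
    intro z hz
    apply hs z
    rw [mem_specC, BB_map, char5, keyC, hz]
  obtain ⟨hu, hv⟩ := quad (fun z (h : z ^ 2 + u * z + v = 0) => hz z (by rw [h]; ring))
  obtain ⟨hw, hy⟩ := quad (fun z (h : z ^ 2 + w * z + y = 0) => hz z (by rw [h]; ring))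
  have hr := hz (-r) (by ring)
  rw [← Complex.ofReal_neg, Complex.ofReal_re] at hr
  have k0 := key 0
  have k1 := key 1
  have k1' := key (-1)
  have k2 := key 2
  have k2' := key (-2)
  have d1 : (10400000000000000 : ℝ) = -u + -w + -r := by
    linear_combination -(1/24) * (k2 + k2') + (1/6) * (k1 + k1') - (1/4) * k0
  have d3 : (4001186091679070480069787999596000000000000 : ℝ) = -u * y + v * -w + -r * (v + y + (-u) * (-w)) := by
    linear_combination -(2/3) * (k1 + k1') + (1/24) * (k2 + k2') + (5/4) * k0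
  have d2 : (99704000004979797969799000000 : ℝ) = v + y + (-u) * (-w) + (-r) * (-u + -w) := by
    linear_combination (1/12) * (k2 - k2') - (1/6) * (k1 - k1')
  have d4 : (97128023869731444097554171881584000096000000000000000000 : ℝ) = v * y + (-r) * (-u * y + v * -w) := by
    linear_combination (2/3) * (k1 - k1') - (1/12) * (k2 - k2')
  obtain ⟨U, hU⟩ : ∃ U, U = -u := ⟨_, rfl⟩
  obtain ⟨W, hW⟩ : ∃ W, W = -w := ⟨_, rfl⟩
  obtain ⟨R, hR⟩ : ∃ R, R = -r := ⟨_, rfl⟩
  rw [← hU, ← hW, ← hR] at d1 d2 d3 d4
  have hU0 : 0 < U := by linarith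
  have hW0 : 0 < W := by linarith
  have hR0 : 0 < R := by linarith
  have hpos : 0 < (v + y + U * W + R * (U + W)) * (U * y + v * W + R * (v + y + U * W)) -
      (U + W + R) * (v * y + R * (U * y + v * W)) := by
    have e : (v + y + U * W + R * (U + W)) * (U * y + v * W + R * (v + y + U * W)) -
      (U + W + R) * (v * y + R * (U * y + v * W)) = 1 * R * y ^ 2 + 1 * R * v * y + 1 * R * v ^ 2 + 1 * W * v ^ 2 + 1 * W * R ^ 2 * y + 1 * U * y ^ 2 + 1 * U * R ^ 2 * v + 2 * U * W * R * y + 2 * U * W * R * v + 1 * U * W ^ 2 * v + 1 * U * W ^ 2 * R ^ 2 + 1 * U ^ 2 * W * y + 1 * U ^ 2 * W * R ^ 2 + 1 * U ^ 2 * W ^ 2 * R := by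
      ring
    rw [e]; positivity
  rw [← d1, ← d2, ← d3, ← d4] at hpos
  norm_num at hpos

end Pool.Agent.H17.Str
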