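import Mathlib
import Pool.Agent.H17.DispDef
import Pool.Agent.H17.Str2

namespace Pool.Agent.H17.Disp

open Pool.Agent.H17.Newton Pool.Agent.H17.Str

/-- `A ⊕ [c]`. -/
def ext {R : Type*} [Zero R] {n : ℕ} (A : Matrix (Fin n) (Fin n) R) (c : R) :
    Matrix (Fin (n + 1)) (Fin (n + 1)) R :=
  Matrix.of fun i j => Fin.lastCases (motive := fun _ => R)
    (Fin.lastCases (motive := fun _ => R) c (fun _ => 0) j)
    (fun i' => Fin.lastCases (motive := fun _ => R) 0 (fun j' => A i' j') j) i

section
variable {R : Type*} [Zero R] {n : ℕ} (A : Matrix (Fin n) (Fin n) R) (c : R)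

@[simp] lemma ext_ll : ext A c (Fin.last n) (Fin.last n) = c := by simp [ext]
@[simp] lemma ext_lc (j : Fin n) : ext A c (Fin.last n) j.castSucc = 0 := by simp [ext]
@[simp] lemma ext_cl (i : Fin n) : ext A c i.castSucc (Fin.last n) = 0 := by simp [ext]
@[simp] lemma ext_cc (i j : Fin n) : ext A c i.castSucc j.castSucc = A i j := by simp [ext]
end

lemma det_ext {R : Type*} [CommRing R] {n : ℕ} (A : Matrix (Fin n) (Fin n) R) (c : R) :
    (ext A c).det = A.det * c := by
  rw [Matrix.det_succ_row (ext A c) (Fin.last n), Fin.sum_univ_castSucc]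
  have h0 : ∀ j : Fin n, (-1 : R) ^ ((Fin.last n : ℕ) + (j.castSucc : ℕ)) *
      ext A c (Fin.last n) j.castSucc *
      ((ext A c).submatrix (Fin.last n).succAbove j.castSucc.succAbove).det = 0 := by
    intro j; simp
  rw [Finset.sum_eq_zero (fun j _ => h0 j), zero_add, ext_ll]
  have h1 : (ext A c).submatrix (Fin.last n).succAbove (Fin.last n).succAbove = A := by
    ext i j
    simp [Fin.succAbove_last]
  rw [h1]
  have h2 : (-1 : R) ^ ((Fin.last n : ℕ) + (Fin.last n : ℕ)) = 1 := by
    rw [← two_mul, pow_mul]; simp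
  rw [h2]; ring

/-- extension of an index sequence. -/
def sn {m n : ℕ} (α : Fin m → Fin n) : Fin (m + 1) → Fin (n + 1) :=
  Fin.snoc (α := fun _ => Fin (n + 1)) (fun i => (α i).castSucc) (Fin.last n)

@[simp] lemma sn_last {m n : ℕ} (α : Fin m → Fin n) : sn α (Fin.last m) = Fin.last n := by
  simp [sn]
@[simp] lemma sn_cs {m n : ℕ} (α : Fin m → Fin n) (i : Fin m) :
    sn α i.castSucc = (α i).castSucc := by
  simp [sn]

lemma decomp {m n : ℕ} (α : Fin (m + 1) → Fin (n + 1)) (hα : Inc α) :
    (∃ α' : Fin (m + 1) → Fin n, Inc α' ∧ α = fun i => (α' i).castSucc) ∨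
    (∃ α' : Fin m → Fin n, Inc α' ∧ α = sn α') := by
  have key : ∀ i, i ≠ Fin.last m → α i ≠ Fin.last n := by
    intro i hi h
    have h1 := hα i (Fin.last m) (Fin.lt_last_iff_ne_last.2 hi)
    rw [h] at h1
    exact absurd (Fin.le_last _) (not_le.2 h1)
  by_cases hl : α (Fin.last m) = Fin.last n
  · right
    refine ⟨fun i => (α i.castSucc).castPred (key _ (Fin.castSucc_lt_last i).ne), ?_, ?_⟩
    · intro i j hij
      have := hα i.castSucc j.castSucc (by simpa using hij)
      simpa [Fin.castPred_lt_castPred_iff] using this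
    · ext i
      refine Fin.lastCases ?_ (fun i => ?_) i
      · simp [hl]
      · simp
  · left
    have key2 : ∀ i, α i ≠ Fin.last n := by
      intro i
      by_cases h : i = Fin.last m
      · rw [h]; exact hl
      · exact key i h
    refine ⟨fun i => (α i).castPred (key2 i), ?_, ?_⟩
    · intro i j hij
      have := hα i j hij
      simpa [Fin.castPred_lt_castPred_iff] using this
    · ext i
      simp

lemma sub_cc {n k : ℕ} {R : Type*} [Zero R] (A : Matrix (Fin n) (Fin n) R) (c : R)
    (α β : Fin k → Fin n) :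
    (ext A c).submatrix (fun i => (α i).castSucc) (fun i => (β i).castSucc) = A.submatrix α β := by
  ext i j; simp

lemma sub_ss {n k : ℕ} {R : Type*} [Zero R] (A : Matrix (Fin n) (Fin n) R) (c : R)
    (α β : Fin k → Fin n) :
    (ext A c).submatrix (sn α) (sn β) = ext (A.submatrix α β) c := by
  ext i j
  refine Fin.lastCases ?_ (fun i => ?_) i <;> refine Fin.lastCases ?_ (fun j => ?_) j <;> simp

lemma det_sc {n k : ℕ} (A : Matrix (Fin n) (Fin n) ℝ) (c : ℝ)
    (α : Fin k → Fin n) (β : Fin (k + 1) → Fin n) :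
    ((ext A c).submatrix (sn α) (fun i => (β i).castSucc)).det = 0 := by
  apply Matrix.det_eq_zero_of_row_eq_zero (Fin.last k)
  intro j; simp

lemma ext_P {n : ℕ} {A : Matrix (Fin n) (Fin n) ℝ} (h : IsPMatrix A) : IsPMatrix (ext A 1) := by
  intro k α hα
  rcases k with _ | m
  · simp
  · rcases decomp α hα with ⟨α', h', rfl⟩ | ⟨α', h', rfl⟩
    · rw [sub_cc]; exact h _ _ h'
    · rw [sub_ss, det_ext, mul_one]; exact h _ _ h'

lemma card_cc {n k : ℕ} (α β : Fin k → Fin n) :
    (Finset.univ.image (fun i => (α i).castSucc) ∩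
      Finset.univ.image (fun i => (β i).castSucc)).card =
    (Finset.univ.image α ∩ Finset.univ.image β).card := by
  have e : ∀ γ : Fin k → Fin n, Finset.univ.image (fun i => (γ i).castSucc) =
      (Finset.univ.image γ).map Fin.castSuccEmb := by
    intro γ
    ext x
    simp
  rw [e α, e β, ← Finset.map_inter, Finset.card_map]

lemma card_ss {n k : ℕ} (α β : Fin k → Fin n) :
    (Finset.univ.image (sn α) ∩ Finset.univ.image (sn β)).card =
    (Finset.univ.image α ∩ Finset.univ.image β).card + 1 := by
  have e : ∀ γ : Fin k → Fin n, Finset.univ.image (sn γ) =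
      insert (Fin.last n) ((Finset.univ.image γ).map Fin.castSuccEmb) := by
    intro γ
    ext x
    simp only [Finset.mem_image, Finset.mem_univ, true_and, Finset.mem_insert, Finset.mem_map,
      Fin.coe_castSuccEmb]
    constructor
    · rintro ⟨i, rfl⟩
      refine Fin.lastCases ?_ (fun i => ?_) i
      · left; simp
      · right; exact ⟨γ i, ⟨i, rfl⟩, by simp⟩
    · rintro (rfl | ⟨_, ⟨i, rfl⟩, rfl⟩)
      · exact ⟨Fin.last k, by simp⟩
      · exact ⟨i.castSucc, by simp⟩
  rw [e α, e β, ← Finset.insert_inter_distrib, ← Finset.map_inter, Finset.card_insert_of_notMem,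
    Finset.card_map]
  simp only [Finset.mem_map, not_exists, not_and]
  intro x _ hx
  exact absurd hx (Fin.castSucc_lt_last x).ne

lemma ext_S {n d : ℕ} {A : Matrix (Fin n) (Fin n) ℝ} (h : CondS d A) : CondS d (ext A 1) := by
  intro k α β hα hβ hk
  rcases k with _ | m
  · simp
  · rcases decomp α hα with ⟨α', h1, rfl⟩ | ⟨α', h1, rfl⟩ <;>
    rcases decomp β hβ with ⟨β', h2, rfl⟩ | ⟨β', h2, rfl⟩
    · rw [card_cc] at hk
      rw [sub_cc, sub_cc]
      exact h _ _ _ h1 h2 hk
    · rw [det_sc, mul_zero]
    · rw [det_sc, zero_mul]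
    · rw [card_ss] at hk
      rw [sub_ss, sub_ss, det_ext, det_ext, mul_one, mul_one]
      exact h _ _ _ h1 h2 (by omega)

lemma ext_unst {n : ℕ} {A : Matrix (Fin n) (Fin n) ℝ} (h : ¬ IsStable A) :
    ¬ IsStable (ext A 1) := by
  intro hs
  apply h
  intro z hz
  apply hs z
  rw [Matrix.mem_spectrum_iff_isRoot_charpoly, Polynomial.IsRoot.def, Matrix.eval_charpoly] at hz ⊢
  have e : Matrix.scalar (Fin (n + 1)) z - (ext A 1).map (algebraMap ℝ ℂ) =
      ext (Matrix.scalar (Fin n) z - A.map (algebraMap ℝ ℂ)) (z - 1) := by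
    ext i j
    refine Fin.lastCases ?_ (fun i => ?_) i <;> refine Fin.lastCases ?_ (fun j => ?_) j
    · simp
    · simp [Matrix.diagonal, (Fin.castSucc_lt_last j).ne']
    · simp [Matrix.diagonal, (Fin.castSucc_lt_last i).ne]
    · simp [Matrix.diagonal]
  rw [e, det_ext, hz, zero_mul]

lemma BB_S : CondS 1 BB := by
  intro k α β hα hβ hk
  by_cases hc : (Finset.univ.image α ∩ Finset.univ.image β).card + 1 = k
  · exact (isStrict.2 k α β hα hβ hc).le
  · -- α = β
    have cα : (Finset.univ.image α).card = k := by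
      rw [Finset.card_image_of_injective]
      · simp
      · intro i j hij
        rcases lt_trichotomy i j with h | h | h
        · exact absurd hij (hα i j h).ne
        · exact h
        · exact absurd hij.symm (hα j i h).ne
    have cβ : (Finset.univ.image β).card = k := by
      rw [Finset.card_image_of_injective]
      · simp
      · intro i j hij
        rcases lt_trichotomy i j with h | h | h
        · exact absurd hij (hβ i j h).ne
        · exact h
        · exact absurd hij.symm (hβ j i h).ne
    have hle := Finset.card_le_card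
      (Finset.inter_subset_left (s₁ := Finset.univ.image α) (s₂ := Finset.univ.image β))
    have hcard : (Finset.univ.image α ∩ Finset.univ.image β).card = k := by omega
    have e1 : Finset.univ.image α ∩ Finset.univ.image β = Finset.univ.image α :=
      Finset.eq_of_subset_of_card_le Finset.inter_subset_left (by omega)
    have e2 : Finset.univ.image α ∩ Finset.univ.image β = Finset.univ.image β :=
      Finset.eq_of_subset_of_card_le Finset.inter_subset_right (by omega)
    have hab : α = β := by
      have sα : StrictMono α := fun i j h => hα i j h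
      have sβ : StrictMono β := fun i j h => hβ i j h
      apply (StrictMono.range_inj sα sβ).1
      have : (Finset.univ.image α : Finset (Fin 5)) = Finset.univ.image β := e1.symm.trans e2
      have := congrArg (fun s : Finset (Fin 5) => (s : Set (Fin 5))) this
      simpa using this
    subst hab
    exact mul_self_nonneg _

theorem exists_bad (n : ℕ) (hn : 5 ≤ n) :
    ∃ A : Matrix (Fin n) (Fin n) ℝ, IsPMatrix A ∧ CondS 1 A ∧ ¬ IsStable A := by
  induction n, hn using Nat.le_induction with
  | base => exact ⟨BB, isP, BB_S, unstable⟩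
  | succ n hn ih =>
    obtain ⟨A, h1, h2, h3⟩ := ih
    exact ⟨ext A 1, ext_P h1, ext_S h2, ext_unst h3⟩

end Pool.Agent.H17.Disp
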