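import Mathlib

set_option autoImplicit false
universe u
open Cardinal

namespace Pool.Agent.H17.ER

section tree
variable {X C : Type u} [LinearOrder X] [WellFoundedLT X]

noncomputable def tr (f : X → X → X → C) : X → X → Prop :=
  (wellFounded_lt (α := X)).fix (fun y rec x => y < x ∧ ∀ a (ha : a < y), ∀ b (hb : b < y), rec a ha y → rec b hb y → f a b y = f a b x)

lemma tr_eq (f : X → X → X → C) (y x : X) : tr f y x = (y < x ∧ ∀ a, ∀ _ : a < y, ∀ b, ∀ _ : b < y, tr f a y → tr f b y → f a b y = f a b x) := by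
  unfold tr
  rw [WellFounded.fix_eq]

lemma exR (f : X → X → X → C) : ∃ R : X → X → Prop, ∀ y x, R y x ↔ (y < x ∧ ∀ a b, R a y → R b y → f a b y = f a b x) := by
  refine ⟨tr f, fun y x => ?_⟩
  constructor
  · intro h
    rw [tr_eq] at h
    refine ⟨h.1, fun a b ha hb => ?_⟩
    have ha' : a < y := by rw [tr_eq] at ha; exact ha.1
    have hb' : b < y := by rw [tr_eq] at hb; exact hb.1
    exact h.2 a ha' b hb' ha hb
  · intro h
    rw [tr_eq]
    exact ⟨h.1, fun a _ b _ ha hb => h.2 a b ha hb⟩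

variable (f : X → X → X → C) (R : X → X → Prop)
  (hR : ∀ y x, R y x ↔ (y < x ∧ ∀ a b, R a y → R b y → f a b y = f a b x))

include hR in
lemma R_lt {y x : X} (h : R y x) : y < x := ((hR y x).mp h).1

include hR in
lemma R_trans : ∀ a y x : X, R a y → R y x → R a x := by
  intro a
  induction a using WellFoundedLT.induction with
  | ind a ih =>
    intro y x hay hyx
    rw [hR]
    refine ⟨(R_lt f R hR hay).trans (R_lt f R hR hyx), fun c d hc hd => ?_⟩
    rw [((hR a y).mp hay).2 c d hc hd]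
    exact ((hR y x).mp hyx).2 c d (ih c (R_lt f R hR hc) a y hc hay) (ih d (R_lt f R hR hd) a y hd hay)

include hR in
lemma R_lin : ∀ a z x : X, R a x → R z x → a < z → R a z := by
  intro a
  induction a using WellFoundedLT.induction with
  | ind a ih =>
    intro z x hax hzx haz
    rw [hR]
    refine ⟨haz, fun c d hc hd => ?_⟩
    have hc' := R_lt f R hR hc
    have hd' := R_lt f R hR hd
    have hcz := ih c hc' z x (R_trans f R hR c a x hc hax) hzx (hc'.trans haz)
    have hdz := ih d hd' z x (R_trans f R hR d a x hd hax) hzx (hd'.trans haz)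
    rw [((hR a x).mp hax).2 c d hc hd, ((hR z x).mp hzx).2 c d hcz hdz]

include hR in
lemma R_endhom {a b c x : X} (ha : R a x) (hb : R b x) (hc : R c x) (hac : a < c) (hbc : b < c) : f a b c = f a b x :=
  ((hR c x).mp hc).2 a b (R_lin f R hR a c x ha hc hac) (R_lin f R hR b c x hb hc hbc)

include hR in
lemma R_unique {x x' : X} (h1 : ∀ a, R a x ↔ R a x') (h2 : ∀ a b, R a x → R b x → f a b x = f a b x') : x = x' := by
  rcases lt_trichotomy x x' with h | h | h
  · exfalso
    have : R x x' := (hR x x').mpr ⟨h, h2⟩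
    exact lt_irrefl _ (R_lt f R hR ((h1 x).mpr this))
  · exact h
  · exfalso
    have : R x' x := (hR x' x).mpr ⟨h, fun a b ha hb => (h2 a b ((h1 a).mpr ha) ((h1 b).mpr hb)).symm⟩
    exact lt_irrefl _ (R_lt f R hR ((h1 x').mp this))

/-- If all predecessor sets are small, then `X` is small. -/
theorem tree_bound [Finite C] (κ : Cardinal.{u}) (hκ : ℵ₀ ≤ κ)
    (hR : ∀ y x, R y x ↔ (y < x ∧ ∀ a b, R a y → R b y → f a b y = f a b x))
    (hsmall : ∀ x, #{y // R y x} ≤ κ) : #X ≤ 2 ^ κ := by
  classical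
  -- a type of size κ
  obtain ⟨K, hK⟩ : ∃ K : Type u, #K = κ := ⟨κ.out, Cardinal.mk_out κ⟩
  have hemb : ∀ x, Nonempty ({y // R y x} ↪ K) := by
    intro x
    have := hsmall x
    rw [← hK] at this
    exact Cardinal.le_def _ _ |>.mp this
  let i : ∀ x, {y // R y x} ↪ K := fun x => (hemb x).some
  -- the code
  let dom : X → Set K := fun x => Set.range (i x)
  let rel : X → Set (K × K) := fun x => {p | ∃ a b : {y // R y x}, i x a = p.1 ∧ i x b = p.2 ∧ a.1 < b.1}
  let col : X → (K × K → Option C) := fun x p =>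
    if h : ∃ a b : {y // R y x}, i x a = p.1 ∧ i x b = p.2 then some (f h.choose.1 h.choose_spec.choose.1 x) else none
  have hcol : ∀ x (a b : {y // R y x}), col x (i x a, i x b) = some (f a.1 b.1 x) := by
    intro x a b
    have h : ∃ a' b' : {y // R y x}, i x a' = (i x a, i x b).1 ∧ i x b' = (i x a, i x b).2 := ⟨a, b, rfl, rfl⟩
    simp only [col]
    rw [dif_pos h]
    have e1 : h.choose = a := (i x).injective h.choose_spec.choose_spec.1
    have e2 : h.choose_spec.choose = b := (i x).injective h.choose_spec.choose_spec.2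
    rw [e2, e1]
  have hrel : ∀ x (a b : {y // R y x}), (i x a, i x b) ∈ rel x ↔ a.1 < b.1 := by
    intro x a b
    constructor
    · rintro ⟨a', b', h1, h2, h3⟩
      have e1 : a' = a := (i x).injective h1
      have e2 : b' = b := (i x).injective h2
      rw [← e1, ← e2]; exact h3
    · intro h; exact ⟨a, b, rfl, rfl, h⟩
  let code : X → Set K × Set (K × K) × (K × K → Option C) := fun x => (dom x, rel x, col x)
  have hinj : Function.Injective code := by
    intro x x' hcode
    simp only [code, Prod.mk.injEq] at hcode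
    obtain ⟨hd, hr, hc⟩ := hcode
    -- correspondence
    have hφ : ∀ a : {y // R y x}, ∃ a' : {y // R y x'}, i x' a' = i x a := by
      intro a
      have : i x a ∈ dom x := ⟨a, rfl⟩
      rw [hd] at this
      exact this
    have hψ : ∀ a' : {y // R y x'}, ∃ a : {y // R y x}, i x a = i x' a' := by
      intro a'
      have : i x' a' ∈ dom x' := ⟨a', rfl⟩
      rw [← hd] at this
      exact this
    have key : ∀ (y : X) (hy : R y x) (a' : {y // R y x'}), i x' a' = i x ⟨y, hy⟩ → a'.1 = y := by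
      intro y
      induction y using WellFoundedLT.induction with
      | ind y ih =>
        intro hy a' ha'
        -- pred y = pred a'
        have h1 : ∀ c, R c y → R c a'.1 ∧ ∃ (hcx : R c x) (hcx' : R c x'), i x' ⟨c, hcx'⟩ = i x ⟨c, hcx⟩ := by
          intro c hcy
          have hcx := R_trans f R hR c y x hcy hy
          obtain ⟨c', hc'⟩ := hφ ⟨c, hcx⟩
          have e := ih c (R_lt f R hR hcy) hcx c' hc'
          have hlt : (i x ⟨c, hcx⟩, i x ⟨y, hy⟩) ∈ rel x := (hrel x ⟨c, hcx⟩ ⟨y, hy⟩).mpr (R_lt f R hR hcy)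
          rw [hr, ← hc', ← ha', hrel] at hlt
          rw [e] at hlt
          have hcx' : R c x' := e ▸ c'.2
          refine ⟨R_lin f R hR c a'.1 x' hcx' a'.2 hlt, hcx, hcx', ?_⟩
          have : (⟨c, hcx'⟩ : {y // R y x'}) = c' := Subtype.ext e.symm
          rw [this, hc']
        have h2 : ∀ c, R c a'.1 → R c y := by
          intro c hca
          have hcx' := R_trans f R hR c a'.1 x' hca a'.2
          obtain ⟨c0, hc0⟩ := hψ ⟨c, hcx'⟩
          have hlt : (i x' ⟨c, hcx'⟩, i x' a') ∈ rel x' := (hrel x' ⟨c, hcx'⟩ a').mpr (R_lt f R hR hca)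
          rw [← hr, ← hc0, ha', hrel] at hlt
          have e := ih c0.1 hlt c0.2 ⟨c, hcx'⟩ hc0.symm
          simp only at e
          rw [e]
          exact R_lin f R hR c0.1 y x c0.2 hy hlt
        apply R_unique f R hR
        · intro c; exact ⟨h2 c, fun h => (h1 c h).1⟩
        · intro c d hc' hd'
          have hcy := h2 c hc'
          have hdy := h2 d hd'
          obtain ⟨_, hcx, hcx', ec⟩ := h1 c hcy
          obtain ⟨_, hdx, hdx', ed⟩ := h1 d hdy
          have e1 : f c d a'.1 = f c d x' := ((hR a'.1 x').mp a'.2).2 c d hc' hd'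
          have e2 : f c d y = f c d x := ((hR y x).mp hy).2 c d hcy hdy
          have e3 := hcol x ⟨c, hcx⟩ ⟨d, hdx⟩
          have e4 := hcol x' ⟨c, hcx'⟩ ⟨d, hdx'⟩
          rw [ec, ed, ← hc, e3] at e4
          rw [e1, e2]
          exact (Option.some.inj e4).symm
    apply R_unique f R hR
    · intro a
      constructor
      · intro ha
        obtain ⟨a', ha'⟩ := hφ ⟨a, ha⟩
        have := key a ha a' ha'
        rw [← this]; exact a'.2
      · intro ha
        obtain ⟨a0, ha0⟩ := hψ ⟨a, ha⟩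
        have := key a0.1 a0.2 ⟨a, ha⟩ ha0.symm
        simp only at this
        rw [this]; exact a0.2
    · intro a b ha hb
      obtain ⟨a', ha'⟩ := hφ ⟨a, ha⟩
      obtain ⟨b', hb'⟩ := hφ ⟨b, hb⟩
      have ea := key a ha a' ha'
      have eb := key b hb b' hb'
      have e3 := hcol x ⟨a, ha⟩ ⟨b, hb⟩
      have e4 := hcol x' a' b'
      rw [ha', hb', ← hc, e3, ea, eb] at e4
      exact Option.some.inj e4
  have h1 : #X ≤ #(Set K × Set (K × K) × (K × K → Option C)) := Cardinal.mk_le_of_injective hinj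
  refine h1.trans ?_
  rw [Cardinal.mk_prod, Cardinal.mk_prod, Cardinal.mk_set, Cardinal.mk_set, Cardinal.mk_arrow]
  simp only [Cardinal.lift_id, Cardinal.mk_prod, hK]
  have hKK : κ * κ = κ := Cardinal.mul_eq_self hκ
  rw [hKK]
  have hC : #(Option C) ≤ 2 ^ κ := by
    have : #(Option C) < ℵ₀ := Cardinal.mk_lt_aleph0
    exact this.le.trans (hκ.trans (Cardinal.cantor κ).le)
  have h2k : ℵ₀ ≤ (2:Cardinal.{u}) ^ κ := hκ.trans (Cardinal.cantor κ).le
  have h3 : #(Option C) ^ κ ≤ 2 ^ κ := by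
    calc #(Option C) ^ κ ≤ (2 ^ κ) ^ κ := Cardinal.power_le_power_right hC
      _ = 2 ^ κ := by rw [← Cardinal.power_mul, hKK]
  calc (2:Cardinal.{u}) ^ κ * (2 ^ κ * #(Option C) ^ κ) ≤ 2 ^ κ * (2 ^ κ * 2 ^ κ) := by gcongr
    _ = 2 ^ κ := by rw [Cardinal.mul_eq_self h2k, Cardinal.mul_eq_self h2k]

end tree

/-- Erdős–Rado for triples with finitely many colours. -/
theorem erdos_rado3 {X C : Type u} [LinearOrder X] [WellFoundedLT X] [Finite C] (f : X → X → X → C) (μ : Cardinal.{u}) (hμ : ℵ₀ ≤ μ)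
    (hX : 2 ^ (2 ^ μ : Cardinal.{u}) < #X) : ∃ (H : Set X) (t : X), μ < #H ∧ t ∉ H ∧ (∀ a ∈ H, a < t) ∧ ∃ c : C, 
      ∀ a ∈ insert t H, ∀ b ∈ insert t H, ∀ d ∈ insert t H, a < b → b < d → f a b d = c := by
  classical
  obtain ⟨R, hR⟩ := exR f
  have h1 : ∃ x, 2 ^ μ < #{y // R y x} := by
    by_contra hcon
    push Not at hcon
    have := tree_bound f R (2 ^ μ) (hμ.trans (Cardinal.cantor μ).le) hR hcon
    exact absurd hX (not_lt.mpr this)
  obtain ⟨x, hx⟩ := h1
  -- second application
  let Y := {y // R y x}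
  let f' : Y → Y → Y → C := fun _ b c => f b.1 c.1 x
  obtain ⟨R', hR'⟩ := exR f'
  have h2 : ∃ z : Y, μ < #{y // R' y z} := by
    by_contra hcon
    push Not at hcon
    have := tree_bound f' R' μ hμ hR' hcon
    exact absurd hx (not_lt.mpr this)
  obtain ⟨z, hz⟩ := h2
  let Z := {y : Y // R' y z}
  let h : Z → C := fun b => f b.1.1 z.1 x
  have hreg : #C < (Order.succ μ).ord.cof := by
    rw [(Cardinal.isRegular_succ hμ).cof_ord]
    exact (Cardinal.mk_lt_aleph0).trans_le (hμ.trans (Order.le_succ μ))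
  obtain ⟨c, hc⟩ := Cardinal.infinite_pigeonhole_card h (Order.succ μ) (Order.succ_le_of_lt hz) (hμ.trans (Order.le_succ μ)) hreg
  have hlt : ∀ a ∈ (fun b : Z => b.1.1) '' (h ⁻¹' {c}), a < z.1 := by
    rintro _ ⟨b, _, rfl⟩
    exact R_lt f' R' hR' b.2
  refine ⟨(fun b : Z => b.1.1) '' (h ⁻¹' {c}), z.1, ?_, fun hh => lt_irrefl _ (hlt _ hh), hlt, c, ?_⟩
  · rw [Cardinal.mk_image_eq]
    · exact lt_of_lt_of_le (Order.lt_succ μ) hc
    · intro a b hab
      exact Subtype.ext (Subtype.ext hab)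
  · intro a ha b hb d hd hab hbd
    -- b and a are in the image
    have hdz : d = z.1 ∨ d < z.1 := by
      rcases hd with hd | hd
      · left; exact hd
      · right; exact hlt d hd
    have hd_le : d ≤ z.1 := by
      rcases hdz with h | h
      · exact h.le
      · exact h.le
    have hb' : b ∈ (fun b : Z => b.1.1) '' (h ⁻¹' {c}) := by
      rcases hb with hb | hb
      · exfalso; rw [hb] at hbd; exact absurd hbd (not_lt.mpr hd_le)
      · exact hb
    have ha' : a ∈ (fun b : Z => b.1.1) '' (h ⁻¹' {c}) := by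
      rcases ha with ha | ha
      · exfalso; rw [ha] at hab; exact absurd (hab.trans hbd) (not_lt.mpr hd_le)
      · exact ha
    have hdR : R d x := by
      rcases hd with hd | ⟨d', _, rfl⟩
      · rw [hd]; exact z.2
      · exact d'.1.2
    obtain ⟨a', ha1, rfl⟩ := ha'
    obtain ⟨b', hb1, rfl⟩ := hb'
    simp only at hab hbd ⊢
    have e1 : f a'.1.1 b'.1.1 d = f a'.1.1 b'.1.1 x := R_endhom f R hR a'.1.2 b'.1.2 hdR (hab.trans hbd) hbd
    have e2 : f' a'.1 a'.1 b'.1 = f' a'.1 a'.1 z := R_endhom f' R' hR' a'.2 a'.2 b'.2 hab hab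
    have e3 : h a' = c := ha1
    rw [e1]
    exact e2.trans e3

end Pool.Agent.H17.ER
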