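import Mathlib

namespace Pool.Agent.H17.Endp

open Finset

/-- vertices: `a_(i,ε)`, `m_x` (`∑ x = 0`), pendants `p_i`. -/
abbrev V (k : ℕ) := (Fin k × ZMod 2) ⊕ ({x : Fin k → ZMod 2 // ∑ i, x i = 0} ⊕ Fin k)

def adj {k : ℕ} (t : Fin k → ZMod 2) : V k → V k → Prop
  | .inl a, .inl b => a.1 = b.1 ∧ a.2 ≠ b.2
  | .inl a, .inr (.inl x) => x.1 a.1 = a.2
  | .inr (.inl x), .inl a => x.1 a.1 = a.2
  | .inl a, .inr (.inr p) => a = (p, t p)
  | .inr (.inr p), .inl a => a = (p, t p)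
  | .inr _, .inr _ => False

def Γ {k : ℕ} (t : Fin k → ZMod 2) : SimpleGraph (V k) where
  Adj := adj t
  symm := ⟨by
    rintro (a | x | p) (b | y | q) h <;> simp only [adj] at h ⊢
    · exact ⟨h.1.symm, h.2.symm⟩
    · exact h
    · exact h
    · exact h
    · exact h⟩
  loopless := ⟨by
    rintro (a | x | p) h <;> simp only [adj] at h
    exact h.2 rfl⟩

lemma zz (a : ZMod 2) : a + a = 0 := CharTwo.add_self_eq_zero a

lemma endpt {k : ℕ} (t : Fin (k + 2) → ZMod 2) (v : V (k + 2)) :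
    (∃! w, (Γ t).Adj v w) ↔ ∃ i, v = .inr (.inr i) := by
  constructor
  · rintro ⟨w, hw, huniq⟩
    rcases v with a | x | p
    · exfalso
      have h1 := huniq (.inl (a.1, a.2 + 1)) (by
        show a.1 = a.1 ∧ a.2 ≠ a.2 + 1
        exact ⟨rfl, by simp⟩)
      obtain ⟨j, hj⟩ : ∃ j : Fin (k + 2), j ≠ a.1 := exists_ne a.1
      have h2 := huniq (.inr (.inl ⟨fun i => if i = a.1 then a.2 else if i = j then a.2 else 0, by
        rw [← Finset.add_sum_erase _ _ (Finset.mem_univ a.1),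
          ← Finset.add_sum_erase _ _ (Finset.mem_erase.2 ⟨hj, Finset.mem_univ j⟩)]
        rw [Finset.sum_eq_zero]
        · simp [hj, zz]
        · intro i hi
          simp only [Finset.mem_erase, Finset.mem_univ, and_true] at hi
          simp [hi.1, hi.2]⟩)) (by
        show (if a.1 = a.1 then a.2 else _) = a.2
        simp)
      rw [← h2] at h1
      cases h1
    · exfalso
      have h1 := huniq (.inl (0, x.1 0)) rfl
      have h2 := huniq (.inl (1, x.1 1)) rfl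
      rw [← h2] at h1
      simp at h1
    · exact ⟨p, rfl⟩
  · rintro ⟨i, rfl⟩
    refine ⟨.inl (i, t i), rfl, ?_⟩
    rintro (b | y | q) h
    · have : b = (i, t i) := h
      rw [this]
    · exact h.elim
    · exact h.elim

/-- The flip. -/
def flip {k : ℕ} (s : Fin k → ZMod 2) (hs : ∑ i, s i = 0) : V k → V k
  | .inl a => .inl (a.1, a.2 + s a.1)
  | .inr (.inl x) => .inr (.inl ⟨fun i => x.1 i + s i, by rw [Finset.sum_add_distrib, x.2, hs]; rfl⟩)
  | .inr (.inr p) => .inr (.inr p)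

lemma flip_inv {k : ℕ} (s : Fin k → ZMod 2) (hs : ∑ i, s i = 0) :
    Function.Involutive (flip s hs) := by
  rintro (a | x | p)
  · simp [flip, add_assoc, zz]
  · simp [flip, add_assoc, zz]
  · rfl

lemma flip_adj {k : ℕ} (s : Fin k → ZMod 2) (hs : ∑ i, s i = 0) (t t' : Fin k → ZMod 2) (j : Fin k)
    (ht : ∀ i, i ≠ j → t' i = t i + s i) (u v : V k) (hu : u ≠ .inr (.inr j))
    (hv : v ≠ .inr (.inr j)) :
    (Γ t').Adj (flip s hs u) (flip s hs v) ↔ (Γ t).Adj u v := by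
  rcases u with a | x | p <;> rcases v with b | y | q
  · show (a.1 = b.1 ∧ a.2 + s a.1 ≠ b.2 + s b.1) ↔ (a.1 = b.1 ∧ a.2 ≠ b.2)
    constructor
    · rintro ⟨h1, h2⟩
      exact ⟨h1, fun h => h2 (by rw [h, h1])⟩
    · rintro ⟨h1, h2⟩
      refine ⟨h1, fun h => h2 ?_⟩
      rw [h1] at h
      exact add_right_cancel h
  · show y.1 a.1 + s a.1 = a.2 + s a.1 ↔ y.1 a.1 = a.2
    exact add_left_inj _
  · have hq : q ≠ j := fun h => hv (by rw [h])
    show ((a.1, a.2 + s a.1) : Fin k × ZMod 2) = (q, t' q) ↔ a = (q, t q)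
    rw [ht q hq]
    obtain ⟨a1, a2⟩ := a
    simp only [Prod.mk.injEq]
    constructor
    · rintro ⟨rfl, h⟩
      exact ⟨rfl, add_right_cancel h⟩
    · rintro ⟨rfl, rfl⟩
      exact ⟨rfl, rfl⟩
  · show x.1 b.1 + s b.1 = b.2 + s b.1 ↔ x.1 b.1 = b.2
    exact add_left_inj _
  · exact Iff.rfl
  · exact Iff.rfl
  · have hq : p ≠ j := fun h => hu (by rw [h])
    show ((b.1, b.2 + s b.1) : Fin k × ZMod 2) = (p, t' p) ↔ b = (p, t p)
    rw [ht p hq]
    obtain ⟨a1, a2⟩ := b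
    simp only [Prod.mk.injEq]
    constructor
    · rintro ⟨rfl, h⟩
      exact ⟨rfl, add_right_cancel h⟩
    · rintro ⟨rfl, rfl⟩
      exact ⟨rfl, rfl⟩
  · exact Iff.rfl
  · exact Iff.rfl

lemma flip_ne {k : ℕ} (s : Fin k → ZMod 2) (hs : ∑ i, s i = 0) (j : Fin k) (u : V k) :
    flip s hs u ≠ .inr (.inr j) ↔ u ≠ .inr (.inr j) := by
  rcases u with a | x | p <;> simp [flip]

/-- cards agree. -/
lemma cards {k : ℕ} (t t' : Fin k → ZMod 2) (j : Fin k) :
    ∃ φ : V k ≃ V k, (∀ u, φ u ≠ .inr (.inr j) ↔ u ≠ .inr (.inr j)) ∧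
      ∀ u v, u ≠ .inr (.inr j) → v ≠ .inr (.inr j) → ((Γ t').Adj (φ u) (φ v) ↔ (Γ t).Adj u v) := by
  classical
  let s : Fin k → ZMod 2 := fun i => if i = j then ∑ i ∈ univ.erase j, (t i + t' i) else t i + t' i
  have hs : ∑ i, s i = 0 := by
    rw [← Finset.add_sum_erase _ _ (Finset.mem_univ j)]
    have e : ∑ i ∈ univ.erase j, s i = ∑ i ∈ univ.erase j, (t i + t' i) := by
      apply Finset.sum_congr rfl
      intro i hi
      simp only [Finset.mem_erase, Finset.mem_univ, and_true] at hi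
      simp [s, hi]
    rw [e]
    simp [s, zz]
  refine ⟨(flip_inv s hs).toPerm, fun u => flip_ne s hs j u, fun u v hu hv => ?_⟩
  exact flip_adj s hs t t' j (fun i hi => by simp [s, hi, ← add_assoc, zz]) u v hu hv

lemma noniso {k : ℕ} (f : Γ (fun _ : Fin (k + 2) => 0) ≃g Γ (fun i : Fin (k + 2) => if i = 0 then 1 else 0)) :
    False := by
  set t : Fin (k + 2) → ZMod 2 := fun i => if i = 0 then 1 else 0 with ht
  let m0 : V (k + 2) := .inr (.inl ⟨fun _ => 0, by simp⟩)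
  have key : ∀ i, (Γ t).Adj (f m0) (.inl (i, t i)) := by
    intro i
    have h1 : ∃! w, (Γ t).Adj (.inr (.inr i)) w := (endpt t _).2 ⟨i, rfl⟩
    have h2 : ∃! w, (Γ (fun _ : Fin (k + 2) => 0)).Adj (f.symm (.inr (.inr i))) w := by
      obtain ⟨w, hw, hu⟩ := h1
      refine ⟨f.symm w, f.symm.map_adj_iff.2 hw, ?_⟩
      intro y hy
      have := hu (f y) (by
        show (Γ t).Adj _ _
        rw [← f.symm.map_adj_iff]; simpa using hy)
      rw [← this]; simp
    obtain ⟨i', hi'⟩ := (endpt _ _).1 h2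
    have h3 : f (.inr (.inr i')) = .inr (.inr i) := by rw [← hi']; simp
    have h4 : (Γ t).Adj (f (.inr (.inr i'))) (f (.inl (i', 0))) := f.map_adj_iff.2 rfl
    rw [h3] at h4
    have h5 : f (.inl (i', 0)) = .inl (i, t i) := by
      have hh : (Γ t).Adj (.inr (.inr i)) (.inl (i, t i)) := rfl
      exact h1.unique h4 hh
    rw [← h5]
    exact f.map_adj_iff.2 rfl
  rcases hv : f m0 with a | x | p
  · rw [hv] at key
    obtain ⟨j, hj⟩ : ∃ j : Fin (k + 2), j ≠ a.1 := exists_ne a.1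
    exact hj (key j).1.symm
  · rw [hv] at key
    have h1 : ∀ i, x.1 i = t i := fun i => key i
    have h2 := x.2
    rw [Finset.sum_congr rfl (fun i _ => h1 i)] at h2
    simp [ht] at h2
  · rw [hv] at key
    obtain ⟨j, hj⟩ : ∃ j : Fin (k + 2), j ≠ p := exists_ne p
    have := key j
    have h : ((j, t j) : Fin (k + 2) × ZMod 2) = (p, t p) := this
    exact hj (Prod.mk.inj h).1

theorem main : ¬ (∃ k : ℕ, ∀ (n m : ℕ) (G : SimpleGraph (Fin n)) (H : SimpleGraph (Fin m)),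
      k ≤ {v : Fin n | ∃! w, G.Adj v w}.ncard →
      (∃ σ : {v : Fin n // ∃! w, G.Adj v w} ≃ {v : Fin m // ∃! w, H.Adj v w},
        ∀ v : {v : Fin n // ∃! w, G.Adj v w},
          Nonempty (G.induce ({v.1}ᶜ : Set (Fin n)) ≃g H.induce ({(σ v).1}ᶜ : Set (Fin m)))) →
      Nonempty (G ≃g H)) := by
  rintro ⟨k, h⟩
  let e : V (k + 2) ≃ Fin (Fintype.card (V (k + 2))) := Fintype.equivFin _
  let GG := fun t : Fin (k + 2) → ZMod 2 => (Γ t).comap e.symm
  have iso : ∀ t, GG t ≃g Γ t := fun t => SimpleGraph.Iso.comap e.symm (Γ t)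
  have ep : ∀ t v, (∃! w, (GG t).Adj v w) ↔ ∃ i, v = e (.inr (.inr i)) := by
    intro t v
    have h1 : (∃! w, (GG t).Adj v w) ↔ ∃! w, (Γ t).Adj (e.symm v) w := by
      constructor
      · rintro ⟨w, hw, hu⟩
        refine ⟨e.symm w, hw, fun y hy => ?_⟩
        rw [← hu (e y) (by show (Γ t).Adj _ _; simpa using hy)]
        simp
      · rintro ⟨w, hw, hu⟩
        refine ⟨e w, by show (Γ t).Adj _ _; simpa using hw, fun y hy => ?_⟩
        rw [← hu (e.symm y) hy]
        simp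
    rw [h1, endpt]
    constructor
    · rintro ⟨i, hi⟩; exact ⟨i, by rw [← hi]; simp⟩
    · rintro ⟨i, hi⟩; exact ⟨i, by rw [hi]; simp⟩
  let t0 : Fin (k + 2) → ZMod 2 := fun _ => 0
  let t1 : Fin (k + 2) → ZMod 2 := fun i => if i = 0 then 1 else 0
  have hk : k ≤ {v | ∃! w, (GG t0).Adj v w}.ncard := by
    have e1 : {v | ∃! w, (GG t0).Adj v w} = Set.range (fun i : Fin (k + 2) => e (.inr (.inr i))) := by
      ext v
      rw [Set.mem_ofPred_eq, ep, Set.mem_range]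
      constructor
      · rintro ⟨i, hi⟩; exact ⟨i, hi.symm⟩
      · rintro ⟨i, hi⟩; exact ⟨i, hi.symm⟩
    rw [e1, ← Set.image_univ, Set.ncard_image_of_injective]
    · simp
    · intro i j hij
      have := e.injective hij
      simpa using this
  obtain ⟨f⟩ := h _ _ (GG t0) (GG t1) hk ⟨Equiv.subtypeEquivRight (fun v => by rw [ep, ep]), by
    rintro ⟨v, hv⟩
    obtain ⟨j, rfl⟩ := (ep _ _).1 hv
    obtain ⟨φ, h1, h2⟩ := cards t0 t1 j
    refine ⟨⟨((e.symm.trans φ).trans e).subtypeEquiv ?_, ?_⟩⟩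
    · intro a
      have := h1 (e.symm a)
      show a ≠ e (.inr (.inr j)) ↔ e (φ (e.symm a)) ≠ e (.inr (.inr j))
      rw [e.injective.ne_iff, this, ne_eq, ne_eq, Equiv.symm_apply_eq]
    · rintro ⟨a, ha⟩ ⟨b, hb⟩
      have ha' : e.symm a ≠ .inr (.inr j) := fun h => ha (by simp [← h])
      have hb' : e.symm b ≠ .inr (.inr j) := fun h => hb (by simp [← h])
      have := h2 _ _ ha' hb'
      show (Γ t1).Adj (e.symm (e (φ (e.symm a)))) (e.symm (e (φ (e.symm b)))) ↔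
        (Γ t0).Adj (e.symm a) (e.symm b)
      simpa using this⟩
  exact noniso ((iso t0).symm.trans (f.trans (iso t1)))

end Pool.Agent.H17.Endp
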