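import Mathlib

namespace Pool.Agent.H17.Fac

variable {M q : ℕ}

lemma ap_inv {α : Type*} (π : Equiv.Perm α) (x : α) : π (π⁻¹ x) = x := π.apply_symm_apply x

lemma inv_ap {α : Type*} (π : Equiv.Perm α) (x : α) : π⁻¹ (π x) = x := π.symm_apply_apply x

/-- Reading one letter: a letter below `q` is added to the state, any other letter resets it. -/
def step (i : ZMod M) (s : ZMod q) : ZMod q := if i.val < q then s + (i.val : ZMod q) else 0

/-- Finitary tree automorphisms with rotation labels. -/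
def IsCas (π : Equiv.Perm (ℕ →₀ ZMod M)) : Prop :=
  (∃ N : ℕ, ∀ ω : ℕ →₀ ZMod M, ∀ j, N ≤ j → π ω j = ω j) ∧
    ∀ (j : ℕ) (ω ω' : ℕ →₀ ZMod M), (∀ i < j, ω i = ω' i) → π ω j - ω j = π ω' j - ω' j

lemma IsCas.agree {π : Equiv.Perm (ℕ →₀ ZMod M)} (h : IsCas π) {j : ℕ} {ω ω' : ℕ →₀ ZMod M}
    (hw : ∀ i < j, ω i = ω' i) : ∀ i < j, π ω i = π ω' i := by
  intro i hi
  have h1 := h.2 i ω ω' (fun k hk => hw k (hk.trans hi))
  have h2 := hw i hi
  rw [h2] at h1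
  exact sub_left_injective h1

lemma IsCas.agree_inv {π : Equiv.Perm (ℕ →₀ ZMod M)} (h : IsCas π) {j : ℕ} {ω ω' : ℕ →₀ ZMod M}
    (hw : ∀ i < j, π ω i = π ω' i) : ∀ i < j, ω i = ω' i := by
  intro i
  induction i using Nat.strong_induction_on with
  | _ i ih =>
    intro hi
    have h1 := h.2 i ω ω' (fun k hk => ih k hk (hk.trans hi))
    rw [hw i hi] at h1
    exact sub_right_injective h1

/-- The group of finitary tree automorphisms. -/
def P (M : ℕ) : Subgroup (Equiv.Perm (ℕ →₀ ZMod M)) where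
  carrier := {π | IsCas π}
  one_mem' := ⟨⟨0, fun ω j _ => rfl⟩, fun j ω ω' _ => by simp⟩
  mul_mem' := by
    rintro π ρ hπ hρ
    obtain ⟨⟨N, hN⟩, h2⟩ := id hπ
    obtain ⟨⟨N', hN'⟩, h2'⟩ := id hρ
    refine ⟨⟨max N N', fun ω j hj => ?_⟩, fun j ω ω' hw => ?_⟩
    · rw [Equiv.Perm.mul_apply, hN _ _ ((le_max_left _ _).trans hj),
        hN' _ _ ((le_max_right _ _).trans hj)]
    · rw [Equiv.Perm.mul_apply, Equiv.Perm.mul_apply]
      have e1 := h2 j (ρ ω) (ρ ω') (IsCas.agree hρ hw)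
      have e2 := h2' j ω ω' hw
      have : π (ρ ω) j - ω j = (π (ρ ω) j - ρ ω j) + (ρ ω j - ω j) := by ring
      rw [this, e1, e2]; ring
  inv_mem' := by
    intro π hπ
    obtain ⟨⟨N, hN⟩, h2⟩ := id hπ
    refine ⟨⟨N, fun ω j hj => ?_⟩, fun j ω ω' hw => ?_⟩
    · have := hN (π⁻¹ ω) j hj
      rw [ap_inv] at this
      exact this.symm
    · have hag : ∀ i < j, (π⁻¹ ω) i = (π⁻¹ ω') i := by
        apply IsCas.agree_inv hπ
        intro i hi
        rw [ap_inv, ap_inv]; exact hw i hi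
      have := h2 j (π⁻¹ ω) (π⁻¹ ω') hag
      rw [ap_inv, ap_inv] at this
      have e : (π⁻¹ ω) j - ω j = -(ω j - (π⁻¹ ω) j) := by ring
      rw [e, this]; ring

lemma mem_P {π : Equiv.Perm (ℕ →₀ ZMod M)} : π ∈ P M ↔ IsCas π := Iff.rfl

lemma pow_fix {ρ : Equiv.Perm (ℕ →₀ ZMod M)} (hρ : IsCas ρ) {j : ℕ}
    (hfix : ∀ ω : ℕ →₀ ZMod M, ∀ i < j, ρ ω i = ω i) (k : ℕ) (ω : ℕ →₀ ZMod M) :
    (∀ i < j, (ρ ^ k) ω i = ω i) ∧ (ρ ^ k) ω j = ω j + k * (ρ ω j - ω j) := by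
  induction k with
  | zero => simp
  | succ k ih =>
    rw [pow_succ']
    refine ⟨fun i hi => ?_, ?_⟩
    · rw [Equiv.Perm.mul_apply, hfix _ _ hi, ih.1 i hi]
    · rw [Equiv.Perm.mul_apply]
      have := hρ.2 j ((ρ ^ k) ω) ω ih.1
      have e : ρ ((ρ ^ k) ω) j = (ρ ((ρ ^ k) ω) j - (ρ ^ k) ω j) + (ρ ^ k) ω j := by ring
      rw [e, this, ih.2]; push_cast; ring

lemma pow_fix' {π : Equiv.Perm (ℕ →₀ ZMod M)} (hπ : π ∈ P M) (j : ℕ) :
    ∀ ω : ℕ →₀ ZMod M, ∀ i < j, (π ^ (M ^ j)) ω i = ω i := by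
  induction j with
  | zero => intro ω i hi; omega
  | succ j ih =>
    intro ω i hi
    have hρ : IsCas (π ^ (M ^ j)) := (P M).pow_mem hπ _
    have := pow_fix hρ ih M ω
    rw [pow_succ, pow_mul]
    rcases Nat.lt_succ_iff_lt_or_eq.mp hi with h | h
    · exact this.1 i h
    · subst h
      rw [this.2]; simp

lemma pow_fix_top {π : Equiv.Perm (ℕ →₀ ZMod M)} {N : ℕ}
    (hN : ∀ ω : ℕ →₀ ZMod M, ∀ j, N ≤ j → π ω j = ω j) (k : ℕ) (ω : ℕ →₀ ZMod M) (j : ℕ)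
    (hj : N ≤ j) : (π ^ k) ω j = ω j := by
  induction k with
  | zero => simp
  | succ k ih => rw [pow_succ', Equiv.Perm.mul_apply, hN _ _ hj, ih]

lemma exists_pow_eq_one (π : P M) : ∃ k : ℕ, π ^ (M ^ k) = 1 := by
  obtain ⟨⟨N, hN⟩, _⟩ := id π.2
  refine ⟨N, ?_⟩
  apply Subtype.ext
  rw [Subgroup.coe_pow, Subgroup.coe_one]
  apply Equiv.ext
  intro ω
  apply Finsupp.ext
  intro j
  rw [Equiv.Perm.one_apply]
  rcases lt_or_ge j N with h | h
  · exact pow_fix' π.2 N ω j h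
  · exact pow_fix_top hN _ ω j h

lemma isPGroup_P {p e : ℕ} : IsPGroup p (P (p ^ e)) := by
  intro π
  obtain ⟨k, hk⟩ := exists_pow_eq_one π
  exact ⟨e * k, by rw [pow_mul]; exact hk⟩

/-- The automorphisms of depth at most `N`. -/
def PN (M N : ℕ) : Subgroup (P M) where
  carrier := {π | ∀ ω : ℕ →₀ ZMod M, ∀ j, N ≤ j → π.1 ω j = ω j}
  one_mem' := fun ω j _ => rfl
  mul_mem' := by
    intro π ρ hπ hρ ω j hj
    show π.1 (ρ.1 ω) j = ω j
    rw [hπ _ _ hj, hρ _ _ hj]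
  inv_mem' := by
    intro π hπ ω j hj
    show (π.1⁻¹ ω) j = ω j
    have := hπ (π.1⁻¹ ω) j hj
    rw [ap_inv] at this
    exact this.symm

lemma PN_mono {N N' : ℕ} (h : N ≤ N') : PN M N ≤ PN M N' :=
  fun _ hπ ω j hj => hπ ω j (h.trans hj)

lemma exists_mem_PN (π : P M) : ∃ N, π ∈ PN M N := by
  obtain ⟨⟨N, hN⟩, _⟩ := id π.2
  exact ⟨N, hN⟩

noncomputable def ext0 (N : ℕ) (x : Fin N → ZMod M) : ℕ →₀ ZMod M :=
  Finsupp.onFinset (Finset.range N) (fun j => if h : j < N then x ⟨j, h⟩ else 0) (by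
    intro j hj
    by_contra hc
    rw [Finset.mem_range] at hc
    simp [hc] at hj)

lemma ext0_apply {N : ℕ} (x : Fin N → ZMod M) {j : ℕ} (h : j < N) : ext0 N x j = x ⟨j, h⟩ := by
  simp [ext0, h]

instance finite_PN [NeZero M] (N : ℕ) : Finite (PN M N) := by
  have : Function.Injective (fun (π : PN M N) (x : Fin N → ZMod M) (j : Fin N) =>
      π.1.1 (ext0 N x) j) := by
    intro π ρ h
    apply Subtype.ext
    apply Subtype.ext
    apply Equiv.ext
    intro ω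
    apply Finsupp.ext
    intro j
    rcases lt_or_ge j N with hj | hj
    · have hag : ∀ i < j, ω i = (ext0 N (fun k => ω k)) i := by
        intro i hi
        rw [ext0_apply _ (hi.trans hj)]
      have h1 := π.1.2.2 j _ _ hag
      have h2 := ρ.1.2.2 j _ _ hag
      have h3 : π.1.1 (ext0 N (fun k => ω k)) j = ρ.1.1 (ext0 N (fun k => ω k)) j := by
        have := congrFun (congrFun h (fun k => ω k)) ⟨j, hj⟩
        exact this
      rw [h3] at h1
      exact sub_left_injective (h1.trans h2.symm)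
    · rw [π.2 _ _ hj, ρ.2 _ _ hj]
  exact Finite.of_injective _ this

lemma solvable_of_fg {p e : ℕ} (hp : p.Prime) (R : Subgroup (P (p ^ e))) (hR : R.FG) :
    Group.IsSolvable R := by
  have : Fact p.Prime := ⟨hp⟩
  have : NeZero (p ^ e) := ⟨(pow_pos hp.pos _).ne'⟩
  obtain ⟨S, hS⟩ := hR
  have : ∃ N, ∀ x ∈ S, x ∈ PN (p ^ e) N := by
    choose f hf using fun x : P (p ^ e) => exists_mem_PN x
    exact ⟨S.sup f, fun x hx => PN_mono (Finset.le_sup hx) (hf x)⟩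
  obtain ⟨N, hN⟩ := this
  have hle : R ≤ PN (p ^ e) N := by
    rw [← hS, Subgroup.closure_le]
    exact fun x hx => hN x hx
  have hpg : IsPGroup p (PN (p ^ e) N) := isPGroup_P.to_subgroup _
  have := hpg.isNilpotent
  have : Group.IsSolvable (PN (p ^ e) N) := inferInstance
  exact Group.isSolvable_of_isSolvable_injective (Subgroup.inclusion_injective hle)

end Pool.Agent.H17.Fac
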