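import Mathlib
import Pool.Agent.H17.Fac1

namespace Pool.Agent.H17.Fac

variable {M q : ℕ}

/-- Closeness of two states. -/
def C (k : ℕ) (s t : ZMod q) : Prop := s = t ∨ (t = 0 ∧ s.val ≤ k) ∨ (s = 0 ∧ t.val ≤ k)

open Classical in
/-- The rotation used for a pair of states. -/
noncomputable def lam (M : ℕ) {q : ℕ} (s t : ZMod q) : ZMod M :=
  if s = t then 0 else if t = 0 then -(s.val : ZMod M) else if s = 0 then (t.val : ZMod M)
    else (q : ZMod M)

lemma val_cast {n x : ℕ} (h : x < n) : ((x : ℕ) : ZMod n).val = x := ZMod.val_natCast_of_lt h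

lemma one_step [NeZero q] [NeZero M] (hM : 2 * q ≤ M) {k : ℕ} {s t : ZMod q} (h : C (k + 1) s t)
    (i : ZMod M) : C k (step (i + lam M s t) s) (step i t) := by
  have hq : 0 < q := Nat.pos_of_ne_zero (NeZero.ne q)
  obtain ⟨x, hx, rfl⟩ : ∃ x : ℕ, x < M ∧ (x : ZMod M) = i :=
    ⟨i.val, ZMod.val_lt i, ZMod.natCast_zmod_val i⟩
  by_cases hst : s = t
  · left
    subst hst
    simp [lam]
  have hcase : (t = 0 ∧ s.val ≤ k + 1) ∨ (s = 0 ∧ t.val ≤ k + 1) := by
    rcases h with h | h | h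
    · exact absurd h hst
    · exact Or.inl h
    · exact Or.inr h
  rcases hcase with ⟨ht, hs⟩ | ⟨hs, ht⟩
  · subst ht
    obtain ⟨a, ha, rfl⟩ : ∃ a : ℕ, a < q ∧ (a : ZMod q) = s :=
      ⟨s.val, ZMod.val_lt s, ZMod.natCast_zmod_val s⟩
    rw [val_cast ha] at hs
    have ha0 : 0 < a := by
      rcases Nat.eq_zero_or_pos a with h0 | h0
      · subst h0; simp at hst
      · exact h0
    have hl : lam M ((a : ℕ) : ZMod q) 0 = -((a : ℕ) : ZMod M) := by
      simp only [lam, if_neg hst, if_true, val_cast ha]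
    rw [hl]
    rcases lt_or_ge x a with h1 | h1
    · have e : ((x : ℕ) : ZMod M) + -((a : ℕ) : ZMod M) = ((x + M - a : ℕ) : ZMod M) := by
        rw [Nat.cast_sub (by omega)]; push_cast; simp [sub_eq_add_neg]
      rw [e]
      right; right
      refine ⟨?_, ?_⟩
      · simp only [step]
        rw [val_cast (by omega), if_neg (by omega)]
      · simp only [step]
        rw [val_cast hx, if_pos (by omega), zero_add, val_cast (by omega)]; omega
    · have e : ((x : ℕ) : ZMod M) + -((a : ℕ) : ZMod M) = ((x - a : ℕ) : ZMod M) := by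
        rw [Nat.cast_sub h1]; simp [sub_eq_add_neg]
      rw [e]
      simp only [step]
      rw [val_cast (show x - a < M by omega), val_cast hx]
      rcases lt_or_ge x q with h2 | h2
      · left
        rw [if_pos (by omega), if_pos h2, Nat.cast_sub h1]; ring
      · rw [if_neg (show ¬ x < q by omega)]
        rcases lt_or_ge x (q + a) with h3 | h3
        · right; left
          refine ⟨rfl, ?_⟩
          rw [if_pos (by omega)]
          have : ((a : ℕ) : ZMod q) + ((x - a : ℕ) : ZMod q) = ((x - q : ℕ) : ZMod q) := by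
            rw [Nat.cast_sub h1, Nat.cast_sub h2]; simp
          rw [this, val_cast (by omega)]; omega
        · left
          rw [if_neg (by omega)]
  · subst hs
    obtain ⟨b, hb, rfl⟩ : ∃ b : ℕ, b < q ∧ (b : ZMod q) = t :=
      ⟨t.val, ZMod.val_lt t, ZMod.natCast_zmod_val t⟩
    rw [val_cast hb] at ht
    have hb0 : ((b : ℕ) : ZMod q) ≠ 0 := fun h0 => hst h0.symm
    have hl : lam M 0 ((b : ℕ) : ZMod q) = ((b : ℕ) : ZMod M) := by
      simp only [lam, if_neg hst, if_neg hb0, if_true, val_cast hb]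
    rw [hl]
    have e : ((x : ℕ) : ZMod M) + ((b : ℕ) : ZMod M) = ((x + b : ℕ) : ZMod M) := by push_cast; ring
    rcases lt_or_ge (x + b) M with h1 | h1
    · rw [e]
      simp only [step]
      rw [val_cast h1, val_cast hx]
      rcases lt_or_ge (x + b) q with h2 | h2
      · left
        rw [if_pos h2, if_pos (by omega)]; push_cast; ring
      · rw [if_neg (show ¬ x + b < q by omega)]
        rcases lt_or_ge x q with h3 | h3
        · right; right
          refine ⟨rfl, ?_⟩
          rw [if_pos h3]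
          have : ((b : ℕ) : ZMod q) + ((x : ℕ) : ZMod q) = ((b + x - q : ℕ) : ZMod q) := by
            rw [Nat.cast_sub (by omega)]; push_cast; simp
          rw [this, val_cast (by omega)]; omega
        · left
          rw [if_neg (by omega)]
    · have e2 : ((x : ℕ) : ZMod M) + ((b : ℕ) : ZMod M) = ((x + b - M : ℕ) : ZMod M) := by
        rw [Nat.cast_sub h1]; push_cast; simp
      rw [e2]
      simp only [step]
      rw [val_cast (show x + b - M < M by omega), val_cast hx]
      right; left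
      refine ⟨by rw [if_neg (by omega)], ?_⟩
      rw [if_pos (by omega), zero_add, val_cast (by omega)]; omega

/-- The first rotation by `q` makes one of the two states vanish. -/
lemma first_step [NeZero q] [NeZero M] (hM : 2 * q ≤ M) (s t : ZMod q)
    (i : ZMod M) : C q (step (i + (q : ZMod M)) s) (step i t) := by
  have hq : 0 < q := Nat.pos_of_ne_zero (NeZero.ne q)
  obtain ⟨x, hx, rfl⟩ : ∃ x : ℕ, x < M ∧ (x : ZMod M) = i :=
    ⟨i.val, ZMod.val_lt i, ZMod.natCast_zmod_val i⟩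
  have e : ((x : ℕ) : ZMod M) + ((q : ℕ) : ZMod M) = ((x + q : ℕ) : ZMod M) := by push_cast; ring
  rcases lt_or_ge (x + q) M with h1 | h1
  · right; right
    refine ⟨?_, (ZMod.val_lt _).le⟩
    rw [e]
    simp only [step]
    rw [val_cast h1, if_neg (by omega)]
  · right; left
    refine ⟨?_, (ZMod.val_lt _).le⟩
    simp only [step]
    rw [val_cast hx, if_neg (by omega)]

/-- A function follows the automaton from position `n` on. -/
def St (F : (ℕ →₀ ZMod M) → ZMod q) (n : ℕ) : Prop :=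
  ∀ m, n ≤ m → ∀ ω : ℕ →₀ ZMod M, (∀ j, m < j → ω j = 0) → F ω = step (ω m) (F (ω.erase m))

lemma St.mono {F : (ℕ →₀ ZMod M) → ZMod q} {n n' : ℕ} (h : St F n) (hn : n ≤ n') : St F n' :=
  fun m hm => h m (hn.trans hm)

lemma erase_apply' (ω : ℕ →₀ ZMod M) (m j : ℕ) : ω.erase m j = if j = m then 0 else ω j := by
  rw [Finsupp.erase_apply]

lemma P_erase {π : Equiv.Perm (ℕ →₀ ZMod M)} (hπ : IsCas π) {N : ℕ}
    (hN : ∀ ω : ℕ →₀ ZMod M, ∀ j, N ≤ j → π ω j = ω j) {m : ℕ} (hm : N ≤ m)
    (ω : ℕ →₀ ZMod M) : π (ω.erase m) = (π ω).erase m := by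
  apply Finsupp.ext
  intro j
  rcases lt_trichotomy j m with h | h | h
  · rw [erase_apply' (π ω), if_neg h.ne]
    apply IsCas.agree hπ (j := m) _ j h
    intro i hi
    rw [erase_apply', if_neg hi.ne]
  · subst h
    rw [hN _ _ hm, Finsupp.erase_same, Finsupp.erase_same]
  · rw [hN _ _ (hm.trans h.le), erase_apply', erase_apply', if_neg h.ne', if_neg h.ne',
      hN _ _ (hm.trans h.le)]

lemma St.comp {F : (ℕ →₀ ZMod M) → ZMod q} {n : ℕ} (h : St F n)
    {π : Equiv.Perm (ℕ →₀ ZMod M)} (hπ : IsCas π) {N : ℕ}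
    (hN : ∀ ω : ℕ →₀ ZMod M, ∀ j, N ≤ j → π ω j = ω j) : St (fun ω => F (π ω)) (max n N) := by
  intro m hm ω hω
  have hnm : n ≤ m := (le_max_left _ _).trans hm
  have hNm : N ≤ m := (le_max_right _ _).trans hm
  show F (π ω) = step (ω m) (F (π (ω.erase m)))
  rw [P_erase hπ hN hNm, h m hnm (π ω) (fun j hj => by rw [hN _ _ (hNm.trans hj.le), hω j hj]),
    hN _ _ hNm]

/-- Truncation. -/
noncomputable def trunc (n : ℕ) (ω : ℕ →₀ ZMod M) : ℕ →₀ ZMod M := ω.filter (· < n)

lemma trunc_apply (n : ℕ) (ω : ℕ →₀ ZMod M) (j : ℕ) :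
    trunc n ω j = if j < n then ω j else 0 := by
  rw [trunc, Finsupp.filter_apply]

lemma trunc_congr {n : ℕ} {ω ω' : ℕ →₀ ZMod M} (h : ∀ i < n, ω i = ω' i) :
    trunc n ω = trunc n ω' := by
  apply Finsupp.ext
  intro j
  rw [trunc_apply, trunc_apply]
  split_ifs with hj
  · exact h j hj
  · rfl

lemma upd_apply (ω : ℕ →₀ ZMod M) (n : ℕ) (a : ZMod M) (j : ℕ) :
    ω.update n a j = if j = n then a else ω j := by
  rw [Finsupp.coe_update, Function.update_apply]

lemma trunc_update (n : ℕ) (ω : ℕ →₀ ZMod M) (a : ZMod M) : trunc n (ω.update n a) = trunc n ω := by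
  apply trunc_congr
  intro i hi
  rw [upd_apply, if_neg hi.ne]

/-- A shift of one coordinate depending on the previous ones. -/
noncomputable def shf (n : ℕ) (l : (ℕ →₀ ZMod M) → ZMod M) : Equiv.Perm (ℕ →₀ ZMod M) where
  toFun ω := ω.update n (ω n + l (trunc n ω))
  invFun ω := ω.update n (ω n - l (trunc n ω))
  left_inv ω := by
    apply Finsupp.ext
    intro j
    beta_reduce
    rw [trunc_update, upd_apply, upd_apply, upd_apply, if_pos rfl]
    split_ifs with h
    · rw [h]; ring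
    · rfl
  right_inv ω := by
    apply Finsupp.ext
    intro j
    beta_reduce
    rw [trunc_update, upd_apply, upd_apply, upd_apply, if_pos rfl]
    split_ifs with h
    · rw [h]; ring
    · rfl

lemma shf_apply (n : ℕ) (l : (ℕ →₀ ZMod M) → ZMod M) (ω : ℕ →₀ ZMod M) (j : ℕ) :
    shf n l ω j = if j = n then ω n + l (trunc n ω) else ω j := by
  show (ω.update n (ω n + l (trunc n ω))) j = _
  rw [upd_apply]

lemma shf_top (n : ℕ) (l : (ℕ →₀ ZMod M) → ZMod M) (ω : ℕ →₀ ZMod M) (j : ℕ) (hj : n + 1 ≤ j) :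
    shf n l ω j = ω j := by
  rw [shf_apply, if_neg (by omega)]

lemma shf_mem (n : ℕ) (l : (ℕ →₀ ZMod M) → ZMod M) : IsCas (shf n l) := by
  refine ⟨⟨n + 1, shf_top n l⟩, fun j ω ω' h => ?_⟩
  rw [shf_apply, shf_apply]
  split_ifs with hj
  · subst hj
    rw [trunc_congr h]; ring
  · ring

/-- One level of the construction. -/
lemma level [NeZero q] [NeZero M] {F G : (ℕ →₀ ZMod M) → ZMod q} {n : ℕ} (hF : St F n)
    (hG : St G n) (l : (ℕ →₀ ZMod M) → ZMod M) {k : ℕ}
    (hl : ∀ η : ℕ →₀ ZMod M, (∀ j, n ≤ j → η j = 0) → ∀ i : ZMod M,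
      C k (step (i + l η) (F η)) (step i (G η))) :
    St (fun ω => F (shf n l ω)) (n + 1) ∧ St G (n + 1) ∧
      ∀ ω : ℕ →₀ ZMod M, (∀ j, n + 1 ≤ j → ω j = 0) → C k (F (shf n l ω)) (G ω) := by
  refine ⟨?_, hG.mono (Nat.le_succ n), ?_⟩
  · have := hF.comp (shf_mem n l) (shf_top n l)
    rwa [max_eq_right (Nat.le_succ n)] at this
  · intro ω hω
    have h1 : ∀ j, n < j → shf n l ω j = 0 := fun j hj => by
      rw [shf_top n l ω j hj, hω j hj]
    rw [hF n le_rfl _ h1, hG n le_rfl ω (fun j hj => hω j hj)]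
    have e1 : (shf n l ω).erase n = trunc n ω := by
      apply Finsupp.ext
      intro j
      rw [erase_apply', trunc_apply, shf_apply]
      rcases lt_trichotomy j n with h | h | h
      · rw [if_neg h.ne, if_neg h.ne, if_pos h]
      · rw [if_pos h, if_neg (by omega)]
      · rw [if_neg h.ne', if_neg h.ne', if_neg (by omega), hω j h]
    have e2 : ω.erase n = trunc n ω := by
      apply Finsupp.ext
      intro j
      rw [erase_apply', trunc_apply]
      rcases lt_trichotomy j n with h | h | h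
      · rw [if_neg h.ne, if_pos h]
      · rw [if_pos h, if_neg (by omega)]
      · rw [if_neg h.ne', if_neg (by omega), hω j h]
    rw [e1, e2, shf_apply, if_pos rfl]
    apply hl
    intro j hj
    rw [trunc_apply, if_neg (by omega)]

lemma eq_of_close [NeZero q] {F G : (ℕ →₀ ZMod M) → ZMod q} {n : ℕ} (hF : St F n)
    (hG : St G n) (h : ∀ ω : ℕ →₀ ZMod M, (∀ j, n ≤ j → ω j = 0) → F ω = G ω) : F = G := by
  have key : ∀ m, ∀ ω : ℕ →₀ ZMod M, (∀ j, n + m ≤ j → ω j = 0) → F ω = G ω := by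
    intro m
    induction m with
    | zero => exact fun ω hω => h ω hω
    | succ m ih =>
      intro ω hω
      rw [hF (n + m) (Nat.le_add_right _ _) ω (fun j hj => hω j hj),
        hG (n + m) (Nat.le_add_right _ _) ω (fun j hj => hω j hj), ih]
      intro j hj
      rw [erase_apply']
      split_ifs with hjm
      · rfl
      · exact hω j (by omega)
  funext ω
  apply key (ω.support.sup id + 1)
  intro j hj
  by_contra hc
  have h1 : j ∈ ω.support := Finsupp.mem_support_iff.mpr hc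
  have h2 : j ≤ ω.support.sup id := Finset.le_sup (f := id) h1
  omega

lemma trans_close [NeZero q] [NeZero M] (hM : 2 * q ≤ M) (k : ℕ) :
    ∀ (n : ℕ) (F G : (ℕ →₀ ZMod M) → ZMod q), St F n → St G n →
      (∀ ω : ℕ →₀ ZMod M, (∀ j, n ≤ j → ω j = 0) → C k (F ω) (G ω)) →
      ∃ π ∈ P M, ∀ ω, F (π ω) = G ω := by
  induction k with
  | zero =>
    intro n F G hF hG h
    refine ⟨1, (P M).one_mem, fun ω => ?_⟩
    rw [Equiv.Perm.one_apply]
    refine congrFun (eq_of_close hF hG (fun ω hω => ?_)) ω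
    rcases h ω hω with h1 | ⟨h1, h2⟩ | ⟨h1, h2⟩
    · exact h1
    · rw [h1]; exact (ZMod.val_eq_zero _).mp (Nat.le_zero.mp h2)
    · rw [h1]; exact ((ZMod.val_eq_zero _).mp (Nat.le_zero.mp h2)).symm
  | succ k ih =>
    intro n F G hF hG h
    obtain ⟨h1, h2, h3⟩ := level hF hG (fun η => lam M (F η) (G η)) (k := k)
      (fun η hη i => one_step hM (h η hη) i)
    obtain ⟨π, hπ, hπ2⟩ := ih (n + 1) _ G h1 h2 h3
    exact ⟨shf n (fun η => lam M (F η) (G η)) * π, (P M).mul_mem (shf_mem n _) hπ,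
      fun ω => hπ2 ω⟩

lemma transitive [NeZero q] [NeZero M] (hM : 2 * q ≤ M) {n : ℕ}
    {F G : (ℕ →₀ ZMod M) → ZMod q} (hF : St F n) (hG : St G n) :
    ∃ π ∈ P M, ∀ ω, F (π ω) = G ω := by
  obtain ⟨h1, h2, h3⟩ := level hF hG (fun _ => (q : ZMod M)) (k := q)
    (fun η _ i => first_step hM _ _ i)
  obtain ⟨π, hπ, hπ2⟩ := trans_close hM q (n + 1) _ G h1 h2 h3
  exact ⟨shf n (fun _ => (q : ZMod M)) * π, (P M).mul_mem (shf_mem n _) hπ, fun ω => hπ2 ω⟩

end Pool.Agent.H17.Fac
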