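import Mathlib
import Pool.Agent.H17.Fac2

namespace Pool.Agent.H17.Fac

variable {M q : ℕ}

/-- The linear part of the automaton. -/
def co (q : ℕ) {M : ℕ} (i : ZMod M) : ZMod q := if i.val < q then 1 else 0

lemma step_sub (i : ZMod M) (s t : ZMod q) : step i s - step i t = co q i * (s - t) := by
  simp only [step, co]
  split_ifs <;> ring

lemma step_add (i : ZMod M) (s t : ZMod q) : step i s + co q i * t = step i (s + t) := by
  simp only [step, co]
  split_ifs <;> ring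

/-- Linear version of `St`. -/
def Li (F : (ℕ →₀ ZMod M) → ZMod q) (n : ℕ) : Prop :=
  ∀ m, n ≤ m → ∀ ω : ℕ →₀ ZMod M, (∀ j, m < j → ω j = 0) → F ω = co q (ω m) * F (ω.erase m)

lemma Li.mono {F : (ℕ →₀ ZMod M) → ZMod q} {n n' : ℕ} (h : Li F n) (hn : n ≤ n') : Li F n' :=
  fun m hm => h m (hn.trans hm)

lemma Li.comp {F : (ℕ →₀ ZMod M) → ZMod q} {n : ℕ} (h : Li F n)
    {π : Equiv.Perm (ℕ →₀ ZMod M)} (hπ : IsCas π) {N : ℕ}
    (hN : ∀ ω : ℕ →₀ ZMod M, ∀ j, N ≤ j → π ω j = ω j) : Li (fun ω => F (π ω)) (max n N) := by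
  intro m hm ω hω
  have hnm : n ≤ m := (le_max_left _ _).trans hm
  have hNm : N ≤ m := (le_max_right _ _).trans hm
  show F (π ω) = co q (ω m) * (F (π (ω.erase m)))
  rw [P_erase hπ hN hNm, h m hnm (π ω) (fun j hj => by rw [hN _ _ (hNm.trans hj.le), hω j hj]),
    hN _ _ hNm]

/-- The `q`-group. -/
def V (M q : ℕ) : AddSubgroup ((ℕ →₀ ZMod M) → ZMod q) where
  carrier := {F | ∃ n, Li F n}
  zero_mem' := ⟨0, fun m _ ω _ => by simp⟩
  add_mem' := by
    rintro F G ⟨n, hF⟩ ⟨n', hG⟩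
    refine ⟨max n n', fun m hm ω hω => ?_⟩
    have h1 := hF m ((le_max_left _ _).trans hm) ω hω
    have h2 := hG m ((le_max_right _ _).trans hm) ω hω
    rw [Pi.add_apply, Pi.add_apply, h1, h2]; ring
  neg_mem' := by
    rintro F ⟨n, hF⟩
    refine ⟨n, fun m hm ω hω => ?_⟩
    have h1 := hF m hm ω hω
    rw [Pi.neg_apply, Pi.neg_apply, h1]; ring

lemma V_comp {F : (ℕ →₀ ZMod M) → ZMod q} (hF : F ∈ V M q) {π : Equiv.Perm (ℕ →₀ ZMod M)}
    (hπ : π ∈ P M) : (fun ω => F (π ω)) ∈ V M q := by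
  obtain ⟨n, hn⟩ := hF
  obtain ⟨⟨N, hN⟩, _⟩ := id hπ
  exact ⟨max n N, hn.comp hπ hN⟩

lemma sub_mem_V {F G : (ℕ →₀ ZMod M) → ZMod q} {n n' : ℕ} (hF : St F n) (hG : St G n') :
    F - G ∈ V M q := by
  refine ⟨max n n', fun m hm ω hω => ?_⟩
  rw [Pi.sub_apply, Pi.sub_apply, hF m ((le_max_left _ _).trans hm) ω hω,
    hG m ((le_max_right _ _).trans hm) ω hω, step_sub]

lemma add_St {F G : (ℕ →₀ ZMod M) → ZMod q} {n n' : ℕ} (hF : St F n) (hG : Li G n') :
    St (F + G) (max n n') := by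
  intro m hm ω hω
  rw [Pi.add_apply, Pi.add_apply, hF m ((le_max_left _ _).trans hm) ω hω,
    hG m ((le_max_right _ _).trans hm) ω hω, step_add]

/-- The state after reading `n` letters. -/
def run (ω : ℕ →₀ ZMod M) (s : ZMod q) : ℕ → ZMod q
  | 0 => s
  | n + 1 => step (ω n) (run ω s n)

lemma run_congr {ω ω' : ℕ →₀ ZMod M} (s : ZMod q) {n : ℕ} (h : ∀ i < n, ω i = ω' i) :
    run ω s n = run ω' s n := by
  induction n with
  | zero => rfl
  | succ n ih =>
    show step (ω n) (run ω s n) = step (ω' n) (run ω' s n)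
    rw [ih (fun i hi => h i (by omega)), h n (by omega)]

lemma step_zero [NeZero q] (s : ZMod q) : step (0 : ZMod M) s = s := by
  have hq : 0 < q := Nat.pos_of_ne_zero (NeZero.ne q)
  simp [step, hq]

lemma run_stable [NeZero q] (ω : ℕ →₀ ZMod M) (s : ZMod q) {k : ℕ} (h : ∀ j, k ≤ j → ω j = 0)
    (n : ℕ) : run ω s (k + n) = run ω s k := by
  induction n with
  | zero => rfl
  | succ n ih =>
    show step (ω (k + n)) (run ω s (k + n)) = run ω s k
    rw [h _ (Nat.le_add_right _ _), step_zero, ih]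

lemma exists_bd (ω : ℕ →₀ ZMod M) : ∃ k, ∀ j, k ≤ j → ω j = 0 := by
  refine ⟨ω.support.sup id + 1, fun j hj => ?_⟩
  by_contra hc
  have h1 : j ∈ ω.support := Finsupp.mem_support_iff.mpr hc
  have h2 : j ≤ ω.support.sup id := Finset.le_sup (f := id) h1
  omega

/-- The final state. -/
noncomputable def E (s : ZMod q) (ω : ℕ →₀ ZMod M) : ZMod q := run ω s (exists_bd ω).choose

lemma E_eq [NeZero q] (s : ZMod q) (ω : ℕ →₀ ZMod M) {k : ℕ} (h : ∀ j, k ≤ j → ω j = 0) :
    E s ω = run ω s k := by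
  have h' := (exists_bd ω).choose_spec
  rw [E, ← run_stable ω s h' k, ← run_stable ω s h (exists_bd ω).choose, Nat.add_comm]

lemma E_St [NeZero q] (s : ZMod q) : St (E (M := M) s) 0 := by
  intro m _ ω hω
  rw [E_eq s ω (k := m + 1) (fun j hj => hω j hj)]
  have h2 : ∀ j, m ≤ j → ω.erase m j = 0 := by
    intro j hj
    rw [erase_apply']
    split_ifs with h
    · rfl
    · exact hω j (by omega)
  rw [E_eq s (ω.erase m) h2]
  show step (ω m) (run ω s m) = _
  congr 1
  apply run_congr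
  intro i hi
  rw [erase_apply', if_neg hi.ne]

lemma E_zero [NeZero q] (s : ZMod q) : E s (0 : ℕ →₀ ZMod M) = s := by
  rw [E_eq s 0 (k := 0) (fun j _ => rfl)]; rfl

/-- The cocycle. -/
noncomputable def cc [NeZero q] (π : P M) : V M q :=
  ⟨(fun ω => E 0 (π.1⁻¹ ω)) - E 0, by
    have hπ : IsCas π.1⁻¹ := (P M).inv_mem π.2
    obtain ⟨⟨N, hN⟩, _⟩ := id hπ
    exact sub_mem_V ((E_St (M := M) (0 : ZMod q)).comp hπ hN) (E_St 0)⟩

lemma cc_apply [NeZero q] (π : P M) (ω : ℕ →₀ ZMod M) :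
    (cc (q := q) π).1 ω = E 0 (π.1⁻¹ ω) - E 0 ω := rfl

lemma cc_surj [NeZero q] [NeZero M] (hM : 2 * q ≤ M) (v : V M q) : ∃ π : P M, cc π = v := by
  obtain ⟨n, hn⟩ := id v.2
  obtain ⟨π, hπ, h⟩ := transitive hM (add_St (E_St (M := M) (0 : ZMod q)) hn)
    ((E_St (M := M) (0 : ZMod q)).mono (Nat.zero_le (max 0 n)))
  refine ⟨⟨π, hπ⟩, Subtype.ext ?_⟩
  funext ω
  rw [cc_apply]
  have := h (π⁻¹ ω)
  rw [ap_inv] at this
  show E 0 (π⁻¹ ω) - E 0 ω = v.1 ω
  rw [← this, Pi.add_apply]; ring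

/-- The action. -/
def act (π : P M) : V M q ≃+ V M q where
  toFun F := ⟨fun ω => F.1 (π.1⁻¹ ω), V_comp F.2 ((P M).inv_mem π.2)⟩
  invFun F := ⟨fun ω => F.1 (π.1 ω), V_comp F.2 π.2⟩
  left_inv F := by
    apply Subtype.ext; funext ω
    show F.1 (π.1⁻¹ (π.1 ω)) = F.1 ω
    rw [inv_ap]
  right_inv F := by
    apply Subtype.ext; funext ω
    show F.1 (π.1 (π.1⁻¹ ω)) = F.1 ω
    rw [ap_inv]
  map_add' F G := rfl

/-- The action as a homomorphism. -/
def phi (M q : ℕ) : P M →* MulAut (Multiplicative (V M q)) where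
  toFun π := AddEquiv.toMultiplicative (act π)
  map_one' := rfl
  map_mul' π ρ := by
    apply MulEquiv.ext
    intro F
    apply Multiplicative.toAdd.injective
    apply Subtype.ext; funext ω
    show (Multiplicative.toAdd F).1 ((π.1 * ρ.1)⁻¹ ω) = (Multiplicative.toAdd F).1 (ρ.1⁻¹ (π.1⁻¹ ω))
    rw [mul_inv_rev]; rfl

abbrev GG (M q : ℕ) := Multiplicative (V M q) ⋊[phi M q] P M

/-- The second complement. -/
noncomputable def beta (M q : ℕ) [NeZero q] : P M →* GG M q where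
  toFun π := ⟨Multiplicative.ofAdd (cc π), π⟩
  map_one' := by
    refine SemidirectProduct.ext ?_ rfl
    apply Multiplicative.toAdd.injective
    apply Subtype.ext; funext ω
    show E (0 : ZMod q) ω - E (0 : ZMod q) ω = 0
    ring
  map_mul' π ρ := by
    refine SemidirectProduct.ext ?_ rfl
    apply Multiplicative.toAdd.injective
    apply Subtype.ext; funext ω
    show E (0 : ZMod q) ((π.1 * ρ.1)⁻¹ ω) - E (0 : ZMod q) ω =
      (E (0 : ZMod q) (π.1⁻¹ ω) - E (0 : ZMod q) ω) +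
      (E (0 : ZMod q) (ρ.1⁻¹ (π.1⁻¹ ω)) - E (0 : ZMod q) (π.1⁻¹ ω))
    have : ((π.1 * ρ.1)⁻¹ ω) = ρ.1⁻¹ (π.1⁻¹ ω) := by rw [mul_inv_rev]; rfl
    rw [this]; ring

lemma fac [NeZero q] [NeZero M] (hM : 2 * q ≤ M) (g : GG M q) :
    ∃ a ∈ (beta M q).range, ∃ b ∈ (SemidirectProduct.inr : P M →* GG M q).range, g = a * b := by
  obtain ⟨π, hπ⟩ := cc_surj hM (Multiplicative.toAdd g.left)
  refine ⟨beta M q π, ⟨π, rfl⟩, SemidirectProduct.inr (π⁻¹ * g.right), ⟨_, rfl⟩, ?_⟩
  refine SemidirectProduct.ext ?_ ?_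
  · rw [SemidirectProduct.mul_left, SemidirectProduct.left_inr, map_one, mul_one]
    show g.left = Multiplicative.ofAdd (cc π)
    rw [hπ]; rfl
  · rw [SemidirectProduct.mul_right, SemidirectProduct.right_inr]
    show g.right = π * (π⁻¹ * g.right)
    group

lemma V_torsion (v : Multiplicative (V M q)) : v ^ q = 1 := by
  apply Multiplicative.toAdd.injective
  apply Subtype.ext; funext ω
  show (q • (Multiplicative.toAdd v)).1 ω = 0
  rw [AddSubgroup.coe_nsmul, Pi.smul_apply, nsmul_eq_mul, ZMod.natCast_self, zero_mul]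

lemma pow_eq_one {p e : ℕ} (g : GG (p ^ e) q) : ∃ k : ℕ, g ^ (p ^ k * q) = 1 := by
  obtain ⟨k, hk⟩ := isPGroup_P (p := p) (e := e) g.right
  refine ⟨k, ?_⟩
  have h1 : (g ^ (p ^ k)).right = 1 := by
    have := map_pow (SemidirectProduct.rightHom : GG (p ^ e) q →* P (p ^ e)) g (p ^ k)
    rw [SemidirectProduct.rightHom_eq_right] at this
    rw [this]; exact hk
  have h2 : g ^ (p ^ k) = SemidirectProduct.inl (g ^ (p ^ k)).left := by
    refine SemidirectProduct.ext ?_ ?_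
    · rw [SemidirectProduct.left_inl]
    · rw [SemidirectProduct.right_inl, h1]
  rw [pow_mul, h2, ← map_pow, V_torsion, map_one]

lemma solv {p e : ℕ} (hp : p.Prime) (H : Subgroup (GG (p ^ e) q)) (hH : H.FG) :
    Group.IsSolvable H := by
  have hR : (H.map (SemidirectProduct.rightHom : GG (p ^ e) q →* P (p ^ e))).FG :=
    by
      classical
      obtain ⟨S, hS⟩ := hH
      exact ⟨S.image _, by rw [Finset.coe_image, ← MonoidHom.map_closure, hS]⟩
  have hs := solvable_of_fg hp _ hR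
  let f : H →* H.map (SemidirectProduct.rightHom : GG (p ^ e) q →* P (p ^ e)) :=
    (SemidirectProduct.rightHom : GG (p ^ e) q →* P (p ^ e)).subgroupMap H
  have hk : Group.IsSolvable f.ker := by
    apply Group.isSolvable_of_comm
    intro a b
    apply Subtype.ext
    apply Subtype.ext
    have ha : a.1.1.right = 1 := by
      have := a.2
      rw [MonoidHom.mem_ker] at this
      exact congrArg Subtype.val this
    have hb : b.1.1.right = 1 := by
      have := b.2
      rw [MonoidHom.mem_ker] at this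
      exact congrArg Subtype.val this
    show a.1.1 * b.1.1 = b.1.1 * a.1.1
    refine SemidirectProduct.ext ?_ ?_
    · rw [SemidirectProduct.mul_left, SemidirectProduct.mul_left, ha, hb, map_one]
      exact mul_comm _ _
    · rw [SemidirectProduct.mul_right, SemidirectProduct.mul_right, ha, hb]
  exact Group.isSolvable_of_ker_le_range f.ker.subtype f (by rw [Subgroup.range_subtype])

end Pool.Agent.H17.Fac
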