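import Mathlib
import Pool.Agent.H17.Fac3

namespace Pool.Agent.H17.Fac

lemma exists_order_q {M q : ℕ} (hq : q.Prime) : ∃ g : GG M q, orderOf g = q := by
  have : Fact q.Prime := ⟨hq⟩
  have : NeZero q := ⟨hq.ne_zero⟩
  let v : V M q := ⟨E 1 - E 0, sub_mem_V (E_St 1) (E_St 0)⟩
  have hv : v.1 0 = 1 := by
    show E (1 : ZMod q) (0 : ℕ →₀ ZMod M) - E 0 0 = 1
    rw [E_zero, E_zero, sub_zero]
  refine ⟨SemidirectProduct.inl (Multiplicative.ofAdd v), ?_⟩
  apply orderOf_eq_prime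
  · rw [← map_pow, V_torsion, map_one]
  · intro h
    have h1 : Multiplicative.ofAdd v = 1 := by
      apply SemidirectProduct.inl_injective (φ := phi M q)
      rw [h, map_one]
    have h2 : v = 0 := h1
    rw [h2] at hv
    exact zero_ne_one hv

lemma exists_order_p {p e q : ℕ} (hp : p.Prime) (he : e ≠ 0) : ∃ g : GG (p ^ e) q, orderOf g = p := by
  have hM : 1 < p ^ e := Nat.one_lt_pow he hp.one_lt
  have : Fact (1 < p ^ e) := ⟨hM⟩
  let π : P (p ^ e) := ⟨shf 0 (fun _ => 1), shf_mem 0 _⟩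
  have hπ : π ≠ 1 := by
    intro h
    have h1 : π.1 0 0 = 0 := by rw [h]; rfl
    have h2 : π.1 0 0 = 1 := by
      show shf 0 (fun _ => 1) 0 0 = 1
      rw [shf_apply, if_pos rfl]; simp
    rw [h1] at h2
    exact zero_ne_one h2
  have : Fact p.Prime := ⟨hp⟩
  obtain ⟨k, hk⟩ := IsPGroup.iff_orderOf.mp (isPGroup_P (p := p) (e := e)) π
  have hk0 : k ≠ 0 := by
    rintro rfl
    rw [pow_zero, orderOf_eq_one_iff] at hk
    exact hπ hk
  have hd : p ∣ orderOf π := by rw [hk]; exact dvd_pow_self p hk0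
  have h0 : orderOf π ≠ 0 := by rw [hk]; exact (pow_pos hp.pos _).ne'
  refine ⟨SemidirectProduct.inr (π ^ (orderOf π / p)), ?_⟩
  rw [orderOf_injective _ SemidirectProduct.inr_injective, orderOf_pow_orderOf_div h0 hd]

lemma main (p q : ℕ) (hp : p.Prime) (hq : q.Prime) :
    ∃ (G : Type) (_ : Group G) (A B : Subgroup G),
      (∀ g : G, 0 < orderOf g ∧ ∀ r : ℕ, r.Prime → r ∣ orderOf g → r = p ∨ r = q) ∧
      (∀ H : Subgroup G, H.FG → Group.IsSolvable H) ∧
      (∃ g : G, orderOf g = p) ∧ (∃ g : G, orderOf g = q) ∧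
      IsPGroup p A ∧ IsPGroup p B ∧ (∀ g : G, ∃ a ∈ A, ∃ b ∈ B, g = a * b) := by
  have : NeZero q := ⟨hq.ne_zero⟩
  have : NeZero (p ^ (2 * q)) := ⟨(pow_pos hp.pos _).ne'⟩
  have hM : 2 * q ≤ p ^ (2 * q) := (Nat.lt_pow_self hp.one_lt).le
  refine ⟨GG (p ^ (2 * q)) q, inferInstance, (beta (p ^ (2 * q)) q).range,
    (SemidirectProduct.inr : P (p ^ (2 * q)) →* GG (p ^ (2 * q)) q).range, ?_, ?_,
    exists_order_p hp (mul_ne_zero two_ne_zero hq.ne_zero), exists_order_q hq, ?_, ?_, fac hM⟩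
  · intro g
    obtain ⟨k, hk⟩ := pow_eq_one g
    have hpos : 0 < p ^ k * q := Nat.mul_pos (pow_pos hp.pos _) hq.pos
    have hd := orderOf_dvd_of_pow_eq_one hk
    refine ⟨Nat.pos_of_dvd_of_pos hd hpos, fun r hr hrd => ?_⟩
    rcases (Nat.Prime.dvd_mul hr).mp (hrd.trans hd) with h | h
    · exact Or.inl ((Nat.prime_dvd_prime_iff_eq hr hp).mp (hr.dvd_of_dvd_pow h))
    · exact Or.inr ((Nat.prime_dvd_prime_iff_eq hr hq).mp h)
  · exact fun H hH => solv hp H hH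
  · exact isPGroup_P.of_surjective _ (MonoidHom.rangeRestrict_surjective _)
  · exact isPGroup_P.of_surjective _ (MonoidHom.rangeRestrict_surjective _)

end Pool.Agent.H17.Fac
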