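import Mathlib

set_option autoImplicit false
open scoped ENNReal

namespace Pool.Agent.H17.Foster

variable {X : Type} [DecidableEq X]

noncomputable def u (P : X → X → ℝ≥0∞) (x0 : X) : ℕ → X → ℝ≥0∞
  | 0 => fun y => if y = x0 then 1 else 0
  | (n+1) => fun y => if y = x0 then 0 else ∑' x, u P x0 n x * P x y

theorem foster (P : X → X → ℝ≥0∞) (hP : ∀ x, ∑' y, P x y = 1) (V : X → ℝ≥0∞) (x0 : X)
    (hd : ∀ x, x ≠ x0 → ∑' y, P x y * V y + 1 ≤ V x) (h0 : ∑' y, P x0 y * V y ≠ ⊤) :
    ∃ π : X → ℝ≥0∞, ∑' x, π x = 1 ∧ ∀ y, π y = ∑' x, π x * P x y := by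
  set U := u P x0 with hU
  have u0 : ∀ y, U 0 y = if y = x0 then 1 else 0 := fun y => rfl
  have us : ∀ n y, U (n+1) y = if y = x0 then 0 else ∑' x, U n x * P x y := fun n y => rfl
  set S : ℕ → ℝ≥0∞ := fun n => ∑' y, U n y with hS
  set R : ℕ → ℝ≥0∞ := fun n => ∑' x, U n x * P x x0 with hR
  set v : ℕ → ℝ≥0∞ := fun n => ∑' y, U n y * V y with hv
  have hS0 : S 0 = 1 := by
    simp only [hS, u0]
    exact tsum_ite_eq x0 (fun _ => (1:ℝ≥0∞))
  have hSR : ∀ n, R n + S (n+1) = S n := by
    intro n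
    have h1 : ∑' y, ∑' x, U n x * P x y = S n := by
      rw [ENNReal.tsum_comm]
      simp only [hS]
      congr 1; funext x
      rw [ENNReal.tsum_mul_left, hP, mul_one]
    rw [← h1, ENNReal.tsum_eq_add_tsum_ite x0]
    simp only [hR, hS]
    congr 1
    apply tsum_congr
    intro y
    rw [us]
    split_ifs <;> rfl
  have hvS : ∀ n, v (n+2) + S (n+1) ≤ v (n+1) := by
    intro n
    have e1 : v (n+2) ≤ ∑' x, U (n+1) x * ∑' y, P x y * V y := by
      calc v (n+2) = ∑' y, U (n+2) y * V y := rfl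
        _ ≤ ∑' y, (∑' x, U (n+1) x * P x y) * V y := by
            apply ENNReal.tsum_le_tsum
            intro y
            rw [us (n+1) y]
            split_ifs
            · simp
            · exact le_rfl
        _ = ∑' y, ∑' x, U (n+1) x * P x y * V y := by
            congr 1; funext y; rw [ENNReal.tsum_mul_right]
        _ = ∑' x, ∑' y, U (n+1) x * P x y * V y := ENNReal.tsum_comm
        _ = ∑' x, U (n+1) x * ∑' y, P x y * V y := by
            congr 1; funext x
            rw [← ENNReal.tsum_mul_left]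
            congr 1; funext y; rw [mul_assoc]
    calc v (n+2) + S (n+1) ≤ (∑' x, U (n+1) x * ∑' y, P x y * V y) + ∑' x, U (n+1) x := by gcongr
      _ = ∑' x, (U (n+1) x * (∑' y, P x y * V y) + U (n+1) x) := (ENNReal.tsum_add).symm
      _ ≤ ∑' x, U (n+1) x * V x := by
          apply ENNReal.tsum_le_tsum
          intro x
          by_cases hx : x = x0
          · rw [us n x, if_pos hx]; simp
          · have := hd x hx
            calc U (n+1) x * (∑' y, P x y * V y) + U (n+1) x = U (n+1) x * ((∑' y, P x y * V y) + 1) := by ring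
              _ ≤ U (n+1) x * V x := by gcongr
  have hv1 : v 1 ≤ ∑' y, P x0 y * V y := by
    simp only [hv]
    apply ENNReal.tsum_le_tsum
    intro y
    rw [us 0 y]
    split_ifs
    · simp
    · have : ∑' x, U 0 x * P x y = P x0 y := by
        simp only [u0, ite_mul, one_mul, zero_mul]
        exact tsum_ite_eq x0 (fun x => P x y)
      rw [this]
  have hpart : ∀ N, ∑ n ∈ Finset.range N, S (n+1) + v (N+1) ≤ v 1 := by
    intro N
    induction N with
    | zero => simp
    | succ N ih =>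
      rw [Finset.sum_range_succ]
      calc _ = ∑ n ∈ Finset.range N, S (n+1) + (v (N+2) + S (N+1)) := by ring
        _ ≤ ∑ n ∈ Finset.range N, S (n+1) + v (N+1) := by gcongr; exact hvS N
        _ ≤ v 1 := ih
  have hsum1 : ∑' n, S (n+1) ≤ v 1 := by
    apply ENNReal.tsum_le_of_sum_range_le
    intro N
    exact le_trans le_self_add (hpart N)
  have hv1top : v 1 ≠ ⊤ := ne_top_of_le_ne_top h0 hv1
  have hsum1top : ∑' n, S (n+1) ≠ ⊤ := ne_top_of_le_ne_top hv1top hsum1
  have hZ : ∑' n, S n = 1 + ∑' n, S (n+1) := by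
    rw [tsum_eq_zero_add' ENNReal.summable, hS0]
  have hZtop : ∑' n, S n ≠ ⊤ := by
    rw [hZ]; exact ENNReal.add_ne_top.mpr ⟨ENNReal.one_ne_top, hsum1top⟩
  have hS_lim : Filter.Tendsto S Filter.atTop (nhds 0) := ENNReal.tendsto_atTop_zero_of_tsum_ne_top hZtop
  have hRN : ∀ N, ∑ n ∈ Finset.range N, R n + S N = 1 := by
    intro N
    induction N with
    | zero => simp [hS0]
    | succ N ih =>
      rw [Finset.sum_range_succ, add_assoc, hSR N, ih]
  have hRsum : ∑' n, R n = 1 := by
    have h1 : Filter.Tendsto (fun N => ∑ n ∈ Finset.range N, R n + S N) Filter.atTop (nhds ((∑' n, R n) + 0)) :=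
      (ENNReal.tendsto_nat_tsum R).add hS_lim
    have h2 : Filter.Tendsto (fun N => ∑ n ∈ Finset.range N, R n + S N) Filter.atTop (nhds 1) := by
      simp only [hRN]; exact tendsto_const_nhds
    have := tendsto_nhds_unique h1 h2
    simpa using this
  set ν : X → ℝ≥0∞ := fun y => ∑' n, U n y with hν
  have hνP : ∀ y, ν y = ∑' x, ν x * P x y := by
    intro y
    have e1 : ∑' x, ν x * P x y = ∑' n, ∑' x, U n x * P x y := by
      rw [ENNReal.tsum_comm]
      congr 1; funext x
      rw [hν, ENNReal.tsum_mul_right]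
    have e2 : ν y = U 0 y + ∑' n, U (n+1) y := tsum_eq_zero_add' ENNReal.summable
    rw [e1, e2]
    by_cases hy : y = x0
    · subst hy
      have : ∀ n, U (n+1) y = 0 := fun n => by rw [us]; simp
      simp only [this, tsum_zero, add_zero, u0, if_true]
      exact hRsum.symm
    · rw [u0, if_neg hy, zero_add]
      congr 1; funext n
      rw [us, if_neg hy]
  have hνsum : ∑' y, ν y = ∑' n, S n := by
    rw [hν, ENNReal.tsum_comm]
  set Z := ∑' n, S n with hZdef
  have hZ0 : Z ≠ 0 := by
    rw [hZ]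
    intro h
    have := (add_eq_zero.mp h).1
    exact one_ne_zero this
  refine ⟨fun x => Z⁻¹ * ν x, ?_, ?_⟩
  · rw [ENNReal.tsum_mul_left, hνsum, ENNReal.inv_mul_cancel hZ0 hZtop]
  · intro y
    simp only
    rw [hνP y, ← ENNReal.tsum_mul_left]
    congr 1; funext x; rw [mul_assoc]

end Pool.Agent.H17.Foster
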