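import Mathlib

set_option autoImplicit false

namespace Pool.Agent.H17.Hg

open Finset

/-- an operator from a Hilbert space with dense range from an upper 2-estimate -/
theorem exists_op {ι : Type} {X : Type} [NormedAddCommGroup X] [NormedSpace ℝ X] [CompleteSpace X]
    (v : ι → X) (C : ℝ) (hC : 0 ≤ C)
    (hb : ∀ (s : Finset ι) (c : ι → ℝ), ‖∑ i ∈ s, c i • v i‖ ^ 2 ≤ C ^ 2 * ∑ i ∈ s, c i ^ 2)
    (hd : (Submodule.span ℝ (Set.range v)).topologicalClosure = ⊤) :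
    ∃ (H : Type) (_ : NormedAddCommGroup H) (_ : InnerProductSpace ℝ H)
      (_ : CompleteSpace H) (T : H →L[ℝ] X), DenseRange (⇑T) := by
  classical
  have hnorm : ∀ f : lp (fun _ : ι => ℝ) 2, ‖f‖ ^ 2 = ∑' i, (f i) ^ 2 := by
    intro f
    have h := lp.norm_rpow_eq_tsum (p := 2) (by norm_num) f
    norm_num at h
    exact h
  have hsq : ∀ f : lp (fun _ : ι => ℝ) 2, Summable fun i => (f i) ^ 2 := by
    intro f
    have h := (lp.memℓp f).summable (by norm_num)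
    norm_num at h
    exact h
  have hsum : ∀ f : lp (fun _ : ι => ℝ) 2, Summable fun i => f i • v i := by
    intro f
    rw [summable_iff_vanishing_norm]
    intro ε hε
    have h1 := (summable_iff_vanishing_norm.1 (hsq f)) ((ε / (C + 1)) ^ 2) (by positivity)
    obtain ⟨s, hs⟩ := h1
    refine ⟨s, fun t ht => ?_⟩
    have h2 := hs t ht
    have h3 := hb t (fun i => f i)
    have h4 : ∑ i ∈ t, (f i) ^ 2 < (ε / (C + 1)) ^ 2 := by
      rw [Real.norm_of_nonneg (Finset.sum_nonneg fun i _ => sq_nonneg _)] at h2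
      exact h2
    have h5 : ‖∑ i ∈ t, f i • v i‖ ^ 2 < ε ^ 2 := by
      have h6 : C ^ 2 * ∑ i ∈ t, (f i) ^ 2 ≤ C ^ 2 * (ε / (C + 1)) ^ 2 :=
        mul_le_mul_of_nonneg_left h4.le (sq_nonneg C)
      have h7 : C ^ 2 * (ε / (C + 1)) ^ 2 < ε ^ 2 := by
        rw [div_pow, ← mul_div_assoc, div_lt_iff₀ (by positivity), mul_comm]
        apply mul_lt_mul_of_pos_left _ (by positivity)
        nlinarith
      exact lt_of_le_of_lt (h3.trans h6) h7
    exact lt_of_pow_lt_pow_left₀ 2 hε.le h5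
  have hbound : ∀ f : lp (fun _ : ι => ℝ) 2, ‖∑' i, f i • v i‖ ≤ C * ‖f‖ := by
    intro f
    apply le_of_tendsto (hsum f).hasSum.norm
    refine Filter.Eventually.of_forall fun s => ?_
    have h1 := hb s (fun i => f i)
    have h2 : ∑ i ∈ s, (f i) ^ 2 ≤ ‖f‖ ^ 2 := by
      rw [hnorm f]
      exact (hsq f).sum_le_tsum s (fun i _ => sq_nonneg _)
    have h3 : ‖∑ i ∈ s, f i • v i‖ ^ 2 ≤ (C * ‖f‖) ^ 2 := by
      rw [mul_pow]
      exact h1.trans (mul_le_mul_of_nonneg_left h2 (sq_nonneg C))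
    exact le_of_sq_le_sq h3 (by positivity)
  let T0 : lp (fun _ : ι => ℝ) 2 →ₗ[ℝ] X :=
    { toFun := fun f => ∑' i, f i • v i
      map_add' := fun f g => by
        rw [← (hsum f).tsum_add (hsum g)]
        congr 1
        funext i
        rw [lp.coeFn_add, Pi.add_apply, add_smul]
      map_smul' := fun a f => by
        rw [RingHom.id_apply, ← tsum_const_smul'' a]
        congr 1
        funext i
        rw [lp.coeFn_smul, Pi.smul_apply, smul_eq_mul, mul_smul] }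
  let T : lp (fun _ : ι => ℝ) 2 →L[ℝ] X := T0.mkContinuous C hbound
  refine ⟨lp (fun _ : ι => ℝ) 2, inferInstance, inferInstance, inferInstance, T, ?_⟩
  have hv : ∀ i, v i ∈ LinearMap.range (T : lp (fun _ : ι => ℝ) 2 →ₗ[ℝ] X) := by
    intro i
    refine ⟨lp.single 2 i 1, ?_⟩
    show ∑' j, (lp.single 2 i (1:ℝ) : lp (fun _ : ι => ℝ) 2) j • v j = v i
    rw [tsum_eq_single i]
    · rw [lp.single_apply_self, one_smul]
    · intro j hj
      rw [lp.single_apply_ne 2 i _ hj, zero_smul]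
  have hle : Submodule.span ℝ (Set.range v) ≤ LinearMap.range
      (T : lp (fun _ : ι => ℝ) 2 →ₗ[ℝ] X) := by
    rw [Submodule.span_le]
    rintro _ ⟨i, rfl⟩
    exact hv i
  have h2 : (LinearMap.range (T : lp (fun _ : ι => ℝ) 2 →ₗ[ℝ] X)).topologicalClosure = ⊤ := by
    rw [eq_top_iff, ← hd]
    exact Submodule.topologicalClosure_mono hle
  rw [DenseRange, dense_iff_closure_eq]
  have h3 := congrArg (fun S : Submodule ℝ X => (S : Set X)) h2
  simp only [Submodule.topologicalClosure_coe, Submodule.top_coe] at h3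
  exact h3

/-- second order expansion of powers -/
theorem pow_taylor (y z : ℝ) (n : ℕ) :
    |(y + z) ^ (n + 2) - y ^ (n + 2) - (n + 2) * y ^ (n + 1) * z| ≤
      ((n + 2) ^ 2) * z ^ 2 * (|y| + |z|) ^ n := by
  induction n with
  | zero =>
    have : (y + z) ^ (0 + 2) - y ^ (0 + 2) - ((0 : ℕ) + 2) * y ^ (0 + 1) * z = z ^ 2 := by
      push_cast; ring
    rw [this, abs_of_nonneg (sq_nonneg z)]
    push_cast
    nlinarith [sq_nonneg z]
  | succ n ih =>
    have e : (y + z) ^ (n + 1 + 2) - y ^ (n + 1 + 2) - (((n + 1 : ℕ) : ℝ) + 2) * y ^ (n + 1 + 1) * z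
        = (y + z) * ((y + z) ^ (n + 2) - y ^ (n + 2) - (n + 2) * y ^ (n + 1) * z) +
          (n + 2) * y ^ (n + 1) * z ^ 2 := by
      push_cast; ring
    rw [e]
    have h1 : |y + z| ≤ |y| + |z| := abs_add_le y z
    have h2 : |y| ^ (n + 1) ≤ (|y| + |z|) ^ (n + 1) :=
      pow_le_pow_left₀ (abs_nonneg y) (by linarith [abs_nonneg z]) _
    calc |(y + z) * ((y + z) ^ (n + 2) - y ^ (n + 2) - (n + 2) * y ^ (n + 1) * z) +
          (n + 2) * y ^ (n + 1) * z ^ 2|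
        ≤ |y + z| * |(y + z) ^ (n + 2) - y ^ (n + 2) - (n + 2) * y ^ (n + 1) * z| +
          (n + 2) * |y| ^ (n + 1) * z ^ 2 := by
          refine (abs_add_le _ _).trans ?_
          rw [abs_mul, abs_mul, abs_mul, abs_pow, abs_of_nonneg (sq_nonneg z),
            abs_of_nonneg (by positivity : (0:ℝ) ≤ (n:ℝ) + 2)]
      _ ≤ (|y| + |z|) * (((n + 2) ^ 2) * z ^ 2 * (|y| + |z|) ^ n) +
          (n + 2) * (|y| + |z|) ^ (n + 1) * z ^ 2 := by
          apply add_le_add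
          · exact mul_le_mul h1 ih (abs_nonneg _) (by positivity)
          · have : 0 ≤ z ^ 2 := sq_nonneg z
            have h3 : (0:ℝ) ≤ (n:ℝ) + 2 := by positivity
            exact mul_le_mul_of_nonneg_right (mul_le_mul_of_nonneg_left h2 h3) this
      _ = ((n + 2) ^ 2 + (n + 2)) * z ^ 2 * (|y| + |z|) ^ (n + 1) := by ring
      _ ≤ _ := by
          push_cast
          have h4 : 0 ≤ z ^ 2 * (|y| + |z|) ^ (n + 1) := by positivity
          have h5 : (((n:ℝ) + 2) ^ 2 + (n + 2)) ≤ ((n:ℝ) + 1 + 2) ^ 2 := by nlinarith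
          nlinarith [mul_le_mul_of_nonneg_right h5 h4]

theorem pow_sum_le (y z : ℝ) (n : ℕ) : (|y| + |z|) ^ (2 * n) ≤ 4 ^ n * (y ^ (2 * n) + z ^ (2 * n)) := by
  have h : ∀ a b : ℝ, 0 ≤ a → a ≤ b → (a + b) ^ (2 * n) ≤ 4 ^ n * b ^ (2 * n) := by
    intro a b ha hab
    calc (a + b) ^ (2 * n) ≤ (2 * b) ^ (2 * n) := pow_le_pow_left₀ (by linarith) (by linarith) _
      _ = 4 ^ n * b ^ (2 * n) := by rw [mul_pow, pow_mul 2 2 n]; norm_num
  have e1 : |y| ^ (2 * n) = y ^ (2 * n) := by rw [pow_mul, sq_abs, ← pow_mul]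
  have e2 : |z| ^ (2 * n) = z ^ (2 * n) := by rw [pow_mul, sq_abs, ← pow_mul]
  have p1 : 0 ≤ y ^ (2 * n) := by rw [← e1]; positivity
  have p2 : 0 ≤ z ^ (2 * n) := by rw [← e2]; positivity
  have p4 : (0:ℝ) < 4 ^ n := by positivity
  rcases le_total |y| |z| with h1 | h1
  · have := h _ _ (abs_nonneg y) h1
    rw [e2] at this
    nlinarith
  · have := h _ _ (abs_nonneg z) h1
    rw [e1, add_comm] at this
    nlinarith

/-- the one step inequality: `z = ρ x h` with `|x| ≤ 1`, `0 ≤ ρ ≤ 1` -/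
theorem step_ineq (n : ℕ) (g h x ρ : ℝ) (hρ0 : 0 ≤ ρ) (hρ1 : ρ ≤ 1) (hx : |x| ≤ 1) :
    (g + ρ * x * h) ^ (2 * (n + 1)) ≤ g ^ (2 * (n + 1)) +
      (2 * (n + 1)) * ρ * (g ^ (2 * n + 1) * h * x) +
      ((2 * n + 2) ^ 2 * 4 ^ n) * ρ ^ 2 * (h ^ 2 * (g ^ (2 * n) + h ^ (2 * n))) := by
  have h1 := pow_taylor g (ρ * x * h) (2 * n)
  have h2 := (le_abs_self _).trans h1
  have h3 := pow_sum_le g (ρ * x * h) n
  have hz2 : (ρ * x * h) ^ 2 ≤ ρ ^ 2 * h ^ 2 := by
    rw [mul_pow, mul_pow]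
    have : x ^ 2 ≤ 1 := by rw [← sq_abs]; nlinarith [abs_nonneg x]
    have h5 : 0 ≤ ρ ^ 2 * h ^ 2 := by positivity
    nlinarith
  have hz2' : (ρ * x * h) ^ 2 ≤ h ^ 2 := by
    have : ρ ^ 2 * h ^ 2 ≤ h ^ 2 := by
      have : ρ ^ 2 ≤ 1 := by nlinarith
      nlinarith [sq_nonneg h]
    linarith
  have hzn : (ρ * x * h) ^ (2 * n) ≤ h ^ (2 * n) := by
    rw [pow_mul, pow_mul]
    exact pow_le_pow_left₀ (sq_nonneg _) hz2' n
  have hg0 : 0 ≤ g ^ (2 * n) := by rw [pow_mul]; positivity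
  have hh0 : 0 ≤ h ^ (2 * n) := by rw [pow_mul]; positivity
  have hzz0 : 0 ≤ (ρ * x * h) ^ (2 * n) := by rw [pow_mul]; positivity
  have h6 : ((2 * n : ℕ) + 2 : ℝ) ^ 2 * (ρ * x * h) ^ 2 * (|g| + |ρ * x * h|) ^ (2 * n) ≤
      ((2 * n + 2) ^ 2 * 4 ^ n) * ρ ^ 2 * (h ^ 2 * (g ^ (2 * n) + h ^ (2 * n))) := by
    push_cast
    calc ((2 * n + 2 : ℝ)) ^ 2 * (ρ * x * h) ^ 2 * (|g| + |ρ * x * h|) ^ (2 * n)
        ≤ (2 * n + 2 : ℝ) ^ 2 * (ρ ^ 2 * h ^ 2) * (4 ^ n * (g ^ (2 * n) + h ^ (2 * n))) := by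
          apply mul_le_mul
          · exact mul_le_mul_of_nonneg_left hz2 (by positivity)
          · refine h3.trans ?_
            apply mul_le_mul_of_nonneg_left _ (by positivity)
            linarith
          · positivity
          · positivity
      _ = _ := by ring
  have e1 : (g + ρ * x * h) ^ (2 * n + 2) = (g + ρ * x * h) ^ (2 * (n + 1)) := by ring
  have e2 : g ^ (2 * n + 2) = g ^ (2 * (n + 1)) := by ring
  have h7 := h2.trans h6
  rw [e1, e2] at h7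
  push_cast at h7
  nlinarith [h7]

end Pool.Agent.H17.Hg
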