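import Pool.Agent.H17.Hg1

set_option autoImplicit false

namespace Pool.Agent.H17.Hg

open MeasureTheory

variable {Ω : Type} [m0 : MeasurableSpace Ω] (μ : Measure Ω) [IsFiniteMeasure μ]

theorem int_of_bdd {f : Ω → ℝ} (hf : AEStronglyMeasurable f μ) {C : ℝ}
    (hC : ∀ᵐ ω ∂μ, |f ω| ≤ C) : Integrable f μ := Integrable.of_bound hf C hC

/-- the abstract step -/
theorem step_int (n : ℕ) {g h x : Ω → ℝ} (hgm : AEStronglyMeasurable g μ)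
    (hhm : AEStronglyMeasurable h μ) (hxm : AEStronglyMeasurable x μ)
    {Cg Ch : ℝ} (hgC : ∀ᵐ ω ∂μ, |g ω| ≤ Cg) (hhC : ∀ᵐ ω ∂μ, |h ω| ≤ Ch)
    (hx : ∀ᵐ ω ∂μ, |x ω| ≤ 1) (hzero : ∫ ω, g ω ^ (2 * n + 1) * h ω * x ω ∂μ = 0)
    {ρ K P Q : ℝ} (hρ0 : 0 ≤ ρ) (hρ1 : ρ ≤ 1) (hρ : 3 * ((2 * n + 2) ^ 2 * 4 ^ n) * ρ ^ 2 ≤ 1)
    (hK : 0 ≤ K) (hP : 0 ≤ P) (hQ : 0 < Q)
    (hg : ∫ ω, g ω ^ (2 * (n + 1)) ∂μ ≤ K * P ^ (n + 1))
    (hh : ∫ ω, h ω ^ (2 * (n + 1)) ∂μ ≤ K * Q ^ (n + 1)) :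
    ∫ ω, (g ω + ρ * x ω * h ω) ^ (2 * (n + 1)) ∂μ ≤ K * (P + Q) ^ (n + 1) := by
  have hCg : ∀ᵐ ω ∂μ, |g ω| ≤ |Cg| := hgC.mono fun ω h => h.trans (le_abs_self _)
  have hCh : ∀ᵐ ω ∂μ, |h ω| ≤ |Ch| := hhC.mono fun ω h => h.trans (le_abs_self _)
  have pb : ∀ (a b : ℝ) (k : ℕ), |a| ≤ b → |a ^ k| ≤ b ^ k := by
    intro a b k hab
    rw [abs_pow]; exact pow_le_pow_left₀ (abs_nonneg a) hab k
  have i1 : Integrable (fun ω => (g ω + ρ * x ω * h ω) ^ (2 * (n + 1))) μ := by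
    apply int_of_bdd μ (C := (|Cg| + |Ch|) ^ (2 * (n + 1)))
    · exact (hgm.add ((hxm.const_mul ρ).mul hhm)).pow _
    · filter_upwards [hCg, hCh, hx] with ω h1 h2 h3
      apply pb
      refine (abs_add_le _ _).trans (add_le_add h1 ?_)
      rw [abs_mul, abs_mul, abs_of_nonneg hρ0]
      have : ρ * |x ω| ≤ 1 := by nlinarith [abs_nonneg (x ω)]
      nlinarith [abs_nonneg (h ω), abs_nonneg (x ω)]
  have i2 : Integrable (fun ω => g ω ^ (2 * (n + 1))) μ := by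
    apply int_of_bdd μ (C := |Cg| ^ (2 * (n + 1))) (hgm.pow _)
    filter_upwards [hCg] with ω h1
    exact pb _ _ _ h1
  have i3 : Integrable (fun ω => g ω ^ (2 * n + 1) * h ω * x ω) μ := by
    apply int_of_bdd μ (C := |Cg| ^ (2 * n + 1) * |Ch| * 1)
      (((hgm.pow _).mul hhm).mul hxm)
    filter_upwards [hCg, hCh, hx] with ω h1 h2 h3
    show |g ω ^ (2 * n + 1) * h ω * x ω| ≤ _
    rw [abs_mul, abs_mul]
    exact mul_le_mul (mul_le_mul (pb _ _ _ h1) h2 (abs_nonneg _) (by positivity)) h3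
      (abs_nonneg _) (by positivity)
  have i4 : Integrable (fun ω => h ω ^ 2 * g ω ^ (2 * n)) μ := by
    apply int_of_bdd μ (C := |Ch| ^ 2 * |Cg| ^ (2 * n)) ((hhm.pow _).mul (hgm.pow _))
    filter_upwards [hCg, hCh] with ω h1 h2
    show |h ω ^ 2 * g ω ^ (2 * n)| ≤ _
    rw [abs_mul]
    exact mul_le_mul (pb _ _ _ h2) (pb _ _ _ h1) (abs_nonneg _) (by positivity)
  have i5 : Integrable (fun ω => h ω ^ (2 * (n + 1))) μ := by
    apply int_of_bdd μ (C := |Ch| ^ (2 * (n + 1))) (hhm.pow _)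
    filter_upwards [hCh] with ω h1
    exact pb _ _ _ h1
  -- the mixed term
  have hX : 0 < P + Q := by linarith
  have hmix : ∫ ω, h ω ^ 2 * g ω ^ (2 * n) ∂μ ≤ 2 * K * (Q * (P + Q) ^ n) := by
    have hpt : ∀ ω, h ω ^ 2 * g ω ^ (2 * n) ≤ (Q * (P + Q) ^ n) *
        ((1 / Q ^ (n + 1)) * h ω ^ (2 * (n + 1)) +
          (1 / (P + Q) ^ (n + 1)) * g ω ^ (2 * (n + 1))) := by
      intro ω
      obtain ⟨a, ha⟩ : ∃ a, a = h ω ^ 2 / Q := ⟨_, rfl⟩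
      obtain ⟨b, hb⟩ : ∃ b, b = g ω ^ 2 / (P + Q) := ⟨_, rfl⟩
      have ha0 : 0 ≤ a := by rw [ha]; positivity
      have hb0 : 0 ≤ b := by rw [hb]; positivity
      have h1 : a * b ^ n ≤ a ^ (n + 1) + b ^ (n + 1) := by
        rcases le_total a b with hab | hab
        · have : a * b ^ n ≤ b * b ^ n := mul_le_mul_of_nonneg_right hab (by positivity)
          have h2 : b * b ^ n = b ^ (n + 1) := by ring
          have h3 : 0 ≤ a ^ (n + 1) := by positivity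
          linarith
        · have : a * b ^ n ≤ a * a ^ n :=
            mul_le_mul_of_nonneg_left (pow_le_pow_left₀ hb0 hab n) ha0
          have h2 : a * a ^ n = a ^ (n + 1) := by ring
          have h3 : 0 ≤ b ^ (n + 1) := by positivity
          linarith
      have e1 : h ω ^ 2 * g ω ^ (2 * n) = (Q * (P + Q) ^ n) * (a * b ^ n) := by
        rw [ha, hb, div_pow, pow_mul]
        field_simp
      have e2 : (1 / Q ^ (n + 1)) * h ω ^ (2 * (n + 1)) = a ^ (n + 1) := by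
        rw [ha, div_pow, pow_mul]; ring
      have e3 : (1 / (P + Q) ^ (n + 1)) * g ω ^ (2 * (n + 1)) = b ^ (n + 1) := by
        rw [hb, div_pow, pow_mul]; ring
      rw [e1, e2, e3]
      exact mul_le_mul_of_nonneg_left h1 (by positivity)
    calc ∫ ω, h ω ^ 2 * g ω ^ (2 * n) ∂μ
        ≤ ∫ ω, (Q * (P + Q) ^ n) * ((1 / Q ^ (n + 1)) * h ω ^ (2 * (n + 1)) +
          (1 / (P + Q) ^ (n + 1)) * g ω ^ (2 * (n + 1))) ∂μ := by
          apply integral_mono i4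
          · exact ((i5.const_mul _).add (i2.const_mul _)).const_mul _
          · exact hpt
      _ = (Q * (P + Q) ^ n) * ((1 / Q ^ (n + 1)) * ∫ ω, h ω ^ (2 * (n + 1)) ∂μ +
          (1 / (P + Q) ^ (n + 1)) * ∫ ω, g ω ^ (2 * (n + 1)) ∂μ) := by
          rw [integral_const_mul, integral_add (i5.const_mul _) (i2.const_mul _),
            integral_const_mul, integral_const_mul]
      _ ≤ (Q * (P + Q) ^ n) * (K + K) := by
          apply mul_le_mul_of_nonneg_left _ (by positivity)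
          apply add_le_add
          · rw [one_div, inv_mul_le_iff₀ (by positivity)]
            have := mul_comm K (Q ^ (n + 1))
            linarith
          · rw [one_div, inv_mul_le_iff₀ (by positivity)]
            have h3 := mul_le_mul_of_nonneg_right (pow_le_pow_left₀ hP (by linarith :
              P ≤ P + Q) (n + 1)) hK
            have := mul_comm K (P ^ (n + 1))
            linarith
      _ = _ := by ring
  have hpt2 : ∀ᵐ ω ∂μ, (g ω + ρ * x ω * h ω) ^ (2 * (n + 1)) ≤ g ω ^ (2 * (n + 1)) +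
      (2 * (n + 1)) * ρ * (g ω ^ (2 * n + 1) * h ω * x ω) +
      ((2 * n + 2) ^ 2 * 4 ^ n) * ρ ^ 2 * (h ω ^ 2 * g ω ^ (2 * n) + h ω ^ (2 * (n + 1))) := by
    filter_upwards [hx] with ω h1
    have := step_ineq n (g ω) (h ω) (x ω) ρ hρ0 hρ1 h1
    have e : h ω ^ 2 * g ω ^ (2 * n) + h ω ^ (2 * (n + 1)) =
      h ω ^ 2 * (g ω ^ (2 * n) + h ω ^ (2 * n)) := by ring
    rw [e]; exact this
  have i6 : Integrable (fun ω => g ω ^ (2 * (n + 1)) +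
      (2 * (n + 1)) * ρ * (g ω ^ (2 * n + 1) * h ω * x ω) +
      ((2 * n + 2) ^ 2 * 4 ^ n) * ρ ^ 2 * (h ω ^ 2 * g ω ^ (2 * n) + h ω ^ (2 * (n + 1)))) μ :=
    (i2.add (i3.const_mul _)).add ((i4.add i5).const_mul _)
  have h10 := integral_mono_ae i1 i6 hpt2
  have e : ∫ ω, (g ω ^ (2 * (n + 1)) +
      (2 * (n + 1)) * ρ * (g ω ^ (2 * n + 1) * h ω * x ω) +
      ((2 * n + 2) ^ 2 * 4 ^ n) * ρ ^ 2 * (h ω ^ 2 * g ω ^ (2 * n) + h ω ^ (2 * (n + 1)))) ∂μ =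
      ∫ ω, g ω ^ (2 * (n + 1)) ∂μ + ((2 * n + 2) ^ 2 * 4 ^ n) * ρ ^ 2 *
        (∫ ω, h ω ^ 2 * g ω ^ (2 * n) ∂μ + ∫ ω, h ω ^ (2 * (n + 1)) ∂μ) := by
    have i7 : Integrable (fun ω => h ω ^ 2 * g ω ^ (2 * n) + h ω ^ (2 * (n + 1))) μ := i4.add i5
    have i8 : Integrable (fun ω => ((2 * (n:ℝ) + 2) ^ 2 * 4 ^ n) * ρ ^ 2 *
      (h ω ^ 2 * g ω ^ (2 * n) + h ω ^ (2 * (n + 1)))) μ := i7.const_mul _
    have i9 : Integrable (fun ω => (2 * ((n:ℝ) + 1)) * ρ *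
      (g ω ^ (2 * n + 1) * h ω * x ω)) μ := i3.const_mul _
    have i10 : Integrable (fun ω => g ω ^ (2 * (n + 1)) + (2 * ((n:ℝ) + 1)) * ρ *
      (g ω ^ (2 * n + 1) * h ω * x ω)) μ := i2.add i9
    have e1 := integral_add i10 i8
    have e2 := integral_add i2 i9
    have e3 := integral_add i4 i5
    have e4 : ∫ ω, (2 * ((n:ℝ) + 1)) * ρ * (g ω ^ (2 * n + 1) * h ω * x ω) ∂μ = 0 := by
      rw [integral_const_mul, hzero, mul_zero]
    have e5 : ∫ ω, ((2 * (n:ℝ) + 2) ^ 2 * 4 ^ n) * ρ ^ 2 *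
      (h ω ^ 2 * g ω ^ (2 * n) + h ω ^ (2 * (n + 1))) ∂μ = ((2 * (n:ℝ) + 2) ^ 2 * 4 ^ n) * ρ ^ 2 *
      ∫ ω, (h ω ^ 2 * g ω ^ (2 * n) + h ω ^ (2 * (n + 1))) ∂μ := integral_const_mul _ _
    rw [e1, e2, e4, e5, e3]
    ring
  have h10' : ∫ ω, (g ω + ρ * x ω * h ω) ^ (2 * (n + 1)) ∂μ ≤ ∫ ω, g ω ^ (2 * (n + 1)) ∂μ +
      ((2 * n + 2) ^ 2 * 4 ^ n) * ρ ^ 2 *
        (∫ ω, h ω ^ 2 * g ω ^ (2 * n) ∂μ + ∫ ω, h ω ^ (2 * (n + 1)) ∂μ) := by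
    rw [← e]; exact h10
  have hQX : Q ^ (n + 1) ≤ Q * (P + Q) ^ n := by
    rw [pow_succ, mul_comm]
    exact mul_le_mul_of_nonneg_left (pow_le_pow_left₀ hQ.le (by linarith) n) hQ.le
  have hPX : P ^ (n + 1) ≤ P * (P + Q) ^ n := by
    rw [pow_succ, mul_comm]
    exact mul_le_mul_of_nonneg_left (pow_le_pow_left₀ hP (by linarith) n) hP
  have h11 : ∫ ω, h ω ^ 2 * g ω ^ (2 * n) ∂μ + ∫ ω, h ω ^ (2 * (n + 1)) ∂μ ≤
      3 * (K * (Q * (P + Q) ^ n)) := by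
    have : K * Q ^ (n + 1) ≤ K * (Q * (P + Q) ^ n) := mul_le_mul_of_nonneg_left hQX hK
    linarith
  have hd0 : 0 ≤ ((2 * (n:ℝ) + 2) ^ 2 * 4 ^ n) * ρ ^ 2 := by positivity
  have h12 : ((2 * (n:ℝ) + 2) ^ 2 * 4 ^ n) * ρ ^ 2 *
        (∫ ω, h ω ^ 2 * g ω ^ (2 * n) ∂μ + ∫ ω, h ω ^ (2 * (n + 1)) ∂μ) ≤
      K * (Q * (P + Q) ^ n) := by
    refine (mul_le_mul_of_nonneg_left h11 hd0).trans ?_
    have h13 : 0 ≤ K * (Q * (P + Q) ^ n) := by positivity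
    nlinarith
  calc ∫ ω, (g ω + ρ * x ω * h ω) ^ (2 * (n + 1)) ∂μ ≤ K * P ^ (n + 1) +
        K * (Q * (P + Q) ^ n) := by linarith
    _ ≤ K * (P * (P + Q) ^ n) + K * (Q * (P + Q) ^ n) := by
        have := mul_le_mul_of_nonneg_left hPX hK
        linarith
    _ = K * (P + Q) ^ (n + 1) := by ring

end Pool.Agent.H17.Hg
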