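import Pool.Agent.H17.Hg2

set_option autoImplicit false

namespace Pool.Agent.H17.Hg

open MeasureTheory

variable {Ω : Type} {m0 : MeasurableSpace Ω} (μ : Measure Ω) [IsFiniteMeasure μ]
variable {I : Type} [LinearOrder I] (S : I → Set Ω)

/-- the σ-algebra generated by the earlier sets -/
@[reducible] def B (i : I) : MeasurableSpace Ω := MeasurableSpace.generateFrom {E | ∃ j, j < i ∧ S j = E}

variable {S}

theorem B_le (hS : ∀ i, MeasurableSet (S i)) (i : I) : B S i ≤ m0 := by
  apply MeasurableSpace.generateFrom_le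
  rintro _ ⟨j, _, rfl⟩
  exact hS j

theorem B_mono {i j : I} (h : i ≤ j) : B S i ≤ B S j := by
  apply MeasurableSpace.generateFrom_mono
  rintro _ ⟨k, hk, rfl⟩
  exact ⟨k, lt_of_lt_of_le hk h, rfl⟩

theorem S_meas {i j : I} (h : i < j) : MeasurableSet[B S j] (S i) :=
  MeasurableSpace.measurableSet_generateFrom ⟨i, h, rfl⟩

variable (S)

/-- the martingale difference -/
noncomputable def xx (i : I) : Ω → ℝ :=
  (S i).indicator (fun _ => (1:ℝ)) - μ[(S i).indicator (fun _ => (1:ℝ)) | B S i]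

variable {S}

theorem xx_sm {i j : I} (h : i < j) : StronglyMeasurable[B S j] (xx μ S i) := by
  unfold xx
  apply StronglyMeasurable.sub
  · exact (stronglyMeasurable_const).indicator (S_meas h)
  · exact (stronglyMeasurable_condExp (m := B S i)).mono (B_mono h.le)

theorem xx_aesm (hS : ∀ i, MeasurableSet (S i)) (i : I) : AEStronglyMeasurable (xx μ S i) μ := by
  unfold xx
  apply AEStronglyMeasurable.sub
  · exact ((stronglyMeasurable_const).indicator (hS i)).aestronglyMeasurable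
  · exact integrable_condExp.aestronglyMeasurable

theorem ind_int (hS : ∀ i, MeasurableSet (S i)) (i : I) :
    Integrable ((S i).indicator (fun _ => (1:ℝ))) μ :=
  (integrable_const 1).indicator (hS i)

theorem cond_bd (hS : ∀ i, MeasurableSet (S i)) (i : I) :
    ∀ᵐ ω ∂μ, 0 ≤ (μ[(S i).indicator (fun _ => (1:ℝ)) | B S i]) ω ∧
      (μ[(S i).indicator (fun _ => (1:ℝ)) | B S i]) ω ≤ 1 := by
  have h1 : 0 ≤ᵐ[μ] μ[(S i).indicator (fun _ => (1:ℝ)) | B S i] := by
    apply condExp_nonneg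
    refine Filter.Eventually.of_forall fun ω => ?_
    exact Set.indicator_nonneg (fun _ _ => zero_le_one) ω
  have h2 : μ[(S i).indicator (fun _ => (1:ℝ)) | B S i] ≤ᵐ[μ] μ[(fun _ => (1:ℝ)) | B S i] := by
    apply condExp_mono (ind_int μ hS i) (integrable_const 1)
    refine Filter.Eventually.of_forall fun ω => ?_
    exact Set.indicator_le_self' (fun _ _ => zero_le_one) ω
  rw [condExp_const (B_le hS i)] at h2
  filter_upwards [h1, h2] with ω h3 h4
  exact ⟨h3, h4⟩

theorem xx_bd (hS : ∀ i, MeasurableSet (S i)) (i : I) : ∀ᵐ ω ∂μ, |xx μ S i ω| ≤ 1 := by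
  filter_upwards [cond_bd μ hS i] with ω h
  show |(S i).indicator (fun _ => (1:ℝ)) ω - (μ[(S i).indicator (fun _ => (1:ℝ)) | B S i]) ω| ≤ 1
  by_cases hω : ω ∈ S i
  · rw [Set.indicator_of_mem hω, abs_le]
    constructor <;> linarith [h.1, h.2]
  · rw [Set.indicator_of_notMem hω, abs_le]
    constructor <;> linarith [h.1, h.2]

theorem xx_cond (hS : ∀ i, MeasurableSet (S i)) (i : I) : μ[xx μ S i | B S i] =ᵐ[μ] 0 := by
  unfold xx
  have h1 := condExp_sub (ind_int μ hS i)
    (integrable_condExp (m := B S i) (μ := μ) (f := (S i).indicator (fun _ => (1:ℝ)))) (B S i)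
  have h2 : μ[μ[(S i).indicator (fun _ => (1:ℝ)) | B S i] | B S i] =
      μ[(S i).indicator (fun _ => (1:ℝ)) | B S i] :=
    condExp_of_stronglyMeasurable (B_le hS i) stronglyMeasurable_condExp integrable_condExp
  rw [h2] at h1
  filter_upwards [h1] with ω h
  rw [h]; simp

theorem int_mul_xx (hS : ∀ i, MeasurableSet (S i)) (i : I) {k : Ω → ℝ}
    (hk : StronglyMeasurable[B S i] k) {C : ℝ} (hC : ∀ᵐ ω ∂μ, |k ω| ≤ C) :
    ∫ ω, k ω * xx μ S i ω ∂μ = 0 := by
  have hxi : Integrable (xx μ S i) μ := int_of_bdd μ (xx_aesm μ hS i) (xx_bd μ hS i)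
  have h1 := condExp_stronglyMeasurable_mul_of_bound (B_le hS i) hk hxi C hC
  have h2 := integral_condExp (B_le hS i) (μ := μ) (f := k * xx μ S i)
  have h3 : ∫ ω, (μ[k * xx μ S i | B S i]) ω ∂μ = 0 := by
    have h4 : (μ[k * xx μ S i | B S i]) =ᵐ[μ] 0 := by
      filter_upwards [h1, xx_cond μ hS i] with ω h5 h6
      rw [h5, Pi.mul_apply, h6]; simp
    rw [integral_congr_ae h4]; simp
  rw [h3] at h2
  exact h2.symm

variable (S)

/-- products -/
noncomputable def XX (A : Finset I) : Ω → ℝ := fun ω => ∏ i ∈ A, xx μ S i ω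

variable {S}

theorem XX_bd (hS : ∀ i, MeasurableSet (S i)) (A : Finset I) : ∀ᵐ ω ∂μ, |XX μ S A ω| ≤ 1 := by
  have h : ∀ᵐ ω ∂μ, ∀ i ∈ A, |xx μ S i ω| ≤ 1 := by
    rw [Filter.eventually_all_finset]
    intro i _
    exact xx_bd μ hS i
  filter_upwards [h] with ω hω
  unfold XX
  rw [Finset.abs_prod]
  exact Finset.prod_le_one (fun i _ => abs_nonneg _) hω

theorem XX_sm {A : Finset I} {j : I} (h : ∀ i ∈ A, i < j) : StronglyMeasurable[B S j] (XX μ S A) := by
  have : XX μ S A = ∏ i ∈ A, xx μ S i := by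
    funext ω; unfold XX; rw [Finset.prod_apply]
  rw [this]
  exact Finset.stronglyMeasurable_prod A (fun i hi => xx_sm μ (h i hi))

theorem XX_aesm (hS : ∀ i, MeasurableSet (S i)) (A : Finset I) :
    AEStronglyMeasurable (XX μ S A) μ := by
  have : XX μ S A = ∏ i ∈ A, xx μ S i := by
    funext ω; unfold XX; rw [Finset.prod_apply]
  rw [this]
  exact Finset.aestronglyMeasurable_prod A (fun i _ => xx_aesm μ hS i)

variable (S)

/-- chaos sums -/
noncomputable def FF (ρ : ℝ) (U : Finset I) (c : Finset I → ℝ) : Ω → ℝ :=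
  fun ω => ∑ A ∈ U.powerset, c A * (ρ ^ A.card * XX μ S A ω)

variable {S}

theorem FF_bd (hS : ∀ i, MeasurableSet (S i)) (ρ : ℝ) (U : Finset I) (c : Finset I → ℝ) :
    ∀ᵐ ω ∂μ, |FF μ S ρ U c ω| ≤ ∑ A ∈ U.powerset, |c A| * |ρ| ^ A.card := by
  have h : ∀ᵐ ω ∂μ, ∀ A ∈ U.powerset, |XX μ S A ω| ≤ 1 := by
    rw [Filter.eventually_all_finset]
    intro A _
    exact XX_bd μ hS A
  filter_upwards [h] with ω hω
  unfold FF
  refine (Finset.abs_sum_le_sum_abs _ _).trans (Finset.sum_le_sum fun A hA => ?_)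
  rw [abs_mul, abs_mul, abs_pow]
  apply mul_le_mul_of_nonneg_left _ (abs_nonneg _)
  have := hω A hA
  nlinarith [abs_nonneg (XX μ S A ω), pow_nonneg (abs_nonneg ρ) A.card]

theorem FF_sm (ρ : ℝ) {U : Finset I} (c : Finset I → ℝ) {j : I} (h : ∀ i ∈ U, i < j) :
    StronglyMeasurable[B S j] (FF μ S ρ U c) := by
  have : FF μ S ρ U c = ∑ A ∈ U.powerset, fun ω => c A * (ρ ^ A.card * XX μ S A ω) := by
    funext ω; unfold FF; rw [Finset.sum_apply]
  rw [this]
  apply Finset.stronglyMeasurable_sum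
  intro A hA
  have h1 : StronglyMeasurable[B S j] (XX μ S A) :=
    XX_sm μ (fun i hi => h i (Finset.mem_powerset.1 hA hi))
  exact (h1.const_mul _).const_mul _

theorem FF_insert (ρ : ℝ) {U : Finset I} (c : Finset I → ℝ) {i : I} (hi : i ∉ U) (ω : Ω) :
    FF μ S ρ (insert i U) c ω = FF μ S ρ U c ω +
      ρ * xx μ S i ω * FF μ S ρ U (fun A => c (insert i A)) ω := by
  unfold FF
  rw [Finset.sum_powerset_insert hi, Finset.mul_sum]
  congr 1
  apply Finset.sum_congr rfl
  intro A hA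
  have hiA : i ∉ A := fun h => hi (Finset.mem_powerset.1 hA h)
  unfold XX
  rw [Finset.card_insert_of_notMem hiA, Finset.prod_insert hiA, pow_succ]
  ring

/-- the main estimate -/
theorem main_est (hS : ∀ i, MeasurableSet (S i)) (n : ℕ) {ρ : ℝ} (hρ0 : 0 ≤ ρ) (hρ1 : ρ ≤ 1)
    (hρ : 3 * ((2 * n + 2) ^ 2 * 4 ^ n) * ρ ^ 2 ≤ 1) (U : Finset I) (c : Finset I → ℝ) :
    ∫ ω, FF μ S ρ U c ω ^ (2 * (n + 1)) ∂μ ≤
      μ.real Set.univ * (∑ A ∈ U.powerset, c A ^ 2) ^ (n + 1) := by
  induction U using Finset.induction_on_max generalizing c with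
  | empty =>
    have h1 : ∀ ω, FF μ S ρ ∅ c ω = c ∅ := by
      intro ω
      unfold FF XX
      simp
    simp only [h1, Finset.powerset_empty, Finset.sum_singleton, integral_const, smul_eq_mul]
    rw [pow_mul]
  | insert i U hmax ih =>
    have hiU : i ∉ U := fun h => lt_irrefl _ (hmax i h)
    rw [Finset.sum_powerset_insert hiU]
    have e : ∀ ω, FF μ S ρ (insert i U) c ω = _ := fun ω => FF_insert μ ρ c hiU ω
    simp only [e]
    have hg := ih c
    have hh := ih (fun A => c (insert i A))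
    rcases eq_or_lt_of_le (Finset.sum_nonneg (fun A _ => sq_nonneg (c (insert i A))) :
      0 ≤ ∑ A ∈ U.powerset, c (insert i A) ^ 2) with h0 | h0
    · have hz : ∀ A ∈ U.powerset, c (insert i A) = 0 := by
        intro A hA
        have := (Finset.sum_eq_zero_iff_of_nonneg (fun A _ => sq_nonneg (c (insert i A)))).1
          h0.symm A hA
        simpa using this
      have hz2 : ∀ ω, FF μ S ρ U (fun A => c (insert i A)) ω = 0 := by
        intro ω
        unfold FF
        apply Finset.sum_eq_zero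
        intro A hA
        beta_reduce
        rw [hz A hA, zero_mul]
      simp only [hz2, mul_zero, add_zero]
      rw [← h0, add_zero]
      exact hg
    · have hgB := FF_sm (S := S) μ ρ c (j := i) hmax
      have hhB := FF_sm (S := S) μ ρ (fun A => c (insert i A)) (j := i) hmax
      refine step_int μ n ((hgB.mono (B_le hS i)).aestronglyMeasurable)
        ((hhB.mono (B_le hS i)).aestronglyMeasurable) (xx_aesm μ hS i) (FF_bd μ hS ρ U c)
        (FF_bd μ hS ρ U _) (xx_bd μ hS i) ?_ hρ0 hρ1 hρ measureReal_nonneg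
        (Finset.sum_nonneg (fun A _ => sq_nonneg _)) h0 hg hh
      have hk : StronglyMeasurable[B S i] (fun ω => FF μ S ρ U c ω ^ (2 * n + 1) *
          FF μ S ρ U (fun A => c (insert i A)) ω) := (hgB.pow _).mul hhB
      refine int_mul_xx μ hS i hk (C := (∑ A ∈ U.powerset, |c A| * |ρ| ^ A.card) ^ (2 * n + 1) *
        (∑ A ∈ U.powerset, |c (insert i A)| * |ρ| ^ A.card)) ?_
      filter_upwards [FF_bd μ hS ρ U c, FF_bd μ hS ρ U (fun A => c (insert i A))] with ω h1 h2
      rw [abs_mul, abs_pow]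
      exact mul_le_mul (pow_le_pow_left₀ (abs_nonneg _) h1 _) h2 (abs_nonneg _)
        (pow_nonneg (Finset.sum_nonneg (fun A _ => by positivity)) _)

end Pool.Agent.H17.Hg
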