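import Pool.Agent.H17.Hg3

set_option autoImplicit false
set_option linter.unusedSectionVars false

namespace Pool.Agent.H17.Hg

open MeasureTheory Filter
open scoped Topology symmDiff ENNReal

variable {Ω : Type} {m0 : MeasurableSpace Ω} {μ : Measure Ω} [IsFiniteMeasure μ]
variable {I : Type} [LinearOrder I] {S : I → Set Ω} {p : ENNReal}

/-- the class of `f` belongs to `W` -/
def In (W : Submodule ℝ (Lp ℝ p μ)) (f : Ω → ℝ) : Prop := ∃ hf : MemLp f p μ, hf.toLp f ∈ W

variable {W : Submodule ℝ (Lp ℝ p μ)}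

theorem In.congr {f g : Ω → ℝ} (h : f =ᵐ[μ] g) (hf : In W f) : In W g := by
  obtain ⟨hf, hm⟩ := hf
  refine ⟨(memLp_congr_ae h).1 hf, ?_⟩
  rwa [← MemLp.toLp_congr hf _ h]

theorem In.add {f g : Ω → ℝ} (hf : In W f) (hg : In W g) : In W (f + g) := by
  obtain ⟨hf, hm⟩ := hf
  obtain ⟨hg, hm'⟩ := hg
  exact ⟨hf.add hg, by rw [MemLp.toLp_add hf hg]; exact W.add_mem hm hm'⟩

theorem In.sub {f g : Ω → ℝ} (hf : In W f) (hg : In W g) : In W (f - g) := by
  obtain ⟨hf, hm⟩ := hf
  obtain ⟨hg, hm'⟩ := hg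
  exact ⟨hf.sub hg, by rw [MemLp.toLp_sub hf hg]; exact W.sub_mem hm hm'⟩

theorem In.smul {f : Ω → ℝ} (c : ℝ) (hf : In W f) : In W (c • f) := by
  obtain ⟨hf, hm⟩ := hf
  exact ⟨hf.const_smul c, by rw [MemLp.toLp_const_smul c hf]; exact W.smul_mem c hm⟩

theorem In.mono {W' : Submodule ℝ (Lp ℝ p μ)} (h : W ≤ W') {f : Ω → ℝ} (hf : In W f) : In W' f := by
  obtain ⟨hf, hm⟩ := hf
  exact ⟨hf, h hm⟩

theorem memLp_bd {f : Ω → ℝ} (hf : AEStronglyMeasurable f μ) {C : ℝ}
    (hC : ∀ᵐ ω ∂μ, |f ω| ≤ C) : MemLp f p μ := MemLp.of_bound hf C hC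

section

variable [hp1 : Fact (1 ≤ p)]

variable (μ p S) in
/-- closed span of the products over sets of indices below `j` -/
noncomputable def VV (J : Set I) : Submodule ℝ (Lp ℝ p μ) :=
  (Submodule.span ℝ {v | ∃ A : Finset I, (∀ i ∈ A, i ∈ J) ∧ ∃ h : MemLp (XX μ S A) p μ,
    v = h.toLp (XX μ S A)}).topologicalClosure

theorem VV_mono {J J' : Set I} (h : J ⊆ J') : VV μ S p J ≤ VV μ S p J' := by
  apply Submodule.topologicalClosure_mono
  apply Submodule.span_mono
  rintro _ ⟨A, hA, hm, rfl⟩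
  exact ⟨A, fun i hi => h (hA i hi), hm, rfl⟩

theorem XX_In (hS : ∀ i, MeasurableSet (S i)) {J : Set I} {A : Finset I} (hA : ∀ i ∈ A, i ∈ J) :
    In (VV μ S p J) (XX μ S A) := by
  have hm : MemLp (XX μ S A) p μ := memLp_bd (XX_aesm μ hS A) (XX_bd μ hS A)
  exact ⟨hm, Submodule.le_topologicalClosure _ (Submodule.subset_span ⟨A, hA, hm, rfl⟩)⟩

/-- multiplication by `xx j` -/
theorem mul_xx (hS : ∀ i, MeasurableSet (S i)) {j : I} {f : Ω → ℝ}
    (hf : In (VV μ S p {i | i < j}) f) :
    In (VV μ S p {i | i ≤ j}) (fun ω => xx μ S j ω * f ω) := by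
  have hmem : ∀ g : Lp ℝ p μ, MemLp (fun ω => xx μ S j ω * g ω) p μ := by
    intro g
    apply MemLp.of_le (Lp.memLp g) ((xx_aesm μ hS j).mul (Lp.aestronglyMeasurable g))
    filter_upwards [xx_bd μ hS j] with ω h
    show ‖xx μ S j ω * g ω‖ ≤ _
    rw [norm_mul, Real.norm_eq_abs]
    exact mul_le_of_le_one_left (norm_nonneg _) h
  let M0 : Lp ℝ p μ →ₗ[ℝ] Lp ℝ p μ :=
    { toFun := fun g => (hmem g).toLp _
      map_add' := fun g g' => by
        rw [← MemLp.toLp_add]
        apply MemLp.toLp_congr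
        filter_upwards [Lp.coeFn_add g g'] with ω h
        rw [h, Pi.add_apply, Pi.add_apply]; ring
      map_smul' := fun c g => by
        rw [RingHom.id_apply, ← MemLp.toLp_const_smul]
        apply MemLp.toLp_congr
        filter_upwards [Lp.coeFn_smul c g] with ω h
        rw [h, Pi.smul_apply, Pi.smul_apply, smul_eq_mul, smul_eq_mul]; ring }
  have hbound : ∀ g, ‖M0 g‖ ≤ 1 * ‖g‖ := by
    intro g
    rw [one_mul]
    show ‖(hmem g).toLp _‖ ≤ _
    rw [Lp.norm_toLp, Lp.norm_def]
    apply ENNReal.toReal_mono (Lp.eLpNorm_ne_top g)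
    apply eLpNorm_mono_ae
    filter_upwards [xx_bd μ hS j] with ω h
    rw [norm_mul, Real.norm_eq_abs]
    exact mul_le_of_le_one_left (norm_nonneg _) h
  let Mx : Lp ℝ p μ →L[ℝ] Lp ℝ p μ := M0.mkContinuous 1 hbound
  obtain ⟨hf, hm⟩ := hf
  have h1 : Mx (hf.toLp f) ∈ VV μ S p {i | i ≤ j} := by
    have hcl : (VV μ S p {i | i < j}) ≤ (VV μ S p {i | i ≤ j}).comap (Mx : Lp ℝ p μ →ₗ[ℝ] Lp ℝ p μ) := by
      apply Submodule.topologicalClosure_minimal
      · rw [Submodule.span_le]
        rintro _ ⟨A, hA, hmA, rfl⟩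
        show Mx (hmA.toLp _) ∈ VV μ S p {i | i ≤ j}
        have hjA : j ∉ A := fun h => lt_irrefl _ (hA j h)
        obtain ⟨hm2, h2⟩ := XX_In (μ := μ) (p := p) hS (J := {i | i ≤ j}) (A := insert j A) (by
          intro i hi
          rcases Finset.mem_insert.1 hi with rfl | hi
          · exact le_refl i
          · exact (hA i hi).le)
        have e : Mx (hmA.toLp _) = hm2.toLp _ := by
          show (hmem _).toLp _ = _
          apply MemLp.toLp_congr
          filter_upwards [MemLp.coeFn_toLp hmA] with ω h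
          rw [h]
          unfold XX
          rw [Finset.prod_insert hjA]
        rw [e]; exact h2
      · have hc : IsClosed ((VV μ S p {i | i ≤ j} : Submodule ℝ (Lp ℝ p μ)) : Set (Lp ℝ p μ)) :=
          Submodule.isClosed_topologicalClosure _
        exact hc.preimage Mx.continuous
    exact hcl hm
  have hmf : MemLp (fun ω => xx μ S j ω * f ω) p μ := by
    apply MemLp.of_le hf ((xx_aesm μ hS j).mul hf.1)
    filter_upwards [xx_bd μ hS j] with ω h
    show ‖xx μ S j ω * f ω‖ ≤ _
    rw [norm_mul, Real.norm_eq_abs]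
    exact mul_le_of_le_one_left (norm_nonneg _) h
  refine ⟨hmf, ?_⟩
  have e : hmf.toLp _ = Mx (hf.toLp f) := by
    show _ = (hmem _).toLp _
    apply MemLp.toLp_congr
    filter_upwards [MemLp.coeFn_toLp hf] with ω h
    rw [h]
  rw [e]; exact h1

theorem VV_closed (J : Set I) : IsClosed ((VV μ S p J : Submodule ℝ (Lp ℝ p μ)) : Set (Lp ℝ p μ)) :=
  Submodule.isClosed_topologicalClosure _

/-- from measurable sets to measurable functions -/
theorem In_of_sm (hpt : p ≠ ⊤) {m : MeasurableSpace Ω} (hm : m ≤ m0) {J : Set I}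
    (hset : ∀ E, MeasurableSet[m] E → In (VV μ S p J) (E.indicator fun _ => (1:ℝ)))
    {f : Ω → ℝ} (hf : MemLp f p μ) (hfm : StronglyMeasurable[m] f) : In (VV μ S p J) f := by
  refine MemLp.induction_stronglyMeasurable hm hpt (fun f => In (VV μ S p J) f) ?_ ?_ ?_ ?_ hf
    hfm.aestronglyMeasurable
  · intro c s hs _
    have h1 := In.smul (m0 := m0) c (hset s hs)
    have e : c • (s.indicator fun _ => (1:ℝ)) = s.indicator fun _ => c := by
      ext ω
      by_cases h : ω ∈ s <;> simp [h]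
    rwa [e] at h1
  · intro f g _ _ _ _ _ hf hg
    exact In.add (m0 := m0) hf hg
  · have e : {f : @lpMeas Ω ℝ ℝ _ _ _ m m0 p μ | In (VV μ S p J) (f : Lp ℝ p μ)} =
        (fun f : @lpMeas Ω ℝ ℝ _ _ _ m m0 p μ => (f : Lp ℝ p μ)) ⁻¹' (VV μ S p J) := by
      ext f
      constructor
      · rintro ⟨h1, h2⟩
        rw [Lp.toLp_coeFn] at h2
        exact h2
      · intro h
        exact ⟨Lp.memLp _, by rw [Lp.toLp_coeFn]; exact h⟩
    rw [e]
    exact (VV_closed J).preimage continuous_subtype_val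
  · intro f g h _ hf
    exact hf.congr h

/-- the π-system -/
theorem ind_inter {F : Finset I} {k : I} (hk : k ∉ F) (ω : Ω) :
    (⋂ i ∈ insert k F, S i).indicator (fun _ => (1:ℝ)) ω =
      xx μ S k ω * (⋂ i ∈ F, S i).indicator (fun _ => (1:ℝ)) ω +
      (⋂ i ∈ F, S i).indicator (fun _ => (1:ℝ)) ω *
        (μ[(S k).indicator (fun _ => (1:ℝ)) | B S k]) ω := by
  have h1 : (⋂ i ∈ insert k F, S i).indicator (fun _ => (1:ℝ)) ω =
      (S k).indicator (fun _ => (1:ℝ)) ω * (⋂ i ∈ F, S i).indicator (fun _ => (1:ℝ)) ω := by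
    rw [Finset.set_biInter_insert]
    by_cases h2 : ω ∈ S k <;> by_cases h3 : ω ∈ ⋂ i ∈ F, S i
    · rw [Set.indicator_of_mem (show ω ∈ S k ∩ ⋂ i ∈ F, S i from ⟨h2, h3⟩), Set.indicator_of_mem h2, Set.indicator_of_mem h3]; ring
    · rw [Set.indicator_of_notMem (fun h => h3 h.2), Set.indicator_of_notMem h3]; ring
    · rw [Set.indicator_of_notMem (fun h => h2 h.1), Set.indicator_of_notMem h2]; ring
    · rw [Set.indicator_of_notMem (fun h => h2 h.1), Set.indicator_of_notMem h2]; ring
  have h2 : xx μ S k ω = (S k).indicator (fun _ => (1:ℝ)) ω -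
    (μ[(S k).indicator (fun _ => (1:ℝ)) | B S k]) ω := rfl
  rw [h1, h2]; ring

theorem inter_meas {F : Finset I} {k : I} (h : ∀ i ∈ F, i < k) :
    MeasurableSet[B S k] (⋂ i ∈ F, S i) := by
  apply Finset.measurableSet_biInter
  intro i hi
  exact S_meas (h i hi)

/-- indicators of `B j`-measurable sets -/
theorem claim (hpt : p ≠ ⊤) (hS : ∀ i, MeasurableSet (S i)) [WellFoundedLT I] (j : I) :
    ∀ E, MeasurableSet[B S j] E → In (VV μ S p {i | i < j}) (E.indicator fun _ => (1:ℝ)) := by
  induction j using WellFoundedLT.induction with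
  | _ j ih =>
  -- generating π-system
  have hgen : B S j = MeasurableSpace.generateFrom
      {E | ∃ F : Finset I, (∀ i ∈ F, i < j) ∧ E = ⋂ i ∈ F, S i} := by
    apply le_antisymm
    · apply MeasurableSpace.generateFrom_mono
      rintro _ ⟨i, hi, rfl⟩
      exact ⟨{i}, by simpa using hi, by simp⟩
    · apply MeasurableSpace.generateFrom_le
      rintro _ ⟨F, hF, rfl⟩
      exact inter_meas hF
  have hpi : IsPiSystem {E | ∃ F : Finset I, (∀ i ∈ F, i < j) ∧ E = ⋂ i ∈ F, S i} := by
    classical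
    rintro _ ⟨F, hF, rfl⟩ _ ⟨F', hF', rfl⟩ _
    refine ⟨F ∪ F', ?_, ?_⟩
    · intro i hi
      rcases Finset.mem_union.1 hi with h | h
      · exact hF i h
      · exact hF' i h
    · ext ω
      simp only [Set.mem_inter_iff, Set.mem_iInter, Finset.mem_union]
      constructor
      · rintro ⟨h1, h2⟩ i (hi | hi)
        · exact h1 i hi
        · exact h2 i hi
      · intro h
        exact ⟨fun i hi => h i (Or.inl hi), fun i hi => h i (Or.inr hi)⟩
  have hone : In (VV μ S p {i | i < j}) (fun _ => (1:ℝ)) := by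
    have h1 := XX_In (μ := μ) (p := p) hS (J := {i | i < j}) (A := ∅) (by simp)
    have e : XX μ S (∅ : Finset I) = fun _ => (1:ℝ) := by
      funext ω; unfold XX; simp
    rwa [e] at h1
  intro E hE
  refine MeasurableSpace.induction_on_inter
    (C := fun E _ => In (VV μ S p {i | i < j}) (E.indicator fun _ => (1:ℝ)))
    hgen hpi ?_ ?_ ?_ ?_ E hE
  · have h1 := hone.sub hone
    have e : (fun _ : Ω => (1:ℝ)) - (fun _ => (1:ℝ)) = (∅ : Set Ω).indicator (fun _ => (1:ℝ)) := by
      ext ω; simp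
    rwa [e] at h1
  · rintro _ ⟨F, hF, rfl⟩
    rcases F.eq_empty_or_nonempty with rfl | hne
    · have e : (⋂ i ∈ (∅ : Finset I), S i).indicator (fun _ => (1:ℝ)) = fun _ => (1:ℝ) := by
        ext ω; simp
      rw [e]; exact hone
    · obtain ⟨k, hk⟩ : ∃ k, k = F.max' hne := ⟨_, rfl⟩
      have hkF : k ∈ F := by rw [hk]; exact F.max'_mem hne
      have hkj := hF k hkF
      have hF' : ∀ i ∈ F.erase k, i < k := by
        intro i hi
        rw [Finset.mem_erase] at hi
        have : i ≤ k := by rw [hk]; exact F.le_max' i hi.2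
        exact lt_of_le_of_ne this hi.1
      have hIm := inter_meas (S := S) hF'
      have hInd := ih k hkj _ hIm
      have hsm : StronglyMeasurable[B S k] (fun ω =>
          (⋂ i ∈ F.erase k, S i).indicator (fun _ => (1:ℝ)) ω *
          (μ[(S k).indicator (fun _ => (1:ℝ)) | B S k]) ω) := by
        apply StronglyMeasurable.mul
        · exact stronglyMeasurable_const.indicator hIm
        · exact stronglyMeasurable_condExp
      have hbd : ∀ᵐ ω ∂μ, |(⋂ i ∈ F.erase k, S i).indicator (fun _ => (1:ℝ)) ω *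
          (μ[(S k).indicator (fun _ => (1:ℝ)) | B S k]) ω| ≤ 1 := by
        filter_upwards [cond_bd μ hS k] with ω h
        by_cases h3 : ω ∈ ⋂ i ∈ F.erase k, S i
        · rw [Set.indicator_of_mem h3, one_mul, abs_le]
          constructor <;> linarith [h.1, h.2]
        · rw [Set.indicator_of_notMem h3, zero_mul, abs_zero]; exact zero_le_one
      have h2 : In (VV μ S p {i | i < k}) (fun ω =>
          (⋂ i ∈ F.erase k, S i).indicator (fun _ => (1:ℝ)) ω *
          (μ[(S k).indicator (fun _ => (1:ℝ)) | B S k]) ω) :=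
        In_of_sm hpt (B_le hS k) (ih k hkj)
          (memLp_bd (hsm.mono (B_le hS k)).aestronglyMeasurable hbd) hsm
      have h3 := mul_xx hS hInd
      have h4 := (h3.mono (VV_mono (J' := {i | i < j}) (fun i (hi : i ≤ k) => lt_of_le_of_lt hi hkj))).add
        (h2.mono (VV_mono (J' := {i | i < j}) (fun i (hi : i < k) => hi.trans hkj)))
      have e : F = insert k (F.erase k) := (Finset.insert_erase hkF).symm
      have e2 : (⋂ i ∈ F, S i).indicator (fun _ => (1:ℝ)) =
          (fun ω => xx μ S k ω * (⋂ i ∈ F.erase k, S i).indicator (fun _ => (1:ℝ)) ω) +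
          (fun ω => (⋂ i ∈ F.erase k, S i).indicator (fun _ => (1:ℝ)) ω *
            (μ[(S k).indicator (fun _ => (1:ℝ)) | B S k]) ω) := by
        funext ω
        rw [Pi.add_apply, ← ind_inter (μ := μ) (Finset.notMem_erase k F) ω, ← e]
      rw [e2]; exact h4
  · intro t _ ht
    have h1 := hone.sub ht
    have e : (fun _ : Ω => (1:ℝ)) - (t.indicator fun _ => (1:ℝ)) =
        tᶜ.indicator (fun _ => (1:ℝ)) := by
      ext ω
      by_cases h : ω ∈ t <;> simp [h]
    rwa [e] at h1
  · intro f hdisj hfm hf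
    -- partial unions
    have hfm0 : ∀ n, MeasurableSet (f n) := fun n => B_le hS j _ (hfm n)
    have hpart : ∀ n, In (VV μ S p {i | i < j}) ((⋃ k ∈ Finset.range n, f k).indicator
        fun _ => (1:ℝ)) := by
      intro n
      induction n with
      | zero =>
        have h1 := hone.sub hone
        have e : (fun _ : Ω => (1:ℝ)) - (fun _ => (1:ℝ)) =
            (⋃ k ∈ Finset.range 0, f k).indicator (fun _ => (1:ℝ)) := by
          ext ω; simp
        rwa [e] at h1
      | succ n ihn =>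
        have h1 := ihn.add (hf n)
        have e : (⋃ k ∈ Finset.range n, f k).indicator (fun _ => (1:ℝ)) +
            (f n).indicator (fun _ => (1:ℝ)) =
            (⋃ k ∈ Finset.range (n + 1), f k).indicator (fun _ => (1:ℝ)) := by
          have hd : Disjoint (⋃ k ∈ Finset.range n, f k) (f n) := by
            rw [Set.disjoint_iUnion₂_left]
            intro k hk
            exact hdisj (by have := Finset.mem_range.1 hk; omega)
          have hu : (⋃ k ∈ Finset.range (n + 1), f k) = (⋃ k ∈ Finset.range n, f k) ∪ f n := by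
            rw [Finset.range_add_one, Finset.set_biUnion_insert, Set.union_comm]
          rw [hu, Set.indicator_union_of_disjoint hd]
          rfl
        rwa [e] at h1
    have hm1 : ∀ n, MeasurableSet (⋃ k ∈ Finset.range n, f k) := fun n =>
      Finset.measurableSet_biUnion _ fun k _ => hfm0 k
    have hm2 : MeasurableSet (⋃ k, f k) := MeasurableSet.iUnion hfm0
    have htend : Tendsto (fun n => μ ((⋃ k ∈ Finset.range n, f k) ∆ (⋃ k, f k))) atTop (𝓝 0) := by
      have hsub : ∀ n, (⋃ k ∈ Finset.range n, f k) ⊆ ⋃ k, f k := fun n =>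
        Set.iUnion₂_subset fun k _ => Set.subset_iUnion f k
      have e : ∀ n, μ ((⋃ k ∈ Finset.range n, f k) ∆ (⋃ k, f k)) =
          μ ((⋃ k, f k) \ (⋃ k ∈ Finset.range n, f k)) := by
        intro n
        congr 1
        rw [Set.symmDiff_def, Set.sdiff_eq_empty.2 (hsub n), Set.empty_union]
      simp only [e]
      have h1 := tendsto_measure_iInter_atTop (μ := μ)
        (s := fun n => (⋃ k, f k) \ (⋃ k ∈ Finset.range n, f k))
        (fun n => (hm2.diff (hm1 n)).nullMeasurableSet) (by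
          intro a b hab
          apply Set.sdiff_subset_sdiff_right
          apply Set.biUnion_subset_biUnion_left
          intro k hk
          have := Finset.mem_range.1 hk
          exact Finset.mem_range.2 (by omega)) ⟨0, measure_ne_top μ _⟩
      have h2 : (⋂ n, (⋃ k, f k) \ (⋃ k ∈ Finset.range n, f k)) = ∅ := by
        rw [Set.eq_empty_iff_forall_notMem]
        intro ω hω
        rw [Set.mem_iInter] at hω
        obtain ⟨k, hk⟩ := Set.mem_iUnion.1 (hω 0).1
        exact (hω (k + 1)).2 (Set.mem_iUnion₂.2 ⟨k, by simp, hk⟩)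
      rw [h2, measure_empty] at h1
      exact h1
    have hT := tendsto_indicatorConstLp_set (p := p) (c := (1:ℝ)) (μ := μ) (hs := hm2)
      (hμs := measure_ne_top μ _) (ht := hm1) (hμt := fun n => measure_ne_top μ _) hpt htend
    refine ⟨memLp_indicator_const p hm2 1 (Or.inr (measure_ne_top μ _)), ?_⟩
    refine (VV_closed {i | i < j}).mem_of_tendsto hT (Eventually.of_forall fun n => ?_)
    obtain ⟨h1, h2⟩ := hpart n
    exact h2

end

end Pool.Agent.H17.Hg
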