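import Pool.Agent.H17.Hg1
import Pool.Agent.H17.Hg4

set_option autoImplicit false
set_option linter.unusedSectionVars false

namespace Pool.Agent.H17.Hg

open MeasureTheory Filter
open scoped Topology symmDiff ENNReal

variable {Ω : Type} {m0 : MeasurableSpace Ω} {μ : Measure Ω} [IsFiniteMeasure μ]
variable {I : Type} [LinearOrder I] {S : I → Set Ω} {p : ENNReal} [hp1 : Fact (1 ≤ p)]

theorem VV_univ (hpt : p ≠ ⊤) (hS : ∀ i, MeasurableSet (S i)) [WellFoundedLT I]
    (hsurj : ∀ E, MeasurableSet E → ∃ i, S i = E) : VV μ S p Set.univ = ⊤ := by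
  rw [eq_top_iff]
  intro f _
  have hset : ∀ E, MeasurableSet[m0] E → In (VV μ S p Set.univ) (E.indicator fun _ => (1:ℝ)) := by
    intro E hE
    obtain ⟨k, rfl⟩ := hsurj E hE
    have h1 : In (VV μ S p Set.univ) (XX μ S {k}) := XX_In hS (by simp)
    have h2 : In (VV μ S p {i | i < k}) (μ[(S k).indicator (fun _ => (1:ℝ)) | B S k]) :=
      In_of_sm hpt (B_le hS k) (claim hpt hS k)
        (memLp_bd (C := 1) (stronglyMeasurable_condExp.mono (B_le hS k)).aestronglyMeasurable (by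
          filter_upwards [cond_bd μ hS k] with ω h
          rw [abs_le]
          constructor <;> linarith [h.1, h.2])) stronglyMeasurable_condExp
    have h3 := h1.add (h2.mono (VV_mono (Set.subset_univ _)))
    have e : XX μ S {k} + μ[(S k).indicator (fun _ => (1:ℝ)) | B S k] =
        (S k).indicator (fun _ => (1:ℝ)) := by
      funext ω
      unfold XX xx
      simp
    rwa [e] at h3
  obtain ⟨h1, h2⟩ := In_of_sm hpt (le_refl m0) hset (Lp.memLp f) (Lp.stronglyMeasurable f)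
  rwa [Lp.toLp_coeFn] at h2

theorem FF_aesm (hS : ∀ i, MeasurableSet (S i)) (ρ : ℝ) (U : Finset I) (c : Finset I → ℝ) :
    AEStronglyMeasurable (FF μ S ρ U c) μ := by
  unfold FF
  apply Finset.aestronglyMeasurable_fun_sum
  intro A _
  exact ((XX_aesm μ hS A).const_mul _).const_mul _

theorem norm_FF (hS : ∀ i, MeasurableSet (S i)) (hpt : p ≠ ⊤) {n : ℕ}
    (hn : p ≤ ((2 * (n + 1) : ℕ) : ENNReal)) {ρ : ℝ} (hρ0 : 0 ≤ ρ) (hρ1 : ρ ≤ 1)
    (hρ : 3 * ((2 * n + 2) ^ 2 * 4 ^ n) * ρ ^ 2 ≤ 1) (U : Finset I) (c : Finset I → ℝ)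
    (hm : MemLp (FF μ S ρ U c) p μ) :
    ‖hm.toLp _‖ ^ 2 ≤ (μ.real Set.univ ^ ((((2 * (n + 1) : ℕ) : ℝ))⁻¹) *
      μ.real Set.univ ^ (1 / p.toReal - 1 / ((2 * (n + 1) : ℕ) : ENNReal).toReal)) ^ 2 *
        ∑ A ∈ U.powerset, c A ^ 2 := by
  have hq : MemLp (FF μ S ρ U c) ((2 * (n + 1) : ℕ) : ENNReal) μ :=
    memLp_bd (FF_aesm hS ρ U c) (FF_bd μ hS ρ U c)
  have h1 := eLpNorm_le_eLpNorm_mul_rpow_measure_univ (μ := μ) hn (FF_aesm (μ := μ) hS ρ U c)
  have h2 := MemLp.eLpNorm_eq_integral_rpow_norm (p := ((2 * (n + 1) : ℕ) : ENNReal))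
    (by
      rw [Ne, Nat.cast_eq_zero]; omega) (ENNReal.natCast_ne_top _) hq
  have h3 : ∫ a, ‖FF μ S ρ U c a‖ ^ ((2 * (n + 1) : ℕ) : ENNReal).toReal ∂μ =
      ∫ a, FF μ S ρ U c a ^ (2 * (n + 1)) ∂μ := by
    congr 1
    funext a
    rw [ENNReal.toReal_natCast, Real.rpow_natCast, Real.norm_eq_abs, pow_mul, sq_abs, ← pow_mul]
  rw [h3, ENNReal.toReal_natCast] at h2
  set J := ∫ a, FF μ S ρ U c a ^ (2 * (n + 1)) ∂μ with hJ
  set sc := ∑ A ∈ U.powerset, c A ^ 2 with hsc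
  have hJ0 : 0 ≤ J := integral_nonneg fun a => by
    show 0 ≤ FF μ S ρ U c a ^ (2 * (n + 1))
    rw [pow_mul]; positivity
  have hsc0 : 0 ≤ sc := Finset.sum_nonneg fun A _ => sq_nonneg _
  have hm0' : 0 ≤ μ.real Set.univ := measureReal_nonneg
  have hmain : J ≤ μ.real Set.univ * sc ^ (n + 1) := main_est μ hS n hρ0 hρ1 hρ U c
  rw [h2] at h1
  have h4 : ‖hm.toLp _‖ ≤ J ^ ((((2 * (n + 1) : ℕ) : ℝ))⁻¹) *
      μ.real Set.univ ^ (1 / p.toReal - 1 / ((2 * (n + 1) : ℕ) : ENNReal).toReal) := by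
    rw [Lp.norm_toLp]
    have hexp : 0 ≤ 1 / p.toReal - 1 / ((2 * (n + 1) : ℕ) : ENNReal).toReal := by
      have hp0 : 0 < p.toReal := ENNReal.toReal_pos
        (by have := hp1.out; intro h0; rw [h0] at this; simp at this) hpt
      have hle : p.toReal ≤ ((2 * (n + 1) : ℕ) : ENNReal).toReal :=
        ENNReal.toReal_mono (ENNReal.natCast_ne_top _) hn
      have := one_div_le_one_div_of_le hp0 hle
      linarith
    have h5 := ENNReal.toReal_mono (by
      apply ENNReal.mul_ne_top ENNReal.ofReal_ne_top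
      exact (ENNReal.rpow_lt_top_of_nonneg hexp (measure_ne_top μ _)).ne) h1
    rw [ENNReal.toReal_mul, ENNReal.toReal_ofReal (by positivity), ← ENNReal.toReal_rpow] at h5
    exact h5
  have h6 : J ^ ((((2 * (n + 1) : ℕ) : ℝ))⁻¹) ≤
      μ.real Set.univ ^ ((((2 * (n + 1) : ℕ) : ℝ))⁻¹) * Real.sqrt sc := by
    have h7 : J ^ ((((2 * (n + 1) : ℕ) : ℝ))⁻¹) ≤
        (μ.real Set.univ * sc ^ (n + 1)) ^ ((((2 * (n + 1) : ℕ) : ℝ))⁻¹) :=
      Real.rpow_le_rpow hJ0 hmain (by positivity)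
    rw [Real.mul_rpow hm0' (by positivity)] at h7
    have h8 : (sc ^ (n + 1)) ^ ((((2 * (n + 1) : ℕ) : ℝ))⁻¹) = Real.sqrt sc := by
      rw [Real.sqrt_eq_rpow, ← Real.rpow_natCast, ← Real.rpow_mul hsc0]
      congr 1
      push_cast
      field_simp
    rwa [h8] at h7
  have h9 : ‖hm.toLp _‖ ≤ (μ.real Set.univ ^ ((((2 * (n + 1) : ℕ) : ℝ))⁻¹) *
      μ.real Set.univ ^ (1 / p.toReal - 1 / ((2 * (n + 1) : ℕ) : ENNReal).toReal)) *
        Real.sqrt sc := by
    refine h4.trans ?_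
    have := mul_le_mul_of_nonneg_right h6 (show 0 ≤ μ.real Set.univ ^
      (1 / p.toReal - 1 / ((2 * (n + 1) : ℕ) : ENNReal).toReal) by positivity)
    linarith
  calc ‖hm.toLp _‖ ^ 2 ≤ ((μ.real Set.univ ^ ((((2 * (n + 1) : ℕ) : ℝ))⁻¹) *
      μ.real Set.univ ^ (1 / p.toReal - 1 / ((2 * (n + 1) : ℕ) : ENNReal).toReal)) *
        Real.sqrt sc) ^ 2 := pow_le_pow_left₀ (norm_nonneg _) h9 2
    _ = _ := by rw [mul_pow, Real.sq_sqrt hsc0]

theorem main (hpt : p ≠ ⊤) (μ : Measure Ω) [IsFiniteMeasure μ] :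
    ∃ (H : Type) (_ : NormedAddCommGroup H) (_ : InnerProductSpace ℝ H)
      (_ : CompleteSpace H) (T : H →L[ℝ] Lp ℝ p μ), DenseRange (⇑T) := by
  classical
  let I := {E : Set Ω // MeasurableSet E}
  obtain ⟨inst, hwf⟩ := exists_wellFoundedLT I
  let S : I → Set Ω := Subtype.val
  have hS : ∀ i, MeasurableSet (S i) := fun i => i.2
  have hsurj : ∀ E, MeasurableSet E → ∃ i, S i = E := fun E hE => ⟨⟨E, hE⟩, rfl⟩
  obtain ⟨n, hn⟩ : ∃ n : ℕ, p ≤ ((2 * (n + 1) : ℕ) : ENNReal) := by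
    obtain ⟨k, hk⟩ := ENNReal.exists_nat_gt hpt
    refine ⟨k, hk.le.trans ?_⟩
    exact_mod_cast (by omega : k ≤ 2 * (k + 1))
  obtain ⟨ρ, hρ0, hρ1, hρ⟩ : ∃ ρ : ℝ, 0 < ρ ∧ ρ ≤ 1 ∧ 3 * ((2 * n + 2) ^ 2 * 4 ^ n) * ρ ^ 2 ≤ 1 := by
    have hK : (1:ℝ) ≤ 3 * ((2 * n + 2) ^ 2 * 4 ^ n) := by
      have h1 : (1:ℝ) ≤ (2 * n + 2) ^ 2 := by
        have : (0:ℝ) ≤ n := Nat.cast_nonneg n
        nlinarith
      have h2 : (1:ℝ) ≤ 4 ^ n := one_le_pow₀ (by norm_num)
      nlinarith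
    refine ⟨1 / (3 * ((2 * n + 2) ^ 2 * 4 ^ n)), by positivity, ?_, ?_⟩
    · rw [div_le_one (by positivity)]; exact hK
    · rw [div_pow, one_pow, mul_one_div, div_le_one (by positivity)]
      nlinarith
  have hX : ∀ A : Finset I, MemLp (XX μ S A) p μ := fun A =>
    memLp_bd (XX_aesm μ hS A) (XX_bd μ hS A)
  let v : Finset I → Lp ℝ p μ := fun A => ρ ^ A.card • (hX A).toLp _
  refine exists_op v (μ.real Set.univ ^ ((((2 * (n + 1) : ℕ) : ℝ))⁻¹) *
      μ.real Set.univ ^ (1 / p.toReal - 1 / ((2 * (n + 1) : ℕ) : ENNReal).toReal))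
      (by positivity) ?_ ?_
  · intro s c
    let U : Finset I := s.biUnion id
    let c' : Finset I → ℝ := fun A => if A ∈ s then c A else 0
    have hsU : s ⊆ U.powerset := by
      intro A hA
      rw [Finset.mem_powerset]
      exact Finset.subset_biUnion_of_mem id hA
    have hm : MemLp (FF μ S ρ U c') p μ := memLp_bd (FF_aesm hS ρ U c') (FF_bd μ hS ρ U c')
    have e : ∑ A ∈ s, c A • v A = hm.toLp _ := by
      have e1 : ∑ A ∈ s, c A • v A = ∑ A ∈ U.powerset, c' A • v A := by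
        rw [← Finset.sum_subset hsU]
        · apply Finset.sum_congr rfl
          intro A hA
          simp only [c', if_pos hA]
        · intro A _ hA
          simp only [c', if_neg hA, zero_smul]
      rw [e1]
      have e2 : ∀ (T : Finset (Finset I)) (hT : MemLp (fun ω => ∑ A ∈ T, c' A * (ρ ^ A.card * XX μ S A ω)) p μ),
          ∑ A ∈ T, c' A • v A = hT.toLp _ := by
        intro T
        induction T using Finset.induction_on with
        | empty =>
          intro hT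
          rw [Finset.sum_empty]
          have e4 : hT.toLp _ = (MemLp.zero (p := p) (μ := μ) (ε := ℝ)).toLp _ := by
            apply MemLp.toLp_congr
            refine Filter.Eventually.of_forall fun ω => ?_
            simp
          rw [e4]
          exact (MemLp.toLp_zero _).symm
        | insert A T hA ih =>
          intro hT
          rw [Finset.sum_insert hA]
          have hT' : MemLp (fun ω => ∑ A ∈ T, c' A * (ρ ^ A.card * XX μ S A ω)) p μ :=
            memLp_finsetSum _ fun B _ => ((hX B).const_mul _).const_mul _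
          rw [ih hT']
          have e3 : c' A • v A = (((hX A).const_smul (ρ ^ A.card)).const_smul (c' A)).toLp _ := by
            rw [MemLp.toLp_const_smul (c' A) ((hX A).const_smul (ρ ^ A.card)),
              MemLp.toLp_const_smul (ρ ^ A.card) (hX A)]
          rw [e3, ← MemLp.toLp_add]
          apply MemLp.toLp_congr
          refine Filter.Eventually.of_forall fun ω => ?_
          show c' A • (ρ ^ A.card • XX μ S A ω) + ∑ A ∈ T, c' A * (ρ ^ A.card * XX μ S A ω) =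
            ∑ A ∈ insert A T, c' A * (ρ ^ A.card * XX μ S A ω)
          rw [Finset.sum_insert hA, smul_eq_mul, smul_eq_mul]
      exact e2 U.powerset hm
    rw [e]
    have h1 := norm_FF hS hpt hn hρ0.le hρ1 hρ U c' hm
    refine h1.trans (le_of_eq ?_)
    congr 1
    rw [← Finset.sum_subset hsU]
    · apply Finset.sum_congr rfl
      intro A hA
      simp only [c', if_pos hA]
    · intro A _ hA
      simp only [c', if_neg hA]
      norm_num
  · rw [eq_top_iff, ← VV_univ (μ := μ) (S := S) hpt hS hsurj]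
    apply Submodule.topologicalClosure_mono
    rw [Submodule.span_le]
    rintro _ ⟨A, _, hm, rfl⟩
    have h1 : hm.toLp _ = (ρ ^ A.card)⁻¹ • v A := by
      show _ = (ρ ^ A.card)⁻¹ • (ρ ^ A.card • (hX A).toLp _)
      rw [smul_smul, inv_mul_cancel₀ (pow_ne_zero _ hρ0.ne'), one_smul]
    rw [h1]
    exact Submodule.smul_mem _ _ (Submodule.subset_span ⟨A, rfl⟩)

end Pool.Agent.H17.Hg
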