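import Mathlib

set_option autoImplicit false
universe u

namespace Pool.Agent.H17.Idl

/-- `J` is an ideal of the partial order `P`: an initial and up-directed subset. -/
def IsIdl {P : Type u} [PartialOrder P] (J : Set P) : Prop :=
  (∀ x y : P, y ∈ J → x ≤ y → x ∈ J) ∧ (∀ x ∈ J, ∀ y ∈ J, ∃ z ∈ J, x ≤ z ∧ y ≤ z)

end Pool.Agent.H17.Idl
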