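import Pool.Agent.H17.ER
import Pool.Agent.H17.IdlDef

set_option autoImplicit false
universe u
open Cardinal

namespace Pool.Agent.H17.Idl

theorem fam (μ : Cardinal.{u}) (P : Type u) [PartialOrder P]
   (hP : ¬ ∃ A : Set P, IsAntichain (· ≤ ·) A ∧ #A = μ) 
   (B : Type u) (J : B → Set P) (hB : ∀ a, IsIdl (J a)) (hBa : ∀ a b, a ≠ b → ¬ J a ⊆ J b)
   (hcard : 2 ^ (2 ^ (max μ ℵ₀) : Cardinal.{u}) < #B) : False := by
  classical
  set ν := max μ ℵ₀ with hν
  have hν0 : ℵ₀ ≤ ν := le_max_right _ _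
  have hμν : μ ≤ ν := le_max_left _ _
  obtain ⟨_, _⟩ := exists_wellFoundedLT B
  -- no big antichain
  have anti : ∀ (T : Set B) (g : B → P), ν < #T → (∀ γ ∈ T, ∀ β ∈ T, γ ≠ β → ¬ g γ ≤ g β) → False := by
    intro T g hT hg
    have hinj : Set.InjOn g T := by
      intro a ha b hb hab
      by_contra hne
      exact hg a ha b hb hne hab.le
    have h1 : μ ≤ #(g '' T) := by
      rw [Cardinal.mk_image_eq_of_injOn _ _ hinj]
      exact hμν.trans hT.le
    obtain ⟨A, hA, hAμ⟩ := Cardinal.le_mk_iff_exists_subset.mp h1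
    apply hP
    refine ⟨A, ?_, hAμ⟩
    intro x hx y hy hxy hle
    obtain ⟨a, ha, rfl⟩ := hA hx
    obtain ⟨b, hb, rfl⟩ := hA hy
    exact hg a ha b hb (fun h => hxy (by rw [h])) hle
  -- separating elements
  have hsep : ∀ a b : B, a ≠ b → ∃ x, x ∈ J a ∧ x ∉ J b := by
    intro a b hab
    by_contra hcon
    push Not at hcon
    exact hBa a b hab hcon
  have hPne : Nonempty P := by
    -- since there are two distinct ideals
    by_contra hemp
    rw [not_nonempty_iff] at hemp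
    have : Subsingleton B := by
      constructor
      intro a b
      by_contra hab
      exact hBa a b hab (fun x _ => hemp.elim x)
    have h1 : #B ≤ 1 := Cardinal.le_one_iff_subsingleton.mpr this
    have h2 : (1 : Cardinal.{u}) ≤ 2 ^ (2 ^ ν : Cardinal.{u}) := by
      have h3 := (Cardinal.cantor (2 ^ ν : Cardinal.{u})).le
      have h4 := (Cardinal.cantor ν).le
      exact (Cardinal.one_le_aleph0.trans hν0).trans (h4.trans h3)
    exact absurd hcard (not_lt.mpr (h1.trans h2))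
  let s : B → B → P := fun a b => if h : a ≠ b then (hsep a b h).choose else Classical.choice hPne
  have s1 : ∀ a b : B, a ≠ b → s a b ∈ J a := by
    intro a b h
    simp only [s]; rw [dif_pos h]; exact (hsep a b h).choose_spec.1
  have s2 : ∀ a b : B, a ≠ b → s a b ∉ J b := by
    intro a b h
    simp only [s]; rw [dif_pos h]; exact (hsep a b h).choose_spec.2
  clear_value s
  -- colouring
  let f : B → B → B → ULift.{u} (Fin 4 → Prop) := fun a b d => ⟨![s a d ∈ J b, s a b ∈ J d, s d b ∈ J a, s d a ∈ J b]⟩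
  obtain ⟨H, t, hH, htH, hHt, c, hc⟩ := ER.erdos_rado3 f ν hν0 hcard
  set H1 := insert t H with hH1
  have hHH1 : H ⊆ H1 := Set.subset_insert _ _
  have ht1 : t ∈ H1 := Set.mem_insert _ _
  have hle : ∀ a ∈ H1, a ≤ t := by
    rintro a (rfl | ha)
    · exact le_rfl
    · exact (hHt a ha).le
  have col0 : ∀ a ∈ H1, ∀ b ∈ H1, ∀ d ∈ H1, a < b → b < d → (s a d ∈ J b ↔ c.down 0) := by
    intro a ha b hb d hd h1 h2
    rw [← hc a ha b hb d hd h1 h2]; rfl
  have col1 : ∀ a ∈ H1, ∀ b ∈ H1, ∀ d ∈ H1, a < b → b < d → (s a b ∈ J d ↔ c.down 1) := by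
    intro a ha b hb d hd h1 h2
    rw [← hc a ha b hb d hd h1 h2]; rfl
  have col2 : ∀ a ∈ H1, ∀ b ∈ H1, ∀ d ∈ H1, a < b → b < d → (s d b ∈ J a ↔ c.down 2) := by
    intro a ha b hb d hd h1 h2
    rw [← hc a ha b hb d hd h1 h2]; rfl
  have col3 : ∀ a ∈ H1, ∀ b ∈ H1, ∀ d ∈ H1, a < b → b < d → (s d a ∈ J b ↔ c.down 3) := by
    intro a ha b hb d hd h1 h2
    rw [← hc a ha b hb d hd h1 h2]; rfl
  -- removing a point from a big set
  have remove : ∀ (T : Set B) (b : B), ν < #T → ν < #(T \ {b} : Set B) := by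
    intro T b hT
    by_contra hcon
    push Not at hcon
    have h1 : T ⊆ (T \ {b}) ∪ {b} := by
      intro x hx
      by_cases h : x = b
      · right; exact h
      · left; exact ⟨hx, h⟩
    have h2 : #T ≤ #(T \ {b} : Set B) + 1 := by
      calc #T ≤ #((T \ {b}) ∪ {b} : Set B) := Cardinal.mk_le_mk_of_subset h1
        _ ≤ #(T \ {b} : Set B) + #({b} : Set B) := Cardinal.mk_union_le _ _
        _ = #(T \ {b} : Set B) + 1 := by rw [Cardinal.mk_singleton]
    have h3 : #(T \ {b} : Set B) + 1 ≤ ν := by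
      calc #(T \ {b} : Set B) + 1 ≤ ν + ν := add_le_add hcon (Cardinal.one_le_aleph0.trans hν0)
        _ = ν := Cardinal.add_eq_self hν0
    exact absurd hT (not_lt.mpr (h2.trans h3))
  -- bottom element
  have hHne : H.Nonempty := by
    rw [Set.nonempty_iff_ne_empty]
    rintro rfl
    simp at hH
  obtain ⟨b0, hb0H, hb0min⟩ : ∃ b0 ∈ H, ∀ a ∈ H, b0 ≤ a := by
    refine ⟨(wellFounded_lt (α := B)).min H hHne, WellFounded.min_mem _ _ _, fun a ha => ?_⟩
    exact not_lt.mp (WellFounded.not_lt_min _ H ha)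
  -- Case A
  by_cases hA : c.down 0 ∧ c.down 1
  · apply anti (H \ {b0}) (fun β => s b0 β) (remove H b0 hH)
    rintro γ ⟨hγ, hγb⟩ β ⟨hβ, hβb⟩ hne hle'
    have hγ0 : b0 < γ := lt_of_le_of_ne (hb0min γ hγ) (fun h => hγb h.symm)
    have hβ0 : b0 < β := lt_of_le_of_ne (hb0min β hβ) (fun h => hβb h.symm)
    have hmem : s b0 β ∈ J γ := by
      rcases lt_or_gt_of_ne hne with h | h
      · exact (col0 b0 (hHH1 hb0H) γ (hHH1 hγ) β (hHH1 hβ) hγ0 h).mpr hA.1
      · exact (col1 b0 (hHH1 hb0H) β (hHH1 hβ) γ (hHH1 hγ) hβ0 h).mpr hA.2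
    exact s2 b0 γ hγ0.ne ((hB γ).1 _ _ hmem hle')
  -- Case B
  by_cases hBc : c.down 2 ∧ c.down 3
  · apply anti H (fun α => s t α) hH
    intro γ hγ β hβ hne hle'
    have hγt := hHt γ hγ
    have hβt := hHt β hβ
    have hmem : s t β ∈ J γ := by
      rcases lt_or_gt_of_ne hne with h | h
      · exact (col2 γ (hHH1 hγ) β (hHH1 hβ) t ht1 h hβt).mpr hBc.1
      · exact (col3 β (hHH1 hβ) γ (hHH1 hγ) t ht1 h hγt).mpr hBc.2
    exact s2 t γ hγt.ne' ((hB γ).1 _ _ hmem hle')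
  -- successor
  have hsucc : ∀ a ∈ H, ∃ a' ∈ H1, a < a' ∧ ∀ h ∈ H1, a < h → a' ≤ h := by
    intro a ha
    have hne : ({h ∈ H1 | a < h} : Set B).Nonempty := ⟨t, ht1, hHt a ha⟩
    have hm := (wellFounded_lt (α := B)).min_mem {h ∈ H1 | a < h} hne
    refine ⟨_, hm.1, hm.2, fun h hh hah => ?_⟩
    exact not_lt.mp (WellFounded.not_lt_min _ {h ∈ H1 | a < h} ⟨hh, hah⟩)
  -- set of successors
  let S : Set B := {γ | γ ∈ H ∧ ∃ α ∈ H, α < γ ∧ ∀ h ∈ H1, h < γ → h ≤ α}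
  have hS : ν < #S := by
    choose! sc sc1 sc2 sc3 using hsucc
    have hinj : Set.InjOn sc H := by
      intro a ha b hb hab
      rcases lt_trichotomy a b with h | h | h
      · exfalso
        have := sc3 a ha b (hHH1 hb) h
        rw [hab] at this
        exact absurd (sc2 b hb) (not_lt.mpr this)
      · exact h
      · exfalso
        have := sc3 b hb a (hHH1 ha) h
        rw [← hab] at this
        exact absurd (sc2 a ha) (not_lt.mpr this)
    have hsub : (sc '' H) \ {t} ⊆ S := by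
      rintro _ ⟨⟨a, ha, rfl⟩, hne⟩
      refine ⟨?_, a, ha, sc2 a ha, fun h hh hlt => ?_⟩
      · rcases sc1 a ha with h | h
        · exact absurd h hne
        · exact h
      · by_contra hcon
        push Not at hcon
        exact absurd hlt (not_lt.mpr (sc3 a ha h hh hcon))
    have h1 : ν < #(sc '' H) := by
      rw [Cardinal.mk_image_eq_of_injOn _ _ hinj]; exact hH
    exact lt_of_lt_of_le (remove _ t h1) (Cardinal.mk_le_mk_of_subset hsub)
  -- the elements d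
  have hd : ∀ γ ∈ S, ∃ d ∈ J γ, ∀ β ∈ H, β ≠ γ → d ∉ J β := by
    rintro γ ⟨hγ, α, hα, hαγ, hpred⟩
    have hγt := hHt γ hγ
    have hup : ∃ e ∈ J γ, ∀ β ∈ H, γ < β → e ∉ J β := by
      by_cases h0 : c.down 0
      · have h1 : ¬ c.down 1 := fun h => hA ⟨h0, h⟩
        obtain ⟨γ', hγ', hlt, hmin⟩ := hsucc γ hγ
        refine ⟨s γ γ', s1 γ γ' hlt.ne, fun β hβ hγβ => ?_⟩
        rcases (hmin β (hHH1 hβ) hγβ).eq_or_lt with h | h
        · rw [← h]; exact s2 γ γ' hlt.ne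
        · rw [col1 γ (hHH1 hγ) γ' hγ' β (hHH1 hβ) hlt h]; exact h1
      · refine ⟨s γ t, s1 γ t hγt.ne, fun β hβ hγβ => ?_⟩
        rw [col0 γ (hHH1 hγ) β (hHH1 hβ) t ht1 hγβ (hHt β hβ)]; exact h0
    have hdown : ∃ e ∈ J γ, ∀ β ∈ H, β < γ → e ∉ J β := by
      by_cases h3 : c.down 3
      · have h2 : ¬ c.down 2 := fun h => hBc ⟨h, h3⟩
        refine ⟨s γ α, s1 γ α hαγ.ne', fun β hβ hβγ => ?_⟩
        rcases (hpred β (hHH1 hβ) hβγ).eq_or_lt with h | h
        · rw [h]; exact s2 γ α hαγ.ne'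
        · rw [col2 β (hHH1 hβ) α (hHH1 hα) γ (hHH1 hγ) h hαγ]; exact h2
      · have hb0γ : b0 < γ := lt_of_le_of_lt (hb0min α hα) hαγ
        refine ⟨s γ b0, s1 γ b0 hb0γ.ne', fun β hβ hβγ => ?_⟩
        rcases (hb0min β hβ).eq_or_lt with h | h
        · rw [← h]; exact s2 γ b0 hb0γ.ne'
        · rw [col3 b0 (hHH1 hb0H) β (hHH1 hβ) γ (hHH1 hγ) h hβγ]; exact h3
    obtain ⟨e, he, he'⟩ := hup
    obtain ⟨e2, he2, he2'⟩ := hdown
    obtain ⟨d, hdγ, hed, he2d⟩ := (hB γ).2 e he e2 he2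
    refine ⟨d, hdγ, fun β hβ hne hdβ => ?_⟩
    rcases lt_or_gt_of_ne hne with h | h
    · exact he2' β hβ h ((hB β).1 _ _ hdβ he2d)
    · exact he' β hβ h ((hB β).1 _ _ hdβ hed)
  choose! d hd1 hd2 using hd
  apply anti S d hS
  intro γ hγ β hβ hne hle'
  exact hd2 γ hγ β hβ.1 hne.symm ((hB β).1 _ _ (hd1 β hβ) hle')

theorem main (μ : Cardinal.{u}) (P : Type u) [PartialOrder P]
   (hP : ¬ ∃ A : Set P, IsAntichain (· ≤ ·) A ∧ #A = μ) :
   ¬ ∃ B : Set (Set P), (∀ J ∈ B, IsIdl J) ∧ IsAntichain (· ⊆ ·) B ∧ #B = Order.succ (2 ^ (2 ^ (max μ ℵ₀) : Cardinal.{u})) := by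
  rintro ⟨B, hB, hBa, hc⟩
  exact fam μ P hP B (fun a => a.1) (fun a => hB a.1 a.2) (fun a b hab h => hBa a.2 b.2 (fun h' => hab (Subtype.ext h')) h)
    (by rw [hc]; exact Order.lt_succ _)

end Pool.Agent.H17.Idl
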