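import Mathlib
import Pool.Agent.H17.Newton1

namespace Pool.Agent.H17.Newton

/-- The reduced characteristic function. -/
noncomputable def G (m : ℕ) (x : ℝ) : ℝ := x * (10 - x) ^ m - 50 * (1 - x) ^ m

lemma G_cont (m : ℕ) : Continuous (G m) := by unfold G; fun_prop

lemma G_neg (m : ℕ) {x : ℝ} (hx : x ≤ 0) : G m x < 0 := by
  have h1 : 0 < (10 - x) ^ m := pow_pos (by linarith) m
  have h2 : 0 < (1 - x) ^ m := pow_pos (by linarith) m
  have h3 : x * (10 - x) ^ m ≤ 0 := mul_nonpos_of_nonpos_of_nonneg hx h1.le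
  unfold G; linarith

lemma exists_least (m : ℕ) (hm : 1 ≤ m) :
    ∃ a, IsLeast {x : ℝ | G m x = 0} a ∧ 0 < a ∧ a < 1 := by
  have hpos : 0 < G m 1 := by
    unfold G
    have : (1 - (1 : ℝ)) ^ m = 0 := by rw [sub_self]; exact zero_pow (by omega)
    rw [this]; norm_num
  have hne : ({x : ℝ | G m x = 0} ∩ Set.Icc 0 1).Nonempty := by
    have := intermediate_value_Icc (zero_le_one (α := ℝ)) (G_cont m).continuousOn
    obtain ⟨x, hx, hx0⟩ := this ⟨(G_neg m le_rfl).le, hpos.le⟩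
    exact ⟨x, hx0, hx⟩
  have hc : IsCompact ({x : ℝ | G m x = 0} ∩ Set.Icc 0 1) := by
    rw [Set.inter_comm]
    exact isCompact_Icc.inter_right (isClosed_eq (G_cont m) continuous_const)
  obtain ⟨a, ha, hle⟩ := hc.exists_isLeast hne
  refine ⟨a, ⟨ha.1, fun x hx => ?_⟩, ?_, ?_⟩
  · rcases le_or_gt x 0 with h | h
    · exact absurd hx (G_neg m h).ne
    · rcases le_or_gt x 1 with h1 | h1
      · exact hle ⟨hx, h.le, h1⟩
      · exact ha.2.2.trans h1.le
  · rcases lt_or_eq_of_le ha.2.1 with h | h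
    · exact h
    · exact absurd ha.1 (by rw [← h]; exact (G_neg m le_rfl).ne)
  · rcases lt_or_eq_of_le ha.2.2 with h | h
    · exact h
    · exact absurd ha.1 (by rw [h]; exact hpos.ne')

lemma exists_least' (m : ℕ) : ∃ a, IsLeast {x : ℝ | G m x = 0} a ∧ 0 < a ∧
    (1 ≤ m → a < 1) ∧ a ≤ 50 := by
  rcases Nat.eq_zero_or_pos m with h | h
  · subst h
    have e : {x : ℝ | G 0 x = 0} = {50} := by
      ext x
      simp only [G, pow_zero, mul_one, Set.mem_ofPred_eq, Set.mem_singleton_iff]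
      constructor <;> intro h <;> linarith
    refine ⟨50, ?_, by norm_num, fun h => by omega, le_rfl⟩
    rw [e]; exact isLeast_singleton
  · obtain ⟨a, h1, h2, h3⟩ := exists_least m h
    exact ⟨a, h1, h2, fun _ => h3, by linarith⟩

/-- The least root. -/
noncomputable def l (m : ℕ) : ℝ := (exists_least' m).choose

lemma l_spec (m : ℕ) : IsLeast {x : ℝ | G m x = 0} (l m) ∧ 0 < l m ∧ (1 ≤ m → l m < 1) ∧ l m ≤ 50 :=
  (exists_least' m).choose_spec

lemma l_zero : l 0 = 50 := by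
  have h := (l_spec 0).1.1
  simp only [G, pow_zero, mul_one, Set.mem_ofPred_eq] at h
  linarith

lemma l_succ (m : ℕ) : l (m + 1) ≤ l m := by
  rcases Nat.eq_zero_or_pos m with h | h
  · subst h
    have := (l_spec 1).2.2.1 le_rfl
    rw [l_zero]; norm_num at this ⊢; linarith
  · obtain ⟨h1, h2, h3, _⟩ := l_spec m
    have h3 := h3 h
    have hroot : G m (l m) = 0 := h1.1
    have hpos : 0 < G (m + 1) (l m) := by
      have e : G (m + 1) (l m) = (10 - l m) * G m (l m) + 450 * (1 - l m) ^ m := by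
        unfold G; ring
      rw [e, hroot, mul_zero, zero_add]
      exact mul_pos (by norm_num) (pow_pos (by linarith) m)
    have := intermediate_value_Icc h2.le (G_cont (m + 1)).continuousOn
    obtain ⟨x, hx, hx0⟩ := this ⟨(G_neg (m + 1) le_rfl).le, hpos.le⟩
    exact ((l_spec (m + 1)).1.2 hx0).trans hx.2

lemma l_anti : Antitone l := antitone_nat_of_succ_le l_succ

lemma mem_spec {k : ℕ} (B : Matrix (Fin k) (Fin k) ℝ) (x : ℝ) :
    x ∈ spectrum ℝ B ↔ (algebraMap ℝ (Matrix (Fin k) (Fin k) ℝ) x - B).det = 0 := by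
  rw [spectrum.mem_iff, Matrix.isUnit_iff_isUnit_det, isUnit_iff_ne_zero, not_not]

/-- The principal submatrices. -/
lemma sub1 : ∀ α : Fin 1 → Fin 4, Inc α →
    (A0.submatrix α α = !![50] ∧ ∃ i, α i = 3) ∨ (A0.submatrix α α = !![10] ∧ ¬ ∃ i, α i = 3) := by
  decide +kernel

lemma sub2 : ∀ α : Fin 2 → Fin 4, Inc α →
    (A0.submatrix α α = !![10,10;45,50] ∧ ∃ i, α i = 3) ∨
      (A0.submatrix α α = !![10,9;0,10] ∧ ¬ ∃ i, α i = 3) := by
  decide +kernel

lemma sub3 : ∀ α : Fin 3 → Fin 4, Inc α →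
    (A0.submatrix α α = !![10,9,10;0,10,10;45,45,50] ∧ ∃ i, α i = 3) ∨
      (A0.submatrix α α = !![10,9,9;0,10,9;0,0,10] ∧ ¬ ∃ i, α i = 3) := by
  decide +kernel

lemma sub4 : ∀ α : Fin 4 → Fin 4, Inc α →
    (A0.submatrix α α = A0 ∧ ∃ i, α i = 3) := by
  decide +kernel

lemma sub_cast {k : ℕ} {α : Fin k → Fin 4} {B : Matrix (Fin k) (Fin k) ℤ}
    (h : A0.submatrix α α = B) : AA.submatrix α α = B.map (Int.castRingHom ℝ) := by
  rw [← h]; rfl

lemma spec_desc (k : ℕ) (α : Fin k → Fin 4) (hα : Inc α) (hk : 0 < k) :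
    ((∃ i, α i = 3) ∧ spectrum ℝ (AA.submatrix α α) = {x : ℝ | G (k - 1) x = 0}) ∨
      ((¬ ∃ i, α i = 3) ∧ spectrum ℝ (AA.submatrix α α) = {10}) := by
  have hk4 : k ≤ 4 := hα.le
  interval_cases k
  · rcases sub1 α hα with ⟨h, h2⟩ | ⟨h, h2⟩
    · left
      refine ⟨h2, ?_⟩
      ext x
      rw [mem_spec, sub_cast h, Set.mem_ofPred_eq]
      simp [G, Matrix.algebraMap_matrix_apply]
    · right
      refine ⟨h2, ?_⟩
      ext x
      rw [mem_spec, sub_cast h, Set.mem_singleton_iff]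
      simp [Matrix.algebraMap_matrix_apply, sub_eq_zero]
  · rcases sub2 α hα with ⟨h, h2⟩ | ⟨h, h2⟩
    · left
      refine ⟨h2, ?_⟩
      ext x
      rw [mem_spec, sub_cast h, Set.mem_ofPred_eq]
      have e : (algebraMap ℝ (Matrix (Fin 2) (Fin 2) ℝ) x -
          (!![10,10;45,50] : Matrix (Fin 2) (Fin 2) ℤ).map (Int.castRingHom ℝ)).det = - G 1 x := by
        simp [Matrix.det_fin_two, G, Matrix.algebraMap_matrix_apply]
        ring
      rw [e, neg_eq_zero]
    · right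
      refine ⟨h2, ?_⟩
      ext x
      rw [mem_spec, sub_cast h, Set.mem_singleton_iff]
      have e : (algebraMap ℝ (Matrix (Fin 2) (Fin 2) ℝ) x -
          (!![10,9;0,10] : Matrix (Fin 2) (Fin 2) ℤ).map (Int.castRingHom ℝ)).det = (x - 10) ^ 2 := by
        simp [Matrix.det_fin_two, Matrix.algebraMap_matrix_apply]
        ring
      rw [e, pow_eq_zero_iff (by norm_num), sub_eq_zero]
  · rcases sub3 α hα with ⟨h, h2⟩ | ⟨h, h2⟩
    · left
      refine ⟨h2, ?_⟩
      ext x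
      rw [mem_spec, sub_cast h, Set.mem_ofPred_eq]
      have e : (algebraMap ℝ (Matrix (Fin 3) (Fin 3) ℝ) x -
          (!![10,9,10;0,10,10;45,45,50] : Matrix (Fin 3) (Fin 3) ℤ).map (Int.castRingHom ℝ)).det
            = G 2 x := by
        simp [Matrix.det_fin_three, G, Matrix.algebraMap_matrix_apply]
        ring
      rw [e]
    · right
      refine ⟨h2, ?_⟩
      ext x
      rw [mem_spec, sub_cast h, Set.mem_singleton_iff]
      have e : (algebraMap ℝ (Matrix (Fin 3) (Fin 3) ℝ) x -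
          (!![10,9,9;0,10,9;0,0,10] : Matrix (Fin 3) (Fin 3) ℤ).map (Int.castRingHom ℝ)).det
            = (x - 10) ^ 3 := by
        simp [Matrix.det_fin_three, Matrix.algebraMap_matrix_apply]
        ring
      rw [e, pow_eq_zero_iff (by norm_num), sub_eq_zero]
  · obtain ⟨h, h2⟩ := sub4 α hα
    left
    refine ⟨h2, ?_⟩
    ext x
    rw [mem_spec, sub_cast h, Set.mem_ofPred_eq]
    have e : (algebraMap ℝ (Matrix (Fin 4) (Fin 4) ℝ) x - A0.map (Int.castRingHom ℝ)).det
          = - G 3 x := by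
      simp [Matrix.det_succ_row_zero, Fin.sum_univ_succ, Fin.succAbove, A0, G,
        Matrix.algebraMap_matrix_apply]
      ring
    rw [e, neg_eq_zero]

end Pool.Agent.H17.Newton
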