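import Mathlib
import Pool.Agent.H17.Newton2

namespace Pool.Agent.H17.Newton

lemma isOmega : IsOmega AA := by
  intro k m α β hα hβ hm hsub
  have hkm : m ≤ k := by
    choose f hf using hsub
    have hinj : Function.Injective f := by
      intro i j hij
      apply hβ.inj
      rw [hf i, hf j, hij]
    simpa using Fintype.card_le_of_injective f hinj
  have hk : 0 < k := hm.trans_le hkm
  have least10 : IsLeast ({10} : Set ℝ) 10 := isLeast_singleton
  rcases spec_desc k α hα hk with ⟨ha, hsa⟩ | ⟨ha, hsa⟩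
  · rcases spec_desc m β hβ hm with ⟨hb, hsb⟩ | ⟨hb, hsb⟩
    · refine ⟨l (k - 1), l (m - 1), ?_, ?_, l_anti (by omega)⟩
      · rw [hsa]; exact (l_spec (k - 1)).1
      · rw [hsb]; exact (l_spec (m - 1)).1
    · have hk2 : 2 ≤ k := by
        by_contra hc
        have hk1 : k = 1 := by omega
        subst hk1
        obtain ⟨i, hi⟩ := ha
        obtain ⟨j, hj⟩ := hsub ⟨0, hm⟩
        have : i = j := Subsingleton.elim _ _
        exact hb ⟨⟨0, hm⟩, by rw [hj, ← this, hi]⟩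
      refine ⟨l (k - 1), 10, ?_, ?_, ?_⟩
      · rw [hsa]; exact (l_spec (k - 1)).1
      · rw [hsb]; exact least10
      · have := (l_spec (k - 1)).2.2.1 (by omega)
        linarith
  · rcases spec_desc m β hβ hm with ⟨hb, hsb⟩ | ⟨hb, hsb⟩
    · exfalso
      obtain ⟨j, hj⟩ := hb
      obtain ⟨i, hi⟩ := hsub j
      exact ha ⟨i, by rw [← hi, hj]⟩
    · refine ⟨10, 10, ?_, ?_, le_rfl⟩
      · rw [hsa]; exact least10
      · rw [hsb]; exact least10

lemma isTau : IsTau AA := by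
  refine ⟨isOmega, fun a ha => ?_⟩
  have h := spec_desc 4 id (fun i j h => h) (by norm_num)
  rw [Matrix.submatrix_id_id] at h
  rcases h with ⟨_, h⟩ | ⟨h, _⟩
  · rw [h] at ha
    by_contra hc
    exact (G_neg 3 (not_le.mp hc).le).ne ha
  · exact absurd ⟨3, rfl⟩ h

lemma isStable : IsStable AA := by
  intro z hz
  rw [spectrum.mem_iff, Matrix.isUnit_iff_isUnit_det, isUnit_iff_ne_zero, not_not] at hz
  have e : (algebraMap ℂ (Matrix (Fin 4) (Fin 4) ℂ) z - AA.map (algebraMap ℝ ℂ)).det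
        = z ^ 4 - 80 * z ^ 3 + 450 * z ^ 2 - 1150 * z + 50 := by
    simp [Matrix.det_succ_row_zero, Fin.sum_univ_succ, Fin.succAbove, AA, A0,
      Matrix.algebraMap_matrix_apply]
    ring
  rw [e] at hz
  by_contra hc
  obtain ⟨x, y⟩ := z
  have hx : x ≤ 0 := not_lt.mp hc
  have hre := congrArg Complex.re hz
  have him := congrArg Complex.im hz
  simp [pow_succ, Complex.mul_re, Complex.mul_im] at hre him
  set X := -x with hX
  have hX0 : 0 ≤ X := by rw [hX]; linarith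
  have hxX : x = -X := by rw [hX]; ring
  rw [hxX] at hre him
  have hre' : y ^ 4 - y ^ 2 * (6 * X ^ 2 + 240 * X + 450) +
      (X ^ 4 + 80 * X ^ 3 + 450 * X ^ 2 + 1150 * X + 50) = 0 := by linarith [hre]
  have him' : y * (y ^ 2 * (80 + 4 * X) - (1150 + 900 * X + 240 * X ^ 2 + 4 * X ^ 3)) = 0 := by
    linarith [him]
  rcases mul_eq_zero.mp him' with hy | hy
  · rw [hy] at hre'
    have : 0 < X ^ 4 + 80 * X ^ 3 + 450 * X ^ 2 + 1150 * X + 50 := by positivity
    nlinarith [hre']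
  · have hY : y ^ 2 * (80 + 4 * X) = 1150 + 900 * X + 240 * X ^ 2 + 4 * X ^ 3 := by linarith
    have key : (1150 + 900 * X + 240 * X ^ 2 + 4 * X ^ 3) ^ 2 -
        (1150 + 900 * X + 240 * X ^ 2 + 4 * X ^ 3) * (80 + 4 * X) *
          (6 * X ^ 2 + 240 * X + 450) +
        (X ^ 4 + 80 * X ^ 3 + 450 * X ^ 2 + 1150 * X + 50) * (80 + 4 * X) ^ 2 = 0 := by
      have : (80 + 4 * X) ^ 2 * (y ^ 4 - y ^ 2 * (6 * X ^ 2 + 240 * X + 450) +
        (X ^ 4 + 80 * X ^ 3 + 450 * X ^ 2 + 1150 * X + 50)) = 0 := by rw [hre', mul_zero]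
      rw [← this, ← hY]; ring
    have hneg : (1150 + 900 * X + 240 * X ^ 2 + 4 * X ^ 3) ^ 2 -
        (1150 + 900 * X + 240 * X ^ 2 + 4 * X ^ 3) * (80 + 4 * X) *
          (6 * X ^ 2 + 240 * X + 450) +
        (X ^ 4 + 80 * X ^ 3 + 450 * X ^ 2 + 1150 * X + 50) * (80 + 4 * X) ^ 2 < 0 := by
      ring_nf
      nlinarith [pow_nonneg hX0 2, pow_nonneg hX0 3, pow_nonneg hX0 4, pow_nonneg hX0 5,
        pow_nonneg hX0 6]
    exact absurd key hneg.ne

end Pool.Agent.H17.Newton
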