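import Pool.Agent.H17.PsDef

set_option autoImplicit false

namespace Pool.Agent.H17.Ps

open MeasureTheory Filter
open scoped Topology Real

variable {n : ℕ} {Ω : Set (Cn n)} {u : Cn n → EReal}

/-- average over `[0, 2π]` -/
noncomputable def av (g : ℝ → ℝ) : ℝ := (2 * π)⁻¹ * ∫ t in (0:ℝ)..2 * π, g t

/-- the unit circle -/
noncomputable def ee (t : ℝ) : ℂ := circleMap 0 1 t

theorem ee_cont : Continuous ee := continuous_circleMap 0 1

theorem ee_norm (t : ℝ) : ‖ee t‖ = 1 := by
  unfold ee; rw [norm_circleMap_zero]; norm_num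

theorem circ_cont (z w : Cn n) : Continuous fun t : ℝ => z + ee t • w :=
  continuous_const.add (ee_cont.smul continuous_const)

theorem usc_circ (hu : IsPSH Ω u) {z w : Cn n} (hd : ∀ ζ : ℂ, ‖ζ‖ ≤ 1 → z + ζ • w ∈ Ω) :
    UpperSemicontinuous fun t : ℝ => u (z + ee t • w) := by
  have h := hu.1
  rw [← upperSemicontinuousOn_univ_iff]
  exact h.comp (circ_cont z w).continuousOn fun t _ => hd _ (ee_norm t).le

theorem circ_mem {z w : Cn n} (hd : ∀ ζ : ℂ, ‖ζ‖ ≤ 1 → z + ζ • w ∈ Ω) (t : ℝ) :
    z + ee t • w ∈ Ω := hd _ (ee_norm t).le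

/-- upper bound on the circle -/
theorem bdd_circ (hu : IsPSH Ω u) {z w : Cn n} (hd : ∀ ζ : ℂ, ‖ζ‖ ≤ 1 → z + ζ • w ∈ Ω) :
    ∃ M : ℝ, ∀ t ∈ Set.Icc 0 (2 * π), u (z + ee t • w) ≤ (M : EReal) := by
  obtain ⟨t0, _, ht0⟩ := UpperSemicontinuousOn.exists_isMaxOn
    (s := Set.Icc 0 (2 * π)) (f := fun t : ℝ => u (z + ee t • w))
    ⟨0, by constructor <;> positivity⟩ isCompact_Icc ((usc_circ hu hd).upperSemicontinuousOn _)
  refine ⟨(u (z + ee t0 • w)).toReal, fun t ht => ?_⟩
  have h1 : u (z + ee t • w) ≤ u (z + ee t0 • w) := ht0 ht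
  refine h1.trans (EReal.le_coe_toReal (hu.2.1 _ (circ_mem hd t0)))

/-- the truncations -/
noncomputable def tru (u : Cn n → EReal) (z w : Cn n) (N : ℕ) (t : ℝ) : ℝ :=
  (max (u (z + ee t • w)) ((-(N : ℝ) : ℝ) : EReal)).toReal

theorem psh_av (hu : IsPSH Ω u) {z w : Cn n} (hd : ∀ ζ : ℂ, ‖ζ‖ ≤ 1 → z + ζ • w ∈ Ω) (N : ℕ) :
    u z ≤ (av (tru u z w N) : EReal) := by
  have h := hu.2.2 z w hd N
  exact h

theorem tru_coe (hu : IsPSH Ω u) {z w : Cn n} (hd : ∀ ζ : ℂ, ‖ζ‖ ≤ 1 → z + ζ • w ∈ Ω) (N : ℕ)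
    (t : ℝ) : (tru u z w N t : EReal) = max (u (z + ee t • w)) ((-(N : ℝ) : ℝ) : EReal) := by
  unfold tru
  apply EReal.coe_toReal
  · intro h
    rcases max_choice (u (z + ee t • w)) ((-(N : ℝ) : ℝ) : EReal) with h1 | h1
    · rw [h1] at h; exact hu.2.1 _ (circ_mem hd t) h
    · rw [h1] at h; exact EReal.coe_ne_top _ h
  · intro h
    have h2 : ((-(N : ℝ) : ℝ) : EReal) ≤ ⊥ := by
      rw [← h]; exact le_max_right _ _
    exact EReal.coe_ne_bot _ (le_bot_iff.1 h2)

theorem tru_meas (hu : IsPSH Ω u) {z w : Cn n} (hd : ∀ ζ : ℂ, ‖ζ‖ ≤ 1 → z + ζ • w ∈ Ω) (N : ℕ) :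
    Measurable (tru u z w N) := by
  unfold tru
  exact ((usc_circ hu hd).measurable.max measurable_const).ereal_toReal

theorem tru_int (hu : IsPSH Ω u) {z w : Cn n} (hd : ∀ ζ : ℂ, ‖ζ‖ ≤ 1 → z + ζ • w ∈ Ω) (N : ℕ) :
    IntervalIntegrable (tru u z w N) volume 0 (2 * π) := by
  obtain ⟨M, hM⟩ := bdd_circ hu hd
  rw [intervalIntegrable_iff_integrableOn_Icc_of_le (by positivity)]
  apply Measure.integrableOn_of_bounded (M := |M| + N)
  · exact measure_Icc_lt_top.ne
  · exact (tru_meas hu hd N).aestronglyMeasurable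
  · rw [ae_restrict_iff' measurableSet_Icc]
    refine Eventually.of_forall fun t ht => ?_
    have h1 : (tru u z w N t : EReal) ≤ ((|M| + N : ℝ) : EReal) := by
      rw [tru_coe hu hd]
      apply max_le
      · refine (hM t ht).trans ?_
        rw [EReal.coe_le_coe_iff]
        have := le_abs_self M
        have : (0:ℝ) ≤ N := Nat.cast_nonneg N
        linarith
      · rw [EReal.coe_le_coe_iff]
        have := abs_nonneg M
        have : (0:ℝ) ≤ N := Nat.cast_nonneg N
        linarith
    have h2 : ((-(N:ℝ) : ℝ) : EReal) ≤ (tru u z w N t : EReal) := by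
      rw [tru_coe hu hd]; exact le_max_right _ _
    rw [EReal.coe_le_coe_iff] at h1 h2
    rw [Real.norm_eq_abs, abs_le]
    have := abs_nonneg M
    constructor <;> linarith

theorem av_mono {f g : ℝ → ℝ} (hf : IntervalIntegrable f volume 0 (2 * π))
    (hg : IntervalIntegrable g volume 0 (2 * π)) (h : ∀ t ∈ Set.Icc 0 (2 * π), f t ≤ g t) :
    av f ≤ av g := by
  unfold av
  apply mul_le_mul_of_nonneg_left _ (by positivity)
  exact intervalIntegral.integral_mono_on (by positivity) hf hg h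

/-- the sub-mean value inequality with continuous majorants -/
theorem psh_maj (hu : IsPSH Ω u) {z w : Cn n} (hd : ∀ ζ : ℂ, ‖ζ‖ ≤ 1 → z + ζ • w ∈ Ω)
    {g : ℝ → ℝ} (hg : Continuous g)
    (hug : ∀ t ∈ Set.Icc 0 (2 * π), u (z + ee t • w) ≤ (g t : EReal)) :
    u z ≤ (av g : EReal) := by
  obtain ⟨t0, _, ht0⟩ := isCompact_Icc.exists_isMinOn (s := Set.Icc 0 (2 * π))
    ⟨0, by constructor <;> positivity⟩ hg.continuousOn
  obtain ⟨N, hN⟩ := exists_nat_ge (-g t0)
  refine (psh_av hu hd N).trans ?_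
  rw [EReal.coe_le_coe_iff]
  apply av_mono (tru_int hu hd N) (hg.intervalIntegrable _ _)
  intro t ht
  rw [← EReal.coe_le_coe_iff, tru_coe hu hd]
  apply max_le (hug t ht)
  rw [EReal.coe_le_coe_iff]
  have := ht0 ht
  have h2 : g t0 ≤ g t := this
  linarith

/-- a psh function finite at the centre is finite almost everywhere on the circle -/
theorem psh_ae (hu : IsPSH Ω u) {z w : Cn n} (hd : ∀ ζ : ℂ, ‖ζ‖ ≤ 1 → z + ζ • w ∈ Ω)
    (hz : u z ≠ ⊥) :
    volume ({t : ℝ | u (z + ee t • w) = ⊥} ∩ Set.Icc 0 (2 * π)) = 0 := by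
  obtain ⟨M, hM⟩ := bdd_circ hu hd
  set Z := {t : ℝ | u (z + ee t • w) = ⊥} ∩ Set.Icc 0 (2 * π) with hZ
  have hZm : MeasurableSet Z := by
    apply MeasurableSet.inter _ measurableSet_Icc
    exact (usc_circ hu hd).measurable (measurableSet_singleton ⊥)
  have hfin : volume Z ≠ ⊤ := by
    apply ne_top_of_le_ne_top (measure_Icc_lt_top (μ := (volume : Measure ℝ)) (a := (0:ℝ))
      (b := 2 * π)).ne
    exact measure_mono Set.inter_subset_right
  by_contra hne
  have hpos : 0 < volume.real Z := by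
    rw [measureReal_def]
    exact ENNReal.toReal_pos hne hfin
  obtain ⟨c, hc⟩ : ∃ c : ℝ, u z = c := ⟨(u z).toReal, by
    rw [EReal.coe_toReal _ hz]
    exact hu.2.1 z (by simpa using hd 0 (by simp))⟩
  -- for every N: c ≤ |M| - N * vol(Z)/(2π)
  have key : ∀ N : ℕ, c ≤ |M| - (N : ℝ) * ((2 * π)⁻¹ * volume.real Z) := by
    intro N
    have h1 := psh_av hu hd N
    rw [hc, EReal.coe_le_coe_iff] at h1
    refine h1.trans ?_
    have h2 : av (tru u z w N) ≤ av (fun t => |M| - (N:ℝ) * Z.indicator (fun _ => (1:ℝ)) t) := by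
      apply av_mono (tru_int hu hd N)
      · apply IntervalIntegrable.sub intervalIntegrable_const
        apply IntervalIntegrable.const_mul
        rw [intervalIntegrable_iff_integrableOn_Icc_of_le (by positivity)]
        exact ((integrable_const (1:ℝ)).indicator hZm)
      · intro t ht
        rw [← EReal.coe_le_coe_iff, tru_coe hu hd]
        by_cases htZ : t ∈ Z
        · rw [Set.indicator_of_mem htZ, htZ.1]
          apply max_le bot_le
          rw [EReal.coe_le_coe_iff]
          have := abs_nonneg M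
          linarith
        · rw [Set.indicator_of_notMem htZ, mul_zero, sub_zero]
          apply max_le
          · refine (hM t ht).trans ?_
            rw [EReal.coe_le_coe_iff]
            exact le_abs_self M
          · rw [EReal.coe_le_coe_iff]
            have := abs_nonneg M
            have : (0:ℝ) ≤ N := Nat.cast_nonneg N
            linarith
    refine h2.trans (le_of_eq ?_)
    unfold av
    rw [intervalIntegral.integral_sub intervalIntegrable_const (by
      apply IntervalIntegrable.const_mul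
      rw [intervalIntegrable_iff_integrableOn_Icc_of_le (by positivity)]
      exact ((integrable_const (1:ℝ)).indicator hZm)), intervalIntegral.integral_const_mul,
      intervalIntegral.integral_const, intervalIntegral.integral_of_le (by positivity),
      ← integral_Icc_eq_integral_Ioc]
    rw [integral_indicator hZm, setIntegral_const]
    have e : Measure.restrict (volume : Measure ℝ) (Set.Icc 0 (2 * π)) = _ := rfl
    have e2 : (volume.restrict (Set.Icc 0 (2 * π))).real Z = volume.real Z := by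
      rw [measureReal_restrict_apply hZm]
      congr 1
      exact Set.inter_eq_left.2 Set.inter_subset_right
    rw [e2]
    simp only [smul_eq_mul]
    have := Real.pi_pos
    field_simp
    ring
  set δ := (2 * π)⁻¹ * volume.real Z with hδ
  have hδpos : 0 < δ := by positivity
  obtain ⟨N, hN⟩ := exists_nat_gt ((|M| - c) / δ)
  have := key N
  rw [div_lt_iff₀ hδpos] at hN
  linarith

end Pool.Agent.H17.Ps
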