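import Pool.Agent.H17.Ps1

set_option autoImplicit false

namespace Pool.Agent.H17.Ps

open MeasureTheory Filter
open scoped Topology Real

/-- one-variable subharmonicity with continuous majorants -/
def Sub1 (D : Set ℂ) (U : ℂ → EReal) : Prop :=
  UpperSemicontinuousOn U D ∧ (∀ ζ ∈ D, U ζ ≠ ⊤) ∧
    ∀ c w : ℂ, (∀ ζ : ℂ, ‖ζ‖ ≤ 1 → c + ζ * w ∈ D) → ∀ g : ℝ → ℝ, Continuous g →
      (∀ t ∈ Set.Icc 0 (2 * π), U (c + ee t * w) ≤ (g t : EReal)) → U c ≤ (av g : EReal)

theorem av_const (c : ℝ) : av (fun _ => c) = c := by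
  unfold av
  rw [intervalIntegral.integral_const, smul_eq_mul]
  have := Real.pi_pos
  field_simp
  ring

theorem av_add {f g : ℝ → ℝ} (hf : Continuous f) (hg : Continuous g) :
    av (fun t => f t + g t) = av f + av g := by
  unfold av
  rw [intervalIntegral.integral_add (hf.intervalIntegrable _ _) (hg.intervalIntegrable _ _)]
  ring

theorem av_mul (c : ℝ) (f : ℝ → ℝ) : av (fun t => c * f t) = c * av f := by
  unfold av
  rw [intervalIntegral.integral_const_mul]
  ring

theorem av_cos : av Real.cos = 0 := by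
  unfold av
  rw [integral_cos]; simp

theorem av_sin : av Real.sin = 0 := by
  unfold av
  rw [integral_sin]; simp

theorem av_cs : av (fun t => Real.cos t ^ 2 - Real.sin t ^ 2) = 0 := by
  unfold av
  rw [integral_cos_sq_sub_sin_sq]
  simp

theorem av_trig (a b c d : ℝ) : av (fun t => a + (b * Real.cos t + (c * Real.sin t +
    d * (Real.cos t ^ 2 - Real.sin t ^ 2)))) = a := by
  have h1 : Continuous fun t : ℝ => b * Real.cos t := continuous_const.mul Real.continuous_cos
  have h2 : Continuous fun t : ℝ => c * Real.sin t := continuous_const.mul Real.continuous_sin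
  have h3 : Continuous fun t : ℝ => d * (Real.cos t ^ 2 - Real.sin t ^ 2) :=
    continuous_const.mul ((Real.continuous_cos.pow 2).sub (Real.continuous_sin.pow 2))
  rw [av_add (f := fun _ => a) (g := fun t => b * Real.cos t + (c * Real.sin t +
      d * (Real.cos t ^ 2 - Real.sin t ^ 2))) continuous_const (h1.add (h2.add h3)),
    av_add (f := fun t => b * Real.cos t) (g := fun t => c * Real.sin t +
      d * (Real.cos t ^ 2 - Real.sin t ^ 2)) h1 (h2.add h3), av_add h2 h3, av_const,
    av_mul, av_mul, av_mul, av_cos, av_sin, av_cs]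
  ring

theorem ee_re (t : ℝ) : (ee t).re = Real.cos t := by
  unfold ee circleMap
  simp [Complex.exp_re]

theorem ee_im (t : ℝ) : (ee t).im = Real.sin t := by
  unfold ee circleMap
  simp [Complex.exp_im]

/-- quadratic functions -/
noncomputable def qd (A B C E : ℝ) (ζ : ℂ) : ℝ :=
  A + B * ζ.re + C * (ζ.im ^ 2 - ζ.re ^ 2) + E * (ζ.re ^ 2 + ζ.im ^ 2)

theorem qd_cont (A B C E : ℝ) : Continuous (qd A B C E) := by
  unfold qd
  have h1 := Complex.continuous_re
  have h2 := Complex.continuous_im
  fun_prop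

theorem av_qd (A B C E : ℝ) (c : ℂ) (r : ℝ) :
    av (fun t => qd A B C E (c + ee t * (r : ℂ))) = qd A B C E c + E * r ^ 2 := by
  have h := av_trig (qd A B C E c + E * r ^ 2) (B * r - 2 * C * c.re * r + 2 * E * c.re * r)
    (2 * C * c.im * r + 2 * E * c.im * r) (-C * r ^ 2)
  rw [← h]
  congr 1
  funext t
  have hcs := Real.cos_sq_add_sin_sq t
  simp only [qd, Complex.add_re, Complex.add_im, Complex.mul_re, Complex.mul_im,
    Complex.ofReal_re, Complex.ofReal_im, ee_re, ee_im, mul_zero, sub_zero, zero_add]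
  linear_combination (E * r ^ 2) * hcs

/-- upper bound on compact sets -/
theorem sub1_bdd {D : Set ℂ} {U : ℂ → EReal} (hU : Sub1 D U) {K : Set ℂ} (hK : IsCompact K)
    (hKD : K ⊆ D) : ∃ M : ℝ, ∀ ζ ∈ K, U ζ ≤ (M : EReal) := by
  rcases K.eq_empty_or_nonempty with rfl | hne
  · exact ⟨0, by simp⟩
  obtain ⟨c, hc, hmax⟩ := UpperSemicontinuousOn.exists_isMaxOn hne hK (hU.1.mono hKD)
  refine ⟨(U c).toReal, fun ζ hζ => ?_⟩
  have h1 : U ζ ≤ U c := hmax hζ
  exact h1.trans (EReal.le_coe_toReal (hU.2.1 _ (hKD hc)))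

/-- propagation of `-∞` -/
theorem sub1_prop {D : Set ℂ} {U : ℂ → EReal} (hU : Sub1 D U) (hD : IsOpen D)
    (hc : IsPreconnected D) {O : Set ℂ} (hO : IsOpen O) (hOD : O ⊆ D) (hne : O.Nonempty)
    (hbot : ∀ ζ ∈ O, U ζ = ⊥) : ∀ ζ ∈ D, U ζ = ⊥ := by
  let W : Set ℂ := {ζ | ∃ r > 0, Metric.ball ζ r ⊆ D ∧ ∀ ξ ∈ Metric.ball ζ r, U ξ = ⊥}
  have hWopen : IsOpen W := by
    rw [Metric.isOpen_iff]
    rintro ζ ⟨r, hr, h1, h2⟩
    refine ⟨r / 2, by positivity, fun ξ hξ => ⟨r / 2, by positivity, ?_, ?_⟩⟩
    · intro η hη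
      apply h1
      rw [Metric.mem_ball] at *
      linarith [dist_triangle η ξ ζ]
    · intro η hη
      apply h2
      rw [Metric.mem_ball] at *
      linarith [dist_triangle η ξ ζ]
  have hOW : O ⊆ W := by
    intro ζ hζ
    obtain ⟨r, hr, h⟩ := Metric.isOpen_iff.1 hO ζ hζ
    exact ⟨r, hr, h.trans hOD, fun ξ hξ => hbot ξ (h hξ)⟩
  have hsub : D ⊆ W := by
    apply hc.subset_of_closure_inter_subset hWopen
    · obtain ⟨ζ, hζ⟩ := hne
      exact ⟨ζ, hOD hζ, hOW hζ⟩
    · rintro c ⟨hcW, hcD⟩
      obtain ⟨R, hR, hball⟩ := Metric.isOpen_iff.1 hD c hcD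
      obtain ⟨c', hc'W, hc'⟩ := Metric.mem_closure_iff.1 hcW (R / 4) (by positivity)
      obtain ⟨r, hr, h1, h2⟩ := hc'W
      refine ⟨R / 4, by positivity, (Metric.ball_subset_ball (by linarith)).trans hball, ?_⟩
      intro z hz
      set w := c' - z with hw
      have hwn : ‖w‖ < R / 2 := by
        rw [hw, ← dist_eq_norm]
        rw [Metric.mem_ball] at hz
        have := dist_triangle c' c z
        rw [dist_comm c' c, dist_comm c z] at this
        linarith
      have hdisc : ∀ ζ : ℂ, ‖ζ‖ ≤ 1 → z + ζ * w ∈ D := by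
        intro ζ hζ
        apply hball
        rw [Metric.mem_ball]
        have h3 : dist (z + ζ * w) z ≤ ‖w‖ := by
          rw [dist_eq_norm, add_sub_cancel_left, norm_mul]
          exact mul_le_of_le_one_left (norm_nonneg _) hζ
        rw [Metric.mem_ball] at hz
        linarith [dist_triangle (z + ζ * w) z c]
      obtain ⟨M, hM⟩ := sub1_bdd hU (K := (fun ζ : ℂ => z + ζ * w) '' Metric.closedBall 0 1)
        ((isCompact_closedBall (0:ℂ) 1).image (by fun_prop)) (by
          rintro _ ⟨ζ, hζ, rfl⟩
          exact hdisc ζ (by simpa using hζ))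
      set b : ℝ → ℝ := fun t => max 0 (r - ‖z + ee t * w - c'‖) with hb
      have hbc : Continuous b := by
        have := ee_cont
        rw [hb]
        fun_prop
      have hb0 : ∀ t, 0 ≤ b t := fun t => le_max_left _ _
      have hbpos : 0 < av b := by
        unfold av
        apply mul_pos (by positivity)
        have h3 := intervalIntegral.integral_lt_integral_of_continuousOn_of_le_of_exists_lt
          (f := fun _ => (0:ℝ)) (g := b) (a := 0) (b := 2 * π) (by positivity)
          continuousOn_const hbc.continuousOn (fun t _ => hb0 t) ⟨0, ⟨le_refl _, by positivity⟩, by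
            rw [hb]
            apply lt_max_of_lt_right
            have : z + ee 0 * w - c' = 0 := by
              have h4 : ee 0 = 1 := by simp [ee, circleMap]
              rw [h4, hw]; ring
            rw [this, norm_zero, sub_zero]
            exact hr⟩
        simpa using h3
      have key : ∀ N : ℕ, U z ≤ ((M - N * av b : ℝ) : EReal) := by
        intro N
        have hcont : Continuous fun t => M + (-(N:ℝ)) * b t :=
          continuous_const.add (continuous_const.mul hbc)
        have h3 := hU.2.2 z w hdisc (fun t => M + (-(N:ℝ)) * b t) hcont (by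
          intro t _
          by_cases hbt : b t = 0
          · rw [hbt, mul_zero, add_zero]
            exact hM _ ⟨ee t, by simp [ee_norm], rfl⟩
          · have h4 : ‖z + ee t * w - c'‖ < r := by
              by_contra h5
              apply hbt
              rw [hb]
              push Not at h5
              exact max_eq_left (by linarith)
            rw [h2 _ (by rwa [Metric.mem_ball, dist_eq_norm])]
            exact bot_le)
        rw [av_add (f := fun _ => M) (g := fun t => (-(N:ℝ)) * b t) continuous_const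
          (continuous_const.mul hbc), av_const, av_mul] at h3
        convert h3 using 2
        ring
      by_contra hne'
      obtain ⟨c0, hc0⟩ : ∃ c0 : ℝ, U z = c0 := ⟨(U z).toReal, by
        rw [EReal.coe_toReal _ hne']
        exact hU.2.1 z (by simpa using hdisc 0 (by simp))⟩
      obtain ⟨N, hN⟩ := exists_nat_gt ((M - c0) / av b)
      have h5 := key N
      rw [hc0, EReal.coe_le_coe_iff] at h5
      rw [div_lt_iff₀ hbpos] at hN
      linarith
  intro ζ hζ
  obtain ⟨r, hr, _, h2⟩ := hsub hζ
  exact h2 ζ (Metric.mem_ball_self hr)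

end Pool.Agent.H17.Ps
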