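import Pool.Agent.H17.Ps2

set_option autoImplicit false

namespace Pool.Agent.H17.Ps

open MeasureTheory Filter
open scoped Topology Real

/-- the barrier `ω = y² - x² + 4 a x - a²` -/
noncomputable def om (a : ℝ) : ℂ → ℝ := qd (-a ^ 2) (4 * a) 1 0

theorem om_eq (a : ℝ) (ζ : ℂ) : om a ζ = ζ.im ^ 2 - ζ.re ^ 2 + 4 * a * ζ.re - a ^ 2 := by
  unfold om qd; ring

/-- the barrier argument: a subharmonic function that is `-∞` on a segment of the imaginary axis
is `-∞` on an open set -/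
theorem barrier {D : Set ℂ} {U : ℂ → EReal} (hU : Sub1 D U) {a : ℝ} (ha : 0 < a)
    (hball : Metric.closedBall (0:ℂ) (2 * a) ⊆ D)
    (hbot : ∀ ζ ∈ D, ζ.re = 0 → U ζ = ⊥) {z : ℂ} (hz0 : 0 < z.re) (hz1 : z.re < 2 * a)
    (hzω : om a z < 0) : U z = ⊥ := by
  -- the compact region
  set K : Set ℂ := {ζ | 0 ≤ ζ.re ∧ ζ.re ≤ 2 * a ∧ om a ζ ≤ 0} with hK
  have hKb : ∀ ζ ∈ K, ζ.re ≤ a / 2 ∧ ζ.im ^ 2 ≤ a ^ 2 := by
    rintro ζ ⟨h1, h2, h3⟩
    rw [om_eq] at h3
    constructor
    · by_contra h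
      push Not at h
      nlinarith [sq_nonneg ζ.im]
    · nlinarith
  have hKball : K ⊆ Metric.closedBall 0 (2 * a) := by
    intro ζ hζ
    obtain ⟨h1, h2⟩ := hKb ζ hζ
    rw [mem_closedBall_zero_iff, Complex.norm_def, Complex.normSq_apply]
    rw [Real.sqrt_le_left (by positivity)]
    have := hζ.1
    nlinarith
  have hKclosed : IsClosed K := by
    have hc : Continuous (om a) := qd_cont _ _ _ _
    exact (isClosed_le continuous_const Complex.continuous_re).inter
      ((isClosed_le Complex.continuous_re continuous_const).inter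
        (isClosed_le hc continuous_const))
  have hKc : IsCompact K := (isCompact_closedBall (0:ℂ) (2 * a)).of_isClosed_subset hKclosed hKball
  have hKD : K ⊆ D := hKball.trans hball
  have hzK : z ∈ K := ⟨hz0.le, hz1.le, hzω.le⟩
  obtain ⟨M, hM⟩ := sub1_bdd hU hKc hKD
  by_contra hne
  obtain ⟨τ, hτ⟩ : ∃ τ : ℝ, U z = τ := ⟨(U z).toReal, by
    rw [EReal.coe_toReal _ hne]; exact hU.2.1 z (hKD hzK)⟩
  -- choose K large
  obtain ⟨N, hN⟩ := exists_nat_gt ((M - τ) / (-om a z))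
  have hgap : 0 < τ - M - N * om a z := by
    rw [div_lt_iff₀ (by linarith)] at hN
    linarith
  set ε := (τ - M - N * om a z) / (8 * a ^ 2) with hε
  have hεpos : 0 < ε := by positivity
  -- h = -(M + N ω) + ε (|ζ|² - 4 a²)
  set A : ℝ := -M + N * a ^ 2 - 4 * a ^ 2 * ε with hA
  set h : ℂ → ℝ := qd A (-(N * (4 * a))) (-N) ε with hh
  have hheq : ∀ ζ, h ζ = -(M + N * om a ζ) + ε * (ζ.re ^ 2 + ζ.im ^ 2 - 4 * a ^ 2) := by
    intro ζ
    rw [hh, om_eq]
    unfold qd
    rw [hA]; ring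
  have hhc : Continuous h := qd_cont _ _ _ _
  have husc : UpperSemicontinuousOn (fun ζ => U ζ + (h ζ : EReal)) K := by
    intro ζ hζ
    apply UpperSemicontinuousWithinAt.add'
    · exact (hU.1.mono hKD) ζ hζ
    · exact ((continuous_coe_real_ereal.comp hhc).upperSemicontinuous).upperSemicontinuousWithinAt _ _
    · apply EReal.continuousAt_add
      · left; exact hU.2.1 ζ (hKD hζ)
      · right; exact EReal.coe_ne_top _
  obtain ⟨c, hcK, hmax⟩ := UpperSemicontinuousOn.exists_isMaxOn ⟨z, hzK⟩ hKc husc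
  have hzc : U z + (h z : EReal) ≤ U c + (h c : EReal) := hmax hzK
  have hzpos : (0 : EReal) < U z + (h z : EReal) := by
    rw [hτ, ← EReal.coe_add, ← EReal.coe_zero, EReal.coe_lt_coe_iff, hheq]
    have h1 : 0 ≤ z.re ^ 2 + z.im ^ 2 := by positivity
    have h2 : ε * (8 * a ^ 2) = τ - M - N * om a z := by
      rw [hε]; field_simp
    nlinarith
  have hcpos : (0 : EReal) < U c + (h c : EReal) := lt_of_lt_of_le hzpos hzc
  have hcbot : U c ≠ ⊥ := by
    intro h0
    rw [h0, EReal.bot_add] at hcpos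
    exact not_lt_bot hcpos
  obtain ⟨κ, hκ⟩ : ∃ κ : ℝ, U c = κ := ⟨(U c).toReal, by
    rw [EReal.coe_toReal _ hcbot]; exact hU.2.1 c (hKD hcK)⟩
  rw [hκ, ← EReal.coe_add, ← EReal.coe_zero, EReal.coe_lt_coe_iff] at hcpos
  -- c is not on the boundary
  have hc0 : 0 < c.re := by
    rcases eq_or_lt_of_le hcK.1 with h0 | h0
    · exact absurd (hbot c (hKD hcK) h0.symm) hcbot
    · exact h0
  obtain ⟨hc1, hc2⟩ := hKb c hcK
  have hcω : om a c < 0 := by
    rcases eq_or_lt_of_le hcK.2.2 with h0 | h0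
    · exfalso
      have h1 := hM c hcK
      rw [hκ, EReal.coe_le_coe_iff] at h1
      rw [hheq, h0] at hcpos
      have h2 : c.re ^ 2 + c.im ^ 2 - 4 * a ^ 2 ≤ 0 := by nlinarith
      nlinarith
    · exact h0
  -- a small disc around c
  have hopen : IsOpen {ζ : ℂ | 0 < ζ.re ∧ ζ.re < 2 * a ∧ om a ζ < 0} := by
    have hc : Continuous (om a) := qd_cont _ _ _ _
    exact (isOpen_lt continuous_const Complex.continuous_re).inter
      ((isOpen_lt Complex.continuous_re continuous_const).inter (isOpen_lt hc continuous_const))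
  obtain ⟨r, hr, hrb⟩ := Metric.isOpen_iff.1 hopen c ⟨hc0, by linarith, hcω⟩
  have hdisc : ∀ ζ : ℂ, ‖ζ‖ ≤ 1 → c + ζ * ((r / 2 : ℝ) : ℂ) ∈ K := by
    intro ζ hζ
    have h1 : c + ζ * ((r / 2 : ℝ) : ℂ) ∈ Metric.ball c r := by
      rw [Metric.mem_ball, dist_eq_norm, add_sub_cancel_left, norm_mul, Complex.norm_real,
        Real.norm_eq_abs, abs_of_pos (by positivity)]
      nlinarith [norm_nonneg ζ]
    obtain ⟨h2, h3, h4⟩ := hrb h1
    exact ⟨h2.le, h3.le, h4.le⟩
  have hfin := hU.2.2 c ((r / 2 : ℝ) : ℂ) (fun ζ hζ => hKD (hdisc ζ hζ))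
    (fun t => (κ + h c) + (-1) * h (c + ee t * ((r / 2 : ℝ) : ℂ))) (by
      have := ee_cont
      fun_prop) (by
      intro t _
      have h1 : U (c + ee t * ((r / 2 : ℝ) : ℂ)) + (h (c + ee t * ((r / 2 : ℝ) : ℂ)) : EReal) ≤
        U c + (h c : EReal) := hmax (hdisc (ee t) (ee_norm t).le)
      rw [hκ, ← EReal.coe_add] at h1
      have h2 : U (c + ee t * ((r / 2 : ℝ) : ℂ)) ≤ ((κ + h c : ℝ) : EReal) -
          (h (c + ee t * ((r / 2 : ℝ) : ℂ)) : EReal) := by
        rw [EReal.le_sub_iff_add_le (Or.inl (EReal.coe_ne_bot _)) (Or.inl (EReal.coe_ne_top _))]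
        exact h1
      rw [← EReal.coe_sub] at h2
      convert h2 using 2
      ring)
  have hcomp : Continuous fun t : ℝ => h (c + ee t * ((r / 2 : ℝ) : ℂ)) := by
    have := ee_cont
    fun_prop
  rw [hκ, EReal.coe_le_coe_iff, av_add (f := fun _ => κ + h c)
    (g := fun t => (-1) * h (c + ee t * ((r / 2 : ℝ) : ℂ))) continuous_const
    (continuous_const.mul hcomp), av_const, av_mul] at hfin
  have hav : av (fun t => h (c + ee t * ((r / 2 : ℝ) : ℂ))) = h c + ε * (r / 2) ^ 2 :=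
    av_qd _ _ _ _ c (r / 2)
  rw [hav] at hfin
  have : 0 < ε * (r / 2) ^ 2 := by positivity
  linarith

/-- a subharmonic function that is `-∞` on the imaginary axis is `-∞` everywhere -/
theorem line_bot {D : Set ℂ} {U : ℂ → EReal} (hU : Sub1 D U) (hD : IsOpen D)
    (hc : IsPreconnected D) (h0 : (0:ℂ) ∈ D) (hbot : ∀ ζ ∈ D, ζ.re = 0 → U ζ = ⊥) :
    ∀ ζ ∈ D, U ζ = ⊥ := by
  obtain ⟨R, hR, hball⟩ := Metric.isOpen_iff.1 hD 0 h0
  set a := R / 4 with ha
  have hapos : 0 < a := by positivity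
  have hb2 : Metric.closedBall (0:ℂ) (2 * a) ⊆ D :=
    (Metric.closedBall_subset_ball (by rw [ha]; linarith)).trans hball
  have hopen : IsOpen {ζ : ℂ | 0 < ζ.re ∧ ζ.re < 2 * a ∧ om a ζ < 0} := by
    have hc : Continuous (om a) := qd_cont _ _ _ _
    exact (isOpen_lt continuous_const Complex.continuous_re).inter
      ((isOpen_lt Complex.continuous_re continuous_const).inter (isOpen_lt hc continuous_const))
  apply sub1_prop hU hD hc hopen
  · rintro ζ ⟨h1, h2, h3⟩
    apply hb2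
    rw [om_eq] at h3
    rw [mem_closedBall_zero_iff, Complex.norm_def, Complex.normSq_apply]
    rw [Real.sqrt_le_left (by positivity)]
    nlinarith
  · refine ⟨((a / 8 : ℝ) : ℂ), ?_, ?_, ?_⟩
    · rw [Complex.ofReal_re]; positivity
    · rw [Complex.ofReal_re]; linarith
    · rw [om_eq, Complex.ofReal_re, Complex.ofReal_im]
      nlinarith
  · rintro ζ ⟨h1, h2, h3⟩
    exact barrier hU hapos hb2 hbot h1 h2 h3

end Pool.Agent.H17.Ps
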