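import Pool.Agent.H17.Ps3

set_option autoImplicit false

namespace Pool.Agent.H17.Ps

open MeasureTheory Filter
open scoped Topology Real

variable {n : ℕ}

/-- slices of plurisubharmonic functions -/
theorem slice {Ω : Set (Cn n)} {u : Cn n → EReal} (hu : IsPSH Ω u) (z e : Cn n) :
    Sub1 {ζ : ℂ | z + ζ • e ∈ Ω} (fun ζ => u (z + ζ • e)) := by
  refine ⟨?_, fun ζ hζ => hu.2.1 _ hζ, ?_⟩
  · have h := hu.1
    have this : Continuous fun ζ : ℂ => z + ζ • e := by fun_prop
    exact h.comp this.continuousOn fun ζ hζ => hζ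
  · intro c w hd g hg hug
    have hd' : ∀ ζ : ℂ, ‖ζ‖ ≤ 1 → (z + c • e) + ζ • (w • e) ∈ Ω := by
      intro ζ hζ
      have := hd ζ hζ
      have e1 : (z + c • e) + ζ • (w • e) = z + (c + ζ * w) • e := by
        rw [add_smul, mul_smul, add_assoc]
      rw [e1]; exact this
    apply psh_maj hu hd' hg
    intro t ht
    have e1 : (z + c • e) + ee t • (w • e) = z + (c + ee t * w) • e := by
      rw [add_smul, mul_smul, add_assoc]
    rw [e1]
    exact hug t ht

/-- convex continuous functions are plurisubharmonic -/
theorem convex_psh {Ω : Set (Cn n)} {f : Cn n → ℝ} (hf : ConvexOn ℝ Ω f)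
    (hc : ContinuousOn f Ω) : IsPSH Ω (fun z => (f z : EReal)) := by
  refine ⟨?_, fun z _ => EReal.coe_ne_top _, ?_⟩
  · intro z hz
    exact (continuous_coe_real_ereal.continuousAt.comp_continuousWithinAt
      (hc z hz)).upperSemicontinuousWithinAt
  · intro z w hd N
    show (f z : EReal) ≤ ((av (fun t => (max ((f (z + ee t • w) : ℝ) : EReal)
      ((-(N : ℝ) : ℝ) : EReal)).toReal) : ℝ) : EReal)
    rw [EReal.coe_le_coe_iff]
    have e1 : (fun t => (max ((f (z + ee t • w) : ℝ) : EReal)
      ((-(N : ℝ) : ℝ) : EReal)).toReal) = fun t => max (f (z + ee t • w)) (-(N:ℝ)) := by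
      funext t
      rw [← EReal.coe_strictMono.monotone.map_max, EReal.toReal_coe]
    rw [e1]
    have hcirc : Continuous fun t : ℝ => f (z + ee t • w) :=
      hc.comp_continuous (circ_cont z w) fun t => hd _ (ee_norm t).le
    have hcirc2 : Continuous fun t : ℝ => f (z + (-ee t) • w) := by
      apply hc.comp_continuous (continuous_const.add (ee_cont.neg.smul continuous_const))
      intro t
      apply hd
      show ‖-(ee t)‖ ≤ 1
      rw [norm_neg, ee_norm]
    have hper : av (fun t => f (z + (-ee t) • w)) = av (fun t => f (z + ee t • w)) := by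
      unfold av
      congr 1
      have hshift : ∀ t : ℝ, -ee t = ee (t + π) := by
        intro t
        apply Complex.ext
        · rw [Complex.neg_re, ee_re, ee_re, Real.cos_add_pi]
        · rw [Complex.neg_im, ee_im, ee_im, Real.sin_add_pi]
      simp only [hshift]
      rw [intervalIntegral.integral_comp_add_right (fun t => f (z + ee t • w)) π]
      have hperiod : Function.Periodic (fun t => f (z + ee t • w)) (2 * π) := by
        intro t
        have : ee (t + 2 * π) = ee t := by
          unfold ee; exact periodic_circleMap 0 1 t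
        simp only [this]
      have h1 := hperiod.intervalIntegral_add_eq π 0
      rw [zero_add] at h1 ⊢
      rw [← h1]
      congr 1
      ring
    have hmid : ∀ t, f z ≤ (1 / 2) * f (z + ee t • w) + (1 / 2) * f (z + (-ee t) • w) := by
      intro t
      have h1 := hf.2 (hd (ee t) (ee_norm t).le) (hd (-ee t) (by rw [norm_neg, ee_norm]))
        (by norm_num : (0:ℝ) ≤ 1 / 2) (by norm_num : (0:ℝ) ≤ 1 / 2) (by norm_num)
      have e2 : (1 / 2 : ℝ) • (z + ee t • w) + (1 / 2 : ℝ) • (z + (-ee t) • w) = z := by
        rw [neg_smul, ← smul_add]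
        have : z + ee t • w + (z + -(ee t • w)) = (2:ℝ) • z := by
          rw [two_smul]; abel
        rw [this, smul_smul]; norm_num
      rw [e2] at h1
      simpa using h1
    have h2 : f z ≤ av (fun t => f (z + ee t • w)) := by
      have h3 : av (fun _ => f z) ≤ av (fun t => (1 / 2) * f (z + ee t • w) +
          (1 / 2) * f (z + (-ee t) • w)) := by
        apply av_mono intervalIntegrable_const
        · exact ((continuous_const.mul hcirc).add (continuous_const.mul hcirc2)).intervalIntegrable _ _
        · intro t _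
          exact hmid t
      rw [av_const, av_add (f := fun t => (1 / 2) * f (z + ee t • w))
        (g := fun t => (1 / 2) * f (z + (-ee t) • w)) (continuous_const.mul hcirc)
        (continuous_const.mul hcirc2), av_mul, av_mul, hper] at h3
      linarith
    refine h2.trans (av_mono (hcirc.intervalIntegrable _ _)
      ((hcirc.max continuous_const).intervalIntegrable _ _) fun t _ => le_max_left _ _)

/-- the unit ball is a bounded pseudoconvex domain -/
theorem ball_pc (n : ℕ) : IsBoundedPseudoconvexDomain (Metric.ball (0 : Cn n) 1) := by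
  refine ⟨Metric.isBounded_ball, Metric.isOpen_ball, ?_, ?_⟩
  · exact (convex_ball (0 : Cn n) 1).isConnected ⟨0, Metric.mem_ball_self one_pos⟩
  · have hc : ContinuousOn (fun z : Cn n => (1 - ‖z‖)⁻¹) (Metric.ball (0 : Cn n) 1) := by
      apply ContinuousOn.inv₀
      · exact (continuous_const.sub continuous_norm).continuousOn
      · intro z hz
        rw [mem_ball_zero_iff] at hz
        linarith
    refine ⟨fun z => (1 - ‖z‖)⁻¹, hc, convex_psh ⟨convex_ball _ _, ?_⟩ hc, ?_⟩
    · intro x hx y hy a b ha hb hab
      rw [mem_ball_zero_iff] at hx hy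
      have hx' : 0 < 1 - ‖x‖ := by linarith
      have hy' : 0 < 1 - ‖y‖ := by linarith
      have h1 : ‖a • x + b • y‖ ≤ a * ‖x‖ + b * ‖y‖ := by
        refine (norm_add_le _ _).trans ?_
        rw [norm_smul, norm_smul, Real.norm_eq_abs, Real.norm_eq_abs, abs_of_nonneg ha,
          abs_of_nonneg hb]
      have h2 : a * (1 - ‖x‖) + b * (1 - ‖y‖) ≤ 1 - ‖a • x + b • y‖ := by nlinarith
      have h3 : 0 < a * (1 - ‖x‖) + b * (1 - ‖y‖) := by
        rcases eq_or_lt_of_le ha with h | h
        · have : b = 1 := by linarith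
          rw [← h, this]; linarith
        · have : 0 ≤ b * (1 - ‖y‖) := by positivity
          have : 0 < a * (1 - ‖x‖) := by positivity
          linarith
      show (1 - ‖a • x + b • y‖)⁻¹ ≤ a • (1 - ‖x‖)⁻¹ + b • (1 - ‖y‖)⁻¹
      calc (1 - ‖a • x + b • y‖)⁻¹ ≤ (a * (1 - ‖x‖) + b * (1 - ‖y‖))⁻¹ :=
            inv_anti₀ h3 h2
        _ ≤ a • (1 - ‖x‖)⁻¹ + b • (1 - ‖y‖)⁻¹ := by
            have h4 := (convexOn_zpow (𝕜 := ℝ) (-1)).2 (Set.mem_Ioi.2 hx') (Set.mem_Ioi.2 hy') ha hb
              hab
            simpa using h4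
    · intro c
      by_cases hcpos : 0 < c
      · have e : {z : Cn n | z ∈ Metric.ball (0 : Cn n) 1 ∧ (1 - ‖z‖)⁻¹ ≤ c} =
            Metric.closedBall 0 (1 - c⁻¹) := by
          ext z
          rw [Set.mem_ofPred_eq, mem_ball_zero_iff, mem_closedBall_zero_iff]
          constructor
          · rintro ⟨h1, h2⟩
            have h3 : 0 < 1 - ‖z‖ := by linarith
            have := (inv_le_comm₀ h3 hcpos).1 h2
            linarith
          · intro h1
            have h4 : 0 < c⁻¹ := inv_pos.2 hcpos
            have h3 : 0 < 1 - ‖z‖ := by linarith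
            refine ⟨by linarith, ?_⟩
            apply (inv_le_comm₀ h3 hcpos).2
            linarith
        rw [e]
        exact isCompact_closedBall _ _
      · have e : {z : Cn n | z ∈ Metric.ball (0 : Cn n) 1 ∧ (1 - ‖z‖)⁻¹ ≤ c} = ∅ := by
          rw [Set.eq_empty_iff_forall_notMem]
          rintro z ⟨h1, h2⟩
          rw [mem_ball_zero_iff] at h1
          have h3 : 0 < 1 - ‖z‖ := by linarith
          have := inv_pos.2 h3
          linarith
        rw [e]
        exact isCompact_empty

end Pool.Agent.H17.Ps
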