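import Pool.Agent.H17.Ps4

set_option autoImplicit false

namespace Pool.Agent.H17.Ps

open MeasureTheory Filter
open scoped Topology Real

variable {n : ℕ}

/-- the function `|Re z₀|` -/
noncomputable def phi (z : Cn (n + 1)) : ℝ := |(z 0).re|

noncomputable def e0 : Cn (n + 1) := EuclideanSpace.single 0 1

theorem line_coord (z : Cn (n + 1)) (ζ : ℂ) : (z + ζ • e0 : Cn (n + 1)) 0 = z 0 + ζ := by
  simp [e0]

theorem phi_cont : Continuous (phi (n := n)) := by
  unfold phi
  have : Continuous fun z : Cn (n + 1) => z 0 := by fun_prop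
  exact (Complex.continuous_re.comp this).abs

theorem phi_convex (Ω : Set (Cn (n + 1))) (hΩ : Convex ℝ Ω) : ConvexOn ℝ Ω phi := by
  refine ⟨hΩ, fun x _ y _ a b ha hb _ => ?_⟩
  unfold phi
  have e1 : ((a • x + b • y : Cn (n + 1)) 0).re = a * (x 0).re + b * (y 0).re := by
    simp
  rw [e1]
  refine (abs_add_le _ _).trans ?_
  rw [abs_mul, abs_mul, abs_of_nonneg ha, abs_of_nonneg hb, smul_eq_mul, smul_eq_mul]

theorem exc_mem {Ω : Set (Cn (n + 1))} {z : Cn (n + 1)} (hz : z ∈ Ω) (h0 : (z 0).re = 0) :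
    z ∈ Exc Ω (fun z => (phi z : EReal)) := by
  refine ⟨hz, ?_⟩
  rintro ⟨V, hV, _, hzV, q, hq, hle⟩
  have hqd : DifferentiableAt ℝ q z :=
    (hq.differentiableOn (by norm_num)).differentiableAt (hV.mem_nhds hzV)
  set γ : ℝ → Cn (n + 1) := fun t => z + (t : ℂ) • e0 with hγ
  have hγd : DifferentiableAt ℝ γ 0 := by
    rw [hγ]
    apply DifferentiableAt.add (differentiableAt_const _)
    apply DifferentiableAt.smul_const
    exact Complex.ofRealCLM.differentiableAt
  have hγ0 : γ 0 = z := by rw [hγ]; simp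
  have hh : DifferentiableAt ℝ (fun t => q (γ t)) 0 := by
    apply DifferentiableAt.comp (0:ℝ) _ hγd
    rw [hγ0]; exact hqd
  have hder := hh.hasDerivAt
  set d := deriv (fun t => q (γ t)) 0 with hd
  rw [hasDerivAt_iff_tendsto_slope] at hder
  have hmem : ∀ᶠ t in 𝓝 (0:ℝ), γ t ∈ V := by
    have : γ 0 ∈ V := by rw [hγ0]; exact hzV
    exact hγd.continuousAt.eventually_mem (hV.mem_nhds this)
  have hineq : ∀ t, γ t ∈ V → |t| ≤ q (γ t) - q (γ 0) := by
    intro t ht
    have h1 := hle (γ t) ht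
    have e1 : phi (γ t) = |t| := by
      unfold phi
      rw [hγ, line_coord, Complex.add_re, h0, zero_add, Complex.ofReal_re]
    have e2 : phi z = 0 := by unfold phi; rw [h0, abs_zero]
    simp only [e1, e2] at h1
    rw [← EReal.coe_sub, ← EReal.coe_sub, EReal.coe_le_coe_iff] at h1
    rw [hγ0]; linarith
  have hp : 1 ≤ d := by
    have h1 : Tendsto (slope (fun t => q (γ t)) 0) (𝓝[>] 0) (𝓝 d) :=
      hder.mono_left (nhdsWithin_mono _ fun x (hx : 0 < x) => ne_of_gt hx)
    apply ge_of_tendsto h1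
    filter_upwards [nhdsWithin_le_nhds hmem, self_mem_nhdsWithin] with t ht htpos
    have htpos' : 0 < t := htpos
    rw [slope_def_field, sub_zero, le_div_iff₀ htpos', one_mul]
    have := hineq t ht
    rwa [abs_of_pos htpos'] at this
  have hn : d ≤ -1 := by
    have h1 : Tendsto (slope (fun t => q (γ t)) 0) (𝓝[<] 0) (𝓝 d) :=
      hder.mono_left (nhdsWithin_mono _ fun x (hx : x < 0) => ne_of_lt hx)
    apply le_of_tendsto h1
    filter_upwards [nhdsWithin_le_nhds hmem, self_mem_nhdsWithin] with t ht htneg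
    have htneg' : t < 0 := htneg
    rw [slope_def_field, sub_zero, div_le_iff_of_neg htneg']
    have := hineq t ht
    rw [abs_of_neg htneg'] at this
    linarith
  linarith

theorem not_pluripolar : ¬ IsPluripolar (Metric.ball (0 : Cn (n + 1)) 1)
    (Exc (Metric.ball (0 : Cn (n + 1)) 1) (fun z => (phi z : EReal))) := by
  rintro ⟨u, hu, ⟨z, hz, hne⟩, hbot⟩
  apply hne
  obtain ⟨z0, hz0⟩ : ∃ z0 : Cn (n + 1), z0 = z + (-((z 0).re : ℂ)) • e0 := ⟨_, rfl⟩
  have hz00 : z0 0 = ((z 0).im : ℂ) * Complex.I := by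
    rw [hz0, line_coord]
    apply Complex.ext <;> simp
  have hnorm : ‖z0‖ ≤ ‖z‖ := by
    rw [EuclideanSpace.norm_eq, EuclideanSpace.norm_eq]
    apply Real.sqrt_le_sqrt
    apply Finset.sum_le_sum
    intro i _
    by_cases hi : i = 0
    · subst hi
      rw [hz00]
      have h1 : ‖((z 0).im : ℂ) * Complex.I‖ = |(z 0).im| := by simp
      rw [h1, sq_abs, ← Complex.normSq_eq_norm_sq, Complex.normSq_apply]
      nlinarith [sq_nonneg (z 0).re]
    · have : z0 i = z i := by
        rw [hz0]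
        simp [e0, hi]
      rw [this]
  have hz0b : z0 ∈ Metric.ball (0 : Cn (n + 1)) 1 := by
    rw [mem_ball_zero_iff] at hz ⊢
    linarith
  have hsl := slice hu z0 e0
  have hD : IsOpen {ζ : ℂ | z0 + ζ • e0 ∈ Metric.ball (0 : Cn (n + 1)) 1} := by
    have : Continuous fun ζ : ℂ => z0 + ζ • (e0 : Cn (n + 1)) := by fun_prop
    exact Metric.isOpen_ball.preimage this
  have hconv : IsPreconnected {ζ : ℂ | z0 + ζ • e0 ∈ Metric.ball (0 : Cn (n + 1)) 1} := by
    apply Convex.isPreconnected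
    intro x hx y hy a b ha hb hab
    have h1 := (convex_ball (0 : Cn (n + 1)) 1) hx hy ha hb hab
    have e1 : a • (z0 + x • e0) + b • (z0 + y • e0) = z0 + (a • x + b • y) • (e0 : Cn (n + 1)) := by
      rw [smul_add, smul_add, add_smul, smul_assoc, smul_assoc]
      have : a • z0 + a • x • e0 + (b • z0 + b • y • e0) = (a + b) • z0 +
        (a • x • (e0 : Cn (n + 1)) + b • y • e0) := by rw [add_smul]; abel
      rw [this, hab, one_smul]
    rw [Set.mem_ofPred_eq, ← e1]; exact h1
  have hall := line_bot hsl hD hconv (by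
    rw [Set.mem_ofPred_eq, zero_smul, add_zero]; exact hz0b) (by
    intro ζ hζ hre
    apply hbot
    apply exc_mem hζ
    rw [line_coord, hz00]
    simp [hre]) ((z 0).re : ℂ)
  have e2 : z0 + ((z 0).re : ℂ) • e0 = z := by
    rw [hz0, add_assoc, ← add_smul]; simp
  have h3 := hall (by
    rw [Set.mem_ofPred_eq, e2]; exact hz)
  simp only [e2] at h3
  exact h3

/-- the negative answer to the second question, in every dimension -/
theorem Q2 (n : ℕ) : ∃ (Ω : Set (Cn (n + 1))) (φ : Cn (n + 1) → EReal),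
    IsBoundedPseudoconvexDomain Ω ∧ IsPSH Ω φ ∧ (∃ z ∈ Ω, φ z ≠ ⊥) ∧
      ¬ IsPluripolar Ω (Exc Ω φ) :=
  ⟨Metric.ball 0 1, fun z => (phi z : EReal), ball_pc _,
    convex_psh (phi_convex _ (convex_ball _ _)) phi_cont.continuousOn,
    ⟨0, Metric.mem_ball_self one_pos, EReal.coe_ne_bot _⟩, not_pluripolar⟩

end Pool.Agent.H17.Ps
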