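import Pool.Agent.H17.Ps5

set_option autoImplicit false

namespace Pool.Agent.H17.Ps

open MeasureTheory Filter
open scoped Topology Real RealInnerProductSpace

variable {n : ℕ}

theorem inner_I (x : Cn n) : ⟪x, Complex.I • x⟫ = 0 := by
  have h1 := norm_add_sq_real x (Complex.I • x)
  have h2 : x + Complex.I • x = (1 + Complex.I) • x := by rw [add_smul, one_smul]
  rw [h2, norm_smul, norm_smul, Complex.norm_I, one_mul, mul_pow] at h1
  have h3 : ‖(1 + Complex.I : ℂ)‖ ^ 2 = 2 := by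
    rw [← Complex.normSq_eq_norm_sq, Complex.normSq_apply]
    simp
    norm_num
  rw [h3] at h1
  linarith

theorem ee_eq (t : ℝ) : ee t = (Real.cos t : ℂ) + (Real.sin t : ℂ) * Complex.I := by
  apply Complex.ext
  · rw [ee_re]
    simp only [Complex.add_re, Complex.mul_re, Complex.ofReal_re, Complex.ofReal_im, Complex.I_re,
      Complex.I_im]
    ring
  · rw [ee_im]
    simp only [Complex.add_im, Complex.mul_im, Complex.ofReal_re, Complex.ofReal_im, Complex.I_re,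
      Complex.I_im]
    ring

theorem ee_smul (t : ℝ) (w : Cn n) : ee t • w = Real.cos t • w + Real.sin t • (Complex.I • w) := by
  rw [ee_eq, add_smul, mul_smul]
  rfl

theorem inner_ee (x w : Cn n) (t : ℝ) :
    ⟪x, ee t • w⟫ = Real.cos t * ⟪x, w⟫ + Real.sin t * ⟪x, Complex.I • w⟫ := by
  rw [ee_smul, inner_add_right, real_inner_smul_right, real_inner_smul_right]

theorem norm_ee (w : Cn n) (t : ℝ) : ‖ee t • w‖ = ‖w‖ := by
  rw [norm_smul, ee_norm, one_mul]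

theorem norm_sq_circ (x w : Cn n) (t : ℝ) : ‖x + ee t • w‖ ^ 2 = ‖x‖ ^ 2 + ‖w‖ ^ 2 +
    2 * (Real.cos t * ⟪x, w⟫ + Real.sin t * ⟪x, Complex.I • w⟫) := by
  rw [norm_add_sq_real, norm_ee, inner_ee]
  ring

/-- the bump used in the estimate -/
noncomputable def bp (t : ℝ) : ℝ := max 0 (Real.cos t - 1 / 4)

theorem bp_cont : Continuous bp := continuous_const.max (Real.continuous_cos.sub continuous_const)

noncomputable def β0 : ℝ := av bp

theorem β0_pos : 0 < β0 := by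
  unfold β0 av
  apply mul_pos (by positivity)
  have h3 := intervalIntegral.integral_lt_integral_of_continuousOn_of_le_of_exists_lt
    (f := fun _ => (0:ℝ)) (g := bp) (a := 0) (b := 2 * π) (by positivity)
    continuousOn_const bp_cont.continuousOn (fun t _ => le_max_left _ _)
    ⟨0, ⟨le_refl _, by positivity⟩, by
      unfold bp
      rw [Real.cos_zero]
      norm_num⟩
  simpa using h3

variable {Ω : Set (Cn n)} {φ : Cn n → EReal}

/-- `x` is a contact point with vertex `y` -/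
def Contact (φ : Cn n → EReal) (x0 : Cn n) (r M : ℝ) (x y : Cn n) : Prop :=
  ∀ z ∈ Metric.closedBall x0 r,
    φ z ≤ φ x + ((M / 2 * (‖z - y‖ ^ 2 - ‖x - y‖ ^ 2) : ℝ) : EReal)

/-- the key estimate -/
theorem contact_est (hφ : IsPSH Ω φ) {x0 : Cn n} {r M : ℝ} (hM : 0 < M)
    (hb : Metric.closedBall x0 r ⊆ Ω) {x1 x2 y1 y2 : Cn n}
    (hx1 : x1 ∈ Metric.closedBall x0 (r / 20)) (hx2 : x2 ∈ Metric.closedBall x0 (r / 20))
    (h1 : Contact φ x0 r M x1 y1) (h2 : Contact φ x0 r M x2 y2)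
    (hf1 : φ x1 ≠ ⊥) (hf2 : φ x2 ≠ ⊥) {ρ : ℝ} (hρ0 : 0 < ρ) (hρ : 4 * ‖x1 - x2‖ ≤ ρ)
    (hρr : ρ ≤ r / 2) : ‖y2 - y1‖ ≤ ρ / (2 * β0) := by
  have hr : 0 < r := by linarith
  have hx1b : x1 ∈ Metric.closedBall x0 r :=
    Metric.closedBall_subset_closedBall (by linarith) hx1
  have hx2b : x2 ∈ Metric.closedBall x0 r :=
    Metric.closedBall_subset_closedBall (by linarith) hx2
  obtain ⟨a1, ha1⟩ : ∃ a : ℝ, φ x1 = a := ⟨(φ x1).toReal, by
    rw [EReal.coe_toReal _ hf1]; exact hφ.2.1 _ (hb hx1b)⟩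
  obtain ⟨a2, ha2⟩ : ∃ a : ℝ, φ x2 = a := ⟨(φ x2).toReal, by
    rw [EReal.coe_toReal _ hf2]; exact hφ.2.1 _ (hb hx2b)⟩
  set G := ‖y2 - y1‖ with hG
  rcases eq_or_lt_of_le (norm_nonneg (y2 - y1)) with hG0 | hG0
  · rw [hG, ← hG0]
    have := β0_pos
    positivity
  rw [← hG] at hG0
  set w : Cn n := (ρ / G) • (y2 - y1) with hw
  have hwn : ‖w‖ = ρ := by
    rw [hw, norm_smul, Real.norm_eq_abs, abs_of_pos (by positivity), ← hG]
    field_simp
  have hdisc : ∀ ζ : ℂ, ‖ζ‖ ≤ 1 → x1 + ζ • w ∈ Metric.closedBall x0 r := by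
    intro ζ hζ
    rw [Metric.mem_closedBall] at hx1 ⊢
    have h3 : dist (x1 + ζ • w) x1 ≤ ρ := by
      rw [dist_eq_norm, add_sub_cancel_left, norm_smul, hwn]
      exact mul_le_of_le_one_left hρ0.le hζ
    linarith [dist_triangle (x1 + ζ • w) x1 x0]
  -- values of the two contact inequalities at the other contact point
  have hc12 : a2 ≤ a1 + M / 2 * (‖x2 - y1‖ ^ 2 - ‖x1 - y1‖ ^ 2) := by
    have := h1 x2 hx2b
    rw [ha1, ha2, ← EReal.coe_add, EReal.coe_le_coe_iff] at this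
    exact this
  have hinner : ⟪x2 - x1, y2 - y1⟫ ≤ ρ / 4 * G := by
    refine (real_inner_le_norm _ _).trans ?_
    rw [← hG]
    apply mul_le_mul_of_nonneg_right _ hG0.le
    rw [norm_sub_rev]; linarith
  -- expansion of the squares
  have ex : ∀ v y : Cn n, ‖x1 + v - y‖ ^ 2 = ‖x1 - y‖ ^ 2 + 2 * ⟪x1 - y, v⟫ + ‖v‖ ^ 2 := by
    intro v y
    have : x1 + v - y = (x1 - y) + v := by abel
    rw [this, norm_add_sq_real]
  have hdiff : ∀ v : Cn n, ⟪x1 - y1, v⟫ - ⟪x1 - y2, v⟫ = ⟪v, y2 - y1⟫ := by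
    intro v
    rw [← inner_sub_left, real_inner_comm]
    congr 1
    abel
  have hx2eq : x2 = x1 + (x2 - x1) := by abel
  -- ℓ(x1) ≥ - M G ρ / 4
  have hℓ : -(M * G * ρ / 4) ≤ a1 - (a2 + M / 2 * (‖x1 - y2‖ ^ 2 - ‖x2 - y2‖ ^ 2)) := by
    have e1 : ‖x2 - y1‖ ^ 2 = ‖x1 - y1‖ ^ 2 + 2 * ⟪x1 - y1, x2 - x1⟫ + ‖x2 - x1‖ ^ 2 := by
      have := ex (x2 - x1) y1
      rwa [← hx2eq] at this
    have e2 : ‖x2 - y2‖ ^ 2 = ‖x1 - y2‖ ^ 2 + 2 * ⟪x1 - y2, x2 - x1⟫ + ‖x2 - x1‖ ^ 2 := by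
      have := ex (x2 - x1) y2
      rwa [← hx2eq] at this
    have e3 := hdiff (x2 - x1)
    rw [e1] at hc12
    rw [e2]
    have e4 : M * ⟪x2 - x1, y2 - y1⟫ ≤ M * (ρ / 4 * G) := mul_le_mul_of_nonneg_left hinner hM.le
    nlinarith
  -- the circle
  have hcirc : ∀ t : ℝ, φ (x1 + ee t • w) ≤
      ((a1 + (M / 2 * ρ ^ 2 + M * (Real.cos t * ⟪x1 - y1, w⟫ +
        Real.sin t * ⟪x1 - y1, Complex.I • w⟫)) + (-(M * G * ρ)) * bp t : ℝ) : EReal) := by
    intro t
    have hz := hdisc (ee t) (ee_norm t).le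
    have k1 := h1 _ hz
    have k2 := h2 _ hz
    rw [ha1, ← EReal.coe_add, ex (ee t • w) y1, norm_ee, hwn, inner_ee] at k1
    rw [ha2, ← EReal.coe_add, ex (ee t • w) y2, norm_ee, hwn] at k2
    by_cases hb0 : Real.cos t - 1 / 4 ≤ 0
    · have : bp t = 0 := max_eq_left hb0
      rw [this]
      refine k1.trans (le_of_eq ?_)
      congr 1
      ring
    · push Not at hb0
      have hbt : bp t = Real.cos t - 1 / 4 := max_eq_right hb0.le
      rw [hbt]
      refine k2.trans ?_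
      rw [EReal.coe_le_coe_iff]
      have e5 := hdiff (ee t • w)
      have e6 : ⟪ee t • w, y2 - y1⟫ = ρ * G * Real.cos t := by
        rw [real_inner_comm, inner_ee]
        have i1 : ⟪y2 - y1, w⟫ = ρ * G := by
          rw [hw, real_inner_smul_right, real_inner_self_eq_norm_sq, ← hG]
          field_simp
        have i2 : ⟪y2 - y1, Complex.I • w⟫ = 0 := by
          rw [hw, smul_comm, real_inner_smul_right, inner_I, mul_zero]
        rw [i1, i2]; ring
      rw [e6, inner_ee] at e5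
      have e7 := inner_ee (x1 - y2) w t
      nlinarith
  have hcont : Continuous fun t => (a1 + (M / 2 * ρ ^ 2 + M * (Real.cos t * ⟪x1 - y1, w⟫ +
        Real.sin t * ⟪x1 - y1, Complex.I • w⟫)) + (-(M * G * ρ)) * bp t) := by
    have := bp_cont
    have := Real.continuous_cos
    have := Real.continuous_sin
    fun_prop
  have hmaj := psh_maj hφ (fun ζ hζ => hb (hdisc ζ hζ)) hcont (fun t _ => hcirc t)
  have hav : av (fun t => (a1 + (M / 2 * ρ ^ 2 + M * (Real.cos t * ⟪x1 - y1, w⟫ +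
        Real.sin t * ⟪x1 - y1, Complex.I • w⟫)) + (-(M * G * ρ)) * bp t)) =
      a1 + M / 2 * ρ ^ 2 - M * G * ρ * β0 := by
    have h3 := av_trig (a1 + M / 2 * ρ ^ 2) (M * ⟪x1 - y1, w⟫) (M * ⟪x1 - y1, Complex.I • w⟫) 0
    have e1 : (fun t => (a1 + (M / 2 * ρ ^ 2 + M * (Real.cos t * ⟪x1 - y1, w⟫ +
        Real.sin t * ⟪x1 - y1, Complex.I • w⟫)) + (-(M * G * ρ)) * bp t)) =
        fun t => ((a1 + M / 2 * ρ ^ 2) + (M * ⟪x1 - y1, w⟫ * Real.cos t +
          (M * ⟪x1 - y1, Complex.I • w⟫ * Real.sin t +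
            0 * (Real.cos t ^ 2 - Real.sin t ^ 2)))) + (-(M * G * ρ)) * bp t := by
      funext t; ring
    rw [e1, av_add (f := fun t => ((a1 + M / 2 * ρ ^ 2) + (M * ⟪x1 - y1, w⟫ * Real.cos t +
          (M * ⟪x1 - y1, Complex.I • w⟫ * Real.sin t +
            0 * (Real.cos t ^ 2 - Real.sin t ^ 2))))) (g := fun t => (-(M * G * ρ)) * bp t)
      (by
        have := Real.continuous_cos
        have := Real.continuous_sin
        fun_prop) (continuous_const.mul bp_cont), h3, av_mul]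
    unfold β0
    ring
  rw [hav, ha1, EReal.coe_le_coe_iff] at hmaj
  rw [le_div_iff₀ (by have := β0_pos; positivity)]
  have h5 : M * ρ * (G * (2 * β0)) ≤ M * ρ * ρ := by nlinarith
  exact le_of_mul_le_mul_left h5 (by positivity)

/-- the vertex map is Lipschitz -/
theorem contact_lip (hφ : IsPSH Ω φ) {x0 : Cn n} {r M : ℝ} (hr : 0 < r) (hM : 0 < M)
    (hb : Metric.closedBall x0 r ⊆ Ω) {x1 x2 y1 y2 : Cn n}
    (hx1 : x1 ∈ Metric.closedBall x0 (r / 20)) (hx2 : x2 ∈ Metric.closedBall x0 (r / 20))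
    (h1 : Contact φ x0 r M x1 y1) (h2 : Contact φ x0 r M x2 y2)
    (hf1 : φ x1 ≠ ⊥) (hf2 : φ x2 ≠ ⊥) : ‖y2 - y1‖ ≤ (2 / β0) * ‖x1 - x2‖ := by
  have hβ := β0_pos
  rcases eq_or_lt_of_le (norm_nonneg (x1 - x2)) with h0 | h0
  · rw [← h0, mul_zero]
    by_contra hneg
    push Not at hneg
    have hmin : 0 < min (r / 2) (‖y2 - y1‖ * β0) := by
      apply lt_min (by positivity)
      positivity
    have := contact_est hφ hM hb hx1 hx2 h1 h2 hf1 hf2 hmin (by rw [← h0]; linarith)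
      (min_le_left _ _)
    rw [le_div_iff₀ (by positivity)] at this
    have h3 := min_le_right (r / 2) (‖y2 - y1‖ * β0)
    nlinarith
  · have h3 : ‖x1 - x2‖ ≤ r / 10 := by
      rw [Metric.mem_closedBall] at hx1 hx2
      rw [← dist_eq_norm]
      linarith [dist_triangle_right x1 x2 x0]
    have := contact_est hφ hM hb hx1 hx2 h1 h2 hf1 hf2 (ρ := 4 * ‖x1 - x2‖) (by positivity)
      le_rfl (by linarith)
    refine this.trans (le_of_eq ?_)
    field_simp
    ring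

end Pool.Agent.H17.Ps
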