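import Pool.Agent.H17.Ps6

set_option autoImplicit false

namespace Pool.Agent.H17.Ps

open MeasureTheory Filter
open scoped Topology Real RealInnerProductSpace ENNReal NNReal

variable {n : ℕ} {Ω : Set (Cn n)} {φ : Cn n → EReal}

/-- Lebesgue measure (as a Hausdorff measure) -/
noncomputable abbrev mu (n : ℕ) : Measure (Cn n) := μH[Module.finrank ℝ (Cn n)]

noncomputable instance : (mu n).IsAddHaarMeasure := isAddHaarMeasure_hausdorffMeasure

theorem usc_cont {X : Type*} [TopologicalSpace X] {s : Set X} {f : X → EReal}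
    (hf : UpperSemicontinuousOn f s) (hft : ∀ x ∈ s, f x ≠ ⊤) {g : X → ℝ} (hg : Continuous g) :
    UpperSemicontinuousOn (fun x => f x + (g x : EReal)) s := by
  intro x hx
  apply UpperSemicontinuousWithinAt.add'
  · exact hf x hx
  · exact ((continuous_coe_real_ereal.comp hg).upperSemicontinuous).upperSemicontinuousWithinAt _ _
  · apply EReal.continuousAt_add
    · left; exact hft x hx
    · right; exact EReal.coe_ne_top _

/-- contact points exist -/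
theorem exists_contact (hφ : IsPSH Ω φ) {x0 : Cn n} {r M S L : ℝ} (hr : 0 < r)
    (hb : Metric.closedBall x0 r ⊆ Ω) (hS : ∀ z ∈ Metric.closedBall x0 r, φ z ≤ (S : EReal))
    (hM : S + L < M / 2 * (r / 40) ^ 2) (hM0 : 0 < M) {y : Cn n}
    (hy : y ∈ Metric.closedBall x0 (r / 40))
    (hyL : ((-L : ℝ) : EReal) ≤ φ y) :
    ∃ x ∈ Metric.closedBall x0 (r / 20), φ x ≠ ⊥ ∧ Contact φ x0 r M x y := by
  have hyb : y ∈ Metric.closedBall x0 r :=
    Metric.closedBall_subset_closedBall (by linarith) hy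
  have husc := usc_cont (hφ.1.mono hb) (fun x hx => hφ.2.1 x (hb hx))
    (g := fun z => -(M / 2 * ‖z - y‖ ^ 2)) (by fun_prop)
  obtain ⟨x, hxb, hmax⟩ := UpperSemicontinuousOn.exists_isMaxOn ⟨y, hyb⟩
    (isCompact_closedBall x0 r) husc
  have h1 : φ y + ((-(M / 2 * ‖y - y‖ ^ 2) : ℝ) : EReal) ≤
    φ x + ((-(M / 2 * ‖x - y‖ ^ 2) : ℝ) : EReal) := hmax hyb
  have h2 : ((-L : ℝ) : EReal) ≤ φ x + ((-(M / 2 * ‖x - y‖ ^ 2) : ℝ) : EReal) := by
    refine le_trans ?_ h1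
    rw [sub_self, norm_zero]
    have : (-(M / 2 * (0:ℝ) ^ 2)) = 0 := by ring
    rw [this, EReal.coe_zero, add_zero]
    exact hyL
  have hxbot : φ x ≠ ⊥ := by
    intro h0
    rw [h0, EReal.bot_add] at h2
    exact EReal.coe_ne_bot _ (le_bot_iff.1 h2)
  obtain ⟨a, ha⟩ : ∃ a : ℝ, φ x = a := ⟨(φ x).toReal, by
    rw [EReal.coe_toReal _ hxbot]; exact hφ.2.1 _ (hb hxb)⟩
  have hSx := hS x hxb
  rw [ha, EReal.coe_le_coe_iff] at hSx
  rw [ha, ← EReal.coe_add, EReal.coe_le_coe_iff] at h2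
  have h3 : ‖x - y‖ < r / 40 := by
    by_contra hneg
    push Not at hneg
    have : (r / 40) ^ 2 ≤ ‖x - y‖ ^ 2 := pow_le_pow_left₀ (by positivity) hneg 2
    have := mul_le_mul_of_nonneg_left this (show 0 ≤ M / 2 by positivity)
    linarith
  refine ⟨x, ?_, hxbot, ?_⟩
  · rw [Metric.mem_closedBall] at hy ⊢
    rw [← dist_eq_norm] at h3
    linarith [dist_triangle x y x0]
  · intro z hz
    have h4 : φ z + ((-(M / 2 * ‖z - y‖ ^ 2) : ℝ) : EReal) ≤
      φ x + ((-(M / 2 * ‖x - y‖ ^ 2) : ℝ) : EReal) := hmax hz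
    by_cases hzb : φ z = ⊥
    · rw [hzb]; exact bot_le
    obtain ⟨b, hbz⟩ : ∃ b : ℝ, φ z = b := ⟨(φ z).toReal, by
      rw [EReal.coe_toReal _ hzb]; exact hφ.2.1 _ (hb hz)⟩
    rw [hbz, ha, ← EReal.coe_add, ← EReal.coe_add, EReal.coe_le_coe_iff] at h4
    rw [hbz, ha, ← EReal.coe_add, EReal.coe_le_coe_iff]
    linarith

/-- contact points admit an upper test -/
theorem contact_test (hφ : IsPSH Ω φ) {x0 : Cn n} {r M : ℝ} (hr : 0 < r)
    (hb : Metric.closedBall x0 r ⊆ Ω) {x y : Cn n} (hx : x ∈ Metric.closedBall x0 (r / 20))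
    (h : Contact φ x0 r M x y) : HasUpperTest Ω φ x := by
  have hxb : x ∈ Metric.ball x0 r := by
    rw [Metric.mem_closedBall] at hx
    rw [Metric.mem_ball]; linarith
  refine ⟨Metric.ball x0 r, Metric.isOpen_ball, Metric.ball_subset_closedBall.trans hb, hxb,
    fun z => M / 2 * ‖z - y‖ ^ 2, ?_, ?_⟩
  · apply ContDiff.contDiffOn
    apply ContDiff.mul contDiff_const
    exact (contDiff_id.sub contDiff_const).norm_sq ℝ
  · intro z hz
    have h1 := h z (Metric.ball_subset_closedBall hz)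
    by_cases hzb : φ z = ⊥
    · rw [hzb, EReal.bot_sub]; exact bot_le
    obtain ⟨b, hbz⟩ : ∃ b : ℝ, φ z = b := ⟨(φ z).toReal, by
      rw [EReal.coe_toReal _ hzb]; exact hφ.2.1 _ (hb (Metric.ball_subset_closedBall hz))⟩
    have hxne : φ x ≠ ⊥ := by
      intro h0
      rw [h0, EReal.bot_add, hbz] at h1
      exact EReal.coe_ne_bot _ (le_bot_iff.1 h1)
    obtain ⟨a, ha⟩ : ∃ a : ℝ, φ x = a := ⟨(φ x).toReal, by
      rw [EReal.coe_toReal _ hxne]; exact hφ.2.1 _ (hb (Metric.ball_subset_closedBall hxb))⟩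
    rw [ha, hbz, ← EReal.coe_add, EReal.coe_le_coe_iff] at h1
    rw [ha, hbz, ← EReal.coe_sub, ← EReal.coe_sub, EReal.coe_le_coe_iff]
    linarith

/-- the contact set -/
def CS (φ : Cn n → EReal) (x0 : Cn n) (r M : ℝ) : Set (Cn n) :=
  {x | x ∈ Metric.closedBall x0 (r / 20) ∧ ∃ y ∈ Metric.closedBall x0 (r / 40),
    Contact φ x0 r M x y}

theorem CS_compact (hφ : IsPSH Ω φ) {x0 : Cn n} {r M : ℝ} (hr : 0 < r)
    (hb : Metric.closedBall x0 r ⊆ Ω) : IsCompact (CS φ x0 r M) := by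
  set K : Set (Cn n × Cn n) := Metric.closedBall x0 (r / 20) ×ˢ Metric.closedBall x0 (r / 40)
    with hK
  have hKc : IsCompact K := (isCompact_closedBall _ _).prod (isCompact_closedBall _ _)
  have hsub : Metric.closedBall x0 (r / 20) ⊆ Ω :=
    (Metric.closedBall_subset_closedBall (by linarith)).trans hb
  have hz : ∀ z ∈ Metric.closedBall x0 r, IsClosed (K ∩ {p : Cn n × Cn n | φ z ≤
      φ p.1 + ((M / 2 * (‖z - p.2‖ ^ 2 - ‖p.1 - p.2‖ ^ 2) : ℝ) : EReal)}) := by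
    intro z _
    have husc : UpperSemicontinuousOn (fun p : Cn n × Cn n => φ p.1 +
        ((M / 2 * (‖z - p.2‖ ^ 2 - ‖p.1 - p.2‖ ^ 2) : ℝ) : EReal)) K := by
      apply usc_cont (f := fun p : Cn n × Cn n => φ p.1)
      · have h := hφ.1.mono hsub
        exact h.comp continuous_fst.continuousOn fun p hp => hp.1
      · intro p hp
        exact hφ.2.1 _ (hsub hp.1)
      · fun_prop
    exact (husc.isCompact_inter_preimage_Ici hKc (φ z)).isClosed
  have hP : IsClosed (⋂ z ∈ Metric.closedBall x0 r, K ∩ {p : Cn n × Cn n | φ z ≤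
      φ p.1 + ((M / 2 * (‖z - p.2‖ ^ 2 - ‖p.1 - p.2‖ ^ 2) : ℝ) : EReal)}) :=
    isClosed_biInter hz
  have hPK : (⋂ z ∈ Metric.closedBall x0 r, K ∩ {p : Cn n × Cn n | φ z ≤
      φ p.1 + ((M / 2 * (‖z - p.2‖ ^ 2 - ‖p.1 - p.2‖ ^ 2) : ℝ) : EReal)}) ⊆ K := by
    intro p hp
    rw [Set.mem_iInter₂] at hp
    exact (hp x0 (Metric.mem_closedBall_self hr.le)).1
  have hPc := hKc.of_isClosed_subset hP hPK
  have e : CS φ x0 r M = Prod.fst '' (⋂ z ∈ Metric.closedBall x0 r, K ∩ {p : Cn n × Cn n | φ z ≤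
      φ p.1 + ((M / 2 * (‖z - p.2‖ ^ 2 - ‖p.1 - p.2‖ ^ 2) : ℝ) : EReal)}) := by
    ext x
    constructor
    · rintro ⟨h1, y, h2, h3⟩
      refine ⟨(x, y), ?_, rfl⟩
      rw [Set.mem_iInter₂]
      intro z hz
      exact ⟨⟨h1, h2⟩, h3 z hz⟩
    · rintro ⟨p, hp, rfl⟩
      have hpK := hPK hp
      rw [Set.mem_iInter₂] at hp
      exact ⟨hpK.1, p.2, hpK.2, fun z hz => (hp z hz).2⟩
  rw [e]
  exact hPc.image continuous_fst

theorem CS_disj (hφ : IsPSH Ω φ) {x0 : Cn n} {r M : ℝ} (hr : 0 < r)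
    (hb : Metric.closedBall x0 r ⊆ Ω) : Disjoint (Exc Ω φ) (CS φ x0 r M) := by
  rw [Set.disjoint_left]
  rintro x ⟨_, h2⟩ ⟨h3, y, _, h4⟩
  exact h2 (contact_test hφ hr hb h3 h4)

/-- the Lipschitz constant -/
noncomputable def KK : ℝ≥0 := ⟨2 / β0, by have := β0_pos; positivity⟩

/-- vertices are covered by the Lipschitz image of the contact set -/
theorem vertex_measure (hφ : IsPSH Ω φ) {x0 : Cn n} {r M : ℝ} (hr : 0 < r) (hM : 0 < M)
    (hb : Metric.closedBall x0 r ⊆ Ω) (V : Set (Cn n)) (hV : V ⊆ Metric.closedBall x0 (r / 40))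
    (hc : ∀ y ∈ V, ∃ x ∈ Metric.closedBall x0 (r / 20), φ x ≠ ⊥ ∧ Contact φ x0 r M x y) :
    mu n V ≤ (KK : ℝ≥0∞) ^ (Module.finrank ℝ (Cn n) : ℝ) * mu n (CS φ x0 r M) := by
  classical
  set A : Set (Cn n) := {x | x ∈ Metric.closedBall x0 (r / 20) ∧ φ x ≠ ⊥ ∧ ∃ y ∈ V,
    Contact φ x0 r M x y} with hA
  let Ψ : Cn n → Cn n := fun x => if h : ∃ y ∈ V, Contact φ x0 r M x y then h.choose else 0
  have hΨ : ∀ x ∈ A, Contact φ x0 r M x (Ψ x) := by
    rintro x ⟨_, _, h⟩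
    simp only [Ψ, dif_pos h]
    exact h.choose_spec.2
  have hlip : LipschitzOnWith KK Ψ A := by
    apply LipschitzOnWith.of_dist_le_mul
    intro x hx y hy
    rw [dist_eq_norm, dist_eq_norm, norm_sub_rev (Ψ x)]
    exact contact_lip hφ hr hM hb hx.1 hy.1 (hΨ x hx) (hΨ y hy) hx.2.1 hy.2.1
  have hsub : V ⊆ Ψ '' A := by
    intro y hy
    obtain ⟨x, hx1, hx2, hx3⟩ := hc y hy
    have hxA : x ∈ A := ⟨hx1, hx2, y, hy, hx3⟩
    refine ⟨x, hxA, ?_⟩
    have := contact_lip hφ hr hM hb hx1 hx1 (hΨ x hxA) hx3 hx2 hx2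
    rw [sub_self, norm_zero, mul_zero] at this
    have h0 : y - Ψ x = 0 := norm_le_zero_iff.1 this
    exact (sub_eq_zero.1 h0).symm
  have hAC : A ⊆ CS φ x0 r M := by
    rintro x ⟨h1, _, y, hy, h3⟩
    exact ⟨h1, y, hV hy, h3⟩
  calc mu n V ≤ mu n (Ψ '' A) := measure_mono hsub
    _ ≤ (KK : ℝ≥0∞) ^ (Module.finrank ℝ (Cn n) : ℝ) * mu n A :=
        hlip.hausdorffMeasure_image_le (by positivity)
    _ ≤ _ := by gcongr

end Pool.Agent.H17.Ps
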