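import Pool.Agent.H17.Ps7

set_option autoImplicit false

namespace Pool.Agent.H17.Ps

open MeasureTheory Filter
open scoped Topology Real RealInnerProductSpace ENNReal NNReal

variable {n : ℕ} {Ω : Set (Cn n)} {φ : Cn n → EReal}

/-- the constant -/
noncomputable def CC (n : ℕ) : ℝ≥0∞ :=
  ENNReal.ofReal (2 ^ Module.finrank ℝ (Cn n)) *
    (2 * (KK : ℝ≥0∞) ^ (Module.finrank ℝ (Cn n) : ℝ))

theorem CC_ne_top (n : ℕ) : CC n ≠ ⊤ := by
  unfold CC
  apply ENNReal.mul_ne_top ENNReal.ofReal_ne_top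
  apply ENNReal.mul_ne_top (by norm_num)
  exact ENNReal.rpow_ne_top_of_nonneg (by positivity) ENNReal.coe_ne_top

/-- the contact set has a definite density -/
theorem contact_density (hφ : IsPSH Ω φ) {x0 : Cn n} {r : ℝ} (hr : 0 < r)
    (hb : Metric.closedBall x0 r ⊆ Ω)
    (hfin : mu n ({z | φ z = ⊥} ∩ Metric.closedBall x0 r) = 0) :
    ∃ M : ℝ, 0 < M ∧ mu n (Metric.closedBall x0 (r / 20)) ≤ CC n * mu n (CS φ x0 r M) := by
  -- the sublevel sets
  let V : ℕ → Set (Cn n) := fun L => {y | y ∈ Metric.closedBall x0 (r / 40) ∧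
    ((-(L:ℝ) : ℝ) : EReal) ≤ φ y}
  have hmono : Monotone V := by
    intro L L' hLL' y hy
    refine ⟨hy.1, le_trans ?_ hy.2⟩
    rw [EReal.coe_le_coe_iff]
    have : (L:ℝ) ≤ L' := by exact_mod_cast hLL'
    linarith
  have hsubb : Metric.closedBall x0 (r / 40) ⊆ Metric.closedBall x0 r :=
    Metric.closedBall_subset_closedBall (by linarith)
  have hU : Metric.closedBall x0 (r / 40) ⊆ (⋃ L, V L) ∪ ({z | φ z = ⊥} ∩
      Metric.closedBall x0 r) := by
    intro y hy
    by_cases h : φ y = ⊥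
    · right; exact ⟨h, hsubb hy⟩
    · left
      obtain ⟨a, ha⟩ : ∃ a : ℝ, φ y = a := ⟨(φ y).toReal, by
        rw [EReal.coe_toReal _ h]; exact hφ.2.1 _ (hb (hsubb hy))⟩
      obtain ⟨L, hL⟩ := exists_nat_ge (-a)
      rw [Set.mem_iUnion]
      refine ⟨L, hy, ?_⟩
      rw [ha, EReal.coe_le_coe_iff]; linarith
  have hmeas : mu n (Metric.closedBall x0 (r / 40)) ≤ mu n (⋃ L, V L) := by
    refine (measure_mono hU).trans ((measure_union_le _ _).trans ?_)
    rw [hfin, add_zero]
  have hpos : 0 < mu n (Metric.closedBall x0 (r / 40)) :=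
    Metric.measure_closedBall_pos _ _ (by positivity)
  have hlt : mu n (Metric.closedBall x0 (r / 40)) ≠ ⊤ :=
    (isCompact_closedBall _ _).measure_lt_top.ne
  have htend := tendsto_measure_iUnion_atTop (μ := mu n) hmono
  have hhalf : mu n (Metric.closedBall x0 (r / 40)) / 2 < mu n (⋃ L, V L) :=
    lt_of_lt_of_le (ENNReal.half_lt_self hpos.ne' hlt) hmeas
  obtain ⟨L, hL⟩ := ((tendsto_order.1 htend).1 _ hhalf).exists
  have hL' : mu n (Metric.closedBall x0 (r / 40)) ≤ 2 * mu n (V L) := by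
    have h1 : mu n (Metric.closedBall x0 (r / 40)) / 2 ≤ mu n (V L) := hL.le
    rw [ENNReal.div_le_iff (by norm_num) (by norm_num)] at h1
    rwa [mul_comm]
  -- upper bound
  obtain ⟨c, hc, hmax⟩ := UpperSemicontinuousOn.exists_isMaxOn
    ⟨x0, Metric.mem_closedBall_self hr.le⟩ (isCompact_closedBall x0 r) (hφ.1.mono hb)
  set S : ℝ := (φ c).toReal with hS
  have hSb : ∀ z ∈ Metric.closedBall x0 r, φ z ≤ (S : EReal) := fun z hz =>
    (show φ z ≤ φ c from hmax hz).trans (EReal.le_coe_toReal (hφ.2.1 _ (hb hc)))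
  set M : ℝ := 2 * (|S| + L + 1) / (r / 40) ^ 2 with hM
  have hMpos : 0 < M := by
    have := abs_nonneg S
    positivity
  have hM1 : S + L < M / 2 * (r / 40) ^ 2 := by
    have e : M / 2 * (r / 40) ^ 2 = |S| + L + 1 := by
      rw [hM]; field_simp
    rw [e]
    have := le_abs_self S
    linarith
  refine ⟨M, hMpos, ?_⟩
  have hV := vertex_measure hφ hr hMpos hb (V L) (fun y hy => hy.1) (fun y hy =>
    exists_contact hφ hr hb hSb hM1 hMpos hy.1 hy.2)
  have hscale : mu n (Metric.closedBall x0 (r / 20)) =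
      ENNReal.ofReal (2 ^ Module.finrank ℝ (Cn n)) * mu n (Metric.closedBall x0 (r / 40)) := by
    rw [Measure.addHaar_closedBall (mu n) x0 (by positivity : (0:ℝ) ≤ r / 20),
      Measure.addHaar_closedBall (mu n) x0 (by positivity : (0:ℝ) ≤ r / 40), ← mul_assoc,
      ← ENNReal.ofReal_mul (by positivity), ← mul_pow]
    congr 3
    ring
  rw [hscale]
  unfold CC
  calc ENNReal.ofReal (2 ^ Module.finrank ℝ (Cn n)) * mu n (Metric.closedBall x0 (r / 40))
      ≤ ENNReal.ofReal (2 ^ Module.finrank ℝ (Cn n)) * (2 * ((KK : ℝ≥0∞) ^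
        (Module.finrank ℝ (Cn n) : ℝ) * mu n (CS φ x0 r M))) := by
        gcongr
        exact hL'.trans (by gcongr)
    _ = _ := by ring

/-- the exceptional set is null once the polar set is null -/
theorem exc_null (hφ : IsPSH Ω φ) (hΩ : IsOpen Ω)
    (hfin : mu n ({z | φ z = ⊥} ∩ Ω) = 0) : mu n (Exc Ω φ) = 0 := by
  have hae := Besicovitch.ae_tendsto_measure_inter_div (mu n) (Exc Ω φ)
  rw [ae_iff] at hae
  have hle := Measure.le_restrict_apply (μ := mu n) (Exc Ω φ) {a | ¬ Tendsto (fun r =>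
    mu n (Exc Ω φ ∩ Metric.closedBall a r) / mu n (Metric.closedBall a r)) (𝓝[>] 0) (𝓝 1)}
  rw [hae] at hle
  refine le_antisymm (le_trans (measure_mono ?_) hle) (zero_le)
  intro x hx
  refine ⟨?_, hx⟩
  rw [Set.mem_ofPred_eq]
  intro htend
  obtain ⟨R, hR, hball⟩ := Metric.isOpen_iff.1 hΩ x hx.1
  have hC0 := CC_ne_top n
  have hsum : Tendsto (fun r => mu n (Exc Ω φ ∩ Metric.closedBall x r) /
      mu n (Metric.closedBall x r) + (CC n)⁻¹) (𝓝[>] 0) (𝓝 (1 + (CC n)⁻¹)) :=
    htend.add tendsto_const_nhds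
  have hbound : ∀ᶠ s in 𝓝[>] (0:ℝ), mu n (Exc Ω φ ∩ Metric.closedBall x s) /
      mu n (Metric.closedBall x s) + (CC n)⁻¹ ≤ 1 := by
    have hRpos : (0:ℝ) < R / 40 := by positivity
    filter_upwards [Ioo_mem_nhdsGT hRpos] with s hs
    obtain ⟨hs0, hs1⟩ := hs
    have hb : Metric.closedBall x (20 * s) ⊆ Ω :=
      (Metric.closedBall_subset_ball (by linarith)).trans hball
    obtain ⟨M, hM, hden⟩ := contact_density hφ (x0 := x) (r := 20 * s) (by positivity) hb (by
      refine le_antisymm (le_trans (measure_mono ?_) hfin.le) (zero_le)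
      exact Set.inter_subset_inter_right _ hb)
    have e20 : 20 * s / 20 = s := by ring
    rw [e20] at hden
    have hcpt := CS_compact hφ (x0 := x) (r := 20 * s) (M := M) (by positivity) hb
    have hdisj := CS_disj hφ (x0 := x) (r := 20 * s) (M := M) (by positivity) hb
    have hCsub : CS φ x (20 * s) M ⊆ Metric.closedBall x s := by
      intro y hy
      have := hy.1
      rwa [e20] at this
    have hpos : 0 < mu n (Metric.closedBall x s) := Metric.measure_closedBall_pos _ _ hs0
    have hlt : mu n (Metric.closedBall x s) ≠ ⊤ := (isCompact_closedBall _ _).measure_lt_top.ne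
    have hadd : mu n (Exc Ω φ ∩ Metric.closedBall x s) + mu n (CS φ x (20 * s) M) ≤
        mu n (Metric.closedBall x s) := by
      rw [← measure_union (hdisj.mono_left Set.inter_subset_left) hcpt.measurableSet]
      apply measure_mono
      exact Set.union_subset Set.inter_subset_right hCsub
    have hCCpos : CC n ≠ 0 := by
      intro h0
      rw [h0, zero_mul] at hden
      exact absurd hden (not_le.2 hpos)
    have h3 : mu n (Metric.closedBall x s) * (CC n)⁻¹ ≤ mu n (CS φ x (20 * s) M) := by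
      rw [← div_eq_mul_inv, ENNReal.div_le_iff hCCpos hC0, mul_comm]
      exact hden
    have h4 : mu n (Exc Ω φ ∩ Metric.closedBall x s) + mu n (Metric.closedBall x s) * (CC n)⁻¹ ≤
        mu n (Metric.closedBall x s) := (add_le_add_right h3 _).trans hadd
    calc mu n (Exc Ω φ ∩ Metric.closedBall x s) / mu n (Metric.closedBall x s) + (CC n)⁻¹
        = (mu n (Exc Ω φ ∩ Metric.closedBall x s) + mu n (Metric.closedBall x s) * (CC n)⁻¹) /
          mu n (Metric.closedBall x s) := by
          rw [ENNReal.add_div]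
          congr 1
          rw [mul_comm, ENNReal.mul_div_cancel_right hpos.ne' hlt]
      _ ≤ mu n (Metric.closedBall x s) / mu n (Metric.closedBall x s) :=
          ENNReal.div_le_div_right h4 _
      _ = 1 := ENNReal.div_self hpos.ne' hlt
  have hlim := le_of_tendsto hsum hbound
  have h5 : (1 : ℝ≥0∞) < 1 + (CC n)⁻¹ := by
    apply ENNReal.lt_add_right ENNReal.one_ne_top
    exact ENNReal.inv_ne_zero.2 hC0
  exact absurd hlim (not_le.2 h5)

end Pool.Agent.H17.Ps
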