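import Pool.Agent.H17.Ps8

set_option autoImplicit false

namespace Pool.Agent.H17.Ps

open MeasureTheory Filter
open scoped Topology Real RealInnerProductSpace ENNReal NNReal

variable {n : ℕ} {Ω : Set (Cn n)} {φ : Cn n → EReal}

theorem polar_meas (hφ : IsPSH Ω φ) {x1 : Cn n} {s : ℝ} (hb : Metric.ball x1 s ⊆ Ω) :
    MeasurableSet {v : Cn n | v ∈ Metric.ball (0 : Cn n) s ∧ φ (x1 + v) = ⊥} := by
  have e : {v : Cn n | v ∈ Metric.ball (0 : Cn n) s ∧ φ (x1 + v) = ⊥} =
      ⋂ N : ℕ, {v : Cn n | v ∈ Metric.ball (0 : Cn n) s ∧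
        φ (x1 + v) < ((-(N:ℝ) : ℝ) : EReal)} := by
    ext v
    rw [Set.mem_iInter]
    constructor
    · rintro ⟨h1, h2⟩ N
      refine ⟨h1, ?_⟩
      rw [h2]
      exact EReal.bot_lt_coe _
    · intro h
      refine ⟨(h 0).1, ?_⟩
      by_contra hne
      have hmem : x1 + v ∈ Ω := hb (by
        have := (h 0).1
        rw [mem_ball_zero_iff] at this
        rw [Metric.mem_ball, dist_eq_norm, add_sub_cancel_left]
        exact this)
      obtain ⟨a, ha⟩ : ∃ a : ℝ, φ (x1 + v) = a := ⟨(φ (x1 + v)).toReal, by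
        rw [EReal.coe_toReal _ hne]; exact hφ.2.1 _ hmem⟩
      obtain ⟨N, hN⟩ := exists_nat_ge (-a)
      have := (h N).2
      rw [ha, EReal.coe_lt_coe_iff] at this
      linarith
  rw [e]
  apply MeasurableSet.iInter
  intro N
  apply IsOpen.measurableSet
  have husc : UpperSemicontinuousOn (fun v => φ (x1 + v)) (Metric.ball (0 : Cn n) s) := by
    have h := hφ.1.mono hb
    apply h.comp (by fun_prop)
    intro v hv
    rw [mem_ball_zero_iff] at hv
    rw [Metric.mem_ball, dist_eq_norm, add_sub_cancel_left]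
    exact hv
  rw [isOpen_iff_mem_nhds]
  rintro v ⟨h1, h2⟩
  have h3 := husc v h1 _ h2
  rw [Metric.isOpen_ball.nhdsWithin_eq h1] at h3
  filter_upwards [h3, Metric.isOpen_ball.mem_nhds h1] with w h4 h5
  exact ⟨h5, h4⟩

/-- rotation by a unimodular number -/
noncomputable def rot (t : ℝ) : Cn n ≃ᵢ Cn n where
  toFun := fun w => ee t • w
  invFun := fun w => (ee t)⁻¹ • w
  left_inv := fun w => by
    have : ee t ≠ 0 := by
      intro h; have := ee_norm t; rw [h, norm_zero] at this; norm_num at this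
    show (ee t)⁻¹ • (ee t • w) = w
    rw [smul_smul, inv_mul_cancel₀ this, one_smul]
  right_inv := fun w => by
    have : ee t ≠ 0 := by
      intro h; have := ee_norm t; rw [h, norm_zero] at this; norm_num at this
    show ee t • ((ee t)⁻¹ • w) = w
    rw [smul_smul, mul_inv_cancel₀ this, one_smul]
  isometry_toFun := by
    apply Isometry.of_dist_eq
    intro x y
    rw [dist_eq_norm, dist_eq_norm, ← smul_sub, norm_ee]

/-- near a point where `φ` is finite, the polar set is null -/
theorem polar_ball (hφ : IsPSH Ω φ) {x1 : Cn n} {s : ℝ}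
    (hb : Metric.ball x1 s ⊆ Ω) (hx1 : φ x1 ≠ ⊥) :
    mu n ({z | φ z = ⊥} ∩ Metric.ball x1 s) = 0 := by
  set Z : Set (Cn n) := {v : Cn n | v ∈ Metric.ball (0 : Cn n) s ∧ φ (x1 + v) = ⊥} with hZ
  have hZm : MeasurableSet Z := polar_meas hφ hb
  -- the product set
  set P : Set (Cn n × ℝ) := {p | ee p.2 • p.1 ∈ Z} ∩ Set.univ ×ˢ Set.Icc 0 (2 * π) with hP
  have hcont : Continuous fun p : Cn n × ℝ => ee p.2 • p.1 :=
    (ee_cont.comp continuous_snd).smul continuous_fst
  have hPm : MeasurableSet P := (hcont.measurable hZm).inter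
    (MeasurableSet.univ.prod measurableSet_Icc)
  have hnull : ((mu n).prod volume) P = 0 := by
    rw [Measure.measure_prod_null hPm]
    refine Eventually.of_forall fun w => ?_
    show volume (Prod.mk w ⁻¹' P) = 0
    by_cases hw : w ∈ Metric.ball (0 : Cn n) s
    · have hd : ∀ ζ : ℂ, ‖ζ‖ ≤ 1 → x1 + ζ • w ∈ Ω := by
        intro ζ hζ
        apply hb
        rw [mem_ball_zero_iff] at hw
        rw [Metric.mem_ball, dist_eq_norm, add_sub_cancel_left, norm_smul]
        exact lt_of_le_of_lt (mul_le_of_le_one_left (norm_nonneg _) hζ) hw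
      refine measure_mono_null ?_ (psh_ae hφ hd hx1)
      rintro t ⟨h1, _, h2⟩
      exact ⟨h1.2, h2⟩
    · have : Prod.mk w ⁻¹' P = ∅ := by
        rw [Set.eq_empty_iff_forall_notMem]
        rintro t ⟨h1, _⟩
        apply hw
        have h2 := h1.1
        rw [mem_ball_zero_iff] at h2 ⊢
        have h3 : ‖ee t • w‖ < s := h2
        rwa [norm_ee] at h3
      rw [this, measure_empty]
  have hswap : ((volume : Measure ℝ).prod (mu n)) (Prod.swap ⁻¹' P) = 0 := by
    have := Measure.measurePreserving_swap (μ := (volume : Measure ℝ)) (ν := mu n)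
    rw [this.measure_preimage hPm.nullMeasurableSet]
    exact hnull
  rw [Measure.measure_prod_null (measurable_swap hPm)] at hswap
  -- find a good t
  have hpos : volume (Set.Icc (0:ℝ) (2 * π)) ≠ 0 := by
    rw [Real.volume_Icc]
    simp [Real.pi_pos]
  obtain ⟨t, ht, hmt⟩ : ∃ t ∈ Set.Icc (0:ℝ) (2 * π), mu n (Prod.mk t ⁻¹' (Prod.swap ⁻¹' P)) = 0 := by
    by_contra hcon
    push Not at hcon
    apply hpos
    refine measure_mono_null ?_ (ae_iff.1 hswap)
    intro t ht
    exact hcon t ht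
  have e1 : Prod.mk t ⁻¹' (Prod.swap ⁻¹' P) = (rot t : Cn n ≃ᵢ Cn n) ⁻¹' Z := by
    ext w
    constructor
    · rintro ⟨h1, _⟩; exact h1
    · intro h; exact ⟨h, Set.mem_univ _, ht⟩
  rw [e1, IsometryEquiv.hausdorffMeasure_preimage] at hmt
  -- translate
  have e2 : {z | φ z = ⊥} ∩ Metric.ball x1 s = (IsometryEquiv.addLeft (-x1)) ⁻¹' Z := by
    ext z
    rw [Set.mem_preimage, IsometryEquiv.addLeft_apply]
    constructor
    · rintro ⟨h1, h2⟩
      refine ⟨?_, ?_⟩
      · rw [mem_ball_zero_iff, neg_add_eq_sub, ← dist_eq_norm]; exact h2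
      · rw [add_neg_cancel_left]; exact h1
    · rintro ⟨h1, h2⟩
      rw [mem_ball_zero_iff, neg_add_eq_sub, ← dist_eq_norm] at h1
      rw [add_neg_cancel_left] at h2
      exact ⟨h2, h1⟩
  rw [e2, IsometryEquiv.hausdorffMeasure_preimage]
  exact hmt

/-- the polar set is null -/
theorem polar_null (hφ : IsPSH Ω φ) (hΩ : IsOpen Ω) (hc : IsPreconnected Ω)
    (hne : ∃ z ∈ Ω, φ z ≠ ⊥) : mu n ({z | φ z = ⊥} ∩ Ω) = 0 := by
  let W : Set (Cn n) := {x | ∃ s > 0, Metric.ball x s ⊆ Ω ∧
    mu n ({z | φ z = ⊥} ∩ Metric.ball x s) = 0}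
  have hWopen : IsOpen W := by
    rw [Metric.isOpen_iff]
    rintro x ⟨s, hs, h1, h2⟩
    refine ⟨s / 2, by positivity, fun y hy => ⟨s / 2, by positivity, ?_, ?_⟩⟩
    · intro η hη
      apply h1
      rw [Metric.mem_ball] at *
      linarith [dist_triangle η y x]
    · refine measure_mono_null ?_ h2
      apply Set.inter_subset_inter_right
      intro η hη
      rw [Metric.mem_ball] at *
      linarith [dist_triangle η y x]
  have hsub : Ω ⊆ W := by
    apply hc.subset_of_closure_inter_subset hWopen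
    · obtain ⟨z, hz, hzb⟩ := hne
      obtain ⟨R, hR, hball⟩ := Metric.isOpen_iff.1 hΩ z hz
      exact ⟨z, hz, R, hR, hball, polar_ball hφ hball hzb⟩
    · rintro c ⟨hcW, hcΩ⟩
      obtain ⟨R, hR, hball⟩ := Metric.isOpen_iff.1 hΩ c hcΩ
      obtain ⟨c', ⟨s, hs, h1, h2⟩, hc'⟩ := Metric.mem_closure_iff.1 hcW (R / 4) (by positivity)
      -- a point near c' where φ is finite
      obtain ⟨x, hx, hxb⟩ : ∃ x ∈ Metric.ball c' (min s (R / 4)), φ x ≠ ⊥ := by
        by_contra hcon
        push Not at hcon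
        have h3 : 0 < mu n (Metric.ball c' (min s (R / 4))) :=
          Metric.measure_ball_pos _ _ (by positivity)
        have h4 : Metric.ball c' (min s (R / 4)) ⊆ {z | φ z = ⊥} ∩ Metric.ball c' s := by
          intro x hx
          exact ⟨hcon x hx, Metric.ball_subset_ball (min_le_left _ _) hx⟩
        have := measure_mono_null h4 h2
        exact h3.ne' this
      have hxc : dist x c < R / 2 := by
        have h5 : dist x c' < R / 4 := lt_of_lt_of_le (Metric.mem_ball.1 hx) (min_le_right _ _)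
        rw [dist_comm] at hc'
        linarith [dist_triangle x c' c]
      have hb2 : Metric.ball x (R / 2) ⊆ Ω := by
        intro y hy
        apply hball
        rw [Metric.mem_ball] at *
        linarith [dist_triangle y x c]
      have h6 := polar_ball hφ hb2 hxb
      refine ⟨R / 2 - dist x c, by linarith, ?_, ?_⟩
      · exact (Metric.ball_subset_ball (by linarith [dist_nonneg (x := x) (y := c)])).trans hball
      · refine measure_mono_null ?_ h6
        apply Set.inter_subset_inter_right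
        intro y hy
        rw [Metric.mem_ball] at *
        linarith [dist_triangle y c x, dist_comm c x]
  apply measure_null_of_locally_null
  rintro x ⟨_, hx⟩
  obtain ⟨s, hs, _, h2⟩ := hsub hx
  refine ⟨{z | φ z = ⊥} ∩ Ω ∩ Metric.ball x s, ?_, ?_⟩
  · exact inter_mem_nhdsWithin _ (Metric.ball_mem_nhds x hs)
  · refine measure_mono_null ?_ h2
    rintro y ⟨⟨h3, _⟩, h4⟩
    exact ⟨h3, h4⟩

/-- the positive answer to the first question -/
theorem Q1 {n : ℕ} {Ω : Set (Cn n)} {φ : Cn n → EReal} (hΩ : IsOpen Ω) (hc : IsPreconnected Ω)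
    (hφ : IsPSH Ω φ) (hne : ∃ z ∈ Ω, φ z ≠ ⊥) (μ : Measure (Cn n)) [μ.IsAddHaarMeasure] :
    μ (Exc Ω φ) = 0 := by
  have h1 := exc_null hφ hΩ (polar_null hφ hΩ hc hne)
  have h2 : μ ≪ mu n := Measure.absolutelyContinuous_isAddHaarMeasure μ (mu n)
  exact h2 h1

end Pool.Agent.H17.Ps
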