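import Mathlib

set_option autoImplicit false

namespace Pool.Agent.H17.Ps

/-- The space `ℂⁿ`. -/
abbrev Cn (n : ℕ) := EuclideanSpace ℂ (Fin n)

/-- `u : Ω → [-∞, ∞)` is plurisubharmonic on the open set `Ω`: it is upper semicontinuous, and for
every closed complex disc `{z + ζ w : |ζ| ≤ 1}` contained in `Ω` the value `u z` at the centre is at
most the average of `u` over the circle `|ζ| = 1`.  Since `u` is bounded above on the circle, its
average there is the infimum over `N` of the averages of the bounded functions `max(u, -N)`. -/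
def IsPSH {n : ℕ} (Ω : Set (Cn n)) (u : Cn n → EReal) : Prop :=
  UpperSemicontinuousOn u Ω ∧ (∀ z ∈ Ω, u z ≠ ⊤) ∧
    ∀ z w : Cn n, (∀ ζ : ℂ, ‖ζ‖ ≤ 1 → z + ζ • w ∈ Ω) → ∀ N : ℕ,
      u z ≤ ((Real.circleAverage
        (fun ζ : ℂ => (max (u (z + ζ • w)) ((-(N : ℝ) : ℝ) : EReal)).toReal) 0 1 : ℝ) : EReal)

/-- A bounded pseudoconvex domain: bounded, open, connected, with a continuous plurisubharmonic
exhaustion function. -/
def IsBoundedPseudoconvexDomain {n : ℕ} (Ω : Set (Cn n)) : Prop :=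
  Bornology.IsBounded Ω ∧ IsOpen Ω ∧ IsConnected Ω ∧
    ∃ ψ : Cn n → ℝ, ContinuousOn ψ Ω ∧ IsPSH Ω (fun z => (ψ z : EReal)) ∧
      ∀ c : ℝ, IsCompact {z | z ∈ Ω ∧ ψ z ≤ c}

/-- `φ` admits a differential test from above at `z`: there are an open neighbourhood `V ⊆ Ω` of
`z` and a function `q` of class `C²` on `V` with `(φ - q)(z) = sup_V (φ - q)`. -/
def HasUpperTest {n : ℕ} (Ω : Set (Cn n)) (φ : Cn n → EReal) (z : Cn n) : Prop :=
  ∃ V : Set (Cn n), IsOpen V ∧ V ⊆ Ω ∧ z ∈ V ∧ ∃ q : Cn n → ℝ, ContDiffOn ℝ 2 q V ∧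
    ∀ y ∈ V, φ y - (q y : EReal) ≤ φ z - (q z : EReal)

/-- The exceptional set `E(φ)`. -/
def Exc {n : ℕ} (Ω : Set (Cn n)) (φ : Cn n → EReal) : Set (Cn n) :=
  {z | z ∈ Ω ∧ ¬ HasUpperTest Ω φ z}

/-- `S` is pluripolar in `Ω`: it is contained in `{u = -∞}` for some plurisubharmonic `u` on `Ω`
which is not identically `-∞`. -/
def IsPluripolar {n : ℕ} (Ω S : Set (Cn n)) : Prop :=
  ∃ u : Cn n → EReal, IsPSH Ω u ∧ (∃ z ∈ Ω, u z ≠ ⊥) ∧ ∀ z ∈ S, u z = ⊥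

end Pool.Agent.H17.Ps
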