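import Mathlib

set_option autoImplicit false

namespace Pool.Agent.H17.Pw

universe u

abbrev KQ : Type := AddCircle (1 : ℚ)

noncomputable def fr (N : ℕ) : KQ := ((1 / N : ℚ) : KQ)

theorem fr_zsmul {N : ℕ} (hN : 0 < N) {k : ℤ} (h : k • fr N = 0) : (N : ℤ) ∣ k := by
  have h1 : addOrderOf (fr N) = N := by
    have := AddCircle.addOrderOf_period_div (p := (1:ℚ)) hN
    simpa [fr] using this
  rw [← addOrderOf_dvd_iff_zsmul_eq_zero, h1] at h
  exact h

theorem fr_nsmul {N : ℕ} (hN : 0 < N) : N • fr N = 0 := by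
  have h1 : addOrderOf (fr N) = N := by
    have := AddCircle.addOrderOf_period_div (p := (1:ℚ)) hN
    simpa [fr] using this
  rw [← addOrderOf_dvd_iff_nsmul_eq_zero, h1]

theorem fr_ne {N : ℕ} (hN : 2 ≤ N) : fr N ≠ 0 := by
  intro h
  have h1 := fr_zsmul (N := N) (by omega) (k := 1) (by rw [one_smul, h])
  have h2 := Int.le_of_dvd one_pos h1
  omega

instance : Nontrivial KQ := ⟨⟨fr 2, 0, fr_ne le_rfl⟩⟩

theorem KQ_torsion (x : KQ) : ∃ n : ℕ, 0 < n ∧ n • x = 0 := by
  induction x using QuotientAddGroup.induction_on with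
  | H q =>
    refine ⟨q.den, q.den_pos, ?_⟩
    have h1 : (q.den • (q : KQ)) = ((q.den • q : ℚ) : KQ) := by
      exact (AddCircle.coe_nsmul (p := (1:ℚ))).symm
    rw [show ((QuotientAddGroup.mk q : ℚ ⧸ AddSubgroup.zmultiples (1:ℚ)) : KQ) = (q : KQ) from rfl,
      h1]
    have h2 : (q.den • q : ℚ) = (q.num : ℚ) * 1 := by
      rw [nsmul_eq_mul, mul_one]; exact Rat.den_mul_eq_num q
    rw [h2, ← zsmul_eq_mul, AddCircle.coe_zsmul, AddCircle.coe_period, smul_zero]

theorem fin_torsion {I : Type u} (g : I →₀ KQ) : ∃ n : ℕ, 0 < n ∧ n • g = 0 := by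
  induction g using Finsupp.induction with
  | zero => exact ⟨1, one_pos, by simp⟩
  | single_add i x f _ _ ih =>
    obtain ⟨n, hn, h⟩ := ih
    obtain ⟨m, hm, h'⟩ := KQ_torsion x
    refine ⟨m * n, by positivity, ?_⟩
    rw [smul_add, mul_smul m n f, h, smul_zero, add_zero, mul_comm, mul_smul, Finsupp.smul_single,
      h', Finsupp.single_zero, smul_zero]

section

variable {M : Type u} [AddCommMonoid M]

theorem idem_mul {m : M} {n : ℕ} (h : n • m + n • m = n • m) (k : ℕ) :
    (k * n) • m + (k * n) • m = (k * n) • m := by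
  rw [mul_smul, ← smul_add, h]

theorem idem_add {e f : M} (he : e + e = e) (hf : f + f = f) : (e + f) + (e + f) = e + f := by
  rw [add_add_add_comm, he, hf]

theorem idem_sum {ι : Type u} (s : Finset ι) (f : ι → M) (h : ∀ i ∈ s, f i + f i = f i) :
    (∑ i ∈ s, f i) + (∑ i ∈ s, f i) = ∑ i ∈ s, f i := by
  rw [← Finset.sum_add_distrib]
  exact Finset.sum_congr rfl h

abbrev Gam (M : Type u) : Type u := M ⊕ ℕ
abbrev GG (M : Type u) : Type u := (ℕ × Gam M) →₀ KQ

theorem exists_dec (M : Type u) [AddCommMonoid M] :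
    ∃ dec : Gam M → (GG M × M × M), Function.Surjective dec := by
  have h1 : Cardinal.mk (GG M × M × M) ≤ Cardinal.mk (Gam M) := by
    have hinf : Infinite (Gam M) := inferInstance
    have hal : Cardinal.aleph0 ≤ Cardinal.mk (Gam M) := Cardinal.aleph0_le_mk _
    have hM : Cardinal.mk M ≤ Cardinal.mk (Gam M) :=
      Cardinal.mk_le_of_injective Sum.inl_injective
    have hNG : Cardinal.mk (ℕ × Gam M) ≤ Cardinal.mk (Gam M) := by
      rw [Cardinal.mk_prod]
      simp only [Cardinal.lift_uzero, Cardinal.mk_nat, Cardinal.lift_aleph0, Cardinal.lift_id']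
      exact Cardinal.mul_le_of_le hal hal le_rfl
    have hG : Cardinal.mk (GG M) ≤ Cardinal.mk (Gam M) := by
      rw [Cardinal.mk_finsupp_lift_of_infinite]
      apply max_le
      · simpa using hNG
      · have : Cardinal.mk KQ ≤ Cardinal.aleph0 := by
          rw [Cardinal.mk_le_aleph0_iff]
          exact Function.Surjective.countable (f := fun q : ℚ => (q : KQ))
            (QuotientAddGroup.mk_surjective)
        calc Cardinal.lift (Cardinal.mk KQ) ≤ Cardinal.lift Cardinal.aleph0 :=
              Cardinal.lift_le.2 this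
          _ = Cardinal.aleph0 := by simp
          _ ≤ _ := hal
    rw [Cardinal.mk_prod, Cardinal.mk_prod]
    simp only [Cardinal.lift_id]
    exact Cardinal.mul_le_of_le hal hG (Cardinal.mul_le_of_le hal hM hM)
  obtain ⟨f⟩ := (Cardinal.le_def _ _).1 h1
  have : Nonempty (GG M × M × M) := ⟨(0, 0, 0)⟩
  exact ⟨Function.invFun f, Function.invFun_surjective f.injective⟩

end

end Pool.Agent.H17.Pw
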