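import Pool.Agent.H17.Pw1

set_option autoImplicit false

namespace Pool.Agent.H17.Pw

universe u

section

variable {M : Type u} [AddCommMonoid M]

/-- linear combinations with natural coefficients -/
noncomputable def lc {Z : Type u} [AddCommMonoid Z] (u : Gam M → Z) (a : Gam M →₀ ℕ) : Z :=
  a.sum fun γ k => k • u γ

theorem lc_zero {Z : Type u} [AddCommMonoid Z] (u : Gam M → Z) : lc u 0 = 0 := by
  unfold lc; simp

theorem lc_add {Z : Type u} [AddCommMonoid Z] (u : Gam M → Z) (a b : Gam M →₀ ℕ) :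
    lc u (a + b) = lc u a + lc u b := by
  unfold lc
  apply Finsupp.sum_add_index'
  · intro i; simp
  · intro i x y; rw [add_smul]

theorem lc_single {Z : Type u} [AddCommMonoid Z] (u : Gam M → Z) (γ : Gam M) :
    lc u (Finsupp.single γ 1) = u γ := by
  unfold lc
  rw [Finsupp.sum_single_index (by simp), one_smul]

/-- the submonoid at the next stage, given a submonoid and two families of new elements -/
noncomputable def adj (R : AddSubmonoid (GG M × M)) (u v : Gam M → GG M × M) :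
    AddSubmonoid (GG M × M) where
  carrier := {z | ∃ r ∈ R, ∃ a b : Gam M →₀ ℕ, z = r + lc u a + lc v b}
  zero_mem' := ⟨0, R.zero_mem, 0, 0, by simp [lc_zero]⟩
  add_mem' := by
    rintro _ _ ⟨r, hr, a, b, rfl⟩ ⟨r', hr', a', b', rfl⟩
    refine ⟨r + r', R.add_mem hr hr', a + a', b + b', ?_⟩
    rw [lc_add, lc_add]
    abel

theorem mem_adj {R : AddSubmonoid (GG M × M)} {u v : Gam M → GG M × M} {z : GG M × M} :
    z ∈ adj R u v ↔ ∃ r ∈ R, ∃ a b : Gam M →₀ ℕ, z = r + lc u a + lc v b := Iff.rfl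

theorem le_adj {R : AddSubmonoid (GG M × M)} {u v : Gam M → GG M × M} : R ≤ adj R u v := by
  intro r hr
  exact ⟨r, hr, 0, 0, by simp [lc_zero]⟩

theorem u_mem_adj {R : AddSubmonoid (GG M × M)} {u v : Gam M → GG M × M} (γ : Gam M) :
    u γ ∈ adj R u v := ⟨0, R.zero_mem, Finsupp.single γ 1, 0, by simp [lc_zero, lc_single]⟩

theorem v_mem_adj {R : AddSubmonoid (GG M × M)} {u v : Gam M → GG M × M} (γ : Gam M) :
    v γ ∈ adj R u v := ⟨0, R.zero_mem, 0, Finsupp.single γ 1, by simp [lc_zero, lc_single]⟩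

/-- coordinates of a linear combination -/
theorem lc_coord {u : Gam M → GG M × M} {c : KQ} {n : ℕ} {γ : Gam M}
    (hu1 : (u γ).1 (n, γ) = c) (hu2 : ∀ γ', γ' ≠ γ → (u γ').1 (n, γ) = 0) (a : Gam M →₀ ℕ) :
    (lc u a).1 (n, γ) = a γ • c := by
  classical
  let F : GG M × M →+ KQ := (Finsupp.applyAddHom (n, γ)).comp (AddMonoidHom.fst (GG M) M)
  have h1 : (lc u a).1 (n, γ) = F (lc u a) := rfl
  rw [h1]
  unfold lc
  rw [map_finsuppSum, Finsupp.sum, Finset.sum_eq_single γ]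
  · rw [map_nsmul]
    have h3 : F (u γ) = c := hu1
    rw [h3]
  · intro γ' _ hne
    rw [map_nsmul]
    have h3 : F (u γ') = 0 := hu2 γ' hne
    rw [h3, smul_zero]
  · intro h
    rw [Finsupp.notMem_support_iff] at h
    rw [h, zero_smul, map_zero]

theorem lc_split (u v : Gam M → GG M × M) (a b : Gam M →₀ ℕ) [DecidableEq (Gam M)] :
    lc u a + lc v b = ∑ γ ∈ a.support ∪ b.support, (a γ • u γ + b γ • v γ) := by
  rw [Finset.sum_add_distrib]
  congr 1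
  · unfold lc
    rw [Finsupp.sum_of_support_subset a Finset.subset_union_left _ (by intro i _; simp)]
  · unfold lc
    rw [Finsupp.sum_of_support_subset b Finset.subset_union_right _ (by intro i _; simp)]

/-- functions supported in ranks `≤ n` -/
def Lw (M : Type u) (n : ℕ) : AddSubgroup (GG M) where
  carrier := {y | ∀ i, n < i.1 → y i = 0}
  zero_mem' := fun _ _ => rfl
  add_mem' := fun ha hb i hi => by rw [Finsupp.add_apply, ha i hi, hb i hi, add_zero]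
  neg_mem' := fun ha i hi => by rw [Finsupp.neg_apply, ha i hi, neg_zero]

structure Good (R : AddSubmonoid (GG M × M)) (n : ℕ) : Prop where
  low : ∀ z ∈ R, z.1 ∈ Lw M n
  idem : ∀ e : M, e + e = e → (0, e) ∈ R

end

section

variable {M : Type u} [AddCommMonoid M]

/-- data: order and choice functions -/
structure Dat (M : Type u) [AddCommMonoid M] where
  dec : Gam M → (GG M × M × M)
  surj : Function.Surjective dec
  N : M → ℕ
  Npos : ∀ m, 0 < N m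
  Nid : ∀ m, N m • m + N m • m = N m • m
  o : GG M → ℕ
  opos : ∀ g, 0 < o g
  oz : ∀ g, o g • g = 0

variable (𝒟 : Dat M)

noncomputable def Dat.NN (γ : Gam M) : ℕ :=
  𝒟.o (𝒟.dec γ).1 * 𝒟.N (𝒟.dec γ).2.1 * 𝒟.N (𝒟.dec γ).2.2

theorem Dat.NNpos (γ : Gam M) : 0 < 𝒟.NN γ :=
  Nat.mul_pos (Nat.mul_pos (𝒟.opos _) (𝒟.Npos _)) (𝒟.Npos _)

open Classical in
noncomputable def Dat.u (R : AddSubmonoid (GG M × M)) (n : ℕ) (γ : Gam M) : GG M × M :=
  if ((𝒟.dec γ).1, (𝒟.dec γ).2.1 + (𝒟.dec γ).2.2) ∈ R then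
    (Finsupp.single (n + 1, γ) (fr (𝒟.NN γ)), (𝒟.dec γ).2.1) else 0

open Classical in
noncomputable def Dat.v (R : AddSubmonoid (GG M × M)) (n : ℕ) (γ : Gam M) : GG M × M :=
  if ((𝒟.dec γ).1, (𝒟.dec γ).2.1 + (𝒟.dec γ).2.2) ∈ R then
    ((𝒟.dec γ).1 - Finsupp.single (n + 1, γ) (fr (𝒟.NN γ)), (𝒟.dec γ).2.2) else 0

noncomputable def Dat.next (R : AddSubmonoid (GG M × M)) (n : ℕ) : AddSubmonoid (GG M × M) :=
  adj R (𝒟.u R n) (𝒟.v R n)

theorem single_low (n m : ℕ) (h : n ≤ m) (γ : Gam M) (c : KQ) :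
    (Finsupp.single (n, γ) c : GG M) ∈ Lw M m := by
  intro i hi
  apply Finsupp.single_eq_of_ne
  rintro rfl
  exact absurd hi (by simp; omega)

theorem Lw_mono {n m : ℕ} (h : n ≤ m) : Lw M n ≤ Lw M m := fun _ hy i hi => hy i (by omega)

theorem lc_low {u : Gam M → GG M × M} {n : ℕ} (h : ∀ γ, (u γ).1 ∈ Lw M n) (a : Gam M →₀ ℕ) :
    (lc u a).1 ∈ Lw M n := by
  unfold lc
  rw [Finsupp.sum]
  have : (∑ γ ∈ a.support, a γ • u γ).1 = ∑ γ ∈ a.support, a γ • (u γ).1 := by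
    rw [Prod.fst_sum]; rfl
  rw [this]
  exact AddSubgroup.sum_mem _ fun γ _ => AddSubgroup.nsmul_mem _ (h γ) _

theorem u_low {R : AddSubmonoid (GG M × M)} {n : ℕ} (γ : Gam M) :
    (𝒟.u R n γ).1 ∈ Lw M (n + 1) := by
  unfold Dat.u
  split_ifs
  · exact single_low _ _ le_rfl _ _
  · exact (Lw M (n + 1)).zero_mem

theorem v_low {R : AddSubmonoid (GG M × M)} {n : ℕ} (hR : Good R n) (γ : Gam M) :
    (𝒟.v R n γ).1 ∈ Lw M (n + 1) := by
  unfold Dat.v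
  split_ifs with h
  · exact AddSubgroup.sub_mem _ (Lw_mono (Nat.le_succ n) (hR.low _ h)) (single_low _ _ le_rfl _ _)
  · exact (Lw M (n + 1)).zero_mem

theorem good_next {R : AddSubmonoid (GG M × M)} {n : ℕ} (hR : Good R n) :
    Good (𝒟.next R n) (n + 1) := by
  constructor
  · rintro z ⟨r, hr, a, b, rfl⟩
    exact AddSubgroup.add_mem _ (AddSubgroup.add_mem _ (Lw_mono (Nat.le_succ n) (hR.low r hr))
      (lc_low (u_low 𝒟) a)) (lc_low (v_low 𝒟 hR) b)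
  · intro e he
    exact le_adj (hR.idem e he)

/-- conservativity -/
theorem conserv {R : AddSubmonoid (GG M × M)} {n : ℕ} (hR : Good R n) {z : GG M × M}
    (hz : z ∈ 𝒟.next R n) (hlow : z.1 ∈ Lw M n) : z ∈ R := by
  classical
  obtain ⟨r, hr, a, b, rfl⟩ := hz
  rw [add_assoc, lc_split]
  apply R.add_mem hr
  apply AddSubmonoid.sum_mem
  intro γ _
  by_cases hact : ((𝒟.dec γ).1, (𝒟.dec γ).2.1 + (𝒟.dec γ).2.2) ∈ R
  swap
  · have e1 : 𝒟.u R n γ = 0 := if_neg hact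
    have e2 : 𝒟.v R n γ = 0 := if_neg hact
    rw [e1, e2, smul_zero, smul_zero, add_zero]; exact R.zero_mem
  have e1 : 𝒟.u R n γ = (Finsupp.single (n + 1, γ) (fr (𝒟.NN γ)), (𝒟.dec γ).2.1) := if_pos hact
  have e2 : 𝒟.v R n γ = ((𝒟.dec γ).1 - Finsupp.single (n + 1, γ) (fr (𝒟.NN γ)),
    (𝒟.dec γ).2.2) := if_pos hact
  -- the coordinate
  have hcu1 : (𝒟.u R n γ).1 (n + 1, γ) = fr (𝒟.NN γ) := by
    rw [e1]; simp
  have hcu2 : ∀ γ', γ' ≠ γ → (𝒟.u R n γ').1 (n + 1, γ) = 0 := by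
    intro γ' h
    unfold Dat.u
    split_ifs
    · apply Finsupp.single_eq_of_ne
      intro h'; exact h (Prod.ext_iff.1 h').2.symm
    · rfl
  have hcv1 : (𝒟.v R n γ).1 (n + 1, γ) = -fr (𝒟.NN γ) := by
    rw [e2, Finsupp.sub_apply, hR.low _ hact (n + 1, γ) (Nat.lt_succ_self n)]
    simp
  have hcv2 : ∀ γ', γ' ≠ γ → (𝒟.v R n γ').1 (n + 1, γ) = 0 := by
    intro γ' h
    unfold Dat.v
    split_ifs with h5
    · rw [Finsupp.sub_apply, hR.low _ h5 (n + 1, γ) (Nat.lt_succ_self n), zero_sub, neg_eq_zero]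
      apply Finsupp.single_eq_of_ne
      intro h'; exact h (Prod.ext_iff.1 h').2.symm
    · rfl
  have h1 : a γ • fr (𝒟.NN γ) + b γ • (-fr (𝒟.NN γ)) = 0 := by
    have h2 := hlow (n + 1, γ) (Nat.lt_succ_self n)
    have h3 : ((r + lc (𝒟.u R n) a + lc (𝒟.v R n) b).1 : GG M) (n + 1, γ) =
      r.1 (n + 1, γ) + (lc (𝒟.u R n) a).1 (n + 1, γ) + (lc (𝒟.v R n) b).1 (n + 1, γ) := rfl
    rw [h3, hR.low r hr (n + 1, γ) (Nat.lt_succ_self n), zero_add,
      lc_coord hcu1 hcu2, lc_coord hcv1 hcv2] at h2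
    exact h2
  have h2 : ((𝒟.NN γ : ℕ) : ℤ) ∣ (a γ : ℤ) - b γ := by
    apply fr_zsmul (𝒟.NNpos γ)
    rw [sub_smul, natCast_zsmul, natCast_zsmul]
    rw [smul_neg] at h1
    rw [sub_eq_add_neg]; exact h1
  rw [e1, e2]
  -- compute the sum
  obtain ⟨y, hy⟩ : ∃ y, y = (𝒟.dec γ).1 := ⟨_, rfl⟩
  obtain ⟨s, hs⟩ : ∃ s, s = (𝒟.dec γ).2.1 := ⟨_, rfl⟩
  obtain ⟨t, ht⟩ : ∃ t, t = (𝒟.dec γ).2.2 := ⟨_, rfl⟩
  have hNN : 𝒟.NN γ = 𝒟.o y * 𝒟.N s * 𝒟.N t := by rw [hy, hs, ht]; rfl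
  rw [← hy, ← hs, ← ht] at hact ⊢
  have hg : (a γ) • (Finsupp.single (n + 1, γ) (fr (𝒟.NN γ)) : GG M) =
      (b γ) • (Finsupp.single (n + 1, γ) (fr (𝒟.NN γ)) : GG M) := by
    rw [Finsupp.smul_single, Finsupp.smul_single]
    congr 1
    rw [smul_neg] at h1
    exact add_neg_eq_zero.1 h1
  have htot : (a γ) • ((Finsupp.single (n + 1, γ) (fr (𝒟.NN γ)) : GG M), s) +
      (b γ) • (y - (Finsupp.single (n + 1, γ) (fr (𝒟.NN γ)) : GG M), t) =
      ((b γ) • y, (a γ) • s + (b γ) • t) := by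
    apply Prod.ext
    · show (a γ) • (Finsupp.single (n + 1, γ) (fr (𝒟.NN γ)) : GG M) +
        (b γ) • (y - (Finsupp.single (n + 1, γ) (fr (𝒟.NN γ)) : GG M)) = (b γ) • y
      rw [hg, smul_sub]; abel
    · rfl
  rw [htot]
  rcases le_total (b γ) (a γ) with hab | hab
  · obtain ⟨k, hk⟩ : ∃ k, a γ = b γ + k * 𝒟.NN γ := by
      obtain ⟨c, hc⟩ := h2
      have hNp : (0 : ℤ) < 𝒟.NN γ := by exact_mod_cast 𝒟.NNpos γ
      have hc0 : 0 ≤ c := by
        have h3 : (0:ℤ) ≤ (𝒟.NN γ : ℤ) * c := by rw [← hc]; omega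
        nlinarith
      obtain ⟨k, rfl⟩ := Int.eq_ofNat_of_zero_le hc0
      refine ⟨k, ?_⟩
      have : (a γ : ℤ) = b γ + k * 𝒟.NN γ := by linarith
      exact_mod_cast this
    have e3 : ((b γ) • y, (a γ) • s + (b γ) • t) =
        (b γ) • (y, s + t) + ((0 : GG M), (k * 𝒟.NN γ) • s) := by
      apply Prod.ext
      · show (b γ) • y = (b γ) • y + 0
        rw [add_zero]
      · show (a γ) • s + (b γ) • t = (b γ) • (s + t) + (k * 𝒟.NN γ) • s
        rw [hk, add_smul, smul_add]; abel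
    rw [e3]
    refine R.add_mem (R.nsmul_mem hact _) (hR.idem _ ?_)
    have e4 : k * 𝒟.NN γ = (k * (𝒟.o y * 𝒟.N t)) * 𝒟.N s := by rw [hNN]; ring
    rw [e4]
    exact idem_mul (𝒟.Nid s) _
  · obtain ⟨k, hk⟩ : ∃ k, b γ = a γ + k * 𝒟.NN γ := by
      obtain ⟨c, hc⟩ := h2
      have hNp : (0 : ℤ) < 𝒟.NN γ := by exact_mod_cast 𝒟.NNpos γ
      have hc0 : 0 ≤ -c := by
        have h3 : (𝒟.NN γ : ℤ) * c ≤ 0 := by rw [← hc]; omega
        nlinarith
      obtain ⟨k, hk⟩ := Int.eq_ofNat_of_zero_le hc0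
      refine ⟨k, ?_⟩
      have hck : c = -(k:ℤ) := by
        have : -c = (k:ℤ) := hk
        linarith
      have : (b γ : ℤ) = a γ + k * 𝒟.NN γ := by rw [hck] at hc; linarith
      exact_mod_cast this
    have e3 : ((b γ) • y, (a γ) • s + (b γ) • t) =
        (a γ) • (y, s + t) + ((0 : GG M), (k * 𝒟.NN γ) • t) := by
      apply Prod.ext
      · show (b γ) • y = (a γ) • y + 0
        rw [hk, add_smul, add_zero]
        have : k * 𝒟.NN γ = (k * (𝒟.N s * 𝒟.N t)) * 𝒟.o y := by rw [hNN]; ring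
        rw [this, mul_smul, 𝒟.oz, smul_zero, add_zero]
      · show (a γ) • s + (b γ) • t = (a γ) • (s + t) + (k * 𝒟.NN γ) • t
        rw [hk, add_smul, smul_add]; abel
    rw [e3]
    refine R.add_mem (R.nsmul_mem hact _) (hR.idem _ ?_)
    have e4 : k * 𝒟.NN γ = (k * (𝒟.o y * 𝒟.N s)) * 𝒟.N t := by rw [hNN]; ring
    rw [e4]
    exact idem_mul (𝒟.Nid t) _

/-- factorisation at the next stage -/
theorem factor_next {R : AddSubmonoid (GG M × M)} {n : ℕ} {y : GG M} {s t : M}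
    (h : (y, s + t) ∈ R) : ∃ g : GG M, (g, s) ∈ 𝒟.next R n ∧ (y - g, t) ∈ 𝒟.next R n := by
  obtain ⟨γ, hγ⟩ := 𝒟.surj (y, s, t)
  have hact : ((𝒟.dec γ).1, (𝒟.dec γ).2.1 + (𝒟.dec γ).2.2) ∈ R := by rw [hγ]; exact h
  have e1 : 𝒟.u R n γ = (Finsupp.single (n + 1, γ) (fr (𝒟.NN γ)), (𝒟.dec γ).2.1) := if_pos hact
  have e2 : 𝒟.v R n γ = ((𝒟.dec γ).1 - Finsupp.single (n + 1, γ) (fr (𝒟.NN γ)),
    (𝒟.dec γ).2.2) := if_pos hact
  refine ⟨Finsupp.single (n + 1, γ) (fr (𝒟.NN γ)), ?_, ?_⟩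
  · have := u_mem_adj (R := R) (u := 𝒟.u R n) (v := 𝒟.v R n) γ
    rw [e1, hγ] at this; exact this
  · have := v_mem_adj (R := R) (u := 𝒟.u R n) (v := 𝒟.v R n) γ
    rw [e2, hγ] at this; exact this

/-- the base stage -/
noncomputable def Dat.u0 (γ : Gam M) : GG M × M :=
  match γ with
  | Sum.inl s => (Finsupp.single (0, Sum.inl s) (fr (2 * 𝒟.N s)), s)
  | Sum.inr _ => 0

noncomputable def Dat.R0 : AddSubmonoid (GG M × M) where
  carrier := {z | ∃ e : M, e + e = e ∧ ∃ a : Gam M →₀ ℕ, z = (0, e) + lc 𝒟.u0 a}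
  zero_mem' := ⟨0, by simp, 0, by rw [lc_zero, add_zero]; rfl⟩
  add_mem' := by
    rintro _ _ ⟨e, he, a, rfl⟩ ⟨e', he', a', rfl⟩
    refine ⟨e + e', idem_add he he', a + a', ?_⟩
    rw [lc_add]
    have : ((0 : GG M), e + e') = (0, e) + (0, e') := by simp
    rw [this]
    abel

noncomputable def Dat.x (s : M) : GG M := Finsupp.single (0, Sum.inl s) (fr (2 * 𝒟.N s))

theorem x_mem (s : M) : (𝒟.x s, s) ∈ 𝒟.R0 := by
  refine ⟨0, by simp, Finsupp.single (Sum.inl s) 1, ?_⟩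
  rw [lc_single]
  show _ = ((0 : GG M), (0:M)) + (Finsupp.single (0, Sum.inl s) (fr (2 * 𝒟.N s)), s)
  simp [Dat.x]

theorem good_R0 : Good 𝒟.R0 0 := by
  constructor
  · rintro z ⟨e, he, a, rfl⟩
    refine AddSubgroup.add_mem _ (AddSubgroup.zero_mem _) (lc_low ?_ a)
    rintro (s | k)
    · exact single_low _ _ le_rfl _ _
    · exact AddSubgroup.zero_mem _
  · intro e he
    exact ⟨e, he, 0, by rw [lc_zero, add_zero]⟩

theorem x_sep (s t : M) (h : (𝒟.x s, t) ∈ 𝒟.R0) : ∃ e, e + e = e ∧ t = s + e := by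
  classical
  obtain ⟨e, he, a, hz⟩ := h
  -- coordinates
  have hcc : ∀ s', a (Sum.inl s') • fr (2 * 𝒟.N s') = 𝒟.x s (0, Sum.inl s') := by
    intro s'
    have hu1 : (𝒟.u0 (Sum.inl s')).1 (0, Sum.inl s') = fr (2 * 𝒟.N s') := by
      show (Finsupp.single (0, Sum.inl s') (fr (2 * 𝒟.N s')) : GG M) (0, Sum.inl s') = _
      simp
    have hu2 : ∀ γ', γ' ≠ Sum.inl s' → (𝒟.u0 γ').1 (0, Sum.inl s') = 0 := by
      rintro (s'' | k) h
      · show (Finsupp.single (0, Sum.inl s'') (fr (2 * 𝒟.N s'')) : GG M) (0, Sum.inl s') = _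
        apply Finsupp.single_eq_of_ne
        intro h'
        exact h (Prod.ext_iff.1 h').2.symm
      · rfl
    have h1 := lc_coord hu1 hu2 a
    rw [← h1]
    have h2 := congrArg (fun z : GG M × M => z.1 (0, Sum.inl s')) hz
    have h3 : 𝒟.x s (0, Sum.inl s') = 0 + (lc 𝒟.u0 a).1 (0, Sum.inl s') := h2
    rw [zero_add] at h3
    rw [← h3]
  have hc1 : a (Sum.inl s) • fr (2 * 𝒟.N s) = fr (2 * 𝒟.N s) := by
    rw [hcc s]; unfold Dat.x; simp
  have hc2 : ∀ s', s' ≠ s → a (Sum.inl s') • fr (2 * 𝒟.N s') = 0 := by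
    intro s' h
    rw [hcc s']; unfold Dat.x
    apply Finsupp.single_eq_of_ne
    intro h'
    exact h (Sum.inl_injective (Prod.ext_iff.1 h').2)
  have ht : t = e + (lc 𝒟.u0 a).2 := congrArg Prod.snd hz
  have hsum : (lc 𝒟.u0 a).2 = ∑ γ ∈ insert (Sum.inl s) a.support, a γ • (𝒟.u0 γ).2 := by
    unfold lc
    rw [Finsupp.sum_of_support_subset a (Finset.subset_insert _ _) _ (by intro i _; simp),
      Prod.snd_sum]
    rfl
  rw [← Finset.add_sum_erase _ _ (Finset.mem_insert_self _ _)] at hsum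
  -- the coefficient of s
  have hs1 := hc1
  have hNp : 0 < 2 * 𝒟.N s := by have := 𝒟.Npos s; omega
  have hdv : ((2 * 𝒟.N s : ℕ) : ℤ) ∣ (a (Sum.inl s) : ℤ) - 1 := by
    apply fr_zsmul hNp
    rw [sub_smul, one_smul, natCast_zsmul, hs1, sub_self]
  obtain ⟨k, hk⟩ : ∃ k : ℕ, a (Sum.inl s) = 1 + k * (2 * 𝒟.N s) := by
    obtain ⟨c, hc'⟩ := hdv
    have hN2 : (2:ℤ) ≤ (2 * 𝒟.N s : ℕ) := by
      have := 𝒟.Npos s; omega
    have hc0 : 0 ≤ c := by
      by_contra hneg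
      push Not at hneg
      have : (a (Sum.inl s) : ℤ) = 1 + ((2 * 𝒟.N s : ℕ) : ℤ) * c := by linarith
      have h0 : (0:ℤ) ≤ (a (Sum.inl s) : ℤ) := Int.natCast_nonneg _
      nlinarith
    obtain ⟨k, rfl⟩ := Int.eq_ofNat_of_zero_le hc0
    refine ⟨k, ?_⟩
    have : (a (Sum.inl s) : ℤ) = 1 + k * ((2 * 𝒟.N s : ℕ) : ℤ) := by linarith
    exact_mod_cast this
  refine ⟨e + ((k * 2) * 𝒟.N s) • s + ∑ γ ∈ (insert (Sum.inl s) a.support).erase (Sum.inl s),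
    a γ • (𝒟.u0 γ).2, ?_, ?_⟩
  · apply idem_add (idem_add he (idem_mul (𝒟.Nid s) _))
    apply idem_sum
    rintro (s' | k') hγ
    · have hne : s' ≠ s := fun h => (Finset.mem_erase.1 hγ).1 (by rw [h])
      have h1 := hc2 s' hne
      have hNp' : 0 < 2 * 𝒟.N s' := by have := 𝒟.Npos s'; omega
      have h2 : ((2 * 𝒟.N s' : ℕ) : ℤ) ∣ (a (Sum.inl s') : ℤ) := by
        apply fr_zsmul hNp'
        rw [natCast_zsmul, h1]
      have h3 : 2 * 𝒟.N s' ∣ a (Sum.inl s') := by exact_mod_cast h2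
      obtain ⟨c, hc'⟩ := h3
      rw [hc']
      have e5 : 2 * 𝒟.N s' * c = (2 * c) * 𝒟.N s' := by ring
      rw [e5]
      exact idem_mul (𝒟.Nid s') _
    · show a (Sum.inr k') • (0:M) + a (Sum.inr k') • (0:M) = a (Sum.inr k') • (0:M)
      simp
  · rw [ht, hsum, hk]
    show e + ((1 + k * (2 * 𝒟.N s)) • s + _) = _
    rw [add_smul, one_smul]
    have : k * (2 * 𝒟.N s) = k * 2 * 𝒟.N s := by ring
    rw [this]
    abel

/-- all the stages -/
noncomputable def Dat.RS : ℕ → AddSubmonoid (GG M × M)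
  | 0 => 𝒟.R0
  | n + 1 => 𝒟.next (Dat.RS n) n

theorem good_RS (n : ℕ) : Good (𝒟.RS n) n := by
  induction n with
  | zero => exact good_R0 𝒟
  | succ n ih => exact good_next 𝒟 ih

theorem RS_mono : Monotone 𝒟.RS := monotone_nat_of_le_succ fun _ => le_adj

theorem RS_base {z : GG M × M} (hz : z.1 ∈ Lw M 0) (n : ℕ) (h : z ∈ 𝒟.RS n) : z ∈ 𝒟.R0 := by
  induction n with
  | zero => exact h
  | succ n ih => exact ih (conserv 𝒟 (good_RS 𝒟 n) h (Lw_mono (Nat.zero_le n) hz))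

end

/-- The main additive statement. -/
theorem main_add {M : Type u} [AddCommMonoid M] (hper : ∀ m : M, ∃ n : ℕ, 0 < n ∧
    n • m + n • m = n • m) : ∃ (R : AddSubmonoid (GG M × M)) (x : M → GG M),
      (∀ s, (x s, s) ∈ R) ∧
      (∀ y s t, (y, s + t) ∈ R → ∃ g, (g, s) ∈ R ∧ (y - g, t) ∈ R) ∧
      (∀ s t, (x s, t) ∈ R → ∃ e, e + e = e ∧ t = s + e) := by
  obtain ⟨dec, hdec⟩ := exists_dec M
  choose N hN using hper
  choose o ho using (fin_torsion (I := ℕ × Gam M))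
  let 𝒟 : Dat M :=
    { dec := dec, surj := hdec, N := N, Npos := fun m => (hN m).1, Nid := fun m => (hN m).2,
      o := o, opos := fun g => (ho g).1, oz := fun g => (ho g).2 }
  have hdir : Directed (· ≤ ·) 𝒟.RS := (RS_mono 𝒟).directed_le
  refine ⟨⨆ n, 𝒟.RS n, 𝒟.x, ?_, ?_, ?_⟩
  · intro s
    exact (AddSubmonoid.mem_iSup_of_directed hdir).2 ⟨0, x_mem 𝒟 s⟩
  · intro y s t h
    obtain ⟨n, hn⟩ := (AddSubmonoid.mem_iSup_of_directed hdir).1 h
    obtain ⟨g, h1, h2⟩ := factor_next 𝒟 (n := n) hn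
    exact ⟨g, (AddSubmonoid.mem_iSup_of_directed hdir).2 ⟨n + 1, h1⟩,
      (AddSubmonoid.mem_iSup_of_directed hdir).2 ⟨n + 1, h2⟩⟩
  · intro s t h
    obtain ⟨n, hn⟩ := (AddSubmonoid.mem_iSup_of_directed hdir).1 h
    exact x_sep 𝒟 s t (RS_base 𝒟 (single_low 0 0 le_rfl _ _) n hn)

end Pool.Agent.H17.Pw
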