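import Pool.Agent.H17.Pw2

set_option autoImplicit false

namespace Pool.Agent.H17.Pw

universe u

theorem idem_of_period {M : Type u} [AddCommMonoid M] {m : M} {i p : ℕ} (hi : 0 < i) (hp : 0 < p)
    (h : i • m = (i + p) • m) : ∃ n : ℕ, 0 < n ∧ n • m + n • m = n • m := by
  have h1 : ∀ k, i ≤ k → k • m = (k + p) • m := by
    intro k hk
    obtain ⟨c, rfl⟩ := Nat.exists_eq_add_of_le hk
    have e : i + c + p = (i + p) + c := by ring
    rw [e, add_smul, add_smul (i + p), h]
  have h2 : ∀ q k, i ≤ k → k • m = (k + q * p) • m := by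
    intro q
    induction q with
    | zero => intro k _; simp
    | succ q ih =>
      intro k hk
      rw [ih k hk, h1 (k + q * p) (by omega)]
      congr 1
      ring
  refine ⟨i * p, Nat.mul_pos hi hp, ?_⟩
  have h3 := h2 i (i * p) (Nat.le_mul_of_pos_right i hp)
  rw [add_smul] at h3
  exact h3.symm

def pw {S : Type u} [Semigroup S] (s : S) : ℕ → S
  | 0 => s
  | k + 1 => pw s k * s

theorem pw_mem {S : Type u} [Semigroup S] (s : S) (k : ℕ) :
    pw s k ∈ Subsemigroup.closure ({s} : Set S) := by
  induction k with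
  | zero => exact Subsemigroup.subset_closure rfl
  | succ k ih => exact Subsemigroup.mul_mem _ ih (Subsemigroup.subset_closure rfl)

theorem smul_eq_pw {S : Type u} [CommSemigroup S] (s : S) (k : ℕ) :
    (k + 1) • (Additive.ofMul (s : WithOne S)) = Additive.ofMul ((pw s k : S) : WithOne S) := by
  induction k with
  | zero => simp [pw]
  | succ k ih =>
    rw [add_smul (k + 1), ih, one_smul]
    rfl

theorem per_withOne {S : Type u} [CommSemigroup S]
    (hS : ∀ a : S, ((Subsemigroup.closure ({a} : Set S) : Subsemigroup S) : Set S).Finite)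
    (m : Additive (WithOne S)) : ∃ n : ℕ, 0 < n ∧ n • m + n • m = n • m := by
  have hcase : m.toMul = 1 ∨ ∃ s : S, m.toMul = (s : WithOne S) := by
    rcases eq_or_ne m.toMul 1 with h | h
    · exact Or.inl h
    · obtain ⟨s, hs⟩ := WithOne.ne_one_iff_exists.1 h
      exact Or.inr ⟨s, hs.symm⟩
  rcases hcase with h | ⟨s, h⟩
  · refine ⟨1, one_pos, ?_⟩
    have : m = 0 := h
    rw [this]; simp
  · have hm : m = Additive.ofMul (s : WithOne S) := h
    have hfin : (Set.range (pw s)).Finite := (hS s).subset (by
      rintro _ ⟨k, rfl⟩; exact pw_mem s k)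
    have hninj : ¬ Function.Injective (pw s) := fun hinj =>
      Set.infinite_range_of_injective hinj hfin
    unfold Function.Injective at hninj
    push Not at hninj
    obtain ⟨a, b, hab, hne⟩ := hninj
    wlog hlt : a < b generalizing a b
    · exact this b a hab.symm (Ne.symm hne) (by omega)
    obtain ⟨p, hp⟩ := Nat.exists_eq_add_of_lt hlt
    refine idem_of_period (i := a + 1) (p := p + 1) (Nat.succ_pos a) (Nat.succ_pos p) ?_
    have e : a + 1 + (p + 1) = b + 1 := by omega
    rw [e, hm, smul_eq_pw, smul_eq_pw, hab]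

theorem mainPw {S : Type u} [CommSemigroup S]
    (hS : ∀ a : S, ((Subsemigroup.closure ({a} : Set S) : Subsemigroup S) : Set S).Finite) :
    ∃ (G : Type u) (_ : CommGroup G) (φ : S → Set G), (∀ g : G, IsOfFinOrder g) ∧
      Function.Injective φ ∧ (∀ s, (φ s).Nonempty) ∧
      ∀ s t, φ (s * t) = {x | ∃ a ∈ φ s, ∃ b ∈ φ t, x = a * b} := by
  obtain ⟨R, x, hx, hfac, hsep⟩ := main_add (M := Additive (WithOne S)) (per_withOne hS)
  refine ⟨Multiplicative (GG (Additive (WithOne S))), inferInstance,
    fun s => {g | (g.toAdd, Additive.ofMul (s : WithOne S)) ∈ R}, ?_, ?_, ?_, ?_⟩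
  · intro g
    obtain ⟨n, hn, h⟩ := fin_torsion g.toAdd
    rw [isOfFinOrder_iff_pow_eq_one]
    exact ⟨n, hn, h⟩
  · intro s t hst
    beta_reduce at hst
    have h1 : (x (Additive.ofMul (s : WithOne S)), Additive.ofMul (t : WithOne S)) ∈ R := by
      have h2 : Multiplicative.ofAdd (x (Additive.ofMul (s : WithOne S))) ∈
        {g : Multiplicative (GG (Additive (WithOne S))) |
          (g.toAdd, Additive.ofMul (s : WithOne S)) ∈ R} := hx _
      rw [hst] at h2
      exact h2
    have h1' : (x (Additive.ofMul (t : WithOne S)), Additive.ofMul (s : WithOne S)) ∈ R := by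
      have h2 : Multiplicative.ofAdd (x (Additive.ofMul (t : WithOne S))) ∈
        {g : Multiplicative (GG (Additive (WithOne S))) |
          (g.toAdd, Additive.ofMul (t : WithOne S)) ∈ R} := hx _
      rw [← hst] at h2
      exact h2
    obtain ⟨e, he, h3⟩ := hsep _ _ h1
    obtain ⟨f, hf, h4⟩ := hsep _ _ h1'
    -- t = s + e, s = t + f
    have h5 : (Additive.ofMul (s : WithOne S)) = Additive.ofMul (t : WithOne S) := by
      have h6 : (Additive.ofMul (s : WithOne S)) = Additive.ofMul (s : WithOne S) + e + f := by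
        rw [← h3]; exact h4
      calc (Additive.ofMul (s : WithOne S)) = Additive.ofMul (s : WithOne S) + e + f := h6
        _ = Additive.ofMul (s : WithOne S) + (e + e) + f := by rw [he]
        _ = (Additive.ofMul (s : WithOne S) + e + f) + e := by abel
        _ = Additive.ofMul (s : WithOne S) + e := by rw [← h6]
        _ = Additive.ofMul (t : WithOne S) := h3.symm
    exact WithOne.coe_inj.1 h5
  · intro s
    exact ⟨Multiplicative.ofAdd (x (Additive.ofMul (s : WithOne S))), hx _⟩
  · intro s t
    ext g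
    constructor
    · intro h
      have h1 : (g.toAdd, Additive.ofMul (s : WithOne S) + Additive.ofMul (t : WithOne S)) ∈ R := h
      obtain ⟨a, ha, hb⟩ := hfac _ _ _ h1
      refine ⟨Multiplicative.ofAdd a, ha, Multiplicative.ofAdd (g.toAdd - a), hb, ?_⟩
      rw [← ofAdd_add, add_sub_cancel]
      rfl
    · rintro ⟨a, ha, b, hb, rfl⟩
      have h1 := R.add_mem ha hb
      exact h1

end Pool.Agent.H17.Pw
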