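import Mathlib

set_option autoImplicit false

namespace Pool.Agent.H17.RA

/-! ## success probabilities -/

noncomputable def qq (w : ℕ) (p : ℝ) : ℝ := (w:ℝ) * p * (1 - p)^(w-1)

lemma pow_inv_bound (p : ℝ) (hp : 0 ≤ p) (hp1 : p ≤ 1) (n : ℕ) : (1 - p)^n * (1 + n * p) ≤ 1 := by
  have h1 : 1 + (n:ℝ) * p ≤ (1 + p)^n := one_add_mul_le_pow (by linarith) n
  have h2 : 0 ≤ (1-p)^n := pow_nonneg (by linarith) n
  calc (1 - p)^n * (1 + n * p) ≤ (1-p)^n * (1+p)^n := by gcongr
    _ = ((1-p)*(1+p))^n := by rw [mul_pow]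
    _ ≤ 1 := by
        apply pow_le_one₀
        · nlinarith
        · nlinarith

lemma qq_zero (p : ℝ) : qq 0 p = 0 := by simp [qq]

lemma qq_nonneg (w : ℕ) (p : ℝ) (hp : 0 ≤ p) (hp1 : p ≤ 1) : 0 ≤ qq w p := by
  unfold qq
  have : 0 ≤ (1-p)^(w-1) := pow_nonneg (by linarith) _
  positivity

lemma qq_le_one (w : ℕ) (p : ℝ) (hp : 0 ≤ p) (hp1 : p ≤ 1) : qq w p ≤ 1 := by
  rcases Nat.eq_zero_or_pos w with rfl | hw
  · simp [qq]
  · obtain ⟨n, rfl⟩ : ∃ n, w = n + 1 := ⟨w - 1, by omega⟩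
    unfold qq
    rw [Nat.add_sub_cancel]
    have h := pow_inv_bound p hp hp1 n
    have h2 : 0 ≤ (1-p)^n := pow_nonneg (by linarith) n
    push_cast
    calc ((n:ℝ)+1) * p * (1-p)^n = (1-p)^n * ((n+1)*p) := by ring
      _ ≤ (1-p)^n * (1 + n * p) := by
          apply mul_le_mul_of_nonneg_left _ h2
          nlinarith
      _ ≤ 1 := h

lemma qq_le (w : ℕ) (p : ℝ) (hp : 0 ≤ p) (hp1 : p ≤ 1) : qq w p ≤ w * p := by
  unfold qq
  have h1 : (1-p)^(w-1) ≤ 1 := pow_le_one₀ (by linarith) (by linarith)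
  have : 0 ≤ (w:ℝ) * p := by positivity
  nlinarith

lemma qq_far (w : ℕ) (p : ℝ) (hp : 0 < p) (hp1 : p ≤ 1) (hw : 2 ≤ w) : qq w p ≤ 48 / ((w:ℝ) * p)^2 := by
  unfold qq
  have hwr : (2:ℝ) ≤ w := by exact_mod_cast hw
  obtain ⟨n, rfl⟩ : ∃ n, w = n + 1 := ⟨w - 1, by omega⟩
  rw [Nat.add_sub_cancel]
  push_cast at hwr ⊢
  have h1 : (1-p)^n ≤ Real.exp (-(n * p)) := by
    calc (1-p)^n ≤ (Real.exp (-p))^n := by
          apply pow_le_pow_left₀ (by linarith)
          exact Real.one_sub_le_exp_neg p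
      _ = Real.exp (-(n * p)) := by rw [← Real.exp_nat_mul]; congr 1; ring
  have hx : 0 < (n:ℝ) * p := by
    have : (0:ℝ) < n := by linarith
    positivity
  have h2 : ((n:ℝ) * p)^3 / 6 ≤ Real.exp (n * p) := by
    have := Real.pow_div_factorial_le_exp (x := (n:ℝ) * p) hx.le 3
    simpa [Nat.factorial] using this
  have h3 : Real.exp (-(n*p)) ≤ 6 / ((n:ℝ)*p)^3 := by
    rw [Real.exp_neg, inv_le_comm₀ (Real.exp_pos _) (by positivity)]
    rw [inv_div]; exact h2
  have hy : ((n:ℝ)+1) * p ≤ 2 * (n * p) := by nlinarith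
  have hy0 : 0 < ((n:ℝ)+1) * p := by positivity
  set x := (n:ℝ) * p with hxdef
  set y := ((n:ℝ)+1) * p with hydef
  calc y * (1-p)^n ≤ y * (6 / x^3) := by
        apply mul_le_mul_of_nonneg_left _ hy0.le
        exact h1.trans h3
    _ ≤ 48 / y^2 := by
        have hyx : y / 2 ≤ x := by linarith
        have h4 : (y/2)^3 ≤ x^3 := pow_le_pow_left₀ (by positivity) hyx 3
        have h5 : 6 / x^3 ≤ 6 / (y/2)^3 := by
          apply div_le_div_of_nonneg_left (by norm_num) (by positivity) h4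
        calc y * (6/x^3) ≤ y * (6 / (y/2)^3) := by gcongr
          _ = 48 / y^2 := by field_simp; ring

lemma qq_low (w : ℕ) (p z0 z1 : ℝ) (hp : 0 < p) (hp1 : p ≤ 1/4) (h0 : 0 ≤ z0) (hz0 : z0 ≤ w * p) (hz1 : w * p ≤ z1) :
    z0 * Real.exp (-2*z1) ≤ qq w p := by
  unfold qq
  have h1 : Real.exp (-2*p) ≤ 1 - p := by
    have h : 1 + 2 * p ≤ Real.exp (2*p) := by
      have := Real.add_one_le_exp (2*p); linarith
    have e : Real.exp (-2*p) = (Real.exp (2*p))⁻¹ := by rw [← Real.exp_neg]; congr 1; ring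
    rw [e, inv_le_comm₀ (Real.exp_pos _) (by linarith)]
    refine le_trans ?_ h
    rw [inv_le_iff_one_le_mul₀ (by linarith)]
    nlinarith
  have h2 : Real.exp (-2*z1) ≤ (1-p)^(w-1) := by
    calc Real.exp (-2*z1) ≤ Real.exp (-2*(w*p)) := by
          apply Real.exp_le_exp.mpr; linarith
      _ = (Real.exp (-2*p))^w := by rw [← Real.exp_nat_mul]; congr 1; ring
      _ ≤ (1-p)^w := pow_le_pow_left₀ (Real.exp_pos _).le h1 w
      _ ≤ (1-p)^(w-1) := pow_le_pow_of_le_one (by linarith) (by linarith) (Nat.sub_le _ _)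
  have h3 : 0 < Real.exp (-2*z1) := Real.exp_pos _
  calc z0 * Real.exp (-2*z1) ≤ (w*p) * Real.exp (-2*z1) := by gcongr
    _ ≤ (w*p) * (1-p)^(w-1) := by
        apply mul_le_mul_of_nonneg_left h2; linarith

lemma qq_diff (w : ℕ) (p : ℝ) (hp : 0 ≤ p) (hp1 : p ≤ 1/4) : qq w p - qq (w+1) p ≤ 2 * p := by
  rcases Nat.eq_zero_or_pos w with rfl | hw
  · rw [qq_zero]
    have := qq_nonneg (0+1) p hp (by linarith)
    linarith
  · obtain ⟨n, rfl⟩ : ∃ n, w = n + 1 := ⟨w - 1, by omega⟩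
    unfold qq
    rw [Nat.add_sub_cancel, Nat.add_sub_cancel, pow_succ]
    have h := pow_inv_bound p hp (by linarith) n
    have h2 : 0 ≤ (1-p)^n := pow_nonneg (by linarith) n
    have h3 : (1-p)^n ≤ 1 := pow_le_one₀ (by linarith) (by linarith)
    push_cast
    set X := (1-p)^n with hX
    have e : ((n:ℝ)+1) * p * X - ((n:ℝ)+1+1) * p * (X * (1-p)) = p * (X * ((n+2)*p - 1)) := by ring
    rw [e]
    have h4 : X * ((n+2)*p - 1) ≤ 2 := by nlinarith
    nlinarith

/-! ## levels -/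

noncomputable def lev (n : ℕ) : ℕ := padicValNat 2 (n+1)

lemma lev_dvd (n : ℕ) : 2^(lev n) ∣ n + 1 := pow_padicValNat_dvd

lemma lev_iff (n k : ℕ) : lev n = k ↔ (2^k ∣ n+1 ∧ ¬ 2^(k+1) ∣ n+1) := by
  unfold lev
  constructor
  · rintro rfl
    exact ⟨pow_padicValNat_dvd, pow_succ_padicValNat_not_dvd (by omega)⟩
  · rintro ⟨h1, h2⟩
    have h3 := (padicValNat_dvd_iff_le (p := 2) (a := n+1) (n := k) (by omega)).mp h1
    have h4 : ¬ (k + 1 ≤ padicValNat 2 (n+1)) := fun h => h2 ((padicValNat_dvd_iff_le (p := 2) (a := n+1) (n := k+1) (by omega)).mpr h)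
    omega

lemma lev_of_mod (n k : ℕ) (h : (n+1) % 2^(k+1) = 2^k) : lev n = k := by
  rw [lev_iff]
  constructor
  · have h1 : 2^k ∣ 2^(k+1) := pow_dvd_pow 2 (by omega)
    have h2 := Nat.div_add_mod (n+1) (2^(k+1))
    rw [h] at h2
    rw [← h2]
    exact dvd_add (h1.mul_right _) dvd_rfl
  · intro h1
    have h2 := Nat.mod_eq_zero_of_dvd h1
    rw [h] at h2
    have : 0 < 2^k := by positivity
    omega

lemma exists_visit (a n : ℕ) : ∃ t, t < 2^(a+1) ∧ lev (n+t) = a := by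
  have h2 : (2:ℕ)^(a+1) = 2^a + 2^a := by ring
  have hpos : 0 < 2^a := by positivity
  set D := 2^(a+1) with hD
  set m := (n+1) % D with hm
  have hmD : m < D := Nat.mod_lt _ (by omega)
  by_cases hc : m ≤ 2^a
  · refine ⟨2^a - m, by omega, ?_⟩
    apply lev_of_mod
    rw [← hD]
    have e : n + (2^a - m) + 1 = (n+1) + (2^a - m) := by ring
    rw [e, Nat.add_mod, ← hm, Nat.mod_eq_of_lt (show 2^a - m < D by omega)]
    rw [show m + (2^a - m) = 2^a by omega, Nat.mod_eq_of_lt (by omega)]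
  · refine ⟨2^a + D - m, by omega, ?_⟩
    apply lev_of_mod
    rw [← hD]
    have e : n + (2^a + D - m) + 1 = (n+1) + (2^a + D - m) := by ring
    rw [e, Nat.add_mod, ← hm, Nat.mod_eq_of_lt (show 2^a + D - m < D by omega)]
    rw [show m + (2^a + D - m) = 2^a + D by omega, Nat.add_mod_right, Nat.mod_eq_of_lt (by omega)]

lemma exists_visit' (a n : ℕ) : ∃ t, lev (n+t) = a := let ⟨t, _, h⟩ := exists_visit a n; ⟨t, h⟩

noncomputable def tt (a n : ℕ) : ℕ := Nat.find (exists_visit' a n)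

lemma tt_lt (a n : ℕ) : tt a n < 2^(a+1) := by
  obtain ⟨t, h1, h2⟩ := exists_visit a n
  exact lt_of_le_of_lt (Nat.find_min' _ h2) h1

lemma tt_zero (a n : ℕ) (h : lev n = a) : tt a n = 0 := by
  unfold tt
  rw [Nat.find_eq_zero]
  simpa using h

lemma tt_succ (a n : ℕ) (h : lev n ≠ a) : tt a n = tt a (n+1) + 1 := by
  unfold tt
  rw [Nat.find_eq_iff]
  refine ⟨?_, ?_⟩
  · have := Nat.find_spec (exists_visit' a (n+1))
    rw [show n + (Nat.find (exists_visit' a (n+1)) + 1) = n + 1 + Nat.find (exists_visit' a (n+1)) by ring]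
    exact this
  · intro m hm
    rcases Nat.eq_zero_or_pos m with rfl | hm0
    · simpa using h
    · obtain ⟨m', rfl⟩ : ∃ m', m = m' + 1 := ⟨m-1, by omega⟩
      have := Nat.find_min (exists_visit' a (n+1)) (m := m') (by omega)
      rw [show n + (m'+1) = n + 1 + m' by ring]
      exact this

lemma count_dvd (n t d : ℕ) (hd : 0 < d) : ((Finset.range t).filter (fun i => d ∣ n + i + 1)).card ≤ t / d + 1 := by
  have h1 : ((Finset.range t).filter (fun i => d ∣ n + i + 1)).card ≤ (Finset.Ioc (n/d) ((n+t)/d)).card := by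
    apply Finset.card_le_card_of_injOn (fun i => (n+i+1)/d)
    · intro i hi
      simp only [Finset.coe_filter, Finset.mem_range, Set.mem_ofPred_eq] at hi
      simp only [Finset.coe_Ioc, Set.mem_Ioc]
      obtain ⟨hi1, c, hc⟩ := hi
      rw [hc, Nat.mul_div_cancel_left _ hd]
      constructor
      · rw [Nat.div_lt_iff_lt_mul hd, mul_comm]; omega
      · rw [Nat.le_div_iff_mul_le hd, mul_comm]; omega
    · intro i hi j hj hij
      simp only [Finset.coe_filter, Finset.mem_range, Set.mem_ofPred_eq] at hi hj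
      simp only at hij
      obtain ⟨_, c, hc⟩ := hi
      obtain ⟨_, c', hc'⟩ := hj
      rw [hc, hc', Nat.mul_div_cancel_left _ hd, Nat.mul_div_cancel_left _ hd] at hij
      subst hij
      omega
  refine h1.trans ?_
  rw [Nat.card_Ioc]
  have h2 : (n+t)/d ≤ n/d + t/d + 1 := by
    rw [Nat.div_le_iff_le_mul_add_pred hd]
    have h3 := Nat.div_add_mod n d
    have h4 := Nat.div_add_mod t d
    have h5 := Nat.mod_lt n hd
    have h6 := Nat.mod_lt t hd
    have e : d * (n/d + t/d + 1) = d * (n/d) + d * (t/d) + d := by ring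
    omega
  rw [Nat.sub_le_iff_le_add]
  linarith

/-- running costs -/
noncomputable def cst (a k : ℕ) : ℝ := 3 + (if a < k then (3:ℝ)^a else 0) + (if k + 6 < a then 122880 / 16^(a-k) * (3:ℝ)^a else 0)

lemma cst_ge (a k : ℕ) : 3 ≤ cst a k := by
  unfold cst
  have h1 : (0:ℝ) ≤ if a < k then (3:ℝ)^a else 0 := by split_ifs <;> positivity
  have h2 : (0:ℝ) ≤ if k + 6 < a then 122880 / 16^(a-k) * (3:ℝ)^a else 0 := by split_ifs <;> positivity
  linarith

noncomputable def G (a n : ℕ) : ℝ := ∑ i ∈ Finset.range (tt a n), cst a (lev (n+i))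

lemma G_nonneg (a n : ℕ) : 0 ≤ G a n := Finset.sum_nonneg fun i _ => by have := cst_ge a (lev (n+i)); linarith

lemma G_zero (a n : ℕ) (h : lev n = a) : G a n = 0 := by
  unfold G; rw [tt_zero a n h]; simp

lemma G_succ (a n : ℕ) (h : lev n ≠ a) : G a n = cst a (lev n) + G a (n+1) := by
  unfold G
  rw [tt_succ a n h, Finset.sum_range_succ']
  rw [add_zero, add_comm]
  congr 1
  apply Finset.sum_congr rfl
  intro i _
  rw [show n + (i+1) = n + 1 + i by ring]

lemma geo (m : ℕ) : ∑ k ∈ Finset.range m, ((1:ℝ)/8)^(m+6-k) ≤ (1/8)^6/7 := by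
  induction m with
  | zero => norm_num
  | succ m ih =>
    rw [Finset.sum_range_succ]
    have e1 : ∑ k ∈ Finset.range m, ((1:ℝ)/8)^(m+1+6-k) = (1/8) * ∑ k ∈ Finset.range m, ((1:ℝ)/8)^(m+6-k) := by
      rw [Finset.mul_sum]
      apply Finset.sum_congr rfl
      intro k hk
      rw [Finset.mem_range] at hk
      rw [show m + 1 + 6 - k = (m+6-k) + 1 by omega, pow_succ]; ring
    rw [e1, show m + 1 + 6 - m = 7 by omega]
    linarith

lemma G_le (a n : ℕ) : G a n ≤ 8 * 3^a := by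
  have htlt := tt_lt a n
  set t := tt a n with ht
  unfold G
  rw [← ht]
  unfold cst
  rw [Finset.sum_add_distrib, Finset.sum_add_distrib]
  have s1 : ∑ i ∈ Finset.range t, (3:ℝ) ≤ 6 * 3^a := by
    rw [Finset.sum_const, Finset.card_range, nsmul_eq_mul]
    have h1 : (t:ℝ) ≤ 2^(a+1) := by exact_mod_cast htlt.le
    have h2 : (2:ℝ)^a ≤ 3^a := pow_le_pow_left₀ (by norm_num) (by norm_num) a
    rw [pow_succ] at h1
    linarith
  have s2 : ∑ i ∈ Finset.range t, (if a < lev (n+i) then (3:ℝ)^a else 0) ≤ 3^a := by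
    rw [← Finset.sum_filter, Finset.sum_const, nsmul_eq_mul]
    have hsub : (Finset.range t).filter (fun i => a < lev (n+i)) ⊆ (Finset.range t).filter (fun i => 2^(a+1) ∣ n + i + 1) := by
      intro i hi
      rw [Finset.mem_filter] at hi ⊢
      refine ⟨hi.1, ?_⟩
      exact (pow_dvd_pow 2 hi.2).trans (lev_dvd (n+i))
    have h1 := (Finset.card_le_card hsub).trans (count_dvd n t (2^(a+1)) (by positivity))
    rw [Nat.div_eq_of_lt htlt] at h1
    have h2 : (((Finset.range t).filter (fun i => a < lev (n+i))).card : ℝ) ≤ 1 := by exact_mod_cast h1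
    have h3 : (0:ℝ) < 3^a := by positivity
    nlinarith
  have s3 : ∑ i ∈ Finset.range t, (if lev (n+i) + 6 < a then 122880 / 16^(a-lev (n+i)) * (3:ℝ)^a else 0) ≤ 3^a := by
    have e1 : ∀ i ∈ Finset.range t, (if lev (n+i) + 6 < a then 122880 / 16^(a-lev (n+i)) * (3:ℝ)^a else 0) =
        ∑ k ∈ Finset.range (a-6), if lev (n+i) = k then 122880 / 16^(a-k) * (3:ℝ)^a else 0 := by
      intro i _
      rw [Finset.sum_ite_eq]
      by_cases h : lev (n+i) + 6 < a
      · rw [if_pos h, if_pos (by rw [Finset.mem_range]; omega)]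
      · rw [if_neg h, if_neg (by rw [Finset.mem_range]; omega)]
    rw [Finset.sum_congr rfl e1, Finset.sum_comm]
    have e2 : ∀ k ∈ Finset.range (a-6), ∑ i ∈ Finset.range t, (if lev (n+i) = k then 122880 / 16^(a-k) * (3:ℝ)^a else 0) ≤ 
        (245760 * 3^a) * ((1:ℝ)/8)^((a-6)+6-k) := by
      intro k hk
      rw [Finset.mem_range] at hk
      rw [← Finset.sum_filter, Finset.sum_const, nsmul_eq_mul]
      have hsub : (Finset.range t).filter (fun i => lev (n+i) = k) ⊆ (Finset.range t).filter (fun i => 2^k ∣ n + i + 1) := by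
        intro i hi
        rw [Finset.mem_filter] at hi ⊢
        refine ⟨hi.1, ?_⟩
        rw [← hi.2]
        exact lev_dvd (n+i)
      have h1 := (Finset.card_le_card hsub).trans (count_dvd n t (2^k) (by positivity))
      have h2 : t / 2^k + 1 ≤ 2^(a+1-k) := by
        have : t / 2^k < 2^(a+1-k) := by
          rw [Nat.div_lt_iff_lt_mul (by positivity), ← pow_add]
          rw [show a + 1 - k + k = a + 1 by omega]; exact htlt
        omega
      have h3 : (((Finset.range t).filter (fun i => lev (n+i) = k)).card : ℝ) ≤ 2^(a+1-k) := by exact_mod_cast h1.trans h2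
      have e4 : a - 6 + 6 - k = a - k := by omega
      rw [e4]
      calc (((Finset.range t).filter (fun i => lev (n+i) = k)).card : ℝ) * (122880 / 16^(a-k) * 3^a) 
          ≤ 2^(a+1-k) * (122880 / 16^(a-k) * 3^a) := by gcongr
        _ = (245760 * 3^a) * ((1:ℝ)/8)^(a-k) := by
            rw [show a + 1 - k = (a-k) + 1 by omega, pow_succ]
            have e5 : (16:ℝ)^(a-k) = 2^(a-k) * 8^(a-k) := by rw [← mul_pow]; norm_num
            rw [e5, one_div, inv_pow]
            field_simp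
            norm_num
    refine (Finset.sum_le_sum e2).trans ?_
    rw [← Finset.mul_sum]
    have h5 := geo (a-6)
    have h6 : (0:ℝ) < 3^a := by positivity
    calc 245760 * 3^a * ∑ k ∈ Finset.range (a-6), ((1:ℝ)/8)^(a-6+6-k) ≤ 245760 * 3^a * ((1/8)^6/7) := by gcongr
      _ ≤ 3^a := by nlinarith
  linarith

end Pool.Agent.H17.RA
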