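import Pool.Agent.H17.RA1

set_option autoImplicit false

namespace Pool.Agent.H17.RA

inductive St where
  | search (n : ℕ)
  | sess (k r : ℕ)
deriving DecidableEq

noncomputable def lv : St → ℕ
  | .search n => lev n
  | .sess k _ => k

def T (k : ℕ) : ℕ := 3^k / 3^10

def ss (k : ℕ) : ℕ → St
  | 0 => .search 0
  | (r+1) => .sess k r

noncomputable def nt : St → Bool → St
  | .search n, true => ss (lev n) (T (lev n))
  | .search n, false => .search (n+1)
  | .sess k r, _ => ss k (min r (T k))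

noncomputable def c0 : ℝ := Real.exp (-16384) / 2^17
noncomputable def K : ℝ := 11 / c0
noncomputable def CC : ℝ := 2 * ((8 + K) * 3^16 + 2) / c0

lemma c0_pos : 0 < c0 := by unfold c0; positivity

lemma c0_le : c0 ≤ 1 := by
  unfold c0
  have h : Real.exp (-16384) ≤ 1 := Real.exp_le_one_iff.mpr (by norm_num)
  rw [div_le_one (by positivity)]
  refine h.trans (by norm_num)

lemma K_pos : 0 < K := by unfold K; have := c0_pos; positivity

lemma c0K : c0 * K = 11 := by unfold K; have := c0_pos; field_simp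

lemma CCc : CC / 2 * c0 = (8 + K) * 3^16 + 2 := by
  unfold CC; have := c0_pos; field_simp

lemma CC_half : (8 + K) * 3^16 + 2 ≤ CC / 2 := by
  rw [← CCc]
  have h1 := c0_le
  have h2 : 0 ≤ CC / 2 := by
    unfold CC
    have := c0_pos
    have := K_pos
    positivity
  nlinarith

lemma CC_ge : 16 ≤ CC := by
  have h1 := CC_half
  have h2 := K_pos
  nlinarith

noncomputable def Φ (a : ℕ) (x : ℝ) : ℝ := CC / 2 * x + CC / 2 * max (4^a) x + CC * max (x - 4^(a+1)) 0

lemma Φ_mono (a : ℕ) {x y : ℝ} (h : x ≤ y) : Φ a x ≤ Φ a y := by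
  unfold Φ
  have := CC_ge
  gcongr

lemma Φ_slope (a : ℕ) (x : ℝ) : Φ a (x - 1) ≤ Φ a x - CC / 2 := by
  unfold Φ
  have hC := CC_ge
  have h1 : max ((4:ℝ)^a) (x-1) ≤ max (4^a) x := max_le_max le_rfl (by linarith)
  have h2 : max (x - 1 - 4^(a+1)) 0 ≤ max (x - (4:ℝ)^(a+1)) 0 := max_le_max (by linarith) le_rfl
  nlinarith

lemma Φ_lip (a : ℕ) (x : ℝ) : Φ a (x + 1) ≤ Φ a x + 2 * CC := by
  unfold Φ
  have hC := CC_ge
  have h1 : max ((4:ℝ)^a) (x+1) ≤ max (4^a) x + 1 := by
    apply max_le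
    · have := le_max_left ((4:ℝ)^a) x; linarith
    · have := le_max_right ((4:ℝ)^a) x; linarith
  have h2 : max (x + 1 - 4^(a+1)) 0 ≤ max (x - (4:ℝ)^(a+1)) 0 + 1 := by
    apply max_le
    · have := le_max_left (x - (4:ℝ)^(a+1)) 0; linarith
    · have := le_max_right (x - (4:ℝ)^(a+1)) 0; linarith
  nlinarith

lemma Φ_core (a : ℕ) (x : ℝ) (h1 : 4^a ≤ x) (h2 : x ≤ 4^(a+1)) : Φ a x = CC * x := by
  unfold Φ
  rw [max_eq_right h1, max_eq_right (by linarith)]; ring

lemma Φ_nonneg (a : ℕ) (x : ℝ) (hx : 0 ≤ x) : 0 ≤ Φ a x := by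
  unfold Φ
  have hC := CC_ge
  have h1 : 0 ≤ max ((4:ℝ)^a) x := le_max_of_le_left (by positivity)
  have h2 : 0 ≤ max (x - (4:ℝ)^(a+1)) 0 := le_max_right _ _
  positivity

noncomputable def V' (w n : ℕ) : ℝ := ⨅ a : ℕ, (Φ a (w:ℝ) + G a n)

lemma bdd (w n : ℕ) : BddBelow (Set.range (fun a : ℕ => Φ a (w:ℝ) + G a n)) := by
  refine ⟨0, ?_⟩
  rintro _ ⟨a, rfl⟩
  have h1 := Φ_nonneg a (w:ℝ) (by positivity)
  have h2 := G_nonneg a n
  simp only
  linarith

lemma V'_le (w n a : ℕ) : V' w n ≤ Φ a (w:ℝ) + G a n := ciInf_le (bdd w n) a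

lemma le_V' (w n : ℕ) (x : ℝ) (h : ∀ a, x ≤ Φ a (w:ℝ) + G a n) : x ≤ V' w n := le_ciInf h

lemma V'_nonneg (w n : ℕ) : 0 ≤ V' w n := le_V' w n 0 fun a => by
  have h1 := Φ_nonneg a (w:ℝ) (by positivity)
  have h2 := G_nonneg a n
  linarith

lemma V'_lip (w n : ℕ) : V' (w+1) n ≤ V' w n + 2 * CC := by
  have : V' (w+1) n - 2 * CC ≤ V' w n := by
    apply le_V'
    intro a
    have h1 := V'_le (w+1) n a
    have h2 := Φ_lip a (w:ℝ)
    push_cast at h1
    linarith
  linarith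

/-- hypotheses on the transmission probabilities -/
structure PH (p : St → ℝ) : Prop where
  lo : ∀ s, (1/4:ℝ)^(lv s + 1) / 2 ≤ p s
  hi : ∀ s, p s ≤ (1/4:ℝ)^(lv s + 1)

variable (p : St → ℝ)

noncomputable def Vs (k : ℕ) : ℕ → ℕ → ℝ
  | 0, w => V' w 0
  | (r+1), w => 2 + qq w (p (.sess k r)) * Vs k r (w-1) + (1 - qq w (p (.sess k r))) * Vs k r w

noncomputable def V (M : ℝ) (w : ℕ) : St → ℝ
  | .search n => V' w n + if w = 0 ∧ n ≠ 0 then M else 0
  | .sess k r => 2 + qq w (p (.sess k r)) * Vs p k (min r (T k)) (w-1) + (1 - qq w (p (.sess k r))) * Vs p k (min r (T k)) w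

lemma V_ss (M : ℝ) (w k r : ℕ) (hr : r ≤ T k + 1) : V p M w (ss k r) = Vs p k r w := by
  rcases r with _ | r
  · simp [ss, V, Vs]
  · simp only [ss, V, Vs]
    rw [min_eq_left (by omega)]

variable {p} (hp : PH p)

include hp in
lemma p_pos (s : St) : 0 < p s := lt_of_lt_of_le (by positivity) (hp.lo s)

include hp in
lemma p_le (s : St) : p s ≤ 1/4 := by
  refine (hp.hi s).trans ?_
  calc (1/4:ℝ)^(lv s + 1) ≤ (1/4:ℝ)^1 := pow_le_pow_of_le_one (by norm_num) (by norm_num) (by omega)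
    _ = 1/4 := by norm_num

include hp in
lemma q0 (w : ℕ) (s : St) : 0 ≤ qq w (p s) := qq_nonneg w _ (p_pos hp s).le (by have := p_le hp s; linarith)

include hp in
lemma q1 (w : ℕ) (s : St) : qq w (p s) ≤ 1 := qq_le_one w _ (p_pos hp s).le (by have := p_le hp s; linarith)

include hp in
lemma Vs_nonneg (k r : ℕ) : ∀ w, 0 ≤ Vs p k r w := by
  induction r with
  | zero => intro w; exact V'_nonneg w 0
  | succ r ih =>
    intro w
    simp only [Vs]
    have h1 := q0 hp w (.sess k r)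
    have h2 := q1 hp w (.sess k r)
    have h3 := ih w
    have h4 := ih (w-1)
    nlinarith [mul_nonneg h1 h4, mul_nonneg (sub_nonneg.mpr h2) h3]

include hp in
lemma V_nonneg (M : ℝ) (hM : 0 ≤ M) (w : ℕ) (s : St) : 0 ≤ V p M w s := by
  rcases s with n | ⟨k, r⟩
  · simp only [V]
    have := V'_nonneg w n
    split_ifs <;> linarith
  · simp only [V]
    have h1 := q0 hp w (.sess k r)
    have h2 := q1 hp w (.sess k r)
    have h3 := Vs_nonneg hp k (min r (T k)) w
    have h4 := Vs_nonneg hp k (min r (T k)) (w-1)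
    nlinarith [mul_nonneg h1 h4, mul_nonneg (sub_nonneg.mpr h2) h3]

-- universal bound
include hp in
lemma Vs_U (a k r : ℕ) (x : ℝ) : ∀ w : ℕ, (w:ℝ) ≤ x → Vs p k r w ≤ Φ a x + G a 0 + 2 * r := by
  induction r with
  | zero =>
    intro w hw
    simp only [Vs]
    have := V'_le w 0 a
    have h2 := Φ_mono a hw
    push_cast
    linarith
  | succ r ih =>
    intro w hw
    simp only [Vs]
    have h1 := q0 hp w (.sess k r)
    have h2 := q1 hp w (.sess k r)
    have h3 := ih w hw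
    have h4 := ih (w-1) (le_trans (by exact_mod_cast Nat.sub_le w 1) hw)
    set q := qq w (p (.sess k r))
    set Y := Φ a x + G a 0 + 2 * (r:ℝ)
    have h5 : q * Vs p k r (w-1) ≤ q * Y := mul_le_mul_of_nonneg_left h4 h1
    have h6 : (1-q) * Vs p k r w ≤ (1-q) * Y := mul_le_mul_of_nonneg_left h3 (by linarith)
    have e : Φ a x + G a 0 + 2 * ((r+1 : ℕ):ℝ) = Y + 2 := by push_cast; ring
    rw [e]
    nlinarith

include hp in
lemma q_near (a w : ℕ) (s : St) (h1 : lv s ≤ a + 6) (h2 : a ≤ lv s + 6) (hw1 : (4:ℝ)^a / 4 ≤ w) (hw2 : (w:ℝ) ≤ 8 * 4^a) :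
    c0 ≤ qq w (p s) := by
  set k := lv s with hk
  have hlo := hp.lo s
  have hhi := hp.hi s
  rw [← hk] at hlo hhi
  have e1 : (1/2^17 : ℝ) * Real.exp (-2 * 8192) = c0 := by
    unfold c0
    rw [show (-2 * 8192 : ℝ) = -16384 by norm_num]; ring
  rw [← e1]
  have h4a : (0:ℝ) < 4^a := by positivity
  have h4k : (0:ℝ) < (1/4:ℝ)^k := by positivity
  have hprod : (4:ℝ)^a * (1/4)^a = 1 := by rw [← mul_pow]; norm_num
  have hA : (1/4:ℝ)^6 ≤ 4^a * (1/4:ℝ)^k := by
    have : (1/4:ℝ)^(a+6) ≤ (1/4:ℝ)^k := pow_le_pow_of_le_one (by norm_num) (by norm_num) h1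
    calc (1/4:ℝ)^6 = (4:ℝ)^a * (1/4)^a * (1/4:ℝ)^6 := by rw [hprod, one_mul]
      _ = 4^a * (1/4:ℝ)^(a+6) := by rw [pow_add]; ring
      _ ≤ 4^a * (1/4:ℝ)^k := by gcongr
  have hB : 4^a * (1/4:ℝ)^k ≤ 4^6 := by
    have h3 : (4:ℝ)^a ≤ 4^(k+6) := pow_le_pow_right₀ (by norm_num) h2
    have hprod' : (4:ℝ)^k * (1/4)^k = 1 := by rw [← mul_pow]; norm_num
    calc 4^a * (1/4:ℝ)^k ≤ 4^(k+6) * (1/4:ℝ)^k := by gcongr
      _ = (4^k * (1/4:ℝ)^k) * 4^6 := by rw [pow_add]; ring
      _ = 4^6 := by rw [hprod', one_mul]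
  have hp0 := p_pos hp s
  apply qq_low w (p s) (1/2^17) 8192 hp0 (p_le hp s) (by positivity)
  · calc (1/2^17 : ℝ) = (1/4)^6 / 32 := by norm_num
      _ ≤ (4^a * (1/4:ℝ)^k) / 32 := by gcongr
      _ = (4^a/4) * ((1/4:ℝ)^(k+1)/2) := by rw [pow_succ]; ring
      _ ≤ w * p s := by gcongr
  · calc (w:ℝ) * p s ≤ (8 * 4^a) * (1/4:ℝ)^(k+1) := by gcongr
      _ = 2 * (4^a * (1/4:ℝ)^k) := by rw [pow_succ]; ring
      _ ≤ 2 * 4^6 := by gcongr
      _ = 8192 := by norm_num

include hp in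
lemma Vs_near (a k : ℕ) (h1 : k ≤ a + 6) (h2 : a ≤ k + 6) (r : ℕ) : ∀ w : ℕ, (4:ℝ)^a/4 + r ≤ w → (w:ℝ) ≤ 8 * 4^a →
    Vs p k r w ≤ Φ a w + G a 0 + 2 * r - CC / 2 * c0 * r := by
  induction r with
  | zero =>
    intro w _ _
    simp only [Vs]
    have := V'_le w 0 a
    push_cast
    linarith
  | succ r ih =>
    intro w hw1 hw2
    simp only [Vs]
    push_cast at hw1
    have hr0 : (0:ℝ) ≤ r := by positivity
    have h4a : (0:ℝ) < 4^a := by positivity
    have hw0 : 1 ≤ w := by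
      have : (0:ℝ) < w := by linarith
      exact_mod_cast this
    have hcast : ((w-1 : ℕ):ℝ) = w - 1 := by push_cast [hw0]; ring
    have i1 := ih w (by linarith) hw2
    have i2 := ih (w-1) (by rw [hcast]; linarith) (by rw [hcast]; linarith)
    rw [hcast] at i2
    have sl := Φ_slope a w
    have hq := q_near hp a w (.sess k r) h1 h2 (by linarith) hw2
    have hq1 := q1 hp w (.sess k r)
    set q := qq w (p (.sess k r))
    have hq0 : 0 ≤ q := le_trans c0_pos.le hq
    set Y := Φ a w + G a 0 + 2 * (r:ℝ) - CC / 2 * c0 * r with hY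
    have h5 : q * Vs p k r (w-1) ≤ q * (Y - CC/2) := mul_le_mul_of_nonneg_left (by linarith [hY]) hq0
    have h6 : (1-q) * Vs p k r w ≤ (1-q) * Y := mul_le_mul_of_nonneg_left i1 (by linarith)
    have hC := CC_ge
    have h7 : CC/2 * c0 ≤ CC/2 * q := mul_le_mul_of_nonneg_left hq (by linarith)
    have e : Φ a w + G a 0 + 2 * ((r+1 : ℕ):ℝ) - CC / 2 * c0 * ((r+1 : ℕ):ℝ) = Y + 2 - CC/2*c0 := by push_cast; ring
    rw [e]
    nlinarith

-- near success
include hp in
lemma near_succ (a k w : ℕ) (h1 : k ≤ a + 6) (h2 : a ≤ k + 6) (hw : 1 ≤ w) (hw1 : (4:ℝ)^a / 2 ≤ w) (hw2 : (w:ℝ) ≤ 8 * 4^a) :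
    Vs p k (T k) (w-1) ≤ Φ a w - K * 3^a := by
  have hcast : ((w-1 : ℕ):ℝ) = w - 1 := by push_cast [hw]; ring
  have hG := G_le a 0
  have hK := K_pos
  have hsl := Φ_slope a w
  by_cases hk : k < 10
  · have hT : T k = 0 := by
      unfold T
      apply Nat.div_eq_of_lt
      exact Nat.pow_lt_pow_right (by norm_num) hk
    rw [hT]
    simp only [Vs]
    have h3 := V'_le (w-1) 0 a
    rw [hcast] at h3
    have h4 : (3:ℝ)^a ≤ 3^16 := pow_le_pow_right₀ (by norm_num) (by omega)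
    have h5 := CC_half
    nlinarith
  · push Not at hk
    have hT : T k = 3^(k-10) := by
      unfold T
      rw [Nat.pow_div hk (by norm_num)]
    have hTr : ((T k : ℕ):ℝ) = 3^(k-10) := by rw [hT]; push_cast; ring
    have ha : 4 ≤ a := by omega
    -- T k + 1 ≤ 4^a/4
    have hT1 : ((T k : ℕ):ℝ) + 1 ≤ 4^a/4 := by
      rw [hTr]
      have g1 : (3:ℝ)^(k-10) ≤ 3^(a-4) := pow_le_pow_right₀ (by norm_num) (by omega)
      have g2 : (3:ℝ)^(a-4) ≤ 4^(a-4) := pow_le_pow_left₀ (by norm_num) (by norm_num) _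
      have g3 : (1:ℝ) ≤ 4^(a-4) := one_le_pow₀ (by norm_num)
      have g4 : (4:ℝ)^a = 4^(a-4) * 256 := by
        rw [show (256:ℝ) = 4^4 by norm_num, ← pow_add]; congr 1; omega
      rw [g4]; linarith
    have h3 := Vs_near hp a k h1 h2 (T k) (w-1) (by rw [hcast]; linarith) (by rw [hcast]; linarith)
    rw [hcast] at h3
    -- 3^a ≤ 3^16 T
    have h4 : (3:ℝ)^a ≤ 3^16 * (T k : ℝ) := by
      rw [hTr, ← pow_add]
      exact pow_le_pow_right₀ (by norm_num) (by omega)
    have h5 := CCc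
    have hT0 : (0:ℝ) ≤ (T k : ℝ) := by positivity
    have h6 : CC / 2 * c0 * (T k : ℝ) = ((8 + K) * 3^16 + 2) * (T k : ℝ) := by rw [h5]
    have hC := CC_ge
    nlinarith

-- the drift away from `w = 0`, in the searching states
include hp in
lemma drift_search_a (a w n : ℕ) (hw : 1 ≤ w) (hw1 : (4:ℝ)^a / 2 ≤ w) (hw2 : (w:ℝ) ≤ 8 * 4^a) :
    2 + qq w (p (.search n)) * Vs p (lev n) (T (lev n)) (w-1) + (1 - qq w (p (.search n))) * V' w (n+1) ≤ Φ a w + G a n := by
  obtain ⟨k, hk⟩ : ∃ k, k = lev n := ⟨_, rfl⟩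
  rw [← hk]
  have hq0 := q0 hp w (.search n)
  have hq1 := q1 hp w (.search n)
  have hlv : lv (.search n) = k := hk.symm
  set q := qq w (p (.search n)) with hq
  have hV := V'_le w (n+1) a
  have hG0 := G_nonneg a (n+1)
  have hG1 := G_le a (n+1)
  have h3a : (1:ℝ) ≤ 3^a := one_le_pow₀ (by norm_num)
  have hK := K_pos
  have hcast : ((w-1 : ℕ):ℝ) ≤ w := by exact_mod_cast Nat.sub_le w 1
  have hb : (1-q) * V' w (n+1) ≤ (1-q) * (Φ a w + G a (n+1)) := mul_le_mul_of_nonneg_left hV (by linarith)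
  by_cases hnear : k ≤ a + 6 ∧ a ≤ k + 6
  · have hs := near_succ hp a k w hnear.1 hnear.2 hw hw1 hw2
    have hqs : q * Vs p k (T k) (w-1) ≤ q * (Φ a w - K * 3^a) := mul_le_mul_of_nonneg_left hs hq0
    by_cases hka : k = a
    · have hqc : c0 ≤ q := q_near hp a w (.search n) (by rw [hlv]; omega) (by rw [hlv]; omega) (by linarith [show (0:ℝ) < 4^a by positivity]) hw2
      rw [G_zero a n (hk ▸ hka)]
      have h11 : c0 * K * 3^a ≤ q * K * 3^a := by gcongr
      rw [c0K] at h11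
      have e1 : q * (Φ a w - K * 3^a) + (1-q) * (Φ a w + G a (n+1)) = Φ a w - q * K * 3^a + (1-q) * G a (n+1) := by ring
      have e2 : (1-q) * G a (n+1) ≤ 8 * 3^a := by nlinarith
      linarith
    · rw [G_succ a n (hk ▸ hka)]
      have := cst_ge a k
      rw [← hk]
      have e1 : q * (Φ a w - K * 3^a) + (1-q) * (Φ a w + G a (n+1)) = Φ a w - q * (K * 3^a) + (1-q) * G a (n+1) := by ring
      have e2 : (1-q) * G a (n+1) ≤ G a (n+1) := by nlinarith
      have e3 : 0 ≤ q * (K * 3^a) := by positivity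
      linarith
  · have hka : k ≠ a := by
      intro h; apply hnear; constructor <;> omega
    rw [G_succ a n (hk ▸ hka), ← hk]
    have hU := Vs_U hp a k (T k) w (w-1) hcast
    have hG2 := G_le a 0
    have hqs : q * Vs p k (T k) (w-1) ≤ q * (Φ a w + 8 * 3^a + 2 * (T k : ℝ)) := mul_le_mul_of_nonneg_left (by linarith) hq0
    have key : q * (8 * 3^a + 2 * (T k : ℝ)) ≤ cst a k - 3 := by
      have hTle : ((T k : ℕ):ℝ) ≤ 3^k / 59049 := by
        have h1 : ((3^k / 3^10 : ℕ):ℝ) ≤ ((3^k : ℕ):ℝ) / ((3^10 : ℕ):ℝ) := Nat.cast_div_le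
        unfold T
        refine h1.trans (le_of_eq ?_)
        push_cast; norm_num
      rcases Nat.lt_or_ge a k with hlt | hge
      · -- far high : a + 6 < k
        have hfar : a + 7 ≤ k := by
          by_contra hcon
          apply hnear; constructor <;> omega
        obtain ⟨j, rfl⟩ : ∃ j, k = a + j := ⟨k - a, by omega⟩
        have hj : 7 ≤ j := by omega
        have hqle : q ≤ 2 * (1/4)^j := by
          have h1 := qq_le w (p (.search n)) (p_pos hp _).le (by have := p_le hp (.search n); linarith)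
          have h2 := hp.hi (.search n)
          rw [hlv] at h2
          calc q ≤ w * p (.search n) := h1
            _ ≤ (8 * 4^a) * (1/4:ℝ)^(a+j+1) := by gcongr; exact (p_pos hp _).le
            _ = 2 * (4^a * (1/4:ℝ)^a) * (1/4)^j := by rw [pow_add, pow_add]; ring
            _ = 2 * (1/4)^j := by
                rw [← mul_pow]; norm_num
        unfold cst
        rw [if_pos hlt, if_neg (by omega)]
        have hj4 : (1/4:ℝ)^j ≤ (1/4)^7 := pow_le_pow_of_le_one (by norm_num) (by norm_num) hj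
        have hj34 : (1/4:ℝ)^j * 3^j ≤ 1 := by
          rw [← mul_pow]
          exact pow_le_one₀ (by norm_num) (by norm_num)
        have h3pos : (0:ℝ) < 3^a := by positivity
        calc q * (8 * 3^a + 2 * ((T (a+j) : ℕ):ℝ)) ≤ (2 * (1/4)^j) * (8 * 3^a + 2 * (3^(a+j)/59049)) := by gcongr
          _ = (16 * (1/4)^j + 4/59049 * ((1/4:ℝ)^j * 3^j)) * 3^a := by rw [pow_add]; ring
          _ ≤ (16 * (1/4)^7 + 4/59049 * 1) * 3^a := by gcongr
          _ ≤ 3 + 3^a + 0 - 3 := by nlinarith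
      · -- far low
        have hfar : k + 7 ≤ a := by
          by_contra hcon
          apply hnear; constructor <;> omega
        obtain ⟨j, rfl⟩ : ∃ j, a = k + j := ⟨a - k, by omega⟩
        have hj : 7 ≤ j := by omega
        have hw2' : 2 ≤ w := by
          have : (2:ℝ) ≤ w := by
            have : (4:ℝ)^1 ≤ 4^(k+j) := pow_le_pow_right₀ (by norm_num) (by omega)
            linarith
          exact_mod_cast this
        have hqle : q ≤ 12288 / 16^j := by
          have h1 := qq_far w (p (.search n)) (p_pos hp _) (by have := p_le hp (.search n); linarith) hw2'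
          have h2 := hp.lo (.search n)
          rw [hlv] at h2
          have h3 : (4:ℝ)^j / 16 ≤ w * p (.search n) := by
            calc (4:ℝ)^j / 16 = (4^(k+j)/2) * ((1/4:ℝ)^(k+1)/2) := by
                  rw [pow_add, pow_succ (1/4:ℝ) k]
                  have : (4:ℝ)^k * (1/4)^k = 1 := by rw [← mul_pow]; norm_num
                  linear_combination (-(4:ℝ)^j / 16) * this
              _ ≤ w * p (.search n) := by gcongr
          have h4 : ((4:ℝ)^j/16)^2 ≤ (w * p (.search n))^2 := by gcongr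
          calc q ≤ 48 / (w * p (.search n))^2 := h1
            _ ≤ 48 / ((4:ℝ)^j/16)^2 := by gcongr
            _ = 12288 / 16^j := by
                have : (16:ℝ)^j = (4^j)^2 := by rw [← pow_mul, mul_comm, pow_mul]; norm_num
                rw [this]; field_simp; norm_num
        unfold cst
        rw [if_neg (by omega), if_pos (by omega), show k + j - k = j by omega]
        have h3k : (3:ℝ)^k ≤ 3^(k+j) := pow_le_pow_right₀ (by norm_num) (by omega)
        calc q * (8 * 3^(k+j) + 2 * ((T k : ℕ):ℝ)) ≤ (12288/16^j) * (8 * 3^(k+j) + 2 * (3^(k+j))) := by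
              have : ((T k : ℕ):ℝ) ≤ 3^(k+j) := by
                refine hTle.trans ?_
                have : (0:ℝ) < 3^k := by positivity
                linarith
              gcongr
          _ = 3 + 0 + 122880/16^j * 3^(k+j) - 3 := by ring
    have e1 : q * (Φ a w + 8 * 3^a + 2 * (T k : ℝ)) + (1-q) * (Φ a w + G a (n+1)) = Φ a w + q * (8 * 3^a + 2 * (T k : ℝ)) + (1-q) * G a (n+1) := by ring
    have e2 : (1-q) * G a (n+1) ≤ G a (n+1) := by nlinarith
    linarith

include hp in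
lemma drift_search (w n : ℕ) (hw : 1 ≤ w) :
    2 + qq w (p (.search n)) * Vs p (lev n) (T (lev n)) (w-1) + (1 - qq w (p (.search n))) * V' w (n+1) ≤ V' w n := by
  -- the good index
  set b := Nat.log 4 w with hb
  have hb1 : 4^b ≤ w := Nat.pow_log_le_self 4 (by omega)
  have hb2 : w < 4^(b+1) := Nat.lt_pow_succ_log_self (by norm_num) w
  have hb1r : (4:ℝ)^b ≤ w := by exact_mod_cast hb1
  have hb2r : (w:ℝ) ≤ 4^(b+1) := by exact_mod_cast hb2.le
  have h4b : (0:ℝ) < 4^b := by positivity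
  have hbd := drift_search_a hp b w n hw (by linarith) (by rw [pow_succ] at hb2r; linarith)
  rw [Φ_core b w hb1r hb2r] at hbd
  have hGb := G_le b n
  have h34 : (3:ℝ)^b ≤ 4^b := pow_le_pow_left₀ (by norm_num) (by norm_num) b
  apply le_V'
  intro a
  by_cases ha : Φ a w ≤ CC * w + 8 * w
  · have hC := CC_ge
    have hwr : (1:ℝ) ≤ w := by exact_mod_cast hw
    have h1 : CC / 2 * 4^a ≤ CC / 2 * max ((4:ℝ)^a) (w:ℝ) := by gcongr; exact le_max_left _ _
    have h2 : CC / 2 * w ≤ CC / 2 * max ((4:ℝ)^a) (w:ℝ) := by gcongr; exact le_max_right _ _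
    have h3 : 0 ≤ CC * max ((w:ℝ) - 4^(a+1)) 0 := by
      have := le_max_right ((w:ℝ) - 4^(a+1)) 0
      positivity
    have h4 : CC * ((w:ℝ) - 4^(a+1)) ≤ CC * max ((w:ℝ) - 4^(a+1)) 0 := by gcongr; exact le_max_left _ _
    unfold Φ at ha
    apply drift_search_a hp a w n hw
    · nlinarith
    · have e4 : (4:ℝ)^(a+1) = 4^a*4 := pow_succ _ _
      rw [e4] at h4 ha h3
      have h6 : CC * ((w:ℝ) - 4^a*4) ≤ 8 * w := by linarith
      have h7 : 16 * ((w:ℝ) - 4^a*4) ≤ 8 * w ∨ (w:ℝ) - 4^a*4 ≤ 0 := by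
        rcases le_total ((w:ℝ) - 4^a*4) 0 with h | h
        · right; exact h
        · left; nlinarith
      rcases h7 with h | h
      · linarith
      · linarith
  · push Not at ha
    have := G_nonneg a n
    linarith

end Pool.Agent.H17.RA
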