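import Pool.Agent.H17.RA2

set_option autoImplicit false

namespace Pool.Agent.H17.RA

variable {p : St → ℝ} (hp : PH p)

include hp in
lemma Vs_lip (k r : ℕ) : ∀ w, Vs p k r (w+1) ≤ Vs p k r w + 2 * CC * (1 + 2 * (1/4)^(k+1))^r := by
  induction r with
  | zero =>
    intro w
    simp only [Vs]
    have := V'_lip w 0
    simpa using this
  | succ r ih =>
    intro w
    simp only [Vs]
    rw [Nat.add_sub_cancel]
    set ε : ℝ := 2 * (1/4)^(k+1) with hε
    set L : ℝ := 2 * CC * (1 + ε)^r with hL
    have hε0 : 0 ≤ ε := by positivity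
    have hC := CC_ge
    have hL0 : 0 ≤ L := by positivity
    have hpk := hp.hi (.sess k r)
    have hd := qq_diff w (p (.sess k r)) (p_pos hp _).le (p_le hp _)
    have hlv : lv (.sess k r) = k := rfl
    rw [hlv] at hpk
    set q := qq w (p (.sess k r)) with hq
    set q' := qq (w+1) (p (.sess k r)) with hq'
    have a1 := q0 hp w (.sess k r)
    have a2 := q1 hp w (.sess k r)
    have a3 := q0 hp (w+1) (.sess k r)
    have a4 := q1 hp (w+1) (.sess k r)
    have i1 := ih w
    have e : 2 * CC * (1 + ε)^(r+1) = L + L * ε := by rw [hL, pow_succ]; ring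
    rw [e]
    have hqd : q - q' ≤ ε := by linarith
    have b1 : (1 - q') * Vs p k r (w+1) ≤ (1 - q') * (Vs p k r w + L) := mul_le_mul_of_nonneg_left i1 (by linarith)
    rcases Nat.eq_zero_or_pos w with rfl | hw
    · have hq00 : q = 0 := by rw [hq]; exact qq_zero _
      rw [hq00]
      nlinarith [mul_nonneg a3 hL0, mul_nonneg hL0 hε0]
    · obtain ⟨w', rfl⟩ : ∃ w', w = w' + 1 := ⟨w - 1, by omega⟩
      have i2 := ih w'
      rw [Nat.add_sub_cancel]
      have b2 : q * Vs p k r (w'+1) ≤ q * (Vs p k r w' + L) := mul_le_mul_of_nonneg_left i2 a1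
      have b3 : L * (q - q') ≤ L * ε := mul_le_mul_of_nonneg_left hqd hL0
      nlinarith

lemma pow_le_two (k r : ℕ) (hr : r ≤ T k + 1) : (1 + 2 * (1/4:ℝ)^(k+1))^r ≤ 2 := by
  have hT : T k + 1 ≤ 3^k := by
    unfold T
    have : 0 < 3^k := by positivity
    omega
  have h1 : ((r:ℕ):ℝ) ≤ 3^k := by exact_mod_cast hr.trans hT
  set ε : ℝ := 2 * (1/4:ℝ)^(k+1) with hε
  have hε0 : 0 ≤ ε := by positivity
  have h2 : (1+ε)^r ≤ Real.exp (r * ε) := by
    calc (1+ε)^r ≤ (Real.exp ε)^r := by
          apply pow_le_pow_left₀ (by linarith)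
          have := Real.add_one_le_exp ε; linarith
      _ = Real.exp (r * ε) := by rw [← Real.exp_nat_mul]
  have h3 : (r:ℝ) * ε ≤ 1/2 := by
    calc (r:ℝ) * ε ≤ 3^k * ε := by gcongr
      _ = (1/2) * (3^k * (1/4)^k) := by rw [hε, pow_succ]; ring
      _ = (1/2) * (3/4)^k := by rw [← mul_pow]; norm_num
      _ ≤ (1/2) * 1 := by
          gcongr
          exact pow_le_one₀ (by norm_num) (by norm_num)
      _ = 1/2 := by ring
  have h4 : Real.exp (1/2) ≤ 2 := by
    have h5 : Real.exp (1/2) * Real.exp (1/2) = Real.exp 1 := by rw [← Real.exp_add]; norm_num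
    have h6 := Real.exp_one_lt_d9
    have h7 := Real.exp_pos (1/2)
    nlinarith
  exact h2.trans ((Real.exp_le_exp.mpr h3).trans h4)

include hp in
lemma Vs_lip' (k r w : ℕ) (hr : r ≤ T k + 1) : Vs p k r (w+1) ≤ Vs p k r w + 4 * CC := by
  have h1 := Vs_lip hp k r w
  have h2 := pow_le_two k r hr
  have hC := CC_ge
  nlinarith

include hp in
lemma V_lip (M : ℝ) (hM : 0 ≤ M) (w : ℕ) (s : St) : V p M (w+1) s ≤ V p M w s + 4 * CC := by
  have hC := CC_ge
  rcases s with n | ⟨k, r⟩
  · simp only [V]
    have := V'_lip w n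
    rw [if_neg (by omega)]
    split_ifs <;> linarith
  · -- one step of the session from min r (T k)
    simp only [V]
    rw [Nat.add_sub_cancel]
    set m := min r (T k) with hm
    have hmT : m ≤ T k := min_le_right _ _
    set ε : ℝ := 2 * (1/4)^(k+1) with hε
    have hε0 : 0 ≤ ε := by positivity
    have ih := Vs_lip hp k m
    set L : ℝ := 2 * CC * (1 + ε)^m with hL
    have hL0 : 0 ≤ L := by positivity
    have hLL : L * (1 + ε) ≤ 4 * CC := by
      have h := pow_le_two k (m+1) (by omega)
      rw [← hε, pow_succ] at h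
      rw [hL]
      nlinarith
    have hpk := hp.hi (.sess k r)
    have hd := qq_diff w (p (.sess k r)) (p_pos hp _).le (p_le hp _)
    have hlv : lv (.sess k r) = k := rfl
    rw [hlv] at hpk
    have a1 := q0 hp w (.sess k r)
    have a2 := q1 hp w (.sess k r)
    have a3 := q0 hp (w+1) (.sess k r)
    have a4 := q1 hp (w+1) (.sess k r)
    set q := qq w (p (.sess k r)) with hq
    set q' := qq (w+1) (p (.sess k r)) with hq'
    have i1 := ih w
    have hqd : q - q' ≤ ε := by linarith
    have b1 : (1 - q') * Vs p k m (w+1) ≤ (1 - q') * (Vs p k m w + L) := mul_le_mul_of_nonneg_left i1 (by linarith)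
    rcases Nat.eq_zero_or_pos w with rfl | hw
    · have hq00 : q = 0 := by rw [hq]; exact qq_zero _
      rw [hq00]
      nlinarith [mul_nonneg a3 hL0, mul_nonneg hL0 hε0]
    · obtain ⟨w', rfl⟩ : ∃ w', w = w' + 1 := ⟨w - 1, by omega⟩
      have i2 := ih w'
      rw [Nat.add_sub_cancel]
      have b2 : q * Vs p k m (w'+1) ≤ q * (Vs p k m w' + L) := mul_le_mul_of_nonneg_left i2 a1
      have b3 : L * (q - q') ≤ L * ε := mul_le_mul_of_nonneg_left hqd hL0
      nlinarith

include hp in
lemma V_lip_j (M : ℝ) (hM : 0 ≤ M) (w : ℕ) (s : St) (j : ℕ) : V p M (w+j) s ≤ V p M w s + 4 * CC * j := by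
  induction j with
  | zero => simp
  | succ j ih =>
    have := V_lip hp M hM (w+j) s
    push_cast
    rw [show w + (j+1) = w + j + 1 by ring]
    linarith

lemma V'_lip_j (w n : ℕ) (j : ℕ) : V' (w+j) n ≤ V' w n + 4 * CC * j := by
  have hC := CC_ge
  induction j with
  | zero => simp
  | succ j ih =>
    have := V'_lip (w+j) n
    push_cast
    rw [show w + (j+1) = w + j + 1 by ring]
    linarith

/- arrival free drift for all states except the empty searching ones -/
include hp in
lemma drift_free (M : ℝ) (w : ℕ) (s : St) (hs : ¬ (w = 0 ∧ ∃ n, s = .search n)) :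
    qq w (p s) * V p M (w-1) (nt s true) + (1 - qq w (p s)) * V p M w (nt s false) + 2 ≤ V p M w s := by
  rcases s with n | ⟨k, r⟩
  · have hw : 1 ≤ w := by
      by_contra h
      apply hs
      exact ⟨by omega, n, rfl⟩
    have h := drift_search hp w n hw
    simp only [nt]
    rw [V_ss p M _ _ _ (Nat.le_succ _)]
    have e1 : V p M w (.search (n+1)) = V' w (n+1) := by
      simp only [V]; rw [if_neg (by omega), add_zero]
    have e2 : V p M w (.search n) = V' w n := by
      simp only [V]; rw [if_neg (by omega), add_zero]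
    rw [e1, e2]
    linarith
  · simp only [nt]
    rw [V_ss p M _ _ _ ((min_le_right _ _).trans (Nat.le_succ _)), V_ss p M _ _ _ ((min_le_right _ _).trans (Nat.le_succ _))]
    simp only [V]
    linarith

/-! Poisson weights -/
noncomputable def po (lam : ℝ) (j : ℕ) : ℝ := Real.exp (-lam) * lam^j / (j.factorial : ℝ)

lemma po_nonneg (lam : ℝ) (hl : 0 ≤ lam) (j : ℕ) : 0 ≤ po lam j := by unfold po; positivity

lemma po_sum (lam : ℝ) : HasSum (po lam) 1 := by
  have h : HasSum (fun n : ℕ => lam^n / (n.factorial : ℝ)) (Real.exp lam) := by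
    rw [Real.exp_eq_exp_ℝ]
    exact NormedSpace.expSeries_div_hasSum_exp lam
  have h2 := h.mul_left (Real.exp (-lam))
  rw [← Real.exp_add, neg_add_cancel, Real.exp_zero] at h2
  have e : po lam = fun i => Real.exp (-lam) * (lam^i / (i.factorial : ℝ)) := by
    funext j; unfold po; ring
  rw [e]; exact h2

lemma po_mean (lam : ℝ) : HasSum (fun j => po lam j * j) lam := by
  have h := (po_sum lam).mul_left lam
  rw [mul_one] at h
  rw [← hasSum_nat_add_iff' 1]
  simp only [Finset.range_one, Finset.sum_singleton, Nat.cast_zero, mul_zero, sub_zero]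
  have e : (fun j : ℕ => po lam (j+1) * ((j+1 : ℕ):ℝ)) = fun i => lam * po lam i := by
    funext j
    unfold po
    rw [Nat.factorial_succ]
    push_cast
    have : ((j:ℝ)+1) ≠ 0 := by positivity
    have : (j.factorial : ℝ) ≠ 0 := by positivity
    field_simp
    ring
  rw [e]; exact h

end Pool.Agent.H17.RA
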