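import Pool.Agent.H17.RA3
import Pool.Agent.H17.Foster

set_option autoImplicit false
open scoped ENNReal

namespace Pool.Agent.H17.RA

noncomputable def lam : ℝ := 1 / (4 * CC)
noncomputable def MM : ℝ := (CC / 2 + 10) / (1 - Real.exp (-lam))

lemma lam_pos : 0 < lam := by unfold lam; have := CC_ge; positivity
lemma lam_mul : 4 * CC * lam = 1 := by unfold lam; have := CC_ge; field_simp

lemma exp_lt : 0 < 1 - Real.exp (-lam) := by
  have : Real.exp (-lam) < 1 := by
    rw [Real.exp_lt_one_iff]; have := lam_pos; linarith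
  linarith

lemma MM_pos : 0 < MM := by
  unfold MM
  have h1 := exp_lt
  have h2 := CC_ge
  positivity

lemma MM_mul : MM * (1 - Real.exp (-lam)) = CC / 2 + 10 := by
  unfold MM; have := exp_lt; field_simp

lemma ofReal_add_one (Y : ℝ) (hY : 0 ≤ Y) : ENNReal.ofReal Y + 1 = ENNReal.ofReal (Y + 1) := by
  rw [ENNReal.ofReal_add hY zero_le_one, ENNReal.ofReal_one]

section kernel
variable (p : St → ℝ)

noncomputable def P (x y : ℕ × St) : ℝ≥0∞ :=
  ∑' j : ℕ, ENNReal.ofReal (po lam j) *
    (ENNReal.ofReal (qq x.1 (p x.2)) * (if y = (x.1 - 1 + j, nt x.2 true) then 1 else 0)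
     + ENNReal.ofReal (1 - qq x.1 (p x.2)) * (if y = (x.1 + j, nt x.2 false) then 1 else 0))

lemma P_F (x : ℕ × St) (F : ℕ × St → ℝ≥0∞) : ∑' y, P p x y * F y =
    ∑' j : ℕ, ENNReal.ofReal (po lam j) *
    (ENNReal.ofReal (qq x.1 (p x.2)) * F (x.1 - 1 + j, nt x.2 true)
     + ENNReal.ofReal (1 - qq x.1 (p x.2)) * F (x.1 + j, nt x.2 false)) := by
  unfold P
  simp_rw [← ENNReal.tsum_mul_right]
  rw [ENNReal.tsum_comm]
  congr 1
  funext j
  have e : ∀ y : ℕ × St, ENNReal.ofReal (po lam j) *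
    (ENNReal.ofReal (qq x.1 (p x.2)) * (if y = (x.1 - 1 + j, nt x.2 true) then 1 else 0)
     + ENNReal.ofReal (1 - qq x.1 (p x.2)) * (if y = (x.1 + j, nt x.2 false) then 1 else 0)) * F y =
     ENNReal.ofReal (po lam j) * ((if y = (x.1 - 1 + j, nt x.2 true) then ENNReal.ofReal (qq x.1 (p x.2)) * F y else 0)
      + (if y = (x.1 + j, nt x.2 false) then ENNReal.ofReal (1 - qq x.1 (p x.2)) * F y else 0)) := by
    intro y
    split_ifs <;> ring
  simp_rw [e]
  rw [ENNReal.tsum_mul_left, ENNReal.tsum_add]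
  rw [tsum_ite_eq (x.1 - 1 + j, nt x.2 true) (fun y => ENNReal.ofReal (qq x.1 (p x.2)) * F y)]
  rw [tsum_ite_eq (x.1 + j, nt x.2 false) (fun y => ENNReal.ofReal (1 - qq x.1 (p x.2)) * F y)]

variable {p} (hp : PH p)

include hp in
lemma P_row (x : ℕ × St) : ∑' y, P p x y = 1 := by
  have h := P_F p x (fun _ => 1)
  simp only [mul_one] at h
  rw [h]
  have e : ENNReal.ofReal (qq x.1 (p x.2)) + ENNReal.ofReal (1 - qq x.1 (p x.2)) = 1 := by
    rw [← ENNReal.ofReal_add (q0 hp _ _) (by have := q1 hp x.1 x.2; linarith)]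
    simp
  rw [e]
  simp only [mul_one]
  rw [← ENNReal.ofReal_tsum_of_nonneg (po_nonneg lam lam_pos.le) (po_sum lam).summable, (po_sum lam).tsum_eq]
  simp

lemma tsum_bound (g : ℕ → ℝ) (A B D : ℝ) (hg : ∀ j, g j ≤ A + B * j + (if j = 0 then D else 0)) (hg0 : ∀ j, 0 ≤ g j) :
    ∑' j : ℕ, ENNReal.ofReal (po lam j * g j) ≤ ENNReal.ofReal (A + B * lam + D * Real.exp (-lam)) := by
  have hs : HasSum (fun j : ℕ => po lam j * (A + B * j + (if j = 0 then D else 0))) (A + B * lam + D * Real.exp (-lam)) := by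
    have h1 := (po_sum lam).mul_right A
    have h2 := (po_mean lam).mul_left B
    have h3 : HasSum (fun j : ℕ => if j = 0 then D * Real.exp (-lam) else 0) (D * Real.exp (-lam)) := hasSum_ite_eq 0 _
    have h4 := (h1.add h2).add h3
    rw [one_mul] at h4
    have e : (fun j : ℕ => po lam j * (A + B * j + (if j = 0 then D else 0))) = (fun j : ℕ => po lam j * A + B * (po lam j * j) + if j = 0 then D * Real.exp (-lam) else 0) := by
      funext j
      by_cases hj : j = 0
      · subst hj; simp [po]; ring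
      · simp [hj]; ring
    rw [e]; exact h4
  have hnn : ∀ j, 0 ≤ po lam j * (A + B * j + (if j = 0 then D else 0)) := fun j =>
    mul_nonneg (po_nonneg lam lam_pos.le j) ((hg0 j).trans (hg j))
  rw [← hs.tsum_eq, ENNReal.ofReal_tsum_of_nonneg hnn hs.summable]
  apply ENNReal.tsum_le_tsum
  intro j
  apply ENNReal.ofReal_le_ofReal
  exact mul_le_mul_of_nonneg_left (hg j) (po_nonneg lam lam_pos.le j)

include hp in
lemma PV_le (x : ℕ × St) (A B D : ℝ) 
    (hg : ∀ j : ℕ, qq x.1 (p x.2) * V p MM (x.1 - 1 + j) (nt x.2 true) + (1 - qq x.1 (p x.2)) * V p MM (x.1 + j) (nt x.2 false) ≤ A + B * j + (if j = 0 then D else 0)) :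
    ∑' y, P p x y * ENNReal.ofReal (V p MM y.1 y.2) ≤ ENNReal.ofReal (A + B * lam + D * Real.exp (-lam)) := by
  rw [P_F]
  have hq := q0 hp x.1 x.2
  have hq' : 0 ≤ 1 - qq x.1 (p x.2) := by have := q1 hp x.1 x.2; linarith
  have hg0 : ∀ j : ℕ, 0 ≤ qq x.1 (p x.2) * V p MM (x.1 - 1 + j) (nt x.2 true) + (1 - qq x.1 (p x.2)) * V p MM (x.1 + j) (nt x.2 false) := by
    intro j
    have h1 := V_nonneg hp MM MM_pos.le (x.1 - 1 + j) (nt x.2 true)
    have h2 := V_nonneg hp MM MM_pos.le (x.1 + j) (nt x.2 false)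
    positivity
  refine le_trans (le_of_eq ?_) (tsum_bound _ A B D hg hg0)
  congr 1
  funext j
  have h1 := V_nonneg hp MM MM_pos.le (x.1 - 1 + j) (nt x.2 true)
  have h2 := V_nonneg hp MM MM_pos.le (x.1 + j) (nt x.2 false)
  simp only
  rw [← ENNReal.ofReal_mul hq, ← ENNReal.ofReal_mul hq', ← ENNReal.ofReal_add (by positivity) (by positivity), ← ENNReal.ofReal_mul (po_nonneg lam lam_pos.le j)]

include hp in
lemma gen_bound (w : ℕ) (s : St) (j : ℕ) : qq w (p s) * V p MM (w - 1 + j) (nt s true) + (1 - qq w (p s)) * V p MM (w + j) (nt s false)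
    ≤ (qq w (p s) * V p MM (w - 1) (nt s true) + (1 - qq w (p s)) * V p MM w (nt s false)) + 4 * CC * j + (if j = 0 then 0 else 0) := by
  have h1 := V_lip_j hp MM MM_pos.le (w-1) (nt s true) j
  have h2 := V_lip_j hp MM MM_pos.le w (nt s false) j
  have hq := q0 hp w s
  have hq' : 0 ≤ 1 - qq w (p s) := by have := q1 hp w s; linarith
  have h3 := mul_le_mul_of_nonneg_left h1 hq
  have h4 := mul_le_mul_of_nonneg_left h2 hq'
  simp only [ite_self, add_zero]
  nlinarith

include hp in
lemma foster_drift (x : ℕ × St) (hx : x ≠ (0, St.search 0)) :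
    ∑' y, P p x y * ENNReal.ofReal (V p MM y.1 y.2) + 1 ≤ ENNReal.ofReal (V p MM x.1 x.2) := by
  obtain ⟨w, s⟩ := x
  by_cases hs : w = 0 ∧ ∃ n, s = .search n
  · obtain ⟨rfl, n, rfl⟩ := hs
    have hn : n ≠ 0 := by
      intro h; apply hx; rw [h]
    have hq : qq 0 (p (.search n)) = 0 := qq_zero _
    have h := PV_le hp (0, .search n) (V' 0 (n+1)) (4 * CC) MM (by
      intro j
      simp only
      rw [hq]
      simp only [zero_mul, zero_add, sub_zero, one_mul, nt]
      have h1 := V'_lip_j 0 (n+1) j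
      rw [zero_add] at h1
      simp only [V]
      by_cases hj : j = 0
      · subst hj; simp
      · rw [if_neg (by tauto), if_neg hj]; linarith)
    have hV : V p MM 0 (.search n) = V' 0 n + MM := by simp [V, hn]
    have hA : V' 0 (n+1) ≤ CC / 2 + 8 := by
      have h1 := V'_le 0 (n+1) 0
      have h2 := G_le 0 (n+1)
      unfold Φ at h1
      have e1 : max ((4:ℝ)^0) ((0:ℕ):ℝ) = 1 := by norm_num
      have e2 : max (((0:ℕ):ℝ) - 4^(0+1)) 0 = 0 := by norm_num
      rw [e1, e2] at h1
      norm_num at h1 h2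
      linarith
    have hfin : V' 0 (n+1) + 4 * CC * lam + MM * Real.exp (-lam) + 1 ≤ V p MM 0 (.search n) := by
      rw [hV, lam_mul]
      have h3 := MM_mul
      have h4 := V'_nonneg 0 n
      nlinarith
    have h5 := V'_nonneg 0 (n+1)
    have h6 := MM_pos
    calc _ ≤ ENNReal.ofReal (V' 0 (n+1) + 4 * CC * lam + MM * Real.exp (-lam)) + 1 := by gcongr
      _ = ENNReal.ofReal (V' 0 (n+1) + 4 * CC * lam + MM * Real.exp (-lam) + 1) := by
          rw [ofReal_add_one]
          rw [lam_mul]; positivity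
      _ ≤ _ := ENNReal.ofReal_le_ofReal hfin
  · have hd := drift_free hp MM w s hs
    have h := PV_le hp (w, s) (qq w (p s) * V p MM (w - 1) (nt s true) + (1 - qq w (p s)) * V p MM w (nt s false)) (4 * CC) 0 (gen_bound hp w s)
    rw [lam_mul, zero_mul, add_zero] at h
    have h1 := V_nonneg hp MM MM_pos.le (w - 1) (nt s true)
    have h2 := V_nonneg hp MM MM_pos.le w (nt s false)
    have hq := q0 hp w s
    have hq' : 0 ≤ 1 - qq w (p s) := by have := q1 hp w s; linarith
    calc _ ≤ ENNReal.ofReal (qq w (p s) * V p MM (w - 1) (nt s true) + (1 - qq w (p s)) * V p MM w (nt s false) + 1) + 1 := by gcongr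
      _ = ENNReal.ofReal (qq w (p s) * V p MM (w - 1) (nt s true) + (1 - qq w (p s)) * V p MM w (nt s false) + 1 + 1) := by
          rw [ofReal_add_one]; positivity
      _ ≤ _ := by
          apply ENNReal.ofReal_le_ofReal
          simp only
          linarith

include hp in
lemma foster_fin : ∑' y, P p (0, St.search 0) y * ENNReal.ofReal (V p MM y.1 y.2) ≠ ⊤ := by
  have h := PV_le hp (0, St.search 0) _ (4 * CC) 0 (gen_bound hp 0 (St.search 0))
  exact ne_top_of_le_ne_top ENNReal.ofReal_ne_top h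

include hp in
theorem exists_stat : ∃ π : ℕ × St → ℝ≥0∞, ∑' x, π x = 1 ∧ ∀ y, π y = ∑' x, π x * P p x y :=
  Foster.foster (P p) (P_row hp) (fun y => ENNReal.ofReal (V p MM y.1 y.2)) (0, St.search 0)
    (fun x hx => foster_drift hp x hx) (foster_fin hp)

/-- explicit form of the kernel -/
noncomputable def pr (x y : ℕ × St) : ℝ :=
  (if x.1 ≤ y.1 + 1 ∧ nt x.2 true = y.2 then
      qq x.1 (p x.2) * po lam (y.1 + 1 - x.1) else 0) +
  (if x.1 ≤ y.1 ∧ nt x.2 false = y.2 then
      (1 - qq x.1 (p x.2)) * po lam (y.1 - x.1) else 0)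

lemma ind_sum (a : ℕ → ℝ≥0∞) (w' m : ℕ) (s' t : St) :
    ∑' j, a j * (if (w', s') = (m + j, t) then 1 else 0) = if m ≤ w' ∧ t = s' then a (w' - m) else 0 := by
  by_cases h : m ≤ w' ∧ t = s'
  · rw [if_pos h, tsum_eq_single (w' - m)]
    · rw [if_pos (by rw [Prod.mk.injEq]; exact ⟨by omega, h.2.symm⟩), mul_one]
    · intro j hj
      rw [if_neg, mul_zero]
      intro he
      rw [Prod.mk.injEq] at he
      omega
  · rw [if_neg h]
    have : ∀ j, a j * (if (w', s') = (m + j, t) then (1:ℝ≥0∞) else 0) = 0 := by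
      intro j
      rw [if_neg, mul_zero]
      intro he
      rw [Prod.mk.injEq] at he
      exact h ⟨by omega, he.2.symm⟩
    simp only [this, tsum_zero]

include hp in
lemma pr_nonneg (x y : ℕ × St) : 0 ≤ pr (p := p) x y := by
  unfold pr
  have hq := q0 hp x.1 x.2
  have hq' : 0 ≤ 1 - qq x.1 (p x.2) := by have := q1 hp x.1 x.2; linarith
  have h1 := po_nonneg lam lam_pos.le (y.1 + 1 - x.1)
  have h2 := po_nonneg lam lam_pos.le (y.1 - x.1)
  apply add_nonneg <;> split_ifs <;> positivity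

include hp in
lemma P_eq (x y : ℕ × St) : P p x y = ENNReal.ofReal (pr (p := p) x y) := by
  obtain ⟨w, s⟩ := x
  obtain ⟨w', s'⟩ := y
  have hq := q0 hp w s
  have hq' : 0 ≤ 1 - qq w (p s) := by have := q1 hp w s; linarith
  unfold P pr
  simp only
  have e : ∀ j : ℕ, ENNReal.ofReal (po lam j) *
    (ENNReal.ofReal (qq w (p s)) * (if (w', s') = (w - 1 + j, nt s true) then 1 else 0)
     + ENNReal.ofReal (1 - qq w (p s)) * (if (w', s') = (w + j, nt s false) then 1 else 0)) =
     (ENNReal.ofReal (qq w (p s)) * ENNReal.ofReal (po lam j)) * (if (w', s') = (w - 1 + j, nt s true) then 1 else 0)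
     + (ENNReal.ofReal (1 - qq w (p s)) * ENNReal.ofReal (po lam j)) * (if (w', s') = (w + j, nt s false) then 1 else 0) := by
    intro j; ring
  simp_rw [e]
  rw [ENNReal.tsum_add, ind_sum, ind_sum]
  have h1 := po_nonneg lam lam_pos.le
  have t2 : (if w ≤ w' ∧ nt s false = s' then ENNReal.ofReal (1 - qq w (p s)) * ENNReal.ofReal (po lam (w' - w)) else 0) =
     ENNReal.ofReal (if w ≤ w' ∧ nt s false = s' then (1 - qq w (p s)) * po lam (w' - w) else 0) := by
    split_ifs
    · rw [ENNReal.ofReal_mul hq']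
    · simp
  have t1 : (if w - 1 ≤ w' ∧ nt s true = s' then ENNReal.ofReal (qq w (p s)) * ENNReal.ofReal (po lam (w' - (w-1))) else 0) =
     ENNReal.ofReal (if w ≤ w' + 1 ∧ nt s true = s' then (qq w (p s)) * po lam (w' + 1 - w) else 0) := by
    rcases Nat.eq_zero_or_pos w with rfl | hw
    · rw [qq_zero]; simp
    · have e1 : w' - (w - 1) = w' + 1 - w := by omega
      rw [e1]
      by_cases hc : w ≤ w' + 1 ∧ nt s true = s'
      · rw [if_pos hc, if_pos ⟨by omega, hc.2⟩, ENNReal.ofReal_mul hq]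
      · rw [if_neg hc, if_neg (fun h => hc ⟨by omega, h.2⟩)]; simp
  rw [t1, t2, ← ENNReal.ofReal_add]
  · split_ifs
    · exact mul_nonneg hq (h1 _)
    · exact le_rfl
  · split_ifs
    · exact mul_nonneg hq' (h1 _)
    · exact le_rfl

end kernel

/-! ### encoding the internal state in the transmission probability -/

def code : St → ℕ
  | .search n => 2 * n
  | .sess k r => 2 * Nat.pair k r + 1

lemma code_inj {s t : St} (h : code s = code t) : s = t := by
  rcases s with n | ⟨k, r⟩ <;> rcases t with n' | ⟨k', r'⟩ <;> simp only [code] at h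
  · have : n = n' := by omega
    rw [this]
  · omega
  · omega
  · have h2 : Nat.pair k r = Nat.pair k' r' := by omega
    have h3 := Nat.pair_eq_pair.mp h2
    rw [h3.1, h3.2]

noncomputable def enc (s : St) : ℝ := (1/4:ℝ)^(lv s + 1) * (1 - 1/((code s : ℝ) + 2))

lemma frac_lo (c : ℕ) : (1/2:ℝ) ≤ 1 - 1/((c : ℝ) + 2) := by
  have : 1/((c:ℝ)+2) ≤ 1/2 := by
    apply one_div_le_one_div_of_le (by norm_num)
    have : (0:ℝ) ≤ c := by positivity
    linarith
  linarith

lemma frac_hi (c : ℕ) : 1 - 1/((c : ℝ) + 2) < 1 := by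
  have : 0 < 1/((c:ℝ)+2) := by positivity
  linarith

lemma enc_PH : PH enc := by
  constructor
  · intro s
    unfold enc
    have := frac_lo (code s)
    have h4 : (0:ℝ) < (1/4)^(lv s + 1) := by positivity
    nlinarith
  · intro s
    unfold enc
    have := frac_hi (code s)
    have h4 : (0:ℝ) < (1/4)^(lv s + 1) := by positivity
    nlinarith

lemma enc_inj {s t : St} (h : enc s = enc t) : s = t := by
  have key : ∀ s t : St, lv s < lv t → enc s ≠ enc t := by
    intro s t hlt he
    have h1 := enc_PH.lo s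
    have h2 : enc t < (1/4:ℝ)^(lv t + 1) := by
      unfold enc
      have := frac_hi (code t)
      have h4 : (0:ℝ) < (1/4)^(lv t + 1) := by positivity
      nlinarith
    have h3 : (1/4:ℝ)^(lv t + 1) ≤ (1/4:ℝ)^(lv s + 1) * (1/4) := by
      rw [← pow_succ (1/4:ℝ) (lv s + 1)]
      exact pow_le_pow_of_le_one (by norm_num) (by norm_num) (by omega)
    have h4 : (0:ℝ) < (1/4)^(lv s + 1) := by positivity
    rw [he] at h1
    linarith
  have hl : lv s = lv t := by
    rcases Nat.lt_trichotomy (lv s) (lv t) with h1 | h1 | h1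
    · exact absurd h (key s t h1)
    · exact h1
    · exact absurd h.symm (key t s h1)
  apply code_inj
  unfold enc at h
  rw [hl] at h
  have h4 : (0:ℝ) < (1/4)^(lv t + 1) := by positivity
  have h5 := mul_left_cancel₀ h4.ne' h
  have h6 : 1/((code s:ℝ)+2) = 1/((code t:ℝ)+2) := by linarith
  rw [one_div, one_div, inv_inj] at h6
  have h7 : (code s:ℝ) = code t := by linarith
  exact_mod_cast h7

end Pool.Agent.H17.RA
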