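import Mathlib

set_option autoImplicit false

namespace Pool.Agent.H17.Sf

open MeasureTheory Measure
open scoped ENNReal NNReal RealInnerProductSpace

abbrev E2 := EuclideanSpace ℝ (Fin 2)
abbrev E3 := EuclideanSpace ℝ (Fin 3)

/-- two-dimensional Hausdorff measure on the plane -/
noncomputable abbrev m2 : Measure E2 := μH[2]

instance : (m2).IsAddHaarMeasure := by
  have h := isAddHaarMeasure_hausdorffMeasure (E := E2)
  have e : (Module.finrank ℝ E2 : ℝ) = 2 := by simp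
  rw [e] at h
  exact h

noncomputable def u0 : E2 := EuclideanSpace.single 0 1
noncomputable def u1 : E2 := EuclideanSpace.single 1 1

theorem E2_decomp (x : E2) : x = x 0 • u0 + x 1 • u1 := by
  ext i
  fin_cases i <;> simp [u0, u1]

/-- cross product -/
noncomputable def cr (u v : E3) : E3 :=
  !₂[u 1 * v 2 - u 2 * v 1, u 2 * v 0 - u 0 * v 2, u 0 * v 1 - u 1 * v 0]

theorem norm_cr_sq (u v : E3) : ‖cr u v‖ ^ 2 = ‖u‖ ^ 2 * ‖v‖ ^ 2 - ⟪u, v⟫ ^ 2 := by
  rw [EuclideanSpace.norm_sq_eq, EuclideanSpace.norm_sq_eq, EuclideanSpace.norm_sq_eq,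
    PiLp.inner_apply]
  simp only [Fin.sum_univ_three, Real.norm_eq_abs, sq_abs, cr]
  simp
  ring

theorem det_sq (M : E2 →ₗ[ℝ] E2) :
    LinearMap.det M ^ 2 = ‖M u0‖ ^ 2 * ‖M u1‖ ^ 2 - ⟪M u0, M u1⟫ ^ 2 := by
  have hdet : LinearMap.det M = (M u0) 0 * (M u1) 1 - (M u1) 0 * (M u0) 1 := by
    rw [← LinearMap.det_toMatrix (EuclideanSpace.basisFun (Fin 2) ℝ).toBasis, Matrix.det_fin_two]
    simp [LinearMap.toMatrix_apply, u0, u1]
  rw [hdet, EuclideanSpace.norm_sq_eq, EuclideanSpace.norm_sq_eq, PiLp.inner_apply]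
  simp only [Fin.sum_univ_two, Real.norm_eq_abs, sq_abs]
  simp
  ring

/-- area of the image of a planar set under a linear map into space -/
theorem area (L : E2 →ₗ[ℝ] E3) (hL : Function.Injective L) (S : Set E2) :
    (μH[2] : Measure E3) (L '' S) = ENNReal.ofReal ‖cr (L u0) (L u1)‖ * m2 S := by
  set V : Submodule ℝ E3 := LinearMap.range L with hV
  have hfr : Module.finrank ℝ V = 2 := by
    rw [hV, LinearMap.finrank_range_of_inj hL]; simp
  let U : V ≃ₗᵢ[ℝ] E2 := ((stdOrthonormalBasis ℝ V).reindex (finCongr hfr)).repr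
  let L' : E2 →ₗ[ℝ] V := L.rangeRestrict
  let M : E2 →ₗ[ℝ] E2 := U.toLinearEquiv.toLinearMap ∘ₗ L'
  have hMn : ∀ x, ‖M x‖ = ‖L x‖ := by
    intro x
    show ‖U (L' x)‖ = _
    rw [U.norm_map]
    rfl
  have hMi : ∀ x y, ⟪M x, M y⟫ = ⟪L x, L y⟫ := by
    intro x y
    show ⟪U (L' x), U (L' y)⟫ = _
    rw [U.inner_map_map]
    rfl
  have h1 : L '' S = V.subtypeₗᵢ '' (L' '' S) := by
    rw [Set.image_image]
    rfl
  have h2 : M '' S = U '' (L' '' S) := by
    rw [Set.image_image]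
    rfl
  have h3 : (μH[2] : Measure E3) (L '' S) = (μH[2] : Measure E2) (M '' S) := by
    rw [h1, h2, V.subtypeₗᵢ.isometry.hausdorffMeasure_image (Or.inl (by norm_num)),
      U.isometry.hausdorffMeasure_image (Or.inl (by norm_num))]
  rw [h3, addHaar_image_linearMap m2 M S]
  congr 2
  have h4 : |LinearMap.det M| ^ 2 = ‖cr (L u0) (L u1)‖ ^ 2 := by
    rw [sq_abs, det_sq, norm_cr_sq, hMn, hMn, hMi]
  exact (sq_eq_sq₀ (abs_nonneg _) (norm_nonneg _)).1 h4

end Pool.Agent.H17.Sf
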