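import Pool.Agent.H17.Sf1

set_option autoImplicit false

namespace Pool.Agent.H17.Sf

open MeasureTheory Measure
open scoped ENNReal NNReal RealInnerProductSpace Pointwise

/-- Hlawka's inequality -/
theorem hlawka {E : Type*} [NormedAddCommGroup E] [InnerProductSpace ℝ E] (x y z : E) :
    ‖x + y‖ + ‖y + z‖ + ‖z + x‖ ≤ ‖x‖ + ‖y‖ + ‖z‖ + ‖x + y + z‖ := by
  set a := ‖x‖
  set b := ‖y‖
  set c := ‖z‖
  set s := ‖x + y + z‖
  set p := ‖x + y‖
  set q := ‖y + z‖
  set r := ‖z + x‖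
  have hid : a ^ 2 + b ^ 2 + c ^ 2 + s ^ 2 = p ^ 2 + q ^ 2 + r ^ 2 := by
    simp only [a, b, c, s, p, q, r]
    rw [norm_add_sq_real (x + y) z, norm_add_sq_real x y, norm_add_sq_real y z,
      norm_add_sq_real z x, inner_add_left, real_inner_comm x z]
    ring
  have hp : p ≤ a + b := norm_add_le _ _
  have hq : q ≤ b + c := norm_add_le _ _
  have hr : r ≤ c + a := norm_add_le _ _
  have hp2 : s ≤ p + c := norm_add_le _ _
  have hq2 : s ≤ a + q := by
    have : x + y + z = x + (y + z) := by abel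
    simp only [s, this]; exact norm_add_le _ _
  have hr2 : s ≤ r + b := by
    have : x + y + z = (z + x) + y := by abel
    simp only [s, this]; exact norm_add_le _ _
  have hp3 : p ≤ c + s := by
    have h := norm_sub_le (x + y + z) z
    have e : x + y + z - z = x + y := by abel
    rw [e] at h
    linarith
  have hq3 : q ≤ a + s := by
    have h := norm_sub_le (x + y + z) x
    have e : x + y + z - x = y + z := by abel
    rw [e] at h
    linarith
  have hr3 : r ≤ b + s := by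
    have h := norm_sub_le (x + y + z) y
    have e : x + y + z - y = z + x := by abel
    rw [e] at h
    linarith
  have ha : 0 ≤ a := norm_nonneg _
  have hb : 0 ≤ b := norm_nonneg _
  have hc : 0 ≤ c := norm_nonneg _
  have hs : 0 ≤ s := norm_nonneg _
  by_contra hneg
  push Not at hneg
  have hsum : 0 < a + b + c + s := by
    by_contra h0
    push Not at h0
    have : p ≤ 0 := by linarith
    have : q ≤ 0 := by linarith
    have : r ≤ 0 := by linarith
    linarith
  have key : (a + b + c + s) * (a + b + c + s - p - q - r) =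
      (a + b - p) * (c + s - p) + (b + c - q) * (a + s - q) + (c + a - r) * (b + s - r) := by
    linear_combination hid
  have h1 : 0 ≤ (a + b - p) * (c + s - p) := mul_nonneg (by linarith) (by linarith)
  have h2 : 0 ≤ (b + c - q) * (a + s - q) := mul_nonneg (by linarith) (by linarith)
  have h3 : 0 ≤ (c + a - r) * (b + s - r) := mul_nonneg (by linarith) (by linarith)
  nlinarith

/-- sign -/
noncomputable def sg (b : Bool) : ℝ := if b then 1 else -1

theorem sg_sq (b : Bool) : sg b * sg b = 1 := by cases b <;> simp [sg]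

theorem sg_abs (b : Bool) : |sg b| = 1 := by cases b <;> simp [sg]

/-- the inequality between the facets -/
theorem sign_ineq {E : Type*} [NormedAddCommGroup E] [InnerProductSpace ℝ E] (b0 b1 b2 : E) :
    4 * (‖b0‖ + ‖b1‖ + ‖b2‖) ≤
      ∑ e : Bool × Bool × Bool, ‖sg e.1 • b0 + sg e.2.1 • b1 + sg e.2.2 • b2‖ := by
  have h := hlawka (-b0 + b1 + b2) (b0 - b1 + b2) (b0 + b1 - b2)
  have e1 : -b0 + b1 + b2 + (b0 - b1 + b2) = (2:ℝ) • b2 := by rw [two_smul]; abel
  have e2 : b0 - b1 + b2 + (b0 + b1 - b2) = (2:ℝ) • b0 := by rw [two_smul]; abel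
  have e3 : b0 + b1 - b2 + (-b0 + b1 + b2) = (2:ℝ) • b1 := by rw [two_smul]; abel
  have e4 : -b0 + b1 + b2 + (b0 - b1 + b2) + (b0 + b1 - b2) = b0 + b1 + b2 := by abel
  rw [e4, e1, e2, e3, norm_smul, norm_smul, norm_smul] at h
  simp only [Fintype.sum_prod_type, Fintype.sum_bool, sg, if_true, Bool.false_eq_true, if_false,
    one_smul, neg_smul]
  have n1 : ‖b0 + -b1 + b2‖ = ‖b0 - b1 + b2‖ := by congr 1; abel
  have n2 : ‖b0 + b1 + -b2‖ = ‖b0 + b1 - b2‖ := by congr 1; abel
  have n3 : ‖b0 + -b1 + -b2‖ = ‖-b0 + b1 + b2‖ := by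
    rw [← norm_neg]; congr 1; abel
  have n4 : ‖-b0 + b1 + -b2‖ = ‖b0 - b1 + b2‖ := by
    rw [← norm_neg]; congr 1; abel
  have n5 : ‖-b0 + -b1 + b2‖ = ‖b0 + b1 - b2‖ := by
    rw [← norm_neg]; congr 1; abel
  have n6 : ‖-b0 + -b1 + -b2‖ = ‖b0 + b1 + b2‖ := by
    rw [← norm_neg]; congr 1; abel
  rw [n1, n2, n3, n4, n5, n6]
  norm_num at h ⊢
  linarith

/-- planar sets -/
def Tr : Set E2 := {x | 0 ≤ x 0 ∧ 0 ≤ x 1 ∧ x 0 + x 1 ≤ 1}
def Tro : Set E2 := {x | 0 < x 0 ∧ 0 < x 1 ∧ x 0 + x 1 < 1}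
def Hex : Set E2 := {x | (0 ≤ x 0 ∧ x 0 ≤ 2 / 3) ∧ (0 ≤ x 1 ∧ x 1 ≤ 2 / 3) ∧
  (0 ≤ 13 / 12 - x 0 - x 1 ∧ 13 / 12 - x 0 - x 1 ≤ 2 / 3)}
def Dm : Set E2 := {x | |x 0| + |x 1| ≤ 1}

theorem c0 : Continuous fun x : E2 => x 0 := by fun_prop
theorem c1 : Continuous fun x : E2 => x 1 := by fun_prop

theorem Tr_compact : IsCompact Tr := by
  apply Metric.isCompact_of_isClosed_isBounded
  · exact (isClosed_le continuous_const c0).inter ((isClosed_le continuous_const c1).inter
      (isClosed_le (c0.add c1) continuous_const))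
  · rw [isBounded_iff_forall_norm_le]
    refine ⟨2, fun x hx => ?_⟩
    obtain ⟨h1, h2, h3⟩ := hx
    rw [EuclideanSpace.norm_eq, Fin.sum_univ_two, Real.norm_eq_abs, Real.norm_eq_abs, sq_abs,
      sq_abs]
    rw [Real.sqrt_le_left (by norm_num)]
    nlinarith

theorem Tro_open : IsOpen Tro :=
  (isOpen_lt continuous_const c0).inter ((isOpen_lt continuous_const c1).inter
      (isOpen_lt (c0.add c1) continuous_const))

theorem Tr_lt_top : m2 Tr ≠ ⊤ := Tr_compact.measure_lt_top.ne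

/-- the affine scaling `x ↦ p + c x` -/
theorem scale (S : Set E2) (p : E2) {c : ℝ} (hc : 0 ≤ c) :
    m2 ((fun x => p + c • x) '' S) = ENNReal.ofReal (c ^ 2) * m2 S := by
  have e : (fun x => p + c • x) '' S = (fun x => p + x) '' (c • S) := by
    rw [← Set.image_smul, Set.image_image]
  rw [e]
  have h1 : (fun x => p + x) '' (c • S) = (IsometryEquiv.addLeft p) '' (c • S) := rfl
  rw [h1, IsometryEquiv.hausdorffMeasure_image]
  have h2 := addHaar_smul m2 c S
  rw [h2]
  congr 2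
  rw [finrank_euclideanSpace_fin, abs_of_nonneg (by positivity)]

end Pool.Agent.H17.Sf
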