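import Pool.Agent.H17.Sf2

set_option autoImplicit false

namespace Pool.Agent.H17.Sf

open MeasureTheory Measure Filter
open scoped ENNReal NNReal RealInnerProductSpace Pointwise Topology

/-- the open triangle has full measure -/
theorem Tro_eq : m2 Tr ≤ m2 Tro := by
  have hstep : ∀ k : ℕ, ENNReal.ofReal ((1 - 1 / ((k:ℝ) + 1)) ^ 2) * m2 Tr ≤ m2 Tro := by
    intro k
    set c : ℝ := 1 - 1 / ((k:ℝ) + 1) with hc
    have hk : 0 < 1 / ((k:ℝ) + 1) := by positivity
    have hk1 : 1 / ((k:ℝ) + 1) ≤ 1 := by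
      rw [div_le_one (by positivity)]
      have : (0:ℝ) ≤ k := Nat.cast_nonneg k
      linarith
    have hc0 : 0 ≤ c := by rw [hc]; linarith
    have hc1 : c < 1 := by rw [hc]; linarith
    set p : E2 := !₂[(1 - c) / 3, (1 - c) / 3] with hp
    rw [← scale Tr p hc0]
    apply measure_mono
    rintro _ ⟨x, ⟨h1, h2, h3⟩, rfl⟩
    have e0 : (p + c • x) 0 = (1 - c) / 3 + c * x 0 := by simp [hp]
    have e1 : (p + c • x) 1 = (1 - c) / 3 + c * x 1 := by simp [hp]
    refine ⟨?_, ?_, ?_⟩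
    · rw [e0]; have := mul_nonneg hc0 h1; linarith
    · rw [e1]; have := mul_nonneg hc0 h2; linarith
    · rw [e0, e1]
      have := mul_le_mul_of_nonneg_left h3 hc0
      nlinarith
  have hlim : Tendsto (fun k : ℕ => ENNReal.ofReal ((1 - 1 / ((k:ℝ) + 1)) ^ 2) * m2 Tr) atTop
      (𝓝 (ENNReal.ofReal ((1 - 0) ^ 2) * m2 Tr)) := by
    apply ENNReal.Tendsto.mul_const
    · apply ENNReal.tendsto_ofReal
      exact (tendsto_const_nhds.sub tendsto_one_div_add_atTop_nhds_zero_nat).pow 2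
    · right; exact Tr_lt_top
  have := le_of_tendsto' hlim hstep
  simpa using this

theorem open_scale (p : E2) {c : ℝ} (hc : 0 < c) : IsOpen ((fun x => p + c • x) '' Tro) := by
  have e : (fun x => p + c • x) '' Tro = (Homeomorph.addLeft p) '' (c • Tro) := by
    rw [← Set.image_smul, Set.image_image]; rfl
  rw [e]
  exact (Homeomorph.addLeft p).isOpenMap _ (Tro_open.smul₀ hc.ne')

theorem mem_scale {p x : E2} {c : ℝ} (hc : 0 < c) {S : Set E2} :
    x ∈ (fun x => p + c • x) '' S ↔ c⁻¹ • (x - p) ∈ S := by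
  constructor
  · rintro ⟨y, hy, rfl⟩
    have : c⁻¹ • (p + c • y - p) = y := by
      rw [add_sub_cancel_left, smul_smul, inv_mul_cancel₀ hc.ne', one_smul]
    rw [this]; exact hy
  · intro h
    refine ⟨_, h, ?_⟩
    show p + c • (c⁻¹ • (x - p)) = x
    rw [smul_smul, mul_inv_cancel₀ hc.ne', one_smul, add_sub_cancel]

/-- the hexagon -/
theorem Hex_le : m2 Hex ≤ ENNReal.ofReal (94 / 144) * m2 Tr := by
  set K0 := (fun x => (0:E2) + (5 / 12 : ℝ) • x) '' Tro with hK0
  set K1 := (fun x => (!₂[2 / 3, 0] : E2) + (5 / 12 : ℝ) • x) '' Tro with hK1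
  set K2 := (fun x => (!₂[0, 2 / 3] : E2) + (5 / 12 : ℝ) • x) '' Tro with hK2
  have hc : (0:ℝ) < 5 / 12 := by norm_num
  have k0 : ∀ x ∈ K0, 0 < x 0 ∧ 0 < x 1 ∧ x 0 + x 1 < 5 / 12 := by
    rintro _ ⟨x, ⟨h1, h2, h3⟩, rfl⟩
    simp
    refine ⟨h1, h2, by linarith⟩
  have k1 : ∀ x ∈ K1, 2 / 3 < x 0 ∧ 0 < x 1 ∧ x 0 + x 1 < 13 / 12 := by
    rintro _ ⟨x, ⟨h1, h2, h3⟩, rfl⟩
    simp
    refine ⟨h1, h2, by linarith⟩
  have k2 : ∀ x ∈ K2, 0 < x 0 ∧ 2 / 3 < x 1 ∧ x 0 + x 1 < 13 / 12 := by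
    rintro _ ⟨x, ⟨h1, h2, h3⟩, rfl⟩
    simp
    refine ⟨h1, h2, by linarith⟩
  have o0 : MeasurableSet K0 := (open_scale _ hc).measurableSet
  have o1 : MeasurableSet K1 := (open_scale _ hc).measurableSet
  have o2 : MeasurableSet K2 := (open_scale _ hc).measurableSet
  have d1 : Disjoint Hex K0 := by
    rw [Set.disjoint_left]
    rintro x ⟨_, _, h3⟩ hx
    have := k0 x hx
    linarith [h3.2, this.2.2]
  have d2 : Disjoint (Hex ∪ K0) K1 := by
    rw [Set.disjoint_left]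
    rintro x (⟨h1, _, _⟩ | h) hx
    · have := k1 x hx
      linarith [h1.2, this.1]
    · have := k1 x hx
      have h' := k0 x h
      linarith [this.1, h'.2.2, h'.2.1]
  have d3 : Disjoint (Hex ∪ K0 ∪ K1) K2 := by
    rw [Set.disjoint_left]
    rintro x ((⟨_, h2, _⟩ | h) | h) hx
    · have := k2 x hx
      linarith [h2.2, this.2.1]
    · have := k2 x hx
      have h' := k0 x h
      linarith [this.2.1, h'.2.2, h'.1]
    · have := k2 x hx
      have h' := k1 x h
      linarith [this.2.1, this.2.2, h'.1]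
  have hsub : Hex ∪ K0 ∪ K1 ∪ K2 ⊆ (fun x => (0:E2) + (13 / 12 : ℝ) • x) '' Tr := by
    intro x hx
    rw [mem_scale (by norm_num)]
    have e0 : ((13 / 12 : ℝ)⁻¹ • (x - (0:E2))) 0 = 12 / 13 * x 0 := by simp
    have e1 : ((13 / 12 : ℝ)⁻¹ • (x - (0:E2))) 1 = 12 / 13 * x 1 := by simp
    show 0 ≤ _ ∧ 0 ≤ _ ∧ _ + _ ≤ (1:ℝ)
    rw [e0, e1]
    rcases hx with ((⟨h1, h2, h3⟩ | h) | h) | h
    · refine ⟨by linarith [h1.1], by linarith [h2.1], by linarith [h3.1]⟩
    · have := k0 x h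
      refine ⟨by linarith, by linarith, by linarith⟩
    · have := k1 x h
      refine ⟨by linarith, by linarith, by linarith⟩
    · have := k2 x h
      refine ⟨by linarith, by linarith, by linarith⟩
  have hle := measure_mono (μ := m2) hsub
  rw [measure_union d3 o2, measure_union d2 o1, measure_union d1 o0, scale _ _ hc.le,
    scale _ _ hc.le, scale _ _ hc.le, scale _ _ (by norm_num)] at hle
  set δ := m2 Tr with hδ
  have hδ' : δ ≤ m2 Tro := Tro_eq
  have hδt : δ ≠ ⊤ := Tr_lt_top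
  have h25 : ENNReal.ofReal ((5 / 12) ^ 2) * δ ≤ ENNReal.ofReal ((5 / 12) ^ 2) * m2 Tro := by
    gcongr
  have h2 : m2 Hex + (ENNReal.ofReal ((5 / 12) ^ 2) * δ + ENNReal.ofReal ((5 / 12) ^ 2) * δ +
      ENNReal.ofReal ((5 / 12) ^ 2) * δ) ≤ ENNReal.ofReal ((13 / 12) ^ 2) * δ := by
    refine le_trans ?_ hle
    calc _ ≤ m2 Hex + (ENNReal.ofReal ((5 / 12) ^ 2) * m2 Tro +
          ENNReal.ofReal ((5 / 12) ^ 2) * m2 Tro + ENNReal.ofReal ((5 / 12) ^ 2) * m2 Tro) := by
          gcongr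
      _ = _ := by ring
  have h3 : ENNReal.ofReal ((5 / 12) ^ 2) * δ + ENNReal.ofReal ((5 / 12) ^ 2) * δ +
      ENNReal.ofReal ((5 / 12) ^ 2) * δ = ENNReal.ofReal (75 / 144) * δ := by
    rw [← add_mul, ← add_mul, ← ENNReal.ofReal_add (by norm_num) (by norm_num),
      ← ENNReal.ofReal_add (by norm_num) (by norm_num)]
    congr 2
    norm_num
  have h4 : ENNReal.ofReal ((13 / 12) ^ 2) * δ = ENNReal.ofReal (94 / 144) * δ +
      ENNReal.ofReal (75 / 144) * δ := by
    rw [← add_mul, ← ENNReal.ofReal_add (by norm_num) (by norm_num)]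
    congr 2
    norm_num
  rw [h3, h4] at h2
  exact (ENNReal.add_le_add_iff_right (ENNReal.mul_ne_top ENNReal.ofReal_ne_top hδt)).1 h2

/-- reflections of the plane -/
noncomputable def rf (a b : Bool) : E2 ≃ₗᵢ[ℝ] E2 where
  toFun x := !₂[sg a * x 0, sg b * x 1]
  invFun x := !₂[sg a * x 0, sg b * x 1]
  left_inv x := by
    ext i
    fin_cases i
    · simp [← mul_assoc, sg_sq]
    · simp [← mul_assoc, sg_sq]
  right_inv x := by
    ext i
    fin_cases i
    · simp [← mul_assoc, sg_sq]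
    · simp [← mul_assoc, sg_sq]
  map_add' x y := by
    ext i
    fin_cases i <;> simp [mul_add]
  map_smul' c x := by
    ext i
    fin_cases i <;> simp <;> ring
  norm_map' x := by
    show ‖(!₂[sg a * x 0, sg b * x 1] : E2)‖ = ‖x‖
    rw [EuclideanSpace.norm_eq, EuclideanSpace.norm_eq, Fin.sum_univ_two, Fin.sum_univ_two]
    simp [abs_mul, sg_abs]

theorem Dm_le : m2 Dm ≤ 4 * m2 Tr := by
  have hsub : Dm ⊆ (rf true true '' Tr ∪ rf true false '' Tr) ∪
      (rf false true '' Tr ∪ rf false false '' Tr) := by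
    intro x hx
    have hx' : |x 0| + |x 1| ≤ 1 := hx
    have key : ∀ a b : Bool, 0 ≤ sg a * x 0 → 0 ≤ sg b * x 1 → x ∈ rf a b '' Tr := by
      intro a b ha hb
      refine ⟨rf a b x, ⟨ha, hb, ?_⟩, ?_⟩
      · have h1 : sg a * x 0 = |x 0| := by
          rw [← abs_of_nonneg ha, abs_mul, sg_abs, one_mul]
        have h2 : sg b * x 1 = |x 1| := by
          rw [← abs_of_nonneg hb, abs_mul, sg_abs, one_mul]
        show sg a * x 0 + sg b * x 1 ≤ 1
        rw [h1, h2]; exact hx'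
      · exact (rf a b).right_inv x
    rcases le_total 0 (x 0) with h0 | h0 <;> rcases le_total 0 (x 1) with h1 | h1
    · left; left; apply key <;> simp [sg] <;> assumption
    · left; right; apply key <;> simp [sg] <;> assumption
    · right; left; apply key <;> simp [sg] <;> assumption
    · right; right; apply key <;> simp [sg] <;> assumption
  have hm : ∀ a b : Bool, m2 (rf a b '' Tr) = m2 Tr := fun a b =>
    (rf a b).toIsometryEquiv.hausdorffMeasure_image 2 Tr
  calc m2 Dm ≤ m2 ((rf true true '' Tr ∪ rf true false '' Tr) ∪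
      (rf false true '' Tr ∪ rf false false '' Tr)) := measure_mono hsub
    _ ≤ (m2 Tr + m2 Tr) + (m2 Tr + m2 Tr) := by
        refine (measure_union_le _ _).trans ?_
        refine add_le_add ((measure_union_le _ _).trans ?_) ((measure_union_le _ _).trans ?_) <;>
          rw [hm, hm]
    _ = 4 * m2 Tr := by ring

end Pool.Agent.H17.Sf
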