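import Mathlib

set_option autoImplicit false

namespace Pool.Agent.H17.Sf

open MeasureTheory Measure

/-- `ℝⁿ` with the Euclidean norm -/
abbrev En (n : ℕ) := EuclideanSpace ℝ (Fin n)

/-- A convex body: compact, convex, with nonempty interior. -/
def IsConvexBody {n : ℕ} (K : Set (En n)) : Prop :=
  IsCompact K ∧ Convex ℝ K ∧ (interior K).Nonempty

/-- Central symmetry: for some `x` the translate `C - x` is symmetric, that is, `y ∈ C` if and only
if `2x - y ∈ C`. -/
def IsCentrallySymmetric {n : ℕ} (C : Set (En n)) : Prop :=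
  ∃ x, ∀ y, y ∈ C ↔ (2 : ℝ) • x - y ∈ C

/-- Surface area in dimension `n`: the `(n-1)`-dimensional Hausdorff measure of the boundary. -/
noncomputable def surfaceArea {n : ℕ} (K : Set (En n)) : ENNReal :=
  (μH[(n : ℝ) - 1] : Measure (En n)) (frontier K)

/-- Nonsingular affine maps `x ↦ M x + v` with `det M ≠ 0`. -/
def IsNonsingularAffine {n : ℕ} (A : En n → En n) : Prop :=
  ∃ (M : Matrix (Fin n) (Fin n) ℝ) (v : Fin n → ℝ), M.det ≠ 0 ∧
    ∀ (x : En n) (i : Fin n), A x i = (∑ j, M i j * x j) + v i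

/-- `C₂` dominates `C₁` in affine surface area. -/
def Dominates {n : ℕ} (C₂ C₁ : Set (En n)) : Prop :=
  ∀ A : En n → En n, IsNonsingularAffine A → surfaceArea (A '' C₁) ≤ surfaceArea (A '' C₂)

end Pool.Agent.H17.Sf
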