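import Pool.Agent.H17.Sf3
import Pool.Agent.H17.SfDef

set_option autoImplicit false

namespace Pool.Agent.H17.Sf

open MeasureTheory Measure Filter
open scoped ENNReal NNReal RealInnerProductSpace Pointwise Topology

/-- the truncated octahedron -/
def C1 : Set E3 := {x | |x 0| + |x 1| + |x 2| ≤ 13 / 12 ∧ |x 0| ≤ 2 / 3 ∧ |x 1| ≤ 2 / 3 ∧
  |x 2| ≤ 2 / 3}

/-- the octahedron -/
def C2 : Set E3 := {x | |x 0| + |x 1| + |x 2| ≤ 1}

/-- image of a planar piece -/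
theorem piece (A : E3 ≃ᵃ[ℝ] E3) (p : E3) (L : E2 →ₗ[ℝ] E3) (hL : Function.Injective L)
    (S : Set E2) : (μH[2] : Measure E3) (A '' ((fun x => p + L x) '' S)) =
      ENNReal.ofReal ‖cr (A.linear (L u0)) (A.linear (L u1))‖ * m2 S := by
  have e : A '' ((fun x => p + L x) '' S) =
      (IsometryEquiv.addLeft (A p)) '' ((A.linear.toLinearMap ∘ₗ L) '' S) := by
    rw [Set.image_image, Set.image_image]
    apply Set.image_congr
    intro x _
    have h := A.map_vadd p (L x)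
    rw [vadd_eq_add, vadd_eq_add] at h
    rw [add_comm, h, IsometryEquiv.addLeft_apply, add_comm]
    rfl
  rw [e, IsometryEquiv.hausdorffMeasure_image, area _ (by
    intro x y hxy
    exact hL (A.linear.injective hxy))]
  rfl

abbrev B3 := Bool × Bool × Bool

/-- the plane of a facet of the octahedron -/
noncomputable def Lf (e : B3) : E2 →ₗ[ℝ] E3 where
  toFun x := !₂[-(sg e.1 * (x 0 + x 1)), sg e.2.1 * x 0, sg e.2.2 * x 1]
  map_add' x y := by
    ext i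
    fin_cases i <;> simp <;> ring
  map_smul' c x := by
    ext i
    fin_cases i <;> simp <;> ring

theorem Lf_inj (e : B3) : Function.Injective (Lf e) := by
  intro x y h
  have h1 : sg e.2.1 * x 0 = sg e.2.1 * y 0 := congrArg (fun z : E3 => z 1) h
  have h2 : sg e.2.2 * x 1 = sg e.2.2 * y 1 := congrArg (fun z : E3 => z 2) h
  have s1 := sg_sq e.2.1
  have s2 := sg_sq e.2.2
  ext i
  fin_cases i
  · show x 0 = y 0
    linear_combination (sg e.2.1) * h1 - (x 0 - y 0) * s1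
  · show x 1 = y 1
    linear_combination (sg e.2.2) * h2 - (x 1 - y 1) * s2

/-- the vertex of a facet -/
noncomputable def pf (e : B3) (c : ℝ) : E3 := !₂[sg e.1 * c, 0, 0]

noncomputable def w0 : E3 := EuclideanSpace.single 0 1
noncomputable def w1 : E3 := EuclideanSpace.single 1 1
noncomputable def w2 : E3 := EuclideanSpace.single 2 1

theorem Lf_u0 (e : B3) : Lf e u0 = sg e.2.1 • w1 - sg e.1 • w0 := by
  ext i
  fin_cases i <;> simp [Lf, u0, w0, w1]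

theorem Lf_u1 (e : B3) : Lf e u1 = sg e.2.2 • w2 - sg e.1 • w0 := by
  ext i
  fin_cases i <;> simp [Lf, u1, w0, w2]

theorem cr_facet (a0 a1 a2 : E3) (s0 s1 s2 : ℝ) (h0 : s0 * s0 = 1) (h1 : s1 * s1 = 1)
    (h2 : s2 * s2 = 1) : cr (s1 • a1 - s0 • a0) (s2 • a2 - s0 • a0) =
      (s0 * s1 * s2) • (s0 • cr a1 a2 + s1 • cr a2 a0 + s2 • cr a0 a1) := by
  ext i
  fin_cases i
  · simp [cr]
    linear_combination (-(s1 * s2 * (a1 1 * a2 2 - a1 2 * a2 1))) * h0 -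
      (s0 * s2 * (a2 1 * a0 2 - a2 2 * a0 1)) * h1 -
      (s0 * s1 * (a0 1 * a1 2 - a0 2 * a1 1)) * h2
  · simp [cr]
    linear_combination (-(s1 * s2 * (a1 2 * a2 0 - a1 0 * a2 2))) * h0 -
      (s0 * s2 * (a2 2 * a0 0 - a2 0 * a0 2)) * h1 -
      (s0 * s1 * (a0 2 * a1 0 - a0 0 * a1 2)) * h2
  · simp [cr]
    linear_combination (-(s1 * s2 * (a1 0 * a2 1 - a1 1 * a2 0))) * h0 -
      (s0 * s2 * (a2 0 * a0 1 - a2 1 * a0 0)) * h1 -
      (s0 * s1 * (a0 0 * a1 1 - a0 1 * a1 0)) * h2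

/-- the three vectors -/
noncomputable def bb (A : E3 ≃ᵃ[ℝ] E3) (i : Fin 3) : E3 :=
  ![cr (A.linear w1) (A.linear w2), cr (A.linear w2) (A.linear w0),
    cr (A.linear w0) (A.linear w1)] i

/-- area density of a facet -/
noncomputable def Jf (A : E3 ≃ᵃ[ℝ] E3) (e : B3) : ℝ :=
  ‖sg e.1 • bb A 0 + sg e.2.1 • bb A 1 + sg e.2.2 • bb A 2‖

theorem Jf_eq (A : E3 ≃ᵃ[ℝ] E3) (e : B3) :
    ‖cr (A.linear (Lf e u0)) (A.linear (Lf e u1))‖ = Jf A e := by
  rw [Lf_u0, Lf_u1, map_sub, map_sub, map_smul, map_smul, map_smul,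
    cr_facet _ _ _ _ _ _ (sg_sq _) (sg_sq _) (sg_sq _), norm_smul, Real.norm_eq_abs, abs_mul,
    abs_mul, sg_abs, sg_abs, sg_abs, one_mul, one_mul, one_mul]
  rfl

/-- the open facets of the octahedron -/
def Fo (e : B3) : Set E3 := {y | (0 < sg e.1 * y 0 ∧ 0 < sg e.2.1 * y 1 ∧ 0 < sg e.2.2 * y 2) ∧
  sg e.1 * y 0 + sg e.2.1 * y 1 + sg e.2.2 * y 2 = 1}

theorem Fo_eq (e : B3) : Fo e = (fun x => pf e 1 + Lf e x) '' Tro := by
  have s0 := sg_sq e.1
  have s1 := sg_sq e.2.1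
  have s2 := sg_sq e.2.2
  ext y
  constructor
  · rintro ⟨⟨h0, h1, h2⟩, h3⟩
    refine ⟨!₂[sg e.2.1 * y 1, sg e.2.2 * y 2], ⟨?_, ?_, ?_⟩, ?_⟩
    · simpa using h1
    · simpa using h2
    · simp; linarith
    · ext i
      fin_cases i
      · simp [pf, Lf]
        linear_combination (-(sg e.1)) * h3 + (y 0) * s0
      · simp [pf, Lf]
        linear_combination (y 1) * s1
      · simp [pf, Lf]
        linear_combination (y 2) * s2
  · rintro ⟨x, ⟨h0, h1, h2⟩, rfl⟩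
    have e0 : sg e.1 * (pf e 1 + Lf e x) 0 = 1 - x 0 - x 1 := by
      simp [pf, Lf]
      linear_combination (1 - x 0 - x 1) * s0
    have e1 : sg e.2.1 * (pf e 1 + Lf e x) 1 = x 0 := by
      simp [pf, Lf]
      linear_combination (x 0) * s1
    have e2 : sg e.2.2 * (pf e 1 + Lf e x) 2 = x 1 := by
      simp [pf, Lf]
      linear_combination (x 1) * s2
    refine ⟨⟨?_, ?_, ?_⟩, ?_⟩
    · rw [e0]; linarith
    · rw [e1]; exact h0
    · rw [e2]; exact h1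
    · rw [e0, e1, e2]; ring

/-- the hexagonal facets of the truncated octahedron -/
def Fh (e : B3) : Set E3 := {y | ((0 ≤ sg e.1 * y 0 ∧ sg e.1 * y 0 ≤ 2 / 3) ∧
  (0 ≤ sg e.2.1 * y 1 ∧ sg e.2.1 * y 1 ≤ 2 / 3) ∧ (0 ≤ sg e.2.2 * y 2 ∧ sg e.2.2 * y 2 ≤ 2 / 3)) ∧
  sg e.1 * y 0 + sg e.2.1 * y 1 + sg e.2.2 * y 2 = 13 / 12}

theorem Fh_sub (e : B3) : Fh e ⊆ (fun x => pf e (13 / 12) + Lf e x) '' Hex := by
  have s0 := sg_sq e.1
  have s1 := sg_sq e.2.1
  have s2 := sg_sq e.2.2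
  rintro y ⟨⟨h0, h1, h2⟩, h3⟩
  refine ⟨!₂[sg e.2.1 * y 1, sg e.2.2 * y 2], ⟨?_, ?_, ?_⟩, ?_⟩
  · simpa using h1
  · simpa using h2
  · simp
    constructor <;> linarith
  · ext i
    fin_cases i
    · simp [pf, Lf]
      linear_combination (-(sg e.1)) * h3 + (y 0) * s0
    · simp [pf, Lf]
      linear_combination (y 1) * s1
    · simp [pf, Lf]
      linear_combination (y 2) * s2

end Pool.Agent.H17.Sf
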