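import Pool.Agent.H17.Sf4

set_option autoImplicit false

namespace Pool.Agent.H17.Sf

open MeasureTheory Measure Filter
open scoped ENNReal NNReal RealInnerProductSpace Pointwise Topology

theorem d0 : Continuous fun x : E3 => x 0 := by fun_prop
theorem d1 : Continuous fun x : E3 => x 1 := by fun_prop
theorem d2 : Continuous fun x : E3 => x 2 := by fun_prop

theorem dsum : Continuous fun x : E3 => |x 0| + |x 1| + |x 2| := (d0.abs.add d1.abs).add d2.abs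

theorem C1_closed : IsClosed C1 :=
  (isClosed_le dsum continuous_const).inter ((isClosed_le d0.abs continuous_const).inter
    ((isClosed_le d1.abs continuous_const).inter (isClosed_le d2.abs continuous_const)))

theorem C2_closed : IsClosed C2 := isClosed_le dsum continuous_const

theorem bdd_of {C : Set E3} (h : ∀ x ∈ C, |x 0| + |x 1| + |x 2| ≤ 2) : Bornology.IsBounded C := by
  rw [isBounded_iff_forall_norm_le]
  refine ⟨2, fun x hx => ?_⟩
  have h1 := h x hx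
  rw [EuclideanSpace.norm_eq, Fin.sum_univ_three, Real.norm_eq_abs, Real.norm_eq_abs,
    Real.norm_eq_abs, Real.sqrt_le_left (by norm_num)]
  nlinarith [abs_nonneg (x 0), abs_nonneg (x 1), abs_nonneg (x 2)]

theorem C1_compact : IsCompact C1 :=
  Metric.isCompact_of_isClosed_isBounded C1_closed (bdd_of fun x hx => by linarith [hx.1])

theorem C2_compact : IsCompact C2 :=
  Metric.isCompact_of_isClosed_isBounded C2_closed (bdd_of fun x (hx : |x 0| + |x 1| + |x 2| ≤ 1) => by linarith)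

/-- the strict part of `C1` -/
def C1s : Set E3 := {x | |x 0| + |x 1| + |x 2| < 13 / 12 ∧ |x 0| < 2 / 3 ∧ |x 1| < 2 / 3 ∧
  |x 2| < 2 / 3}

theorem C1s_open : IsOpen C1s :=
  (isOpen_lt dsum continuous_const).inter ((isOpen_lt d0.abs continuous_const).inter
    ((isOpen_lt d1.abs continuous_const).inter (isOpen_lt d2.abs continuous_const)))

/-- the square facets -/
def Qs0 (b : Bool) : Set E3 := {y | sg b * y 0 = 2 / 3 ∧ |y 1| + |y 2| ≤ 5 / 12}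
def Qs1 (b : Bool) : Set E3 := {y | sg b * y 1 = 2 / 3 ∧ |y 2| + |y 0| ≤ 5 / 12}
def Qs2 (b : Bool) : Set E3 := {y | sg b * y 2 = 2 / 3 ∧ |y 0| + |y 1| ≤ 5 / 12}

theorem exists_sg (t : ℝ) : ∃ b : Bool, sg b * t = |t| := by
  rcases le_total 0 t with h | h
  · exact ⟨true, by rw [abs_of_nonneg h]; simp [sg]⟩
  · exact ⟨false, by rw [abs_of_nonpos h]; simp [sg]⟩

theorem frontier_C1 : frontier C1 ⊆ (⋃ e : B3, Fh e) ∪ ((⋃ b, Qs0 b) ∪ ((⋃ b, Qs1 b) ∪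
    (⋃ b, Qs2 b))) := by
  intro x hx
  rw [frontier, C1_closed.closure_eq] at hx
  obtain ⟨⟨h1, h2, h3, h4⟩, hni⟩ := hx
  have hns : x ∉ C1s := by
    intro h
    apply hni
    have hsub : C1s ⊆ C1 := fun y hy => ⟨hy.1.le, hy.2.1.le, hy.2.2.1.le, hy.2.2.2.le⟩
    exact interior_maximal hsub C1s_open h
  obtain ⟨b0, hb0⟩ := exists_sg (x 0)
  obtain ⟨b1, hb1⟩ := exists_sg (x 1)
  obtain ⟨b2, hb2⟩ := exists_sg (x 2)
  rcases eq_or_lt_of_le h1 with g1 | g1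
  · left
    rw [Set.mem_iUnion]
    refine ⟨(b0, b1, b2), ?_⟩
    show ((0 ≤ sg b0 * x 0 ∧ sg b0 * x 0 ≤ 2 / 3) ∧ (0 ≤ sg b1 * x 1 ∧ sg b1 * x 1 ≤ 2 / 3) ∧
      (0 ≤ sg b2 * x 2 ∧ sg b2 * x 2 ≤ 2 / 3)) ∧
      sg b0 * x 0 + sg b1 * x 1 + sg b2 * x 2 = 13 / 12
    rw [hb0, hb1, hb2]
    exact ⟨⟨⟨abs_nonneg _, h2⟩, ⟨abs_nonneg _, h3⟩, ⟨abs_nonneg _, h4⟩⟩, g1⟩
  right
  rcases eq_or_lt_of_le h2 with g2 | g2
  · left
    rw [Set.mem_iUnion]
    refine ⟨b0, ?_, ?_⟩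
    · rw [hb0]; exact g2
    · linarith
  right
  rcases eq_or_lt_of_le h3 with g3 | g3
  · left
    rw [Set.mem_iUnion]
    refine ⟨b1, ?_, ?_⟩
    · rw [hb1]; exact g3
    · linarith
  right
  rcases eq_or_lt_of_le h4 with g4 | g4
  · rw [Set.mem_iUnion]
    refine ⟨b2, ?_, ?_⟩
    · rw [hb2]; exact g4
    · linarith
  exact absurd ⟨g1, g2, g3, g4⟩ hns

/-- coordinate planes -/
noncomputable def Ms (a b : E3) : E2 →ₗ[ℝ] E3 where
  toFun x := x 0 • a + x 1 • b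
  map_add' x y := by
    show (x 0 + y 0) • a + (x 1 + y 1) • b = _
    rw [add_smul, add_smul]; abel
  map_smul' c x := by
    show (c * x 0) • a + (c * x 1) • b = c • (x 0 • a + x 1 • b)
    rw [smul_add, mul_smul, mul_smul]

theorem Ms_u0 (a b : E3) : Ms a b u0 = a := by
  show (u0 0) • a + (u0 1) • b = a
  simp [u0]

theorem Ms_u1 (a b : E3) : Ms a b u1 = b := by
  show (u1 0) • a + (u1 1) • b = b
  simp [u1]

theorem Ms_inj0 : Function.Injective (Ms w1 w2) := by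
  intro x y h
  have h1 : (Ms w1 w2 x) 1 = (Ms w1 w2 y) 1 := by rw [h]
  have h2 : (Ms w1 w2 x) 2 = (Ms w1 w2 y) 2 := by rw [h]
  simp [Ms, w1, w2] at h1 h2
  ext i
  fin_cases i
  · exact h1
  · exact h2

theorem Ms_inj1 : Function.Injective (Ms w2 w0) := by
  intro x y h
  have h1 : (Ms w2 w0 x) 2 = (Ms w2 w0 y) 2 := by rw [h]
  have h2 : (Ms w2 w0 x) 0 = (Ms w2 w0 y) 0 := by rw [h]
  simp [Ms, w0, w2] at h1 h2
  ext i
  fin_cases i
  · exact h1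
  · exact h2

theorem Ms_inj2 : Function.Injective (Ms w0 w1) := by
  intro x y h
  have h1 : (Ms w0 w1 x) 0 = (Ms w0 w1 y) 0 := by rw [h]
  have h2 : (Ms w0 w1 x) 1 = (Ms w0 w1 y) 1 := by rw [h]
  simp [Ms, w0, w1] at h1 h2
  ext i
  fin_cases i
  · exact h1
  · exact h2

/-- the scaled square -/
noncomputable def Sq : Set E2 := (fun x => (0:E2) + (5 / 12 : ℝ) • x) '' Dm

theorem mem_Sq {x : E2} (h : |x 0| + |x 1| ≤ 5 / 12) : x ∈ Sq := by
  unfold Sq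
  rw [mem_scale (by norm_num)]
  show |((5 / 12 : ℝ)⁻¹ • (x - 0)) 0| + |((5 / 12 : ℝ)⁻¹ • (x - 0)) 1| ≤ 1
  simp [abs_mul]
  linarith

theorem Sq_le : m2 Sq ≤ ENNReal.ofReal (100 / 144) * m2 Tr := by
  unfold Sq
  rw [scale _ _ (by norm_num)]
  calc ENNReal.ofReal ((5 / 12) ^ 2) * m2 Dm ≤ ENNReal.ofReal ((5 / 12) ^ 2) * (4 * m2 Tr) := by
        gcongr
        exact Dm_le
    _ = _ := by
        rw [← mul_assoc]
        congr 1
        have : (4 : ℝ≥0∞) = ENNReal.ofReal 4 := by norm_num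
        rw [this, ← ENNReal.ofReal_mul (by norm_num)]
        congr 1
        norm_num

theorem Qs0_sub (b : Bool) : Qs0 b ⊆ (fun x => (sg b * (2 / 3)) • w0 + Ms w1 w2 x) '' Sq := by
  have s0 := sg_sq b
  rintro y ⟨h1, h2⟩
  refine ⟨!₂[y 1, y 2], mem_Sq (by simpa using h2), ?_⟩
  ext i
  fin_cases i
  · simp [Ms, w0, w1, w2]
    linear_combination (-(sg b)) * h1 + (y 0) * s0
  · simp [Ms, w0, w1, w2]
  · simp [Ms, w0, w1, w2]

theorem Qs1_sub (b : Bool) : Qs1 b ⊆ (fun x => (sg b * (2 / 3)) • w1 + Ms w2 w0 x) '' Sq := by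
  have s0 := sg_sq b
  rintro y ⟨h1, h2⟩
  refine ⟨!₂[y 2, y 0], mem_Sq (by simpa using h2), ?_⟩
  ext i
  fin_cases i
  · simp [Ms, w0, w1, w2]
  · simp [Ms, w0, w1, w2]
    linear_combination (-(sg b)) * h1 + (y 1) * s0
  · simp [Ms, w0, w1, w2]

theorem Qs2_sub (b : Bool) : Qs2 b ⊆ (fun x => (sg b * (2 / 3)) • w2 + Ms w0 w1 x) '' Sq := by
  have s0 := sg_sq b
  rintro y ⟨h1, h2⟩
  refine ⟨!₂[y 0, y 1], mem_Sq (by simpa using h2), ?_⟩
  ext i
  fin_cases i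
  · simp [Ms, w0, w1, w2]
  · simp [Ms, w0, w1, w2]
  · simp [Ms, w0, w1, w2]
    linear_combination (-(sg b)) * h1 + (y 2) * s0

/-- the measure of the images of the square facets -/
theorem Qs_le (A : E3 ≃ᵃ[ℝ] E3) (b : Bool) :
    (μH[2] : Measure E3) (A '' Qs0 b) ≤ ENNReal.ofReal ‖bb A 0‖ * (ENNReal.ofReal (100 / 144) * m2 Tr) ∧
    (μH[2] : Measure E3) (A '' Qs1 b) ≤ ENNReal.ofReal ‖bb A 1‖ * (ENNReal.ofReal (100 / 144) * m2 Tr) ∧
    (μH[2] : Measure E3) (A '' Qs2 b) ≤ ENNReal.ofReal ‖bb A 2‖ * (ENNReal.ofReal (100 / 144) * m2 Tr) := by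
  refine ⟨?_, ?_, ?_⟩
  · refine (measure_mono (Set.image_mono (Qs0_sub b))).trans ?_
    rw [piece A _ _ Ms_inj0, Ms_u0, Ms_u1]
    exact mul_le_mul_right Sq_le _
  · refine (measure_mono (Set.image_mono (Qs1_sub b))).trans ?_
    rw [piece A _ _ Ms_inj1, Ms_u0, Ms_u1]
    exact mul_le_mul_right Sq_le _
  · refine (measure_mono (Set.image_mono (Qs2_sub b))).trans ?_
    rw [piece A _ _ Ms_inj2, Ms_u0, Ms_u1]
    exact mul_le_mul_right Sq_le _

theorem Fh_le (A : E3 ≃ᵃ[ℝ] E3) (e : B3) :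
    (μH[2] : Measure E3) (A '' Fh e) ≤ ENNReal.ofReal (Jf A e) * (ENNReal.ofReal (94 / 144) * m2 Tr) := by
  refine (measure_mono (Set.image_mono (Fh_sub e))).trans ?_
  rw [piece A _ _ (Lf_inj e), Jf_eq]
  exact mul_le_mul_right Hex_le _

theorem Fo_ge (A : E3 ≃ᵃ[ℝ] E3) (e : B3) :
    ENNReal.ofReal (Jf A e) * m2 Tr ≤ (μH[2] : Measure E3) (A '' Fo e) := by
  rw [Fo_eq, piece A _ _ (Lf_inj e), Jf_eq]
  exact mul_le_mul_right Tro_eq _

end Pool.Agent.H17.Sf
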