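import Pool.Agent.H17.Sf5

set_option autoImplicit false

namespace Pool.Agent.H17.Sf

open MeasureTheory Measure Filter
open scoped ENNReal NNReal RealInnerProductSpace Pointwise Topology

theorem homeo_frontier (A : E3 ≃ᵃ[ℝ] E3) (C : Set E3) : frontier (A '' C) = A '' frontier C :=
  (A.toHomeomorphOfFiniteDimensional.image_frontier C).symm

theorem Jf_nonneg (A : E3 ≃ᵃ[ℝ] E3) (e : B3) : 0 ≤ Jf A e := norm_nonneg _

/-- the sum over the square facets -/
theorem squares_le (A : E3 ≃ᵃ[ℝ] E3) :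
    (μH[2] : Measure E3) (A '' ((⋃ b, Qs0 b) ∪ ((⋃ b, Qs1 b) ∪ (⋃ b, Qs2 b)))) ≤
      ENNReal.ofReal (200 / 144 * (‖bb A 0‖ + ‖bb A 1‖ + ‖bb A 2‖)) * m2 Tr := by
  set δ := m2 Tr with hδ
  have two : ∀ (Q : Bool → Set E3) (c : ℝ), 0 ≤ c →
      (∀ b, (μH[2] : Measure E3) (A '' Q b) ≤ ENNReal.ofReal c * (ENNReal.ofReal (100 / 144) * δ)) →
      (μH[2] : Measure E3) (A '' (⋃ b, Q b)) ≤ ENNReal.ofReal (200 / 144 * c) * δ := by
    intro Q c hc hQ
    rw [Set.image_iUnion]
    refine (measure_iUnion_le _).trans ?_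
    rw [tsum_bool]
    refine (add_le_add (hQ false) (hQ true)).trans (le_of_eq ?_)
    rw [← mul_assoc, ← ENNReal.ofReal_mul hc, ← add_mul, ← ENNReal.ofReal_add (by positivity)
      (by positivity)]
    congr 2
    ring
  rw [Set.image_union, Set.image_union]
  refine (measure_union_le _ _).trans ?_
  refine (add_le_add (two Qs0 ‖bb A 0‖ (norm_nonneg _) fun b => (Qs_le A b).1)
    ((measure_union_le _ _).trans (add_le_add (two Qs1 ‖bb A 1‖ (norm_nonneg _) fun b =>
      (Qs_le A b).2.1) (two Qs2 ‖bb A 2‖ (norm_nonneg _) fun b => (Qs_le A b).2.2)))).trans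
        (le_of_eq ?_)
  rw [← add_mul, ← add_mul, ← ENNReal.ofReal_add (by positivity) (by positivity),
    ← ENNReal.ofReal_add (by positivity) (by positivity)]
  congr 2
  ring

theorem upper (A : E3 ≃ᵃ[ℝ] E3) : (μH[2] : Measure E3) (frontier (A '' C1)) ≤
    ENNReal.ofReal (∑ e : B3, Jf A e) * m2 Tr := by
  set δ := m2 Tr with hδ
  rw [homeo_frontier]
  refine (measure_mono (Set.image_mono frontier_C1)).trans ?_
  rw [Set.image_union]
  refine (measure_union_le _ _).trans ?_
  have h1 : (μH[2] : Measure E3) (A '' (⋃ e : B3, Fh e)) ≤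
      ENNReal.ofReal (94 / 144 * ∑ e : B3, Jf A e) * δ := by
    rw [Set.image_iUnion]
    refine (measure_iUnion_le _).trans ?_
    rw [tsum_fintype]
    refine (Finset.sum_le_sum fun e _ => Fh_le A e).trans (le_of_eq ?_)
    rw [← Finset.sum_mul, ← ENNReal.ofReal_sum_of_nonneg (fun e _ => Jf_nonneg A e), ← mul_assoc,
      ← ENNReal.ofReal_mul (Finset.sum_nonneg fun e _ => Jf_nonneg A e)]
    congr 2
    ring
  refine (add_le_add h1 (squares_le A)).trans ?_
  rw [← add_mul, ← ENNReal.ofReal_add (by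
    have := Finset.sum_nonneg (s := Finset.univ) fun (e : B3) _ => Jf_nonneg A e
    positivity) (by positivity)]
  gcongr
  have h2 : 4 * (‖bb A 0‖ + ‖bb A 1‖ + ‖bb A 2‖) ≤ ∑ e : B3, Jf A e :=
    sign_ineq (bb A 0) (bb A 1) (bb A 2)
  linarith

theorem Fo_disj : Pairwise (Function.onFun Disjoint Fo) := by
  intro e e' hne
  rw [Function.onFun, Set.disjoint_left]
  rintro y ⟨⟨h0, h1, h2⟩, _⟩ ⟨⟨g0, g1, g2⟩, _⟩
  apply hne
  have key : ∀ (b b' : Bool) (t : ℝ), 0 < sg b * t → 0 < sg b' * t → b = b' := by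
    intro b b' t hb hb'
    cases b <;> cases b' <;> simp [sg] at hb hb' <;> first | rfl | linarith
  exact Prod.ext (key _ _ _ h0 g0) (Prod.ext (key _ _ _ h1 g1) (key _ _ _ h2 g2))

theorem Fo_meas (e : B3) : MeasurableSet (Fo e) := by
  have m0 : Measurable fun y : E3 => sg e.1 * y 0 := (d0.measurable).const_mul _
  have m1 : Measurable fun y : E3 => sg e.2.1 * y 1 := (d1.measurable).const_mul _
  have m2 : Measurable fun y : E3 => sg e.2.2 * y 2 := (d2.measurable).const_mul _
  exact ((measurableSet_lt measurable_const m0).inter ((measurableSet_lt measurable_const m1).inter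
    (measurableSet_lt measurable_const m2))).inter
    (measurableSet_eq_fun ((m0.add m1).add m2) measurable_const)

theorem Fo_frontier (e : B3) : Fo e ⊆ frontier C2 := by
  rintro y ⟨⟨h0, h1, h2⟩, h3⟩
  have a0 : |y 0| = sg e.1 * y 0 := by
    rw [← abs_of_pos h0, abs_mul, sg_abs, one_mul]
  have a1 : |y 1| = sg e.2.1 * y 1 := by
    rw [← abs_of_pos h1, abs_mul, sg_abs, one_mul]
  have a2 : |y 2| = sg e.2.2 * y 2 := by
    rw [← abs_of_pos h2, abs_mul, sg_abs, one_mul]
  have hsum : |y 0| + |y 1| + |y 2| = 1 := by rw [a0, a1, a2]; exact h3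
  rw [frontier, C2_closed.closure_eq]
  refine ⟨hsum.le, ?_⟩
  intro hint
  have hc : Tendsto (fun t : ℝ => t • y) (𝓝[>] 1) (𝓝 y) := by
    have : Continuous fun t : ℝ => t • y := by fun_prop
    have h := this.tendsto 1
    rw [one_smul] at h
    exact h.mono_left nhdsWithin_le_nhds
  have hev := hc.eventually (isOpen_interior.mem_nhds hint)
  obtain ⟨t, ht1, ht2⟩ := (hev.and self_mem_nhdsWithin).exists
  have ht3 : t • y ∈ C2 := interior_subset ht1
  have ht4 : (1:ℝ) < t := ht2
  have h5 : |t * y 0| + |t * y 1| + |t * y 2| ≤ 1 := ht3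
  rw [abs_mul, abs_mul, abs_mul, abs_of_pos (by linarith : (0:ℝ) < t)] at h5
  nlinarith

theorem lower (A : E3 ≃ᵃ[ℝ] E3) : ENNReal.ofReal (∑ e : B3, Jf A e) * m2 Tr ≤
    (μH[2] : Measure E3) (frontier (A '' C2)) := by
  rw [homeo_frontier]
  have hsub : (⋃ e : B3, A '' Fo e) ⊆ A '' frontier C2 := by
    rw [← Set.image_iUnion]
    exact Set.image_mono (Set.iUnion_subset Fo_frontier)
  refine le_trans ?_ (measure_mono hsub)
  rw [measure_iUnion (fun e e' hne => (Set.disjoint_image_iff A.injective).2 (Fo_disj hne))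
    (fun e => (A.toHomeomorphOfFiniteDimensional.toMeasurableEquiv.measurableSet_image).2
      (Fo_meas e)), tsum_fintype, ENNReal.ofReal_sum_of_nonneg (fun e _ => Jf_nonneg A e),
      Finset.sum_mul]
  exact Finset.sum_le_sum fun e _ => Fo_ge A e

theorem dom : Dominates C2 C1 := by
  rintro A ⟨M, v, hdet, hA⟩
  -- the linear map
  let L : E3 →ₗ[ℝ] E3 :=
    { toFun := fun x => WithLp.toLp 2 (fun i => ∑ j, M i j * x j)
      map_add' := fun x y => by
        ext i
        show ∑ j, M i j * (x + y) j = ∑ j, M i j * x j + ∑ j, M i j * y j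
        rw [← Finset.sum_add_distrib]
        apply Finset.sum_congr rfl
        intro j _
        simp [mul_add]
      map_smul' := fun c x => by
        ext i
        show ∑ j, M i j * (c • x) j = c * ∑ j, M i j * x j
        rw [Finset.mul_sum]
        apply Finset.sum_congr rfl
        intro j _
        simp
        ring }
  have hinj : Function.Injective L := by
    rw [← LinearMap.ker_eq_bot, LinearMap.ker_eq_bot']
    intro x hx
    have h1 : M.mulVec (fun j => x j) = 0 := by
      ext i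
      exact congrArg (fun z : E3 => z i) hx
    have h2 := Matrix.eq_zero_of_mulVec_eq_zero hdet h1
    ext i
    exact congrFun h2 i
  let Le : E3 ≃ₗ[ℝ] E3 := LinearEquiv.ofInjectiveEndo L hinj
  let Ae : E3 ≃ᵃ[ℝ] E3 := Le.toAffineEquiv.trans (AffineEquiv.constVAdd ℝ E3 (WithLp.toLp 2 v))
  have hAe : A = Ae := by
    funext x
    ext i
    rw [hA]
    show _ = (WithLp.toLp 2 v +ᵥ L x) i
    rw [vadd_eq_add, add_comm]
    rfl
  rw [hAe]
  unfold surfaceArea
  have e : (((3:ℕ) : ℝ) - 1) = 2 := by norm_num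
  rw [e]
  exact (upper Ae).trans (lower Ae)

/-! ### convexity and volume -/

theorem conv_abs (i : Fin 3) : ConvexOn ℝ Set.univ fun x : E3 => |x i| := by
  refine ⟨convex_univ, fun x _ y _ a b ha hb _ => ?_⟩
  show |(a • x + b • y) i| ≤ a • |x i| + b • |y i|
  have e1 : (a • x + b • y) i = a * x i + b * y i := by simp
  rw [e1]
  refine (abs_add_le _ _).trans ?_
  rw [abs_mul, abs_mul, abs_of_nonneg ha, abs_of_nonneg hb, smul_eq_mul, smul_eq_mul]

theorem conv_sum : ConvexOn ℝ Set.univ fun x : E3 => |x 0| + |x 1| + |x 2| :=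
  ((conv_abs 0).add (conv_abs 1)).add (conv_abs 2)

theorem C1_convex : Convex ℝ C1 := by
  have h := ((conv_sum.convex_le (13 / 12)).inter (((conv_abs 0).convex_le (2 / 3)).inter
    (((conv_abs 1).convex_le (2 / 3)).inter ((conv_abs 2).convex_le (2 / 3)))))
  have e : C1 = {x : E3 | x ∈ Set.univ ∧ |x 0| + |x 1| + |x 2| ≤ 13 / 12} ∩
      ({x : E3 | x ∈ Set.univ ∧ |x 0| ≤ 2 / 3} ∩ ({x : E3 | x ∈ Set.univ ∧ |x 1| ≤ 2 / 3} ∩
        {x : E3 | x ∈ Set.univ ∧ |x 2| ≤ 2 / 3})) := by
    ext x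
    simp [C1]
  rw [e]; exact h

theorem C2_convex : Convex ℝ C2 := by
  have h := conv_sum.convex_le 1
  have e : C2 = {x : E3 | x ∈ Set.univ ∧ |x 0| + |x 1| + |x 2| ≤ 1} := by
    ext x
    simp [C2]
  rw [e]; exact h

theorem C1_body : IsConvexBody C1 := by
  refine ⟨C1_compact, C1_convex, ⟨0, ?_⟩⟩
  have hsub : C1s ⊆ C1 := fun y hy => ⟨hy.1.le, hy.2.1.le, hy.2.2.1.le, hy.2.2.2.le⟩
  apply interior_maximal hsub C1s_open
  refine ⟨?_, ?_, ?_, ?_⟩ <;> simp <;> norm_num

theorem C2_open_sub : {x : E3 | |x 0| + |x 1| + |x 2| < 1} ⊆ interior C2 :=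
  interior_maximal (fun y (hy : |y 0| + |y 1| + |y 2| < 1) => (hy.le : |y 0| + |y 1| + |y 2| ≤ 1))
    (isOpen_lt dsum continuous_const)

theorem C2_body : IsConvexBody C2 := by
  refine ⟨C2_compact, C2_convex, ⟨0, C2_open_sub ?_⟩⟩
  show |(0:E3) 0| + |(0:E3) 1| + |(0:E3) 2| < 1
  simp

theorem C1_symm : IsCentrallySymmetric C1 := by
  refine ⟨0, fun y => ?_⟩
  simp [C1]

theorem C2_symm : IsCentrallySymmetric C2 := by
  refine ⟨0, fun y => ?_⟩
  simp [C2]

/-- translation and scaling in space -/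
theorem scale3 (S : Set E3) (p : E3) {c : ℝ} (hc : 0 ≤ c) :
    volume ((fun x => p + c • x) '' S) = ENNReal.ofReal (c ^ 3) * volume S := by
  have e : (fun x => p + c • x) '' S = (p + ·) '' (c • S) := by
    rw [← Set.image_smul, Set.image_image]
  rw [e, Set.image_add_left, measure_preimage_add, addHaar_smul]
  congr 2
  rw [finrank_euclideanSpace_fin, abs_of_nonneg (by positivity)]

/-- the halves of the octahedron -/
def Hf (i : Fin 3) (b : Bool) : Set E3 := {y | 0 < sg b * y i} ∩ C2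

theorem Hf_meas (i : Fin 3) (b : Bool) : MeasurableSet (Hf i b) := by
  apply MeasurableSet.inter _ C2_closed.measurableSet
  have : Continuous fun y : E3 => sg b * y i := by fun_prop
  exact (isOpen_lt continuous_const this).measurableSet

theorem Hf_le (i : Fin 3) : volume (Hf i true) + volume (Hf i false) ≤ volume C2 := by
  rw [← measure_union _ (Hf_meas i false)]
  · exact measure_mono (Set.union_subset Set.inter_subset_right Set.inter_subset_right)
  · rw [Set.disjoint_left]
    rintro y ⟨h1, _⟩ ⟨h2, _⟩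
    have h1' : 0 < sg true * y i := h1
    have h2' : 0 < sg false * y i := h2
    simp [sg] at h1' h2'
    linarith

theorem cover : (fun x => (0:E3) + (13 / 12 : ℝ) • x) '' C2 ⊆ C1 ∪ ⋃ (i : Fin 3),
    (((fun x => (sg true * (2 / 3)) • (EuclideanSpace.single i 1 : E3) + (5 / 12 : ℝ) • x) ''
      Hf i true) ∪ ((fun x => (sg false * (2 / 3)) • (EuclideanSpace.single i 1 : E3) +
        (5 / 12 : ℝ) • x) '' Hf i false)) := by
  rintro _ ⟨x, hx, rfl⟩
  have hx' : |x 0| + |x 1| + |x 2| ≤ 1 := hx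
  by_cases hC : ∀ i : Fin 3, |13 / 12 * x i| ≤ 2 / 3
  · left
    show |(0 + (13 / 12 : ℝ) • x) 0| + |(0 + (13 / 12 : ℝ) • x) 1| + |(0 + (13 / 12 : ℝ) • x) 2| ≤
      13 / 12 ∧ |(0 + (13 / 12 : ℝ) • x) 0| ≤ 2 / 3 ∧ |(0 + (13 / 12 : ℝ) • x) 1| ≤ 2 / 3 ∧
      |(0 + (13 / 12 : ℝ) • x) 2| ≤ 2 / 3
    have e : ∀ i, (0 + (13 / 12 : ℝ) • x) i = 13 / 12 * x i := by intro i; simp
    rw [e, e, e]
    refine ⟨?_, hC 0, hC 1, hC 2⟩
    rw [abs_mul, abs_mul, abs_mul, abs_of_pos (by norm_num : (0:ℝ) < 13 / 12)]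
    linarith
  · right
    push Not at hC
    obtain ⟨i, hi⟩ := hC
    rw [Set.mem_iUnion]
    refine ⟨i, ?_⟩
    have hsum : ∑ j, |x j| ≤ 1 := by rw [Fin.sum_univ_three]; exact hx'
    have key : ∀ b : Bool, 2 / 3 < sg b * (13 / 12 * x i) → (0 + (13 / 12 : ℝ) • x : E3) ∈
        (fun x => (sg b * (2 / 3)) • (EuclideanSpace.single i 1 : E3) + (5 / 12 : ℝ) • x) ''
          Hf i b := by
      intro b hb
      have s0 := sg_sq b
      set z : E3 := (5 / 12 : ℝ)⁻¹ • ((13 / 12 : ℝ) • x -
        (sg b * (2 / 3)) • (EuclideanSpace.single i 1 : E3)) with hz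
      have hzi : sg b * z i = 12 / 5 * (sg b * (13 / 12 * x i) - 2 / 3) := by
        simp [hz]
        linear_combination (-(12 / 5 * (2 / 3))) * s0
      have hzj : ∀ j, j ≠ i → z j = 12 / 5 * (13 / 12 * x j) := by
        intro j hj
        simp [hz, hj]
      refine ⟨z, ⟨?_, ?_⟩, ?_⟩
      · show 0 < sg b * z i
        rw [hzi]; linarith
      · show |z 0| + |z 1| + |z 2| ≤ 1
        have h1 : ∑ j, |z j| ≤ 1 := by
          rw [← Finset.add_sum_erase _ _ (Finset.mem_univ i)]
          rw [← Finset.add_sum_erase _ _ (Finset.mem_univ i)] at hsum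
          have h2 : ∑ j ∈ Finset.univ.erase i, |z j| =
              13 / 5 * ∑ j ∈ Finset.univ.erase i, |x j| := by
            rw [Finset.mul_sum]
            apply Finset.sum_congr rfl
            intro j hj
            rw [hzj j (Finset.ne_of_mem_erase hj), abs_mul, abs_mul,
              abs_of_pos (by norm_num : (0:ℝ) < 12 / 5), abs_of_pos (by norm_num : (0:ℝ) < 13 / 12)]
            ring
          have h3 : |z i| = 12 / 5 * (13 / 12 * |x i| - 2 / 3) := by
            have h4 : |z i| = sg b * z i := by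
              rw [← abs_of_pos (show 0 < sg b * z i by rw [hzi]; linarith), abs_mul, sg_abs,
                one_mul]
            have h5 : |x i| = sg b * x i := by
              have : 0 < sg b * x i := by nlinarith
              rw [← abs_of_pos this, abs_mul, sg_abs, one_mul]
            rw [h4, hzi, h5]
            ring
          rw [h2, h3]
          linarith
        rw [Fin.sum_univ_three] at h1
        exact h1
      · show (sg b * (2 / 3)) • (EuclideanSpace.single i 1 : E3) + (5 / 12 : ℝ) • z = _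
        rw [hz, smul_smul, mul_inv_cancel₀ (by norm_num), one_smul, zero_add]
        abel
    obtain ⟨b, hb⟩ := exists_sg (13 / 12 * x i)
    rw [← hb] at hi
    cases b
    · right; exact key false hi
    · left; exact key true hi

theorem vol_lt : volume C2 < volume C1 := by
  set V := volume C2 with hV
  have hVpos : 0 < V := lt_of_lt_of_le
    (isOpen_interior.measure_pos volume C2_body.2.2) (measure_mono interior_subset)
  have hVt : V ≠ ⊤ := C2_compact.measure_lt_top.ne
  have h1 := measure_mono (μ := volume) cover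
  rw [scale3 _ _ (by norm_num)] at h1
  have h2 : ENNReal.ofReal ((13 / 12) ^ 3) * V ≤ volume C1 + ENNReal.ofReal (3 * (5 / 12) ^ 3) * V := by
    refine h1.trans ((measure_union_le _ _).trans (add_le_add le_rfl ?_))
    refine (measure_iUnion_le _).trans ?_
    rw [tsum_fintype]
    calc _ ≤ ∑ i : Fin 3, ENNReal.ofReal ((5 / 12) ^ 3) * V := by
          apply Finset.sum_le_sum
          intro i _
          refine (measure_union_le _ _).trans ?_
          rw [scale3 _ _ (by norm_num), scale3 _ _ (by norm_num), ← mul_add]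
          exact mul_le_mul_right (Hf_le i) _
      _ = _ := by
          rw [Finset.sum_const, Finset.card_univ, Fintype.card_fin, nsmul_eq_mul, ← mul_assoc]
          congr 1
          have : ((3:ℕ) : ℝ≥0∞) = ENNReal.ofReal 3 := by norm_num
          rw [this, ← ENNReal.ofReal_mul (by norm_num)]
  have h3 : ENNReal.ofReal ((13 / 12) ^ 3) * V = ENNReal.ofReal (1822 / 1728) * V +
      ENNReal.ofReal (3 * (5 / 12) ^ 3) * V := by
    rw [← add_mul, ← ENNReal.ofReal_add (by norm_num) (by norm_num)]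
    congr 2
    norm_num
  rw [h3] at h2
  have h4 : ENNReal.ofReal (1822 / 1728) * V ≤ volume C1 :=
    (ENNReal.add_le_add_iff_right (ENNReal.mul_ne_top ENNReal.ofReal_ne_top hVt)).1 h2
  refine lt_of_lt_of_le ?_ h4
  calc V = 1 * V := (one_mul V).symm
    _ < ENNReal.ofReal (1822 / 1728) * V := by
        apply ENNReal.mul_lt_mul_left hVpos.ne' hVt
        rw [← ENNReal.ofReal_one]
        exact (ENNReal.ofReal_lt_ofReal_iff (by norm_num)).2 (by norm_num)

theorem main : ∃ K₁ K₂ : Set (En 3), IsConvexBody K₁ ∧ IsConvexBody K₂ ∧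
    IsCentrallySymmetric K₁ ∧ IsCentrallySymmetric K₂ ∧ Dominates K₂ K₁ ∧
      volume K₂ < volume K₁ :=
  ⟨C1, C2, C1_body, C2_body, C1_symm, C2_symm, dom, vol_lt⟩

end Pool.Agent.H17.Sf
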