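import Mathlib
import Pool.Agent.H17.Str3

namespace Pool.Agent.H17.Str

open Pool.Agent.H17.Newton

/-- The symmetrised upper left block. -/
def S0 : Matrix (Fin 5) (Fin 5) ℤ := !![100000000000000,9899999900000,989999990000,98999999000,0;9899999900000,100000000000000,9899999900000,989999990000,0;989999990000,9899999900000,100000000000000,9899999900000,0;98999999000,989999990000,9899999900000,100000000000000,0;0,0,0,0,100000000000000]

noncomputable def SS : Matrix (Fin 5) (Fin 5) ℝ := S0.map (Int.castRingHom ℝ)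

lemma S0_sym : ∀ i j : Fin 5, S0 i j = S0 j i := by
  intro i j
  fin_cases i <;> fin_cases j <;> rfl

lemma S0_B0 : ∀ i j : Fin 5, i ≠ 4 → j ≠ 4 → (10 : ℤ) ^ (i : ℕ) * B0 i j = S0 i j * 10 ^ (j : ℕ) := by
  decide

lemma SS_BB (i j : Fin 5) (hi : i ≠ 4) (hj : j ≠ 4) :
    (10 : ℝ) ^ (i : ℕ) * BB i j = SS i j * 10 ^ (j : ℕ) := by
  have := S0_B0 i j hi hj
  simp only [BB, SS, Matrix.map_apply, eq_intCast]
  exact_mod_cast this

lemma SS_herm {k : ℕ} (α : Fin k → Fin 5) : (SS.submatrix α α).IsHermitian := by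
  ext i j
  simp only [Matrix.conjTranspose_apply, Matrix.submatrix_apply, SS, Matrix.map_apply, eq_intCast,
    star_trivial]
  rw [S0_sym]

lemma det_eq {k : ℕ} (α : Fin k → Fin 5) (hα : ∀ i, α i ≠ 4) (x : ℝ) :
    (algebraMap ℝ (Matrix (Fin k) (Fin k) ℝ) x - BB.submatrix α α).det =
      (algebraMap ℝ (Matrix (Fin k) (Fin k) ℝ) x - SS.submatrix α α).det := by
  set D : Matrix (Fin k) (Fin k) ℝ := Matrix.diagonal (fun i => (10 : ℝ) ^ (α i : ℕ)) with hD
  have h : D * (algebraMap ℝ (Matrix (Fin k) (Fin k) ℝ) x - BB.submatrix α α) =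
      (algebraMap ℝ (Matrix (Fin k) (Fin k) ℝ) x - SS.submatrix α α) * D := by
    ext i j
    rw [hD, Matrix.diagonal_mul, Matrix.mul_diagonal, Matrix.sub_apply, Matrix.sub_apply,
      Matrix.algebraMap_matrix_apply, Matrix.submatrix_apply, Matrix.submatrix_apply]
    have := SS_BB (α i) (α j) (hα i) (hα j)
    by_cases hij : i = j
    · subst hij
      simp only [if_true]
      linear_combination -this
    · simp only [hij, if_false]
      linear_combination -this
  have h2 := congrArg Matrix.det h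
  rw [Matrix.det_mul, Matrix.det_mul, mul_comm] at h2
  have hd : D.det ≠ 0 := by
    rw [hD, Matrix.det_diagonal]
    exact Finset.prod_ne_zero_iff.mpr (fun i _ => by positivity)
  exact mul_right_cancel₀ hd h2

lemma spec_eq {k : ℕ} (α : Fin k → Fin 5) (hα : ∀ i, α i ≠ 4) :
    spectrum ℝ (BB.submatrix α α) = spectrum ℝ (SS.submatrix α α) := by
  ext x
  rw [mem_spec, mem_spec, det_eq α hα]

lemma shift_psd {k : ℕ} (T : Matrix (Fin k) (Fin k) ℝ) (hT : T.IsHermitian) (a : ℝ) :
    (T - algebraMap ℝ _ a).PosSemidef ↔ ∀ x ∈ spectrum ℝ T, a ≤ x := by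
  rw [Matrix.posSemidef_iff_isHermitian_and_spectrum_nonneg, ← spectrum.sub_singleton_eq]
  constructor
  · rintro ⟨_, h⟩ x hx
    have := h (Set.sub_mem_sub hx (Set.mem_singleton a))
    simpa using this
  · intro h
    refine ⟨?_, ?_⟩
    · refine hT.sub ?_
      ext i j
      simp [Matrix.algebraMap_matrix_apply, eq_comm]
    · rintro y ⟨x, hx, b, hb, rfl⟩
      rw [Set.mem_singleton_iff] at hb
      subst hb
      have := h x hx
      simpa using this

lemma sym_least {k : ℕ} (T : Matrix (Fin k) (Fin k) ℝ) (hT : T.IsHermitian) (hk : 0 < k) :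
    ∃ a, IsLeast (spectrum ℝ T) a := by
  have : Nonempty (Fin k) := ⟨⟨0, hk⟩⟩
  rw [hT.spectrum_real_eq_range_eigenvalues]
  obtain ⟨i, hi⟩ := Finite.exists_min hT.eigenvalues
  exact ⟨_, ⟨i, rfl⟩, by rintro _ ⟨j, rfl⟩; exact hi j⟩

lemma sym_mono {k m : ℕ} (T : Matrix (Fin k) (Fin k) ℝ) (hT : T.IsHermitian) (γ : Fin m → Fin k)
    (hγ : Function.Injective γ) (a : ℝ) (h : ∀ x ∈ spectrum ℝ T, a ≤ x) :
    ∀ x ∈ spectrum ℝ (T.submatrix γ γ), a ≤ x := by
  rw [← shift_psd _ (hT.submatrix γ)]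
  rw [← shift_psd _ hT] at h
  have := h.submatrix γ
  convert this using 1
  ext i j
  simp [Matrix.algebraMap_matrix_apply, hγ.eq_iff]

lemma row0 : ∀ α : Fin 0 → Fin 5, Inc α → (∀ i, α i ≠ 4) → ∀ i,
    ∑ j ∈ Finset.univ.erase i, |S0 (α i) (α j)| < 50000000000000 := by decide +kernel

lemma row1 : ∀ α : Fin 1 → Fin 5, Inc α → (∀ i, α i ≠ 4) → ∀ i,
    ∑ j ∈ Finset.univ.erase i, |S0 (α i) (α j)| < 50000000000000 := by decide +kernel

lemma row2 : ∀ α : Fin 2 → Fin 5, Inc α → (∀ i, α i ≠ 4) → ∀ i,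
    ∑ j ∈ Finset.univ.erase i, |S0 (α i) (α j)| < 50000000000000 := by decide +kernel

lemma row3 : ∀ α : Fin 3 → Fin 5, Inc α → (∀ i, α i ≠ 4) → ∀ i,
    ∑ j ∈ Finset.univ.erase i, |S0 (α i) (α j)| < 50000000000000 := by decide +kernel

lemma row4 : ∀ α : Fin 4 → Fin 5, Inc α → (∀ i, α i ≠ 4) → ∀ i,
    ∑ j ∈ Finset.univ.erase i, |S0 (α i) (α j)| < 50000000000000 := by decide +kernel

lemma row5 : ∀ α : Fin 5 → Fin 5, Inc α → (∀ i, α i ≠ 4) → ∀ i,
    ∑ j ∈ Finset.univ.erase i, |S0 (α i) (α j)| < 50000000000000 := by decide +kernel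

lemma S0_diag : ∀ i : Fin 5, (S0 i i : ℤ) = 100000000000000 := by decide

lemma lower {m : ℕ} (α : Fin m → Fin 5) (hα : Inc α) (h4 : ∀ i, α i ≠ 4) :
    ∀ x ∈ spectrum ℝ (BB.submatrix α α), 50000000000000 < x := by
  intro x hx
  rw [spec_eq α h4, mem_spec] at hx
  by_contra hle
  push Not at hle
  have hrow : ∀ i, ∑ j ∈ Finset.univ.erase i, |S0 (α i) (α j)| < 50000000000000 := by
    have hm : m ≤ 5 := hα.le
    interval_cases m
    · exact row0 α hα h4
    · exact row1 α hα h4
    · exact row2 α hα h4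
    · exact row3 α hα h4
    · exact row4 α hα h4
    · exact row5 α hα h4
  refine det_ne_zero_of_sum_row_lt_diag ?_ hx
  intro i
  have e1 : ∑ j ∈ Finset.univ.erase i,
      ‖(algebraMap ℝ (Matrix (Fin m) (Fin m) ℝ) x - SS.submatrix α α) i j‖ =
      ((∑ j ∈ Finset.univ.erase i, |S0 (α i) (α j)| : ℤ) : ℝ) := by
    push_cast
    refine Finset.sum_congr rfl (fun j hj => ?_)
    have hne : i ≠ j := (Finset.ne_of_mem_erase hj).symm
    rw [Matrix.sub_apply, Matrix.algebraMap_matrix_apply, if_neg hne, Matrix.submatrix_apply,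
      zero_sub, norm_neg, SS, Matrix.map_apply, eq_intCast, Real.norm_eq_abs]
  have e2 : ((∑ j ∈ Finset.univ.erase i, |S0 (α i) (α j)| : ℤ) : ℝ) < 50000000000000 := by
    exact_mod_cast hrow i
  rw [e1]
  refine e2.trans_le ?_
  rw [Matrix.sub_apply, Matrix.algebraMap_matrix_apply, if_pos rfl, Matrix.submatrix_apply,
    SS, Matrix.map_apply, eq_intCast, Real.norm_eq_abs, S0_diag]
  simp only [Algebra.algebraMap_self, RingHom.id_apply]
  push_cast
  rw [abs_of_nonpos (by linarith)]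
  linarith

lemma lo_anti {a b : ℕ} (h1 : 1 ≤ a) (h : a ≤ b) (hb : b ≤ 5) : lo b ≤ lo a := by
  interval_cases b <;> interval_cases a <;> norm_num [lo]

theorem isOmega : IsOmega BB := by
  intro k m α β hα hβ hm hsub
  choose γ hγ using hsub
  have hγi : Function.Injective γ := by
    intro i j hij
    exact hβ.inj (by rw [hγ i, hγ j, hij])
  have hmk : m ≤ k := by simpa using Fintype.card_le_of_injective γ hγi
  have hk5 : k ≤ 5 := hα.le
  by_cases h4 : ∃ i, α i = 4
  · obtain ⟨a, ha, ha1, ha2⟩ := spec4 k α hα h4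
    by_cases h4' : ∃ i, β i = 4
    · rcases hmk.lt_or_eq with hlt | heq
      · obtain ⟨b, hb, hb1, hb2⟩ := spec4 m β hβ h4'
        refine ⟨a, b, ha, hb, ?_⟩
        have := lo_anti (a := m) (b := k - 1) hm (by omega) (by omega)
        linarith
      · subst heq
        have hαβ : α = β := by
          have hs1 : StrictMono α := fun i j h => hα i j h
          have hs2 : StrictMono β := fun i j h => hβ i j h
          refine (hs1.range_inj hs2).1 ?_
          have hsurj : Function.Surjective γ := Finite.surjective_of_injective hγi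
          ext y
          constructor
          · rintro ⟨i, rfl⟩
            obtain ⟨j, rfl⟩ := hsurj i
            exact ⟨j, hγ j⟩
          · rintro ⟨j, rfl⟩
            exact ⟨γ j, (hγ j).symm⟩
        subst hαβ
        exact ⟨a, a, ha, ha, le_rfl⟩
    · push Not at h4'
      have hlow := lower β hβ h4'
      obtain ⟨b, hb⟩ := sym_least (SS.submatrix β β) (SS_herm β) hm
      rw [← spec_eq β h4'] at hb
      refine ⟨a, b, ha, hb, ?_⟩
      have h1 := hlow b hb.1
      have hk2 : 2 ≤ k := by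
        by_contra hlt
        have hk1 : k = 1 := by omega
        subst hk1
        obtain ⟨i, hi⟩ := h4
        have : γ ⟨0, hm⟩ = i := Subsingleton.elim _ _
        exact h4' ⟨0, hm⟩ (by rw [hγ, this, hi])
      have h2 := lo_anti (a := 1) (b := k - 1) le_rfl (by omega) (by omega)
      have h3 : lo 1 = 50000000000000 := by simp [lo]
      linarith
  · push Not at h4
    have h4' : ∀ i, β i ≠ 4 := fun i => by rw [hγ]; exact h4 _
    obtain ⟨a, ha⟩ := sym_least (SS.submatrix α α) (SS_herm α) (by omega)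
    obtain ⟨b, hb⟩ := sym_least (SS.submatrix β β) (SS_herm β) hm
    refine ⟨a, b, by rw [spec_eq α h4]; exact ha, by rw [spec_eq β h4']; exact hb, ?_⟩
    have e : SS.submatrix β β = (SS.submatrix α α).submatrix γ γ := by
      ext i j
      simp [hγ]
    rw [e] at hb
    exact sym_mono _ (SS_herm α) γ hγi a (fun x hx => ha.2 hx) b hb.1

theorem isTau : IsTau BB := by
  refine ⟨isOmega, ?_⟩
  intro x hx
  have hid : BB.submatrix id id = BB := rfl
  obtain ⟨a, ha, ha1, _⟩ := spec4 5 id (fun i j h => h) ⟨4, rfl⟩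
  have h0 : lo 5 = 0 := by simp [lo]
  rw [hid] at ha
  have := ha.2 hx
  linarith

end Pool.Agent.H17.Str
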