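import Pool.Agent.H17.TilDef

set_option autoImplicit false

namespace Pool.Agent.H17.Til

open Pool.Agent.H17.TilDef Set Filter Topology

variable {E : Type} [NormedAddCommGroup E] [NormedSpace ℝ E]

theorem relint_iff {F : Set E} {x : E} : x ∈ intrinsicInterior ℝ F ↔
    x ∈ affineSpan ℝ F ∧ ∃ r : ℝ, 0 < r ∧ ∀ p ∈ affineSpan ℝ F, dist p x < r → p ∈ F := by
  constructor
  · intro h
    rw [mem_intrinsicInterior] at h
    obtain ⟨y, hy, rfl⟩ := h
    refine ⟨y.2, ?_⟩
    rw [mem_interior_iff_mem_nhds, Metric.mem_nhds_iff] at hy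
    obtain ⟨r, hr, hball⟩ := hy
    refine ⟨r, hr, fun p hp hd => ?_⟩
    have : (⟨p, hp⟩ : affineSpan ℝ F) ∈ Metric.ball y r := by
      rw [Metric.mem_ball]; exact hd
    exact hball this
  · rintro ⟨hx, r, hr, h⟩
    rw [mem_intrinsicInterior]
    refine ⟨⟨x, hx⟩, ?_, rfl⟩
    rw [mem_interior_iff_mem_nhds, Metric.mem_nhds_iff]
    refine ⟨r, hr, fun p hp => ?_⟩
    rw [Metric.mem_ball] at hp
    exact h p p.2 hp

theorem core_of_relint {F : Set E} {x y : E} (hx : x ∈ intrinsicInterior ℝ F) (hy : y ∈ F) :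
    ∃ ε : ℝ, 0 < ε ∧ x + ε • (x - y) ∈ F := by
  obtain ⟨hxs, r, hr, h⟩ := relint_iff.1 hx
  have hn : 0 < ‖x - y‖ + 1 := by positivity
  refine ⟨r / 2 / (‖x - y‖ + 1), by positivity, h _ ?_ ?_⟩
  · have := AffineSubspace.smul_vsub_vadd_mem (affineSpan ℝ F) (r / 2 / (‖x - y‖ + 1)) hxs
      (subset_affineSpan ℝ F hy) hxs
    rw [vsub_eq_sub, vadd_eq_add, add_comm] at this
    exact this
  · rw [dist_eq_norm, add_sub_cancel_left, norm_smul, Real.norm_of_nonneg (by positivity)]
    rw [div_mul_eq_mul_div, div_lt_iff₀ hn]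
    nlinarith [norm_nonneg (x - y)]

theorem relint_of_core [FiniteDimensional ℝ E] {F : Set E} (hF : Convex ℝ F) {x : E} (hx : x ∈ F)
    (h : ∀ y ∈ F, ∃ ε : ℝ, 0 < ε ∧ x + ε • (x - y) ∈ F) : x ∈ intrinsicInterior ℝ F := by
  obtain ⟨z, hz⟩ := Set.Nonempty.intrinsicInterior hF ⟨x, hx⟩
  obtain ⟨hzs, r, hr, hball⟩ := relint_iff.1 hz
  have hzF : z ∈ F := intrinsicInterior_subset hz
  obtain ⟨ε, hε, hz'⟩ := h z hzF
  have hxs := subset_affineSpan ℝ F hx
  rw [relint_iff]
  refine ⟨hxs, r * (ε / (1 + ε)), by positivity, fun p hp hd => ?_⟩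
  have hq : z + ((1 + ε) / ε) • (p - x) ∈ F := by
    apply hball
    · have := AffineSubspace.smul_vsub_vadd_mem (affineSpan ℝ F) ((1 + ε) / ε) hp hxs hzs
      rw [vsub_eq_sub, vadd_eq_add, add_comm] at this
      exact this
    · rw [dist_eq_norm] at hd
      rw [dist_eq_norm, add_sub_cancel_left, norm_smul, Real.norm_of_nonneg (by positivity)]
      calc (1 + ε) / ε * ‖p - x‖ < (1 + ε) / ε * (r * (ε / (1 + ε))) := by
            apply mul_lt_mul_of_pos_left hd (by positivity)
        _ = r := by field_simp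
  have e : p = (1 / (1 + ε)) • (x + ε • (x - z)) +
      (ε / (1 + ε)) • (z + ((1 + ε) / ε) • (p - x)) := by
    have h1 : (1 + ε) ≠ 0 := by positivity
    have h2 : ε ≠ 0 := hε.ne'
    have : (ε / (1 + ε)) • (((1 + ε) / ε) • (p - x)) = p - x := by
      rw [smul_smul]
      have : ε / (1 + ε) * ((1 + ε) / ε) = 1 := by field_simp
      rw [this, one_smul]
    rw [smul_add (ε / (1 + ε)), this]
    have h3 : (1 / (1 + ε)) • (x + ε • (x - z)) + (ε / (1 + ε)) • z = x := by
      have : (1 / (1 + ε)) • (x + ε • (x - z)) + (ε / (1 + ε)) • z =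
        ((1 / (1 + ε)) * (1 + ε)) • x + ((ε / (1 + ε)) - (1 / (1 + ε)) * ε) • z := by
        module
      rw [this]
      have a1 : (1 / (1 + ε)) * (1 + ε) = 1 := by field_simp
      have a2 : (ε / (1 + ε)) - (1 / (1 + ε)) * ε = 0 := by field_simp; ring
      rw [a1, a2]; simp
    rw [← add_assoc, h3]; abel
  rw [e]
  exact hF hz' hq (by positivity) (by positivity) (by field_simp)

/-- `y` lies in the smallest face of `P` at `x`. -/
def Fc (P : Set E) (x : E) : Set E := {y | y ∈ P ∧ ∃ ε : ℝ, 0 < ε ∧ x + ε • (x - y) ∈ P}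

theorem self_mem_Fc {P : Set E} {x : E} (hx : x ∈ P) : x ∈ Fc P x :=
  ⟨hx, 1, one_pos, by simpa using hx⟩

/-- shrinking the parameter -/
theorem shrink {P : Set E} (hP : Convex ℝ P) {x v : E} (hx : x ∈ P) {ε δ : ℝ} (hδ : 0 ≤ δ)
    (hδε : δ ≤ ε) (h : x + ε • v ∈ P) : x + δ • v ∈ P := by
  rcases eq_or_lt_of_le (hδ.trans hδε) with h0 | h0
  · have : δ = 0 := le_antisymm (hδε.trans h0.symm.le) hδ
    rw [this, zero_smul, add_zero]; exact hx
  · have e : x + δ • v = (1 - δ / ε) • x + (δ / ε) • (x + ε • v) := by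
      have : (δ / ε) • (x + ε • v) = (δ / ε) • x + (δ / ε * ε) • v := by module
      rw [this, div_mul_cancel₀ _ h0.ne']
      module
    rw [e]
    have h1 : δ / ε ≤ 1 := by rw [div_le_one h0]; exact hδε
    exact hP hx h (by linarith) (by positivity) (by ring)

theorem convex_Fc {P : Set E} (hP : Convex ℝ P) {x : E} (hx : x ∈ P) : Convex ℝ (Fc P x) := by
  rintro y ⟨hy, ε, hε, h⟩ y' ⟨hy', ε', hε', h'⟩ a b ha hb hab
  refine ⟨hP hy hy' ha hb hab, min ε ε', lt_min hε hε', ?_⟩
  have h1 := shrink hP hx (lt_min hε hε').le (min_le_left ε ε') h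
  have h2 := shrink hP hx (lt_min hε hε').le (min_le_right ε ε') h'
  have e : x + (min ε ε') • (x - (a • y + b • y')) =
      a • (x + (min ε ε') • (x - y)) + b • (x + (min ε ε') • (x - y')) := by
    have hb' : b = 1 - a := by linarith
    rw [hb']; module
  rw [e]
  exact hP h1 h2 ha hb hab

/-- extremality -/
theorem extreme_Fc {P : Set E} (hP : Convex ℝ P) {x u w y : E}
    (hu : u ∈ P) (hw : w ∈ P) (hy : y ∈ Fc P x) {a b : ℝ} (ha : 0 < a) (hb : 0 ≤ b)
    (hab : a + b = 1) (e : a • u + b • w = y) : u ∈ Fc P x := by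
  obtain ⟨_, ε, hε, h⟩ := hy
  refine ⟨hu, ε * a / (1 + ε - ε * a), ?_, ?_⟩
  · have : 0 < 1 + ε - ε * a := by nlinarith
    positivity
  · have h1 : 0 < 1 + ε - ε * a := by nlinarith
    have key : x + (ε * a / (1 + ε - ε * a)) • (x - u) =
        (1 / (1 + ε - ε * a)) • (x + ε • (x - y)) + (ε * b / (1 + ε - ε * a)) • w := by
      rw [← e]
      have hb' : b = 1 - a := by linarith
      rw [hb']
      have c1 : (1 + ε * a / (1 + ε - ε * a)) = 1 / (1 + ε - ε * a) * (1 + ε) := by
        field_simp; ring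
      have : x + (ε * a / (1 + ε - ε * a)) • (x - u) =
        (1 + ε * a / (1 + ε - ε * a)) • x - (ε * a / (1 + ε - ε * a)) • u := by module
      rw [this, c1]
      have c2 : ε * a / (1 + ε - ε * a) = 1 / (1 + ε - ε * a) * (ε * a) := by ring
      have c3 : ε * (1 - a) / (1 + ε - ε * a) = 1 / (1 + ε - ε * a) * (ε * (1 - a)) := by ring
      rw [c2, c3]
      module
    rw [key]
    refine hP h hw (by positivity) (by positivity) ?_
    have hb' : b = 1 - a := by linarith
    rw [hb']
    field_simp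
    ring

theorem Fc_subset {P : Set E} (hP : Convex ℝ P) {x y : E} (hy : y ∈ Fc P x) : Fc P y ⊆ Fc P x := by
  rintro z ⟨hz, ε, hε, h⟩
  have h1 : (0:ℝ) < 1 + ε := by positivity
  refine extreme_Fc hP (u := z) (w := y + ε • (y - z)) hz h hy (a := ε / (1 + ε))
    (b := 1 / (1 + ε)) (by positivity) (by positivity) (by field_simp; ring) ?_
  have : (ε / (1 + ε)) • z + (1 / (1 + ε)) • (y + ε • (y - z)) =
    ((1 / (1 + ε)) * (1 + ε)) • y + ((ε / (1 + ε)) - (1 / (1 + ε)) * ε) • z := by module
  rw [this]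
  have a1 : (1 / (1 + ε)) * (1 + ε) = 1 := by field_simp
  have a2 : (ε / (1 + ε)) - (1 / (1 + ε)) * ε = 0 := by field_simp; ring
  rw [a1, a2]; simp

theorem Fc_self_core {P : Set E} (hP : Convex ℝ P) {x y : E} (hx : x ∈ P) (hy : y ∈ Fc P x) :
    ∃ ε : ℝ, 0 < ε ∧ x + ε • (x - y) ∈ Fc P x := by
  obtain ⟨hyP, ε, hε, h⟩ := hy
  refine ⟨ε, hε, h, 1 / ε, by positivity, ?_⟩
  have : x + (1 / ε) • (x - (x + ε • (x - y))) = x - (1 / ε * ε) • (x - y) := by module
  rw [this]
  have : 1 / ε * ε = 1 := by field_simp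
  rw [this]
  simpa using hyP

/-- the smallest face at `x` of a polytope is exposed -/
theorem exposed_Fc [FiniteDimensional ℝ E] {P : Set E} (hP : IsConvexPolytope P) {x : E}
    (hx : x ∈ P) : IsExposed ℝ P (Fc P x) := by
  obtain ⟨s, hs, rfl⟩ := hP
  have hPc : Convex ℝ (convexHull ℝ s) := convex_convexHull ℝ s
  intro _
  -- the span
  have hL : ∀ ℓ ∈ Submodule.span ℝ {v | ∃ y ∈ Fc (convexHull ℝ s) x, v = y - x},
      ∃ c : ℝ, 0 ≤ c ∧ ∃ y ∈ Fc (convexHull ℝ s) x, ℓ = c • (y - x) := by
    intro ℓ hℓ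
    induction hℓ using Submodule.span_induction with
    | mem v hv =>
      obtain ⟨y, hy, rfl⟩ := hv
      exact ⟨1, zero_le_one, y, hy, by simp⟩
    | zero => exact ⟨0, le_rfl, x, self_mem_Fc hx, by simp⟩
    | add u v _ _ hu hv =>
      obtain ⟨c, hc, y, hy, rfl⟩ := hu
      obtain ⟨c', hc', y', hy', rfl⟩ := hv
      rcases eq_or_lt_of_le (add_nonneg hc hc') with h0 | h0
      · have h1 : c = 0 := by linarith
        have h2 : c' = 0 := by linarith
        exact ⟨0, le_rfl, x, self_mem_Fc hx, by rw [h1, h2]; simp⟩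
      · refine ⟨c + c', h0.le, (c / (c + c')) • y + (c' / (c + c')) • y',
          convex_Fc hPc hx hy hy' (by positivity) (by positivity) (by field_simp), ?_⟩
        have e : (c + c') • ((c / (c + c')) • y + (c' / (c + c')) • y' - x) =
          ((c + c') * (c / (c + c'))) • y + ((c + c') * (c' / (c + c'))) • y' - (c + c') • x := by
          module
        rw [e, mul_div_cancel₀ _ h0.ne', mul_div_cancel₀ _ h0.ne']
        module
    | smul a v _ hv =>
      obtain ⟨c, hc, y, hy, rfl⟩ := hv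
      rcases le_or_gt 0 a with ha | ha
      · exact ⟨a * c, mul_nonneg ha hc, y, hy, by rw [mul_smul]⟩
      · obtain ⟨ε, hε, h⟩ := Fc_self_core hPc hx hy
        refine ⟨-a * c / ε, by have : 0 ≤ -a := by linarith
                               positivity, _, h, ?_⟩
        have e : (-a * c / ε) • (x + ε • (x - y) - x) = (-a * c / ε * ε) • (x - y) := by module
        rw [e, div_mul_cancel₀ _ hε.ne']
        module
  -- the part of the polytope off the face
  have hdiff : Convex ℝ (convexHull ℝ s \ Fc (convexHull ℝ s) x) := by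
    rintro u ⟨hu, hu'⟩ w ⟨hw, hw'⟩ a b ha hb hab
    refine ⟨hPc hu hw ha hb hab, fun hm => ?_⟩
    rcases eq_or_lt_of_le ha with h0 | h0
    · apply hw'
      have hb1 : b = 1 := by linarith
      rw [← h0, hb1] at hm
      simpa using hm
    · exact hu' (extreme_Fc hPc hu hw hm h0 hb hab rfl)
  obtain ⟨l, a, b, hla, hab, hlb⟩ := geometric_hahn_banach_compact_closed
    (s := (fun u => u - x) '' convexHull ℝ (s \ Fc (convexHull ℝ s) x))
    (t := (Submodule.span ℝ {v | ∃ y ∈ Fc (convexHull ℝ s) x, v = y - x} : Set E))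
    (by
      rintro _ ⟨u, hu, rfl⟩ _ ⟨w, hw, rfl⟩ a b ha hb hab
      refine ⟨a • u + b • w, convex_convexHull ℝ _ hu hw ha hb hab, ?_⟩
      have hb' : b = 1 - a := by linarith
      simp only []
      rw [hb']; module)
    (by
      apply IsCompact.image
      · exact Set.Finite.isCompact_convexHull (𝕜 := ℝ) (hs.subset sdiff_subset)
      · exact continuous_id.sub continuous_const)
    (Submodule.convex _) (Submodule.closed_of_finiteDimensional _) (by
      rw [Set.disjoint_left]
      rintro _ ⟨u, hu, rfl⟩ hℓ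
      have hu2 : u ∈ convexHull ℝ s \ Fc (convexHull ℝ s) x := by
        apply convexHull_min _ hdiff hu
        intro v hv
        exact ⟨subset_convexHull ℝ s hv.1, hv.2⟩
      apply hu2.2
      have hneg : -(u - x) ∈ Submodule.span ℝ {v | ∃ y ∈ Fc (convexHull ℝ s) x, v = y - x} :=
        Submodule.neg_mem _ hℓ
      obtain ⟨c, hc, y, hy, e⟩ := hL _ hneg
      refine ⟨hu2.1, 1 / (c + 1), by positivity, ?_⟩
      have e2 : x - u = c • (y - x) := by rw [← e]; abel
      rw [e2, smul_smul]
      have h1 : 1 / (c + 1) * c ≤ 1 := by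
        rw [div_mul_eq_mul_div, div_le_one (by positivity)]; linarith
      have : x + (1:ℝ) • (y - x) ∈ convexHull ℝ s := by
        rw [one_smul, add_sub_cancel]; exact hy.1
      exact shrink hPc hx (by positivity) h1 this)
  have hl0 : ∀ ℓ ∈ Submodule.span ℝ {v | ∃ y ∈ Fc (convexHull ℝ s) x, v = y - x}, l ℓ = 0 := by
    intro ℓ hℓ
    by_contra h0
    have h1 := hlb (((b - 1) / l ℓ) • ℓ) (Submodule.smul_mem _ _ hℓ)
    rw [map_smul, smul_eq_mul, div_mul_cancel₀ _ h0] at h1
    linarith
  have hb0 : b < 0 := by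
    have := hlb 0 (Submodule.zero_mem _)
    simpa using this
  have hFc : ∀ y ∈ Fc (convexHull ℝ s) x, l y = l x := by
    intro y hy
    have := hl0 (y - x) (Submodule.subset_span ⟨y, hy, rfl⟩)
    rw [map_sub] at this
    linarith
  have hall : ∀ y ∈ convexHull ℝ s, y ∈ Fc (convexHull ℝ s) x ∨ l y < l x := by
    intro y hy
    have hconv : Convex ℝ {y | y ∈ Fc (convexHull ℝ s) x ∨ l y < l x} := by
      rintro u hu w hw a b ha hb hab
      have ha1 : l (a • u + b • w) = a * l u + b * l w := by simp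
      rcases hu with hu | hu <;> rcases hw with hw | hw
      · exact Or.inl (convex_Fc hPc hx hu hw ha hb hab)
      · rcases eq_or_lt_of_le hb with h0 | h0
        · left
          have : a = 1 := by linarith
          rw [← h0, this]; simpa using hu
        · right
          rw [ha1, hFc u hu]
          have : l x = a * l x + b * l x := by rw [← add_mul, hab, one_mul]
          nlinarith
      · rcases eq_or_lt_of_le ha with h0 | h0
        · left
          have : b = 1 := by linarith
          rw [← h0, this]; simpa using hw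
        · right
          rw [ha1, hFc w hw]
          have : l x = a * l x + b * l x := by rw [← add_mul, hab, one_mul]
          nlinarith
      · right
        rw [ha1]
        have : l x = a * l x + b * l x := by rw [← add_mul, hab, one_mul]
        rcases eq_or_lt_of_le ha with h0 | h0
        · have : b = 1 := by linarith
          rw [← h0, this]; linarith
        · nlinarith
    refine convexHull_min ?_ hconv hy
    intro v hv
    by_cases hvF : v ∈ Fc (convexHull ℝ s) x
    · exact Or.inl hvF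
    · right
      have := hla (v - x) ⟨v, subset_convexHull ℝ _ ⟨hv, hvF⟩, rfl⟩
      rw [map_sub] at this
      linarith
  refine ⟨l, ?_⟩
  ext y
  constructor
  · intro hy
    refine ⟨hy.1, fun z hz => ?_⟩
    rw [hFc y hy]
    rcases hall z hz with h | h
    · exact (hFc z h).le
    · exact h.le
  · rintro ⟨hy, hmax⟩
    rcases hall y hy with h | h
    · exact h
    · exact absurd (hmax x hx) (not_le.2 h)

end Pool.Agent.H17.Til
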