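import Pool.Agent.H17.Til

set_option autoImplicit false

namespace Pool.Agent.H17.Til2

open Pool.Agent.H17.TilDef Pool.Agent.H17.Til Set Filter Topology

variable {E : Type} [NormedAddCommGroup E] [NormedSpace ℝ E] [FiniteDimensional ℝ E]

theorem polytope_convex {P : Set E} (hP : IsConvexPolytope P) : Convex ℝ P := by
  obtain ⟨s, _, rfl⟩ := hP
  exact convex_convexHull ℝ s

theorem polytope_compact {P : Set E} (hP : IsConvexPolytope P) : IsCompact P := by
  obtain ⟨s, hs, rfl⟩ := hP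
  exact Set.Finite.isCompact_convexHull (𝕜 := ℝ) hs

theorem face_eq {P F : Set E} (hP : IsConvexPolytope P) {x : E} (hF : IsExposed ℝ P F)
    (hx : x ∈ intrinsicInterior ℝ F) : F = Fc P x := by
  have hPc := polytope_convex hP
  have hxF : x ∈ F := intrinsicInterior_subset hx
  have hsub : F ⊆ P := hF.subset
  ext y
  constructor
  · intro hy
    obtain ⟨ε, hε, h⟩ := core_of_relint hx hy
    exact ⟨hsub hy, ε, hε, hsub h⟩
  · rintro ⟨hy, ε, hε, h⟩
    obtain ⟨l, hl⟩ := hF ⟨x, hxF⟩
    rw [hl] at hxF ⊢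
    refine ⟨hy, fun z hz => ?_⟩
    have h1 := hxF.2 y hy
    have h2 := hxF.2 _ h
    have h3 := hxF.2 z hz
    rw [map_add, map_smul, map_sub, smul_eq_mul] at h2
    have h4 : l x - l y ≤ 0 := by
      by_contra hc
      push Not at hc
      have := mul_pos hε hc
      linarith
    linarith

theorem mem_sigma {T : Set (Set E)} (hT : IsTiling T) {x : E} {p : Set E × Set E} :
    p ∈ sigma T x ↔ p.1 ∈ T ∧ x ∈ p.1 ∧ p.2 = Fc p.1 x := by
  constructor
  · rintro ⟨h1, h2, h3, h4⟩
    exact ⟨h1, h2, face_eq (hT.1 _ h1).1 h3 h4⟩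
  · rintro ⟨h1, h2, h3⟩
    have hP := (hT.1 _ h1).1
    refine ⟨h1, h2, ?_, ?_⟩
    · rw [h3]; exact exposed_Fc hP h2
    · rw [h3]
      exact relint_of_core (convex_Fc (polytope_convex hP) h2) (self_mem_Fc h2)
        (fun y hy => Fc_self_core (polytope_convex hP) h2 hy)

/-- points near `x` lie only in tiles through `x` -/
theorem near {T : Set (Set E)} (hT : IsTiling T) (hf : IsLocallyFinite T) (x : E) :
    ∀ᶠ p in 𝓝 x, ∀ P ∈ T, p ∈ P → x ∈ P := by
  have hfin := hf (Metric.ball x 1) Metric.isBounded_ball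
  have h1 : ∀ P ∈ {P ∈ T | (P ∩ Metric.ball x 1).Nonempty}, ∀ᶠ p in 𝓝 x, p ∈ P → x ∈ P := by
    intro P hP
    by_cases hx : x ∈ P
    · exact Eventually.of_forall fun _ _ => hx
    · have hcl : IsClosed P := (polytope_compact (hT.1 P hP.1).1).isClosed
      have : Pᶜ ∈ 𝓝 x := hcl.isOpen_compl.mem_nhds hx
      filter_upwards [this] with p hp h
      exact absurd h hp
  have h2 := (eventually_all_finite hfin).2 h1
  filter_upwards [h2, Metric.ball_mem_nhds x one_pos] with p hp hb P hP hpP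
  exact hp P ⟨hP, p, hpP, hb⟩ hpP

theorem finite_at {T : Set (Set E)} (hf : IsLocallyFinite T) (x : E) :
    {P ∈ T | x ∈ P}.Finite := by
  refine (hf {x} Bornology.isBounded_singleton).subset ?_
  rintro P ⟨h, hx⟩
  exact ⟨h, x, hx, rfl⟩

theorem cover {T : Set (Set E)} (hT : IsTiling T) (x : E) : ∃ P ∈ T, x ∈ P := by
  have : x ∈ ⋃₀ T := by rw [hT.2.1]; trivial
  simpa using this

/-- two tiles, one meeting the interior of the other, are equal -/
theorem eq_of_meet {T : Set (Set E)} (hT : IsTiling T) {P Q : Set E} (hP : P ∈ T) (hQ : Q ∈ T)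
    {x : E} (hx : x ∈ P) (hx' : x ∈ interior Q) : P = Q := by
  by_contra hne
  have hd := hT.2.2 hP hQ hne
  have hPc := polytope_convex (hT.1 P hP).1
  have h1 : x ∈ closure (interior P) := by
    rw [hPc.closure_interior_eq_closure_of_nonempty_interior (hT.1 P hP).2]
    exact subset_closure hx
  obtain ⟨y, hy1, hy2⟩ := mem_closure_iff.1 h1 _ isOpen_interior hx'
  exact Set.disjoint_left.1 hd hy2 hy1

/-- the relative interior relation -/
def G (T : Set (Set E)) (x : E) : Set E :=
  {y | ∀ P ∈ T, x ∈ P → y ∈ Fc P x ∧ x ∈ Fc P y}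

theorem G_tiles {T : Set (Set E)} (hT : IsTiling T) (hf : IsLocallyFinite T) {x y : E}
    (hy : y ∈ G T x) {P' : Set E} (hP' : P' ∈ T) (hyP : y ∈ P') : x ∈ P' := by
  obtain ⟨w, hw⟩ := (hT.1 P' hP').2
  have hPc' := polytope_convex (hT.1 P' hP').1
  have hcont : Tendsto (fun s : ℝ => x + s • (w - y)) (𝓝[>] 0) (𝓝 x) := by
    have h1 : Continuous fun s : ℝ => x + s • (w - y) := by fun_prop
    have h2 := h1.tendsto 0
    simp only [zero_smul, add_zero] at h2
    exact h2.mono_left nhdsWithin_le_nhds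
  have hev := hcont.eventually (near hT hf x)
  have h01 : ∀ᶠ s : ℝ in 𝓝[>] 0, s ∈ Ioc (0:ℝ) 1 := by
    have := Ioc_mem_nhdsGT (zero_lt_one' ℝ)
    exact this
  obtain ⟨s, hs1, hs0, hs2⟩ := (hev.and h01).exists
  obtain ⟨P, hP, hp⟩ := cover hT (x + s • (w - y))
  have hxP := hs1 P hP hp
  obtain ⟨_, _, t, ht, hz⟩ := hy P hP hxP
  have hPc := polytope_convex (hT.1 P hP).1
  have hmem : y + (s * (t / (1 + t))) • (w - y) ∈ P := by
    have e : y + (s * (t / (1 + t))) • (w - y) =
        (1 / (1 + t)) • (y + t • (y - x)) + (t / (1 + t)) • (x + s • (w - y)) := by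
      have h1 : (1 / (1 + t)) • (y + t • (y - x)) + (t / (1 + t)) • (x + s • (w - y)) =
        (1 / (1 + t) * (1 + t)) • y + (t / (1 + t) - 1 / (1 + t) * t) • x +
          (s * (t / (1 + t))) • (w - y) := by module
      rw [h1]
      have a1 : (1 / (1 + t)) * (1 + t) = 1 := by field_simp
      have a2 : (t / (1 + t)) - (1 / (1 + t)) * t = 0 := by field_simp; ring
      rw [a1, a2]; simp
    rw [e]
    exact hPc hz hp (by positivity) (by positivity) (by field_simp)
  have hint : y + (s * (t / (1 + t))) • (w - y) ∈ interior P' := by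
    apply hPc'.add_smul_sub_mem_interior hyP hw
    constructor
    · positivity
    · have : t / (1 + t) ≤ 1 := by rw [div_le_one (by positivity)]; linarith
      nlinarith [div_pos ht (by positivity : 0 < 1 + t)]
  have := eq_of_meet hT hP hP' hmem hint
  rw [← this]; exact hxP

theorem class_eq {T : Set (Set E)} (hT : IsTiling T) (hf : IsLocallyFinite T) (x : E) :
    {y | sigma T y = sigma T x} = G T x := by
  ext y
  constructor
  · intro h P hP hx
    have h : sigma T y = sigma T x := h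
    have h1 : (P, Fc P x) ∈ sigma T x := (mem_sigma hT).2 ⟨hP, hx, rfl⟩
    rw [← h] at h1
    have h2 := (mem_sigma hT).1 h1
    have h3 : Fc P x = Fc P y := h2.2.2
    refine ⟨?_, ?_⟩
    · rw [h3]; exact self_mem_Fc h2.2.1
    · rw [← h3]; exact self_mem_Fc hx
  · intro h
    show sigma T y = sigma T x
    ext p
    rw [mem_sigma hT, mem_sigma hT]
    constructor
    · rintro ⟨h1, h2, h3⟩
      have hx := G_tiles hT hf h h1 h2
      have hPc := polytope_convex (hT.1 _ h1).1
      obtain ⟨h4, h5⟩ := h _ h1 hx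
      refine ⟨h1, hx, ?_⟩
      rw [h3]
      exact (Fc_subset hPc h4).antisymm (Fc_subset hPc h5)
    · rintro ⟨h1, hx, h3⟩
      have hPc := polytope_convex (hT.1 _ h1).1
      obtain ⟨h4, h5⟩ := h _ h1 hx
      refine ⟨h1, h4.1, ?_⟩
      rw [h3]
      exact (Fc_subset hPc h5).antisymm (Fc_subset hPc h4)

theorem cell_eq {T : Set (Set E)} (hT : IsTiling T) (hf : IsLocallyFinite T) (x : E) :
    cell T x = closure (G T x) := by
  unfold cell; rw [class_eq hT hf]

theorem self_mem_G {T : Set (Set E)} (x : E) : x ∈ G T x :=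
  fun _ _ hx => ⟨self_mem_Fc hx, self_mem_Fc hx⟩

theorem self_mem_cell {T : Set (Set E)} (x : E) : x ∈ cell T x := subset_closure rfl

theorem convex_cell {T : Set (Set E)} (hT : IsTiling T) (hf : IsLocallyFinite T) (x : E) :
    Convex ℝ (cell T x) := by
  rw [cell_eq hT hf]
  apply Convex.closure
  intro y hy y' hy' a b ha hb hab P hP hx
  have hPc := polytope_convex (hT.1 P hP).1
  obtain ⟨h1, _, ε, hε, h2⟩ := hy P hP hx
  obtain ⟨h1', _, ε', hε', h2'⟩ := hy' P hP hx
  refine ⟨convex_Fc hPc hx h1 h1' ha hb hab, hx, min ε ε', lt_min hε hε', ?_⟩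
  have h3 := shrink hPc h1.1 (lt_min hε hε').le (min_le_left ε ε') h2
  have h4 := shrink hPc h1'.1 (lt_min hε hε').le (min_le_right ε ε') h2'
  have e : a • y + b • y' + (min ε ε') • (a • y + b • y' - x) =
      a • (y + (min ε ε') • (y - x)) + b • (y' + (min ε ε') • (y' - x)) := by
    have hb' : b = 1 - a := by linarith
    rw [hb']; module
  rw [e]
  exact hPc h3 h4 ha hb hab

theorem cell_subset_Fc {T : Set (Set E)} (hT : IsTiling T) (hf : IsLocallyFinite T) {x : E}
    {P : Set E} (hP : P ∈ T) (hx : x ∈ P) : cell T x ⊆ Fc P x := by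
  rw [cell_eq hT hf]
  apply closure_minimal
  · intro y hy
    exact (hy P hP hx).1
  · have h1 := exposed_Fc (hT.1 P hP).1 hx
    exact h1.isClosed (polytope_compact (hT.1 P hP).1).isClosed

theorem cell_subset_tile {T : Set (Set E)} (hT : IsTiling T) (hf : IsLocallyFinite T) {x : E}
    {P : Set E} (hP : P ∈ T) (hx : x ∈ P) : cell T x ⊆ P :=
  fun _ hy => (cell_subset_Fc hT hf hP hx hy).1

theorem cell_mono {T : Set (Set E)} (hT : IsTiling T) (hf : IsLocallyFinite T) {x m : E}
    (hm : m ∈ cell T x) : cell T m ⊆ cell T x := by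
  rw [cell_eq hT hf m]
  apply closure_minimal _ isClosed_closure
  intro y hy
  -- points `y + ε (x - m)` are in the class of `x`
  have hcont : Tendsto (fun s : ℝ => y + s • (x - m)) (𝓝[>] 0) (𝓝 y) := by
    have h1 : Continuous fun s : ℝ => y + s • (x - m) := by fun_prop
    have h2 := h1.tendsto 0
    simp only [zero_smul, add_zero] at h2
    exact h2.mono_left nhdsWithin_le_nhds
  refine mem_closure_of_tendsto hcont ?_
  have key : ∀ P ∈ {P ∈ T | x ∈ P}, ∀ᶠ ε : ℝ in 𝓝[>] 0,
      y + ε • (x - m) ∈ Fc P x ∧ x ∈ Fc P (y + ε • (x - m)) := by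
    rintro P ⟨hP, hx⟩
    have hPc := polytope_convex (hT.1 P hP).1
    have hmF := cell_subset_Fc hT hf hP hx hm
    obtain ⟨hyF, _, t, ht, hz⟩ := hy P hP hmF.1
    have hzF : y + t • (y - m) ∈ Fc P x := by
      refine extreme_Fc hPc (u := y + t • (y - m)) (w := m) hz hmF.1 (Fc_subset hPc hmF hyF)
        (a := 1 / (1 + t)) (b := t / (1 + t)) (by positivity) (by positivity)
        (by field_simp) ?_
      have h1 : (1 / (1 + t)) • (y + t • (y - m)) + (t / (1 + t)) • m =
        (1 / (1 + t) * (1 + t)) • y + (t / (1 + t) - 1 / (1 + t) * t) • m := by module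
      rw [h1]
      have a1 : (1 / (1 + t)) * (1 + t) = 1 := by field_simp
      have a2 : (t / (1 + t)) - (1 / (1 + t)) * t = 0 := by field_simp; ring
      rw [a1, a2]; simp
    have hpos : 0 < t / (1 + t) := by positivity
    have hev : ∀ᶠ ε : ℝ in 𝓝[>] 0, ε ∈ Ioc (0:ℝ) (t / (1 + t)) := Ioc_mem_nhdsGT hpos
    filter_upwards [hev] with ε hε
    obtain ⟨hε0, hε1⟩ := hε
    -- s = ε (1+t)/t
    have hs0 : 0 < ε * (1 + t) / t := by positivity
    have hs1 : ε * (1 + t) / t ≤ 1 := by
      rw [div_le_one ht]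
      rw [le_div_iff₀ (by positivity)] at hε1
      exact hε1
    have hqF : m + (ε * (1 + t) / t) • (x - m) ∈ Fc P x := by
      have e : m + (ε * (1 + t) / t) • (x - m) =
        (1 - ε * (1 + t) / t) • m + (ε * (1 + t) / t) • x := by module
      rw [e]
      exact convex_Fc hPc hx hmF (self_mem_Fc hx) (by linarith) hs0.le (by ring)
    have epq : y + ε • (x - m) = (1 / (1 + t)) • (y + t • (y - m)) +
        (t / (1 + t)) • (m + (ε * (1 + t) / t) • (x - m)) := by
      have h1 : (1 / (1 + t)) • (y + t • (y - m)) +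
        (t / (1 + t)) • (m + (ε * (1 + t) / t) • (x - m)) =
        (1 / (1 + t) * (1 + t)) • y + (t / (1 + t) - 1 / (1 + t) * t) • m
          + (t / (1 + t) * (ε * (1 + t) / t)) • (x - m) := by module
      rw [h1]
      have a1 : (1 / (1 + t)) * (1 + t) = 1 := by field_simp
      have a2 : (t / (1 + t)) - (1 / (1 + t)) * t = 0 := by field_simp; ring
      have a3 : t / (1 + t) * (ε * (1 + t) / t) = ε := by field_simp
      rw [a1, a2, a3]; simp
    have hpF : y + ε • (x - m) ∈ Fc P x := by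
      rw [epq]
      exact convex_Fc hPc hx hzF hqF (by positivity) (by positivity) (by field_simp)
    refine ⟨hpF, ?_⟩
    -- q ∈ Fc P p
    have hqp : m + (ε * (1 + t) / t) • (x - m) ∈ Fc P (y + ε • (x - m)) := by
      refine extreme_Fc hPc (u := m + (ε * (1 + t) / t) • (x - m)) (w := y + t • (y - m))
        hqF.1 hz (self_mem_Fc hpF.1) (a := t / (1 + t)) (b := 1 / (1 + t)) (by positivity)
        (by positivity) (by field_simp; ring) ?_
      rw [epq]; abel
    have hxq : x ∈ Fc P (m + (ε * (1 + t) / t) • (x - m)) := by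
      refine extreme_Fc hPc (u := x) (w := m) hx hmF.1 (self_mem_Fc hqF.1)
        (a := ε * (1 + t) / t) (b := 1 - ε * (1 + t) / t) hs0 (by linarith) (by ring) ?_
      module
    exact Fc_subset hPc hqp hxq
  have h2 := (eventually_all_finite (finite_at hf x)).2 key
  filter_upwards [h2] with ε hε
  show sigma T _ = sigma T x
  have : y + ε • (x - m) ∈ G T x := fun P hP hx => hε P ⟨hP, hx⟩
  rw [← class_eq hT hf] at this
  exact this

/-- a point lying in a single tile: its cell is the tile -/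
theorem cell_eq_tile {T : Set (Set E)} (hT : IsTiling T) (hf : IsLocallyFinite T) {x : E}
    {P : Set E} (hP : P ∈ T) (hx : x ∈ P) (huniq : ∀ Q ∈ T, x ∈ Q → Q = P) : cell T x = P := by
  have hPc := polytope_convex (hT.1 P hP).1
  apply (cell_subset_tile hT hf hP hx).antisymm
  have hint : x ∈ interior P := by
    rw [mem_interior_iff_mem_nhds]
    filter_upwards [near hT hf x] with p hp
    obtain ⟨Q, hQ, hpQ⟩ := cover hT p
    rw [← huniq Q hQ (hp Q hQ hpQ)]; exact hpQ
  have h1 : interior P ⊆ G T x := by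
    intro y hy Q hQ hxQ
    rw [huniq Q hQ hxQ]
    have hcore : ∀ u ∈ interior P, ∀ w : E, ∃ ε : ℝ, 0 < ε ∧ u + ε • (u - w) ∈ P := by
      intro u hu w
      have hcont : Tendsto (fun s : ℝ => u + s • (u - w)) (𝓝[>] 0) (𝓝 u) := by
        have h1 : Continuous fun s : ℝ => u + s • (u - w) := by fun_prop
        have h2 := h1.tendsto 0
        simp only [zero_smul, add_zero] at h2
        exact h2.mono_left nhdsWithin_le_nhds
      have h3 := hcont.eventually (mem_interior_iff_mem_nhds.1 hu)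
      obtain ⟨ε, h4, h5⟩ := (h3.and self_mem_nhdsWithin).exists
      exact ⟨ε, h5, h4⟩
    exact ⟨⟨interior_subset hy, hcore x hint y⟩, ⟨hx, hcore y hy x⟩⟩
  rw [cell_eq hT hf]
  calc P ⊆ closure P := subset_closure
    _ = closure (interior P) :=
      (hPc.closure_interior_eq_closure_of_nonempty_interior (hT.1 P hP).2).symm
    _ ⊆ closure (G T x) := closure_mono h1

/-- the abstract obstruction -/
theorem no_dual {T : Set (Set E)} (hT : IsTiling T) (hf : IsLocallyFinite T) [Nontrivial E]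
    {x' x'' : E} {C1 C2 : Set E} (hC1 : C1 ∈ T) (hC2 : C2 ∈ T) (hne : C1 ≠ C2)
    (h1 : ∀ P ∈ T, (x' ∈ P ∧ x'' ∈ P) ↔ (P = C1 ∨ P = C2))
    (h12 : ∀ m ∈ C1 ∩ C2, ∃ P ∈ T, m ∈ P ∧ P ≠ C1 ∧ P ≠ C2)
    {c1 c2 : E} (hc1 : c1 ∈ C1) (hc1' : ∀ Q ∈ T, c1 ∈ Q → Q = C1)
    (hc2 : c2 ∈ C2) (hc2' : ∀ Q ∈ T, c2 ∈ Q → Q = C2)
    {T' : Set (Set E)} (hT' : IsTiling T') (hf' : IsLocallyFinite T') : ¬ AreDual T T' := by
  rintro ⟨φ, hφ⟩
  have tile_ne_univ : ∀ P ∈ T, P ≠ Set.univ := by
    intro P hP h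
    have := (polytope_compact (hT.1 P hP).1)
    rw [h] at this
    exact noncompact_univ E this
  have eC1 : cell T c1 = C1 := cell_eq_tile hT hf hC1 hc1 hc1'
  have eC2 : cell T c2 = C2 := cell_eq_tile hT hf hC2 hc2 hc2'
  have hx'C1 := ((h1 C1 hC1).2 (Or.inl rfl))
  have hx'C2 := ((h1 C2 hC2).2 (Or.inr rfl))
  -- elements of the face poset containing both x' and x''
  have hbetween : ∀ m : E, x' ∈ cell T m → x'' ∈ cell T m → cell T m = C1 ∨ cell T m = C2 := by
    intro m hm hm'
    have hall : ∀ P ∈ T, m ∈ P → P = C1 ∨ P = C2 := by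
      intro P hP hmP
      have := cell_subset_tile hT hf hP hmP
      exact (h1 P hP).1 ⟨this hm, this hm'⟩
    by_cases hm1 : m ∈ C1
    · by_cases hm2 : m ∈ C2
      · obtain ⟨P, hP, hmP, hn1, hn2⟩ := h12 m ⟨hm1, hm2⟩
        rcases hall P hP hmP with h | h
        · exact absurd h hn1
        · exact absurd h hn2
      · left
        refine cell_eq_tile hT hf hC1 hm1 (fun Q hQ hmQ => ?_)
        rcases hall Q hQ hmQ with h | h
        · exact h
        · exact absurd (h ▸ hmQ) hm2
    · obtain ⟨P, hP, hmP⟩ := cover hT m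
      have hPC : P = C2 := by
        rcases hall P hP hmP with h | h
        · exact absurd (h ▸ hmP) hm1
        · exact h
      right
      refine cell_eq_tile hT hf hC2 (hPC ▸ hmP) (fun Q hQ hmQ => ?_)
      rcases hall Q hQ hmQ with h | h
      · exact absurd (h ▸ hmQ) hm1
      · exact h
  let U : facePoset T := ⟨Set.univ, Or.inr (Or.inl rfl)⟩
  let F1 : facePoset T := ⟨C1, Or.inr (Or.inr ⟨c1, eC1.symm⟩)⟩
  let F2 : facePoset T := ⟨C2, Or.inr (Or.inr ⟨c2, eC2.symm⟩)⟩
  let X' : facePoset T := ⟨cell T x', Or.inr (Or.inr ⟨x', rfl⟩)⟩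
  let X'' : facePoset T := ⟨cell T x'', Or.inr (Or.inr ⟨x'', rfl⟩)⟩
  let Z : facePoset T := ⟨∅, Or.inl rfl⟩
  have hU : (φ U : Set E) = ∅ := by
    obtain ⟨V, hV⟩ := φ.surjective ⟨∅, Or.inl rfl⟩
    have : (φ U : Set E) ⊆ φ V := (hφ V U).1 (Set.subset_univ _)
    rw [hV] at this
    exact Set.subset_empty_iff.1 this
  have hZ : (φ Z : Set E) = Set.univ := by
    obtain ⟨V, hV⟩ := φ.surjective ⟨Set.univ, Or.inr (Or.inl rfl)⟩
    have : (φ V : Set E) ⊆ φ Z := (hφ Z V).1 (Set.empty_subset _)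
    rw [hV] at this
    exact Set.univ_subset_iff.1 this
  -- each φ of a nonempty, non-univ member is a cell
  have hcell : ∀ F : facePoset T, (F : Set E) ≠ ∅ → (F : Set E) ≠ Set.univ →
      ∃ p, (φ F : Set E) = cell T' p := by
    intro F hF0 hF1
    rcases (φ F).2 with h | h | h
    · exfalso
      have : φ F = φ U := Subtype.ext (h.trans hU.symm)
      exact hF1 (congrArg Subtype.val (φ.injective this))
    · exfalso
      have : φ F = φ Z := Subtype.ext (h.trans hZ.symm)
      exact hF0 (congrArg Subtype.val (φ.injective this))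
    · exact h
  have hX'ne : (X' : Set E) ≠ ∅ := fun h => by
    have : x' ∈ (X' : Set E) := self_mem_cell x'
    rw [h] at this; exact this
  have hX''ne : (X'' : Set E) ≠ ∅ := fun h => by
    have : x'' ∈ (X'' : Set E) := self_mem_cell x''
    rw [h] at this; exact this
  have hX'sub1 : (X' : Set E) ⊆ C1 := cell_subset_tile hT hf hC1 hx'C1.1
  have hX''sub1 : (X'' : Set E) ⊆ C1 := cell_subset_tile hT hf hC1 hx'C1.2
  have hX'sub2 : (X' : Set E) ⊆ C2 := cell_subset_tile hT hf hC2 hx'C2.1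
  have hX''sub2 : (X'' : Set E) ⊆ C2 := cell_subset_tile hT hf hC2 hx'C2.2
  have hX'nu : (X' : Set E) ≠ Set.univ := fun h => by
    rw [h] at hX'sub1
    exact tile_ne_univ C1 hC1 (Set.univ_subset_iff.1 hX'sub1)
  have hX''nu : (X'' : Set E) ≠ Set.univ := fun h => by
    rw [h] at hX''sub1
    exact tile_ne_univ C1 hC1 (Set.univ_subset_iff.1 hX''sub1)
  obtain ⟨p, hp⟩ := hcell X' hX'ne hX'nu
  obtain ⟨q, hq⟩ := hcell X'' hX''ne hX''nu
  obtain ⟨a, ha⟩ := hcell F1 (fun h => by
    have : c1 ∈ (F1 : Set E) := hc1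
    rw [h] at this; exact this) (tile_ne_univ C1 hC1)
  obtain ⟨b, hb⟩ := hcell F2 (fun h => by
    have : c2 ∈ (F2 : Set E) := hc2
    rw [h] at this; exact this) (tile_ne_univ C2 hC2)
  have hap : cell T' a ⊆ cell T' p := by rw [← ha, ← hp]; exact (hφ X' F1).1 hX'sub1
  have haq : cell T' a ⊆ cell T' q := by rw [← ha, ← hq]; exact (hφ X'' F1).1 hX''sub1
  have hbp : cell T' b ⊆ cell T' p := by rw [← hb, ← hp]; exact (hφ X' F2).1 hX'sub2
  have hbq : cell T' b ⊆ cell T' q := by rw [← hb, ← hq]; exact (hφ X'' F2).1 hX''sub2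
  -- every point of the segment lies in `A ∪ B`
  have hseg : ∀ m, m ∈ cell T' p → m ∈ cell T' q →
      cell T' m = cell T' a ∨ cell T' m = cell T' b := by
    intro m hmp hmq
    obtain ⟨M, hM⟩ := φ.surjective ⟨cell T' m, Or.inr (Or.inr ⟨m, rfl⟩)⟩
    have hM' : (φ M : Set E) = cell T' m := congrArg Subtype.val hM
    have h3 : (X' : Set E) ⊆ M := by
      rw [hφ X' M, hM', hp]; exact cell_mono hT' hf' hmp
    have h4 : (X'' : Set E) ⊆ M := by
      rw [hφ X'' M, hM', hq]; exact cell_mono hT' hf' hmq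
    rcases M.2 with h | h | ⟨n, hn⟩
    · exfalso
      rw [h] at h3
      exact hX'ne (Set.subset_empty_iff.1 h3)
    · exfalso
      have : M = U := Subtype.ext h
      rw [this, hU] at hM'
      have h5 : m ∈ cell T' m := self_mem_cell m
      rw [← hM'] at h5; exact h5
    · have h5 : x' ∈ cell T n := by rw [← hn]; exact h3 (self_mem_cell x')
      have h6 : x'' ∈ cell T n := by rw [← hn]; exact h4 (self_mem_cell x'')
      rcases hbetween n h5 h6 with h | h
      · left
        have : M = F1 := Subtype.ext (hn.trans h)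
        rw [← hM', this, ha]
      · right
        have : M = F2 := Subtype.ext (hn.trans h)
        rw [← hM', this, hb]
  have hconv : Convex ℝ (cell T' p ∩ cell T' q) :=
    (convex_cell hT' hf' p).inter (convex_cell hT' hf' q)
  have hconn : IsPreconnected (segment ℝ a b) := (convex_segment a b).isPreconnected
  have haa := self_mem_cell (T := T') a
  have hbb := self_mem_cell (T := T') b
  have hsegsub : segment ℝ a b ⊆ cell T' p ∩ cell T' q :=
    hconv.segment_subset ⟨hap haa, haq haa⟩ ⟨hbp hbb, hbq hbb⟩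
  have hcov : segment ℝ a b ⊆ cell T' a ∪ cell T' b := by
    intro m hm
    have h5 := self_mem_cell (T := T') m
    rcases hseg m (hsegsub hm).1 (hsegsub hm).2 with h | h
    · left; rw [← h]; exact h5
    · right; rw [← h]; exact h5
  have hcl := (isPreconnected_closed_iff.1 hconn) (cell T' a) (cell T' b) isClosed_closure
    isClosed_closure hcov ⟨a, left_mem_segment ℝ a b, haa⟩ ⟨b, right_mem_segment ℝ a b, hbb⟩
  obtain ⟨m, hm, hma, hmb⟩ := hcl
  have h7 := cell_mono hT' hf' hma
  have h8 := cell_mono hT' hf' hmb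
  have hbad : ∀ F F' : facePoset T, (φ F : Set E) ⊆ φ F' → (F' : Set E) ⊆ F :=
    fun F F' h => (hφ F' F).2 h
  rcases hseg m (hsegsub hm).1 (hsegsub hm).2 with h | h
  · rw [h] at h8
    -- A ⊆ B, so C2 ⊆ C1
    have h9 : (F2 : Set E) ⊆ F1 := hbad F1 F2 (by rw [ha, hb]; exact h8)
    exact hne (hc2' C1 hC1 (h9 hc2))
  · rw [h] at h7
    have h9 : (F1 : Set E) ⊆ F2 := hbad F2 F1 (by rw [ha, hb]; exact h7)
    exact hne (hc1' C2 hC2 (h9 hc1)).symm

end Pool.Agent.H17.Til2
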