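import Pool.Agent.H17.Til2

set_option autoImplicit false

namespace Pool.Agent.H17.Til3

open Pool.Agent.H17.TilDef Pool.Agent.H17.Til Pool.Agent.H17.Til2 Set Filter Topology

abbrev E3 := EuclideanSpace ℝ (Fin 3)

def Box (a b : Fin 3 → ℝ) : Set E3 := {x | ∀ i, a i ≤ x i ∧ x i ≤ b i}

theorem box_polytope (a b : Fin 3 → ℝ) (h : ∀ i, a i ≤ b i) : IsConvexPolytope (Box a b) := by
  refine ⟨(WithLp.linearEquiv 2 ℝ (Fin 3 → ℝ)).symm ''
    (Set.pi Set.univ fun i => ({a i, b i} : Set ℝ)), ?_, ?_⟩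
  · apply Set.Finite.image
    apply Set.Finite.pi
    intro i
    exact Set.toFinite _
  · have h1 := ((WithLp.linearEquiv 2 ℝ (Fin 3 → ℝ)).symm.toLinearMap).image_convexHull
      (Set.pi Set.univ fun i => ({a i, b i} : Set ℝ))
    have h2 : convexHull ℝ (Set.pi Set.univ fun i => ({a i, b i} : Set ℝ)) =
        Set.pi Set.univ fun i => Icc (a i) (b i) := by
      rw [convexHull_pi]
      congr 1
      funext i
      rw [convexHull_pair, segment_eq_Icc (h i)]
    rw [h2] at h1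
    have h3 : (fun x => (WithLp.linearEquiv 2 ℝ (Fin 3 → ℝ)).symm.toLinearMap x) =
      fun x => (WithLp.linearEquiv 2 ℝ (Fin 3 → ℝ)).symm x := rfl
    rw [show (⇑(WithLp.linearEquiv 2 ℝ (Fin 3 → ℝ)).symm) =
      ⇑((WithLp.linearEquiv 2 ℝ (Fin 3 → ℝ)).symm.toLinearMap) from rfl, ← h1]
    ext x
    constructor
    · intro hx
      refine ⟨fun i => x i, ?_, ?_⟩
      · intro i _
        exact hx i
      · rfl
    · rintro ⟨y, hy, rfl⟩ i
      exact hy i (mem_univ i)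

theorem box_interior {a b : Fin 3 → ℝ} {x : E3} (hx : x ∈ interior (Box a b)) (i : Fin 3) :
    a i < x i ∧ x i < b i := by
  rw [mem_interior_iff_mem_nhds, Metric.mem_nhds_iff] at hx
  obtain ⟨ε, hε, hball⟩ := hx
  have h1 : x + (ε / 2) • EuclideanSpace.single i (1:ℝ) ∈ Box a b := by
    apply hball
    rw [Metric.mem_ball, dist_eq_norm, add_sub_cancel_left, norm_smul]
    simp
    rw [abs_of_pos hε]; linarith
  have h2 : x - (ε / 2) • EuclideanSpace.single i (1:ℝ) ∈ Box a b := by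
    apply hball
    rw [Metric.mem_ball, dist_eq_norm, sub_sub_cancel_left, norm_neg, norm_smul]
    simp
    rw [abs_of_pos hε]; linarith
  have h3 := (h1 i).2
  have h4 := (h2 i).1
  simp at h3 h4
  constructor <;> linarith

theorem box_open {a b : Fin 3 → ℝ} {x : E3} (h : ∀ i, a i < x i ∧ x i < b i) :
    x ∈ interior (Box a b) := by
  rw [mem_interior]
  refine ⟨{y | ∀ i, a i < y i ∧ y i < b i}, fun y hy i => ⟨(hy i).1.le, (hy i).2.le⟩, ?_, h⟩
  have : {y : E3 | ∀ i, a i < y i ∧ y i < b i} = ⋂ i, {y : E3 | a i < y i ∧ y i < b i} := by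
    ext y; simp
  rw [this]
  apply isOpen_iInter_of_finite
  intro i
  have h1 : Continuous fun y : E3 => y i := by fun_prop
  exact (isOpen_lt continuous_const h1).inter (isOpen_lt h1 continuous_const)

def e (i j : ℤ) : ℤ := (i + j) % 2

theorem e_cases (i j : ℤ) : e i j = 0 ∨ e i j = 1 := by unfold e; omega

def lo (i j k : ℤ) : Fin 3 → ℝ := ![(i:ℝ), (j:ℝ), ((2 * k + e i j : ℤ) : ℝ)]
def hi (i j k : ℤ) : Fin 3 → ℝ := ![(i:ℝ) + 1, (j:ℝ) + 1, ((2 * k + e i j : ℤ) : ℝ) + 2]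

def Brick (i j k : ℤ) : Set E3 := Box (lo i j k) (hi i j k)

theorem mem_brick {i j k : ℤ} {x : E3} : x ∈ Brick i j k ↔
    ((i:ℝ) ≤ x 0 ∧ x 0 ≤ i + 1) ∧ ((j:ℝ) ≤ x 1 ∧ x 1 ≤ j + 1) ∧
    (((2 * k + e i j : ℤ) : ℝ) ≤ x 2 ∧ x 2 ≤ ((2 * k + e i j : ℤ) : ℝ) + 2) := by
  unfold Brick Box lo hi
  simp only [Set.mem_ofPred_eq, Fin.forall_fin_succ]
  simp

def BT : Set (Set E3) := {P | ∃ i j k : ℤ, P = Brick i j k}

theorem lo_lt_hi (i j k : ℤ) (n : Fin 3) : lo i j k n < hi i j k n := by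
  unfold lo hi
  fin_cases n <;> simp

theorem tiling : IsTiling BT := by
  refine ⟨?_, ?_, ?_⟩
  · rintro P ⟨i, j, k, rfl⟩
    refine ⟨box_polytope _ _ fun n => (lo_lt_hi i j k n).le, ?_⟩
    refine ⟨WithLp.toLp 2 (fun n => (lo i j k n + hi i j k n) / 2), box_open fun n => ?_⟩
    have := lo_lt_hi i j k n
    simp only []
    constructor <;> linarith
  · rw [Set.sUnion_eq_univ_iff]
    intro x
    refine ⟨Brick ⌊x 0⌋ ⌊x 1⌋ ⌊(x 2 - e ⌊x 0⌋ ⌊x 1⌋) / 2⌋, ⟨_, _, _, rfl⟩, ?_⟩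
    rw [mem_brick]
    have h1 := Int.floor_le (x 0)
    have h2 := Int.lt_floor_add_one (x 0)
    have h3 := Int.floor_le (x 1)
    have h4 := Int.lt_floor_add_one (x 1)
    have h5 := Int.floor_le ((x 2 - e ⌊x 0⌋ ⌊x 1⌋) / 2)
    have h6 := Int.lt_floor_add_one ((x 2 - e ⌊x 0⌋ ⌊x 1⌋) / 2)
    push_cast
    refine ⟨⟨h1, h2.le⟩, ⟨h3, h4.le⟩, ?_, ?_⟩ <;> linarith
  · rintro P ⟨i, j, k, rfl⟩ Q ⟨i', j', k', rfl⟩ hne
    rw [Set.disjoint_left]
    intro x hx hx'
    apply hne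
    have a0 := box_interior hx 0
    have a1 := box_interior hx 1
    have a2 := box_interior hx 2
    have b0 := box_interior hx' 0
    have b1 := box_interior hx' 1
    have b2 := box_interior hx' 2
    simp only [lo, hi, Matrix.cons_val_zero, Matrix.cons_val_one, Matrix.cons_val] at a0 a1 a2 b0 b1 b2
    have c1 : i = i' := by
      have u : (i:ℝ) < i' + 1 := by linarith
      have v : (i':ℝ) < i + 1 := by linarith
      have u' : i < i' + 1 := by exact_mod_cast u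
      have v' : i' < i + 1 := by exact_mod_cast v
      omega
    have c2 : j = j' := by
      have u : (j:ℝ) < j' + 1 := by linarith
      have v : (j':ℝ) < j + 1 := by linarith
      have u' : j < j' + 1 := by exact_mod_cast u
      have v' : j' < j + 1 := by exact_mod_cast v
      omega
    subst c1; subst c2
    have c3 : k = k' := by
      have u : ((2 * k + e i j : ℤ) : ℝ) < ((2 * k' + e i j : ℤ) : ℝ) + 2 := by linarith
      have v : ((2 * k' + e i j : ℤ) : ℝ) < ((2 * k + e i j : ℤ) : ℝ) + 2 := by linarith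
      have u' : (2 * k + e i j : ℤ) < (2 * k' + e i j : ℤ) + 2 := by exact_mod_cast u
      have v' : (2 * k' + e i j : ℤ) < (2 * k + e i j : ℤ) + 2 := by exact_mod_cast v
      omega
    rw [c3]

theorem locFin : IsLocallyFinite BT := by
  intro B hB
  obtain ⟨R, hR⟩ := hB.exists_norm_le
  obtain ⟨N, hN⟩ := exists_nat_ge (R + 3)
  have hfin : ((fun t : ℤ × ℤ × ℤ => Brick t.1 t.2.1 t.2.2) ''
      (Icc (-(N:ℤ)) N ×ˢ Icc (-(N:ℤ)) N ×ˢ Icc (-(N:ℤ)) N)).Finite :=
    ((Set.finite_Icc _ _).prod ((Set.finite_Icc _ _).prod (Set.finite_Icc _ _))).image _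
  refine hfin.subset ?_
  rintro P ⟨⟨i, j, k, rfl⟩, x, hx, hxB⟩
  refine ⟨(i, j, k), ?_, rfl⟩
  have hx1 := hR x hxB
  have hc : ∀ n, |x n| ≤ R := fun n => by
    have := (EuclideanSpace.norm_eq x)
    have h2 := PiLp.norm_apply_le x n
    rw [Real.norm_eq_abs] at h2
    exact h2.trans hx1
  rw [mem_brick] at hx
  obtain ⟨⟨h1, h2⟩, ⟨h3, h4⟩, h5, h6⟩ := hx
  have k0 := abs_le.1 (hc 0)
  have k1 := abs_le.1 (hc 1)
  have k2 := abs_le.1 (hc 2)
  have he := e_cases i j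
  have i1 : (i:ℝ) ≤ N := by linarith
  have i2 : -(N:ℝ) ≤ i := by linarith
  have j1 : (j:ℝ) ≤ N := by linarith
  have j2 : -(N:ℝ) ≤ j := by linarith
  have k3 : ((2 * k + e i j : ℤ) : ℝ) ≤ N := by linarith
  have k4 : -(N:ℝ) + 1 ≤ ((2 * k + e i j : ℤ) : ℝ) := by linarith
  have i1' : i ≤ N := by exact_mod_cast i1
  have i2' : -(N:ℤ) ≤ i := by exact_mod_cast i2
  have j1' : j ≤ N := by exact_mod_cast j1
  have j2' : -(N:ℤ) ≤ j := by exact_mod_cast j2
  have k3' : (2 * k + e i j : ℤ) ≤ N := by exact_mod_cast k3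
  have k4' : -(N:ℤ) + 1 ≤ (2 * k + e i j : ℤ) := by exact_mod_cast k4
  simp only [Set.mem_prod, Set.mem_Icc]
  refine ⟨⟨i2', i1'⟩, ⟨j2', j1'⟩, ?_, ?_⟩ <;> omega

def pt (a b c : ℝ) : E3 := WithLp.toLp 2 ![a, b, c]

@[simp] theorem pt0 (a b c : ℝ) : pt a b c 0 = a := rfl
@[simp] theorem pt1 (a b c : ℝ) : pt a b c 1 = b := rfl
@[simp] theorem pt2 (a b c : ℝ) : pt a b c 2 = c := rfl

/-- integer bounds from real ones -/
theorem ib {i : ℤ} {p q : ℤ} (h1 : (p:ℝ) < i) (h2 : (i:ℝ) < q) : p < i ∧ i < q :=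
  ⟨by exact_mod_cast h1, by exact_mod_cast h2⟩

theorem main : ∀ T' : Set (Set E3), IsTiling T' → IsLocallyFinite T' → ¬ AreDual BT T' := by
  intro T' hT' hf'
  have hneP : ∀ k : ℤ, Brick (-1) 0 k ≠ Brick 0 0 0 ∧ Brick (-1) 0 k ≠ Brick (-1) (-1) 0 := by
    intro k
    have hm : pt (-1/2) (1/2) (((2 * k + e (-1) 0 : ℤ) : ℝ)) ∈ Brick (-1) 0 k := by
      rw [mem_brick]; simp only [pt0, pt1, pt2]; push_cast
      refine ⟨⟨?_, ?_⟩, ⟨?_, ?_⟩, ?_, ?_⟩ <;> norm_num
    constructor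
    · intro h
      rw [h, mem_brick] at hm
      simp only [pt0, pt1, pt2] at hm
      have := hm.1.1
      push_cast at this
      norm_num at this
    · intro h
      rw [h, mem_brick] at hm
      simp only [pt0, pt1, pt2] at hm
      have := hm.2.1.2
      push_cast at this
      norm_num at this
  refine no_dual tiling locFin (x' := pt 0 0 (1/2)) (x'' := pt 0 0 (3/2)) (C1 := Brick 0 0 0)
    (C2 := Brick (-1) (-1) 0) ⟨_, _, _, rfl⟩ ⟨_, _, _, rfl⟩ ?_ ?_ ?_
    (c1 := pt (1/2) (1/2) 1) (c2 := pt (-1/2) (-1/2) 1) ?_ ?_ ?_ ?_ hT' hf'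
  · intro h
    have hm : pt (1/2) (1/2) 1 ∈ Brick 0 0 0 := by
      rw [mem_brick]; simp only [pt0, pt1, pt2, e]; norm_num
    rw [h, mem_brick] at hm
    simp only [pt0, pt1, pt2] at hm
    have := hm.1.2
    push_cast at this
    norm_num at this
  · rintro P ⟨i, j, k, rfl⟩
    constructor
    · rintro ⟨h1, h2⟩
      rw [mem_brick] at h1 h2
      simp only [pt0, pt1, pt2] at h1 h2
      obtain ⟨⟨a1, a2⟩, ⟨a3, a4⟩, a5, _⟩ := h1
      obtain ⟨_, _, _, a6⟩ := h2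
      have i1 : i ≤ 0 := by exact_mod_cast a1
      have i2 : -1 ≤ i := by
        have : (-1:ℝ) ≤ i := by linarith
        exact_mod_cast this
      have j1 : j ≤ 0 := by exact_mod_cast a3
      have j2 : -1 ≤ j := by
        have : (-1:ℝ) ≤ j := by linarith
        exact_mod_cast this
      have k1 : (2 * k + e i j : ℤ) < 1 := by
        have : ((2 * k + e i j : ℤ) : ℝ) < 1 := by linarith
        exact_mod_cast this
      have k2 : -1 < (2 * k + e i j : ℤ) := by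
        have : (-1:ℝ) < ((2 * k + e i j : ℤ) : ℝ) := by linarith
        exact_mod_cast this
      have k3 : k = 0 := by rcases e_cases i j with h | h <;> omega
      unfold e at k1 k2
      have hij : (i = 0 ∧ j = 0) ∨ (i = -1 ∧ j = -1) := by omega
      rcases hij with ⟨rfl, rfl⟩ | ⟨rfl, rfl⟩
      · left; rw [k3]
      · right; rw [k3]
    · rintro (h | h) <;> rw [h] <;> constructor <;> rw [mem_brick] <;>
        simp only [pt0, pt1, pt2, e] <;> norm_num
  · rintro m ⟨h1, h2⟩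
    rw [mem_brick] at h1 h2
    obtain ⟨⟨a1, a2⟩, ⟨a3, a4⟩, a5, a6⟩ := h1
    obtain ⟨⟨b1, b2⟩, ⟨b3, b4⟩, b5, b6⟩ := h2
    have e1 : e 0 0 = 0 := rfl
    have e2 : e (-1) 0 = 1 := rfl
    rw [e1] at a5 a6
    push_cast at *
    rcases le_total (m 2) 1 with h | h
    · refine ⟨Brick (-1) 0 (-1), ⟨_, _, _, rfl⟩, ?_, hneP _⟩
      rw [mem_brick, e2]
      push_cast
      refine ⟨⟨?_, ?_⟩, ⟨?_, ?_⟩, ?_, ?_⟩ <;> linarith
    · refine ⟨Brick (-1) 0 0, ⟨_, _, _, rfl⟩, ?_, hneP _⟩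
      rw [mem_brick, e2]
      push_cast
      refine ⟨⟨?_, ?_⟩, ⟨?_, ?_⟩, ?_, ?_⟩ <;> linarith
  · rw [mem_brick]; simp only [pt0, pt1, pt2, e]; norm_num
  · rintro Q ⟨i, j, k, rfl⟩ hQ
    rw [mem_brick] at hQ
    simp only [pt0, pt1, pt2] at hQ
    obtain ⟨⟨a1, a2⟩, ⟨a3, a4⟩, a5, a6⟩ := hQ
    have hi := ib (i := i) (p := -1) (q := 1) (by push_cast; linarith) (by push_cast; linarith)
    have hj := ib (i := j) (p := -1) (q := 1) (by push_cast; linarith) (by push_cast; linarith)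
    have i0 : i = 0 := by omega
    have j0 : j = 0 := by omega
    subst i0; subst j0
    have e1 : e 0 0 = 0 := rfl
    rw [e1] at a5 a6
    push_cast at a5 a6
    have hk := ib (i := k) (p := -1) (q := 1) (by push_cast; linarith) (by push_cast; linarith)
    have k0 : k = 0 := by omega
    rw [k0]
  · rw [mem_brick]; simp only [pt0, pt1, pt2, e]; norm_num
  · rintro Q ⟨i, j, k, rfl⟩ hQ
    rw [mem_brick] at hQ
    simp only [pt0, pt1, pt2] at hQ
    obtain ⟨⟨a1, a2⟩, ⟨a3, a4⟩, a5, a6⟩ := hQ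
    have hi := ib (i := i) (p := -2) (q := 0) (by push_cast; linarith) (by push_cast; linarith)
    have hj := ib (i := j) (p := -2) (q := 0) (by push_cast; linarith) (by push_cast; linarith)
    have i0 : i = -1 := by omega
    have j0 : j = -1 := by omega
    subst i0; subst j0
    have e1 : e (-1) (-1) = 0 := rfl
    rw [e1] at a5 a6
    push_cast at a5 a6
    have hk := ib (i := k) (p := -1) (q := 1) (by push_cast; linarith) (by push_cast; linarith)
    have k0 : k = 0 := by omega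
    rw [k0]

end Pool.Agent.H17.Til3
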