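import Mathlib

set_option autoImplicit false

namespace Pool.Agent.H17.TilDef

variable {E : Type} [NormedAddCommGroup E] [NormedSpace ℝ E]

/-- A convex polytope: the convex hull of a finite set of points. -/
def IsConvexPolytope (P : Set E) : Prop := ∃ s : Set E, s.Finite ∧ P = convexHull ℝ s

/-- A tiling of the whole space by convex polytopes: the tiles are convex polytopes with nonempty
interior (full-dimensional), they cover the space and their interiors are pairwise disjoint. -/
def IsTiling (T : Set (Set E)) : Prop :=
  (∀ P ∈ T, IsConvexPolytope P ∧ (interior P).Nonempty) ∧ ⋃₀ T = Set.univ ∧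
    T.Pairwise (fun P Q => Disjoint (interior P) (interior Q))

/-- Local finiteness: every bounded set meets only finitely many tiles. -/
def IsLocallyFinite (T : Set (Set E)) : Prop :=
  ∀ B : Set E, Bornology.IsBounded B → {P ∈ T | (P ∩ B).Nonempty}.Finite

/-- `σ(x)`: the pairs `(P, F)` with `P` a tile containing `x` and `F` the face of `P` whose
relative interior contains `x`.  Faces of a polytope: `∅`, `P` and the intersections of `P` with
supporting hyperplanes, i.e. the exposed subsets of `P`. -/
def sigma (T : Set (Set E)) (x : E) : Set (Set E × Set E) :=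
  {p | p.1 ∈ T ∧ x ∈ p.1 ∧ IsExposed ℝ p.1 p.2 ∧ x ∈ intrinsicInterior ℝ p.2}

/-- The cell of the tiling determined by `x`: the closure of the class `{y | σ(y) = σ(x)}`. -/
def cell (T : Set (Set E)) (x : E) : Set E := closure {y | sigma T y = sigma T x}

/-- The face poset `L(T)`: all cells, the empty set and the whole space, ordered by inclusion. -/
def facePoset (T : Set (Set E)) : Set (Set E) :=
  {C | C = ∅ ∨ C = Set.univ ∨ ∃ x, C = cell T x}

/-- Duality of tilings: an inclusion-reversing bijection of face posets. -/
def AreDual (T T' : Set (Set E)) : Prop :=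
  ∃ φ : facePoset T ≃ facePoset T', ∀ F₁ F₂ : facePoset T,
    (F₁ : Set E) ⊆ (F₂ : Set E) ↔ (φ F₂ : Set E) ⊆ (φ F₁ : Set E)

end Pool.Agent.H17.TilDef
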