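import Mathlib

set_option autoImplicit false

namespace Pool.Agent.H17.Uni

/-- finite filtration -/
structure Filt (V : Type) [AddCommGroup V] [Module ℚ V] where
  F : ℕ → Submodule ℚ V
  mono : Monotone F
  zero : F 0 = ⊥
  L : ℕ
  top : F L = ⊤

variable {V : Type} [AddCommGroup V] [Module ℚ V]

def Low (Φ : Filt V) (k : ℕ) (a : Module.End ℚ V) : Prop :=
  ∀ s, ∀ v ∈ Φ.F (s + k), a v ∈ Φ.F s

variable {Φ : Filt V}

theorem Low.one : Low Φ 0 (1 : Module.End ℚ V) := fun _ _ hv => hv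

theorem Low.mul {k l : ℕ} {a b : Module.End ℚ V} (ha : Low Φ k a) (hb : Low Φ l b) :
    Low Φ (k + l) (a * b) := by
  intro s v hv
  rw [← add_assoc] at hv
  exact ha s _ (hb (s + k) v hv)

theorem Low.add {k : ℕ} {a b : Module.End ℚ V} (ha : Low Φ k a) (hb : Low Φ k b) :
    Low Φ k (a + b) := fun s v hv => (Φ.F s).add_mem (ha s v hv) (hb s v hv)

theorem Low.sub {k : ℕ} {a b : Module.End ℚ V} (ha : Low Φ k a) (hb : Low Φ k b) :
    Low Φ k (a - b) := fun s v hv => (Φ.F s).sub_mem (ha s v hv) (hb s v hv)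

theorem Low.neg {k : ℕ} {a : Module.End ℚ V} (ha : Low Φ k a) :
    Low Φ k (-a) := fun s v hv => (Φ.F s).neg_mem (ha s v hv)

theorem Low.smul {k : ℕ} {a : Module.End ℚ V} (c : ℚ) (ha : Low Φ k a) :
    Low Φ k (c • a) := fun s v hv => (Φ.F s).smul_mem c (ha s v hv)

theorem Low.mono {k l : ℕ} (h : k ≤ l) {a : Module.End ℚ V} (ha : Low Φ l a) :
    Low Φ k a := fun s v hv => ha s v (Φ.mono (by omega) hv)

theorem Low.eq_zero {k : ℕ} (h : Φ.L ≤ k) {a : Module.End ℚ V} (ha : Low Φ k a) : a = 0 := by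
  ext v
  have h1 : v ∈ Φ.F (0 + k) := by
    have : v ∈ Φ.F Φ.L := by rw [Φ.top]; trivial
    exact Φ.mono (by omega) this
  have h2 := ha 0 v h1
  rw [Φ.zero] at h2
  simpa using h2

theorem Low.zero (k : ℕ) : Low Φ k 0 := fun s _ _ => (Φ.F s).zero_mem

/-- from unipotent to filtration preserving -/
theorem Low.of_sub_one {a : Module.End ℚ V} (ha : Low Φ 1 (a - 1)) : Low Φ 0 a := by
  have := (ha.mono (Nat.zero_le 1)).add Low.one
  rwa [sub_add_cancel] at this

/-- unipotent automorphisms -/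
def U (Φ : Filt V) : Subgroup (Module.End ℚ V)ˣ where
  carrier := {g | Low Φ 1 (↑g - 1) ∧ Low Φ 1 (↑g⁻¹ - 1)}
  one_mem' := by
    constructor
    · simpa using Low.zero (Φ := Φ) 1
    · simpa using Low.zero (Φ := Φ) 1
  mul_mem' := by
    rintro g h ⟨hg, hg'⟩ ⟨hh, hh'⟩
    constructor
    · have e : ((g * h : (Module.End ℚ V)ˣ) : Module.End ℚ V) - 1 =
        (↑g - 1) * ↑h + (↑h - 1) := by rw [Units.val_mul]; noncomm_ring
      rw [e]
      exact (Low.mul hg (Low.of_sub_one hh)).add hh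
    · have e : (((g * h)⁻¹ : (Module.End ℚ V)ˣ) : Module.End ℚ V) - 1 =
        (↑h⁻¹ - 1) * ↑g⁻¹ + (↑g⁻¹ - 1) := by rw [mul_inv_rev, Units.val_mul]; noncomm_ring
      rw [e]
      exact (Low.mul hh' (Low.of_sub_one hg')).add hg'
  inv_mem' := by
    rintro g ⟨hg, hg'⟩
    exact ⟨hg', by simpa using hg⟩

/-- the descending series -/
def D (Φ : Filt V) (k : ℕ) : Subgroup (U Φ) where
  carrier := {g | Low Φ (k + 1) (((g : (Module.End ℚ V)ˣ) : Module.End ℚ V) - 1)}
  one_mem' := by simpa using Low.zero (Φ := Φ) (k + 1)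
  mul_mem' := by
    intro g h hg hh
    show Low Φ (k + 1) _
    have e : (((g * h : U Φ) : (Module.End ℚ V)ˣ) : Module.End ℚ V) - 1 =
      (((g : (Module.End ℚ V)ˣ) : Module.End ℚ V) - 1) * ((h : (Module.End ℚ V)ˣ) : Module.End ℚ V)
        + (((h : (Module.End ℚ V)ˣ) : Module.End ℚ V) - 1) := by
      rw [Subgroup.coe_mul, Units.val_mul]; noncomm_ring
    rw [e]
    exact (Low.mul hg (Low.of_sub_one h.2.1)).add hh
  inv_mem' := by
    intro g hg
    show Low Φ (k + 1) _
    have e : (((g⁻¹ : U Φ) : (Module.End ℚ V)ˣ) : Module.End ℚ V) - 1 =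
      -((((g : (Module.End ℚ V)ˣ) : Module.End ℚ V) - 1) *
        (((g : (Module.End ℚ V)ˣ)⁻¹ : (Module.End ℚ V)ˣ) : Module.End ℚ V)) := by
      rw [sub_mul, Units.mul_inv, one_mul, Subgroup.coe_inv]; abel
    rw [e]
    exact (Low.mul hg (Low.of_sub_one g.2.2)).neg

theorem U_nilpotent (Φ : Filt V) : Group.IsNilpotent (U Φ) := by
  rw [Subgroup.nilpotent_iff_finite_descending_central_series]
  refine ⟨Φ.L, D Φ, ⟨?_, ?_⟩, ?_⟩
  · rw [eq_top_iff]
    intro g _
    exact g.2.1
  · intro x n hx g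
    rw [commutatorElement_def]
    show Low Φ (n + 1 + 1) (((x * g * x⁻¹ * g⁻¹ : U Φ) : (Module.End ℚ V)ˣ) - 1 : Module.End ℚ V)
    have e : (((x * g * x⁻¹ * g⁻¹ : U Φ) : (Module.End ℚ V)ˣ) : Module.End ℚ V) - 1 =
      ((((x : (Module.End ℚ V)ˣ) : Module.End ℚ V) - 1) *
        (((g : (Module.End ℚ V)ˣ) : Module.End ℚ V) - 1) -
        (((g : (Module.End ℚ V)ˣ) : Module.End ℚ V) - 1) *
        (((x : (Module.End ℚ V)ˣ) : Module.End ℚ V) - 1)) *
        ((((x : (Module.End ℚ V)ˣ)⁻¹ : (Module.End ℚ V)ˣ) : Module.End ℚ V) *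
        (((g : (Module.End ℚ V)ˣ)⁻¹ : (Module.End ℚ V)ˣ) : Module.End ℚ V)) := by
      simp only [Subgroup.coe_mul, Subgroup.coe_inv, Units.val_mul]
      have h1 : ((((x : (Module.End ℚ V)ˣ) : Module.End ℚ V) - 1) *
        (((g : (Module.End ℚ V)ˣ) : Module.End ℚ V) - 1) -
        (((g : (Module.End ℚ V)ˣ) : Module.End ℚ V) - 1) *
        (((x : (Module.End ℚ V)ˣ) : Module.End ℚ V) - 1)) =
        ((x : (Module.End ℚ V)ˣ) : Module.End ℚ V) * ((g : (Module.End ℚ V)ˣ) : Module.End ℚ V) -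
        ((g : (Module.End ℚ V)ˣ) : Module.End ℚ V) * ((x : (Module.End ℚ V)ˣ) : Module.End ℚ V) := by
        noncomm_ring
      rw [h1, sub_mul]
      congr 1
      rw [mul_assoc, ← mul_assoc (((x : (Module.End ℚ V)ˣ) : Module.End ℚ V)), Units.mul_inv,
          one_mul, Units.mul_inv]
    rw [e]
    have h1 := Low.mul hx g.2.1
    have h2 := Low.mul g.2.1 hx
    rw [add_comm 1 (n + 1)] at h2
    exact Low.mul (k := n + 1 + 1) (l := 0) (h1.sub h2)
      (Low.mul (k := 0) (l := 0) (Low.of_sub_one x.2.2) (Low.of_sub_one g.2.2))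
  · rw [eq_bot_iff]
    intro g hg
    have h1 : Low Φ (Φ.L + 1) (((g : (Module.End ℚ V)ˣ) : Module.End ℚ V) - 1) := hg
    have h2 := h1.eq_zero (Nat.le_succ _)
    rw [Subgroup.mem_bot]
    apply Subtype.ext
    apply Units.ext
    rw [sub_eq_zero] at h2
    exact h2

/-- powers of a unipotent element -/
theorem pow_expand {a : Module.End ℚ V} (ha : Low Φ 1 a) (n : ℕ) :
    ∃ c : Module.End ℚ V, Low Φ 0 c ∧ (1 + a) ^ n = 1 + (n : ℚ) • a + a * a * c := by
  induction n with
  | zero => exact ⟨0, Low.zero 0, by simp⟩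
  | succ n ih =>
    obtain ⟨c, hc, e⟩ := ih
    refine ⟨(n : ℚ) • 1 + c + c * a, ?_, ?_⟩
    · refine ((Low.smul _ Low.one).add hc).add ?_
      exact Low.mul hc (ha.mono (Nat.zero_le 1))
    · rw [pow_succ, e]
      push_cast
      simp only [mul_add, add_mul, mul_one, one_mul, smul_mul_assoc, mul_smul_comm, add_smul,
        one_smul, mul_assoc]
      abel

theorem U_torsionFree (Φ : Filt V) (g : U Φ) (hg : g ≠ 1) (n : ℕ) (hn : 0 < n) : g ^ n ≠ 1 := by
  intro h
  apply hg
  obtain ⟨a, ha⟩ : ∃ a : Module.End ℚ V, a = ((g : (Module.End ℚ V)ˣ) : Module.End ℚ V) - 1 :=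
    ⟨_, rfl⟩
  have h1 : Low Φ 1 a := by rw [ha]; exact g.2.1
  have hga : ((g : (Module.End ℚ V)ˣ) : Module.End ℚ V) = 1 + a := by rw [ha]; abel
  have hpow : (1 + a) ^ n = 1 := by
    rw [← hga]
    have := congrArg (fun x : U Φ => ((x : (Module.End ℚ V)ˣ) : Module.End ℚ V)) h
    simpa using this
  have hall : ∀ k, Low Φ (k + 1) a := by
    intro k
    induction k with
    | zero => exact h1
    | succ k ih =>
      obtain ⟨c, hc, e⟩ := pow_expand h1 n
      rw [hpow] at e
      have e2 : a = (-(n:ℚ)⁻¹) • (a * a * c) := by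
        have hn0 : (n:ℚ) ≠ 0 := by positivity
        have : (n:ℚ) • a = -(a * a * c) := by
          have h3 : (n:ℚ) • a + a * a * c = 0 := by
            have h4 : (1:Module.End ℚ V) + ((n:ℚ) • a + a * a * c) = 1 + 0 := by
              rw [← add_assoc, ← e, add_zero]
            exact add_left_cancel h4
          exact eq_neg_of_add_eq_zero_left h3
        calc a = (n:ℚ)⁻¹ • ((n:ℚ) • a) := by rw [smul_smul, inv_mul_cancel₀ hn0, one_smul]
          _ = _ := by rw [this]; simp
      rw [e2]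
      apply Low.smul
      have h5 := Low.mul (Low.mul ih h1) hc
      exact h5.mono (by omega)
  have h0 := (hall Φ.L).eq_zero (Nat.le_succ _)
  apply Subtype.ext
  apply Units.ext
  rw [hga, h0]; simp

/-- polynomial approximate roots of `1 + X` -/
theorem poly_root (q : ℕ) (hq : 0 < q) (L : ℕ) :
    ∃ r : Polynomial ℚ, r.coeff 0 = 1 ∧ (Polynomial.X ^ (L + 1)) ∣ r ^ q - (1 + Polynomial.X) := by
  induction L with
  | zero =>
    refine ⟨1, by simp, ?_⟩
    rw [one_pow, pow_one]
    exact ⟨-1, by ring⟩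
  | succ L ih =>
    obtain ⟨r, hr, s, hs⟩ := ih
    have hq0 : (q:ℚ) ≠ 0 := by positivity
    obtain ⟨y, hy⟩ : ∃ y : Polynomial ℚ, y = -Polynomial.C (s.coeff 0 / q) *
      Polynomial.X ^ (L + 1) := ⟨_, rfl⟩
    obtain ⟨k, hk⟩ := Polynomial.powAddExpansion r y q
    refine ⟨r + y, ?_, ?_⟩
    · rw [hy, Polynomial.coeff_add, hr]
      simp [Polynomial.coeff_zero_eq_eval_zero]
    · have e : (r + y) ^ q - (1 + Polynomial.X) = Polynomial.X ^ (L + 1) *
          (s - Polynomial.C (s.coeff 0) * r ^ (q - 1)) + k * y ^ 2 := by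
        rw [hk]
        have : r ^ q = 1 + Polynomial.X + Polynomial.X ^ (L + 1) * s := by
          rw [← hs]; ring
        rw [this, hy]
        have h3 : (Polynomial.C (s.coeff 0) : Polynomial ℚ) = (q : Polynomial ℚ) *
            Polynomial.C (s.coeff 0 / q) := by
          rw [← Polynomial.C_eq_natCast, ← Polynomial.C_mul]
          congr 1
          field_simp
        rw [h3]
        ring
      rw [e]
      apply dvd_add
      · rw [pow_succ]
        apply mul_dvd_mul_left
        rw [Polynomial.X_dvd_iff]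
        simp only [Polynomial.coeff_zero_eq_eval_zero] at hr ⊢
        simp [hr]
      · rw [hy]
        apply Dvd.dvd.mul_left
        rw [mul_pow, ← pow_mul]
        apply Dvd.dvd.mul_left
        exact pow_dvd_pow _ (by omega)

/-- roots of unipotent operators -/
theorem exists_root {a : Module.End ℚ V} (ha : Low Φ 1 a) (q : ℕ) (hq : 0 < q) :
    ∃ b : Module.End ℚ V, Low Φ 1 (b - 1) ∧ b ^ q = 1 + a ∧
      ∀ T : Module.End ℚ V, T * a = a * T → T * b = b * T := by
  obtain ⟨r, hr, s, hs⟩ := poly_root q hq Φ.L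
  have hapow : ∀ k, Low Φ k (a ^ k) := by
    intro k
    induction k with
    | zero => simpa using Low.one (Φ := Φ)
    | succ k ih => rw [pow_succ]; exact Low.mul ih ha
  have ha0 : a ^ (Φ.L + 1) = 0 := (hapow (Φ.L + 1)).eq_zero (Nat.le_succ _)
  have h0 : ∀ p : Polynomial ℚ, Low Φ 0 (Polynomial.aeval a p) := by
    intro p
    induction p using Polynomial.induction_on' with
    | add p q hp hq => rw [map_add]; exact hp.add hq
    | monomial n c =>
      rw [Polynomial.aeval_monomial]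
      have := Low.smul c ((hapow n).mono (Nat.zero_le n))
      rwa [Algebra.smul_def] at this
  refine ⟨Polynomial.aeval a r, ?_, ?_, ?_⟩
  · have h1 : Polynomial.X ∣ r - 1 := by
      rw [Polynomial.X_dvd_iff]; simp [hr]
    obtain ⟨t, ht⟩ := h1
    have h2 : Polynomial.aeval a r - 1 = a * Polynomial.aeval a t := by
      have := congrArg (Polynomial.aeval a) ht
      simpa using this
    rw [h2]
    exact Low.mul ha (h0 t)
  · have := congrArg (Polynomial.aeval a) hs
    simp only [map_sub, map_pow, map_add, map_one, Polynomial.aeval_X, map_mul] at this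
    rw [ha0, zero_mul, sub_eq_zero] at this
    exact this
  · intro T hT
    have hpowc : ∀ n : ℕ, T * a ^ n = a ^ n * T := fun n => (Commute.pow_right hT n)
    have hall : ∀ p : Polynomial ℚ, T * Polynomial.aeval a p = Polynomial.aeval a p * T := by
      intro p
      induction p using Polynomial.induction_on' with
      | add p q hp hq => rw [map_add, mul_add, add_mul, hp, hq]
      | monomial n c =>
        rw [Polynomial.aeval_monomial, ← mul_assoc, ← Algebra.commutes c T, mul_assoc, hpowc,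
          mul_assoc]
    exact hall r

end Pool.Agent.H17.Uni
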