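import Pool.Agent.H17.Uni1

set_option autoImplicit false

namespace Pool.Agent.H17.Uni

section Core

variable {K : Type} [Group K] (W : ℕ → Subgroup K)

/-- left translation -/
def Lt (k : K) : Module.End ℚ (K → ℚ) := LinearMap.funLeft ℚ ℚ (fun y => k⁻¹ * y)

theorem Lt_apply (k : K) (f : K → ℚ) (y : K) : Lt k f y = f (k⁻¹ * y) := rfl

theorem Lt_mul (k k' : K) : Lt (k * k') = Lt k * Lt k' := by
  ext f y
  show f ((k * k')⁻¹ * y) = f (k'⁻¹ * (k⁻¹ * y))
  rw [mul_inv_rev, mul_assoc]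

theorem Lt_one : Lt (1 : K) = 1 := by
  ext f y
  show f ((1 : K)⁻¹ * y) = f y
  rw [inv_one, one_mul]

/-- twisting by an automorphism -/
def Ct (τ : K ≃* K) : Module.End ℚ (K → ℚ) := LinearMap.funLeft ℚ ℚ (fun y => τ.symm y)

theorem Ct_apply (τ : K ≃* K) (f : K → ℚ) (y : K) : Ct τ f y = f (τ.symm y) := rfl

theorem Ct_Lt (τ : K ≃* K) (k : K) (f : K → ℚ) : Lt k (Ct τ f) = Ct τ (Lt (τ.symm k) f) := by
  ext y
  simp only [Lt_apply, Ct_apply, map_mul, map_inv]

/-- the filtration -/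
def Ph : ℕ → Submodule ℚ (K → ℚ)
  | 0 => ⊥
  | (s + 1) => ⨅ (a : ℕ), ⨅ (k : K), ⨅ (_ : k ∈ W a), Submodule.comap (Lt k - 1) (Ph (s - a))
termination_by n => n
decreasing_by omega

variable {W}

theorem Ph_zero : Ph W 0 = ⊥ := by rw [Ph]

theorem mem_Ph_succ {s : ℕ} {f : K → ℚ} :
    f ∈ Ph W (s + 1) ↔ ∀ a, ∀ k ∈ W a, Lt k f - f ∈ Ph W (s - a) := by
  rw [Ph]
  simp only [Submodule.mem_iInf, Submodule.mem_comap, LinearMap.sub_apply, Module.End.one_apply]

theorem Ph_le_succ (s : ℕ) : Ph W s ≤ Ph W (s + 1) := by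
  induction s using Nat.strong_induction_on with
  | _ s ih =>
    rcases s with _ | s
    · rw [Ph_zero]; exact bot_le
    · intro f hf
      rw [mem_Ph_succ] at hf ⊢
      intro a k hk
      have h := hf a k hk
      rcases Nat.lt_or_ge s a with h1 | h1
      · have e1 : s - a = 0 := by omega
        have e2 : s + 1 - a = 0 := by omega
        rw [e1] at h; rw [e2]; exact h
      · have e2 : s + 1 - a = (s - a) + 1 := by omega
        rw [e2]
        exact ih (s - a) (by omega) h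

theorem Ph_mono : Monotone (Ph W) := monotone_nat_of_le_succ Ph_le_succ

theorem Lt_mem (hW : ∀ a, (W a).Normal) (k : K) (s : ℕ) :
    ∀ f ∈ Ph W s, Lt k f ∈ Ph W s := by
  induction s using Nat.strong_induction_on with
  | _ s ih =>
    rcases s with _ | s
    · intro f hf
      rw [Ph_zero, Submodule.mem_bot] at hf ⊢
      rw [hf, map_zero]
    · intro f hf
      rw [mem_Ph_succ] at hf ⊢
      intro a k1 hk1
      have h2 := hf a (k⁻¹ * k1 * k) (by
        have := (hW a).conj_mem k1 hk1 k⁻¹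
        simpa using this)
      have h3 := ih (s - a) (by omega) _ h2
      have e : Lt k1 (Lt k f) - Lt k f = Lt k (Lt (k⁻¹ * k1 * k) f - f) := by
        ext y
        simp only [Pi.sub_apply, Lt_apply, mul_inv_rev, inv_inv]
        congr 2
        group
      rw [e]; exact h3

theorem Ct_mem {τ : K ≃* K} (hτ : ∀ a, ∀ k ∈ W a, τ.symm k ∈ W a) (s : ℕ) :
    ∀ f ∈ Ph W s, Ct τ f ∈ Ph W s := by
  induction s using Nat.strong_induction_on with
  | _ s ih =>
    rcases s with _ | s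
    · intro f hf
      rw [Ph_zero, Submodule.mem_bot] at hf ⊢
      rw [hf, map_zero]
    · intro f hf
      rw [mem_Ph_succ] at hf ⊢
      intro a k1 hk1
      have h2 := hf a (τ.symm k1) (hτ a k1 hk1)
      have h3 := ih (s - a) (by omega) _ h2
      rw [Ct_Lt, ← map_sub]; exact h3

theorem Ct_low (hW : ∀ a, (W a).Normal) (hW0 : W 0 = ⊤) {τ : K ≃* K}
    (hτ : ∀ a, ∀ k ∈ W a, τ.symm k ∈ W a)
    (hτ' : ∀ a, ∀ k ∈ W a, k⁻¹ * τ.symm k ∈ W (a + 1)) (s : ℕ) :
    ∀ f ∈ Ph W (s + 1), Ct τ f - f ∈ Ph W s := by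
  induction s using Nat.strong_induction_on with
  | _ s ih =>
    rcases s with _ | s
    · intro f hf
      rw [mem_Ph_succ] at hf
      rw [Ph_zero, Submodule.mem_bot]
      have hc : ∀ k y : K, f (k⁻¹ * y) = f y := by
        intro k y
        have h := hf 0 k (by rw [hW0]; trivial)
        rw [Nat.sub_zero, Ph_zero, Submodule.mem_bot] at h
        have := congrFun h y
        simp only [Pi.sub_apply, Lt_apply, Pi.zero_apply] at this
        linarith
      ext y
      simp only [Pi.sub_apply, Ct_apply, Pi.zero_apply]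
      have h1 := hc ((y * (τ.symm y)⁻¹)) y
      have e : (y * (τ.symm y)⁻¹)⁻¹ * y = τ.symm y := by group
      rw [e] at h1
      rw [h1]; ring
    · intro f hf
      rw [mem_Ph_succ] at hf ⊢
      intro a k hk
      have hc := hf (a + 1) (k⁻¹ * τ.symm k) (hτ' a k hk)
      have hk1 := hf a k hk
      have e1 : s + 1 - (a + 1) = s - a := by omega
      rw [e1] at hc
      have h1 := Ct_mem hτ (s - a) _ (Lt_mem hW k (s - a) _ hc)
      have h2 : Ct τ (Lt k f - f) - (Lt k f - f) ∈ Ph W (s - a) := by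
        rcases Nat.lt_or_ge s a with h3 | h3
        · have e2 : s + 1 - a = 0 := by omega
          rw [e2, Ph_zero, Submodule.mem_bot] at hk1
          rw [hk1]; simp
        · have e2 : s + 1 - a = (s - a) + 1 := by omega
          rw [e2] at hk1
          exact ih (s - a) (by omega) _ hk1
      have e : Lt k (Ct τ f - f) - (Ct τ f - f) =
        Ct τ (Lt k (Lt (k⁻¹ * τ.symm k) f - f)) + (Ct τ (Lt k f - f) - (Lt k f - f)) := by
        have e3 : Lt k (Lt (k⁻¹ * τ.symm k) f) = Lt (τ.symm k) f := by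
          have := Lt_mul k (k⁻¹ * τ.symm k)
          have e4 : k * (k⁻¹ * τ.symm k) = τ.symm k := by group
          rw [e4] at this
          rw [this]; rfl
        simp only [map_sub, e3, Ct_Lt]
        abel
      rw [e]
      exact (Ph W (s - a)).add_mem h1 h2

end Core

/-- a unipotent rational representation of a group in which `w` acts nontrivially -/
def URep (K : Type) [Group K] (w : K) : Prop :=
  ∃ (V : Type) (_ : AddCommGroup V) (_ : Module ℚ V) (Φ : Filt V) (ρ : K →* Module.End ℚ V),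
    (∀ k, Low Φ 1 (ρ k - 1)) ∧ ρ w ≠ 1

theorem low_mul_sub {V : Type} [AddCommGroup V] [Module ℚ V] {Φ : Filt V}
    {a b : Module.End ℚ V} (ha : Low Φ 1 (a - 1)) (hb : Low Φ 1 (b - 1)) :
    Low Φ 1 (a * b - 1) := by
  have e : a * b - 1 = (a - 1) * b + (b - 1) := by noncomm_ring
  rw [e]
  exact (Low.mul ha (Low.of_sub_one hb)).add hb

/-- unipotent operators are units of `U` -/
theorem exists_unit {V : Type} [AddCommGroup V] [Module ℚ V] {Φ : Filt V}
    {b : Module.End ℚ V} (hb : Low Φ 1 (b - 1)) :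
    ∃ u : U Φ, ((u : (Module.End ℚ V)ˣ) : Module.End ℚ V) = b := by
  obtain ⟨a, ha⟩ : ∃ a : Module.End ℚ V, a = 1 - b := ⟨_, rfl⟩
  have hla : Low Φ 1 a := by
    rw [ha, ← neg_sub]; exact hb.neg
  have hapow : ∀ k, Low Φ k (a ^ k) := by
    intro k
    induction k with
    | zero => simpa using Low.one (Φ := Φ)
    | succ k ih => rw [pow_succ]; exact Low.mul ih hla
  have ha0 : a ^ (Φ.L + 1) = 0 := (hapow (Φ.L + 1)).eq_zero (Nat.le_succ _)
  have hb' : b = 1 - a := by rw [ha]; abel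
  obtain ⟨c, hc⟩ : ∃ c : Module.End ℚ V, c = ∑ i ∈ Finset.range (Φ.L + 1), a ^ i := ⟨_, rfl⟩
  have h1 : c * b = 1 := by
    rw [hb', hc, geom_sum_mul_neg, ha0, sub_zero]
  have h2 : b * c = 1 := by
    rw [hb', hc, mul_neg_geom_sum, ha0, sub_zero]
  have hc0 : Low Φ 0 c := by
    rw [hc]
    apply Finset.sum_induction _ (fun x => Low Φ 0 x) (fun _ _ h h' => h.add h') (Low.zero 0)
    intro i _
    exact (hapow i).mono (Nat.zero_le i)
  refine ⟨⟨⟨b, c, h2, h1⟩, hb, ?_⟩, rfl⟩
  show Low Φ 1 (c - 1)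
  have e : c - 1 = c * a := by
    rw [ha, mul_sub, mul_one, h1]
  rw [e]
  exact Low.mul hc0 hla

/-- The core construction. -/
theorem core {K : Type} [Group K] {W : ℕ → Subgroup K} (hW : ∀ a, (W a).Normal) (hW0 : W 0 = ⊤)
    {c : ℕ} (hc : 0 < c) (hWc : ∀ a, c ≤ a → W a = ⊥) {τ : K ≃* K}
    (hτ : ∀ a, ∀ k ∈ W a, τ.symm k ∈ W a) (hτ2 : ∀ a, ∀ k ∈ W a, τ k ∈ W a)
    (hτ' : ∀ a, ∀ k ∈ W a, k⁻¹ * τ.symm k ∈ W (a + 1))
    {w : K} (hw : URep K w) :
    ∃ (V : Type) (_ : AddCommGroup V) (_ : Module ℚ V) (Φ : Filt V) (ρ : K →* Module.End ℚ V)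
      (X : Module.End ℚ V), (∀ k, Low Φ 1 (ρ k - 1)) ∧ Low Φ 1 (X - 1) ∧
      (∀ k, X * ρ k = ρ (τ k) * X) ∧ ρ w ≠ 1 := by
  obtain ⟨V, _, _, Ψ, ρ, hρ, hρw⟩ := hw
  -- a vector moved by w and a functional
  obtain ⟨v, hv⟩ : ∃ v, ρ w v ≠ v := by
    by_contra h
    push Not at h
    exact hρw (LinearMap.ext h)
  obtain ⟨l, hl⟩ : ∃ l : V →ₗ[ℚ] ℚ, l (ρ w v - v) ≠ 0 := by
    have := (Module.forall_dual_apply_eq_zero_iff ℚ (ρ w v - v)).not.2 (sub_ne_zero.2 hv)
    push Not at this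
    exact this
  -- matrix coefficients
  have hcoef : ∀ j, ∀ u ∈ Ψ.F j, (fun y : K => l (ρ y⁻¹ u)) ∈ Ph W (c * j) := by
    intro j
    induction j with
    | zero =>
      intro u hu
      rw [Ψ.zero, Submodule.mem_bot] at hu
      rw [hu]
      simp only [map_zero]
      exact Submodule.zero_mem _
    | succ j ih =>
      intro u hu
      obtain ⟨s, hs⟩ : ∃ s, c * (j + 1) = s + 1 := ⟨c * (j + 1) - 1, by
        have : 0 < c * (j + 1) := by positivity
        omega⟩
      rw [hs, mem_Ph_succ]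
      intro a k hk
      rcases Nat.lt_or_ge a c with h1 | h1
      · have hle : c * j ≤ s - a := by
          have : c * (j + 1) = c * j + c := by ring
          omega
        apply Ph_mono hle
        have e : Lt k (fun y : K => l (ρ y⁻¹ u)) - (fun y : K => l (ρ y⁻¹ u)) =
          fun y : K => l (ρ y⁻¹ ((ρ k - 1) u)) := by
          ext y
          simp only [Pi.sub_apply, Lt_apply, mul_inv_rev, inv_inv, map_mul, LinearMap.sub_apply,
            Module.End.mul_apply, Module.End.one_apply, map_sub]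
        rw [e]
        exact ih _ (hρ k j u hu)
      · rw [hWc a h1, Subgroup.mem_bot] at hk
        rw [hk, Lt_one]
        simp
  have hf := hcoef Ψ.L v (by rw [Ψ.top]; trivial)
  obtain ⟨n, hn⟩ : ∃ n, n = c * Ψ.L := ⟨_, rfl⟩
  rw [← hn] at hf
  let Φ : Filt (Ph W n) :=
    { F := fun j => (Ph W j).comap (Ph W n).subtype
      mono := fun i j hij => Submodule.comap_mono (Ph_mono hij)
      zero := by
        rw [Ph_zero]
        rw [eq_bot_iff]
        intro f hf
        rw [Submodule.mem_comap, Submodule.mem_bot] at hf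
        rw [Submodule.mem_bot]
        exact Subtype.ext hf
      L := n
      top := by
        rw [eq_top_iff]
        intro f _
        exact f.2 }
  let ρ' : K →* Module.End ℚ (Ph W n) :=
    { toFun := fun k => (Lt k).restrict (Lt_mem hW k n)
      map_one' := by
        ext f y
        show (Lt (1:K) f.1) y = f.1 y
        rw [Lt_one]; rfl
      map_mul' := fun k k' => by
        ext f y
        show (Lt (k * k') f.1) y = (Lt k (Lt k' f.1)) y
        rw [Lt_mul]; rfl }
  refine ⟨Ph W n, inferInstance, inferInstance, Φ, ρ', (Ct τ).restrict (Ct_mem hτ n), ?_, ?_,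
    ?_, ?_⟩
  · intro k s f hf
    have h1 : f.1 ∈ Ph W (s + 1) := hf
    have h2 := (mem_Ph_succ.1 h1) 0 k (by rw [hW0]; trivial)
    exact h2
  · intro s f hf
    have h1 : f.1 ∈ Ph W (s + 1) := hf
    exact Ct_low hW hW0 hτ hτ' s f.1 h1
  · intro k
    ext f y
    show (Ct τ (Lt k f.1)) y = (Lt (τ k) (Ct τ f.1)) y
    rw [Ct_Lt]; simp
  · intro h
    have h1 := congrArg (fun T : Module.End ℚ (Ph W n) => ((T ⟨_, hf⟩ : Ph W n) : K → ℚ) 1) h
    have h2 : l (ρ (w⁻¹ * 1)⁻¹ v) = l (ρ (1:K)⁻¹ v) := h1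
    simp only [mul_one, inv_inv, inv_one, map_one, Module.End.one_apply] at h2
    rw [map_sub, h2, sub_self] at hl
    exact hl rfl

end Pool.Agent.H17.Uni
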