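import Pool.Agent.H17.Uni2

set_option autoImplicit false

namespace Pool.Agent.H17.Uni

variable {H : Type} [Group H]

abbrev EE (V : Type) [AddCommGroup V] [Module ℚ V] := Module.End ℚ V

theorem conj_zpow {K : Subgroup H} [hKn : K.Normal] (x : H)
    {V : Type} [AddCommGroup V] [Module ℚ V] {Φ : Filt V} (ρ : K →* Module.End ℚ V) (Y : U Φ)
    (hY : ∀ k, ((Y : (EE V)ˣ) : EE V) * ρ k = ρ (MulAut.conjNormal x k) * ((Y : (EE V)ˣ) : EE V)) :
    ∀ (m : ℤ) (k : K), (((Y ^ m : U Φ) : (EE V)ˣ) : EE V) * ρ k =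
      ρ (MulAut.conjNormal (x ^ m) k) * (((Y ^ m : U Φ) : (EE V)ˣ) : EE V) := by
  -- conjugation by integer powers
  have hYn : ∀ (m : ℕ) (k : K), (((Y ^ m : U Φ) : (EE V)ˣ) : EE V) * ρ k =
      ρ (MulAut.conjNormal (x ^ m) k) * (((Y ^ m : U Φ) : (EE V)ˣ) : EE V) := by
    intro m
    induction m with
    | zero => intro k; simp
    | succ m ih =>
      intro k
      rw [pow_succ, Subgroup.coe_mul, Units.val_mul, mul_assoc, hY, ← mul_assoc, ih, mul_assoc]
      congr 2
      rw [pow_succ, map_mul]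
      rfl
  · intro m k
    rcases Int.eq_nat_or_neg m with ⟨n, rfl | rfl⟩
    · simpa using hYn n k
    · have h1 := hYn n (MulAut.conjNormal (x ^ (-(n:ℤ))) k)
      have h2 : MulAut.conjNormal (x ^ n) (MulAut.conjNormal (x ^ (-(n:ℤ))) k) = k := by
        apply Subtype.ext
        simp only [MulAut.conjNormal_apply, zpow_neg, zpow_natCast]
        group
      rw [h2] at h1
      have h3 : (((Y ^ (-(n:ℤ)) : U Φ) : (EE V)ˣ) : EE V) * (((Y ^ n : U Φ) : (EE V)ˣ) : EE V)
          = 1 := by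
        rw [← Units.val_mul, ← Subgroup.coe_mul]; simp
      have h4 : (((Y ^ n : U Φ) : (EE V)ˣ) : EE V) * (((Y ^ (-(n:ℤ)) : U Φ) : (EE V)ˣ) : EE V)
          = 1 := by
        rw [← Units.val_mul, ← Subgroup.coe_mul]; simp
      calc (((Y ^ (-(n:ℤ)) : U Φ) : (EE V)ˣ) : EE V) * ρ k
          = (((Y ^ (-(n:ℤ)) : U Φ) : (EE V)ˣ) : EE V) * (ρ k *
            (((Y ^ n : U Φ) : (EE V)ˣ) : EE V)) *
              (((Y ^ (-(n:ℤ)) : U Φ) : (EE V)ˣ) : EE V) := by
            rw [mul_assoc, mul_assoc (ρ k), h4, mul_one]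
        _ = _ := by rw [← h1, ← mul_assoc, h3, one_mul]

/-- building a representation of `K' = K ⟨x⟩` -/
theorem builder {K : Subgroup H} [hKn : K.Normal] {K' : Subgroup H} (x : H)
    (hK' : ∀ h ∈ K', ∃ k : K, ∃ m : ℤ, h = k * x ^ m)
    {V : Type} [AddCommGroup V] [Module ℚ V] {Φ : Filt V} (ρ : K →* Module.End ℚ V)
    (hρ : ∀ k, Low Φ 1 (ρ k - 1)) (Y : U Φ)
    (hY : ∀ k, ((Y : (EE V)ˣ) : EE V) * ρ k = ρ (MulAut.conjNormal x k) * ((Y : (EE V)ˣ) : EE V))
    (hZ : ∀ (k : K) (m : ℤ), (k : H) = x ^ m → ρ k = (((Y ^ m : U Φ) : (EE V)ˣ) : EE V)) :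
    ∃ ρ' : K' →* Module.End ℚ V, (∀ h, Low Φ 1 (ρ' h - 1)) ∧
      ∀ (h : K') (k : K) (m : ℤ), (h : H) = k * x ^ m →
        ρ' h = ρ k * (((Y ^ m : U Φ) : (EE V)ˣ) : EE V) := by
  classical
  have hYz := conj_zpow x ρ Y hY
  -- well-definedness
  have hwd : ∀ (k k' : K) (m m' : ℤ), (k : H) * x ^ m = k' * x ^ m' →
      ρ k * (((Y ^ m : U Φ) : (EE V)ˣ) : EE V) = ρ k' * (((Y ^ m' : U Φ) : (EE V)ˣ) : EE V) := by
    intro k k' m m' h
    have h1 : ((k'⁻¹ * k : K) : H) = x ^ (m' - m) := by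
      rw [zpow_sub, Subgroup.coe_mul, Subgroup.coe_inv, inv_mul_eq_iff_eq_mul, ← mul_assoc, ← h]
      group
    have h2 := hZ _ _ h1
    have h3 : ρ k = ρ k' * (((Y ^ (m' - m) : U Φ) : (EE V)ˣ) : EE V) := by
      rw [← h2, ← map_mul]; congr 1; group
    rw [h3, mul_assoc, ← Units.val_mul, ← Subgroup.coe_mul, ← zpow_add]
    congr 5
    ring
  choose! fk fm hf using hK'
  have hf' : ∀ h : K', (h : H) = fk h * x ^ fm h := fun h => hf h h.2
  refine ⟨{ toFun := fun h => ρ (fk h) * (((Y ^ fm h : U Φ) : (EE V)ˣ) : EE V)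
            map_one' := ?_
            map_mul' := ?_ }, ?_, ?_⟩
  · have := hwd (fk (1 : K')) 1 (fm (1 : K')) 0 (by rw [← hf' 1]; simp)
    rw [this]; simp
  · intro h h'
    have e : ((fk (h * h' : K') : K) : H) * x ^ fm (h * h' : K') =
        (fk h * MulAut.conjNormal (x ^ fm h) (fk h') : K) * x ^ (fm h + fm h') := by
      have e1 : ((fk (h * h' : K') : K) : H) * x ^ fm (h * h' : K') =
          (fk h * x ^ fm h) * (fk h' * x ^ fm h') := by
        rw [← hf' (h * h'), Subgroup.coe_mul]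
        exact congrArg₂ (· * ·) (hf' h) (hf' h')
      rw [e1, Subgroup.coe_mul, MulAut.conjNormal_apply, zpow_add]
      group
    have := hwd _ _ _ _ e
    show ρ (fk (h * h' : K')) * _ = (ρ (fk h) * _) * (ρ (fk h') * _)
    rw [this, map_mul, mul_assoc (ρ (fk h)), mul_assoc (ρ (fk h)), ← mul_assoc _ (ρ (fk h')),
      hYz, mul_assoc (ρ (MulAut.conjNormal (x ^ fm h) (fk h'))), zpow_add, Subgroup.coe_mul,
      Units.val_mul]
  · intro h
    exact low_mul_sub (hρ _) (Y ^ fm h).2.1
  · intro h k m hh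
    exact hwd _ _ _ _ (by rw [← hf' h, hh])

/-- `US K`: every nontrivial element of the subgroup `K` is detected by a unipotent rational
representation of `K` -/
def US (K : Subgroup H) : Prop := ∀ w : K, w ≠ 1 → URep K w

theorem step {K K' : Subgroup H} [hKn : K.Normal] (hle : K ≤ K') (x : H) (hxK' : x ∈ K')
    (hK' : ∀ h ∈ K', ∃ k : K, ∃ m : ℤ, h = k * x ^ m)
    (htf : ∀ g : H, g ≠ 1 → ∀ n : ℕ, 0 < n → g ^ n ≠ 1)
    {c : ℕ} (hc : (⊤ : Subgroup H).lowerCentralSeries c = ⊥)
    (hU : US K) : US K' := by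
  classical
  -- the core representation for an element of K
  have hcore : ∀ w : K, w ≠ 1 → ∃ (V : Type) (_ : AddCommGroup V) (_ : Module ℚ V) (Φ : Filt V)
      (ρ : K →* Module.End ℚ V) (X : Module.End ℚ V), (∀ k, Low Φ 1 (ρ k - 1)) ∧
      Low Φ 1 (X - 1) ∧ (∀ k, X * ρ k = ρ (MulAut.conjNormal x k) * X) ∧ ρ w ≠ 1 := by
    intro w hw
    refine core (W := fun a => ((⊤ : Subgroup H).lowerCentralSeries a).subgroupOf K)
      (fun a => inferInstance) ?_ (c := c + 1) (Nat.succ_pos c) ?_ (τ := MulAut.conjNormal x)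
      ?_ ?_ ?_ (hU w hw)
    · simp
    · intro a ha
      have h1 : (⊤ : Subgroup H).lowerCentralSeries a = ⊥ := by
        rw [eq_bot_iff, ← hc]
        exact Subgroup.lowerCentralSeries_antitone _ (by omega)
      simp [h1]
    · intro a k hk
      rw [Subgroup.mem_subgroupOf] at hk ⊢
      have hn : ((⊤ : Subgroup H).lowerCentralSeries a).Normal := inferInstance
      have := hn.conj_mem _ hk x⁻¹
      have e : (((MulAut.conjNormal x).symm k : K) : H) = x⁻¹ * k * x⁻¹⁻¹ := by
        rw [MulAut.conjNormal_symm_apply, inv_inv]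
      rw [e]; exact this
    · intro a k hk
      rw [Subgroup.mem_subgroupOf] at hk ⊢
      have hn : ((⊤ : Subgroup H).lowerCentralSeries a).Normal := inferInstance
      have := hn.conj_mem _ hk x
      rw [MulAut.conjNormal_apply]; exact this
    · intro a k hk
      rw [Subgroup.mem_subgroupOf] at hk ⊢
      rw [Subgroup.lowerCentralSeries_succ]
      have h1 := Subgroup.commutator_mem_commutator
        (inv_mem hk : (k : H)⁻¹ ∈ (⊤ : Subgroup H).lowerCentralSeries a)
        (Subgroup.mem_top (x⁻¹ : H))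
      rw [commutatorElement_def] at h1
      have e : (((k⁻¹ * (MulAut.conjNormal x).symm k : K)) : H) =
          (k : H)⁻¹ * x⁻¹ * ((k : H)⁻¹)⁻¹ * (x⁻¹)⁻¹ := by
        rw [Subgroup.coe_mul, MulAut.conjNormal_symm_apply, Subgroup.coe_inv]
        group
      rw [e]; exact h1
  intro w hw
  have hw' : (w : H) ≠ 1 := fun h => hw (Subtype.ext h)
  obtain ⟨k0, m0, hkm⟩ := hK' w w.2
  by_cases hA : ∃ q : ℕ, 0 < q ∧ x ^ q ∈ K
  · -- finite cyclic quotient
    obtain ⟨q, hq, hxq⟩ := hA
    -- w ^ q lies in K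
    have hpow : ∀ n : ℕ, ∃ k : K, (w : H) ^ n = k * x ^ (m0 * n) := by
      intro n
      induction n with
      | zero => exact ⟨1, by simp⟩
      | succ n ih =>
        obtain ⟨k, hk⟩ := ih
        refine ⟨k * MulAut.conjNormal (x ^ (m0 * n)) k0, ?_⟩
        rw [pow_succ, hk, hkm, Subgroup.coe_mul, MulAut.conjNormal_apply]
        push_cast
        rw [mul_add, mul_one, zpow_add]
        group
    obtain ⟨k1, hk1⟩ := hpow q
    have hwq : (w : H) ^ q ∈ K := by
      rw [hk1]
      refine K.mul_mem k1.2 ?_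
      have : x ^ (m0 * (q:ℤ)) = (x ^ q) ^ m0 := by
        rw [mul_comm, zpow_mul, zpow_natCast]
      rw [this]
      exact K.zpow_mem hxq m0
    have hw0 : (⟨(w : H) ^ q, hwq⟩ : K) ≠ 1 := by
      intro h
      exact htf w hw' q hq (congrArg Subtype.val h)
    obtain ⟨V, _, _, Φ, ρ, X, hρ, hX, hXρ, hρw⟩ := hcore _ hw0
    obtain ⟨Xu, hXu⟩ := exists_unit hX
    have hk0 : ∃ k0 : K, (k0 : H) = x ^ q := ⟨⟨x ^ q, hxq⟩, rfl⟩
    obtain ⟨kq, hkq⟩ := hk0
    -- conjugation facts
    have hXn : ∀ (n : ℕ) (k : K), X ^ n * ρ k = ρ (MulAut.conjNormal (x ^ n) k) * X ^ n := by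
      intro n
      induction n with
      | zero => intro k; simp
      | succ n ih =>
        intro k
        rw [pow_succ, mul_assoc, hXρ, ← mul_assoc, ih, mul_assoc]
        congr 2
        rw [pow_succ, map_mul]
        rfl
    obtain ⟨Z, hZ⟩ : ∃ Z : Module.End ℚ V, Z = ρ kq⁻¹ * X ^ q := ⟨_, rfl⟩
    have hZρ : ∀ k, Z * ρ k = ρ k * Z := by
      intro k
      rw [hZ, mul_assoc, hXn, ← mul_assoc, ← map_mul, ← mul_assoc, ← map_mul]
      congr 2
      apply Subtype.ext
      simp only [Subgroup.coe_mul, Subgroup.coe_inv, MulAut.conjNormal_apply, hkq]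
      group
    have hXZ : X * Z = Z * X := by
      rw [hZ, ← mul_assoc, hXρ, mul_assoc, ← pow_succ', mul_assoc, ← pow_succ]
      congr 2
      apply Subtype.ext
      simp only [Subgroup.coe_inv, MulAut.conjNormal_apply, hkq]
      have : x * (x ^ q)⁻¹ * x⁻¹ = (x * x ^ q * x⁻¹)⁻¹ := by group
      rw [this, ← pow_succ', pow_succ]
      group
    have hXpow : ∀ n : ℕ, Low Φ 1 (X ^ n - 1) := by
      intro n
      induction n with
      | zero => simpa using Low.zero (Φ := Φ) 1
      | succ n ih => rw [pow_succ]; exact low_mul_sub ih hX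
    have hZlow : Low Φ 1 (Z - 1) := by
      rw [hZ]; exact low_mul_sub (hρ _) (hXpow q)
    obtain ⟨R, hR1, hRq, hRc⟩ := exists_root hZlow q hq
    rw [add_sub_cancel] at hRq
    have hRc' : ∀ T : Module.End ℚ V, T * Z = Z * T → T * R = R * T := by
      intro T hT
      apply hRc
      rw [mul_sub, sub_mul, hT, mul_one, one_mul]
    have hXR := hRc' X hXZ
    have hρR : ∀ k, ρ k * R = R * ρ k := fun k => hRc' _ (hZρ k).symm
    obtain ⟨Ru, hRu⟩ := exists_unit hR1
    -- Y = X R⁻¹
    have hcommU : Commute Xu Ru := by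
      apply Subtype.ext
      apply Units.ext
      show ((Xu : (EE V)ˣ) : EE V) * ((Ru : (EE V)ˣ) : EE V) = _ * _
      rw [hXu, hRu]; exact hXR
    have hinvR : ∀ T : Module.End ℚ V, T * R = R * T →
        T * ((Ru⁻¹ : U Φ) : (EE V)ˣ) = (((Ru⁻¹ : U Φ) : (EE V)ˣ) : EE V) * T := by
      intro T hT
      have h1 : Commute T ((Ru : (EE V)ˣ) : EE V) := by rw [hRu]; exact hT
      have h2 := h1.units_inv_right
      exact h2
    have hYρ : ∀ k, (((Xu * Ru⁻¹ : U Φ) : (EE V)ˣ) : EE V) * ρ k =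
        ρ (MulAut.conjNormal x k) * (((Xu * Ru⁻¹ : U Φ) : (EE V)ˣ) : EE V) := by
      intro k
      rw [Subgroup.coe_mul, Units.val_mul, hXu, mul_assoc, ← hinvR _ (hρR k), ← mul_assoc, hXρ,
        mul_assoc]
    obtain ⟨ρ', hρ', hρ'2⟩ := builder x hK' ρ hρ (Xu * Ru⁻¹) hYρ (by
      intro k m hkm
      -- both are in U, commute and have the same q-th power
      obtain ⟨u, hu⟩ := exists_unit (hρ k)
      have hYq : (Xu * Ru⁻¹) ^ q * (Xu * Ru⁻¹) ^ 0 = (Xu ^ q) * (Ru ^ q)⁻¹ := by
        rw [pow_zero, mul_one, (hcommU.inv_right).mul_pow, inv_pow]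
      rw [pow_zero, mul_one] at hYq
      obtain ⟨uq, huq⟩ := exists_unit (hρ kq)
      have hYq' : (Xu * Ru⁻¹) ^ q = uq := by
        rw [hYq, mul_inv_eq_iff_eq_mul]
        apply Subtype.ext
        apply Units.ext
        simp only [Subgroup.coe_mul, Subgroup.coe_pow, Units.val_mul, Units.val_pow_eq_pow_val,
          hXu, hRu, huq, hRq, hZ]
        rw [← mul_assoc, ← map_mul, mul_inv_cancel, map_one, one_mul]
      have huqm : uq ^ m = u ^ (q : ℤ) := by
        have h1 : kq ^ m = k ^ (q:ℤ) := by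
          apply Subtype.ext
          rw [Subgroup.coe_zpow, Subgroup.coe_zpow, hkq, hkm, ← zpow_natCast, ← zpow_mul,
            ← zpow_mul, mul_comm]
        -- transfer to units via the homomorphism into units
        let ρu : K →* (EE V)ˣ := ρ.toHomUnits
        have e1 : ((uq : U Φ) : (EE V)ˣ) = ρu kq := Units.ext huq
        have e2 : ((u : U Φ) : (EE V)ˣ) = ρu k := Units.ext hu
        apply Subtype.ext
        rw [Subgroup.coe_zpow, Subgroup.coe_zpow, e1, e2, ← map_zpow, ← map_zpow, h1]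
      have hcomm : Commute ((Xu * Ru⁻¹) ^ m) u := by
        have h1 := conj_zpow x ρ (Xu * Ru⁻¹) hYρ m k
        have h2 : MulAut.conjNormal (x ^ m) k = k := by
          apply Subtype.ext
          rw [MulAut.conjNormal_apply, hkm]; group
        rw [h2] at h1
        apply Subtype.ext
        apply Units.ext
        rw [Subgroup.coe_mul, Subgroup.coe_mul, Units.val_mul, Units.val_mul, hu]
        exact h1
      have hpq : ((Xu * Ru⁻¹) ^ m * u⁻¹) ^ q = 1 := by
        rw [(hcomm.inv_right).mul_pow, inv_pow, mul_inv_eq_one, ← zpow_natCast, ← zpow_natCast,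
          ← zpow_mul, mul_comm m, zpow_mul, zpow_natCast, hYq', huqm]
      have h1 : (Xu * Ru⁻¹) ^ m * u⁻¹ = 1 := by
        by_contra hne
        exact U_torsionFree Φ _ hne q hq hpq
      rw [mul_inv_eq_one] at h1
      rw [h1, hu])
    refine ⟨V, inferInstance, inferInstance, Φ, ρ', hρ', fun h => hρw ?_⟩
    have h2 := hρ'2 (w ^ q) ⟨(w : H) ^ q, hwq⟩ 0 (by simp)
    rw [map_pow, h, one_pow] at h2
    simpa using h2.symm
  · -- infinite cyclic quotient
    push Not at hA
    have hAz : ∀ m : ℤ, x ^ m ∈ K → m = 0 := by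
      intro m hm
      by_contra hne
      rcases Int.eq_nat_or_neg m with ⟨n, rfl | rfl⟩
      · apply hA n (by omega)
        simpa using hm
      · apply hA n (by omega)
        have := K.inv_mem hm
        simpa using this
    by_cases hm0 : m0 = 0
    · subst hm0
      have hk0 : k0 ≠ 1 := by
        intro h; apply hw'; rw [hkm, h]; simp
      obtain ⟨V, _, _, Φ, ρ, X, hρ, hX, hXρ, hρw⟩ := hcore k0 hk0
      obtain ⟨Xu, hXu⟩ := exists_unit hX
      obtain ⟨ρ', hρ', hρ'2⟩ := builder x hK' ρ hρ Xu (by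
        intro k; rw [hXu]; exact hXρ k) (by
        intro k m hkm
        have hm : m = 0 := hAz m (by rw [← hkm]; exact k.2)
        subst hm
        have : k = 1 := Subtype.ext (by simpa using hkm)
        rw [this]; simp)
      refine ⟨V, inferInstance, inferInstance, Φ, ρ', hρ', fun h => hρw ?_⟩
      have h2 := hρ'2 w k0 0 hkm
      rw [h] at h2
      simpa using h2.symm
    · -- use a 2-dimensional representation
      let Φ : Filt (ℚ × ℚ) :=
        { F := fun j => if j = 0 then ⊥ else if j = 1 then LinearMap.range (LinearMap.inl ℚ ℚ ℚ)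
            else ⊤
          mono := by
            apply monotone_nat_of_le_succ
            intro n
            rcases n with _ | _ | n <;> simp
          zero := by simp
          L := 2
          top := by simp }
      let X : Module.End ℚ (ℚ × ℚ) := 1 + (LinearMap.inl ℚ ℚ ℚ).comp (LinearMap.snd ℚ ℚ ℚ)
      have hX : Low Φ 1 (X - 1) := by
        intro s v hv
        have e : (X - 1) v = (v.2, 0) := by simp [X]
        rw [e]
        rcases s with _ | _ | s
        · have h1 : v ∈ LinearMap.range (LinearMap.inl ℚ ℚ ℚ) := by simpa [Φ] using hv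
          obtain ⟨y, rfl⟩ := h1
          simp [Φ]
        · simp [Φ]
        · simp [Φ]
      obtain ⟨Xu, hXu⟩ := exists_unit hX
      obtain ⟨ρ', hρ', hρ'2⟩ := builder (Φ := Φ) x hK' (1 : K →* Module.End ℚ (ℚ × ℚ))
        (fun k => by simpa using Low.zero (Φ := Φ) 1) Xu (by intro k; simp) (by
        intro k m hkm
        have hm : m = 0 := hAz m (by rw [← hkm]; exact k.2)
        subst hm
        simp)
      refine ⟨ℚ × ℚ, inferInstance, inferInstance, Φ, ρ', hρ', fun h => ?_⟩
      have h2 := hρ'2 w k0 m0 hkm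
      rw [h] at h2
      have hXne : Xu ≠ 1 := by
        intro h3
        rw [h3] at hXu
        have : X (0, 1) = (0, 1) := by rw [← hXu]; simp
        simp [X] at this
      have h3 : Xu ^ m0 = 1 := by
        apply Subtype.ext
        apply Units.ext
        simpa using h2.symm
      rcases Int.eq_nat_or_neg m0 with ⟨n, hn | hn⟩
      · refine U_torsionFree Φ Xu hXne n (by omega) ?_
        rw [hn] at h3; simpa using h3
      · refine U_torsionFree Φ Xu hXne n (by omega) ?_
        rw [hn] at h3; simpa using h3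

end Pool.Agent.H17.Uni
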