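import Pool.Agent.H17.Uni3

set_option autoImplicit false

namespace Pool.Agent.H17.Uni

open scoped commutatorElement

variable {H : Type} [Group H]

abbrev LCS (H : Type) [Group H] (j : ℕ) : Subgroup H := (⊤ : Subgroup H).lowerCentralSeries j

theorem comm_mem {j : ℕ} {p : H} (hp : p ∈ LCS H j) (q : H) : ⁅p, q⁆ ∈ LCS H (j + 1) := by
  rw [LCS, Subgroup.lowerCentralSeries_succ]
  exact Subgroup.commutator_mem_commutator hp (Subgroup.mem_top q)

theorem normal_between {M : Subgroup H} {j : ℕ} (h1 : LCS H (j + 1) ≤ M) (h2 : M ≤ LCS H j) :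
    M.Normal := by
  constructor
  intro m hm g
  have h3 := h1 (comm_mem (h2 hm) g)
  have h4 := M.mul_mem (M.inv_mem h3) hm
  have e : ⁅m, g⁆⁻¹ * m = g * m * g⁻¹ := by
    rw [commutatorElement_def]; group
  rwa [e] at h4

theorem lcs_gen (S : Set H) (hS : S.Finite) (hgen : Subgroup.closure S = ⊤) (j : ℕ) :
    ∃ C : Set H, C.Finite ∧ C ⊆ LCS H j ∧ LCS H j ≤ Subgroup.closure C ⊔ LCS H (j + 1) := by
  induction j with
  | zero =>
    refine ⟨S, hS, fun _ _ => ?_, ?_⟩
    · simp [LCS]
    · rw [hgen]; simp
  | succ j ih =>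
    obtain ⟨C, hC, hCs, hCg⟩ := ih
    refine ⟨Set.image2 (fun u s => ⁅u, s⁆) C S, hC.image2 _ hS, ?_, ?_⟩
    · rintro _ ⟨u, hu, s, _, rfl⟩
      exact comm_mem (hCs hu) s
    · obtain ⟨M, hM⟩ : ∃ M : Subgroup H, M = Subgroup.closure
        (Set.image2 (fun u s => ⁅u, s⁆) C S) ⊔ LCS H (j + 1 + 1) := ⟨_, rfl⟩
      rw [← hM]
      have hM1 : LCS H (j + 1 + 1) ≤ M := by rw [hM]; exact le_sup_right
      have hM2 : M ≤ LCS H (j + 1) := by
        rw [hM]
        apply sup_le
        · rw [Subgroup.closure_le]
          rintro _ ⟨u, hu, s, _, rfl⟩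
          exact comm_mem (hCs hu) s
        · exact Subgroup.lowerCentralSeries_antitone _ (Nat.le_succ _)
      have hMn : M.Normal := normal_between hM1 hM2
      -- commutators with elements of C
      have h1 : ∀ u ∈ C, ∀ q : H, ⁅u, q⁆ ∈ M := by
        intro u hu q
        have hq : q ∈ Subgroup.closure S := by rw [hgen]; trivial
        induction hq using Subgroup.closure_induction with
        | mem s hs =>
          rw [hM]
          exact Subgroup.mem_sup_left (Subgroup.subset_closure ⟨u, hu, s, hs, rfl⟩)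
        | one => simp
        | mul q q' _ _ h h' =>
          have e : ⁅u, q * q'⁆ = ⁅u, q⁆ * (q * ⁅u, q'⁆ * q⁻¹) := by
            simp only [commutatorElement_def]; group
          rw [e]
          exact M.mul_mem h (hMn.conj_mem _ h' q)
        | inv q _ h =>
          have e : ⁅u, q⁻¹⁆ = q⁻¹ * ⁅u, q⁆⁻¹ * q⁻¹⁻¹ := by
            simp only [commutatorElement_def]; group
          rw [e]
          exact hMn.conj_mem _ (M.inv_mem h) q⁻¹
      -- the subgroup of elements central modulo M
      let T : Subgroup H :=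
        { carrier := {p | ∀ q, ⁅p, q⁆ ∈ M}
          one_mem' := fun q => by simp
          mul_mem' := by
            intro p p' hp hp' q
            have e : ⁅p * p', q⁆ = (p * ⁅p', q⁆ * p⁻¹) * ⁅p, q⁆ := by
              simp only [commutatorElement_def]; group
            rw [e]
            exact M.mul_mem (hMn.conj_mem _ (hp' q) p) (hp q)
          inv_mem' := by
            intro p hp q
            have e : ⁅p⁻¹, q⁆ = p⁻¹ * ⁅p, q⁆⁻¹ * p⁻¹⁻¹ := by
              simp only [commutatorElement_def]; group
            rw [e]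
            exact hMn.conj_mem _ (M.inv_mem (hp q)) p⁻¹ }
      have hT : LCS H j ≤ T := by
        refine hCg.trans (sup_le ?_ ?_)
        · rw [Subgroup.closure_le]
          intro u hu q
          exact h1 u hu q
        · intro p hp q
          exact hM1 (comm_mem hp q)
      have : LCS H (j + 1) = ⁅LCS H j, (⊤ : Subgroup H)⁆ := Subgroup.lowerCentralSeries_succ _ _
      rw [this, Subgroup.commutator_le]
      intro p hp q _
      exact hT hp q

theorem US_chain (htf : ∀ g : H, g ≠ 1 → ∀ n : ℕ, 0 < n → g ^ n ≠ 1)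
    {c : ℕ} (hc : LCS H c = ⊥) {j : ℕ} (hU : US (LCS H (j + 1))) (C : Finset H)
    (hC : (C : Set H) ⊆ LCS H j) : US (Subgroup.closure (C : Set H) ⊔ LCS H (j + 1)) := by
  classical
  induction C using Finset.induction_on with
  | empty => simpa using hU
  | insert x C _ ih =>
    have hC' : (C : Set H) ⊆ LCS H j := fun y hy => hC (by simp [Finset.mem_coe.1 hy])
    have hx : x ∈ LCS H j := hC (by simp)
    have ih' := ih hC'
    have hle1 : LCS H (j + 1) ≤ Subgroup.closure (C : Set H) ⊔ LCS H (j + 1) := le_sup_right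
    have hle2 : Subgroup.closure (C : Set H) ⊔ LCS H (j + 1) ≤ LCS H j :=
      sup_le ((Subgroup.closure_le _).2 hC')
        (Subgroup.lowerCentralSeries_antitone _ (Nat.le_succ _))
    have : (Subgroup.closure (C : Set H) ⊔ LCS H (j + 1)).Normal := normal_between hle1 hle2
    refine step (K := Subgroup.closure (C : Set H) ⊔ LCS H (j + 1)) ?_ x ?_ ?_ htf hc ih'
    · apply sup_le_sup_right
      apply Subgroup.closure_mono
      intro y hy; simp [Finset.mem_coe.1 hy]
    · exact Subgroup.mem_sup_left (Subgroup.subset_closure (by simp))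
    · intro h hh
      have h1 : Subgroup.closure (((insert x C : Finset H)) : Set H) ⊔ LCS H (j + 1) ≤
          (Subgroup.closure (C : Set H) ⊔ LCS H (j + 1)) ⊔ Subgroup.zpowers x := by
        apply sup_le
        · rw [Subgroup.closure_le]
          intro y hy
          rw [Finset.coe_insert, Set.mem_insert_iff] at hy
          rcases hy with rfl | hy
          · exact Subgroup.mem_sup_right (Subgroup.mem_zpowers _)
          · exact Subgroup.mem_sup_left (Subgroup.mem_sup_left (Subgroup.subset_closure hy))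
        · exact hle1.trans le_sup_left
      have h2 := h1 hh
      rw [Subgroup.mem_sup_of_normal_left] at h2
      obtain ⟨y, hy, z, hz, e⟩ := h2
      obtain ⟨m, rfl⟩ := Subgroup.mem_zpowers_iff.1 hz
      exact ⟨⟨y, hy⟩, m, e.symm⟩

theorem urep_of_fg (S : Set H) (hS : S.Finite) (hgen : Subgroup.closure S = ⊤)
    (hnil : Group.IsNilpotent H) (htf : ∀ g : H, g ≠ 1 → ∀ n : ℕ, 0 < n → g ^ n ≠ 1)
    (w : H) (hw : w ≠ 1) : URep H w := by
  classical
  obtain ⟨c, hc⟩ := Subgroup.nilpotent_iff_lowerCentralSeries.1 hnil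
  have hall : ∀ i, i ≤ c → US (LCS H (c - i)) := by
    intro i
    induction i with
    | zero =>
      intro _
      rw [Nat.sub_zero]
      intro w hw
      exfalso
      apply hw
      apply Subtype.ext
      have hc' : LCS H c = ⊥ := hc
      have h1 : (w : H) ∈ (⊥ : Subgroup H) := by rw [← hc']; exact w.2
      exact Subgroup.mem_bot.1 h1
    | succ i ih =>
      intro hi
      have h1 := ih (by omega)
      have e : c - i = (c - (i + 1)) + 1 := by omega
      rw [e] at h1
      obtain ⟨C, hCf, hCs, hCg⟩ := lcs_gen S hS hgen (c - (i + 1))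
      have h2 := US_chain htf hc h1 hCf.toFinset (by simpa using hCs)
      rw [Set.Finite.coe_toFinset] at h2
      have e2 : Subgroup.closure C ⊔ LCS H (c - (i + 1) + 1) = LCS H (c - (i + 1)) := by
        apply le_antisymm _ hCg
        exact sup_le ((Subgroup.closure_le _).2 hCs)
          (Subgroup.lowerCentralSeries_antitone _ (Nat.le_succ _))
      rwa [e2] at h2
  have h0 := hall c le_rfl
  rw [Nat.sub_self] at h0
  have h1 := h0 ⟨w, by simp [LCS]⟩ (fun h => hw (congrArg Subtype.val h))
  obtain ⟨V, _, _, Φ, ρ, hρ, hρw⟩ := h1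
  let e : H →* LCS H 0 :=
    { toFun := fun h => ⟨h, by simp [LCS]⟩
      map_one' := rfl
      map_mul' := fun _ _ => rfl }
  exact ⟨V, inferInstance, inferInstance, Φ, ρ.comp e, fun k => hρ _, hρw⟩

end Pool.Agent.H17.Uni
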