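import Pool.Agent.H17.Uni4

set_option autoImplicit false

namespace Pool.Agent.H17.Uni

open Polynomial in
noncomputable def PN (N : ℕ) : Polynomial ℚ :=
  ∏ k ∈ Finset.Icc 1 (2 * N), (1 - C ((1:ℚ) / (k:ℚ) ^ 2) * X ^ 2)

noncomputable def pN (N : ℕ) (x : ℤ) : ℚ := (PN N).eval (x : ℚ)

noncomputable def mN (N : ℕ) : ℕ := (PN N).natDegree + 1

theorem pN_zero (N : ℕ) : pN N 0 = 1 := by
  unfold pN PN
  rw [Polynomial.eval_prod]
  apply Finset.prod_eq_one
  intro k _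
  simp

theorem pN_ne (N : ℕ) (x : ℤ) (h0 : x ≠ 0) (h : |x| ≤ 2 * N) : pN N x = 0 := by
  unfold pN PN
  rw [Polynomial.eval_prod]
  have h1 : 0 < |x| := abs_pos.2 h0
  apply Finset.prod_eq_zero (i := x.natAbs)
  · rw [Finset.mem_Icc]
    have h5 : (x.natAbs : ℤ) = |x| := Int.natCast_natAbs x
    omega
  · simp only [Polynomial.eval_sub, Polynomial.eval_one, Polynomial.eval_mul, Polynomial.eval_C,
      Polynomial.eval_pow, Polynomial.eval_X]
    have h2 : ((x.natAbs : ℕ) : ℚ) ^ 2 = (x:ℚ) ^ 2 := by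
      rw [← Int.cast_natCast, Int.natCast_natAbs, Int.cast_abs, sq_abs]
    rw [h2]
    have h3 : (x:ℚ) ≠ 0 := by exact_mod_cast h0
    rw [one_div, inv_mul_cancel₀ (pow_ne_zero 2 h3), sub_self]

section

variable {V : Type} [AddCommGroup V] [Module ℚ V]

/-- difference operator -/
def Df (V : Type) [AddCommGroup V] [Module ℚ V] : Module.End ℚ (ℤ → V) :=
  LinearMap.funLeft ℚ V (fun x => x + 1) - 1

theorem Df_apply (u : ℤ → V) (x : ℤ) : Df V u x = u (x + 1) - u x := rfl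

theorem Df_pow_smul (m : ℕ) (p : ℤ → ℚ) (i : ℤ) (v : V) :
    (Df V ^ m) (fun x => p (x - i) • v) = fun x => ((Df ℚ ^ m) p (x - i)) • v := by
  induction m generalizing p with
  | zero => rfl
  | succ m ih =>
    rw [pow_succ, pow_succ, Module.End.mul_apply, Module.End.mul_apply]
    have e : Df V (fun x => p (x - i) • v) = fun x => (Df ℚ p) (x - i) • v := by
      ext x
      simp only [Df_apply]
      rw [sub_smul]
      congr 3
      ring
    rw [e, ih]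

theorem Df_pow_cast (m : ℕ) (g : ℚ → ℚ) :
    (Df ℚ ^ m) (fun x : ℤ => g (x : ℚ)) = fun x : ℤ => ((fwdDiff (1:ℚ))^[m] g) (x : ℚ) := by
  induction m generalizing g with
  | zero => rfl
  | succ m ih =>
    rw [pow_succ, Module.End.mul_apply, Function.iterate_succ_apply]
    have e : Df ℚ (fun x : ℤ => g (x:ℚ)) = fun x : ℤ => (fwdDiff (1:ℚ) g) (x : ℚ) := by
      ext x
      simp only [Df_apply, fwdDiff]
      push_cast
      rfl
    rw [e, ih]

theorem Df_pN (N : ℕ) : (Df ℚ ^ mN N) (pN N) = 0 := by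
  have h := Df_pow_cast (mN N) (fun r => (PN N).eval r)
  have h2 := Polynomial.fwdDiff_iter_degree_add_one_eq_zero (PN N)
  have e : (fun x : ℤ => (PN N).eval (x : ℚ)) = pN N := rfl
  rw [e] at h
  rw [h]
  ext x
  have := congrFun h2 (x:ℚ)
  exact this

/-- the module of polynomial sequences -/
noncomputable def MM (V : Type) [AddCommGroup V] [Module ℚ V] (N : ℕ) : Submodule ℚ (ℤ → V) :=
  LinearMap.ker (Df V ^ mN N)

theorem mem_MM {N : ℕ} {u : ℤ → V} : u ∈ MM V N ↔ (Df V ^ mN N) u = 0 := Iff.rfl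

theorem bump_mem (N : ℕ) (i : ℤ) (v : V) : (fun x => pN N (x - i) • v) ∈ MM V N := by
  rw [mem_MM, Df_pow_smul, Df_pN]
  ext x
  simp

def QQ (Φ : Filt V) (a d : ℕ) : Submodule ℚ (ℤ → V) where
  carrier := {u | (∀ x, u x ∈ Φ.F (a + 1)) ∧ ∀ x, (Df V ^ d) u x ∈ Φ.F a}
  zero_mem' := ⟨fun _ => Submodule.zero_mem _, fun _ => by
    rw [map_zero]; exact Submodule.zero_mem _⟩
  add_mem' := by
    rintro u u' ⟨h1, h2⟩ ⟨h3, h4⟩
    exact ⟨fun x => Submodule.add_mem _ (h1 x) (h3 x), fun x => by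
      rw [map_add]; exact Submodule.add_mem _ (h2 x) (h4 x)⟩
  smul_mem' := by
    rintro c u ⟨h1, h2⟩
    exact ⟨fun x => Submodule.smul_mem _ c (h1 x), fun x => by
      rw [map_smul]; exact Submodule.smul_mem _ c (h2 x)⟩

variable {Φ : Filt V}

theorem QQ_le (a d : ℕ) : QQ Φ a d ≤ QQ Φ a (d + 1) := by
  rintro u ⟨h1, h2⟩
  refine ⟨h1, fun x => ?_⟩
  rw [pow_succ', Module.End.mul_apply, Df_apply]
  exact Submodule.sub_mem _ (h2 _) (h2 _)

theorem QQ_mono (a : ℕ) : Monotone (QQ Φ a) := monotone_nat_of_le_succ (QQ_le a)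

theorem QQ_valued {a : ℕ} {u : ℤ → V} (h : ∀ x, u x ∈ Φ.F a) (d : ℕ) : u ∈ QQ Φ a d := by
  apply QQ_mono a (Nat.zero_le d)
  exact ⟨fun x => Φ.mono (Nat.le_succ a) (h x), h⟩

theorem QQ_top_inf (N a : ℕ) : QQ Φ a (mN N) ⊓ MM V N = QQ Φ (a + 1) 0 ⊓ MM V N := by
  ext u
  constructor
  · rintro ⟨⟨h1, _⟩, h3⟩
    exact ⟨QQ_valued h1 0, h3⟩
  · rintro ⟨⟨_, h2⟩, h3⟩
    refine ⟨⟨h2, fun x => ?_⟩, h3⟩
    have : (Df V ^ mN N) u = 0 := h3
    rw [this]
    exact Submodule.zero_mem _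

/-- the filtration of the module of polynomial sequences -/
noncomputable def FF (Φ : Filt V) (N s : ℕ) : Submodule ℚ (ℤ → V) :=
  QQ Φ (s / mN N) (s % mN N) ⊓ MM V N

theorem mN_pos (N : ℕ) : 0 < mN N := Nat.succ_pos _

theorem FF_succ (N s : ℕ) : FF Φ N (s + 1) = QQ Φ (s / mN N) (s % mN N + 1) ⊓ MM V N := by
  unfold FF
  have hm := mN_pos N
  have h1 := Nat.div_add_mod s (mN N)
  have h2 := Nat.mod_lt s hm
  rcases Nat.lt_or_ge (s % mN N + 1) (mN N) with h | h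
  · have e1 : (s + 1) / mN N = s / mN N := by
      apply Nat.div_eq_of_lt_le
      · rw [mul_comm]; omega
      · rw [add_mul, one_mul, mul_comm]; omega
    have e2 : (s + 1) % mN N = s % mN N + 1 := by
      have h3 := Nat.div_add_mod (s + 1) (mN N)
      rw [e1] at h3; omega
    rw [e1, e2]
  · have h' : s % mN N + 1 = mN N := by omega
    have e1 : (s + 1) / mN N = s / mN N + 1 := by
      apply Nat.div_eq_of_lt_le
      · rw [add_mul, one_mul, mul_comm]; omega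
      · rw [add_mul, add_mul, one_mul, mul_comm]; omega
    have e2 : (s + 1) % mN N = 0 := by
      have h3 := Nat.div_add_mod (s + 1) (mN N)
      rw [e1, mul_add, mul_one] at h3; omega
    rw [e1, e2, h', QQ_top_inf]

theorem FF_mono (N : ℕ) : Monotone (FF Φ N) := by
  apply monotone_nat_of_le_succ
  intro s
  rw [FF_succ]
  exact inf_le_inf_right _ (QQ_le _ _)

noncomputable def FN (Φ : Filt V) (N : ℕ) : Filt (MM V N) where
  F := fun s => (FF Φ N s).comap (MM V N).subtype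
  mono := fun _ _ h => Submodule.comap_mono (FF_mono N h)
  zero := by
    rw [eq_bot_iff]
    intro u hu
    have h1 : (u : ℤ → V) ∈ FF Φ N 0 := hu
    unfold FF at h1
    rw [Nat.zero_div, Nat.zero_mod] at h1
    rw [Submodule.mem_bot]
    apply Subtype.ext
    ext x
    have h2 := h1.1.2 x
    rw [Φ.zero] at h2
    simpa using h2
  L := Φ.L * mN N
  top := by
    rw [eq_top_iff]
    intro u _
    show (u : ℤ → V) ∈ FF Φ N (Φ.L * mN N)
    unfold FF
    rw [Nat.mul_div_cancel _ (mN_pos N), Nat.mul_mod_left]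
    refine ⟨QQ_valued (fun x => ?_) 0, u.2⟩
    rw [Φ.top]; trivial

theorem Df_comm_shift (N : ℕ) {u : ℤ → V} (hu : u ∈ MM V N) (k : ℤ) :
    (fun x => u (x + k)) ∈ MM V N := by
  rw [mem_MM] at hu ⊢
  have h : ∀ m (u : ℤ → V), (Df V ^ m) (fun x => u (x + k)) = fun x => (Df V ^ m) u (x + k) := by
    intro m
    induction m with
    | zero => intro u; rfl
    | succ m ih =>
      intro u
      rw [pow_succ, Module.End.mul_apply, Module.End.mul_apply]
      have e : Df V (fun x => u (x + k)) = fun x => (Df V u) (x + k) := by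
        ext x
        simp only [Df_apply]
        congr 2
        ring
      rw [e, ih]
  rw [h, hu]
  rfl

/-- the shift -/
noncomputable def Tm (V : Type) [AddCommGroup V] [Module ℚ V] (N : ℕ) : Module.End ℚ (MM V N) where
  toFun u := ⟨fun x => u.1 (x + 1), Df_comm_shift N u.2 1⟩
  map_add' _ _ := rfl
  map_smul' _ _ := rfl

theorem Tm_low (N : ℕ) : Low (FN Φ N) 1 (Tm V N - 1) := by
  intro s u hu
  have h1 : (u : ℤ → V) ∈ FF Φ N (s + 1) := hu
  rw [FF_succ] at h1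
  obtain ⟨⟨h2, h3⟩, h4⟩ := h1
  show ((Tm V N - 1) u : ℤ → V) ∈ FF Φ N s
  have e : (((Tm V N - 1) u : MM V N) : ℤ → V) = Df V u := rfl
  refine ⟨⟨fun x => ?_, fun x => ?_⟩, ((Tm V N - 1) u).2⟩
  · rw [e, Df_apply]
    exact Submodule.sub_mem _ (h2 _) (h2 _)
  · rw [e, ← Module.End.mul_apply, ← pow_succ]
    exact h3 x

variable {H : Type} [Group H]

/-- the base group action -/
noncomputable def Bm (ρ : H →* Module.End ℚ V) (N : ℕ) (a : ℤ → H) : Module.End ℚ (MM V N) where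
  toFun u := ⟨fun x => u.1 x + ∑ i ∈ Finset.Icc (-(N:ℤ)) N, pN N (x - i) • (ρ (a i) (u.1 i) - u.1 i),
    by
      have h1 : (fun x => u.1 x + ∑ i ∈ Finset.Icc (-(N:ℤ)) N,
          pN N (x - i) • (ρ (a i) (u.1 i) - u.1 i)) = u.1 + ∑ i ∈ Finset.Icc (-(N:ℤ)) N,
          (fun x => pN N (x - i) • (ρ (a i) (u.1 i) - u.1 i)) := by
        ext x
        simp
      rw [h1]
      exact Submodule.add_mem _ u.2 (Submodule.sum_mem _ fun i _ => bump_mem N i _)⟩
  map_add' u u' := by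
    apply Subtype.ext
    ext x
    simp only [Submodule.coe_add, Pi.add_apply, map_add]
    rw [add_add_add_comm, ← Finset.sum_add_distrib]
    congr 1
    apply Finset.sum_congr rfl
    intro i _
    rw [← smul_add]
    congr 1
    abel
  map_smul' c u := by
    apply Subtype.ext
    ext x
    simp only [Submodule.coe_smul, Pi.smul_apply, map_smul, RingHom.id_apply, smul_add,
      Finset.smul_sum]
    congr 1
    apply Finset.sum_congr rfl
    intro i _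
    rw [← smul_sub, smul_comm]

theorem Bm_apply (ρ : H →* Module.End ℚ V) (N : ℕ) (a : ℤ → H) (u : MM V N) (x : ℤ) :
    (Bm ρ N a u : ℤ → V) x = u.1 x +
      ∑ i ∈ Finset.Icc (-(N:ℤ)) N, pN N (x - i) • (ρ (a i) (u.1 i) - u.1 i) := rfl

theorem sum_window (N : ℕ) (g : ℤ → V) {j : ℤ} (hj : j ∈ Finset.Icc (-(N:ℤ)) N) :
    ∑ i ∈ Finset.Icc (-(N:ℤ)) N, pN N (j - i) • g i = g j := by
  rw [Finset.sum_eq_single j]
  · rw [sub_self, pN_zero, one_smul]
  · intro i hi hne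
    rw [Finset.mem_Icc] at hi hj
    rw [pN_ne N (j - i) (sub_ne_zero.2 (Ne.symm hne)) (by rw [abs_le]; constructor <;> linarith),
      zero_smul]
  · intro h; exact absurd hj h

theorem Bm_apply_window (ρ : H →* Module.End ℚ V) (N : ℕ) (a : ℤ → H) (u : MM V N) {j : ℤ}
    (hj : j ∈ Finset.Icc (-(N:ℤ)) N) : (Bm ρ N a u : ℤ → V) j = ρ (a j) (u.1 j) := by
  rw [Bm_apply, sum_window N (fun i => ρ (a i) (u.1 i) - u.1 i) hj]
  abel

theorem Bm_mul (ρ : H →* Module.End ℚ V) (N : ℕ) (a b : ℤ → H) :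
    Bm ρ N (a * b) = Bm ρ N a * Bm ρ N b := by
  ext u x
  rw [Module.End.mul_apply, Bm_apply, Bm_apply, Bm_apply, add_assoc, ← Finset.sum_add_distrib]
  congr 1
  apply Finset.sum_congr rfl
  intro i hi
  rw [Bm_apply_window ρ N b u hi, ← smul_add, Pi.mul_apply, map_mul, Module.End.mul_apply]
  congr 1
  abel

theorem Bm_one (ρ : H →* Module.End ℚ V) (N : ℕ) : Bm ρ N 1 = 1 := by
  ext u x
  rw [Bm_apply]
  simp

theorem Bm_low (ρ : H →* Module.End ℚ V) (hρ : ∀ h, Low Φ 1 (ρ h - 1)) (N : ℕ) (a : ℤ → H) :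
    Low (FN Φ N) 1 (Bm ρ N a - 1) := by
  intro s u hu
  have h1 : (u : ℤ → V) ∈ FF Φ N (s + 1) := hu
  rw [FF_succ] at h1
  obtain ⟨⟨h2, h3⟩, h4⟩ := h1
  show (((Bm ρ N a - 1) u : MM V N) : ℤ → V) ∈ FF Φ N s
  refine ⟨QQ_valued (fun x => ?_) _, ((Bm ρ N a - 1) u).2⟩
  have e : (((Bm ρ N a - 1) u : MM V N) : ℤ → V) x =
      ∑ i ∈ Finset.Icc (-(N:ℤ)) N, pN N (x - i) • (ρ (a i) (u.1 i) - u.1 i) := by
    show (Bm ρ N a u : ℤ → V) x - u.1 x = _
    rw [Bm_apply]; abel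
  rw [e]
  apply Submodule.sum_mem
  intro i _
  apply Submodule.smul_mem
  exact hρ (a i) _ (u.1 i) (h2 i)

/-- units -/
noncomputable def Tu (Φ : Filt V) (N : ℕ) : U (FN Φ N) := (exists_unit (Tm_low (Φ := Φ) N)).choose

theorem Tu_val (N : ℕ) : (((Tu Φ N : U (FN Φ N)) : (Module.End ℚ (MM V N))ˣ) :
    Module.End ℚ (MM V N)) = Tm V N := (exists_unit (Tm_low (Φ := Φ) N)).choose_spec

theorem Tu_pow (N : ℕ) (k : ℕ) (u : MM V N) (x : ℤ) :
    (((((Tu Φ N ^ k : U (FN Φ N)) : (Module.End ℚ (MM V N))ˣ) :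
      Module.End ℚ (MM V N)) u : MM V N) : ℤ → V) x = u.1 (x + k) := by
  induction k generalizing u x with
  | zero => simp
  | succ k ih =>
    rw [pow_succ, Subgroup.coe_mul, Units.val_mul, Module.End.mul_apply, ih, Tu_val]
    show u.1 (x + k + 1) = _
    push_cast
    rw [add_assoc]

theorem Tu_zpow (N : ℕ) (k : ℤ) (u : MM V N) (x : ℤ) :
    (((((Tu Φ N ^ k : U (FN Φ N)) : (Module.End ℚ (MM V N))ˣ) :
      Module.End ℚ (MM V N)) u : MM V N) : ℤ → V) x = u.1 (x + k) := by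
  rcases Int.eq_nat_or_neg k with ⟨n, rfl | rfl⟩
  · simpa using Tu_pow N n u x
  · obtain ⟨u', hu'⟩ : ∃ u' : MM V N, u' = ((((Tu Φ N ^ (-(n:ℤ)) : U (FN Φ N)) :
      (Module.End ℚ (MM V N))ˣ) : Module.End ℚ (MM V N)) u : MM V N) := ⟨_, rfl⟩
    rw [← hu']
    have h1 : ((((Tu Φ N ^ n : U (FN Φ N)) : (Module.End ℚ (MM V N))ˣ) :
      Module.End ℚ (MM V N)) u' : MM V N) = u := by
      rw [hu', ← Module.End.mul_apply, ← Units.val_mul, ← Subgroup.coe_mul]
      simp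
    have h2 := Tu_pow (Φ := Φ) N n u' (x + -(n:ℤ))
    rw [h1] at h2
    rw [h2]
    congr 1
    ring

noncomputable def Bu (ρ : H →* Module.End ℚ V) (hρ : ∀ h, Low Φ 1 (ρ h - 1)) (N : ℕ) (a : ℤ → H) :
    U (FN Φ N) := (exists_unit (Bm_low ρ hρ N a)).choose

theorem Bu_val (ρ : H →* Module.End ℚ V) (hρ : ∀ h, Low Φ 1 (ρ h - 1)) (N : ℕ) (a : ℤ → H) :
    (((Bu ρ hρ N a : U (FN Φ N)) : (Module.End ℚ (MM V N))ˣ) : Module.End ℚ (MM V N)) =
      Bm ρ N a := (exists_unit (Bm_low ρ hρ N a)).choose_spec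

theorem Bu_mul (ρ : H →* Module.End ℚ V) (hρ : ∀ h, Low Φ 1 (ρ h - 1)) (N : ℕ) (a b : ℤ → H) :
    Bu ρ hρ N (a * b) = Bu ρ hρ N a * Bu ρ hρ N b := by
  apply Subtype.ext
  apply Units.ext
  rw [Subgroup.coe_mul, Units.val_mul, Bu_val, Bu_val, Bu_val, Bm_mul]

/-- conjugation by the shift -/
theorem Tu_Bu (ρ : H →* Module.End ℚ V) (hρ : ∀ h, Low Φ 1 (ρ h - 1)) (N : ℕ) (k : ℤ) (b : ℤ → H)
    (hb : ∀ i, b i ≠ 1 → i ∈ Finset.Icc (-(N:ℤ)) N ∧ i - k ∈ Finset.Icc (-(N:ℤ)) N) :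
    Tu Φ N ^ k * Bu ρ hρ N b = Bu ρ hρ N (fun i => b (i + k)) * Tu Φ N ^ k := by
  apply Subtype.ext
  apply Units.ext
  rw [Subgroup.coe_mul, Subgroup.coe_mul, Units.val_mul, Units.val_mul, Bu_val, Bu_val]
  ext u x
  rw [Module.End.mul_apply, Module.End.mul_apply, Tu_zpow, Bm_apply, Bm_apply, Tu_zpow]
  congr 1
  have e : ∀ i, pN N (x - i) • (ρ (b (i + k)) ((((((Tu Φ N ^ k : U (FN Φ N)) :
      (Module.End ℚ (MM V N))ˣ) : Module.End ℚ (MM V N)) u : MM V N) : ℤ → V) i) -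
      (((((Tu Φ N ^ k : U (FN Φ N)) :
      (Module.End ℚ (MM V N))ˣ) : Module.End ℚ (MM V N)) u : MM V N) : ℤ → V) i) =
      (fun j => pN N (x + k - j) • (ρ (b j) (u.1 j) - u.1 j)) (i + k) := by
    intro i
    rw [Tu_zpow]
    simp only []
    congr 2
    ring
  rw [Finset.sum_congr rfl (fun i _ => e i)]
  -- both sums are over the support of b
  have h1 : ∑ i ∈ Finset.Icc (-(N:ℤ)) N, (fun j => pN N (x + k - j) • (ρ (b j) (u.1 j) - u.1 j))
      (i + k) = ∑ j ∈ (Finset.Icc (-(N:ℤ)) N).image (fun i => i + k),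
        (fun j => pN N (x + k - j) • (ρ (b j) (u.1 j) - u.1 j)) j := by
    rw [Finset.sum_image]
    intro a _ b _ h
    exact add_right_cancel h
  rw [h1]
  have hz : ∀ j, b j = 1 → pN N (x + k - j) • (ρ (b j) (u.1 j) - u.1 j) = 0 := by
    intro j hj
    rw [hj]; simp
  have h2 : ∑ j ∈ Finset.Icc (-(N:ℤ)) N, pN N (x + k - j) • (ρ (b j) (u.1 j) - u.1 j) =
      ∑ j ∈ Finset.Icc (-(N:ℤ)) N ∩ (Finset.Icc (-(N:ℤ)) N).image (fun i => i + k),
        pN N (x + k - j) • (ρ (b j) (u.1 j) - u.1 j) := by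
    symm
    apply Finset.sum_subset Finset.inter_subset_left
    intro j hj hj'
    apply hz
    by_contra hne
    apply hj'
    rw [Finset.mem_inter, Finset.mem_image]
    exact ⟨hj, j - k, (hb j hne).2, by ring⟩
  have h3 : ∑ j ∈ (Finset.Icc (-(N:ℤ)) N).image (fun i => i + k),
      (fun j => pN N (x + k - j) • (ρ (b j) (u.1 j) - u.1 j)) j =
      ∑ j ∈ Finset.Icc (-(N:ℤ)) N ∩ (Finset.Icc (-(N:ℤ)) N).image (fun i => i + k),
        pN N (x + k - j) • (ρ (b j) (u.1 j) - u.1 j) := by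
    symm
    apply Finset.sum_subset Finset.inter_subset_right
    intro j hj hj'
    apply hz
    by_contra hne
    apply hj'
    rw [Finset.mem_inter]
    exact ⟨(hb j hne).1, hj⟩
  rw [h2, h3]

/-- detection -/
theorem Bu_ne_one (ρ : H →* Module.End ℚ V) (hρ : ∀ h, Low Φ 1 (ρ h - 1)) (N : ℕ) (a : ℤ → H)
    {i : ℤ} (hi : i ∈ Finset.Icc (-(N:ℤ)) N) (h : ρ (a i) ≠ 1) : Bu ρ hρ N a ≠ 1 := by
  intro h1
  obtain ⟨v, hv⟩ : ∃ v, ρ (a i) v ≠ v := by
    by_contra hc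
    push Not at hc
    exact h (LinearMap.ext hc)
  have h2 := Bu_val ρ hρ N a
  rw [h1] at h2
  have h3 : Bm ρ N a ⟨_, bump_mem N i v⟩ = (⟨_, bump_mem N i v⟩ : MM V N) := by
    rw [← h2]; simp
  have h4 := congrArg (fun w : MM V N => w.1 i) h3
  simp only [] at h4
  rw [Bm_apply_window ρ N a _ hi] at h4
  simp only [sub_self, pN_zero, one_smul] at h4
  exact hv h4

end

end Pool.Agent.H17.Uni
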