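import Pool.Agent.H17.Uni5

set_option autoImplicit false

namespace Pool.Agent.H17.Uni

/-- the shift automorphism, as in the statement -/
def sh (G : Type) [Group G] : (ℤ → G) ≃* (ℤ → G) :=
  { toFun := fun (x : ℤ → G) (i : ℤ) => x (i + 1),
    invFun := fun (x : ℤ → G) (i : ℤ) => x (i - 1),
    left_inv := fun (x : ℤ → G) => funext fun (i : ℤ) => congrArg x (sub_add_cancel i 1),
    right_inv := fun (x : ℤ → G) => funext fun (i : ℤ) => congrArg x (add_sub_cancel_right i 1),
    map_mul' := fun (x y : ℤ → G) => rfl }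

abbrev WR (G : Type) [Group G] : Type :=
  SemidirectProduct (ℤ → G) (Multiplicative ℤ) (zpowersHom (MulAut (ℤ → G)) (sh G))

theorem sh_pow (G : Type) [Group G] (n : ℕ) (b : ℤ → G) (i : ℤ) :
    ((sh G : MulAut (ℤ → G)) ^ n) b i = b (i + n) := by
  induction n generalizing b i with
  | zero => simp
  | succ n ih =>
    rw [pow_succ, MulAut.mul_apply, ih]
    show b (i + n + 1) = _
    push_cast
    rw [add_assoc]

theorem sh_zpow (G : Type) [Group G] (k : ℤ) (b : ℤ → G) (i : ℤ) :
    ((sh G : MulAut (ℤ → G)) ^ k) b i = b (i + k) := by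
  rcases Int.eq_nat_or_neg k with ⟨n, rfl | rfl⟩
  · simpa using sh_pow G n b i
  · obtain ⟨b', hb'⟩ : ∃ b', b' = ((sh G : MulAut (ℤ → G)) ^ (-(n:ℤ))) b := ⟨_, rfl⟩
    rw [← hb']
    have h1 : ((sh G : MulAut (ℤ → G)) ^ n) b' = b := by
      rw [hb', ← MulAut.mul_apply]; simp
    have h2 := sh_pow G n b' (i + -(n:ℤ))
    rw [h1] at h2
    rw [h2]
    congr 1
    ring

theorem act_apply (G : Type) [Group G] (k : Multiplicative ℤ) (b : ℤ → G) (i : ℤ) :
    (zpowersHom (MulAut (ℤ → G)) (sh G) k) b i = b (i + k.toAdd) := by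
  rw [zpowersHom_apply]
  exact sh_zpow G k.toAdd b i

/-- finitely supported base part -/
def FS {G : Type} [Group G] (g : WR G) : Prop := {i | g.left i ≠ 1}.Finite

theorem FS_one {G : Type} [Group G] : FS (1 : WR G) := by
  unfold FS; simp

theorem FS_mul {G : Type} [Group G] {g g' : WR G} (h : FS g) (h' : FS g') : FS (g * g') := by
  unfold FS at *
  refine (h.union (h'.image (fun i => i - g.right.toAdd))).subset ?_
  intro i hi
  by_contra hc
  rw [Set.mem_union, not_or] at hc
  obtain ⟨h1, h2⟩ := hc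
  have h1' : g.left i = 1 := by
    by_contra h; exact h1 h
  have h2' : g'.left (i + g.right.toAdd) = 1 := by
    by_contra h; exact h2 ⟨i + g.right.toAdd, h, by ring⟩
  apply hi
  show g.left i * _ = 1
  rw [h1', act_apply, h2', one_mul]

theorem FS_inv {G : Type} [Group G] {g : WR G} (h : FS g) : FS g⁻¹ := by
  unfold FS at *
  refine (h.image (fun i => i + g.right.toAdd)).subset ?_
  intro i hi
  refine ⟨i - g.right.toAdd, ?_, by ring⟩
  intro hc
  apply hi
  have : (g⁻¹).left i = (g.left (i + (g.right⁻¹).toAdd))⁻¹ := by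
    rw [SemidirectProduct.inv_left, act_apply]; rfl
  rw [this]
  have e : i + (g.right⁻¹).toAdd = i - g.right.toAdd := by
    rw [toAdd_inv]; ring
  rw [e, hc, inv_one]

theorem FS_lift {n : ℕ} {G : Type} [Group G] (f : FreeGroup (Fin n) →* WR G)
    (h : ∀ j, FS (f (FreeGroup.of j))) (v : FreeGroup (Fin n)) : FS (f v) := by
  induction v using FreeGroup.induction_on with
  | C1 => rw [map_one]; exact FS_one
  | of j => exact h j
  | inv_of j hj => rw [map_inv]; exact FS_inv hj
  | mul x y hx hy => rw [map_mul]; exact FS_mul hx hy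

/-- the torsion-free nilpotent case, for f.g. `H` -/
theorem tf_case {n : ℕ} (ps : List (FreeGroup (Fin n))) (w : FreeGroup (Fin n))
    (hvalid : ∀ (N : Type) [Group N], Group.IsNilpotent N →
          (∀ g : N, g ≠ 1 → ∀ k : ℕ, 0 < k → g ^ k ≠ 1) →
          ∀ f : FreeGroup (Fin n) →* N, (∀ p ∈ ps, f p = 1) → f w = 1)
    {H : Type} [Group H] (hrep : ∀ h : H, h ≠ 1 → URep H h)
    (f : FreeGroup (Fin n) →* WR H) (hFS : ∀ j, FS (f (FreeGroup.of j)))
    (hps : ∀ p ∈ ps, f p = 1) (hr : (f w).right = 1) (i0 : ℤ) : (f w).left i0 = 1 := by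
  by_contra hne
  obtain ⟨V, _, _, Φ, ρ, hρ, hρw⟩ := hrep _ hne
  -- the local homomorphisms
  let Ψ : ∀ N : ℕ, WR H → U (FN Φ N) := fun N g => Bu ρ hρ N g.left * Tu Φ N ^ (g.right.toAdd)
  have hΨmul : ∀ g g' : WR H, FS g' → ∀ᶠ N in Filter.atTop, Ψ N (g * g') = Ψ N g * Ψ N g' := by
    intro g g' hg'
    -- a bound for the support
    obtain ⟨M, hM⟩ : ∃ M : ℕ, ∀ i, g'.left i ≠ 1 → |i| ≤ M := by
      obtain ⟨B, hB⟩ := (hg'.image (fun i : ℤ => |i|)).bddAbove
      refine ⟨B.toNat, fun i hi => ?_⟩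
      have h1 := hB ⟨i, hi, rfl⟩
      simp only [] at h1
      have h2 := Int.self_le_toNat B
      omega
    filter_upwards [Filter.eventually_ge_atTop (M + g.right.toAdd.natAbs)] with N hN
    have hcond : ∀ i, g'.left i ≠ 1 → i ∈ Finset.Icc (-(N:ℤ)) N ∧
        i - g.right.toAdd ∈ Finset.Icc (-(N:ℤ)) N := by
      intro i hi
      have h1 := hM i hi
      rw [abs_le] at h1
      rw [Finset.mem_Icc, Finset.mem_Icc]
      omega
    show Bu ρ hρ N (g * g').left * Tu Φ N ^ ((g * g').right.toAdd) =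
      (Bu ρ hρ N g.left * Tu Φ N ^ (g.right.toAdd)) * (Bu ρ hρ N g'.left * Tu Φ N ^ (g'.right.toAdd))
    have e1 : (g * g').left = g.left * (fun i => g'.left (i + g.right.toAdd)) := by
      funext i
      show g.left i * _ = _
      rw [act_apply]; rfl
    have e2 : (g * g').right.toAdd = g.right.toAdd + g'.right.toAdd := rfl
    rw [e1, e2, Bu_mul, zpow_add, mul_assoc, mul_assoc, ← mul_assoc (Tu Φ N ^ g.right.toAdd),
      Tu_Bu ρ hρ N _ _ hcond, mul_assoc]
  have hΨone : ∀ N, Ψ N 1 = 1 := by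
    intro N
    show Bu ρ hρ N 1 * Tu Φ N ^ (0:ℤ) = 1
    rw [zpow_zero, mul_one]
    apply Subtype.ext
    apply Units.ext
    rw [Bu_val, Bm_one]; rfl
  let F : ∀ N : ℕ, FreeGroup (Fin n) →* U (FN Φ N) := fun N =>
    FreeGroup.lift (fun j => Ψ N (f (FreeGroup.of j)))
  have hF : ∀ v : FreeGroup (Fin n), ∀ᶠ N in Filter.atTop, F N v = Ψ N (f v) := by
    intro v
    induction v using FreeGroup.induction_on with
    | C1 =>
      refine Filter.Eventually.of_forall fun N => ?_
      rw [map_one, map_one, hΨone]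
    | of j =>
      refine Filter.Eventually.of_forall fun N => ?_
      exact FreeGroup.lift_apply_of
    | inv_of j hj =>
      filter_upwards [hj, hΨmul (f (FreeGroup.of j))⁻¹ (f (FreeGroup.of j)) (hFS j)] with N h1 h2
      rw [inv_mul_cancel, hΨone] at h2
      rw [map_inv, map_inv, h1]
      exact (eq_inv_of_mul_eq_one_left h2.symm).symm
    | mul x y hx hy =>
      filter_upwards [hx, hy, hΨmul (f x) (f y) (FS_lift f hFS y)] with N h1 h2 h3
      rw [map_mul, map_mul, h1, h2, h3]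
  have hps' : ∀ᶠ N in Filter.atTop, ∀ p ∈ ps, F N p = 1 := by
    have : ∀ᶠ N in Filter.atTop, ∀ p ∈ ps.toFinset, F N p = 1 := by
      rw [Filter.eventually_all_finset]
      intro p hp
      filter_upwards [hF p] with N h
      rw [h, hps p (by simpa using hp), hΨone]
    filter_upwards [this] with N h p hp
    exact h p (by simpa using hp)
  obtain ⟨N, h1, h2, h3⟩ := (hps'.and ((hF w).and
    (Filter.eventually_ge_atTop i0.natAbs))).exists
  have h4 := hvalid (U (FN Φ N)) (U_nilpotent _) (U_torsionFree _) (F N) h1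
  rw [h2] at h4
  have h5 : Ψ N (f w) = Bu ρ hρ N (f w).left := by
    show Bu ρ hρ N (f w).left * Tu Φ N ^ ((f w).right.toAdd) = _
    rw [hr]; simp
  rw [h5] at h4
  exact Bu_ne_one ρ hρ N (f w).left (i := i0) (by rw [Finset.mem_Icc]; omega) hρw h4

end Pool.Agent.H17.Uni
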