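import Pool.Agent.H17.Uni6

set_option autoImplicit false

namespace Pool.Agent.H17.Uni

/-- functoriality of the wreath product -/
def Wmap {F K : Type} [Group F] [Group K] (θ : F →* K) : WR F →* WR K where
  toFun g := ⟨fun i => θ (g.left i), g.right⟩
  map_one' := by
    apply SemidirectProduct.ext
    · funext i; simp
    · rfl
  map_mul' g g' := by
    apply SemidirectProduct.ext
    · funext i
      show θ (g.left i * _) = θ (g.left i) * _
      rw [act_apply, act_apply, map_mul]
    · rfl

theorem Wmap_left {F K : Type} [Group F] [Group K] (θ : F →* K) (g : WR F) (i : ℤ) :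
    (Wmap θ g).left i = θ (g.left i) := rfl

theorem Wmap_right {F K : Type} [Group F] [Group K] (θ : F →* K) (g : WR F) :
    (Wmap θ g).right = g.right := rfl

theorem mainU (G : Type) [Group G]
    (hG : ∀ (n : ℕ) (ps : List (FreeGroup (Fin n))) (w : FreeGroup (Fin n)),
        (∀ (N : Type) [Group N], Group.IsNilpotent N →
          (∀ g : N, g ≠ 1 → ∀ k : ℕ, 0 < k → g ^ k ≠ 1) →
          ∀ f : FreeGroup (Fin n) →* N, (∀ p ∈ ps, f p = 1) → f w = 1) →
        ∀ f : FreeGroup (Fin n) →* G, (∀ p ∈ ps, f p = 1) → f w = 1)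
    (n : ℕ) (ps : List (FreeGroup (Fin n))) (w : FreeGroup (Fin n))
    (hvalid : ∀ (N : Type) [Group N], Group.IsNilpotent N →
          (∀ g : N, g ≠ 1 → ∀ k : ℕ, 0 < k → g ^ k ≠ 1) →
          ∀ f : FreeGroup (Fin n) →* N, (∀ p ∈ ps, f p = 1) → f w = 1)
    (f : FreeGroup (Fin n) →* WR G) (hFS : ∀ j, FS (f (FreeGroup.of j)))
    (hps : ∀ p ∈ ps, f p = 1) : f w = 1 := by
  classical
  have hr : (f w).right = 1 := by
    have := hvalid (Multiplicative ℤ) inferInstance (by
      intro g hg k hk h
      apply hg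
      have h1 : k • g.toAdd = 0 := h
      have h2 : (k : ℤ) * g.toAdd = 0 := by simpa using h1
      have h3 : g.toAdd = 0 := by
        rcases mul_eq_zero.1 h2 with h4 | h4
        · omega
        · exact h4
      exact h3) ((SemidirectProduct.rightHom).comp f) (fun p hp => by
      rw [MonoidHom.comp_apply, hps p hp, map_one])
    exact this
  apply SemidirectProduct.ext
  swap
  · exact hr
  funext i0
  show (f w).left i0 = 1
  by_contra hne
  -- bound for the supports
  obtain ⟨M, hM⟩ : ∃ M : ℕ, ∀ j i, (f (FreeGroup.of j)).left i ≠ 1 → |i| ≤ M := by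
    have h1 : ∀ j, ∃ M : ℕ, ∀ i, (f (FreeGroup.of j)).left i ≠ 1 → |i| ≤ M := by
      intro j
      obtain ⟨B, hB⟩ := ((hFS j).image (fun i : ℤ => |i|)).bddAbove
      refine ⟨B.toNat, fun i hi => ?_⟩
      have h1 := hB ⟨i, hi, rfl⟩
      simp only [] at h1
      have h2 := Int.self_le_toNat B
      omega
    choose M hM using h1
    refine ⟨∑ j, M j, fun j i hi => (hM j i hi).trans ?_⟩
    have := Finset.single_le_sum (f := M) (fun _ _ => Nat.zero_le _) (Finset.mem_univ j)
    exact_mod_cast this
  obtain ⟨e, he⟩ : ∃ e : Fin n × Fin (2 * M + 1) ≃ Fin (n * (2 * M + 1)), e = finProdFinEquiv :=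
    ⟨_, rfl⟩
  let θG : FreeGroup (Fin (n * (2 * M + 1))) →* G :=
    FreeGroup.lift (fun q => (f (FreeGroup.of (e.symm q).1)).left (((e.symm q).2 : ℕ) - (M:ℤ)))
  let base : Fin n → ℤ → FreeGroup (Fin (n * (2 * M + 1))) := fun j i =>
    if h : |i| ≤ M then FreeGroup.of (e (j, ⟨(i + M).toNat, by
      rw [abs_le] at h; omega⟩)) else 1
  let ft : FreeGroup (Fin n) →* WR (FreeGroup (Fin (n * (2 * M + 1)))) :=
    FreeGroup.lift (fun j => ⟨base j, (f (FreeGroup.of j)).right⟩)
  have hcomp : (Wmap θG).comp ft = f := by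
    apply FreeGroup.ext_hom
    intro j
    rw [MonoidHom.comp_apply]
    have h1 : ft (FreeGroup.of j) = ⟨base j, (f (FreeGroup.of j)).right⟩ :=
      FreeGroup.lift_apply_of
    rw [h1]
    apply SemidirectProduct.ext
    · funext i
      rw [Wmap_left]
      show θG (base j i) = _
      by_cases h : |i| ≤ M
      · simp only [base, dif_pos h]
        show θG (FreeGroup.of _) = _
        have h2 : ∀ q, θG (FreeGroup.of q) =
            (f (FreeGroup.of (e.symm q).1)).left (((e.symm q).2 : ℕ) - (M:ℤ)) := fun q =>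
          FreeGroup.lift_apply_of
        rw [h2, Equiv.symm_apply_apply]
        simp only []
        rw [abs_le] at h
        have h5 : (((i + M).toNat : ℕ) : ℤ) = i + M := Int.toNat_of_nonneg (by linarith [h.1])
        have h6 : (((i + M).toNat : ℕ) : ℤ) - M = i := by rw [h5]; ring
        rw [h6]
      · simp only [base, dif_neg h, map_one]
        by_contra hc
        exact h (hM j i (Ne.symm hc))
    · rfl
  have hcomp' : ∀ v, Wmap θG (ft v) = f v := fun v => by
    rw [← hcomp]; rfl
  have hftFS : ∀ j, FS (ft (FreeGroup.of j)) := by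
    intro j
    have h1 : ft (FreeGroup.of j) = ⟨base j, (f (FreeGroup.of j)).right⟩ :=
      FreeGroup.lift_apply_of
    rw [h1]
    refine (Set.finite_Icc (-(M:ℤ)) M).subset ?_
    intro i hi
    by_contra hc
    apply hi
    have : ¬ |i| ≤ M := fun h => hc (abs_le.1 h)
    simp only [base, dif_neg this]
  have hE : {q | ∃ p ∈ ps, ∃ i, q = (ft p).left i}.Finite := by
    have h1 : {q | ∃ p ∈ ps, ∃ i, q = (ft p).left i} ⊆
        ⋃ p ∈ ps.toFinset, Set.range (ft p).left := by
      rintro q ⟨p, hp, i, rfl⟩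
      simp only [Set.mem_iUnion]
      exact ⟨p, by simpa using hp, i, rfl⟩
    refine Set.Finite.subset ?_ h1
    apply Set.Finite.biUnion (Finset.finite_toSet _)
    intro p _
    refine (((FS_lift ft hftFS p).image (ft p).left).insert 1).subset ?_
    rintro _ ⟨i, rfl⟩
    by_cases h : (ft p).left i = 1
    · left; exact h
    · right; exact ⟨i, h, rfl⟩
  have hnot : ¬ (∀ (N : Type) [Group N], Group.IsNilpotent N →
          (∀ g : N, g ≠ 1 → ∀ k : ℕ, 0 < k → g ^ k ≠ 1) →
          ∀ f : FreeGroup (Fin (n * (2 * M + 1))) →* N, (∀ p ∈ hE.toFinset.toList, f p = 1) →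
            f ((ft w).left i0) = 1) := by
    intro hv
    have h1 := hG _ hE.toFinset.toList ((ft w).left i0) hv θG (by
      intro q hq
      rw [Finset.mem_toList, Set.Finite.mem_toFinset] at hq
      obtain ⟨p, hp, i, rfl⟩ := hq
      rw [← Wmap_left, hcomp', hps p hp]; rfl)
    rw [← Wmap_left, hcomp'] at h1
    exact hne h1
  push Not at hnot
  obtain ⟨N, _, hnil, htf, θ, hθps, hθw⟩ := hnot
  apply hθw
  have hrep : ∀ h : θ.range, h ≠ 1 → URep θ.range h := by
    refine urep_of_fg (Set.range (fun q => θ.rangeRestrict (FreeGroup.of q)))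
      (Set.finite_range _) ?_ inferInstance ?_
    · have h1 : (Set.range (fun q => θ.rangeRestrict (FreeGroup.of q))) =
          θ.rangeRestrict '' (Set.range FreeGroup.of) := by
        rw [← Set.range_comp]; rfl
      rw [h1, ← MonoidHom.map_closure, FreeGroup.closure_range_of, ← MonoidHom.range_eq_map,
        MonoidHom.range_eq_top]
      exact θ.rangeRestrict_surjective
    · intro g hg k hk h
      exact htf g (fun h' => hg (Subtype.ext h')) k hk (by
        have := congrArg Subtype.val h
        simpa using this)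
  have hfin := tf_case ps w hvalid hrep ((Wmap θ.rangeRestrict).comp ft) (by
    intro j
    refine (hftFS j).subset ?_
    intro i hi hc
    apply hi
    show θ.rangeRestrict ((ft (FreeGroup.of j)).left i) = 1
    rw [hc, map_one]) (by
    intro p hp
    apply SemidirectProduct.ext
    · funext i
      show θ.rangeRestrict ((ft p).left i) = 1
      apply Subtype.ext
      exact hθps _ (by
        rw [Finset.mem_toList, Set.Finite.mem_toFinset]
        exact ⟨p, hp, i, rfl⟩)
    · show (ft p).right = 1
      have h1 := congrArg SemidirectProduct.right (hcomp' p)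
      rw [hps p hp] at h1
      exact h1) (by
    show (ft w).right = 1
    have h1 := congrArg SemidirectProduct.right (hcomp' w)
    rw [hr] at h1
    exact h1) i0
  exact congrArg Subtype.val hfin

theorem finalU (G : Type) [Group G]
    (hG : ∀ (n : ℕ) (ps : List (FreeGroup (Fin n))) (w : FreeGroup (Fin n)),
        (∀ (N : Type) [Group N], Group.IsNilpotent N →
          (∀ g : N, g ≠ 1 → ∀ k : ℕ, 0 < k → g ^ k ≠ 1) →
          ∀ f : FreeGroup (Fin n) →* N, (∀ p ∈ ps, f p = 1) → f w = 1) →
        ∀ f : FreeGroup (Fin n) →* G, (∀ p ∈ ps, f p = 1) → f w = 1)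
    (n : ℕ) (ps : List (FreeGroup (Fin n))) (w : FreeGroup (Fin n))
    (hvalid : ∀ (N : Type) [Group N], Group.IsNilpotent N →
          (∀ g : N, g ≠ 1 → ∀ k : ℕ, 0 < k → g ^ k ≠ 1) →
          ∀ f : FreeGroup (Fin n) →* N, (∀ p ∈ ps, f p = 1) → f w = 1)
    (S : Set (WR G)) (hS : ∀ x ∈ S, FS x)
    (f : FreeGroup (Fin n) →* ↥(Subgroup.closure S))
    (hps : ∀ p ∈ ps, f p = 1) : f w = 1 := by
  have key := mainU G hG n ps w hvalid ((Subgroup.closure S).subtype.comp f) (by
    intro j
    refine Subgroup.closure_induction (p := fun y _ => FS y) hS FS_one ?_ ?_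
      (f (FreeGroup.of j)).2
    · intro x y _ _ hx hy
      exact FS_mul hx hy
    · intro x _ hx
      exact FS_inv hx) (by
    intro p hp
    rw [MonoidHom.comp_apply, hps p hp, map_one])
  exact Subtype.ext key

end Pool.Agent.H17.Uni
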