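import Mathlib

namespace Pool.Agent.H17.Varga

/-- `α` is an increasing index sequence. -/
def Inc {k n : ℕ} (α : Fin k → Fin n) : Prop := ∀ i j, i < j → α i < α j

/-- The real eigenvalues of a complex matrix. -/
def realSpec {n : ℕ} (A : Matrix (Fin n) (Fin n) ℂ) : Set ℝ := {x | (x : ℂ) ∈ spectrum ℂ A}

/-- `l(A(α)) ≤ l(A(β)) < ∞` for all nonempty `β ⊆ α`, where `l` is the least real eigenvalue. -/
def IsOmega {n : ℕ} (A : Matrix (Fin n) (Fin n) ℂ) : Prop :=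
  ∀ (k m : ℕ) (α : Fin k → Fin n) (β : Fin m → Fin n), Inc α → Inc β → 0 < m →
    (∀ j, ∃ i, β j = α i) →
    ∃ a b, IsLeast (realSpec (A.submatrix α α)) a ∧ IsLeast (realSpec (A.submatrix β β)) b ∧
      a ≤ b

/-- `τ`-matrices: `ω`-matrices with `l(A) ≥ 0`. -/
def IsTau {n : ℕ} (A : Matrix (Fin n) (Fin n) ℂ) : Prop := IsOmega A ∧ ∀ a ∈ realSpec A, 0 ≤ a

/-- Inequality (V): `|arg(z - l(A))| ≤ π/2 - π/n` for all eigenvalues `z ≠ l(A)`. -/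
def IneqV {n : ℕ} (A : Matrix (Fin n) (Fin n) ℂ) : Prop :=
  ∃ l : ℝ, IsLeast (realSpec A) l ∧
    ∀ z ∈ spectrum ℂ A, z ≠ (l : ℂ) → |(z - (l : ℂ)).arg| ≤ Real.pi / 2 - Real.pi / n

end Pool.Agent.H17.Varga
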