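import Mathlib
import Pool.Agent.H17.VargaDef
import Pool.Agent.H17.Newton2

namespace Pool.Agent.H17.Varga

lemma mem_specC {k : ℕ} (B : Matrix (Fin k) (Fin k) ℂ) (z : ℂ) :
    z ∈ spectrum ℂ B ↔ (algebraMap ℂ (Matrix (Fin k) (Fin k) ℂ) z - B).det = 0 := by
  rw [spectrum.mem_iff, Matrix.isUnit_iff_isUnit_det, isUnit_iff_ne_zero, not_not]

lemma inc_single {n : ℕ} (i : Fin n) : Inc (fun _ : Fin 1 => i) := by
  intro a b h
  exact absurd h (by have := Subsingleton.elim a b; rw [this]; exact lt_irrefl _)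

/-- Diagonal entries of an `ω`-matrix are real and at least `l`. -/
lemma diag_real {n : ℕ} {A : Matrix (Fin n) (Fin n) ℂ} (hA : IsOmega A) {l : ℝ}
    (hl : IsLeast (realSpec A) l) (i : Fin n) : ∃ a : ℝ, A i i = a ∧ l ≤ a := by
  have hid : Inc (id : Fin n → Fin n) := fun _ _ h => h
  obtain ⟨a, b, ha, hb, hab⟩ := hA n 1 id (fun _ => i) hid (inc_single i) one_pos
    (fun j => ⟨i, rfl⟩)
  rw [Matrix.submatrix_id_id] at ha
  have e : a = l := ha.unique hl
  refine ⟨b, ?_, e ▸ hab⟩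
  have h1 := hb.1
  have h2 : (b : ℂ) ∈ spectrum ℂ (A.submatrix (fun _ : Fin 1 => i) (fun _ => i)) := h1
  rw [mem_specC] at h2
  simp [Matrix.algebraMap_matrix_apply, sub_eq_zero] at h2
  exact h2.symm

/-- Order two principal minors. -/
lemma pair_real {n : ℕ} {A : Matrix (Fin n) (Fin n) ℂ} (hA : IsOmega A) {l : ℝ}
    (hl : IsLeast (realSpec A) l) {i j : Fin n} (hij : i < j) {a b : ℝ} (ha : A i i = a)
    (hb : A j j = b) (_hla : l ≤ a) (_hlb : l ≤ b) :
    ∃ p : ℝ, 0 ≤ p ∧ A i j * A j i = p := by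
  have hinc : Inc (![i, j]) := by
    intro x y hxy
    fin_cases x <;> fin_cases y <;> simp at hxy ⊢
    exact hij
  obtain ⟨c, d, hc, hd, hcd⟩ := hA 2 1 ![i, j] (fun _ => i) hinc (inc_single i) one_pos
    (fun _ => ⟨0, rfl⟩)
  obtain ⟨c', d', hc', hd', hcd'⟩ := hA 2 1 ![i, j] (fun _ => j) hinc (inc_single j) one_pos
    (fun _ => ⟨1, rfl⟩)
  have hcc : c' = c := hc'.unique hc
  have h1 : (c : ℂ) ∈ spectrum ℂ (A.submatrix ![i, j] ![i, j]) := hc.1
  have h2 : (d : ℂ) ∈ spectrum ℂ (A.submatrix (fun _ : Fin 1 => i) (fun _ => i)) := hd.1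
  have h3 : (d' : ℂ) ∈ spectrum ℂ (A.submatrix (fun _ : Fin 1 => j) (fun _ => j)) := hd'.1
  rw [mem_specC] at h1 h2 h3
  simp [Matrix.algebraMap_matrix_apply, sub_eq_zero, ha] at h2
  simp [Matrix.algebraMap_matrix_apply, sub_eq_zero, hb] at h3
  rw [Matrix.det_fin_two] at h1
  simp only [Matrix.sub_apply, Matrix.algebraMap_matrix_apply, Matrix.submatrix_apply,
    Matrix.cons_val_zero, Matrix.cons_val_one, ha, hb] at h1
  simp at h1
  have hda : d = a := by exact_mod_cast h2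
  have hdb : d' = b := by exact_mod_cast h3
  refine ⟨(a - c) * (b - c), mul_nonneg (by linarith) (by linarith), ?_⟩
  push_cast
  linear_combination -h1

lemma arg_real_pos {z : ℂ} (h : z.im = 0) (h' : 0 < z.re) : z.arg = 0 := by
  have : z = (z.re : ℂ) := Complex.ext rfl (by simp [h])
  rw [this]; exact Complex.arg_ofReal_of_nonneg h'.le

lemma abs_arg_le_of_cos {z : ℂ} (hz : z ≠ 0) {θ : ℝ} (h0 : 0 ≤ θ) (h1 : θ ≤ Real.pi)
    (h : Real.cos θ * ‖z‖ ≤ z.re) : |z.arg| ≤ θ := by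
  by_contra hc
  rw [not_le] at hc
  have h2 : Real.cos |z.arg| < Real.cos θ :=
    Real.cos_lt_cos_of_nonneg_of_le_pi h0 (Complex.abs_arg_le_pi z) hc
  rw [Real.cos_abs, Complex.cos_arg hz] at h2
  have hn : 0 < ‖z‖ := norm_pos_iff.mpr hz
  rw [div_lt_iff₀ hn] at h2
  linarith

/-- A root of a real quadratic in the relevant sector. -/
lemma quad_arg {e1 e2 : ℝ} (h1 : 0 ≤ e1) (h3 : 3 * e2 ≤ e1 ^ 2) {μ : ℂ}
    (hμ : μ ^ 2 - e1 * μ + e2 = 0) (hpos : μ.im = 0 → 0 < μ.re) (h0 : μ ≠ 0) :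
    |μ.arg| ≤ Real.pi / 6 := by
  by_cases him : μ.im = 0
  · rw [arg_real_pos him (hpos him), abs_zero]; positivity
  · have hre := congrArg Complex.re hμ
    have him' := congrArg Complex.im hμ
    simp [pow_two] at hre him'
    have hx : μ.re = e1 / 2 := by
      have : μ.im * (2 * μ.re - e1) = 0 := by linarith
      rcases mul_eq_zero.mp this with h | h
      · exact absurd h him
      · linarith
    have hn : ‖μ‖ ^ 2 = e2 := by
      rw [← Complex.normSq_eq_norm_sq, Complex.normSq_apply]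
      nlinarith
    apply abs_arg_le_of_cos h0 (by positivity) (by linarith [Real.pi_pos])
    rw [Real.cos_pi_div_six, hx]
    apply le_of_sq_le_sq _ (by positivity)
    have hs : Real.sqrt 3 ^ 2 = 3 := Real.sq_sqrt (by norm_num)
    calc (Real.sqrt 3 / 2 * ‖μ‖) ^ 2 = Real.sqrt 3 ^ 2 / 4 * ‖μ‖ ^ 2 := by ring
      _ = 3 / 4 * e2 := by rw [hs, hn]
      _ ≤ (e1 / 2) ^ 2 := by nlinarith

end Pool.Agent.H17.Varga
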