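import Mathlib
import Pool.Agent.H17.Varga1

namespace Pool.Agent.H17.Varga

lemma exists_l {n : ℕ} (hn : 0 < n) {A : Matrix (Fin n) (Fin n) ℂ} (hA : IsOmega A) :
    ∃ l, IsLeast (realSpec A) l := by
  have hid : Inc (id : Fin n → Fin n) := fun _ _ h => h
  obtain ⟨a, b, ha, hb, hab⟩ := hA n n id id hid hid hn (fun j => ⟨j, rfl⟩)
  rw [Matrix.submatrix_id_id] at ha
  exact ⟨a, ha⟩

lemma pos_of_least {n : ℕ} {A : Matrix (Fin n) (Fin n) ℂ} {l : ℝ}
    (hl : IsLeast (realSpec A) l) {z : ℂ} (hz : z ∈ spectrum ℂ A) (hne : z ≠ (l : ℂ))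
    (him : (z - (l : ℂ)).im = 0) : 0 < (z - (l : ℂ)).re := by
  have him' : z.im = 0 := by simpa using him
  have e : z = (z.re : ℂ) := Complex.ext rfl (by simp [him'])
  have hmem : z.re ∈ realSpec A := by
    show (z.re : ℂ) ∈ spectrum ℂ A
    rw [← e]; exact hz
  have h1 := hl.2 hmem
  have h2 : z.re ≠ l := by
    intro h; apply hne; rw [e, h]
  have h3 : l < z.re := lt_of_le_of_ne h1 (Ne.symm h2)
  simp; exact h3

lemma V_one (A : Matrix (Fin 1) (Fin 1) ℂ) (hA : IsTau A) : IneqV A := by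
  obtain ⟨l, hl⟩ := exists_l one_pos hA.1
  refine ⟨l, hl, fun z hz hne => ?_⟩
  exfalso
  have h1 : (l : ℂ) ∈ spectrum ℂ A := hl.1
  rw [mem_specC] at h1 hz
  simp [Matrix.algebraMap_matrix_apply, sub_eq_zero] at h1 hz
  exact hne (hz.trans h1.symm)

lemma V_two (A : Matrix (Fin 2) (Fin 2) ℂ) (hA : IsTau A) : IneqV A := by
  obtain ⟨l, hl⟩ := exists_l two_pos hA.1
  refine ⟨l, hl, fun z hz hne => ?_⟩
  have hpos := pos_of_least hl hz hne
  obtain ⟨a, ha, hla⟩ := diag_real hA.1 hl 0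
  obtain ⟨b, hb, hlb⟩ := diag_real hA.1 hl 1
  have h1 : (l : ℂ) ∈ spectrum ℂ A := hl.1
  rw [mem_specC] at h1 hz
  rw [Matrix.det_fin_two] at h1 hz
  simp only [Matrix.sub_apply, Matrix.algebraMap_matrix_apply, ha, hb] at h1 hz
  simp at h1 hz
  have h0 : z - l ≠ 0 := sub_ne_zero.mpr hne
  have key : (z - l) * ((z - l) - ((a - l) + (b - l) : ℝ)) = 0 := by
    push_cast
    linear_combination hz - h1
  rcases mul_eq_zero.mp key with h | h
  · exact absurd h h0
  · have e : z - l = (((a - l) + (b - l) : ℝ) : ℂ) := sub_eq_zero.mp h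
    have him : (z - (l : ℂ)).im = 0 := by rw [e]; exact Complex.ofReal_im _
    rw [arg_real_pos him (hpos him)]
    norm_num

lemma V_three (A : Matrix (Fin 3) (Fin 3) ℂ) (hA : IsTau A) : IneqV A := by
  obtain ⟨l, hl⟩ := exists_l three_pos hA.1
  refine ⟨l, hl, fun z hz hne => ?_⟩
  have hpos := pos_of_least hl hz hne
  obtain ⟨a, ha, hla⟩ := diag_real hA.1 hl 0
  obtain ⟨b, hb, hlb⟩ := diag_real hA.1 hl 1
  obtain ⟨c, hc, hlc⟩ := diag_real hA.1 hl 2
  obtain ⟨p, hp, hp'⟩ := pair_real hA.1 hl (i := 0) (j := 1) (by decide) ha hb hla hlb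
  obtain ⟨q, hq, hq'⟩ := pair_real hA.1 hl (i := 0) (j := 2) (by decide) ha hc hla hlc
  obtain ⟨r, hr, hr'⟩ := pair_real hA.1 hl (i := 1) (j := 2) (by decide) hb hc hlb hlc
  have h1 : (l : ℂ) ∈ spectrum ℂ A := hl.1
  rw [mem_specC] at h1 hz
  rw [Matrix.det_fin_three] at h1 hz
  simp only [Matrix.sub_apply, Matrix.algebraMap_matrix_apply, ha, hb, hc] at h1 hz
  simp at h1 hz
  have h0 : z - l ≠ 0 := sub_ne_zero.mpr hne
  have key : (z - l) * ((z - l) ^ 2 - (((a - l) + (b - l) + (c - l) : ℝ) : ℂ) * (z - l) +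
      (((a - l) * (b - l) + (a - l) * (c - l) + (b - l) * (c - l) - p - q - r : ℝ) : ℂ)) = 0 := by
    push_cast
    linear_combination hz - h1 + (z - l) * hp' + (z - l) * hq' + (z - l) * hr'
  rcases mul_eq_zero.mp key with h | h
  · exact absurd h h0
  · have := quad_arg (by linarith) (by
      nlinarith [sq_nonneg ((a - l) - (b - l)), sq_nonneg ((a - l) - (c - l)),
        sq_nonneg ((b - l) - (c - l))]) h hpos h0
    refine this.trans (le_of_eq ?_)
    push_cast; ring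

end Pool.Agent.H17.Varga
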