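import Mathlib
import Pool.Agent.H17.Varga2

namespace Pool.Agent.H17.Varga

/-- The reduced characteristic function. -/
noncomputable def G (m : ℕ) (x : ℝ) : ℝ := x * (20 - x) ^ m - 400 * (1 - x) ^ m

lemma G_cont (m : ℕ) : Continuous (G m) := by unfold G; fun_prop

lemma G_neg (m : ℕ) {x : ℝ} (hx : x ≤ 0) : G m x < 0 := by
  have h1 : 0 < (20 - x) ^ m := pow_pos (by linarith) m
  have h2 : 0 < (1 - x) ^ m := pow_pos (by linarith) m
  have h3 : x * (20 - x) ^ m ≤ 0 := mul_nonpos_of_nonpos_of_nonneg hx h1.le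
  unfold G; linarith

lemma exists_least (m : ℕ) (hm : 1 ≤ m) :
    ∃ a, IsLeast {x : ℝ | G m x = 0} a ∧ 0 < a ∧ a < 1 := by
  have hpos : 0 < G m 1 := by
    unfold G
    have : (1 - (1 : ℝ)) ^ m = 0 := by rw [sub_self]; exact zero_pow (by omega)
    rw [this]; norm_num
  have hne : ({x : ℝ | G m x = 0} ∩ Set.Icc 0 1).Nonempty := by
    have := intermediate_value_Icc (zero_le_one (α := ℝ)) (G_cont m).continuousOn
    obtain ⟨x, hx, hx0⟩ := this ⟨(G_neg m le_rfl).le, hpos.le⟩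
    exact ⟨x, hx0, hx⟩
  have hc : IsCompact ({x : ℝ | G m x = 0} ∩ Set.Icc 0 1) := by
    rw [Set.inter_comm]
    exact isCompact_Icc.inter_right (isClosed_eq (G_cont m) continuous_const)
  obtain ⟨a, ha, hle⟩ := hc.exists_isLeast hne
  refine ⟨a, ⟨ha.1, fun x hx => ?_⟩, ?_, ?_⟩
  · rcases le_or_gt x 0 with h | h
    · exact absurd hx (G_neg m h).ne
    · rcases le_or_gt x 1 with h1 | h1
      · exact hle ⟨hx, h.le, h1⟩
      · exact ha.2.2.trans h1.le
  · rcases lt_or_eq_of_le ha.2.1 with h | h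
    · exact h
    · exact absurd ha.1 (by rw [← h]; exact (G_neg m le_rfl).ne)
  · rcases lt_or_eq_of_le ha.2.2 with h | h
    · exact h
    · exact absurd ha.1 (by rw [h]; exact hpos.ne')

lemma exists_least' (m : ℕ) : ∃ a, IsLeast {x : ℝ | G m x = 0} a ∧ 0 < a ∧
    (1 ≤ m → a < 1) ∧ a ≤ 400 := by
  rcases Nat.eq_zero_or_pos m with h | h
  · subst h
    have e : {x : ℝ | G 0 x = 0} = {400} := by
      ext x
      simp only [G, pow_zero, mul_one, Set.mem_ofPred_eq, Set.mem_singleton_iff]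
      constructor <;> intro h <;> linarith
    refine ⟨400, ?_, by norm_num, fun h => by omega, le_rfl⟩
    rw [e]; exact isLeast_singleton
  · obtain ⟨a, h1, h2, h3⟩ := exists_least m h
    exact ⟨a, h1, h2, fun _ => h3, by linarith⟩

/-- The least root. -/
noncomputable def l (m : ℕ) : ℝ := (exists_least' m).choose

lemma l_spec (m : ℕ) : IsLeast {x : ℝ | G m x = 0} (l m) ∧ 0 < l m ∧ (1 ≤ m → l m < 1) ∧
    l m ≤ 400 := (exists_least' m).choose_spec

lemma l_zero : l 0 = 400 := by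
  have h := (l_spec 0).1.1
  simp only [G, pow_zero, mul_one, Set.mem_ofPred_eq] at h
  linarith

lemma l_succ (m : ℕ) : l (m + 1) ≤ l m := by
  rcases Nat.eq_zero_or_pos m with h | h
  · subst h
    have := (l_spec 1).2.2.1 le_rfl
    rw [l_zero]; norm_num at this ⊢; linarith
  · obtain ⟨h1, h2, h3, _⟩ := l_spec m
    have h3 := h3 h
    have hroot : G m (l m) = 0 := h1.1
    have hpos : 0 < G (m + 1) (l m) := by
      have e : G (m + 1) (l m) = (20 - l m) * G m (l m) + 7600 * (1 - l m) ^ m := by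
        unfold G; ring
      rw [e, hroot, mul_zero, zero_add]
      exact mul_pos (by norm_num) (pow_pos (by linarith) m)
    have := intermediate_value_Icc h2.le (G_cont (m + 1)).continuousOn
    obtain ⟨x, hx, hx0⟩ := this ⟨(G_neg (m + 1) le_rfl).le, hpos.le⟩
    exact ((l_spec (m + 1)).1.2 hx0).trans hx.2

lemma l_anti : Antitone l := antitone_nat_of_succ_le l_succ

def A1 : Matrix (Fin 4) (Fin 4) ℤ := !![20,19,19,20;0,20,19,20;0,0,20,20;380,380,380,400]

/-- The counterexample of order four. -/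
noncomputable def A4 : Matrix (Fin 4) (Fin 4) ℂ := A1.map (Int.castRingHom ℂ)

instance {k n : ℕ} (α : Fin k → Fin n) : Decidable (Inc α) := by unfold Inc; infer_instance

lemma sub1 : ∀ α : Fin 1 → Fin 4, Inc α →
    (A1.submatrix α α = !![400] ∧ ∃ i, α i = 3) ∨ (A1.submatrix α α = !![20] ∧ ¬ ∃ i, α i = 3) := by
  decide +kernel

lemma sub2 : ∀ α : Fin 2 → Fin 4, Inc α →
    (A1.submatrix α α = !![20,20;380,400] ∧ ∃ i, α i = 3) ∨
      (A1.submatrix α α = !![20,19;0,20] ∧ ¬ ∃ i, α i = 3) := by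
  decide +kernel

lemma sub3 : ∀ α : Fin 3 → Fin 4, Inc α →
    (A1.submatrix α α = !![20,19,20;0,20,20;380,380,400] ∧ ∃ i, α i = 3) ∨
      (A1.submatrix α α = !![20,19,19;0,20,19;0,0,20] ∧ ¬ ∃ i, α i = 3) := by
  decide +kernel

lemma sub4 : ∀ α : Fin 4 → Fin 4, Inc α →
    (A1.submatrix α α = A1 ∧ ∃ i, α i = 3) := by
  decide +kernel

lemma sub_cast {k : ℕ} {α : Fin k → Fin 4} {B : Matrix (Fin k) (Fin k) ℤ}
    (h : A1.submatrix α α = B) : A4.submatrix α α = B.map (Int.castRingHom ℂ) := by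
  rw [← h]; rfl

lemma mem_realSpec {k : ℕ} {B : Matrix (Fin k) (Fin k) ℂ} {x : ℝ} :
    x ∈ realSpec B ↔ (algebraMap ℂ (Matrix (Fin k) (Fin k) ℂ) (x : ℂ) - B).det = 0 :=
  mem_specC B x

lemma Inc.inj {k n : ℕ} {α : Fin k → Fin n} (h : Inc α) : Function.Injective α := by
  intro i j hij
  rcases lt_trichotomy i j with h1 | h1 | h1
  · exact absurd hij (h i j h1).ne
  · exact h1
  · exact absurd hij (h j i h1).ne'

lemma Inc.le {k n : ℕ} {α : Fin k → Fin n} (h : Inc α) : k ≤ n := by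
  simpa using Fintype.card_le_of_injective α h.inj

lemma spec_desc (k : ℕ) (α : Fin k → Fin 4) (hα : Inc α) (hk : 0 < k) :
    ((∃ i, α i = 3) ∧ realSpec (A4.submatrix α α) = {x : ℝ | G (k - 1) x = 0}) ∨
      ((¬ ∃ i, α i = 3) ∧ realSpec (A4.submatrix α α) = {20}) := by
  have hk4 : k ≤ 4 := hα.le
  interval_cases k
  · rcases sub1 α hα with ⟨h, h2⟩ | ⟨h, h2⟩
    · left
      refine ⟨h2, ?_⟩
      ext x
      rw [mem_realSpec, sub_cast h, Set.mem_ofPred_eq]
      have e : (algebraMap ℂ (Matrix (Fin 1) (Fin 1) ℂ) (x : ℂ) -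
          (!![400] : Matrix (Fin 1) (Fin 1) ℤ).map (Int.castRingHom ℂ)).det = ((G 0 x : ℝ) : ℂ) := by
        simp [G, Matrix.algebraMap_matrix_apply]
      rw [e, Complex.ofReal_eq_zero]
    · right
      refine ⟨h2, ?_⟩
      ext x
      rw [mem_realSpec, sub_cast h, Set.mem_singleton_iff]
      have e : (algebraMap ℂ (Matrix (Fin 1) (Fin 1) ℂ) (x : ℂ) -
          (!![20] : Matrix (Fin 1) (Fin 1) ℤ).map (Int.castRingHom ℂ)).det
            = ((x - 20 : ℝ) : ℂ) := by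
        simp [Matrix.algebraMap_matrix_apply]
      rw [e, Complex.ofReal_eq_zero, sub_eq_zero]
  · rcases sub2 α hα with ⟨h, h2⟩ | ⟨h, h2⟩
    · left
      refine ⟨h2, ?_⟩
      ext x
      rw [mem_realSpec, sub_cast h, Set.mem_ofPred_eq]
      have e : (algebraMap ℂ (Matrix (Fin 2) (Fin 2) ℂ) (x : ℂ) -
          (!![20,20;380,400] : Matrix (Fin 2) (Fin 2) ℤ).map (Int.castRingHom ℂ)).det
            = ((-G 1 x : ℝ) : ℂ) := by
        simp [Matrix.det_fin_two, G, Matrix.algebraMap_matrix_apply]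
        ring
      rw [e, Complex.ofReal_eq_zero, neg_eq_zero]
    · right
      refine ⟨h2, ?_⟩
      ext x
      rw [mem_realSpec, sub_cast h, Set.mem_singleton_iff]
      have e : (algebraMap ℂ (Matrix (Fin 2) (Fin 2) ℂ) (x : ℂ) -
          (!![20,19;0,20] : Matrix (Fin 2) (Fin 2) ℤ).map (Int.castRingHom ℂ)).det
            = (((x - 20) ^ 2 : ℝ) : ℂ) := by
        simp [Matrix.det_fin_two, Matrix.algebraMap_matrix_apply]
        ring
      rw [e, Complex.ofReal_eq_zero, pow_eq_zero_iff (by norm_num), sub_eq_zero]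
  · rcases sub3 α hα with ⟨h, h2⟩ | ⟨h, h2⟩
    · left
      refine ⟨h2, ?_⟩
      ext x
      rw [mem_realSpec, sub_cast h, Set.mem_ofPred_eq]
      have e : (algebraMap ℂ (Matrix (Fin 3) (Fin 3) ℂ) (x : ℂ) -
          (!![20,19,20;0,20,20;380,380,400] : Matrix (Fin 3) (Fin 3) ℤ).map
            (Int.castRingHom ℂ)).det = ((G 2 x : ℝ) : ℂ) := by
        simp [Matrix.det_fin_three, G, Matrix.algebraMap_matrix_apply]
        ring
      rw [e, Complex.ofReal_eq_zero]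
    · right
      refine ⟨h2, ?_⟩
      ext x
      rw [mem_realSpec, sub_cast h, Set.mem_singleton_iff]
      have e : (algebraMap ℂ (Matrix (Fin 3) (Fin 3) ℂ) (x : ℂ) -
          (!![20,19,19;0,20,19;0,0,20] : Matrix (Fin 3) (Fin 3) ℤ).map
            (Int.castRingHom ℂ)).det = (((x - 20) ^ 3 : ℝ) : ℂ) := by
        simp [Matrix.det_fin_three, Matrix.algebraMap_matrix_apply]
        ring
      rw [e, Complex.ofReal_eq_zero, pow_eq_zero_iff (by norm_num), sub_eq_zero]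
  · obtain ⟨h, h2⟩ := sub4 α hα
    left
    refine ⟨h2, ?_⟩
    ext x
    rw [mem_realSpec, sub_cast h, Set.mem_ofPred_eq]
    have e : (algebraMap ℂ (Matrix (Fin 4) (Fin 4) ℂ) (x : ℂ) - A1.map (Int.castRingHom ℂ)).det
          = ((-G 3 x : ℝ) : ℂ) := by
      simp [Matrix.det_succ_row_zero, Fin.sum_univ_succ, Fin.succAbove, A1, G,
        Matrix.algebraMap_matrix_apply]
      ring
    rw [e, Complex.ofReal_eq_zero, neg_eq_zero]

lemma isOmega : IsOmega A4 := by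
  intro k m α β hα hβ hm hsub
  have hkm : m ≤ k := by
    choose f hf using hsub
    have hinj : Function.Injective f := by
      intro i j hij
      apply hβ.inj
      rw [hf i, hf j, hij]
    simpa using Fintype.card_le_of_injective f hinj
  have hk : 0 < k := hm.trans_le hkm
  have least10 : IsLeast ({20} : Set ℝ) 20 := isLeast_singleton
  rcases spec_desc k α hα hk with ⟨ha, hsa⟩ | ⟨ha, hsa⟩
  · rcases spec_desc m β hβ hm with ⟨hb, hsb⟩ | ⟨hb, hsb⟩
    · refine ⟨l (k - 1), l (m - 1), ?_, ?_, l_anti (by omega)⟩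
      · rw [hsa]; exact (l_spec (k - 1)).1
      · rw [hsb]; exact (l_spec (m - 1)).1
    · have hk2 : 2 ≤ k := by
        by_contra hc
        have hk1 : k = 1 := by omega
        subst hk1
        obtain ⟨i, hi⟩ := ha
        obtain ⟨j, hj⟩ := hsub ⟨0, hm⟩
        have : i = j := Subsingleton.elim _ _
        exact hb ⟨⟨0, hm⟩, by rw [hj, ← this, hi]⟩
      refine ⟨l (k - 1), 20, ?_, ?_, ?_⟩
      · rw [hsa]; exact (l_spec (k - 1)).1
      · rw [hsb]; exact least10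
      · have := (l_spec (k - 1)).2.2.1 (by omega)
        linarith
  · rcases spec_desc m β hβ hm with ⟨hb, hsb⟩ | ⟨hb, hsb⟩
    · exfalso
      obtain ⟨j, hj⟩ := hb
      obtain ⟨i, hi⟩ := hsub j
      exact ha ⟨i, by rw [← hi, hj]⟩
    · refine ⟨20, 20, ?_, ?_, le_rfl⟩
      · rw [hsa]; exact least10
      · rw [hsb]; exact least10

lemma spec_full : realSpec A4 = {x : ℝ | G 3 x = 0} := by
  have h := spec_desc 4 id (fun i j h => h) (by norm_num)
  rw [Matrix.submatrix_id_id] at h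
  rcases h with ⟨_, h⟩ | ⟨h, _⟩
  · exact h
  · exact absurd ⟨3, rfl⟩ h

lemma isTau : IsTau A4 := by
  refine ⟨isOmega, fun a ha => ?_⟩
  rw [spec_full] at ha
  by_contra hc
  exact (G_neg 3 (not_le.mp hc).le).ne ha

lemma chi (z : ℂ) : (algebraMap ℂ (Matrix (Fin 4) (Fin 4) ℂ) z - A4).det =
    z ^ 4 - 460 * z ^ 3 + 2400 * z ^ 2 - 9200 * z + 400 := by
  simp [Matrix.det_succ_row_zero, Fin.sum_univ_succ, Fin.succAbove, A4, A1,
    Matrix.algebraMap_matrix_apply]
  ring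

lemma re_inv_sq {z : ℂ} (_hz : z ≠ 0) (h : |z.arg| ≤ Real.pi / 4) : 0 ≤ ((z⁻¹) ^ 2).re := by
  have h2 : 0 ≤ Real.cos (2 * z.arg) := by
    apply Real.cos_nonneg_of_neg_pi_div_two_le_of_le
    · have := (abs_le.mp h).1; linarith
    · have := (abs_le.mp h).2; linarith
  have h3 : 0 ≤ (z ^ 2).re := by
    have : (z ^ 2).re = ‖z‖ ^ 2 * Real.cos (2 * z.arg) := by
      have e1 := Complex.norm_mul_cos_arg z
      have e2 := Complex.norm_mul_sin_arg z
      rw [Real.cos_two_mul', pow_two z, Complex.mul_re, ← e1, ← e2]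
      ring
    rw [this]; positivity
  rw [inv_pow, Complex.inv_re]
  exact div_nonneg h3 (Complex.normSq_nonneg _)

lemma exists_three_roots (E1 E2 E3 : ℂ) : ∃ z1 z2 z3 : ℂ, z1 + z2 + z3 = E1 ∧
    z1 * z2 + z1 * z3 + z2 * z3 = E2 ∧ z1 * z2 * z3 = E3 := by
  obtain ⟨z1, hz1⟩ : ∃ z : ℂ, z ^ 3 - E1 * z ^ 2 + E2 * z - E3 = 0 := by
    let p : Polynomial ℂ := Polynomial.X ^ 3 - Polynomial.C E1 * Polynomial.X ^ 2 +
      Polynomial.C E2 * Polynomial.X - Polynomial.C E3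
    have hd : p.degree ≠ 0 := by
      have : p.natDegree = 3 := by
        show (Polynomial.X ^ 3 - Polynomial.C E1 * Polynomial.X ^ 2 +
          Polynomial.C E2 * Polynomial.X - Polynomial.C E3).natDegree = 3
        compute_degree!
      intro h
      rw [Polynomial.degree_eq_natDegree (by intro h0; rw [h0] at this; simp at this), this] at h
      norm_num at h
    obtain ⟨z, hz⟩ := IsAlgClosed.exists_root p hd
    refine ⟨z, ?_⟩
    simpa [p, Polynomial.IsRoot] using hz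
  obtain ⟨w, hw⟩ := IsAlgClosed.exists_pow_nat_eq
    ((z1 - E1) ^ 2 - 4 * (z1 ^ 2 - E1 * z1 + E2)) (n := 2) (by norm_num)
  refine ⟨z1, (-(z1 - E1) + w) / 2, (-(z1 - E1) - w) / 2, by ring, ?_, ?_⟩
  · linear_combination (-1 / 4 : ℂ) * hw
  · linear_combination hz1 + (-z1 / 4) * hw

lemma not_V : ¬ IneqV A4 := by
  rintro ⟨l, hl, hV⟩
  have hl' : IsLeast {x : ℝ | G 3 x = 0} l := by rw [← spec_full]; exact hl
  have hroot : G 3 l = 0 := hl'.1
  have hl0 : 0 < l := by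
    by_contra hc
    exact (G_neg 3 (not_lt.mp hc)).ne hroot
  have hl1 : l ≤ 1 / 20 := by
    have hpos : 0 < G 3 (1 / 20) := by unfold G; norm_num
    have := intermediate_value_Icc (show (0 : ℝ) ≤ 1 / 20 by norm_num) (G_cont 3).continuousOn
    obtain ⟨x, hx, hx0⟩ := this ⟨(G_neg 3 le_rfl).le, hpos.le⟩
    exact (hl'.2 hx0).trans hx.2
  have hchi : l ^ 4 - 460 * l ^ 3 + 2400 * l ^ 2 - 9200 * l + 400 = 0 := by
    unfold G at hroot; linear_combination -hroot
  obtain ⟨z1, z2, z3, h1, h2, h3⟩ := exists_three_roots ((460 - 4 * l : ℝ) : ℂ)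
    ((2400 - 1380 * l + 6 * l ^ 2 : ℝ) : ℂ) ((9200 - 4800 * l + 1380 * l ^ 2 - 4 * l ^ 3 : ℝ) : ℂ)
  have hE3 : 0 < 9200 - 4800 * l + 1380 * l ^ 2 - 4 * l ^ 3 := by nlinarith
  have h3ne : z1 * z2 * z3 ≠ 0 := by
    rw [h3]; exact_mod_cast hE3.ne'
  have hz1 : z1 ≠ 0 := by rintro rfl; simp at h3ne
  have hz2 : z2 ≠ 0 := by rintro rfl; simp at h3ne
  have hz3 : z3 ≠ 0 := by rintro rfl; simp at h3ne
  have hchiC : (l : ℂ) ^ 4 - 460 * (l : ℂ) ^ 3 + 2400 * (l : ℂ) ^ 2 - 9200 * (l : ℂ) + 400 = 0 := by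
    exact_mod_cast hchi
  have hmem : ∀ z : ℂ, z ≠ 0 → z ^ 3 - ((460 - 4 * l : ℝ) : ℂ) * z ^ 2 +
      ((2400 - 1380 * l + 6 * l ^ 2 : ℝ) : ℂ) * z -
      ((9200 - 4800 * l + 1380 * l ^ 2 - 4 * l ^ 3 : ℝ) : ℂ) = 0 → 0 ≤ ((z⁻¹) ^ 2).re := by
    intro z hz h
    apply re_inv_sq hz
    have hs : ((l : ℂ) + z) ∈ spectrum ℂ A4 := by
      rw [mem_specC, chi]
      push_cast at h
      linear_combination hchiC + z * h
    have := hV _ hs (by simpa using hz)
    rw [add_sub_cancel_left] at this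
    refine this.trans (le_of_eq ?_)
    push_cast; ring
  have r1 := hmem z1 hz1 (by rw [← h1, ← h2, ← h3]; ring)
  have r2 := hmem z2 hz2 (by rw [← h1, ← h2, ← h3]; ring)
  have r3 := hmem z3 hz3 (by rw [← h1, ← h2, ← h3]; ring)
  have hsum : (z1⁻¹) ^ 2 + (z2⁻¹) ^ 2 + (z3⁻¹) ^ 2 =
      ((((2400 - 1380 * l + 6 * l ^ 2) ^ 2 - 2 * (460 - 4 * l) *
        (9200 - 4800 * l + 1380 * l ^ 2 - 4 * l ^ 3)) /
        (9200 - 4800 * l + 1380 * l ^ 2 - 4 * l ^ 3) ^ 2 : ℝ) : ℂ) := by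
    rw [Complex.ofReal_div, Complex.ofReal_pow, Complex.ofReal_sub, Complex.ofReal_pow,
      Complex.ofReal_mul, Complex.ofReal_mul, ← h1, ← h2, ← h3]
    push_cast
    field_simp
    ring
  have hre := congrArg Complex.re hsum
  rw [Complex.add_re, Complex.add_re, Complex.ofReal_re] at hre
  have hneg : ((2400 - 1380 * l + 6 * l ^ 2) ^ 2 - 2 * (460 - 4 * l) *
        (9200 - 4800 * l + 1380 * l ^ 2 - 4 * l ^ 3)) /
        (9200 - 4800 * l + 1380 * l ^ 2 - 4 * l ^ 3) ^ 2 < 0 := by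
    apply div_neg_of_neg_of_pos _ (by positivity)
    have a1 : 2400 - 1380 * l + 6 * l ^ 2 ≤ 2400 := by nlinarith
    have a2 : 0 ≤ 2400 - 1380 * l + 6 * l ^ 2 := by nlinarith
    have a3 : 459 ≤ 460 - 4 * l := by linarith
    have a4 : 8900 ≤ 9200 - 4800 * l + 1380 * l ^ 2 - 4 * l ^ 3 := by nlinarith
    have a5 : (2400 - 1380 * l + 6 * l ^ 2) ^ 2 ≤ 2400 ^ 2 := pow_le_pow_left₀ a2 a1 2
    have a6 : (459 : ℝ) * 8900 ≤ (460 - 4 * l) *
        (9200 - 4800 * l + 1380 * l ^ 2 - 4 * l ^ 3) :=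
      mul_le_mul a3 a4 (by norm_num) (by linarith)
    nlinarith
  linarith

end Pool.Agent.H17.Varga
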