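import Pool.Agent.H17.VisDef

set_option autoImplicit false

namespace Pool.Agent.H17.Vis

abbrev E2 := EuclideanSpace ℝ (Fin 2)

/-- the six points: `A B C a b c` -/
def PZ : Fin 6 → ℤ × ℤ := ![(33, 0), (0, 33), (0, 0), (18, 6), (9, 18), (6, 9)]

/-- the positions in the plane -/
noncomputable def pt (i : Fin 6) : E2 := !₂[((PZ i).1 : ℝ), ((PZ i).2 : ℝ)]

theorem pt0 (i : Fin 6) : pt i 0 = ((PZ i).1 : ℝ) := rfl
theorem pt1 (i : Fin 6) : pt i 1 = ((PZ i).2 : ℝ) := rfl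

/-- the seven triangles, counterclockwise -/
def tr : Fin 7 → Fin 6 × Fin 6 × Fin 6 :=
  ![(3, 4, 5), (0, 3, 5), (0, 1, 3), (1, 4, 3), (1, 2, 4), (2, 5, 4), (2, 0, 5)]

def Fc (i : Fin 7) : Finset (Fin 6) := {(tr i).1, (tr i).2.1, (tr i).2.2}

/-- affine functionals -/
def fz (f : ℤ × ℤ × ℤ) (i : Fin 6) : ℤ := f.1 * (PZ i).1 + f.2.1 * (PZ i).2 + f.2.2

noncomputable def fr (f : ℤ × ℤ × ℤ) (y : E2) : ℝ := f.1 * y 0 + f.2.1 * y 1 + f.2.2

theorem fr_sum {ι : Type*} (u : Finset ι) (w : ι → ℝ) (q : ι → Fin 6) (f : ℤ × ℤ × ℤ) (y : E2)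
    (c : ℝ) (h1 : ∑ e ∈ u, w e = c) (h2 : ∑ e ∈ u, w e • pt (q e) = y) :
    ∑ e ∈ u, w e * (fz f (q e) : ℝ) = f.1 * y 0 + f.2.1 * y 1 + f.2.2 * c := by
  have e0 : ∑ e ∈ u, w e * ((PZ (q e)).1 : ℝ) = y 0 := by
    rw [← h2]
    simp [pt0]
  have e1 : ∑ e ∈ u, w e * ((PZ (q e)).2 : ℝ) = y 1 := by
    rw [← h2]
    simp [pt1]
  rw [← e0, ← e1, ← h1, Finset.mul_sum, Finset.mul_sum, Finset.mul_sum, ← Finset.sum_add_distrib,
    ← Finset.sum_add_distrib]
  apply Finset.sum_congr rfl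
  intro e _
  unfold fz
  push_cast
  ring

theorem mem_hull (s : Finset (Fin 6)) (y : E2) :
    y ∈ convexHull ℝ (pt '' (s : Set (Fin 6))) ↔
      ∃ w : Fin 6 → ℝ, (∀ i ∈ s, 0 ≤ w i) ∧ ∑ i ∈ s, w i = 1 ∧ ∑ i ∈ s, w i • pt i = y := by
  constructor
  · intro h
    have hc : Convex ℝ {y : E2 | ∃ w : Fin 6 → ℝ, (∀ i ∈ s, 0 ≤ w i) ∧ ∑ i ∈ s, w i = 1 ∧
        ∑ i ∈ s, w i • pt i = y} := by
      rintro x ⟨w, hw0, hw1, hwx⟩ y ⟨v, hv0, hv1, hvy⟩ a b ha hb hab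
      refine ⟨fun i => a * w i + b * v i, ?_, ?_, ?_⟩
      · intro i hi
        have := hw0 i hi
        have := hv0 i hi
        positivity
      · rw [Finset.sum_add_distrib, ← Finset.mul_sum, ← Finset.mul_sum, hw1, hv1]
        linarith
      · simp only [add_smul, mul_smul]
        rw [Finset.sum_add_distrib, ← Finset.smul_sum, ← Finset.smul_sum, hwx, hvy]
    have hsub : pt '' (s : Set (Fin 6)) ⊆ {y : E2 | ∃ w : Fin 6 → ℝ, (∀ i ∈ s, 0 ≤ w i) ∧
        ∑ i ∈ s, w i = 1 ∧ ∑ i ∈ s, w i • pt i = y} := by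
      rintro _ ⟨i, hi, rfl⟩
      have hi' : i ∈ s := hi
      refine ⟨fun j => if j = i then 1 else 0, ?_, ?_, ?_⟩
      · intro j _
        dsimp only
        split_ifs <;> norm_num
      · rw [Finset.sum_ite_eq' s i, if_pos hi']
      · simp only [ite_smul, one_smul, zero_smul]
        rw [Finset.sum_ite_eq' s i, if_pos hi']
    exact convexHull_min hsub hc h
  · rintro ⟨w, h0, h1, rfl⟩
    exact (convex_convexHull ℝ _).sum_mem h0 h1 fun i hi =>
      subset_convexHull ℝ _ ⟨i, hi, rfl⟩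

/-- the separating functionals -/
def sep : Fin 7 → Fin 7 → ℤ × ℤ × ℤ :=
  ![![(0, 0, 0), (1, 4, -42), (-3, -2, 66), (-4, -3, 90), (2, -1, 0), (3, -1, -9), (1, 3, -33)],
    ![(-1, -4, 42), (0, 0, 0), (-2, -5, 66), (-1, -3, 36), (2, -1, 0), (2, -1, -3), (1, 3, -33)],
    ![(4, 3, -90), (2, 5, -66), (0, 0, 0), (3, 2, -66), (5, 3, -99), (3, 2, -63), (1, 3, -33)],
    ![(4, 3, -90), (1, 3, -36), (-3, -2, 66), (0, 0, 0), (5, 3, -99), (3, 2, -63), (1, 3, -33)],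
    ![(-3, 1, 9), (-2, 1, 3), (-3, -2, 66), (-5, -3, 99), (0, 0, 0), (-2, 1, 0), (-3, 2, 0)],
    ![(-3, 1, 9), (-2, 1, 3), (-3, -2, 66), (-3, -2, 63), (2, -1, 0), (0, 0, 0), (-3, 2, 0)],
    ![(-1, -4, 42), (-1, -3, 33), (-2, -5, 66), (-1, -3, 36), (2, -1, 0), (3, -2, 0), (0, 0, 0)]]

theorem sep_spec : ∀ i j : Fin 7, i ≠ j →
    (∀ v ∈ Fc i, 0 ≤ fz (sep i j) v ∧ (fz (sep i j) v = 0 → v ∈ Fc j)) ∧
    (∀ v ∈ Fc j, fz (sep i j) v ≤ 0) := by
  decide +kernel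

/-- the line through two of the points -/
def lineZ (p q : Fin 6) : ℤ × ℤ × ℤ :=
  (-((PZ q).2 - (PZ p).2), (PZ q).1 - (PZ p).1,
    ((PZ q).2 - (PZ p).2) * (PZ p).1 - ((PZ q).1 - (PZ p).1) * (PZ p).2)

def opp (i : Fin 7) (v : Fin 6) : ℤ × ℤ × ℤ :=
  if v = (tr i).1 then lineZ (tr i).2.1 (tr i).2.2
  else if v = (tr i).2.1 then lineZ (tr i).2.2 (tr i).1 else lineZ (tr i).1 (tr i).2.1

theorem opp_spec : ∀ i : Fin 7, ∀ v ∈ Fc i, 0 < fz (opp i v) v ∧
    ∀ u ∈ Fc i, u ≠ v → fz (opp i v) u = 0 := by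
  decide +kernel

/-- the complex -/
def Δ0 : Cx 6 where
  faces := Finset.univ.biUnion fun i : Fin 7 => (Fc i).powerset
  empty_mem := by decide +kernel
  vertex_mem := by decide +kernel
  down_closed := by
    intro s hs t ht
    rw [Finset.mem_biUnion] at hs ⊢
    obtain ⟨i, hi, hs⟩ := hs
    exact ⟨i, hi, Finset.mem_powerset.2 (ht.trans (Finset.mem_powerset.1 hs))⟩

theorem mem_faces {s : Finset (Fin 6)} : s ∈ Δ0.faces ↔ ∃ i : Fin 7, s ⊆ Fc i := by
  show s ∈ Finset.univ.biUnion _ ↔ _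
  simp

theorem indep0 {s : Finset (Fin 6)} (hs : s ∈ Δ0.faces) :
    AffineIndependent ℝ (fun i : s => pt i) := by
  obtain ⟨i, hi⟩ := mem_faces.1 hs
  rw [affineIndependent_iff]
  intro u w h1 h2 e he
  have h3 := fr_sum u w (fun e => (e : Fin 6)) (opp i e) 0 0 h1 h2
  have h4 := opp_spec i e (hi e.2)
  rw [Finset.sum_eq_single e] at h3
  · simp only [PiLp.zero_apply, mul_zero, add_zero] at h3
    have h5 : ((fz (opp i e) e : ℤ) : ℝ) ≠ 0 := by exact_mod_cast h4.1.ne'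
    exact (mul_eq_zero.1 h3).resolve_right h5
  · intro e' _ hne
    rw [h4.2 e' (hi e'.2) (fun h => hne (Subtype.ext h))]
    simp
  · intro h; exact absurd he h

/-- uniqueness of barycentric coordinates in one triangle -/
theorem inter_same {i : Fin 7} {s t : Finset (Fin 6)} (hs : s ⊆ Fc i) (ht : t ⊆ Fc i) {y : E2}
    (h1 : y ∈ convexHull ℝ (pt '' (s : Set (Fin 6))))
    (h2 : y ∈ convexHull ℝ (pt '' (t : Set (Fin 6)))) :
    y ∈ convexHull ℝ (pt '' ((s ∩ t : Finset (Fin 6)) : Set (Fin 6))) := by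
  rw [mem_hull] at h1 h2 ⊢
  obtain ⟨w, w0, w1, w2⟩ := h1
  obtain ⟨v, v0, v1, v2⟩ := h2
  have key : ∀ j ∈ s, j ∉ t → w j = 0 := by
    intro j hj hjt
    have h3 := fr_sum s w (fun e => e) (opp i j) y 1 w1 w2
    have h4 := fr_sum t v (fun e => e) (opp i j) y 1 v1 v2
    have h5 := opp_spec i j (hs hj)
    rw [Finset.sum_eq_single j] at h3
    · rw [Finset.sum_eq_zero] at h4
      · rw [← h4] at h3
        have h6 : ((fz (opp i j) j : ℤ) : ℝ) ≠ 0 := by exact_mod_cast h5.1.ne'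
        exact (mul_eq_zero.1 h3).resolve_right h6
      · intro e he
        rw [h5.2 e (ht he) (fun h => hjt (h ▸ he))]
        simp
    · intro e he hne
      rw [h5.2 e (hs he) hne]
      simp
    · intro h; exact absurd hj h
  refine ⟨w, fun j hj => w0 j (Finset.mem_inter.1 hj).1, ?_, ?_⟩
  · rw [← w1]
    apply Finset.sum_subset Finset.inter_subset_left
    intro j hj hj'
    exact key j hj (fun h => hj' (Finset.mem_inter.2 ⟨hj, h⟩))
  · rw [← w2]
    apply Finset.sum_subset Finset.inter_subset_left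
    intro j hj hj'
    rw [key j hj (fun h => hj' (Finset.mem_inter.2 ⟨hj, h⟩)), zero_smul]

theorem inter_half {i j : Fin 7} (hij : i ≠ j) {s t : Finset (Fin 6)} (hs : s ⊆ Fc i)
    (ht : t ⊆ Fc j) {y : E2} (h1 : y ∈ convexHull ℝ (pt '' (s : Set (Fin 6))))
    (h2 : y ∈ convexHull ℝ (pt '' (t : Set (Fin 6)))) :
    y ∈ convexHull ℝ (pt '' ((s ∩ Fc j : Finset (Fin 6)) : Set (Fin 6))) := by
  rw [mem_hull] at h1 h2 ⊢
  obtain ⟨w, w0, w1, w2⟩ := h1
  obtain ⟨v, v0, v1, v2⟩ := h2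
  have h3 := fr_sum s w (fun e => e) (sep i j) y 1 w1 w2
  have h4 := fr_sum t v (fun e => e) (sep i j) y 1 v1 v2
  obtain ⟨sp1, sp2⟩ := sep_spec i j hij
  have h5 : ∑ e ∈ t, v e * (fz (sep i j) e : ℝ) ≤ 0 := by
    apply Finset.sum_nonpos
    intro e he
    apply mul_nonpos_of_nonneg_of_nonpos (v0 e he)
    exact_mod_cast sp2 e (ht he)
  have h6 : ∀ e ∈ s, 0 ≤ w e * (fz (sep i j) e : ℝ) := by
    intro e he
    apply mul_nonneg (w0 e he)
    exact_mod_cast (sp1 e (hs he)).1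
  have h7 : ∑ e ∈ s, w e * (fz (sep i j) e : ℝ) = 0 := by
    apply le_antisymm _ (Finset.sum_nonneg h6)
    rw [h3, ← h4]; exact h5
  rw [Finset.sum_eq_zero_iff_of_nonneg h6] at h7
  have key : ∀ e ∈ s, e ∉ Fc j → w e = 0 := by
    intro e he hne
    rcases mul_eq_zero.1 (h7 e he) with h | h
    · exact h
    · exfalso
      apply hne
      apply (sp1 e (hs he)).2
      exact_mod_cast h
  refine ⟨w, fun j hj => w0 j (Finset.mem_inter.1 hj).1, ?_, ?_⟩
  · rw [← w1]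
    apply Finset.sum_subset Finset.inter_subset_left
    intro j hj hj'
    exact key j hj (fun h => hj' (Finset.mem_inter.2 ⟨hj, h⟩))
  · rw [← w2]
    apply Finset.sum_subset Finset.inter_subset_left
    intro j hj hj'
    rw [key j hj (fun h => hj' (Finset.mem_inter.2 ⟨hj, h⟩)), zero_smul]

theorem inter0 {s t : Finset (Fin 6)} (hs : s ∈ Δ0.faces) (ht : t ∈ Δ0.faces) :
    convexHull ℝ (pt '' (s : Set (Fin 6))) ∩ convexHull ℝ (pt '' (t : Set (Fin 6))) =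
      convexHull ℝ (pt '' ((s ∩ t : Finset (Fin 6)) : Set (Fin 6))) := by
  apply Set.Subset.antisymm
  · rintro y ⟨h1, h2⟩
    obtain ⟨i, hi⟩ := mem_faces.1 hs
    obtain ⟨j, hj⟩ := mem_faces.1 ht
    by_cases hij : i = j
    · subst hij
      exact inter_same hi hj h1 h2
    · have h3 := inter_half hij hi hj h1 h2
      have h4 := inter_half (Ne.symm hij) hj hi h2 h1
      have h5 := inter_same (i := i) (s := s ∩ Fc j) (t := t ∩ Fc i)
        (Finset.inter_subset_left.trans hi) Finset.inter_subset_right h3 h4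
      have e : (s ∩ Fc j) ∩ (t ∩ Fc i) = s ∩ t := by
        ext v
        simp only [Finset.mem_inter]
        constructor
        · rintro ⟨⟨a, _⟩, b, _⟩; exact ⟨a, b⟩
        · rintro ⟨a, b⟩; exact ⟨⟨a, hj b⟩, b, hi a⟩
      rwa [e] at h5
  · apply Set.subset_inter
    · apply convexHull_mono
      apply Set.image_mono
      exact_mod_cast Finset.inter_subset_left
    · apply convexHull_mono
      apply Set.image_mono
      exact_mod_cast Finset.inter_subset_right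

/-- the realization -/
noncomputable def R0 : Realization Δ0 2 where
  pt := pt
  indep := fun _ hs => indep0 hs
  inter := fun _ hs _ ht => inter0 hs ht

end Pool.Agent.H17.Vis
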