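import Pool.Agent.H17.Vis1

set_option autoImplicit false

namespace Pool.Agent.H17.Vis

/-- orientation -/
noncomputable def cr (P Q y : E2) : ℝ := (Q 0 - P 0) * (y 1 - P 1) - (Q 1 - P 1) * (y 0 - P 0)

theorem line_mem {P Q : E2} (h : P ≠ Q) (y : E2) :
    y ∈ affineSpan ℝ ({P, Q} : Set E2) ↔ cr P Q y = 0 := by
  rw [mem_affineSpan_pair_iff_exists_lineMap_eq]
  constructor
  · rintro ⟨t, rfl⟩
    simp [cr, AffineMap.lineMap_apply]
    ring
  · intro hc
    have hN : (Q 0 - P 0) ^ 2 + (Q 1 - P 1) ^ 2 ≠ 0 := by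
      intro h0
      apply h
      have h1 : Q 0 - P 0 = 0 := by nlinarith [sq_nonneg (Q 0 - P 0), sq_nonneg (Q 1 - P 1)]
      have h2 : Q 1 - P 1 = 0 := by nlinarith [sq_nonneg (Q 0 - P 0), sq_nonneg (Q 1 - P 1)]
      ext i
      fin_cases i
      · show P 0 = Q 0
        linarith
      · show P 1 = Q 1
        linarith
    refine ⟨((y 0 - P 0) * (Q 0 - P 0) + (y 1 - P 1) * (Q 1 - P 1)) /
      ((Q 0 - P 0) ^ 2 + (Q 1 - P 1) ^ 2), ?_⟩
    unfold cr at hc
    ext i
    fin_cases i
    · show (AffineMap.lineMap P Q _ : E2) 0 = y 0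
      simp only [AffineMap.lineMap_apply, vsub_eq_sub, vadd_eq_add, PiLp.add_apply,
        PiLp.smul_apply, PiLp.sub_apply, smul_eq_mul]
      field_simp
      linear_combination (Q 1 - P 1) * hc
    · show (AffineMap.lineMap P Q _ : E2) 1 = y 1
      simp only [AffineMap.lineMap_apply, vsub_eq_sub, vadd_eq_add, PiLp.add_apply,
        PiLp.smul_apply, PiLp.sub_apply, smul_eq_mul]
      field_simp
      linear_combination -(Q 0 - P 0) * hc

theorem cr_affine (P Q x y : E2) (t : ℝ) :
    cr P Q (AffineMap.lineMap x y t) = (1 - t) * cr P Q x + t * cr P Q y := by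
  simp [cr, AffineMap.lineMap_apply]
  ring

theorem sopp_iff {P Q : E2} (h : P ≠ Q) (x y : E2) :
    (affineSpan ℝ ({P, Q} : Set E2)).SOppSide x y ↔ cr P Q x * cr P Q y < 0 := by
  unfold AffineSubspace.SOppSide
  rw [AffineSubspace.wOppSide_iff_exists_wbtw, line_mem h, line_mem h]
  constructor
  · rintro ⟨⟨p, hp, t, ⟨ht0, ht1⟩, rfl⟩, hx, hy⟩
    rw [line_mem h, cr_affine] at hp
    by_contra hneg
    push Not at hneg
    rcases lt_trichotomy (cr P Q x) 0 with h1 | h1 | h1
    · have h2 : cr P Q y < 0 := by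
        rcases lt_or_gt_of_ne hy with h3 | h3
        · exact h3
        · nlinarith
      rcases eq_or_lt_of_le ht0 with h4 | h4
      · rw [← h4] at hp; simp at hp; exact hx hp
      · nlinarith
    · exact hx h1
    · have h2 : 0 < cr P Q y := by
        rcases lt_or_gt_of_ne hy with h3 | h3
        · nlinarith
        · exact h3
      rcases eq_or_lt_of_le ht0 with h4 | h4
      · rw [← h4] at hp; simp at hp; exact hx hp
      · nlinarith
  · intro hneg
    have hx : cr P Q x ≠ 0 := by intro h0; rw [h0] at hneg; simp at hneg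
    have hy : cr P Q y ≠ 0 := by intro h0; rw [h0] at hneg; simp at hneg
    refine ⟨⟨AffineMap.lineMap x y (cr P Q x / (cr P Q x - cr P Q y)), ?_, ?_⟩, hx, hy⟩
    · rw [line_mem h, cr_affine]
      have hd : cr P Q x - cr P Q y ≠ 0 := by
        intro h0
        have : cr P Q x = cr P Q y := by linarith
        rw [this] at hneg
        nlinarith [mul_self_nonneg (cr P Q y)]
      field_simp
      ring
    · refine ⟨_, ⟨?_, ?_⟩, rfl⟩
      · rcases lt_or_gt_of_ne hx with h1 | h1
        · have h2 : 0 < cr P Q y := by nlinarith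
          exact div_nonneg_of_nonpos h1.le (by linarith)
        · have h2 : cr P Q y < 0 := by nlinarith
          exact div_nonneg h1.le (by linarith)
      · rcases lt_or_gt_of_ne hx with h1 | h1
        · have h2 : 0 < cr P Q y := by nlinarith
          rw [div_le_one_of_neg (by linarith)]
          linarith
        · have h2 : cr P Q y < 0 := by nlinarith
          rw [div_le_one (by linarith)]
          linarith

theorem tri_mem (P Q R y : E2) (hD : 0 < cr P Q R) (h1 : 0 ≤ cr P Q y) (h2 : 0 ≤ cr Q R y)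
    (h3 : 0 ≤ cr R P y) : y ∈ convexHull ℝ ({P, Q, R} : Set E2) := by
  have key := (convex_convexHull ℝ ({P, Q, R} : Set E2)).sum_mem (t := Finset.univ)
    (w := ![cr Q R y / cr P Q R, cr R P y / cr P Q R, cr P Q y / cr P Q R]) (z := ![P, Q, R])
    (by
      intro i _
      fin_cases i
      · exact div_nonneg h2 hD.le
      · exact div_nonneg h3 hD.le
      · exact div_nonneg h1 hD.le)
    (by
      simp only [Fin.sum_univ_three, Matrix.cons_val_zero, Matrix.cons_val_one,
        Matrix.cons_val_two, Matrix.tail_cons, Matrix.head_cons]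
      rw [← add_div, ← add_div, div_eq_one_iff_eq hD.ne']
      unfold cr
      ring)
    (by
      intro i _
      apply subset_convexHull
      fin_cases i <;> simp)
  have e : ∑ i, (![cr Q R y / cr P Q R, cr R P y / cr P Q R, cr P Q y / cr P Q R] : Fin 3 → ℝ) i •
      (![P, Q, R] : Fin 3 → E2) i = y := by
    simp only [Fin.sum_univ_three, Matrix.cons_val_zero, Matrix.cons_val_one,
        Matrix.cons_val_two, Matrix.tail_cons, Matrix.head_cons]
    have hD' := hD.ne'
    ext i
    fin_cases i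
    · show (_ • P + _ • Q + _ • R : E2) 0 = y 0
      simp only [PiLp.add_apply, PiLp.smul_apply, smul_eq_mul]
      field_simp
      unfold cr
      ring
    · show (_ • P + _ • Q + _ • R : E2) 1 = y 1
      simp only [PiLp.add_apply, PiLp.smul_apply, smul_eq_mul]
      field_simp
      unfold cr
      ring
  rw [e] at key
  exact key

theorem img3 (i : Fin 7) : pt '' (Fc i : Set (Fin 6)) =
    {pt (tr i).1, pt (tr i).2.1, pt (tr i).2.2} := by
  simp [Fc, Set.image_insert_eq]

/-- the big triangle -/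
def T : Set E2 := {y | 0 ≤ y 0 ∧ 0 ≤ y 1 ∧ y 0 + y 1 ≤ 33}

theorem T_convex : Convex ℝ T := by
  rintro x ⟨h1, h2, h3⟩ y ⟨h4, h5, h6⟩ a b ha hb hab
  refine ⟨?_, ?_, ?_⟩
  · simp only [PiLp.add_apply, PiLp.smul_apply, smul_eq_mul]; positivity
  · simp only [PiLp.add_apply, PiLp.smul_apply, smul_eq_mul]; positivity
  · simp only [PiLp.add_apply, PiLp.smul_apply, smul_eq_mul]
    nlinarith

theorem in_space (i : Fin 7) (y : E2) (h1 : 0 ≤ cr (pt (tr i).1) (pt (tr i).2.1) y)
    (h2 : 0 ≤ cr (pt (tr i).2.1) (pt (tr i).2.2) y)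
    (h3 : 0 ≤ cr (pt (tr i).2.2) (pt (tr i).1) y) : y ∈ R0.space := by
  have h0 : 0 < cr (pt (tr i).1) (pt (tr i).2.1) (pt (tr i).2.2) := by
    have hz : ∀ i : Fin 7, 0 < ((PZ (tr i).2.1).1 - (PZ (tr i).1).1) *
      ((PZ (tr i).2.2).2 - (PZ (tr i).1).2) - ((PZ (tr i).2.1).2 - (PZ (tr i).1).2) *
      ((PZ (tr i).2.2).1 - (PZ (tr i).1).1) := by decide +kernel
    have := hz i
    unfold cr
    simp only [pt0, pt1]
    exact_mod_cast this
  have h4 := tri_mem _ _ _ y h0 h1 h2 h3
  rw [← img3] at h4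
  unfold Realization.space
  rw [Set.mem_iUnion₂]
  exact ⟨Fc i, mem_faces.2 ⟨i, Finset.Subset.refl _⟩, h4⟩

theorem space_eq : R0.space = T := by
  apply Set.Subset.antisymm
  · unfold Realization.space
    rw [Set.iUnion₂_subset_iff]
    intro s _
    apply convexHull_min _ T_convex
    rintro _ ⟨i, _, rfl⟩
    show 0 ≤ pt i 0 ∧ 0 ≤ pt i 1 ∧ pt i 0 + pt i 1 ≤ 33
    simp only [pt0, pt1]
    have hz : ∀ i : Fin 6, 0 ≤ (PZ i).1 ∧ 0 ≤ (PZ i).2 ∧ (PZ i).1 + (PZ i).2 ≤ 33 := by decide
    exact_mod_cast hz i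
  · rintro y ⟨h1, h2, h3⟩
    have L : ∀ i : Fin 7, (0 ≤ cr (pt (tr i).1) (pt (tr i).2.1) y ∧
      0 ≤ cr (pt (tr i).2.1) (pt (tr i).2.2) y ∧
      0 ≤ cr (pt (tr i).2.2) (pt (tr i).1) y) → y ∈ R0.space := fun i h =>
      in_space i y h.1 h.2.1 h.2.2
    have L0 := L 0
    have L1 := L 1
    have L2 := L 2
    have L3 := L 3
    have L4 := L 4
    have L5 := L 5
    have L6 := L 6
    simp [cr, pt0, pt1, tr, PZ] at L0 L1 L2 L3 L4 L5 L6
    rcases le_total 0 (-2 * y 0 - 5 * y 1 + 66) with a1 | a1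
    · rcases le_total 0 (-y 0 - 3 * y 1 + 33) with a2 | a2
      · rcases le_total 0 (-3 * y 0 + 2 * y 1) with a3 | a3
        · rcases le_total 0 (-2 * y 0 + y 1) with a4 | a4
          · apply L4 <;> linarith
          · apply L5 <;> linarith
        · apply L6 <;> linarith
      · rcases le_total 0 (-3 * y 0 + y 1 + 9) with a3 | a3
        · rcases le_total 0 (-2 * y 0 + y 1) with a4 | a4
          · apply L4 <;> linarith
          · apply L5 <;> linarith
        · rcases le_total 0 (-y 0 - 4 * y 1 + 42) with a4 | a4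
          · apply L1 <;> linarith
          · apply L0 <;> linarith
    · rcases le_total 0 (-2 * y 0 + y 1) with a2 | a2
      · rcases le_total 0 (-3 * y 0 - 2 * y 1 + 66) with a3 | a3
        · rcases le_total 0 (-5 * y 0 - 3 * y 1 + 99) with a4 | a4
          · apply L4 <;> linarith
          · apply L3 <;> linarith
        · apply L2 <;> linarith
      · rcases le_total 0 (-4 * y 0 - 3 * y 1 + 90) with a3 | a3
        · rcases le_total 0 (-3 * y 0 + y 1 + 9) with a4 | a4
          · apply L5 <;> linarith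
          · apply L0 <;> linarith
        · rcases le_total 0 (-3 * y 0 - 2 * y 1 + 66) with a4 | a4
          · apply L3 <;> linarith
          · apply L2 <;> linarith

end Pool.Agent.H17.Vis
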