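import Pool.Agent.H17.Vis2

set_option autoImplicit false

namespace Pool.Agent.H17.Vis

/-- the view point -/
noncomputable def x0 : E2 := !₂[(11 : ℝ), (11 : ℝ)]

def czZ (p q : Fin 6) (a : ℤ × ℤ) : ℤ :=
  ((PZ q).1 - (PZ p).1) * (a.2 - (PZ p).2) - ((PZ q).2 - (PZ p).2) * (a.1 - (PZ p).1)

theorem cr_pt (p q v : Fin 6) : cr (pt p) (pt q) (pt v) = (czZ p q (PZ v) : ℝ) := by
  unfold cr czZ
  simp only [pt0, pt1]
  push_cast
  ring

theorem cr_x0 (p q : Fin 6) : cr (pt p) (pt q) x0 = (czZ p q (11, 11) : ℝ) := by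
  unfold cr czZ
  have h0 : x0 0 = 11 := rfl
  have h1 : x0 1 = 11 := rfl
  simp only [pt0, pt1, h0, h1]
  push_cast
  ring

theorem pt_ne {p q : Fin 6} (h : p ≠ q) : pt p ≠ pt q := by
  intro he
  have h0 : ((PZ p).1 : ℝ) = (PZ q).1 := congrArg (fun y : E2 => y 0) he
  have h1 : ((PZ p).2 : ℝ) = (PZ q).2 := congrArg (fun y : E2 => y 1) he
  have h0' : (PZ p).1 = (PZ q).1 := by exact_mod_cast h0
  have h1' : (PZ p).2 = (PZ q).2 := by exact_mod_cast h1
  have : ∀ p q : Fin 6, (PZ p).1 = (PZ q).1 → (PZ p).2 = (PZ q).2 → p = q := by decide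
  exact h (this p q h0' h1')

theorem generic0 : R0.Generic x0 := by
  intro s hs hc
  have key : ∀ s ∈ Δ0.faces, s.card = 2 → ∃ p q : Fin 6, s = {p, q} ∧ p ≠ q ∧
      czZ p q (11, 11) ≠ 0 := by decide +kernel
  obtain ⟨p, q, rfl, hpq, hz⟩ := key s hs hc
  have e : R0.pt '' (({p, q} : Finset (Fin 6)) : Set (Fin 6)) = {pt p, pt q} := by
    simp [Set.image_insert_eq, R0]
  rw [e, line_mem (pt_ne hpq), cr_x0]
  exact_mod_cast hz

theorem x0_mem : x0 ∈ R0.space := by
  rw [space_eq]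
  refine ⟨?_, ?_, ?_⟩
  · show (0:ℝ) ≤ 11; norm_num
  · show (0:ℝ) ≤ 11; norm_num
  · show (11:ℝ) + 11 ≤ 33; norm_num

theorem visible_iff {F : Finset (Fin 6)} {v p q : Fin 6} (h : F.erase v = {p, q}) (hpq : p ≠ q) :
    R0.Visible x0 F v ↔ czZ p q (11, 11) * czZ p q (PZ v) < 0 := by
  unfold Realization.Visible
  have e : R0.pt '' (((F.erase v : Finset (Fin 6))) : Set (Fin 6)) = {pt p, pt q} := by
    rw [h]
    simp [Set.image_insert_eq, R0]
  rw [e]
  show (affineSpan ℝ ({pt p, pt q} : Set E2)).SOppSide x0 (pt v) ↔ _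
  rw [sopp_iff (pt_ne hpq), cr_pt, cr_x0]
  exact_mod_cast Iff.rfl

theorem G1 : R0.G x0 {0, 3, 5} = {0, 5} := by
  classical
  have h0 : R0.Visible x0 {0, 3, 5} 0 := by
    rw [visible_iff (p := 3) (q := 5) (by decide) (by decide)]; decide
  have h3 : ¬ R0.Visible x0 {0, 3, 5} 3 := by
    rw [visible_iff (p := 0) (q := 5) (by decide) (by decide)]; decide
  have h5 : R0.Visible x0 {0, 3, 5} 5 := by
    rw [visible_iff (p := 0) (q := 3) (by decide) (by decide)]; decide
  ext v
  unfold Realization.G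
  simp only [Finset.mem_filter, Finset.mem_insert, Finset.mem_singleton]
  constructor
  · rintro ⟨rfl | rfl | rfl, h⟩
    · left; rfl
    · exact absurd h h3
    · right; rfl
  · rintro (rfl | rfl)
    · exact ⟨Or.inl rfl, h0⟩
    · exact ⟨Or.inr (Or.inr rfl), h5⟩

theorem G3 : R0.G x0 {1, 4, 3} = {1, 3} := by
  classical
  have h0 : R0.Visible x0 {1, 4, 3} 1 := by
    rw [visible_iff (p := 4) (q := 3) (by decide) (by decide)]; decide
  have h3 : ¬ R0.Visible x0 {1, 4, 3} 4 := by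
    rw [visible_iff (p := 1) (q := 3) (by decide) (by decide)]; decide
  have h5 : R0.Visible x0 {1, 4, 3} 3 := by
    rw [visible_iff (p := 1) (q := 4) (by decide) (by decide)]; decide
  ext v
  unfold Realization.G
  simp only [Finset.mem_filter, Finset.mem_insert, Finset.mem_singleton]
  constructor
  · rintro ⟨rfl | rfl | rfl, h⟩
    · left; rfl
    · exact absurd h h3
    · right; rfl
  · rintro (rfl | rfl)
    · exact ⟨Or.inl rfl, h0⟩
    · exact ⟨Or.inr (Or.inr rfl), h5⟩

theorem G5 : R0.G x0 {2, 5, 4} = {2, 4} := by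
  classical
  have h0 : R0.Visible x0 {2, 5, 4} 2 := by
    rw [visible_iff (p := 5) (q := 4) (by decide) (by decide)]; decide
  have h3 : ¬ R0.Visible x0 {2, 5, 4} 5 := by
    rw [visible_iff (p := 2) (q := 4) (by decide) (by decide)]; decide
  have h5 : R0.Visible x0 {2, 5, 4} 4 := by
    rw [visible_iff (p := 2) (q := 5) (by decide) (by decide)]; decide
  ext v
  unfold Realization.G
  simp only [Finset.mem_filter, Finset.mem_insert, Finset.mem_singleton]
  constructor
  · rintro ⟨rfl | rfl | rfl, h⟩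
    · left; rfl
    · exact absurd h h3
    · right; rfl
  · rintro (rfl | rfl)
    · exact ⟨Or.inl rfl, h0⟩
    · exact ⟨Or.inr (Or.inr rfl), h5⟩

theorem Fc_card : ∀ i : Fin 7, (Fc i).card = 3 := by decide +kernel

theorem Fc_facet (i : Fin 7) : Δ0.IsFacet (Fc i) := by
  refine ⟨mem_faces.2 ⟨i, Finset.Subset.refl _⟩, ?_⟩
  intro s hs hsub
  obtain ⟨j, hj⟩ := mem_faces.1 hs
  symm
  apply Finset.eq_of_subset_of_card_le hsub
  rw [Fc_card]
  exact (Finset.card_le_card hj).trans (Fc_card j).le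

theorem facet_card {F : Finset (Fin 6)} (hF : Δ0.IsFacet F) : F.card = 3 := by
  obtain ⟨i, hi⟩ := mem_faces.1 hF.1
  rw [← hF.2 (Fc i) (mem_faces.2 ⟨i, Finset.Subset.refl _⟩) hi]
  exact Fc_card i

section

variable {k : Type*} [Field k]

open MvPolynomial

variable (k) in
/-- the linear system of parameters -/
noncomputable def θ0 : Fin 3 → MvPolynomial (Fin 6) k :=
  ![X 3 - X 1 - X 2, X 4 - X 2 - X 0, X 5 - X 0 - X 1]

variable (k) in
/-- the images of the variables -/
noncomputable def v (i : Fin 6) : Δ0.Reduction (θ0 k) := Ideal.Quotient.mk _ (X i)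

theorem rel_theta (i : Fin 3) : (Ideal.Quotient.mk (Δ0.faceIdeal k ⊔ Ideal.span (Set.range (θ0 k)))
    (θ0 k i)) = 0 :=
  Ideal.Quotient.eq_zero_iff_mem.2 (Ideal.mem_sup_right (Ideal.subset_span ⟨i, rfl⟩))

theorem r3 : v k 3 = v k 1 + v k 2 := by
  have h := rel_theta (k := k) 0
  have e : θ0 k 0 = X 3 - X 1 - X 2 := rfl
  rw [e, map_sub, map_sub] at h
  unfold v
  linear_combination h

theorem r4 : v k 4 = v k 2 + v k 0 := by
  have h := rel_theta (k := k) 1
  have e : θ0 k 1 = X 4 - X 2 - X 0 := rfl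
  rw [e, map_sub, map_sub] at h
  unfold v
  linear_combination h

theorem r5 : v k 5 = v k 0 + v k 1 := by
  have h := rel_theta (k := k) 2
  have e : θ0 k 2 = X 5 - X 0 - X 1 := rfl
  rw [e, map_sub, map_sub] at h
  unfold v
  linear_combination h

theorem rel_face {S : Finset (Fin 6)} (hS : S ∉ Δ0.faces) : ∏ i ∈ S, v k i = 0 := by
  unfold v
  rw [← map_prod]
  exact Ideal.Quotient.eq_zero_iff_mem.2 (Ideal.mem_sup_left (Ideal.subset_span ⟨S, hS, rfl⟩))

theorem n04 : v k 0 * v k 4 = 0 := by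
  have h := rel_face (k := k) (S := {0, 4}) (by decide +kernel)
  rwa [Finset.prod_pair (by decide)] at h

theorem n15 : v k 1 * v k 5 = 0 := by
  have h := rel_face (k := k) (S := {1, 5}) (by decide +kernel)
  rwa [Finset.prod_pair (by decide)] at h

theorem n23 : v k 2 * v k 3 = 0 := by
  have h := rel_face (k := k) (S := {2, 3}) (by decide +kernel)
  rwa [Finset.prod_pair (by decide)] at h

theorem n012 : v k 0 * (v k 1 * v k 2) = 0 := by
  have h := rel_face (k := k) (S := {0, 1, 2}) (by decide +kernel)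
  rwa [Finset.prod_insert (by decide), Finset.prod_pair (by decide)] at h

theorem dep : v k 0 * v k 5 + v k 1 * v k 3 + v k 2 * v k 4 = 0 := by
  have h1 := n04 (k := k)
  have h2 := n15 (k := k)
  have h3 := n23 (k := k)
  rw [r4] at h1
  rw [r5] at h2
  rw [r3] at h3
  rw [r3, r4, r5]
  linear_combination h1 + h2 + h3

theorem nil0 : v k 0 ^ 3 = 0 := by
  have h1 := n04 (k := k)
  have h3 := n23 (k := k)
  have h4 := n012 (k := k)
  rw [r4] at h1
  rw [r3] at h3
  linear_combination (v k 0 - v k 2) * h1 + (v k 0) * h3 - h4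

theorem nil1 : v k 1 ^ 3 = 0 := by
  have h1 := n15 (k := k)
  have h3 := n04 (k := k)
  have h4 := n012 (k := k)
  rw [r5] at h1
  rw [r4] at h3
  linear_combination (v k 1 - v k 0) * h1 + (v k 1) * h3 - h4

theorem nil2 : v k 2 ^ 3 = 0 := by
  have h1 := n23 (k := k)
  have h3 := n15 (k := k)
  have h4 := n012 (k := k)
  rw [r3] at h1
  rw [r5] at h3
  linear_combination (v k 2 - v k 1) * h1 + (v k 2) * h3 - h4

theorem int_v (i : Fin 6) : IsIntegral k (v k i) := by
  have h0 : IsIntegral k (v k 0) := ⟨Polynomial.X ^ 3, Polynomial.monic_X_pow 3, by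
    rw [Polynomial.eval₂_pow, Polynomial.eval₂_X, nil0]⟩
  have h1 : IsIntegral k (v k 1) := ⟨Polynomial.X ^ 3, Polynomial.monic_X_pow 3, by
    rw [Polynomial.eval₂_pow, Polynomial.eval₂_X, nil1]⟩
  have h2 : IsIntegral k (v k 2) := ⟨Polynomial.X ^ 3, Polynomial.monic_X_pow 3, by
    rw [Polynomial.eval₂_pow, Polynomial.eval₂_X, nil2]⟩
  fin_cases i
  · exact h0
  · exact h1
  · exact h2
  · show IsIntegral k (v k 3)
    rw [r3]; exact h1.add h2
  · show IsIntegral k (v k 4)
    rw [r4]; exact h2.add h0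
  · show IsIntegral k (v k 5)
    rw [r5]; exact h0.add h1

theorem fin0 : Module.Finite k (Δ0.Reduction (θ0 k)) := by
  have h1 : Algebra.IsIntegral k (Δ0.Reduction (θ0 k)) := by
    constructor
    intro x
    obtain ⟨p, rfl⟩ := Ideal.Quotient.mk_surjective x
    induction p using MvPolynomial.induction_on with
    | C a => exact isIntegral_algebraMap (R := k) (A := Δ0.Reduction (θ0 k)) (x := a)
    | add p q hp hq => rw [map_add]; exact hp.add hq
    | mul_X p i hp => rw [map_mul]; exact hp.mul (int_v i)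
  have h2 : Algebra.FiniteType k (Δ0.Reduction (θ0 k)) := inferInstance
  exact Algebra.IsIntegral.finite

theorem lsop0 : Δ0.IsLSOP (θ0 k) := by
  refine ⟨?_, fin0⟩
  intro i
  fin_cases i
  · exact ((isHomogeneous_X k 3).sub (isHomogeneous_X k 1)).sub (isHomogeneous_X k 2)
  · exact ((isHomogeneous_X k 4).sub (isHomogeneous_X k 2)).sub (isHomogeneous_X k 0)
  · exact ((isHomogeneous_X k 5).sub (isHomogeneous_X k 0)).sub (isHomogeneous_X k 1)

theorem main (k : Type*) [Field k] : ∃ (Δ : Cx 6) (R : Realization Δ 2), (∀ F, Δ.IsFacet F → F.card = 3) ∧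
    Convex ℝ R.space ∧ ∃ x ∈ R.space, R.Generic x ∧
    ∃ θ : Fin 3 → MvPolynomial (Fin 6) k, Δ.IsLSOP θ ∧
      ¬ LinearIndependent k (fun F : {F // Δ.IsFacet F} =>
        (Ideal.Quotient.mk _ (∏ i ∈ R.G x F, MvPolynomial.X i) : Δ.Reduction θ)) := by
  classical
  refine ⟨Δ0, R0, fun F hF => facet_card hF, ?_, x0, x0_mem, generic0, θ0 k, lsop0, ?_⟩
  · rw [space_eq]; exact T_convex
  · intro hli
    rw [linearIndependent_iff'] at hli
    let f1 : {F // Δ0.IsFacet F} := ⟨{0, 3, 5}, Fc_facet 1⟩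
    let f3 : {F // Δ0.IsFacet F} := ⟨{1, 4, 3}, Fc_facet 3⟩
    let f5 : {F // Δ0.IsFacet F} := ⟨{2, 5, 4}, Fc_facet 5⟩
    have h13 : f1 ≠ f3 := fun h => by
      have := congrArg Subtype.val h
      exact absurd this (by decide)
    have h15 : f1 ≠ f5 := fun h => by
      have := congrArg Subtype.val h
      exact absurd this (by decide)
    have h35 : f3 ≠ f5 := fun h => by
      have := congrArg Subtype.val h
      exact absurd this (by decide)
    have h := hli {f1, f3, f5} (fun _ => 1) (by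
      rw [Finset.sum_insert (by simp [h13, h15]), Finset.sum_pair h35, one_smul, one_smul, one_smul]
      show Ideal.Quotient.mk _ (∏ i ∈ R0.G x0 {0, 3, 5}, MvPolynomial.X i) +
        (Ideal.Quotient.mk _ (∏ i ∈ R0.G x0 {1, 4, 3}, MvPolynomial.X i) +
        Ideal.Quotient.mk _ (∏ i ∈ R0.G x0 {2, 5, 4}, MvPolynomial.X i)) = 0
      rw [G1, G3, G5, Finset.prod_pair (by decide), Finset.prod_pair (by decide),
        Finset.prod_pair (by decide), map_mul, map_mul, map_mul, ← add_assoc]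
      exact dep) f1 (by simp)
    exact one_ne_zero h

end

end Pool.Agent.H17.Vis
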