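import Mathlib

set_option autoImplicit false

namespace Pool.Agent.H17.Vis

/-- A finite simplicial complex on the vertex set `{0, …, n-1}`. -/
structure Cx (n : ℕ) where
  /-- the faces -/
  faces : Finset (Finset (Fin n))
  empty_mem : ∅ ∈ faces
  vertex_mem : ∀ i : Fin n, {i} ∈ faces
  down_closed : ∀ s ∈ faces, ∀ t : Finset (Fin n), t ⊆ s → t ∈ faces

/-- The facets are the maximal faces. -/
def Cx.IsFacet {n : ℕ} (Δ : Cx n) (F : Finset (Fin n)) : Prop :=
  F ∈ Δ.faces ∧ ∀ s ∈ Δ.faces, F ⊆ s → s = F

/-- A geometric realization of `Δ` in `ℝ^m`: a position for every vertex such that the vertices of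
each face are affinely independent and the simplices of two faces meet exactly in the simplex of
their common face. -/
structure Realization {n : ℕ} (Δ : Cx n) (m : ℕ) where
  /-- the position of a vertex -/
  pt : Fin n → EuclideanSpace ℝ (Fin m)
  indep : ∀ s ∈ Δ.faces, AffineIndependent ℝ (fun i : s => pt i)
  inter : ∀ s ∈ Δ.faces, ∀ t ∈ Δ.faces,
    convexHull ℝ (pt '' (s : Set (Fin n))) ∩ convexHull ℝ (pt '' (t : Set (Fin n))) =
      convexHull ℝ (pt '' ((s ∩ t : Finset (Fin n)) : Set (Fin n)))

variable {n m : ℕ} {Δ : Cx n}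

/-- The underlying space of the geometric complex. -/
def Realization.space (R : Realization Δ m) : Set (EuclideanSpace ℝ (Fin m)) :=
  ⋃ s ∈ Δ.faces, convexHull ℝ (R.pt '' (s : Set (Fin n)))

/-- With `m = d - 1`, the `(d-2)`-faces are those with `m` vertices: `x` lies on none of the affine
hyperplanes they span. -/
def Realization.Generic (R : Realization Δ m) (x : EuclideanSpace ℝ (Fin m)) : Prop :=
  ∀ s ∈ Δ.faces, s.card = m → x ∉ affineSpan ℝ (R.pt '' (s : Set (Fin n)))

/-- `F \ {v}` is visible from `x`: the point `x` and the vertex `v` of the facet `F` (equivalently,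
the interior of `F`) lie strictly on opposite sides of the hyperplane spanned by `F \ {v}`. -/
def Realization.Visible (R : Realization Δ m) (x : EuclideanSpace ℝ (Fin m))
    (F : Finset (Fin n)) (v : Fin n) : Prop :=
  (affineSpan ℝ (R.pt '' ((F.erase v : Finset (Fin n)) : Set (Fin n)))).SOppSide x (R.pt v)

open Classical in
/-- `G_F = {v ∈ F : F \ {v} is visible from x}` -/
noncomputable def Realization.G (R : Realization Δ m) (x : EuclideanSpace ℝ (Fin m))
    (F : Finset (Fin n)) : Finset (Fin n) := F.filter fun v => R.Visible x F v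

/-- The ideal `I_Δ` generated by the squarefree monomials of the non-faces. -/
noncomputable def Cx.faceIdeal (Δ : Cx n) (k : Type*) [Field k] : Ideal (MvPolynomial (Fin n) k) :=
  Ideal.span {f | ∃ S : Finset (Fin n), S ∉ Δ.faces ∧ f = ∏ i ∈ S, MvPolynomial.X i}

/-- The ring `k[Δ]/(θ₁, …, θ_d)`, written as the quotient of the polynomial ring by
`I_Δ + (θ₁, …, θ_d)`. -/
abbrev Cx.Reduction (Δ : Cx n) {k : Type*} [Field k] {d : ℕ} (θ : Fin d → MvPolynomial (Fin n) k) :
    Type _ :=
  MvPolynomial (Fin n) k ⧸ (Δ.faceIdeal k ⊔ Ideal.span (Set.range θ))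

/-- `θ₁, …, θ_d` is a linear system of parameters. -/
def Cx.IsLSOP (Δ : Cx n) {k : Type*} [Field k] {d : ℕ} (θ : Fin d → MvPolynomial (Fin n) k) :
    Prop :=
  (∀ i, (θ i).IsHomogeneous 1) ∧ Module.Finite k (Δ.Reduction θ)

end Pool.Agent.H17.Vis
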